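import Pool.Agent.Work.MP_6bf1e5_an.Dec.StDefs
import Pool.Agent.Work.MP_6bf1e5_an.G.Final

/-!
From the absence of global Fourier solutions to blow-up of classical solutions.
-/

open Set Filter Topology

namespace Pool.Agent.Work.MP_6bf1e5_an.B.G

noncomputable section

/-- The symbol of `-ν Δ`. -/
def lapS (ν : ℝ) (k : Z3) : C3 →L[ℂ] C3 := ((ν * ax k ^ 2 : ℝ) : ℂ) • ContinuousLinearMap.id ℂ C3

lemma lapS_apply (ν : ℝ) (k : Z3) (v : C3) : lapS ν k v = ((ν * ax k ^ 2 : ℝ) : ℂ) • v := rfl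

lemma diss_lapS [PJ] {ν : ℝ} (hν : 0 < ν) : Diss ν (lapS ν) := by
  have h := diss_visc hν
  exact ⟨hν, fun k v hv => h.coer k v hv.dt, h.growth, fun k v hv => hv.smul _, h.real⟩

lemma rapid_of_finite {a : Z3 → C3} (fin : {k | a k ≠ 0}.Finite) : Rapid a := fun s => by
  have hs : Summable fun k => w k ^ s * ‖a k‖ := by
    refine summable_of_ne_finset_zero (s := fin.toFinset) fun k hk => ?_
    have : a k = 0 := by simpa using hk
    simp [this]
  exact ⟨_, Bd.of_tsum hs le_rfl⟩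

lemma removed_eq (S1 S2 : Set Z3) (c : Z3 → C3) (k : Z3) :
    S1ᶜ.indicator (fun k => hP 1 k (c k)) k + S2ᶜ.indicator (fun k => hP (-1) k (c k)) k =
      B.LP k (c k) - PS 1 S1 S2 k (c k) := by
  by_cases hk : k = 0
  · simp [hk, PS_zero, hP_zero, B.LP_apply, Set.indicator]
  · rw [PS_apply hk, ← hP_add 1 hk]
    by_cases c1 : k ∈ S1 <;> by_cases c2 : k ∈ S2 <;> simp [c1, c2, ch_mem, ch_not]

/-- The Fourier series of the right-hand side of the decimated system. -/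
lemma hasSum_decim {S1 S2 : Set Z3} (h1 : ∀ k, -k ∈ S1 ↔ k ∈ S1) (h2 : ∀ k, -k ∈ S2 ↔ k ∈ S2)
    (ν : ℝ) {v : R3 → R3} (hv : IsData v) (x : R3) (i : Fin 3) :
    HasSum (fun k => ek k x * (-(lapS ν k (fc v k)) + (B.LP k (BB (fc v) (fc v) k) -
      PS 1 S1 S2 k (BB (fc v) (fc v) k))) i) ((decim ν S1 S2 v x i : ℝ) : ℂ) := by
  let _ : PJ := pj (s := 1) (by norm_num) h1 h2
  obtain ⟨rp, re, -, -⟩ := hv.fourier
  obtain ⟨M, hM⟩ := rp 1
  have rB := BB_real (hM.mono (Nat.zero_le 1)) hM re re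
  have e : fc (transport v) = BB (fc v) (fc v) := by
    funext k
    exact fc_transport hv.smooth hv.periodic hv.smooth hv.periodic k
  have s2 := hasSum_real (c := fun k => B.LP k (BB (fc v) (fc v) k) - LP k (BB (fc v) (fc v) k))
    (fun n => by
      obtain ⟨M2, hM2⟩ := rp (n + 1)
      have hb := Bd_BB (hM2.mono (Nat.le_succ n)) hM2
      exact ⟨_, hb.LP.sub (Bd_LP hb)⟩)
    (fun k => by simp only [rB k, LP_cj, B.LP_cj, map_sub]) x i
  have s := (hasSum_viscous ν hv x i).add s2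
  unfold decim
  simp only [e, removed_eq]
  push_cast
  refine s.congr_fun fun k => ?_
  rw [← mul_add]
  rfl

lemma summable_decim {S1 S2 : Set Z3} (h1 : ∀ k, -k ∈ S1 ↔ k ∈ S1) (h2 : ∀ k, -k ∈ S2 ↔ k ∈ S2)
    {ν : ℝ} (hν : 0 < ν) {v : R3 → R3} (hv : IsData v) :
    Summable fun k => ‖-(lapS ν k (fc v k)) + (B.LP k (BB (fc v) (fc v) k) -
      PS 1 S1 S2 k (BB (fc v) (fc v) k))‖ := by
  let _ : PJ := pj (s := 1) (by norm_num) h1 h2
  obtain ⟨rp, -, -, -⟩ := hv.fourier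
  obtain ⟨C, m, hC, hg⟩ := (diss_lapS hν).growth
  obtain ⟨M, hM⟩ := rp 1
  obtain ⟨N, hN⟩ := rp.map hC hg 0
  have hb := Bd_BB (hM.mono (Nat.le_succ 0)) hM
  exact (hN.neg.add (hb.LP.sub (Bd_LP hb))).summable_norm

/-- Classical solutions of the decimated system with retained data are Fourier-side solutions. -/
theorem isSol_decim {S1 S2 : Set Z3} (h1 : ∀ k, -k ∈ S1 ↔ k ∈ S1) (h2 : ∀ k, -k ∈ S2 ↔ k ∈ S2)
    {ν : ℝ} (hν : 0 < ν) {u0 : R3 → R3} {J : Set ℝ} {u : R3 → ℝ → R3} {p : R3 → ℝ → ℝ}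
    (h : IsSolutionOn (decim ν S1 S2) u0 J u p) (hJ : UniqueDiffOn ℝ J)
    (fx : ∀ k, PS 1 S1 S2 k (fc u0 k) = fc u0 k) {T : ℝ} (hT : Icc 0 T ⊆ J) :
    @IsSol (pj (s := 1) (by norm_num) h1 h2) (lapS ν) (fun s => fc fun x => u x s) 0 T := by
  let _ : PJ := pj (s := 1) (by norm_num) h1 h2
  have hdiv : ∀ s ∈ Icc 0 T, B.DivFree (fc fun x => u x s) := fun s hs =>
    (h.isData_slice (hT hs)).fourier.2.2.1
  have der : ∀ k, ∀ s ∈ Icc 0 T, HasDerivWithinAt (fun s => fc (fun x => u x s) k)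
      (FF (lapS ν) (fc fun x => u x s) k) (Icc 0 T) s := by
    intro k s hs
    have hd := h.isData_slice (hT hs)
    have d1 : HasDerivWithinAt (fun s => fc (fun x => u x s) k)
        (fc (fun x i => derivWithin (fun s => u x s i) J s) k) (Icc 0 T) s :=
      hasDerivWithinAt_C3 fun i => (h.js i).hasDerivWithinAt_sc hJ hT k hs
    have d2 := ((B.LP k).restrictScalars ℝ).hasFDerivAt.comp_hasDerivWithinAt s d1
    have e : (B.LP k).restrictScalars ℝ (fc (fun x i => derivWithin (fun s => u x s i) J s) k)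
        = FF (lapS ν) (fc fun x => u x s) k := by
      rw [h.fourier_momentum hJ (hT hs),
        fc_of_hasSum (summable_decim h1 h2 hν hd) (hasSum_decim h1 h2 ν hd),
        ContinuousLinearMap.coe_restrictScalars', map_add, map_sub, map_neg, map_smul, LP_cxi,
        smul_zero, sub_zero, map_add, map_neg, map_sub, LP_of_div (dt_LP k _),
        LP_of_div (v := PS 1 S1 S2 k _) (PJ.div k _), lapS_apply, map_smul, LP_of_div (hdiv s hs k), FF, lapS_apply]
      change _ = -(PS 1 S1 S2 k _) - _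
      abel
    rw [e] at d2
    exact d2.congr (fun r hr => (LP_of_div (hdiv r hr k)).symm) (LP_of_div (hdiv s hs k)).symm
  refine ⟨bd_fc_of_JS hJ isCompact_Icc hT h.js h.periodic_u, fun s _ => isReal_fc _,
    fun t ht k => ?_, der⟩
  have dy : ∀ s ∈ Icc 0 T, HasDerivWithinAt
      (fun s => fc (fun x => u x s) k - LP k (fc (fun x => u x s) k))
      (-(((ν * ax k ^ 2 : ℝ) : ℂ) • (fc (fun x => u x s) k - LP k (fc (fun x => u x s) k))))
      (Icc 0 T) s := by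
    intro s hs
    have d2 := ((LP k).restrictScalars ℝ).hasFDerivAt.comp_hasDerivWithinAt s (der k s hs)
    have d3 := (der k s hs).sub d2
    refine d3.congr_deriv ?_
    rw [ContinuousLinearMap.coe_restrictScalars', FF, map_sub, map_neg, fx_LP, lapS_apply,
      map_smul, smul_sub]
    abel
  have z := eq_zero_of_abs_deriv_le_mul_abs_self_of_eq_zero_right (K := ν * ax k ^ 2)
    (fun s hs => (dy s hs).continuousWithinAt)
    (fun s hs => (dy s (Ico_subset_Icc_self hs)).mono_of_mem_nhdsWithin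
      (Icc_mem_nhdsGE_of_mem hs))
    (by
      have e : (fun x => u x 0) = u0 := funext h.initial
      rw [e]
      exact sub_eq_zero.mpr (fx k).symm)
    (fun s _ => by
      rw [norm_neg, norm_smul, Complex.norm_real, Real.norm_of_nonneg (by positivity)]) t ht
  exact (sub_eq_zero.mp z).symm

theorem blowup_of_no_global {S1 S2 : Set Z3} (h1 : ∀ k, -k ∈ S1 ↔ k ∈ S1)
    (h2 : ∀ k, -k ∈ S2 ↔ k ∈ S2) {ν : ℝ} (hν : 0 < ν) {a0 : Z3 → C3}
    (fin : {k | a0 k ≠ 0}.Finite) (re : IsReal a0) (fx : ∀ k, PS 1 S1 S2 k (a0 k) = a0 k)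
    (H : ¬∃ a : ℝ → Z3 → C3, a 0 = a0 ∧
      ∀ T, @IsSol (pj (s := 1) (by norm_num) h1 h2) (lapS ν) a 0 T) :
    ∃ u0 : R3 → R3, IsData u0 ∧ {k | fc u0 k ≠ 0}.Finite ∧
      (∀ k, k ∉ S1 → hP 1 k (fc u0 k) = 0) ∧ (∀ k, k ∉ S2 → hP (-1) k (fc u0 k) = 0) ∧
      (∃ T > 0, ∃ u p, IsSolutionOn (decim ν S1 S2) u0 (Ico 0 T) u p ∧
        Tendsto (fun t => ∑' k, ‖fc (fun x => u x t) k‖) (𝓝[<] T) atTop) ∧
      ¬∃ u p, IsSolutionOn (decim ν S1 S2) u0 (Ici 0) u p := by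
  let _ : PJ := pj (s := 1) (by norm_num) h1 h2
  have hA : Diss ν (lapS ν) := diss_lapS hν
  obtain ⟨a, a00, ha⟩ := hA.maximal (a0 := a0) fx re (rapid_of_finite fin)
  obtain ⟨Ts, hTs, ha, hl⟩ := ha.resolve_left fun h => H ⟨a, a00, h⟩
  obtain ⟨u, p, hsum, hd, hsol⟩ := hA.classical (J := Ico 0 Ts) Ico_subset_Ici_self Ico_extend
    fun S hS => ha S hS.2
  have fu : ∀ t ∈ Ico 0 Ts, (fc fun x => u x t) = a t := fun t ht =>
    fc_of_hasSum ((ha t ht.2).rapid ⟨ht.1, le_rfl⟩).summable_norm (hsum t ht)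
  have z : (0 : ℝ) ∈ Ico 0 Ts := ⟨le_rfl, hTs⟩
  have f0 : (fc fun x => u x 0) = a0 := (fu 0 z).trans a00
  have fx' := fun k => (PS_fix (s := 1) (by norm_num) k (a0 k)).mp (fx k)
  refine ⟨fun x => u x 0, hd 0 z, by rwa [f0], fun k hk => by rw [f0]; exact (fx' k).2.1 hk,
    fun k hk => by rw [f0]; exact (fx' k).2.2 hk,
    ⟨Ts, hTs, u, p, hsol _ _ (fun _ => rfl) fun t ht x i => ?_, ?_⟩, ?_⟩
  · have := hasSum_decim h1 h2 ν (hd t ht) x i
    rw [fu t ht] at this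
    refine this.congr_fun fun k => ?_
    refine congrArg (fun v : C3 => ek k x * v i) ?_
    rw [FF]
    change -(PS 1 S1 S2 k _) - _ + _ = _
    abel
  · refine tendsto_atTop.mpr fun X => ?_
    have lp := life_pos hν (le_max_right X 0)
    have hm : max 0 (Ts - life ν (max X 0)) < Ts := max_lt hTs (by linarith)
    filter_upwards [Ioo_mem_nhdsLT hm] with t ht
    have t0 : t ∈ Ico 0 Ts := ⟨((le_max_left _ _).trans_lt ht.1).le, ht.2⟩
    rw [fu t t0]
    by_contra hc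
    push Not at hc
    have hb : Bd 0 (a t) (max X 0) := Bd.of_tsum
      (by simpa using ((ha t ht.2).rapid ⟨t0.1, le_rfl⟩).summable_norm)
      (by simpa using Or.inl hc.le)
    have := hl t t0 _ hb
    have := (le_max_right _ _).trans_lt ht.1
    linarith
  · rintro ⟨u', p', h'⟩
    refine H ⟨fun s => fc fun x => u' x s, ?_, fun T =>
      isSol_decim h1 h2 hν h' (uniqueDiffOn_Ici 0) (fun k => by rw [f0]; exact fx k)
        Icc_subset_Ici_self⟩
    have e : (fun x => u' x 0) = fun x => u x 0 := funext h'.initial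
    beta_reduce
    rw [e, f0]

end

end Pool.Agent.Work.MP_6bf1e5_an.B.G
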