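import Pool.Agent.Work.MP_6bf1e5_an.Dec.ModesA
import Pool.Agent.Work.MP_6bf1e5_an.Dec.Classic

/-!
Tail energies and the envelope system attached to a solution.
-/

open Set Complex
open scoped InnerProductSpace ComplexConjugate
open Pool.Agent.Work.MP_6bf1e5_an.B

namespace Pool.Agent.Work.MP_6bf1e5_an.Dec

noncomputable section

variable (Γ : Geo)

/-- The multiplier cutting off the head. -/
def cut (i : ℕ) (k : Z3) : C3 →L[ℂ] C3 :=
  (((tail Γ i).indicator 1 k : ℝ) : ℂ) • ContinuousLinearMap.id ℂ C3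

/-- The energy of the tail. -/
def En (i : ℕ) (a : Z3 → C3) : ℝ := QQ (cut Γ i) a a

/-- Dissipation rates of the upper negative packets. -/
def dPr (ν : ℝ) : ℕ → Z3 → ℝ
  | 0, _ => ν * Γ.lam 0 ^ 2
  | j + 1, h => if h ∈ box (Γ.M (j + 1) + Γ.M j) then ν * ax (pt Γ (.c j) 1 h) ^ 2
      else ν * Γ.lam (j + 1) ^ 2

/-- The envelope system attached to a solution. -/
def rawOf (ν : ℝ) (a : ℝ → Z3 → C3) : Raw where
  kap j := √(cB Γ j * cC Γ j)
  B j t := ampB Γ j (a t)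
  Cp j t := ampP Γ j (a t)
  Cm j t := ampM Γ j (a t)
  y i m t := if i = 0 then 0 else yA Γ (i - 1) m (a t)
  E i t := En Γ i (a t)
  f i t := if i ≤ 1 then 0 else cY Γ (i - 2) (Γ.n (i - 1)) *
    (yA Γ (i - 2) (Γ.n (i - 1) - 1) (a t) * yA Γ (i - 2) (Γ.n (i - 1) - 2) (a t))
  dB j h := if h ∈ box (Γ.M j) then ν * ax (pt Γ (.b j) 1 h) ^ 2 else ν * Γ.lam j ^ 2
  dP := dPr Γ ν
  dM j h := dPr Γ ν j (rxE h)
  c i m := cY Γ (i - 1) m
  d i m := ν * ax (pt Γ (.y (i - 1) m) 1 0) ^ 2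

/-- The two generating symmetries. -/
structure SymA (a : Z3 → C3) : Prop where
  sx : ∀ k, a (rxE k) = sgn (k 0) • Rx (a k)
  sg : ∀ k, a (swE k) = Sg (a k)

/-- Admissible states. -/
structure Adm (a : Z3 → C3) : Prop where
  rapid : Rapid a
  real : IsReal a
  fix : ∀ k, G.PS 1 (SS Γ 1) (SS Γ (-1)) k (a k) = a k
  zero : a 0 = 0
  sym : SymA a

/-- The right-hand side of the projected system. -/
def rhs (ν : ℝ) (a : Z3 → C3) (k : Z3) : C3 :=
  -(G.PS 1 (SS Γ 1) (SS Γ (-1)) k (BB a a k)) - G.lapS ν k (a k)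

end

end Pool.Agent.Work.MP_6bf1e5_an.Dec
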