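import Pool.Agent.Work.MP_6bf1e5_an.Dec.Coef
import Pool.Agent.Work.MP_6bf1e5_an.Dec.Modes

/-!
Admissible states in terms of their amplitudes.
-/

open Set Complex
open scoped InnerProductSpace ComplexConjugate
open Pool.Agent.Work.MP_6bf1e5_an.B

namespace Pool.Agent.Work.MP_6bf1e5_an.Dec

noncomputable section

variable {Γ : Geo}

variable {a : Z3 → C3}

namespace AmpAux

lemma sgn_add (m n : ℤ) : sgn (m + n) = sgn m * sgn n := by
  unfold sgn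
  split_ifs <;> first | omega | simp

lemma sgn_neg (m : ℤ) : sgn (-m) = sgn m := by
  unfold sgn
  split_ifs <;> first | omega | simp

lemma sgn_add_two (m n : ℤ) : sgn (m + 2 * n) = sgn m := by
  unfold sgn
  split_ifs <;> first | omega | simp

lemma sgn_mul_self (m : ℤ) : sgn m * sgn m = 1 := by
  unfold sgn
  split_ifs <;> simp

lemma conj_sgn (m : ℤ) : conj (sgn m) = sgn m := by
  unfold sgn
  split_ifs <;> simp

lemma norm_sgn (m : ℤ) : ‖sgn m‖ = 1 := by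
  unfold sgn
  split_ifs <;> simp

lemma Rx_smul (c : ℂ) (v : C3) : Rx (c • v) = c • Rx v := by
  ext i; fin_cases i <;> simp [Rx]

lemma Rz_smul (c : ℂ) (v : C3) : Rz (c • v) = c • Rz v := by
  ext i; fin_cases i <;> simp [Rz]

lemma Rx_Rx (v : C3) : Rx (Rx v) = v := by
  ext i; fin_cases i <;> simp [Rx]

lemma Rz_Rz (v : C3) : Rz (Rz v) = v := by
  ext i; fin_cases i <;> simp [Rz]

lemma inner_cj_Rz (u v : C3) : ⟪u, cj (Rz v)⟫_ℂ = conj ⟪Rz (cj u), v⟫_ℂ := by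
  simp [PiLp.inner_apply, Fin.sum_univ_three, Rz]

/-- The half turn about the third axis on the lattice. -/
def rz (k : Z3) : Z3 := ![-k 0, -k 1, k 2]

lemma sym_rz (S : SymA a) (k : Z3) : a (rz k) = sgn (k 0 + k 1) • Rz (a k) := by
  have e : rz k = rxE (swE (rxE (swE k))) := by
    ext i; fin_cases i <;> simp [rz, rxE_apply, swE_apply]
  rw [e, S.sx, S.sg, S.sx, S.sg]
  have e0 : (swE (rxE (swE k))) 0 = -k 0 := by simp [rxE_apply, swE_apply]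
  have e1 : (swE k) 0 = k 1 := by simp [swE_apply]
  rw [e0, e1, sgn_neg, sgn_add]
  ext i; fin_cases i <;> simp [Rx, Sg, Rz, mul_assoc]

lemma eps_le (j : ℕ) : (Γ.T j ^ 800)⁻¹ ≤ 1 / 100 := by
  have h := Γ.Tbig j
  have h1 : (100 : ℝ) ≤ Γ.T j := le_trans (by norm_num) h
  have h2 : Γ.T j ^ 1 ≤ Γ.T j ^ 800 := pow_le_pow_right₀ (by linarith) (by norm_num)
  rw [pow_one] at h2
  rw [one_div]
  exact inv_anti₀ (by norm_num) (h1.trans h2)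

lemma pt_mem_Str (ρ : Row) {h : Z3} (hh : h ∈ box (ρ.R Γ)) : pt Γ ρ 1 h ∈ Str Γ ρ :=
  ⟨1, h, Or.inl rfl, hh, Or.inl rfl⟩

lemma PS_str {ρ : Row} (ok : ρ.ok Γ) (h2 : ∀ j, ρ ≠ .y j 2) {k : Z3} (hk : k ∈ Str Γ ρ) (x : C3) :
    G.PS 1 (SS Γ 1) (SS Γ (-1)) k x = hP ρ.s k x := by
  obtain ⟨m1, m2⟩ := str_helicity ok h2 hk
  rw [G.PS_apply (ne_zero_of_Orb ok (Or.inl hk))]
  rcases row_s ρ with h | h
  · rw [h] at m1 m2 ⊢
    rw [G.ch_mem m1, G.ch_not m2]; simp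
  · rw [h] at m1 m2 ⊢
    rw [neg_neg] at m2
    rw [G.ch_mem m1, G.ch_not m2]; simp

lemma hP_e_ne {ρ : Row} (ok : ρ.ok Γ) (h2 : ∀ j, ρ ≠ .y j 2) {h : Z3} (hh : h ∈ box (ρ.R Γ)) :
    hP ρ.s (pt Γ ρ 1 h) (ρ.e Γ) ≠ 0 := by
  intro h0
  have h1 := (uu_near ok h2 hh).1
  rw [h0, zero_sub, norm_neg, norm_e ok] at h1
  linarith only [h1, eps_le (Γ := Γ) ρ.lev]

lemma norm_uu_le {ρ : Row} (ok : ρ.ok Γ) (h2 : ∀ j, ρ ≠ .y j 2) {h : Z3} (hh : h ∈ box (ρ.R Γ)) :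
    ‖uu ρ.s (pt Γ ρ 1 h) (ρ.e Γ)‖ ≤ 101 / 100 := by
  have h1 := (uu_near ok h2 hh).2
  have h3 := norm_le_norm_sub_add (uu ρ.s (pt Γ ρ 1 h) (ρ.e Γ)) (ρ.e Γ)
  rw [norm_e ok] at h3
  linarith [eps_le (Γ := Γ) ρ.lev]

lemma at_pt (H : Adm Γ a) {ρ : Row} (ok : ρ.ok Γ) (h2 : ∀ j, ρ ≠ .y j 2) {h : Z3}
    (hh : h ∈ box (ρ.R Γ)) :
    a (pt Γ ρ 1 h) = ⟪ρ.e Γ, a (pt Γ ρ 1 h)⟫_ℂ • uu ρ.s (pt Γ ρ 1 h) (ρ.e Γ) := by
  refine eq_uu (row_s ρ) ?_ (hP_e_ne ok h2 hh)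
  rw [← PS_str ok h2 (pt_mem_Str ρ hh), H.fix]

lemma pt_neg (ρ : Row) (h : Z3) : pt Γ ρ (-1) h = rxE (pt Γ ρ 1 (rxE h)) := by
  ext i; fin_cases i <;> simp [pt, rxE_apply]
  ring

lemma rxE_zero : rxE (0 : Z3) = 0 := map_zero _

lemma rho_pos (j : ℕ) : 0 < rho Γ j := lt_of_lt_of_le (by norm_num) (rho_bounds j).1

lemma norm_a_neg (H : Adm Γ a) (k : Z3) : ‖a (-k)‖ = ‖a k‖ := by rw [H.real, norm_cj]

lemma norm_a_sw (H : Adm Γ a) (k : Z3) : ‖a (swE k)‖ = ‖a k‖ := by rw [H.sym.sg, norm_Sg]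

lemma norm_a_rx (H : Adm Γ a) (k : Z3) : ‖a (rxE k)‖ = ‖a k‖ := by
  rw [H.sym.sx, norm_smul, norm_sgn, one_mul, norm_Rx]

lemma swE_swE (k : Z3) : swE (swE k) = k := by
  ext i; fin_cases i <;> simp [swE_apply]

/-- The eight copies of a cell. -/
def cp (Γ : Geo) (ρ : Row) (z : (Bool × Bool × Bool) × Z3) : Z3 :=
  (if z.1.1 then fun k : Z3 => swE k else id) ((if z.1.2.1 then fun k : Z3 => -k else id)
    ((if z.1.2.2 then fun k : Z3 => rxE k else id) (pt Γ ρ 1 z.2)))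

lemma norm_cp (H : Adm Γ a) (ρ : Row) (z : (Bool × Bool × Bool) × Z3) :
    ‖a (cp Γ ρ z)‖ = ‖a (pt Γ ρ 1 z.2)‖ := by
  obtain ⟨⟨b1, b2, b3⟩, h⟩ := z
  cases b1 <;> cases b2 <;> cases b3 <;>
    simp only [cp, if_true, if_false, id, Bool.false_eq_true, norm_a_neg H, norm_a_sw H,
      norm_a_rx H]

lemma str_cp {ρ : Row} {k : Z3} (hk : k ∈ Str Γ ρ) :
    ∃ b2 b3 h, h ∈ box (ρ.R Γ) ∧ (ρ.W Γ = 0 → b3 = false) ∧
      k = cp Γ ρ ((false, b2, b3), h) := by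
  obtain ⟨e, h, he, hh, hk⟩ := hk
  by_cases hW : ρ.W Γ = 0
  · have e1 : pt Γ ρ e h = pt Γ ρ 1 h := by simp [pt, hW]
    rw [e1] at hk
    rcases hk with hk | hk
    · exact ⟨false, false, h, hh, fun _ => rfl, by simp [cp, hk]⟩
    · exact ⟨true, false, h, hh, fun _ => rfl, by simp [cp, hk]⟩
  rcases he with rfl | rfl <;> rcases hk with hk | hk
  · exact ⟨false, false, h, hh, fun _ => rfl, by simp [cp, hk]⟩
  · exact ⟨true, false, h, hh, fun _ => rfl, by simp [cp, hk]⟩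
  · exact ⟨false, true, rxE h, rxE_mem_box.mpr hh, fun h => absurd h hW, by simp [cp, hk, pt_neg]⟩
  · exact ⟨true, true, rxE h, rxE_mem_box.mpr hh, fun h => absurd h hW, by simp [cp, hk, pt_neg]⟩

lemma orb_cp {ρ : Row} {k : Z3} (hk : k ∈ Orb Γ ρ) :
    ∃ b1 b2 b3 h, h ∈ box (ρ.R Γ) ∧ (ρ.W Γ = 0 → b3 = false) ∧
      k = cp Γ ρ ((b1, b2, b3), h) := by
  rcases hk with hk | hk
  · obtain ⟨b2, b3, h, hh, hW, e⟩ := str_cp hk
    exact ⟨false, b2, b3, h, hh, hW, e⟩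
  · obtain ⟨b2, b3, h, hh, hW, e⟩ := str_cp hk
    refine ⟨true, b2, b3, h, hh, hW, ?_⟩
    rw [← swE_swE k, e]
    simp [cp]

lemma sum_orb_aux (H : Adm Γ a) (ρ : Row) (φ : ℝ → ℝ) (h0 : ∀ x, 0 ≤ x → 0 ≤ φ x)
    (S : Finset (Bool × Bool × Bool)) (F : Finset Z3)
    (hF : ∀ k ∈ F, ∃ b ∈ S, ∃ h ∈ box (ρ.R Γ), k = cp Γ ρ (b, h)) :
    ∑ k ∈ F, φ ‖a k‖ ≤ S.card * ∑ h ∈ box (ρ.R Γ), φ ‖a (pt Γ ρ 1 h)‖ := by
  classical
  have sub : F ⊆ (S ×ˢ box (ρ.R Γ)).image (cp Γ ρ) := fun k hk => by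
    obtain ⟨b, hb, h, hh, e⟩ := hF k hk
    exact Finset.mem_image.mpr ⟨(b, h), Finset.mem_product.mpr ⟨hb, hh⟩, e.symm⟩
  calc ∑ k ∈ F, φ ‖a k‖ ≤ ∑ k ∈ (S ×ˢ box (ρ.R Γ)).image (cp Γ ρ), φ ‖a k‖ :=
        Finset.sum_le_sum_of_subset_of_nonneg sub fun _ _ _ => h0 _ (norm_nonneg _)
    _ ≤ ∑ z ∈ S ×ˢ box (ρ.R Γ), φ ‖a (cp Γ ρ z)‖ :=
        Finset.sum_image_le_of_nonneg fun _ _ => h0 _ (norm_nonneg _)
    _ = ∑ z ∈ S ×ˢ box (ρ.R Γ), φ ‖a (pt Γ ρ 1 z.2)‖ :=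
        Finset.sum_congr rfl fun z _ => by rw [norm_cp H]
    _ = _ := by rw [Finset.sum_product]; simp

lemma sum_orb8 (H : Adm Γ a) (ρ : Row) (φ : ℝ → ℝ) (h0 : ∀ x, 0 ≤ x → 0 ≤ φ x) (F : Finset Z3)
    (hF : ∀ k ∈ F, k ∈ Orb Γ ρ) :
    ∑ k ∈ F, φ ‖a k‖ ≤ 8 * ∑ h ∈ box (ρ.R Γ), φ ‖a (pt Γ ρ 1 h)‖ := by
  have := sum_orb_aux H ρ φ h0 Finset.univ F fun k hk => by
    obtain ⟨b1, b2, b3, h, hh, -, e⟩ := orb_cp (hF k hk)
    exact ⟨_, Finset.mem_univ _, h, hh, e⟩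
  simpa using this

lemma sum_orb4 (H : Adm Γ a) (ρ : Row) (hW : ρ.W Γ = 0) (φ : ℝ → ℝ) (h0 : ∀ x, 0 ≤ x → 0 ≤ φ x)
    (F : Finset Z3) (hF : ∀ k ∈ F, k ∈ Orb Γ ρ) :
    ∑ k ∈ F, φ ‖a k‖ ≤ 4 * ∑ h ∈ box (ρ.R Γ), φ ‖a (pt Γ ρ 1 h)‖ := by
  have := sum_orb_aux H ρ φ h0 (Finset.univ ×ˢ Finset.univ ×ˢ {false}) F fun k hk => by
    obtain ⟨b1, b2, b3, h, hh, hb, e⟩ := orb_cp (hF k hk)
    exact ⟨_, by simp [hb hW], h, hh, e⟩
  simpa using this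

lemma pt_inj (ρ : Row) (e : ℤ) : Function.Injective (pt Γ ρ e) := fun h h' H => by
  have h0 := congrFun H 0
  have h1 := congrFun H 1
  have h2 := congrFun H 2
  simp [pt] at h0 h1 h2
  ext i; fin_cases i <;> simp [h0, h1, h2]

lemma cut_term (i : ℕ) (k : Z3) (v : C3) :
    (⟪cut Γ i k v, v⟫_ℂ).re = (tail Γ i).indicator 1 k * ‖v‖ ^ 2 := by
  rw [cut, re_inner_scalar, re_inner_self]

lemma mult_cut (i : ℕ) : Mult (cut Γ i) :=
  mult_scalar (φ := fun k => (tail Γ i).indicator 1 k) (C := 1) (m := 0) zero_le_one fun k => by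
    by_cases h : k ∈ tail Γ i <;> simp [h]

lemma ind_nonneg (i : ℕ) (k : Z3) : (0 : ℝ) ≤ (tail Γ i).indicator 1 k := by
  by_cases h : k ∈ tail Γ i <;> simp [h]

end AmpAux

open AmpAux

lemma Adm.div (H : Adm Γ a) (k : Z3) : dt (a k) k = 0 :=
  ((G.PS_fix (by norm_num) k (a k)).mp (H.fix k)).1

lemma Adm.row (H : Adm Γ a) {k : Z3} (hk : a k ≠ 0) : ∃ ρ : Row, ρ.ok Γ ∧ k ∈ Orb Γ ρ := by
  have k0 : k ≠ 0 := fun h => hk (h ▸ H.zero)
  by_cases m1 : k ∈ SS Γ 1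
  · exact orb_of_SS m1
  by_cases m2 : k ∈ SS Γ (-1)
  · exact orb_of_SS m2
  have := H.fix k
  rw [G.PS_apply k0, G.ch_not m1, G.ch_not m2] at this
  exact absurd (by simpa using this.symm) hk

/-- Testing the projected term against the reference vector. -/
lemma inner_PS {ρ : Row} (ok : ρ.ok Γ) (h2 : ∀ j, ρ ≠ .y j 2) {h : Z3} (hh : h ∈ box (ρ.R Γ))
    (x : C3) : ⟪ρ.e Γ, G.PS 1 (SS Γ 1) (SS Γ (-1)) (pt Γ ρ 1 h) x⟫_ℂ =
      ⟪hP ρ.s (pt Γ ρ 1 h) (ρ.e Γ), x⟫_ℂ := by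
  rw [PS_str ok h2 (pt_mem_Str ρ hh), hP_sym]

lemma inner_PS_y {j m : ℕ} (h1 : 1 ≤ m) (h2 : m < Γ.n (j + 1)) (x : C3) :
    ⟪(Row.y j m).e Γ, G.PS 1 (SS Γ 1) (SS Γ (-1)) (pt Γ (.y j m) 1 0) x⟫_ℂ =
      ⟪(Row.y j m).e Γ, x⟫_ℂ := by
  have ok : (Row.y j m).ok Γ := ⟨h1, h2⟩
  by_cases hm : m = 2
  · subst hm
    have hk : pt Γ (.y j 2) 1 0 ∈ Str Γ (.y j 2) := pt_mem_Str _ (zero_mem_box _)
    have k0 := ne_zero_of_Orb ok (Or.inl hk)
    obtain ⟨m1, m2⟩ := y2_helicity hk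
    rw [G.PS_apply k0, G.ch_mem m1, G.ch_mem m2, ofReal_one, one_smul, one_smul, hP_add 1 k0]
    refine inner_LP ?_ x
    simp [dt_eq, Fin.sum_univ_three, Row.e, ez, pt]
  · have h2' : ∀ j', Row.y j m ≠ .y j' 2 := fun j' h => hm (Row.y.inj h).2
    rw [inner_PS ok h2' (zero_mem_box _), hP_e ok h2']

lemma Adm.at_b (H : Adm Γ a) {j : ℕ} {h : Z3} (hh : h ∈ box (Γ.M j)) :
    a (pt Γ (.b j) 1 h) = (ampB Γ j a).coeff h • uu 1 (pt Γ (.b j) 1 h) ((Row.b j).e Γ) := by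
  rw [ampB, coeff_mk, if_pos hh]
  exact at_pt H (ρ := .b j) trivial (fun _ h => Row.noConfusion h) hh

lemma Adm.at_p (H : Adm Γ a) {j : ℕ} {h : Z3} (hh : h ∈ box (Γ.M (j + 1) + Γ.M j)) :
    a (pt Γ (.c j) 1 h) = ((rho Γ j : ℂ)⁻¹ * (ampP Γ (j + 1) a).coeff h) •
      uu (-1) (pt Γ (.c j) 1 h) ((Row.c j).e Γ) := by
  have : (rho Γ j : ℂ) ≠ 0 := by exact_mod_cast (rho_pos j).ne'
  rw [ampP, coeff_mk, if_pos hh, inv_mul_cancel_left₀ this]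
  exact at_pt H (ρ := .c j) trivial (fun _ h => Row.noConfusion h) hh

lemma Adm.at_m (H : Adm Γ a) {j : ℕ} {h : Z3} (hh : h ∈ box (Γ.M (j + 1) + Γ.M j)) :
    a (pt Γ (.c j) (-1) h) = ((rho Γ j : ℂ)⁻¹ * (ampM Γ (j + 1) a).coeff h) •
      (sgn ((Row.c j).X Γ) • Rx (uu (-1) (pt Γ (.c j) 1 (rxE h)) ((Row.c j).e Γ))) := by
  have e0 : pt Γ (.c j) 1 (rxE h) 0 = (Row.c j).X Γ + 2 * h 0 := by simp [pt, rxE_apply]
  rw [pt_neg, H.sym.sx, e0, sgn_add_two, ampM, coeff_prm, H.at_p (rxE_mem_box.mpr hh), Rx_smul,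
    smul_comm]

lemma Adm.at_y (H : Adm Γ a) {j m : ℕ} (h1 : 1 ≤ m) (h2 : m < Γ.n (j + 1)) :
    a (pt Γ (.y j m) 1 0) = (ampY Γ j m a : ℂ) • (Row.y j m).e Γ ∧
      a (pt Γ (.y j m) (-1) 0) = (ampY Γ j m a : ℂ) • (Row.y j m).e' Γ := by
  have ok : (Row.y j m).ok Γ := ⟨h1, h2⟩
  set k := pt Γ (.y j m) 1 0 with hk
  set e := (Row.y j m).e Γ with he
  have ne : ‖e‖ = 1 := norm_e ok
  have A : a k = ⟪e, a k⟫_ℂ • e := by
    by_cases hm : m = 2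
    · subst hm
      have s1 : swE k = k := by
        ext i; fin_cases i <;> simp [hk, swE_apply, pt, Row.X, Row.W, wv, luc]
      have s2 := H.sym.sg k
      rw [s1] at s2
      have s3 : a k 0 = a k 1 := by
        have := congrArg (fun v : C3 => v 0) s2
        simpa [Sg] using this
      have s4 := H.div k
      have p0 : ((Γ.P (j + 1) : ℤ) : ℂ) ≠ 0 := by
        have := P_odd (Γ := Γ) (j + 1)
        have : Γ.P (j + 1) ≠ 0 := by omega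
        exact_mod_cast this
      have k0 : k 0 = Γ.P (j + 1) := by simp [hk, pt, Row.X, luc]
      have k1 : k 1 = Γ.P (j + 1) := by simp [hk, pt, Row.W, wv]
      have k2 : k 2 = 0 := by simp [hk, pt]
      rw [dt_eq, Fin.sum_univ_three, k0, k1, k2, s3] at s4
      have pi0 : (Real.pi : ℂ) ≠ 0 := by exact_mod_cast Real.pi_ne_zero
      have s5 : a k 1 = 0 := by
        have : a k 1 * (4 * Real.pi * ((Γ.P (j + 1) : ℤ) : ℂ)) = 0 := by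
          rw [← s4]; push_cast; ring
        exact (mul_eq_zero.mp this).resolve_right
          (mul_ne_zero (mul_ne_zero (by norm_num) pi0) p0)
      have he' : e = ez := by simp [he, Row.e]
      rw [he']
      ext i; fin_cases i <;> simp [ez, PiLp.inner_apply, Fin.sum_univ_three, s3, s5]
    · have h2' : ∀ j', Row.y j m ≠ .y j' 2 := fun j' h => hm (Row.y.inj h).2
      have := at_pt H ok h2' (zero_mem_box _)
      rw [uu, hP_e ok h2', ← he, ne] at this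
      simpa using this
  have R : conj ⟪e, a k⟫_ℂ = ⟪e, a k⟫_ℂ := by
    have r1 : k = -rz k := by
      ext i; fin_cases i <;> simp [rz, hk, pt]
    have r2 : k 0 + k 1 = (Row.y j m).X Γ + (Row.y j m).W Γ := by simp [hk, pt]
    have r3 : a k = sgn (k 0 + k 1) • cj (Rz (a k)) := by
      conv_lhs => rw [r1]
      rw [H.real, sym_rz H.sym, cj_smul, conj_sgn]
    have r4 := e_real ok
    rw [← he, ← r2] at r4
    conv_rhs => rw [r3]
    rw [inner_smul_right, inner_cj_Rz]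
    conv_lhs => rw [← r4]
    rw [inner_smul_left, conj_sgn, map_mul, conj_sgn]
  have Y : (ampY Γ j m a : ℂ) = ⟪e, a k⟫_ℂ := by
    rw [ampY, ← hk, ← he]
    exact conj_eq_iff_re.mp R
  have B : a k = (ampY Γ j m a : ℂ) • e := by rw [Y]; exact A
  refine ⟨B, ?_⟩
  have e0 : k 0 = (Row.y j m).X Γ := by simp [hk, pt]
  rw [pt_neg, rxE_zero, ← hk, H.sym.sx, e0, B, Rx_smul, smul_comm, Row.e']

lemma Adm.symB (H : Adm Γ a) (j : ℕ) : Sym (ampB Γ j a) := by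
  refine ⟨fun h => ?_, fun h => ?_⟩
  · simp only [ampB, coeff_mk, rxE_mem_box]
    split_ifs with hh
    · have e1 : pt Γ (.b j) 1 (rxE h) = rxE (pt Γ (.b j) 1 h) := by
        ext i; fin_cases i <;> simp [pt, rxE_apply, Row.W]
      have e0 : pt Γ (.b j) 1 h 0 = (Row.b j).X Γ + 2 * h 0 := by simp [pt]
      rw [e1, H.sym.sx, e0, sgn_add_two, inner_smul_right]
      conv_rhs => rw [← e'_b, Row.e', inner_smul_left, conj_sgn, ← inner_Rx, Rx_Rx]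
    · rfl
  · simp only [ampB, coeff_mk, mzE_mem_box]
    split_ifs with hh
    · have e1 : pt Γ (.b j) 1 (mzE h) = -rz (pt Γ (.b j) 1 h) := by
        ext i; fin_cases i <;> simp [pt, mzE_apply, rz]
      have e0 : pt Γ (.b j) 1 h 0 + pt Γ (.b j) 1 h 1 =
          (Row.b j).X Γ + (Row.b j).W Γ + 2 * (h 0 + h 1) := by simp [pt]; ring
      rw [e1, H.real, sym_rz H.sym, e0, sgn_add_two, cj_smul, conj_sgn, inner_smul_right,
        inner_cj_Rz]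
      conv_rhs => rw [← e_real (Γ := Γ) (ρ := .b j) trivial, inner_smul_left, conj_sgn, map_mul,
        conj_sgn]
    · simp

lemma Adm.norm_y (H : Adm Γ a) {j m : ℕ} (h1 : 1 ≤ m) (h2 : m < Γ.n (j + 1)) {k : Z3}
    (hk : k ∈ Orb Γ (.y j m)) : ‖a k‖ = |ampY Γ j m a| := by
  obtain ⟨b1, b2, b3, h, hh, -, e⟩ := orb_cp hk
  have h0 : h = 0 := by
    ext i
    have := mem_box'.mp hh i
    simpa [Row.R] using this
  rw [e, norm_cp H, h0, (H.at_y h1 h2).1, norm_smul, norm_e (ρ := .y j m) ⟨h1, h2⟩, mul_one,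
    Complex.norm_real, Real.norm_eq_abs]

lemma Adm.sum_b (H : Adm Γ a) {j : ℕ} (F : Finset Z3) (hF : ∀ k ∈ F, k ∈ Orb Γ (.b j)) :
    ∑ k ∈ F, ‖a k‖ ≤ 5 * l1 (ampB Γ j a) ∧ ∑ k ∈ F, ‖a k‖ ^ 2 ≤ 5 * ‖ampB Γ j a‖ ^ 2 := by
  have key : ∀ h ∈ box (Γ.M j), ‖a (pt Γ (.b j) 1 h)‖ ≤ 101 / 100 * ‖(ampB Γ j a).coeff h‖ := by
    intro h hh
    have := norm_uu_le (Γ := Γ) (ρ := .b j) trivial (fun _ h => Row.noConfusion h) hh
    rw [H.at_b hh, norm_smul, mul_comm]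
    exact mul_le_mul_of_nonneg_right this (norm_nonneg _)
  constructor
  · have h1 := sum_orb4 H (.b j) rfl (fun x => x) (fun _ h => h) F hF
    have h2 := Finset.sum_le_sum key
    rw [← Finset.mul_sum] at h2
    have h3 := sum_le_l1 (ampB Γ j a) (box (Γ.M j))
    have h4 := l1_nonneg (ampB Γ j a)
    simp only [Row.R] at h1
    linarith
  · have h1 := sum_orb4 H (.b j) rfl (fun x => x ^ 2) (fun _ _ => sq_nonneg _) F hF
    have h2 : ∑ h ∈ box (Γ.M j), ‖a (pt Γ (.b j) 1 h)‖ ^ 2 ≤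
        ∑ h ∈ box (Γ.M j), (101 / 100) ^ 2 * ‖(ampB Γ j a).coeff h‖ ^ 2 :=
      Finset.sum_le_sum fun h hh => by
        rw [← mul_pow]; exact pow_le_pow_left₀ (norm_nonneg _) (key h hh) 2
    rw [← Finset.mul_sum] at h2
    have h3 := sum_sq_le (ampB Γ j a) (box (Γ.M j))
    have h4 := sq_nonneg ‖ampB Γ j a‖
    simp only [Row.R] at h1
    linarith

lemma Adm.sum_c (H : Adm Γ a) {j : ℕ} (F : Finset Z3) (hF : ∀ k ∈ F, k ∈ Orb Γ (.c j)) :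
    ∑ k ∈ F, ‖a k‖ ^ 2 ≤ 7 * (‖ampP Γ (j + 1) a‖ ^ 2 + ‖ampM Γ (j + 1) a‖ ^ 2) := by
  have key : ∀ h ∈ box (Γ.M (j + 1) + Γ.M j),
      ‖a (pt Γ (.c j) 1 h)‖ ≤ 13 / 10 * ‖(ampP Γ (j + 1) a).coeff h‖ := by
    intro h hh
    have u1 := norm_uu_le (Γ := Γ) (ρ := .c j) trivial (fun _ h => Row.noConfusion h) hh
    have r1 : (rho Γ j)⁻¹ ≤ 5 / 4 := by
      have := inv_anti₀ (by norm_num) (rho_bounds (Γ := Γ) j).1
      linarith [show ((4 : ℝ) / 5)⁻¹ = 5 / 4 by norm_num]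
    have r0 := rho_pos (Γ := Γ) j
    rw [H.at_p hh, norm_smul, norm_mul, norm_inv, Complex.norm_real, Real.norm_of_nonneg r0.le]
    calc (rho Γ j)⁻¹ * ‖(ampP Γ (j + 1) a).coeff h‖ * ‖uu (-1) (pt Γ (.c j) 1 h) ((Row.c j).e Γ)‖
        ≤ 5 / 4 * ‖(ampP Γ (j + 1) a).coeff h‖ * (101 / 100) := by
          gcongr
          exact u1
      _ ≤ _ := by linarith only [norm_nonneg ((ampP Γ (j + 1) a).coeff h)]
  have h1 := sum_orb8 H (.c j) (fun x => x ^ 2) (fun _ _ => sq_nonneg _) F hF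
  have h2 : ∑ h ∈ box (Γ.M (j + 1) + Γ.M j), ‖a (pt Γ (.c j) 1 h)‖ ^ 2 ≤
      ∑ h ∈ box (Γ.M (j + 1) + Γ.M j), (13 / 10) ^ 2 * ‖(ampP Γ (j + 1) a).coeff h‖ ^ 2 :=
    Finset.sum_le_sum fun h hh => by
      rw [← mul_pow]; exact pow_le_pow_left₀ (norm_nonneg _) (key h hh) 2
  rw [← Finset.mul_sum] at h2
  have h3 := sum_sq_le (ampP Γ (j + 1) a) (box (Γ.M (j + 1) + Γ.M j))
  have h4 := sq_nonneg ‖ampP Γ (j + 1) a‖
  simp only [Row.R] at h1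
  rw [ampM, norm_prm]
  linarith

lemma Adm.sum_Lv (H : Adm Γ a) {i : ℕ} (F : Finset Z3) (hF : ∀ k ∈ F, k ∈ Lv Γ i) :
    ∑ k ∈ F, ‖a k‖ ^ 2 ≤ 7 * nrA Γ i a ^ 2 := by
  classical
  rw [nrA, nr3, Real.sq_sqrt (by positivity)]
  cases i with
  | zero =>
    have := (H.sum_b F hF).2
    linarith [sq_nonneg ‖ampB Γ 0 a‖, sq_nonneg ‖ampP Γ 0 a‖, sq_nonneg ‖ampM Γ 0 a‖]
  | succ j =>
    rw [← Finset.sum_filter_add_sum_filter_not F fun k => k ∈ Orb Γ (.b (j + 1))]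
    have h1 := (H.sum_b (j := j + 1) (F.filter fun k => k ∈ Orb Γ (.b (j + 1)))
      fun k hk => (Finset.mem_filter.mp hk).2).2
    have h2 := H.sum_c (j := j) (F.filter fun k => ¬k ∈ Orb Γ (.b (j + 1))) fun k hk =>
      (hF k (Finset.mem_filter.mp hk).1).resolve_left (Finset.mem_filter.mp hk).2
    linarith [sq_nonneg ‖ampB Γ (j + 1) a‖]

lemma Adm.sum_le_En (H : Adm Γ a) {i : ℕ} (F : Finset Z3) (hF : ∀ k ∈ F, k ∈ tail Γ i) :
    ∑ k ∈ F, ‖a k‖ ^ 2 ≤ En Γ i a := by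
  have s := (mult_cut (Γ := Γ) i).summable H.rapid H.rapid
  refine le_trans (le_of_eq ?_) (s.sum_le_tsum F fun k _ => ?_)
  · refine Finset.sum_congr rfl fun k hk => ?_
    rw [cut_term]; simp [hF k hk]
  · rw [cut_term]; exact mul_nonneg (ind_nonneg i k) (sq_nonneg _)

lemma Adm.nrA_le (H : Adm Γ a) (i : ℕ) : nrA Γ i a ^ 2 ≤ 4 * En Γ i a := by
  classical
  have cell : ∀ ρ : Row, ρ.ok Γ → (∀ k ∈ Orb Γ ρ, k ∈ tail Γ i) →
      ∑ h ∈ box (ρ.R Γ), ‖⟪ρ.e Γ, a (pt Γ ρ 1 h)⟫_ℂ‖ ^ 2 ≤ En Γ i a := by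
    intro ρ ok ht
    have h1 := H.sum_le_En (i := i) ((box (ρ.R Γ)).image (pt Γ ρ 1)) fun k hk => by
      obtain ⟨h, hh, rfl⟩ := Finset.mem_image.mp hk
      exact ht _ (pt_mem_Orb (Or.inl rfl) hh)
    rw [Finset.sum_image fun _ _ _ _ h => pt_inj ρ 1 h] at h1
    refine le_trans (Finset.sum_le_sum fun h _ => ?_) h1
    have := norm_inner_le_norm (𝕜 := ℂ) (ρ.e Γ) (a (pt Γ ρ 1 h))
    rw [norm_e ok, one_mul] at this
    exact pow_le_pow_left₀ (norm_nonneg _) this 2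
  have hB : ‖ampB Γ i a‖ ^ 2 ≤ En Γ i a := by
    rw [ampB, norm_sq_eq (support_mk _ _)]
    refine le_trans (le_of_eq (Finset.sum_congr rfl fun h hh => ?_)) (cell (.b i) trivial ?_)
    · rw [coeff_mk, if_pos hh]
    · intro k hk
      cases i with
      | zero => trivial
      | succ i => exact (tail_b hk).mpr (Nat.lt_succ_self i)
  have E0 : 0 ≤ En Γ i a := (sq_nonneg _).trans hB
  have hP' : ‖ampP Γ i a‖ ^ 2 ≤ 36 / 25 * En Γ i a := by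
    cases i with
    | zero => simp only [ampP, norm_zero]; linarith
    | succ j =>
      rw [ampP, norm_sq_eq (support_mk _ _)]
      have h1 := cell (.c j) trivial fun k hk => (tail_c hk).mpr le_rfl
      have r0 := rho_pos (Γ := Γ) j
      have r1 := (rho_bounds (Γ := Γ) j).2
      refine le_trans (Finset.sum_le_sum (g := fun h =>
        36 / 25 * ‖⟪(Row.c j).e Γ, a (pt Γ (.c j) 1 h)⟫_ℂ‖ ^ 2) fun h hh => ?_) ?_
      · rw [coeff_mk, if_pos hh, norm_mul, mul_pow, Complex.norm_real, Real.norm_of_nonneg r0.le]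
        exact mul_le_mul_of_nonneg_right (by nlinarith only [r0, r1]) (sq_nonneg _)
      · rw [← Finset.mul_sum]
        exact mul_le_mul_of_nonneg_left h1 (by norm_num)
  rw [nrA, nr3, Real.sq_sqrt (by positivity), ampM, norm_prm]
  linarith

lemma Adm.ampY_le (H : Adm Γ a) {j m : ℕ} (h1 : 1 ≤ m) (h2 : m < Γ.n (j + 1)) :
    ampY Γ j m a ^ 2 ≤ En Γ (j + 2) a := by
  have hk : pt Γ (.y j m) 1 0 ∈ Orb Γ (.y j m) := pt_mem_Orb (Or.inl rfl) (zero_mem_box _)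
  have := H.sum_le_En (i := j + 2) {pt Γ (.y j m) 1 0} fun k hk' => by
    rw [Finset.mem_singleton.mp hk']
    exact (tail_y (i := j + 1) h1 h2 hk).mpr le_rfl
  rwa [Finset.sum_singleton, H.norm_y h1 h2 hk, sq_abs] at this

lemma Adm.En_mono (H : Adm Γ a) (i : ℕ) : En Γ (i + 1) a ≤ En Γ i a := by
  refine ((mult_cut (Γ := Γ) (i + 1)).summable H.rapid H.rapid).tsum_le_tsum (fun k => ?_)
    ((mult_cut (Γ := Γ) i).summable H.rapid H.rapid)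
  rw [cut_term, cut_term]
  refine mul_le_mul_of_nonneg_right ?_ (sq_nonneg _)
  by_cases h : k ∈ tail Γ (i + 1)
  · simp [h, tail_mono i h]
  · rw [Set.indicator_of_notMem h]; exact ind_nonneg i k

/-- Size of one term of the convolution. -/
lemma Adm.term_le (H : Adm Γ a) (k l : Z3) :
    ‖(I * dt (a k) l) • a l‖ ≤ ‖a k‖ * ‖a l‖ * min (ax l) (ax (k + l)) := by
  have h1 := norm_dt_le (a k) l
  have h2 := norm_dt_le (a k) (k + l)
  rw [dt_add_right, H.div, zero_add] at h2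
  have h3 : ‖dt (a k) l‖ ≤ ‖a k‖ * min (ax l) (ax (k + l)) := by
    rcases le_total (ax l) (ax (k + l)) with h | h
    · rwa [min_eq_left h]
    · rwa [min_eq_right h]
  rw [norm_smul, norm_mul, Complex.norm_I, one_mul, mul_right_comm]
  exact mul_le_mul_of_nonneg_right h3 (norm_nonneg _)

open Classical in
/-- Splitting off the interactions with the modes of a finite set. -/
lemma Adm.BB_split (H : Adm Γ a) (r : Z3) (F : Finset Z3) (hF : ∀ k ∈ F, r - k ∉ F) :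
    BB a a r = ∑ k ∈ F, ((I * dt (a k) (r - k)) • a (r - k) + (I * dt (a (r - k)) k) • a k) +
      ∑' k, if k ∉ F ∧ r - k ∉ F then (I * dt (a k) (r - k)) • a (r - k) else 0 := by
  obtain ⟨M, hM⟩ := H.rapid 1
  have s := summable_BB_term (hM.mono (Nat.zero_le 1)) hM r
  set g : Z3 → C3 := fun k => (I * dt (a k) (r - k)) • a (r - k) with hg
  have s1 : HasSum (fun k => if k ∈ F then g k else 0) (∑ k ∈ F, g k) := by
    have := hasSum_sum_of_ne_finset_zero (L := .unconditional Z3)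
      (f := fun k => if k ∈ F then g k else 0) (s := F) fun k hk => if_neg hk
    rwa [Finset.sum_congr rfl fun k hk => if_pos hk] at this
  have s2 : HasSum (fun k => if r - k ∈ F then g k else 0) (∑ k ∈ F, g (r - k)) := by
    have := hasSum_sum_of_ne_finset_zero (L := .unconditional Z3)
      (f := fun k => if k ∈ F then g (r - k) else 0) (s := F) fun k hk => if_neg hk
    rw [Finset.sum_congr rfl fun k hk => if_pos hk] at this
    have t := (Equiv.subLeft r).hasSum_iff.mpr this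
    simpa [Function.comp_def] using t
  have e : ∀ k, (if k ∉ F ∧ r - k ∉ F then g k else 0) =
      g k - (if k ∈ F then g k else 0) - (if r - k ∈ F then g k else 0) := by
    intro k
    by_cases c1 : k ∈ F
    · simp [c1, hF k c1]
    · by_cases c2 : r - k ∈ F <;> simp [c1, c2]
  have s3 := (s.hasSum.sub s1).sub s2
  simp only [← e] at s3
  have e2 : ∑ k ∈ F, (g k + (I * dt (a (r - k)) k) • a k) = ∑ k ∈ F, g k + ∑ k ∈ F, g (r - k) := by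
    rw [← Finset.sum_add_distrib]
    exact Finset.sum_congr rfl fun k _ => by simp [hg]
  change ∑' k, g k = ∑ k ∈ F, (g k + (I * dt (a (r - k)) k) • a k) +
    ∑' k, if k ∉ F ∧ r - k ∉ F then g k else 0
  rw [e2, s3.tsum_eq]
  abel

end

end Pool.Agent.Work.MP_6bf1e5_an.Dec
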