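import Pool.Agent.Work.MP_6bf1e5_an.Dec.Ode

/-!
Upper and lower bounds for the Fibonacci chain.
-/

open Set

namespace Pool.Agent.Work.MP_6bf1e5_an.Dec

noncomputable section

/-- The upper barrier for the `m`-th amplitude of a chain of length `n`. -/
def UU (q lb W Z : ℝ) (n m : ℕ) : ℝ :=
  q / lb * W ^ Nat.fib m / 10 ^ 4 +
    if m + 1 = n then 10 * lb * Z / q * (q / lb * W ^ Nat.fib (n - 2) / 10 ^ 4) else 0

lemma pow_deriv_ge {W W' q dlo : ℝ} (hW : 0 < W) (h1 : 0 ≤ W') (h2 : q * W ≤ W' + dlo * W)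
    {f : ℕ} (hf : 1 ≤ f) : q * W ^ f ≤ f * W ^ (f - 1) * W' + dlo * W ^ f := by
  obtain ⟨g, rfl⟩ := Nat.exists_eq_add_of_le' hf
  have h3 : 0 < W ^ g := pow_pos hW g
  have h4 : (0 : ℝ) ≤ g := Nat.cast_nonneg g
  rw [Nat.add_sub_cancel, pow_succ]
  push_cast
  linarith only [mul_le_mul_of_nonneg_left h2 h3.le, mul_nonneg h4 (mul_nonneg h3.le h1)]

lemma UU_deriv {q lb dlo : ℝ} (hlb : 0 < lb) (hq : 0 < q) {W Z : ℝ → ℝ} {t W' Z' : ℝ} {n m : ℕ}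
    (hn : 3 ≤ n) (hm : 1 ≤ m) (hW : 0 < W t) (hZ : 0 ≤ Z t) (h1 : HD W W' t) (h2 : 0 ≤ W')
    (h3 : q * W t ≤ W' + dlo * W t) (h4 : HD Z Z' t) (h5 : 0 ≤ Z') :
    ∃ D, HD (fun s => UU q lb (W s) (Z s) n m) D t ∧
      q * UU q lb (W t) (Z t) n m ≤ D + dlo * UU q lb (W t) (Z t) n m := by
  have hu : ∀ k, 1 ≤ k → ∃ D, HD (fun s => q / lb * W s ^ Nat.fib k / 10 ^ 4) D t ∧
      q * (q / lb * W t ^ Nat.fib k / 10 ^ 4) ≤ D + dlo * (q / lb * W t ^ Nat.fib k / 10 ^ 4) := by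
    intro k hk
    refine ⟨_, ((h1.fun_pow (Nat.fib k)).const_mul (q / lb)).div_const _, ?_⟩
    have := mul_le_mul_of_nonneg_left (pow_deriv_ge hW h2 h3 (Nat.fib_pos.2 hk))
      (by positivity : 0 ≤ q / lb / 10 ^ 4)
    calc _ = q / lb / 10 ^ 4 * (q * W t ^ Nat.fib k) := by ring
      _ ≤ _ := this
      _ = _ := by ring
  obtain ⟨D, h6, h7⟩ := hu m hm
  unfold UU
  split_ifs
  · obtain ⟨D', h8, h9⟩ := hu (n - 2) (by omega)
    refine ⟨_, h6.fun_add (((h4.const_mul (10 * lb)).div_const q).fun_mul h8), ?_⟩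
    have e1 : 0 ≤ 10 * lb * Z' / q * (q / lb * W t ^ Nat.fib (n - 2) / 10 ^ 4) := by positivity
    have e2 := mul_le_mul_of_nonneg_left h9 (by positivity : 0 ≤ 10 * lb * Z t / q)
    linarith only [h7, e1, e2]
  · exact ⟨D, by simpa using h6, by simpa using h7⟩

lemma upper_source {n : ℕ} (hn : 8 ≤ n) {y : ℕ → ℝ} {lb q W Z S b c : ℝ} (hlb : 0 < lb)
    (hq : 0 < q) (hW : 0 < W) (hW1 : W ≤ 1) (y0 : y 0 = 0) (yend : y (n + 1) = 0)
    (hZ : |y n| ≤ Z) (hZ1 : lb * Z ≤ q / 10) (hy : ∀ k, 1 ≤ k → k < n → |y k| ≤ UU q lb W Z n k)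
    {m : ℕ} (hm : 1 ≤ m) (hmn : m < n) (hc0 : 0 ≤ c) (hc : c ≤ lb)
    (hb : |b| ≤ lb * (|y (m + 1)| * |y (m - 1)| + |y (m + 2)| * |y (m + 1)|))
    (hS1 : m ≤ 2 → lb ^ 2 * |S| ≤ q ^ 2 * W / 10 ^ 6) (hS2 : 3 ≤ m → S = y (m - 1) * y (m - 2)) :
    |c * S| + |b| < q * UU q lb W Z n m := by
  set u : ℕ → ℝ := fun k => q / lb * W ^ Nat.fib k / 10 ^ 4 with hu
  have upos : ∀ k, 0 < u k := fun k => by positivity
  have uanti : ∀ j k, j ≤ k → u k ≤ u j := fun j k h => by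
    have := pow_le_pow_of_le_one hW.le hW1 (Nat.fib_mono h)
    simp only [hu]
    gcongr
  have u0 : lb * u 0 = q / 10 ^ 4 := by
    simp only [hu, Nat.fib_zero, pow_zero]
    field_simp
  have hZ0 : 0 ≤ Z := (abs_nonneg _).trans hZ
  have hv0 : 0 ≤ 10 * lb * Z / q := by positivity
  have hv1 : 10 * lb * Z / q ≤ 1 := by
    rw [div_le_one hq]
    linarith only [hZ1]
  have h1 : ∀ k, k + 1 < n → |y k| ≤ u k := by
    intro k hk
    rcases Nat.eq_zero_or_pos k with rfl | h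
    · rw [y0, abs_zero]
      exact (upos 0).le
    · have := hy k h (by omega)
      rwa [UU, if_neg hk.ne, add_zero] at this
  have h2 : ∀ k, k + 1 < n → |y (k + 1)| ≤ 2 * u k := by
    intro k hk
    have h3 := hy (k + 1) (by omega) hk
    have h4 := uanti k (k + 1) (Nat.le_succ k)
    rw [UU] at h3
    split_ifs at h3 with h5
    · rw [show n - 2 = k by omega] at h3
      have := mul_le_of_le_one_left (upos k).le hv1
      change |y (k + 1)| ≤ u (k + 1) + 10 * lb * Z / q * u k at h3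
      linarith only [h4, this, h3]
    · change |y (k + 1)| ≤ u (k + 1) + 0 at h3
      linarith only [h4, h3, upos k]
  have h3 : ∀ k, k ≤ n → lb * |y k| ≤ q / 10 := by
    intro k hk
    rcases hk.eq_or_lt with rfl | h
    · exact (mul_le_mul_of_nonneg_left hZ hlb.le).trans hZ1
    · rcases Nat.eq_zero_or_pos k with rfl | h'
      · rw [y0, abs_zero, mul_zero]
        positivity
      · obtain ⟨j, rfl⟩ := Nat.exists_eq_add_of_le' h'
        have := mul_le_mul_of_nonneg_left ((h2 j h).trans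
          (mul_le_mul_of_nonneg_left (uanti 0 j (Nat.zero_le j)) zero_le_two)) hlb.le
        linarith only [hq, u0, this]
  have h4 : |c * S| ≤ q * u m / 100 := by
    rw [abs_mul, abs_of_nonneg hc0]
    refine (mul_le_mul_of_nonneg_right hc (abs_nonneg _)).trans ?_
    rcases le_or_gt m 2 with h | h
    · have e : Nat.fib m = 1 := by interval_cases m <;> rfl
      refine le_of_mul_le_mul_left ?_ hlb
      simp only [hu, e, pow_one]
      calc _ = lb ^ 2 * |S| := by ring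
        _ ≤ _ := hS1 h
        _ = _ := by field_simp; ring
    · obtain ⟨k, rfl⟩ : ∃ k, m = k + 2 := ⟨m - 2, by omega⟩
      rw [hS2 h, abs_mul, Nat.add_sub_cancel, show k + 2 - 1 = k + 1 by omega]
      have e : lb * (u (k + 1) * u k) = q * u (k + 2) / 10 ^ 4 := by
        simp only [hu, Nat.fib_add_two, pow_add]
        field_simp
      have := mul_le_mul_of_nonneg_left (mul_le_mul (h1 (k + 1) hmn) (h1 k (by omega))
        (abs_nonneg _) (upos _).le) hlb.le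
      have e2 := mul_pos hq (upos (k + 2))
      linarith only [e, this, e2]
  have e2 := mul_pos hq (upos m)
  rw [UU]
  split_ifs with h5
  · subst h5
    rw [yend, abs_zero, zero_mul, add_zero] at hb
    have h6 := mul_le_mul_of_nonneg_left (mul_le_mul hZ (h1 (m - 1) (by omega)) (abs_nonneg _) hZ0)
      hlb.le
    rw [show m + 1 - 2 = m - 1 by omega]
    change _ < q * (u m + 10 * lb * Z / q * u (m - 1))
    have e3 : q * (10 * lb * Z / q * u (m - 1)) = 10 * (lb * (Z * u (m - 1))) := by field_simp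
    have e4 : 0 ≤ lb * (Z * u (m - 1)) := by have := upos (m - 1); positivity
    rw [mul_add, e3]
    linarith only [hb, h4, e2, h6, e4]
  · change _ < q * (u m + 0)
    have h6 := h2 m (by omega)
    have h7 := mul_le_mul h6 (h3 (m - 1) (by omega)) (by positivity) (by have := upos m; positivity)
    have h8 := mul_le_mul h6 (h3 (m + 2) (by omega)) (by positivity) (by have := upos m; positivity)
    linarith only [hb, h4, e2, h7, h8]

theorem chain_upper {n : ℕ} (hn : 8 ≤ n) {y : ℕ → ℝ → ℝ} {c d : ℕ → ℝ} {lb q dlo t1 t2 : ℝ}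
    {W Z Sb : ℝ → ℝ} (h0 : 0 ≤ t1) (hlb : 0 < lb) (hq : 0 < q) (hdlo : 0 ≤ dlo)
    (hc : ∀ m, 1 ≤ m → m < n → 0 ≤ c m ∧ c m ≤ lb) (hd : ∀ m, 1 ≤ m → m < n → dlo ≤ d m)
    (y0 : ∀ t, y 0 t = 0) (yend : ∀ t, y (n + 1) t = 0)
    (eqn : ∀ m, ∀ t ∈ Icc t1 t2, 1 ≤ m → m < n → ∃ S b, HD (y m) (c m * S - d m * y m t + b) t ∧
      |b| ≤ lb * (|y (m + 1) t| * |y (m - 1) t| + |y (m + 2) t| * |y (m + 1) t|) ∧
      (m ≤ 2 → |S| ≤ Sb t) ∧ (3 ≤ m → S = y (m - 1) t * y (m - 2) t))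
    (hW : ∀ t ∈ Icc t1 t2, 0 < W t ∧ W t ≤ 1 ∧ lb ^ 2 * Sb t ≤ q ^ 2 * W t / 10 ^ 6 ∧
      ∃ W', HD W W' t ∧ 0 ≤ W' ∧ q * W t ≤ W' + dlo * W t)
    (hZ : ∀ t ∈ Icc t1 t2, |y n t| ≤ Z t ∧ lb * Z t ≤ q / 10 ∧ ∃ Z', HD Z Z' t ∧ 0 ≤ Z')
    (init : ∀ m, 1 ≤ m → m < n → |y m t1| ≤ UU q lb (W t1) (Z t1) n m) :
    ∀ t ∈ Icc t1 t2, ∀ m, 1 ≤ m → m < n → |y m t| ≤ UU q lb (W t) (Z t) n m := by
  have hU : ∀ m, 1 ≤ m → ∀ t ∈ Icc t1 t2, ∃ D, HD (fun s => UU q lb (W s) (Z s) n m) D t ∧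
      q * UU q lb (W t) (Z t) n m ≤ D + dlo * UU q lb (W t) (Z t) n m := by
    intro m hm t ht
    obtain ⟨w1, -, -, W', w2, w3, w4⟩ := hW t ht
    obtain ⟨z1, -, Z', z2, z3⟩ := hZ t ht
    exact UU_deriv hlb hq (by omega) hm w1 ((abs_nonneg _).trans z1) w2 w3 w4 z2 z3
  have : Finite (Ico 1 n) := (finite_Ico 1 n).to_subtype
  have key := family_barrier (ι := Ico 1 n × ({1, -1} : Set ℝ))
    (H := fun i t => i.2 * y i.1 t - UU q lb (W t) (Z t) n i.1) (a := t1) (b := t2)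
    (fun i => contOn_of_HD h0 fun t ht => by
      obtain ⟨S, b, h1, -⟩ := eqn i.1 t ht i.1.2.1 i.1.2.2
      obtain ⟨D, h2, -⟩ := hU i.1 i.1.2.1 t ht
      exact ⟨_, (h1.const_mul _).fun_sub h2⟩)
    (fun i => by
      have := abs_le.1 (init i.1 i.1.2.1 i.1.2.2)
      rcases i.2.2 with h | h <;> rw [h] <;> linarith only [this.1, this.2]) ?_
  · intro t ht m h1 h2
    have e1 := key t ht (⟨m, h1, h2⟩, ⟨1, Or.inl rfl⟩)
    have e2 := key t ht (⟨m, h1, h2⟩, ⟨-1, Or.inr rfl⟩)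
    exact abs_le.2 ⟨by linarith only [e2], by linarith only [e1]⟩
  rintro t ht all ⟨⟨m, h1, h2⟩, ⟨e, he⟩⟩ hz
  have ht' := Ico_subset_Icc_self ht
  obtain ⟨S, b, h3, h4, h5, h6⟩ := eqn m t ht' h1 h2
  obtain ⟨D, h7, h8⟩ := hU m h1 t ht'
  obtain ⟨w1, w2, w3, -⟩ := hW t ht'
  obtain ⟨z1, z2, -⟩ := hZ t ht'
  have h9 := upper_source hn (y := fun k => y k t) hlb hq w1 w2 (y0 t) (yend t) z1 z2
    (fun k k1 k2 => by
      have e1 := all t ⟨ht.1, le_rfl⟩ (⟨k, k1, k2⟩, ⟨1, Or.inl rfl⟩)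
      have e2 := all t ⟨ht.1, le_rfl⟩ (⟨k, k1, k2⟩, ⟨-1, Or.inr rfl⟩)
      exact abs_le.2 ⟨by linarith only [e2], by linarith only [e1]⟩) h1 h2 (hc m h1 h2).1 (hc m h1 h2).2 h4
    (fun h => (mul_le_mul_of_nonneg_left (h5 h) (sq_nonneg lb)).trans w3) h6
  refine ⟨_, ?_, HD.right ((h3.const_mul e).fun_sub h7) (h0.trans ht.1)⟩
  simp only at hz
  have h10 : 0 ≤ UU q lb (W t) (Z t) n m := by
    have := (abs_nonneg _).trans z1
    unfold UU
    split_ifs <;> positivity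
  have h11 := mul_le_mul_of_nonneg_right (hd m h1 h2) h10
  have h12 := abs_le.1 (le_refl |c m * S|)
  have h13 := abs_le.1 (le_refl |b|)
  have h14 : d m * (e * y m t) = d m * UU q lb (W t) (Z t) n m := by rw [sub_eq_zero.1 hz]
  rcases he with rfl | rfl <;> linarith only [h8, h9, h11, h14, h12.1, h12.2, h13.1, h13.2]

lemma back_term {T x : ℝ} (hT : 1 ≤ T) (hx : 0 < x) (hx1 : T ^ 150 * x ^ 2 ≤ 1) {f e : ℕ}
    (h : 3 * f ≤ 2 * e) : (T ^ 10 * x ^ 2) ^ e ≤ (x ^ 2 / T ^ 60) ^ f := by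
  have T0 : 0 < T := by linarith only [hT]
  have h1 : T ^ 10 * x ^ 2 ≤ 1 :=
    (mul_le_mul_of_nonneg_right (pow_le_pow_right₀ hT (by norm_num)) (by positivity)).trans hx1
  have h2 : (T ^ 10 * x ^ 2) ^ 3 ≤ (x ^ 2 / T ^ 60) ^ 2 := by
    rw [div_pow, le_div_iff₀ (by positivity)]
    calc _ = T ^ 150 * x ^ 2 * (x ^ 2) ^ 2 := by ring
      _ ≤ 1 * (x ^ 2) ^ 2 := by gcongr
      _ = _ := one_mul _
  refine (pow_le_pow_iff_left₀ (by positivity) (by positivity) two_ne_zero).1 ?_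
  calc _ = (T ^ 10 * x ^ 2) ^ (2 * e) := by rw [← pow_mul, mul_comm e]
    _ ≤ (T ^ 10 * x ^ 2) ^ (3 * f) := pow_le_pow_of_le_one (by positivity) h1 h
    _ = ((T ^ 10 * x ^ 2) ^ 3) ^ f := by rw [pow_mul]
    _ ≤ ((x ^ 2 / T ^ 60) ^ 2) ^ f := by gcongr
    _ = _ := by rw [← pow_mul, ← pow_mul, mul_comm]

lemma lower_back {n : ℕ} {T x a : ℝ} (hT : 1 ≤ T) (hx : 0 < x) (hx1 : T ^ 150 * x ^ 2 ≤ 1)
    (ha : 0 < a) {y : ℕ → ℝ} (y0 : y 0 = 0) (yend : y (n + 1) = 0)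
    (hU : ∀ m, 1 ≤ m → m < n → |y m| ≤ a * (T ^ 10 * x ^ 2) ^ Nat.fib m)
    (hUn : |y n| ≤ a * (T ^ 10 * x ^ 2) ^ Nat.fib (n - 1)) {m : ℕ} (hm : 1 ≤ m) (hmn : m < n) :
    |y (m + 1)| * |y (m - 1)| + |y (m + 2)| * |y (m + 1)| ≤
      2 * (a ^ 2 * (x ^ 2 / T ^ 60) ^ Nat.fib m) := by
  have T0 : 0 < T := by linarith only [hT]
  have h0 : 0 ≤ a ^ 2 * (x ^ 2 / T ^ 60) ^ Nat.fib m := by positivity
  have key : ∀ {u v : ℝ} {i j : ℕ}, |u| ≤ a * (T ^ 10 * x ^ 2) ^ i →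
      |v| ≤ a * (T ^ 10 * x ^ 2) ^ j → 3 * Nat.fib m ≤ 2 * (i + j) →
      |u| * |v| ≤ a ^ 2 * (x ^ 2 / T ^ 60) ^ Nat.fib m := by
    intro u v i j hu hv h
    refine (mul_le_mul hu hv (abs_nonneg _) (by positivity)).trans ?_
    calc _ = a ^ 2 * (T ^ 10 * x ^ 2) ^ (i + j) := by ring
      _ ≤ _ := mul_le_mul_of_nonneg_left (back_term hT hx hx1 h) (by positivity)
  have up : ∀ k, 1 ≤ k → k < n → ∃ i, Nat.fib k ≤ i ∧ |y (k + 1)| ≤ a * (T ^ 10 * x ^ 2) ^ i := by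
    intro k hk hkn
    rcases (Nat.succ_le_of_lt hkn).eq_or_lt with h | h
    · subst h
      exact ⟨_, le_rfl, hUn⟩
    · exact ⟨_, Nat.fib_mono (Nat.le_succ k), hU _ (by omega) h⟩
  obtain ⟨i, hi, hi'⟩ := up m hm hmn
  have h1 : |y (m + 1)| * |y (m - 1)| ≤ a ^ 2 * (x ^ 2 / T ^ 60) ^ Nat.fib m := by
    rcases hm.eq_or_lt with rfl | h
    · rwa [Nat.sub_self, y0, abs_zero, mul_zero]
    · obtain ⟨k, rfl⟩ : ∃ k, m = k + 2 := ⟨m - 2, by omega⟩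
      refine key hi' (hU _ (by omega) (by omega)) ?_
      have e1 := Nat.fib_add_two (n := k)
      have e2 : Nat.fib k ≤ Nat.fib (k + 1) := Nat.fib_mono (Nat.le_succ k)
      rw [show k + 2 - 1 = k + 1 by omega]
      omega
  have h2 : |y (m + 2)| * |y (m + 1)| ≤ a ^ 2 * (x ^ 2 / T ^ 60) ^ Nat.fib m := by
    rcases (Nat.succ_le_of_lt hmn).eq_or_lt with h | h
    · subst h
      rwa [yend, abs_zero, zero_mul]
    · obtain ⟨j, hj, hj'⟩ := up (m + 1) (by omega) h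
      refine key hj' hi' ?_
      have e2 : Nat.fib m ≤ Nat.fib (m + 1) := Nat.fib_mono (Nat.le_succ m)
      omega
  linarith only [h1, h2]

lemma lower_gain {T x0 x : ℝ} (hT : 2 ≤ T) (hx0 : 0 < x0) (hx : T ^ 50 * x0 ≤ x) {f : ℕ}
    (hf : 1 ≤ f) : 2 * (T ^ 30 * (x0 ^ 2 / T ^ 60) ^ f) + (T ^ 10 * x0 ^ 2) ^ f ≤
      T ^ 30 * (x ^ 2 / T ^ 60) ^ f := by
  have T0 : 0 < T := by linarith only [hT]
  have T1 : 1 ≤ T := by linarith only [hT]
  have h1 : (T ^ 40 * x0 ^ 2) ^ f ≤ (x ^ 2 / T ^ 60) ^ f := by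
    refine pow_le_pow_left₀ (by positivity) ?_ f
    rw [le_div_iff₀ (by positivity)]
    calc _ = (T ^ 50 * x0) ^ 2 := by ring
      _ ≤ _ := by gcongr
  have h2 : (T ^ 10 * x0 ^ 2) ^ f ≤ (T ^ 40 * x0 ^ 2) ^ f := by
    gcongr
    norm_num
  have h3 : (x0 ^ 2 / T ^ 60) ^ f ≤ (T ^ 40 * x0 ^ 2) ^ f / 4 := by
    have h4 : x0 ^ 2 / T ^ 60 ≤ 1 / 4 * (T ^ 40 * x0 ^ 2) := by
      rw [div_le_iff₀ (by positivity)]
      have h5 : (4 : ℝ) ≤ T ^ 100 := calc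
        (4 : ℝ) = 2 ^ 2 := by norm_num
        _ ≤ T ^ 2 := by gcongr
        _ ≤ _ := pow_le_pow_right₀ T1 (by norm_num)
      calc x0 ^ 2 = 1 / 4 * 4 * x0 ^ 2 := by ring
        _ ≤ 1 / 4 * T ^ 100 * x0 ^ 2 := by gcongr
        _ = _ := by ring
    refine (pow_le_pow_left₀ (by positivity) h4 f).trans ?_
    rw [mul_pow]
    have h5 : (1 / 4 : ℝ) ^ f ≤ (1 / 4) ^ 1 := pow_le_pow_of_le_one (by norm_num) (by norm_num) hf
    calc _ ≤ (1 / 4) ^ 1 * (T ^ 40 * x0 ^ 2) ^ f := by gcongr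
      _ = _ := by ring
  have h4 : (2 : ℝ) ≤ T ^ 30 := hT.trans (le_self_pow₀ T1 (by norm_num))
  have h5 : 0 < (T ^ 40 * x0 ^ 2) ^ f := by positivity
  generalize T ^ 30 = R at *
  nlinarith only [h1, h2, h3, h5, h4]

theorem chain_lower {n : ℕ} (hn : 8 ≤ n) {T : ℝ} (hT : (10 : ℝ) ^ 100 ≤ T) (hnT : (n : ℝ) ≤ T)
    (hF : (Nat.fib n : ℝ) ≤ T ^ 8) {y : ℕ → ℝ → ℝ} {c d : ℕ → ℝ} {lb q t1 t2 : ℝ} {x : ℝ → ℝ}
    (h0 : 0 ≤ t1) (hlb : 0 < lb) (hq : 0 < q)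
    (hc : ∀ m, 1 ≤ m → m < n → lb / T ^ 18 ≤ c m) (hd : ∀ m, 1 ≤ m → m < n → 0 ≤ d m ∧ d m ≤ q)
    (y0 : ∀ t, y 0 t = 0) (yend : ∀ t, y (n + 1) t = 0)
    (eqn : ∀ m, ∀ t ∈ Icc t1 t2, 1 ≤ m → m < n → ∃ S b, HD (y m) (c m * S - d m * y m t + b) t ∧
      |b| ≤ lb * (|y (m + 1) t| * |y (m - 1) t| + |y (m + 2) t| * |y (m + 1) t|) ∧
      (m ≤ 2 → (q / lb * x t) ^ 2 / 10 ≤ S) ∧ (3 ≤ m → S = y (m - 1) t * y (m - 2) t))
    (hx : ∀ t ∈ Icc t1 t2, 0 < x t ∧ x t ≤ Real.exp (-T) ∧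
      ∃ x', HD x x' t ∧ 0 ≤ x' ∧ x' ≤ 40 * q * x t)
    (hU : ∀ t ∈ Icc t1 t2, ∀ m, 1 ≤ m → m < n →
      |y m t| ≤ q / lb * (T ^ 10 * x t ^ 2) ^ Nat.fib m)
    (hUn : ∀ t ∈ Icc t1 t2, |y n t| ≤ q / lb * (T ^ 10 * x t ^ 2) ^ Nat.fib (n - 1)) :
    ∀ t ∈ Icc t1 t2, Real.exp (T ^ 2) * x t1 ≤ x t → ∀ m, 1 ≤ m → m < n →
      q / lb * T ^ 30 * (x t ^ 2 / T ^ 60) ^ Nat.fib m ≤ y m t := by
  have T2 : (1000 : ℝ) ≤ T := le_trans (by norm_num) hT
  have T1 : 1 ≤ T := by linarith only [hT]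
  have T0 : 0 < T := by linarith only [hT]
  have ha : 0 < q / lb := by positivity
  have hO : 1 ≤ T ^ 50 := one_le_pow₀ T1
  have xmono : ∀ s t, t1 ≤ s → s ≤ t → t ≤ t2 → x s ≤ x t := fun s t h1 h2 h3 =>
    mono_of_deriv h0 (fun u hu => by
      obtain ⟨-, -, x', h4, h5, -⟩ := hx u hu
      exact ⟨x', h4, h5⟩) h1 h2 h3
  have xsmall : ∀ t ∈ Icc t1 t2, T ^ 150 * x t ^ 2 ≤ 1 := by
    intro t ht
    obtain ⟨h1, h2, -⟩ := hx t ht
    have h3 : T ^ 75 * x t ≤ 1 := by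
      calc _ ≤ Real.exp T * Real.exp (-T) :=
            mul_le_mul (pow_le_exp hT (by norm_num)) h2 h1.le (Real.exp_pos _).le
        _ = 1 := by rw [← Real.exp_add]; simp
    calc _ = (T ^ 75 * x t) ^ 2 := by ring
      _ ≤ 1 := pow_le_one₀ (by positivity) h3
  have main : ∀ m, 1 ≤ m → m < n → ∀ t ∈ Icc t1 t2, (T ^ 50) ^ m * x t1 ≤ x t →
      q / lb * T ^ 30 * (x t ^ 2 / T ^ 60) ^ Nat.fib m ≤ y m t := by
    intro m
    induction m using Nat.strong_induction_on with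
    | _ m ih =>
    intro hm hmn t ht hxt
    have x1 := (hx t1 ⟨le_rfl, ht.1.trans ht.2⟩).1
    obtain ⟨j, rfl⟩ := Nat.exists_eq_add_of_le' hm
    obtain ⟨s0, hs0, hxs⟩ := exists_level (F := x) (c := (T ^ 50) ^ j * x t1) ht.1
      (contOn_of_HD h0 fun u hu => by
        obtain ⟨-, -, x', h4, -⟩ := hx u ⟨hu.1, hu.2.trans ht.2⟩
        exact ⟨x', h4⟩) (le_mul_of_one_le_left x1.le (one_le_pow₀ hO))
      ((mul_le_mul_of_nonneg_right (pow_le_pow_right₀ hO (Nat.le_succ j)) x1.le).trans hxt)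
    have hs0' : s0 ∈ Icc t1 t2 := ⟨hs0.1, hs0.2.trans ht.2⟩
    set f := Nat.fib (j + 1) with hf
    have f1 : 1 ≤ f := Nat.fib_pos.2 hm
    have f2 : (f : ℝ) ≤ T ^ 8 := le_trans (by exact_mod_cast Nat.fib_mono hmn.le) hF
    have xs0 := (hx s0 hs0').1
    have bar := barrier (F := fun s => 2 * (q / lb * T ^ 30 * (x s ^ 2 / T ^ 60) ^ f) -
      (2 * (q / lb * T ^ 30 * (x s0 ^ 2 / T ^ 60) ^ f) + q / lb * (T ^ 10 * x s0 ^ 2) ^ f))
      (G := y (j + 1)) (a := s0) (b := t) (h0.trans hs0.1)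
      (by linarith only [(abs_le.1 (hU s0 hs0' _ hm hmn)).1]) ?_ t ⟨hs0.2, le_rfl⟩
    · have h1 := mul_le_mul_of_nonneg_left (lower_gain (T := T) (by linarith only [hT]) xs0 (x := x t)
        (by rw [hxs, ← mul_assoc, ← pow_succ']; exact hxt) f1) ha.le
      linarith only [bar, h1]
    intro s hs
    have hs' : s ∈ Icc t1 t2 := ⟨hs0.1.trans hs.1, hs.2.trans ht.2⟩
    obtain ⟨S, b, h1, h2, h3, h4⟩ := eqn (j + 1) s hs' hm hmn
    obtain ⟨xs, -, x', h5, h6, h7⟩ := hx s hs'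
    refine ⟨_, _, ((((h5.fun_pow 2).div_const _).fun_pow f).const_mul
      (q / lb * T ^ 30)).const_mul 2 |>.sub_const _, h1, fun he => ?_⟩
    set v := x s ^ 2 / T ^ 60 with hv
    have v0 : 0 < v := by positivity
    set L := q / lb * T ^ 30 * v ^ f with hL
    have L0 : 0 < L := by positivity
    have qL : 0 < q * L := by positivity
    have e1 : 2 * (q / lb * T ^ 30 * (f * v ^ (f - 1) * ((2 : ℕ) * x s ^ (2 - 1) * x' / T ^ 60))) ≤
        160 * T ^ 8 * (q * L) := by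
      have e2 : (2 : ℕ) * x s ^ (2 - 1) * x' / T ^ 60 ≤ 80 * q * v := by
        rw [hv, ← mul_div_assoc]
        refine div_le_div_of_nonneg_right ?_ (by positivity)
        norm_num
        nlinarith only [xs, h7]
      have e3 : v ^ f = v ^ (f - 1) * v := by rw [← pow_succ, Nat.sub_add_cancel f1]
      calc _ ≤ 2 * (q / lb * T ^ 30 * (T ^ 8 * v ^ (f - 1) * (80 * q * v))) := by (clear * - hT hlb hq f2 xs h6 e2; gcongr)
        _ = _ := by rw [hL, e3]; ring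
    have e2 : d (j + 1) * y (j + 1) s ≤ 2 * (q * L) := by
      have e3 : y (j + 1) s ≤ 2 * L := by
        have : 0 ≤ 2 * (q / lb * T ^ 30 * (x s0 ^ 2 / T ^ 60) ^ f) +
          q / lb * (T ^ 10 * x s0 ^ 2) ^ f := by positivity
        linarith only [he, this]
      obtain ⟨d0, d1⟩ := hd _ hm hmn
      nlinarith only [L0, d1, mul_le_mul_of_nonneg_left e3 d0]
    have e3 : |b| ≤ 2 * (q * L) := by
      refine h2.trans ((mul_le_mul_of_nonneg_left (lower_back (y := fun k => y k s) T1 xs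
        (xsmall s hs') ha (y0 s) (yend s) (hU s hs') (hUn s hs') hm hmn) hlb.le).trans ?_)
      have e4 : 1 ≤ T ^ 30 := one_le_pow₀ T1
      calc _ = 2 * (q * (q / lb * 1 * v ^ f)) := by rw [← hv, ← hf]; field_simp
        _ ≤ _ := by rw [hL]; (clear * - hT hlb hq xs e4; gcongr)
    have e4 : T ^ 12 / 10 * (q * L) ≤ c (j + 1) * S := by
      have e5 : (q / lb) ^ 2 * T ^ 60 * v ^ f / 10 ≤ S := by
        rcases le_or_gt (j + 1) 2 with h | h
        · have e6 : f = 1 := by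
            rw [hf]
            have : j ≤ 1 := by omega
            interval_cases j <;> rfl
          refine le_trans (le_of_eq ?_) (h3 h)
          rw [e6, hv]
          field_simp
        · obtain ⟨k, rfl⟩ : ∃ k, j = k + 1 := ⟨j - 1, by omega⟩
          have e6 : ∀ i ≤ k + 1, (T ^ 50) ^ i * x t1 ≤ x s := fun i hi =>
            (mul_le_mul_of_nonneg_right (pow_le_pow_right₀ hO hi) x1.le).trans
              (hxs ▸ xmono s0 s hs0.1 hs.1 hs'.2)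
          have e7 := ih (k + 1) (by omega) (by omega) (by omega) s hs' (e6 _ le_rfl)
          have e8 := ih k (by omega) (by omega) (by omega) s hs' (e6 _ (by omega))
          rw [h4 h, show k + 1 + 1 - 1 = k + 1 by omega, show k + 1 + 1 - 2 = k by omega]
          refine le_trans ?_ (mul_le_mul e7 e8 (by positivity) (le_trans (by positivity) e7))
          have e9 : (q / lb) ^ 2 * T ^ 60 * v ^ f =
              q / lb * T ^ 30 * v ^ Nat.fib (k + 1) * (q / lb * T ^ 30 * v ^ Nat.fib k) := by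
            rw [hf, Nat.fib_add_two, pow_add]
            ring
          rw [← e9]
          have : 0 ≤ (q / lb) ^ 2 * T ^ 60 * v ^ f := by positivity
          linarith only [this]
      refine le_trans (le_of_eq ?_) (mul_le_mul (hc _ hm hmn) e5 (by positivity)
        (le_trans (by positivity) (hc _ hm hmn)))
      rw [hL]
      field_simp
    have e5 : 160 * T ^ 8 + 5 ≤ T ^ 12 / 10 := by
      have e6 : 1 ≤ T ^ 8 := one_le_pow₀ T1
      have e7 : (1000 : ℝ) ^ 4 ≤ T ^ 4 := by gcongr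
      have e8 : T ^ 12 = T ^ 4 * T ^ 8 := by ring
      rw [e8]
      nlinarith only [e6, e7]
    have e6 := mul_le_mul_of_nonneg_right e5 qL.le
    linarith only [qL, e1, e2, e4, e6, (abs_le.1 e3).1]
  intro t ht hxt m hm hmn
  refine main m hm hmn t ht (le_trans (mul_le_mul_of_nonneg_right ?_
    (hx t1 ⟨le_rfl, ht.1.trans ht.2⟩).1.le) hxt)
  calc (T ^ 50) ^ m ≤ Real.exp T ^ m := pow_le_pow_left₀ (by positivity) (pow_le_exp hT (by norm_num)) m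
    _ = Real.exp (m * T) := (Real.exp_nat_mul T m).symm
    _ ≤ _ := by
      rw [Real.exp_le_exp, sq]
      exact mul_le_mul_of_nonneg_right (le_trans (by exact_mod_cast hmn.le) hnT) T0.le

end

end Pool.Agent.Work.MP_6bf1e5_an.Dec
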