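import Pool.Agent.Work.MP_6bf1e5_an.Dec.CoefB

/-!
Helical algebra: reference vectors and interaction coefficients.
-/

open Set Complex
open scoped InnerProductSpace ComplexConjugate
open Pool.Agent.Work.MP_6bf1e5_an.B

namespace Pool.Agent.Work.MP_6bf1e5_an.Dec

noncomputable section

variable {Γ : Geo}

lemma norm_Sg (v : C3) : ‖Sg v‖ = ‖v‖ :=
  Cf.norm_Sg v

lemma norm_Rx (v : C3) : ‖Rx v‖ = ‖v‖ :=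
  Cf.norm_Rx v

lemma inner_Sg (u v : C3) : ⟪Sg u, Sg v⟫_ℂ = ⟪u, v⟫_ℂ :=
  Cf.inner_Sg u v

lemma inner_Rx (u v : C3) : ⟪Rx u, Rx v⟫_ℂ = ⟪u, v⟫_ℂ :=
  Cf.inner_Rx u v

lemma dt_Sg (v : C3) (k : Z3) : dt (Sg v) (swE k) = dt v k :=
  Cf.dt_Sg v k

lemma dt_Rx (v : C3) (k : Z3) : dt (Rx v) (rxE k) = dt v k :=
  Cf.dt_Rx v k

lemma ax_swE (k : Z3) : ax (swE k) = ax k :=
  Cf.ax_swE k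

lemma ax_rxE (k : Z3) : ax (rxE k) = ax k :=
  Cf.ax_rxE k

lemma hP_Sg (s : ℝ) (k : Z3) (v : C3) : hP (-s) (swE k) (Sg v) = Sg (hP s k v) :=
  Cf.hP_Sg s k v

lemma hP_Rx (s : ℝ) (k : Z3) (v : C3) : hP s (rxE k) (Rx v) = Rx (hP s k v) :=
  Cf.hP_Rx s k v

lemma row_s (ρ : Row) : ρ.s = 1 ∨ ρ.s = -1 :=
  Cf.row_s ρ

lemma norm_e {ρ : Row} (ok : ρ.ok Γ) : ‖ρ.e Γ‖ = 1 :=
  Cf.norm_e ok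

lemma hP_e {ρ : Row} (ok : ρ.ok Γ) (h2 : ∀ j, ρ ≠ .y j 2) :
    hP ρ.s (pt Γ ρ 1 0) (ρ.e Γ) = ρ.e Γ :=
  Cf.hP_e ok h2

/-- The reference vectors are fixed by the half turn about the third axis with conjugation. -/
lemma e_real {ρ : Row} (ok : ρ.ok Γ) : sgn (ρ.X Γ + ρ.W Γ) • Rz (cj (ρ.e Γ)) = ρ.e Γ :=
  Cf.e_real ok

lemma e'_b (j : ℕ) : (Row.b j).e' Γ = (Row.b j).e Γ :=
  Cf.e'_b j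

/-- The range of the helical projection is a line. -/
theorem eq_uu {s : ℝ} (hs : s = 1 ∨ s = -1) {k : Z3} {x e : C3} (hx : hP s k x = x)
    (he : hP s k e ≠ 0) : x = ⟪e, x⟫_ℂ • uu s k e :=
  Cf.eq_uu hs hx he

theorem uu_near {ρ : Row} (ok : ρ.ok Γ) (h2 : ∀ j, ρ ≠ .y j 2) {h : Z3} (hh : h ∈ box (ρ.R Γ)) :
    ‖hP ρ.s (pt Γ ρ 1 h) (ρ.e Γ) - ρ.e Γ‖ ≤ (Γ.T ρ.lev ^ 800)⁻¹ ∧
      ‖uu ρ.s (pt Γ ρ 1 h) (ρ.e Γ) - ρ.e Γ‖ ≤ (Γ.T ρ.lev ^ 800)⁻¹ :=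
  Cf.uu_near ok h2 hh

theorem cf_lip {w u v w' u' v' : C3} {k l k' l' : Z3} {δ ζ L : ℝ} (hδ : δ ≤ 1)
    (nw : ‖w'‖ ≤ 1) (nu : ‖u'‖ ≤ 1) (nv : ‖v'‖ ≤ 1)
    (dw : ‖w - w'‖ ≤ δ) (du : ‖u - u'‖ ≤ δ) (dv : ‖v - v'‖ ≤ δ)
    (dk : ax (k - k') ≤ ζ) (dl : ax (l - l') ≤ ζ) (hk : ax k' ≤ L) (hl : ax l' ≤ L) :
    ‖cf w k u l v - cf w' k' u' l' v'‖ ≤ 14 * δ * L + 16 * ζ :=
  Cf.cf_lip hδ nw nu nv dw du dv dk dl hk hl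

/-- The symmetrised term of the convolution, tested against `w`. -/
lemma inner_sym_term (w u v : C3) (x y : ℂ) (k l : Z3) :
    -⟪w, (I * dt (x • u) l) • (y • v) + (I * dt (y • v) k) • (x • u)⟫_ℂ = cf w k u l v * (x * y) :=
  Cf.inner_sym_term w u v x y k l

theorem cB_bounds (j : ℕ) : 3 / 10 * Γ.lam j ≤ cB Γ j ∧ cB Γ j ≤ 4 / 10 * Γ.lam j :=
  Cf.cB_bounds j

theorem cC_bounds (j : ℕ) : 3 / 10 * Γ.lam j ≤ cC Γ j ∧ cC Γ j ≤ 4 / 10 * Γ.lam j :=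
  Cf.cC_bounds j

lemma rho_bounds (j : ℕ) : 4 / 5 ≤ rho Γ j ∧ rho Γ j ≤ 6 / 5 :=
  Cf.rho_bounds j

theorem cf_C (j : ℕ) : cf ((Row.c j).e Γ) (pt Γ (.b (j + 1)) 1 0) ((Row.b (j + 1)).e Γ)
    (swE (pt Γ (.b j) 1 0)) (Sg ((Row.b j).e Γ)) = cC Γ j :=
  Cf.cf_C j

theorem cf_Bm (j : ℕ) : cf ((Row.b (j + 1)).e Γ) (pt Γ (.c j) (-1) 0) ((Row.c j).e' Γ)
    (swE (pt Γ (.b j) 1 0)) (Sg ((Row.b j).e Γ)) = cB Γ j :=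
  Cf.cf_Bm j

theorem cf_Bp (j : ℕ) : cf ((Row.b (j + 1)).e Γ) (pt Γ (.c j) 1 0) ((Row.c j).e Γ)
    (-swE (pt Γ (.b j) 1 0)) (cj (Sg ((Row.b j).e Γ))) = cB Γ j :=
  Cf.cf_Bp j

theorem cY0_spec {j m : ℕ} (h1 : 1 ≤ m) (h2 : m ≤ Γ.n (j + 1)) :
    (cY0 Γ j m).im = 0 ∧ Γ.lam j / 10 ≤ (cY0 Γ j m).re ∧
      (cY0 Γ j m).re ≤ 10 * Γ.lam (j + 2) :=
  Cf.cY0_spec h1 h2

end

end Pool.Agent.Work.MP_6bf1e5_an.Dec
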