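import Pool.Agent.Work.MP_6bf1e5_an.Dec.Rows
import Pool.Agent.Work.MP_6bf1e5_an.G.Ineq

/-!
Helical algebra: proofs, first half.
-/

open Set Complex
open scoped InnerProductSpace ComplexConjugate
open Pool.Agent.Work.MP_6bf1e5_an.B

namespace Pool.Agent.Work.MP_6bf1e5_an.Dec.Cf

noncomputable section

variable {Γ : Geo}

lemma inner3 (u v : C3) :
    ⟪u, v⟫_ℂ = conj (u 0) * v 0 + conj (u 1) * v 1 + conj (u 2) * v 2 := by
  simp [PiLp.inner_apply, Fin.sum_univ_three]; ring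

lemma dt3 (v : C3) (k : Z3) :
    dt v k = 2 * Real.pi * (v 0 * k 0 + v 1 * k 1 + v 2 * k 2) := by
  rw [dt_eq, Fin.sum_univ_three]; ring

lemma norm_Sg (v : C3) : ‖Sg v‖ = ‖v‖ := by
  simp [EuclideanSpace.norm_eq, Sg, Fin.sum_univ_three, add_comm]

lemma norm_Rx (v : C3) : ‖Rx v‖ = ‖v‖ := by
  simp [EuclideanSpace.norm_eq, Rx, Fin.sum_univ_three]

lemma inner_Sg (u v : C3) : ⟪Sg u, Sg v⟫_ℂ = ⟪u, v⟫_ℂ := by
  simp only [inner3, Sg]; simp; ring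

lemma inner_Rx (u v : C3) : ⟪Rx u, Rx v⟫_ℂ = ⟪u, v⟫_ℂ := by
  simp only [inner3, Rx]; simp

lemma dt_Sg (v : C3) (k : Z3) : dt (Sg v) (swE k) = dt v k := by
  simp only [dt3, Sg, swE_apply]; simp; ring

lemma dt_Rx (v : C3) (k : Z3) : dt (Rx v) (rxE k) = dt v k := by
  simp only [dt3, Rx, rxE_apply]; simp

lemma ax_swE (k : Z3) : ax (swE k) = ax k := by
  simp [ax, swE_apply, Fin.sum_univ_three, add_comm]

lemma ax_rxE (k : Z3) : ax (rxE k) = ax k := by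
  simp [ax, rxE_apply, Fin.sum_univ_three]

lemma curlS_Sg (k : Z3) (v : C3) : curlS (swE k) (Sg v) = -Sg (curlS k v) := by
  ext i
  fin_cases i <;> simp [curlS_apply, crossProduct, Sg, swE_apply] <;> ring

lemma curlS_Rx (k : Z3) (v : C3) : curlS (rxE k) (Rx v) = Rx (curlS k v) := by
  ext i
  fin_cases i <;> simp [curlS_apply, crossProduct, Rx, rxE_apply] <;> ring

lemma Sg_add (u v : C3) : Sg (u + v) = Sg u + Sg v := by
  ext i; fin_cases i <;> simp [Sg]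

lemma Sg_smul (c : ℂ) (v : C3) : Sg (c • v) = c • Sg v := by
  ext i; fin_cases i <;> simp [Sg]

lemma Rx_add (u v : C3) : Rx (u + v) = Rx u + Rx v := by
  ext i; fin_cases i <;> simp [Rx] <;> ring

lemma Rx_smul (c : ℂ) (v : C3) : Rx (c • v) = c • Rx v := by
  ext i; fin_cases i <;> simp [Rx]

lemma Rz_smul (c : ℂ) (v : C3) : Rz (c • v) = c • Rz v := by
  ext i; fin_cases i <;> simp [Rz]

lemma curlS_neg (k : Z3) (v : C3) : curlS k (-v) = -curlS k v := map_neg (curlL k) v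

lemma hP_Sg (s : ℝ) (k : Z3) (v : C3) : hP (-s) (swE k) (Sg v) = Sg (hP s k v) := by
  rw [hP, hP, ax_swE, curlS_Sg, curlS_neg, curlS_Sg, Sg_smul, Sg_add, Sg_smul]
  simp

lemma hP_Rx (s : ℝ) (k : Z3) (v : C3) : hP s (rxE k) (Rx v) = Rx (hP s k v) := by
  rw [hP, hP, ax_rxE, curlS_Rx, curlS_Rx, Rx_smul, Rx_add, Rx_smul]

lemma row_s (ρ : Row) : ρ.s = 1 ∨ ρ.s = -1 := by
  cases ρ with
  | b j => exact Or.inl rfl
  | c j => exact Or.inr rfl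
  | y j m => simp only [Row.s]; split_ifs <;> simp

/-- The horizontal length. -/
def nn (k : Z3) : ℝ := √((k 0 : ℝ) ^ 2 + (k 1 : ℝ) ^ 2)

lemma nn_nonneg (k : Z3) : 0 ≤ nn k := Real.sqrt_nonneg _

lemma nn_sq (k : Z3) : nn k ^ 2 = (k 0 : ℝ) ^ 2 + (k 1 : ℝ) ^ 2 := Real.sq_sqrt (by positivity)

lemma nn_pos {k : Z3} (h : k 0 ≠ 0) : 0 < nn k := by
  have : (k 0 : ℝ) ≠ 0 := by exact_mod_cast h
  exact Real.sqrt_pos.mpr (by positivity)

lemma ax_eq_nn {k : Z3} (h : k 2 = 0) : ax k = 2 * Real.pi * nn k := by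
  simp [ax, nn, Fin.sum_univ_three, h]

lemma hv0 (s : ℝ) (k : Z3) : hv s k 0 = ((-(k 1 : ℝ) / nn k / √2 : ℝ) : ℂ) := rfl
lemma hv1 (s : ℝ) (k : Z3) : hv s k 1 = (((k 0 : ℝ) / nn k / √2 : ℝ) : ℂ) := rfl
lemma hv2 (s : ℝ) (k : Z3) : hv s k 2 = I * ((s / √2 : ℝ) : ℂ) := rfl

lemma inner_hv (s s' : ℝ) (r l : Z3) : ⟪hv s r, hv s' l⟫_ℂ =
    (((((r 0 : ℝ) * l 0 + (r 1 : ℝ) * l 1) / (nn r * nn l) + s * s') / 2 : ℝ) : ℂ) := by
  have h2 : √2 * √2 = (2 : ℝ) := Real.mul_self_sqrt (by norm_num)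
  have e : ((((r 0 : ℝ) * l 0 + (r 1 : ℝ) * l 1) / (nn r * nn l) + s * s') / 2 : ℝ) =
      (-(r 1 : ℝ) / nn r / √2) * (-(l 1 : ℝ) / nn l / √2) +
        ((r 0 : ℝ) / nn r / √2) * ((l 0 : ℝ) / nn l / √2) + (s / √2) * (s' / √2) := by
    conv_lhs => rw [← h2]
    simp only [div_eq_mul_inv, mul_inv]; ring
  rw [e, inner3, hv0, hv0, hv1, hv1, hv2, hv2, map_mul, conj_ofReal, conj_ofReal, conj_ofReal, conj_I]
  push_cast
  linear_combination (-((s : ℂ) / (√2 : ℝ)) * ((s' : ℂ) / (√2 : ℝ))) * I_mul_I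

lemma dt_hv (s : ℝ) (k : Z3) {l : Z3} (hl : l 2 = 0) : dt (hv s k) l =
    ((2 * Real.pi * (((k 0 : ℝ) * l 1 - (k 1 : ℝ) * l 0) / nn k / √2) : ℝ) : ℂ) := by
  rw [dt3, hv0, hv1, hl]
  push_cast
  ring

lemma norm_hv {s : ℝ} (hs : s = 1 ∨ s = -1) {k : Z3} (h : k 0 ≠ 0) : ‖hv s k‖ = 1 := by
  have h1 := inner_hv s s k k
  have h2 := nn_pos h
  have h3 : s * s = 1 := by rcases hs with rfl | rfl <;> norm_num
  have h4 : ((k 0 : ℝ) * k 0 + (k 1 : ℝ) * k 1) / (nn k * nn k) = 1 := by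
    rw [div_eq_one_iff_eq (by positivity), ← sq (nn k), nn_sq]; ring
  rw [h3, h4, inner_self_eq_norm_sq_to_K] at h1
  have h5 : ‖hv s k‖ ^ 2 = 1 := by
    have : ((‖hv s k‖ ^ 2 : ℝ) : ℂ) = ((1 : ℝ) : ℂ) := by
      rw [show ((1 + 1) / 2 : ℝ) = 1 by norm_num] at h1
      rw [← h1]; simp
    exact ofReal_injective this
  exact (pow_eq_one_iff_of_nonneg (norm_nonneg _) two_ne_zero).mp h5

lemma curlS_hv {s : ℝ} (hs : s = 1 ∨ s = -1) {k : Z3} (h : k 0 ≠ 0) (h2 : k 2 = 0) :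
    curlS k (hv s k) = ((s * ax k : ℝ) : ℂ) • hv s k := by
  have h0 := nn_pos h
  have hn : ((nn k : ℝ) : ℂ) ≠ 0 := by exact_mod_cast h0.ne'
  have hq : ((√2 : ℝ) : ℂ) ≠ 0 := by exact_mod_cast (by positivity : (√2 : ℝ) ≠ 0)
  have h3 : (s : ℂ) * s = 1 := by rcases hs with rfl | rfl <;> norm_num
  have h4 : ((nn k : ℝ) : ℂ) ^ 2 = (k 0 : ℂ) ^ 2 + (k 1 : ℂ) ^ 2 := by exact_mod_cast nn_sq k
  rw [ax_eq_nn h2]
  ext i
  fin_cases i
  · simp [curlS_apply, crossProduct, hv0, hv1, hv2, h2]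
    field_simp
    linear_combination (k 1 : ℂ) * s * I_mul_I
  · simp [curlS_apply, crossProduct, hv0, hv1, hv2, h2]
    field_simp
    linear_combination -(s : ℂ) * I_mul_I
  · simp [curlS_apply, crossProduct, hv0, hv1, hv2, h2]
    field_simp
    linear_combination -h4 - ((nn k : ℝ) : ℂ) ^ 2 * h3

lemma hP_of_curl {s : ℝ} (hs : s = 1 ∨ s = -1) {k : Z3} (hk : k ≠ 0) {v : C3}
    (h : curlS k v = ((s * ax k : ℝ) : ℂ) • v) : hP s k v = v := by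
  have h0 := ax_pos hk
  have h3 : s * s = 1 := by rcases hs with rfl | rfl <;> norm_num
  rw [hP, h, curlS_smul, h, ← add_smul, smul_smul, smul_smul]
  have : (((2 * ax k ^ 2)⁻¹ : ℝ) : ℂ) * (((s * ax k : ℝ) : ℂ) + ((s * ax k : ℝ) : ℂ)) *
      ((s * ax k : ℝ) : ℂ) = ((1 : ℝ) : ℂ) := by
    norm_cast
    field_simp
    linear_combination 2 * h3
  rw [this]; simp

lemma hP_smul (s : ℝ) (k : Z3) (c : ℂ) (v : C3) : hP s k (c • v) = c • hP s k v :=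
  map_smul (hPL s k) c v

lemma hP_hv {s : ℝ} (hs : s = 1 ∨ s = -1) {k : Z3} (h : k 0 ≠ 0) (h2 : k 2 = 0) :
    hP s k (hv s k) = hv s k :=
  hP_of_curl hs (fun e => h (by simp [e])) (curlS_hv hs h h2)

lemma Sg_hv (s : ℝ) (k : Z3) : Sg (hv s k) = -hv (-s) (swE k) := by
  have : nn ![k 1, k 0, k 2] = nn k := by simp [nn, add_comm]
  ext i
  fin_cases i <;> simp [Sg, hv0, hv1, hv2, this, swE_apply] <;> ring

lemma Rx_hv (s : ℝ) (k : Z3) : Rx (hv s k) = -hv s (rxE k) := by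
  have : nn ![k 0, -k 1, -k 2] = nn k := by simp [nn]
  ext i
  fin_cases i <;> simp [Rx, hv0, hv1, hv2, this, rxE_apply, neg_div]

lemma cj_hv (s : ℝ) (k : Z3) : cj (hv s k) = -hv s (-k) := by
  have : nn (-k) = nn k := by simp [nn]
  ext i
  fin_cases i <;> simp [hv0, hv1, hv2, this] <;> ring

lemma Rz_cj_hv (s : ℝ) (k : Z3) : Rz (cj (hv s k)) = -hv s k := by
  ext i
  fin_cases i <;> simp [Rz, hv0, hv1, hv2]

lemma luc_pos' : ∀ k, 0 < luc k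
  | 0 => by simp [luc]
  | 1 => by simp [luc]
  | k + 2 => by have := luc_pos' (k + 1); simp only [luc]; omega

lemma luc_mod' : ∀ k, luc k % 2 = if k % 3 = 0 then 0 else 1
  | 0 => by simp [luc]
  | 1 => by simp [luc]
  | k + 2 => by
    have h1 := luc_mod' (k + 1)
    have h0 := luc_mod' k
    simp only [luc]
    split_ifs at h0 h1 ⊢ <;> omega

lemma P_pos' (j : ℕ) : 0 < Γ.P j := by have := P_odd (Γ := Γ) j; omega

lemma pt0 (ρ : Row) (e : ℤ) : pt Γ ρ e 0 0 = ρ.X Γ := by simp [pt]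
lemma pt1 (ρ : Row) (e : ℤ) : pt Γ ρ e 0 1 = e * ρ.W Γ := by simp [pt]
lemma pt2 (ρ : Row) (e : ℤ) : pt Γ ρ e 0 2 = 0 := by simp [pt]

lemma X_pos (ρ : Row) : 0 < ρ.X Γ := by
  cases ρ with
  | b j => simpa [Row.X] using P_pos' j
  | c j => simpa [Row.X] using P_pos' (j + 1)
  | y j m =>
    have h1 := luc_pos' (m - 1)
    have h2 := P_pos' (Γ := Γ) (j + 1)
    simp only [Row.X]; positivity

lemma pt0_ne (ρ : Row) (e : ℤ) : pt Γ ρ e 0 0 ≠ 0 := by rw [pt0]; exact (X_pos ρ).ne'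

lemma norm_ez : ‖ez‖ = 1 := by simp [EuclideanSpace.norm_eq, ez, Fin.sum_univ_three]

lemma norm_e' (ρ : Row) : ‖ρ.e Γ‖ = 1 := by
  cases ρ with
  | b j => exact norm_hv (Or.inl rfl) (pt0_ne _ _)
  | c j => rw [Row.e, norm_smul, norm_hv (Or.inr rfl) (pt0_ne _ _)]; simp
  | y j m =>
    rw [Row.e]
    split_ifs
    · exact norm_ez
    · rw [norm_smul, norm_hv (row_s _) (pt0_ne _ _)]; simp
    · rw [norm_smul, norm_hv (row_s _) (pt0_ne _ _)]; simp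

lemma norm_e {ρ : Row} (ok : ρ.ok Γ) : ‖ρ.e Γ‖ = 1 := (fun _ => norm_e' ρ) ok

lemma norm_sgn' (n : ℤ) : ‖sgn n‖ = 1 := by unfold sgn; split_ifs <;> simp

lemma norm_e'' (ρ : Row) : ‖ρ.e' Γ‖ = 1 := by
  rw [Row.e', norm_smul, norm_sgn', norm_Rx, norm_e', one_mul]

lemma hP_e {ρ : Row} (ok : ρ.ok Γ) (h2 : ∀ j, ρ ≠ .y j 2) :
    hP ρ.s (pt Γ ρ 1 0) (ρ.e Γ) = ρ.e Γ := by
  cases ρ with
  | b j => exact hP_hv (Or.inl rfl) (pt0_ne _ _) (pt2 _ _)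
  | c j =>
    rw [Row.e, hP_smul]
    exact congrArg _ (hP_hv (Or.inr rfl) (pt0_ne _ _) (pt2 _ _))
  | y j m =>
    have hm : m ≠ 2 := fun e => h2 j (by rw [e])
    have _ := ok
    rw [Row.e, if_neg hm, hP_smul, hP_hv (row_s _) (pt0_ne _ _) (pt2 _ _)]

lemma sgn_even {n : ℤ} (h : n % 2 = 0) : sgn n = 1 := if_pos h

lemma sgn_odd {n : ℤ} (h : n % 2 = 1) : sgn n = -1 := if_neg (by omega)

lemma X_mod (j m : ℕ) : (Row.y j m).X Γ % 2 = if (m - 1) % 3 = 0 then 0 else 1 := by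
  have h1 := luc_mod' (m - 1)
  have h2 := P_odd (Γ := Γ) (j + 1)
  have h3 : (luc (m - 1) * Γ.P (j + 1)) % 2 = if (m - 1) % 3 = 0 then 0 else 1 := by
    rw [Nat.mul_mod, h1, h2]; split_ifs <;> rfl
  have : (Row.y j m).X Γ = ((luc (m - 1) * Γ.P (j + 1) : ℕ) : ℤ) := by simp [Row.X]
  rw [this]
  split_ifs at h3 ⊢ <;> omega

lemma W_mod (j m : ℕ) : (Row.y j m).W Γ % 2 = if m % 3 = 0 then 0 else 1 := by
  have h1 := P_odd (Γ := Γ) j
  have h2 := P_odd (Γ := Γ) (j + 1)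
  simp only [Row.W, wv]
  split_ifs <;> omega

/-- The reference vectors are fixed by the half turn about the third axis with conjugation. -/
lemma e_real {ρ : Row} (ok : ρ.ok Γ) : sgn (ρ.X Γ + ρ.W Γ) • Rz (cj (ρ.e Γ)) = ρ.e Γ := by
  cases ρ with
  | b j =>
    have := P_odd (Γ := Γ) j
    rw [sgn_odd (by simp only [Row.X, Row.W]; omega), Row.e, Rz_cj_hv]; simp
  | c j =>
    have h1 := P_odd (Γ := Γ) j
    have h2 := P_odd (Γ := Γ) (j + 1)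
    rw [sgn_even (by simp only [Row.X, Row.W]; omega), Row.e, cj_smul, Rz_smul, Rz_cj_hv]; simp
  | y j m =>
    have h1 := X_mod (Γ := Γ) j m
    have h2 := W_mod (Γ := Γ) j m
    have h3 : 1 ≤ m := ok.1
    rw [Row.e]
    by_cases hm : m = 2
    · subst hm
      rw [if_pos rfl, sgn_even (by simp at h1 h2; omega)]
      ext i; fin_cases i <;> simp [Rz, ez]
    rw [if_neg hm, cj_smul, Rz_smul, Rz_cj_hv]
    by_cases h4 : m % 3 = 2
    · rw [if_pos h4, sgn_even (by split_ifs at h1 h2 <;> omega)]; simp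
    · rw [if_neg h4, sgn_odd (by split_ifs at h1 h2 <;> omega)]; simp

lemma e'_b (j : ℕ) : (Row.b j).e' Γ = (Row.b j).e Γ := by
  have := P_odd (Γ := Γ) j
  rw [Row.e', sgn_odd (by simp only [Row.X]; omega), Row.e, Rx_hv]
  have : rxE (pt Γ (.b j) 1 0) = pt Γ (.b j) 1 0 := by
    ext i; fin_cases i <;> simp [rxE_apply, pt, Row.W]
  rw [this]; simp

lemma cross_zero {c a K0 K1 K2 x0 x1 x2 v0 v1 v2 : ℂ} (ha : a ≠ 0) (hc : c * c = -1)
    (hK : a ^ 2 = K0 ^ 2 + K1 ^ 2 + K2 ^ 2)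
    (dx : x0 * K0 + x1 * K1 + x2 * K2 = 0)
    (e0 : c * (K1 * x2 - K2 * x1) = a * x0) (e1 : c * (K2 * x0 - K0 * x2) = a * x1)
    (e2 : c * (K0 * x1 - K1 * x0) = a * x2)
    (f0 : c * (K1 * v2 - K2 * v1) = a * v0) (f1 : c * (K2 * v0 - K0 * v2) = a * v1)
    (f2 : c * (K0 * v1 - K1 * v0) = a * v2) :
    x1 * v2 = x2 * v1 ∧ x2 * v0 = x0 * v2 ∧ x0 * v1 = x1 * v0 := by
  have hd : x0 * v0 + x1 * v1 + x2 * v2 = 0 := by
    have : (2 * a ^ 2) * (x0 * v0 + x1 * v1 + x2 * v2) = 0 := by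
      linear_combination (-(a * v0)) * e0 - (a * v1) * e1 - (a * v2) * e2
        - c * (K1 * x2 - K2 * x1) * f0 - c * (K2 * x0 - K0 * x2) * f1
        - c * (K0 * x1 - K1 * x0) * f2
        + ((K1 * x2 - K2 * x1) * (K1 * v2 - K2 * v1) + (K2 * x0 - K0 * x2) * (K2 * v0 - K0 * v2)
          + (K0 * x1 - K1 * x0) * (K0 * v1 - K1 * v0)) * hc
        + (x0 * v0 + x1 * v1 + x2 * v2) * hK + (K0 * v0 + K1 * v1 + K2 * v2) * dx
    exact (mul_eq_zero.mp this).resolve_left (by simpa using ha)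
  refine ⟨mul_left_cancel₀ ha ?_, mul_left_cancel₀ ha ?_, mul_left_cancel₀ ha ?_⟩
  · linear_combination (-x1) * f2 + x2 * f1 + c * K0 * hd - c * v0 * dx
  · linear_combination (-x2) * f0 + x0 * f2 + c * K1 * hd - c * v1 * dx
  · linear_combination (-x0) * f1 + x1 * f0 + c * K2 * hd - c * v2 * dx

lemma curlS0 (k : Z3) (v : C3) :
    curlS k v 0 = I * (2 * Real.pi * k 1 * v 2 - 2 * Real.pi * k 2 * v 1) := by
  simp [curlS_apply, crossProduct]; ring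

lemma curlS1 (k : Z3) (v : C3) :
    curlS k v 1 = I * (2 * Real.pi * k 2 * v 0 - 2 * Real.pi * k 0 * v 2) := by
  simp [curlS_apply, crossProduct]; ring

lemma curlS2 (k : Z3) (v : C3) :
    curlS k v 2 = I * (2 * Real.pi * k 0 * v 1 - 2 * Real.pi * k 1 * v 0) := by
  simp [curlS_apply, crossProduct]; ring

/-- The range of the helical projection is a line. -/
theorem eq_uu {s : ℝ} (hs : s = 1 ∨ s = -1) {k : Z3} {x e : C3} (hx : hP s k x = x)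
    (he : hP s k e ≠ 0) : x = ⟪e, x⟫_ℂ • uu s k e := by
  have ss : s * s = 1 := by rcases hs with rfl | rfl <;> norm_num
  have hk : k ≠ 0 := fun h => he (by rw [h, hP_zero])
  have a0 := ax_pos hk
  set v := hP s k e with hvdef
  have h1 : ⟪e, x⟫_ℂ = ⟪v, x⟫_ℂ := by rw [hvdef, hP_sym, hx]
  have cx : curlS k x = ((s * ax k : ℝ) : ℂ) • x := by rw [← hx]; exact curl_hP ss k x
  have cv : curlS k v = ((s * ax k : ℝ) : ℂ) • v := curl_hP ss k e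
  have dx : dt x k = 0 := by rw [← hx]; exact dt_hP s k x
  have ha : ((s * ax k : ℝ) : ℂ) ≠ 0 := by
    have : s ≠ 0 := by rintro rfl; simp at ss
    exact_mod_cast mul_ne_zero this a0.ne'
  have hK : ((s * ax k : ℝ) : ℂ) ^ 2 = (2 * Real.pi * k 0) ^ 2 + (2 * Real.pi * k 1) ^ 2 +
      (2 * Real.pi * k 2) ^ 2 := by
    have := ax_sq k
    rw [Fin.sum_univ_three] at this
    have h2 : (s * ax k) ^ 2 = (2 * Real.pi * k 0) ^ 2 + (2 * Real.pi * k 1) ^ 2 +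
      (2 * Real.pi * k 2) ^ 2 := by rw [← this]; linear_combination ax k ^ 2 * ss
    exact_mod_cast h2
  rw [dt_eq, Fin.sum_univ_three] at dx
  obtain ⟨c0, c1, c2⟩ := cross_zero ha I_mul_I hK dx
    ((curlS0 k x).symm.trans (congrArg (· 0) cx)) ((curlS1 k x).symm.trans (congrArg (· 1) cx))
    ((curlS2 k x).symm.trans (congrArg (· 2) cx)) ((curlS0 k v).symm.trans (congrArg (· 0) cv))
    ((curlS1 k v).symm.trans (congrArg (· 1) cv)) ((curlS2 k v).symm.trans (congrArg (· 2) cv))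
  have n0 : ((‖v‖ ^ 2 : ℝ) : ℂ) ≠ 0 := by
    have := norm_pos_iff.mpr he
    exact_mod_cast (by positivity : ‖v‖ ^ 2 ≠ 0)
  have n1 : ((‖v‖ ^ 2 : ℝ) : ℂ) = conj (v 0) * v 0 + conj (v 1) * v 1 + conj (v 2) * v 2 := by
    rw [← inner3, inner_self_eq_norm_sq_to_K]; simp
  have key : ((‖v‖ ^ 2 : ℝ) : ℂ) • x = ⟪v, x⟫_ℂ • v := by
    rw [n1, inner3]
    ext i
    fin_cases i
    · simp; linear_combination conj (v 1) * c2 - conj (v 2) * c1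
    · simp; linear_combination conj (v 2) * c0 - conj (v 0) * c2
    · simp; linear_combination conj (v 0) * c1 - conj (v 1) * c0
  rw [h1, uu, ← hvdef, smul_comm, ← key, smul_smul, ofReal_inv, inv_mul_cancel₀ n0, one_smul]

lemma curlS_add_left (p q : Z3) (v : C3) : curlS (p + q) v = curlS p v + curlS q v := by
  ext i
  fin_cases i <;> simp [curlS_apply, crossProduct] <;> ring

lemma curlS_curlS' (k : Z3) (v : C3) :
    curlS k (curlS k v) = ((ax k ^ 2 : ℝ) : ℂ) • v - dt v k • cxi k := by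
  rw [ax_sq, dt3]
  ext i
  fin_cases i
  · simp [curlS0, curlS1, curlS2, cxi, Fin.sum_univ_three]
    linear_combination (4 * Real.pi ^ 2 *
      (k 1 * (k 0 * v 1 - k 1 * v 0) - k 2 * (k 2 * v 0 - k 0 * v 2))) * I_mul_I
  · simp [curlS0, curlS1, curlS2, cxi, Fin.sum_univ_three]
    linear_combination (4 * Real.pi ^ 2 *
      (k 2 * (k 1 * v 2 - k 2 * v 1) - k 0 * (k 0 * v 1 - k 1 * v 0))) * I_mul_I
  · simp [curlS0, curlS1, curlS2, cxi, Fin.sum_univ_three]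
    linear_combination (4 * Real.pi ^ 2 *
      (k 0 * (k 2 * v 0 - k 0 * v 2) - k 1 * (k 1 * v 2 - k 2 * v 1))) * I_mul_I

/-- Lipschitz dependence of the helical projection on the frequency. -/
lemma hP_lip {s : ℝ} (hs : s = 1 ∨ s = -1) {k c : Z3} (hk : k ≠ 0) {e : C3} (he : hP s c e = e) :
    ‖hP s k e - e‖ ≤ 3 * ax (k - c) / (2 * ax k) * ‖e‖ := by
  have ss : s * s = 1 := by rcases hs with rfl | rfl <;> norm_num
  have sa : |s| = 1 := by rcases hs with rfl | rfl <;> norm_num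
  have a0 := ax_pos hk
  have ce : curlS c e = ((s * ax c : ℝ) : ℂ) • e := by rw [← he]; exact curl_hP ss c e
  have de : dt e c = 0 := by rw [← he]; exact dt_hP s c e
  have hkc : k = c + (k - c) := by abel
  have h1 : dt e k = dt e (k - c) := by
    conv_lhs => rw [hkc, dt_add_right, de, zero_add]
  have h2 : curlS k e = ((s * ax c : ℝ) : ℂ) • e + curlS (k - c) e := by
    conv_lhs => rw [hkc, curlS_add_left, ce]
  have h3 : hP s k e - e = (((ax c - ax k) / (2 * ax k) : ℝ) : ℂ) • e +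
      ((s / (2 * ax k) : ℝ) : ℂ) • curlS (k - c) e -
      ((((2 * ax k ^ 2)⁻¹ : ℝ) : ℂ) * dt e (k - c)) • cxi k := by
    have a1 : ((ax k : ℝ) : ℂ) ≠ 0 := by exact_mod_cast a0.ne'
    have sc : (s : ℂ) * s = 1 := by exact_mod_cast ss
    rw [hP, curlS_curlS', h1, h2]
    match_scalars
    · field_simp
      linear_combination ((ax c : ℝ) : ℂ) * sc
    · field_simp
    · field_simp
  have b1 : |ax c - ax k| ≤ ax (k - c) := by
    have t1 := ax_add_le c (k - c)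
    have t2 := ax_add_le k (-(k - c))
    rw [← hkc] at t1
    rw [ax_neg, show k + -(k - c) = c by abel] at t2
    rw [abs_le]; constructor <;> linarith only [t1, t2]
  have z0 := ax_nonneg (k - c)
  have n1 : ‖(((ax c - ax k) / (2 * ax k) : ℝ) : ℂ) • e‖ ≤ ax (k - c) / (2 * ax k) * ‖e‖ := by
    rw [norm_smul, Complex.norm_real, Real.norm_eq_abs, abs_div, abs_of_pos (by positivity : 0 < 2 * ax k)]
    gcongr
  have n2 : ‖((s / (2 * ax k) : ℝ) : ℂ) • curlS (k - c) e‖ ≤ ax (k - c) / (2 * ax k) * ‖e‖ := by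
    rw [norm_smul, Complex.norm_real, Real.norm_eq_abs, abs_div, sa,
      abs_of_pos (by positivity : 0 < 2 * ax k)]
    calc 1 / (2 * ax k) * ‖curlS (k - c) e‖ ≤ 1 / (2 * ax k) * (ax (k - c) * ‖e‖) := by
          gcongr; exact norm_curlS_le _ _
      _ = _ := by ring
  have n3 : ‖((((2 * ax k ^ 2)⁻¹ : ℝ) : ℂ) * dt e (k - c)) • cxi k‖ ≤
      ax (k - c) / (2 * ax k) * ‖e‖ := by
    rw [norm_smul, norm_mul, Complex.norm_real, Real.norm_of_nonneg (by positivity), norm_cxi]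
    calc (2 * ax k ^ 2)⁻¹ * ‖dt e (k - c)‖ * ax k
        ≤ (2 * ax k ^ 2)⁻¹ * (‖e‖ * ax (k - c)) * ax k := by gcongr; exact norm_dt_le _ _
      _ = _ := by field_simp
  rw [h3]
  refine (norm_sub_le _ _).trans ((add_le_add_left (norm_add_le _ _) _).trans ?_)
  calc _ ≤ ax (k - c) / (2 * ax k) * ‖e‖ + ax (k - c) / (2 * ax k) * ‖e‖ +
      ax (k - c) / (2 * ax k) * ‖e‖ := by gcongr
    _ = _ := by ring

lemma normalise_near {v e : C3} {η : ℝ} (ne : ‖e‖ = 1) (h : ‖v - e‖ ≤ η) (hη : η ≤ 1 / 2) :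
    ‖(((‖v‖ ^ 2)⁻¹ : ℝ) : ℂ) • v - e‖ ≤ 6 * η := by
  have h1 : |‖v‖ - 1| ≤ η := by rw [← ne]; exact (abs_norm_sub_norm_le _ _).trans h
  obtain ⟨l1, l2⟩ := abs_le.mp h1
  have v0 : 0 < ‖v‖ := by linarith
  have η0 : 0 ≤ η := (norm_nonneg _).trans h
  have e1 : (((‖v‖ ^ 2)⁻¹ : ℝ) : ℂ) • v - e = (((‖v‖ ^ 2)⁻¹ - 1 : ℝ) : ℂ) • v + (v - e) := by
    push_cast; rw [sub_smul, one_smul]; abel
  have h2 : ‖(((‖v‖ ^ 2)⁻¹ - 1 : ℝ) : ℂ) • v‖ ≤ 5 * η := by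
    rw [norm_smul, Complex.norm_real, Real.norm_eq_abs]
    have : |(‖v‖ ^ 2)⁻¹ - 1| * ‖v‖ = |‖v‖ - 1| * ((‖v‖ + 1) / ‖v‖) := by
      have : (‖v‖ ^ 2)⁻¹ - 1 = -((‖v‖ - 1) * ((‖v‖ + 1) / ‖v‖ ^ 2)) := by field_simp; ring
      rw [this, abs_neg, abs_mul, abs_of_pos (by positivity : 0 < (‖v‖ + 1) / ‖v‖ ^ 2)]
      field_simp
    rw [this]
    have h3 : (‖v‖ + 1) / ‖v‖ ≤ 5 := by rw [div_le_iff₀ v0]; linarith only [hη, l1]
    calc _ ≤ η * 5 := by gcongr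
      _ = _ := by ring
  rw [e1]
  linarith only [h, h2, norm_add_le ((((‖v‖ ^ 2)⁻¹ - 1 : ℝ) : ℂ) • v) (v - e)]

lemma ax_row {ρ : Row} (ok : ρ.ok Γ) {k : Z3} (h : k ∈ Orb Γ ρ) : 9 / 10 * Γ.lam ρ.lev ≤ ax k := by
  cases ρ with
  | b j => exact (ax_b h).1
  | c j => exact (ax_c h).1
  | y j m =>
    have := (ax_y ok.1 ok.2 h).1
    have := lam_pos (Γ := Γ) (j + 1)
    simp only [Row.lev]; linarith

theorem uu_near {ρ : Row} (ok : ρ.ok Γ) (h2 : ∀ j, ρ ≠ .y j 2) {h : Z3} (hh : h ∈ box (ρ.R Γ)) :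
    ‖hP ρ.s (pt Γ ρ 1 h) (ρ.e Γ) - ρ.e Γ‖ ≤ (Γ.T ρ.lev ^ 800)⁻¹ ∧
      ‖uu ρ.s (pt Γ ρ 1 h) (ρ.e Γ) - ρ.e Γ‖ ≤ (Γ.T ρ.lev ^ 800)⁻¹ := by
  have hO := pt_mem_Orb (Or.inl rfl) hh
  have a1 := ax_row ok hO
  have a2 := ax_offset (Γ := Γ) 1 hh
  have a3 := hP_lip (row_s ρ) (ne_zero_of_Orb ok hO) (hP_e ok h2)
  have l0 := lam_pos (Γ := Γ) ρ.lev
  have tb : (12 : ℝ) ≤ Γ.T ρ.lev := le_trans (by norm_num) (Γ.Tbig ρ.lev)
  set T := Γ.T ρ.lev
  have t0 : 0 < T := by linarith only [tb]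
  have a4 : ‖hP ρ.s (pt Γ ρ 1 h) (ρ.e Γ) - ρ.e Γ‖ ≤ 2 * (T ^ 850)⁻¹ := by
    refine a3.trans ?_
    rw [norm_e ok, mul_one, div_le_iff₀ (by linarith only [a1, l0])]
    have : 0 ≤ (T ^ 850)⁻¹ := by positivity
    nlinarith only [l0, a2, this, mul_le_mul_of_nonneg_left a1 this]
  have a5 : 12 * (T ^ 850)⁻¹ ≤ (T ^ 800)⁻¹ := by
    have t1 : 1 ≤ T := by linarith only [tb]
    have : 12 * T ^ 800 ≤ T ^ 850 := by
      calc 12 * T ^ 800 ≤ T * T ^ 800 := by gcongr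
        _ = T ^ 801 := by ring
        _ ≤ T ^ 850 := pow_le_pow_right₀ t1 (by norm_num)
    rw [← div_eq_mul_inv, ← one_div, div_le_div_iff₀ (by positivity) (by positivity)]
    linarith only [this]
  have a6 : (T ^ 800)⁻¹ ≤ 1 := inv_le_one_of_one_le₀ (one_le_pow₀ (by linarith only [tb]))
  have a7 : 0 ≤ (T ^ 850)⁻¹ := by positivity
  refine ⟨by linarith only [a4, a5, a7], ?_⟩
  have := normalise_near (norm_e ok) a4 (by linarith only [a5, a6])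
  rw [uu]; linarith only [a5, this]

lemma term_lip {w u v w' u' v' : C3} {l l' : Z3} {δ ζ L : ℝ} (hδ : δ ≤ 1)
    (nw : ‖w'‖ ≤ 1) (nu : ‖u'‖ ≤ 1) (nv : ‖v'‖ ≤ 1)
    (dw : ‖w - w'‖ ≤ δ) (du : ‖u - u'‖ ≤ δ) (dv : ‖v - v'‖ ≤ δ)
    (dl : ax (l - l') ≤ ζ) (hl : ax l' ≤ L) :
    ‖dt u l * ⟪w, v⟫_ℂ - dt u' l' * ⟪w', v'⟫_ℂ‖ ≤ 7 * δ * L + 8 * ζ := by
  have δ0 : 0 ≤ δ := (norm_nonneg _).trans dw
  have ζ0 : 0 ≤ ζ := (ax_nonneg _).trans dl
  have L0 : 0 ≤ L := (ax_nonneg _).trans hl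
  have two : ∀ {x x' : C3}, ‖x'‖ ≤ 1 → ‖x - x'‖ ≤ δ → ‖x‖ ≤ 2 := fun {x x'} h1 h2 => by
    linarith [norm_le_insert' x x']
  have h1 : ‖dt u l - dt u' l'‖ ≤ 2 * ζ + δ * L := by
    have : dt u l - dt u' l' = dt u (l - l') + dt (u - u') l' := by
      rw [dt_sub_left, sub_eq_add_neg l, dt_add_right, dt_neg_right]; ring
    rw [this]
    refine (norm_add_le _ _).trans (add_le_add ((norm_dt_le _ _).trans ?_) ((norm_dt_le _ _).trans ?_))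
    · exact mul_le_mul (two nu du) dl (ax_nonneg _) two_pos.le
    · exact mul_le_mul du hl (ax_nonneg _) δ0
  have h2 : ‖⟪w, v⟫_ℂ - ⟪w', v'⟫_ℂ‖ ≤ δ * 2 + 1 * δ := by
    have : ⟪w, v⟫_ℂ - ⟪w', v'⟫_ℂ = ⟪w - w', v⟫_ℂ + ⟪w', v - v'⟫_ℂ := by
      rw [inner_sub_left, inner_sub_right]; ring
    rw [this]
    refine (norm_add_le _ _).trans (add_le_add ((norm_inner_le_norm _ _).trans ?_)
      ((norm_inner_le_norm _ _).trans ?_))
    · exact mul_le_mul dw (two nv dv) (norm_nonneg _) δ0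
    · exact mul_le_mul nw dv (norm_nonneg _) one_pos.le
  have h3 : ‖⟪w, v⟫_ℂ‖ ≤ 2 * 2 :=
    (norm_inner_le_norm _ _).trans (mul_le_mul (two nw dw) (two nv dv) (norm_nonneg _) two_pos.le)
  have h4 : ‖dt u' l'‖ ≤ 1 * L := (norm_dt_le _ _).trans (mul_le_mul nu hl (ax_nonneg _) one_pos.le)
  have : dt u l * ⟪w, v⟫_ℂ - dt u' l' * ⟪w', v'⟫_ℂ =
      (dt u l - dt u' l') * ⟪w, v⟫_ℂ + dt u' l' * (⟪w, v⟫_ℂ - ⟪w', v'⟫_ℂ) := by ring
  rw [this]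
  refine (norm_add_le _ _).trans ?_
  rw [norm_mul, norm_mul]
  calc _ ≤ (2 * ζ + δ * L) * (2 * 2) + (1 * L) * (δ * 2 + 1 * δ) := by gcongr
    _ = _ := by ring

theorem cf_lip {w u v w' u' v' : C3} {k l k' l' : Z3} {δ ζ L : ℝ} (hδ : δ ≤ 1)
    (nw : ‖w'‖ ≤ 1) (nu : ‖u'‖ ≤ 1) (nv : ‖v'‖ ≤ 1)
    (dw : ‖w - w'‖ ≤ δ) (du : ‖u - u'‖ ≤ δ) (dv : ‖v - v'‖ ≤ δ)
    (dk : ax (k - k') ≤ ζ) (dl : ax (l - l') ≤ ζ) (hk : ax k' ≤ L) (hl : ax l' ≤ L) :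
    ‖cf w k u l v - cf w' k' u' l' v'‖ ≤ 14 * δ * L + 16 * ζ := by
  have h1 := term_lip hδ nw nu nv dw du dv dl hl
  have h2 := term_lip hδ nw nv nu dw dv du dk hk
  have : cf w k u l v - cf w' k' u' l' v' = -I * ((dt u l * ⟪w, v⟫_ℂ - dt u' l' * ⟪w', v'⟫_ℂ) +
      (dt v k * ⟪w, u⟫_ℂ - dt v' k' * ⟪w', u'⟫_ℂ)) := by unfold cf; ring
  rw [this, norm_mul, norm_neg, norm_I, one_mul]
  linarith only [h1, h2, norm_add_le (dt u l * ⟪w, v⟫_ℂ - dt u' l' * ⟪w', v'⟫_ℂ)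
    (dt v k * ⟪w, u⟫_ℂ - dt v' k' * ⟪w', u'⟫_ℂ)]

/-- The symmetrised term of the convolution, tested against `w`. -/
lemma inner_sym_term (w u v : C3) (x y : ℂ) (k l : Z3) :
    -⟪w, (I * dt (x • u) l) • (y • v) + (I * dt (y • v) k) • (x • u)⟫_ℂ = cf w k u l v * (x * y) := by
  simp only [inner_add_right, inner_smul_right, dt_smul_left, cf]; ring

lemma norm_cf_le {w u v : C3} (nw : ‖w‖ = 1) (nu : ‖u‖ = 1) (nv : ‖v‖ = 1) (k l : Z3) :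
    ‖cf w k u l v‖ ≤ ax l + ax k := by
  rw [cf, norm_neg, norm_mul, norm_I, one_mul]
  refine (norm_add_le _ _).trans (add_le_add ?_ ?_)
  · rw [norm_mul]
    calc _ ≤ (‖u‖ * ax l) * (‖w‖ * ‖v‖) :=
          mul_le_mul (norm_dt_le _ _) (norm_inner_le_norm _ _) (norm_nonneg _)
            (mul_nonneg (norm_nonneg _) (ax_nonneg _))
      _ = _ := by rw [nw, nu, nv]; ring
  · rw [norm_mul]
    calc _ ≤ (‖v‖ * ax k) * (‖w‖ * ‖u‖) :=
          mul_le_mul (norm_dt_le _ _) (norm_inner_le_norm _ _) (norm_nonneg _)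
            (mul_nonneg (norm_nonneg _) (ax_nonneg _))
      _ = _ := by rw [nw, nu, nv]; ring

end

end Pool.Agent.Work.MP_6bf1e5_an.Dec.Cf
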