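import Pool.Agent.Work.MP_6bf1e5_an.Dec.CoefA

/-!
Helical algebra: proofs, second half (values of the interaction coefficients).
-/

open Set Complex
open scoped InnerProductSpace ComplexConjugate
open Pool.Agent.Work.MP_6bf1e5_an.B

namespace Pool.Agent.Work.MP_6bf1e5_an.Dec.Cf

noncomputable section

variable {Γ : Geo}

lemma cf_smul (a b c : ℂ) (w u v : C3) (k l : Z3) :
    cf (a • w) k (b • u) l (c • v) = conj a * b * c * cf w k u l v := by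
  simp only [cf, inner_smul_left, inner_smul_right, dt_smul_left]; ring

/-- The planar interaction coefficient. -/
def br (s s' s'' r0 r1 k0 k1 l0 l1 : ℝ) : ℝ :=
  Real.pi * (k0 * l1 - k1 * l0) / √2 *
    (((r0 * l0 + r1 * l1) / (√(r0 ^ 2 + r1 ^ 2) * √(l0 ^ 2 + l1 ^ 2)) + s * s'') / √(k0 ^ 2 + k1 ^ 2) -
      ((r0 * k0 + r1 * k1) / (√(r0 ^ 2 + r1 ^ 2) * √(k0 ^ 2 + k1 ^ 2)) + s * s') / √(l0 ^ 2 + l1 ^ 2))

lemma cf_hv (s s' s'' : ℝ) (r : Z3) {k l : Z3} (hk : k 2 = 0) (hl : l 2 = 0) :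
    cf (hv s r) k (hv s' k) l (hv s'' l) =
      -I * (br s s' s'' (r 0) (r 1) (k 0) (k 1) (l 0) (l 1) : ℝ) := by
  rw [cf, dt_hv _ _ hl, dt_hv _ _ hk, inner_hv, inner_hv, ← ofReal_mul, ← ofReal_mul, ← ofReal_add,
    neg_mul]
  congr 3
  simp only [br, nn]; ring

lemma cf_hv' (a b c : ℂ) (s s' s'' : ℝ) (r : Z3) {k l : Z3} (hk : k 2 = 0) (hl : l 2 = 0) :
    cf (a • hv s r) k (b • hv s' k) l (c • hv s'' l) =
      (conj a * b * c * -I) * (br s s' s'' (r 0) (r 1) (k 0) (k 1) (l 0) (l 1) : ℝ) := by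
  rw [cf_smul, cf_hv _ _ _ _ hk hl]; ring

lemma cos_le {r0 r1 k0 k1 : ℝ} :
    (r0 * k0 + r1 * k1) / (√(r0 ^ 2 + r1 ^ 2) * √(k0 ^ 2 + k1 ^ 2)) ≤ 1 := by
  refine div_le_one_of_le₀ ?_ (by positivity)
  rw [← Real.sqrt_mul (by positivity)]
  exact Real.le_sqrt_of_sq_le (by linarith [sq_nonneg (r0 * k1 - r1 * k0)])

lemma sqrt2_bounds : 1414 / 1000 ≤ √2 ∧ √2 ≤ 1415 / 1000 :=
  ⟨Real.le_sqrt_of_sq_le (by norm_num), Real.sqrt_le_iff.mpr (by norm_num)⟩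

lemma hyp_bounds {p q : ℝ} (hq : 0 < q) (hp : 1000 * q ≤ p) :
    p ≤ √(p ^ 2 + q ^ 2) ∧ √(p ^ 2 + q ^ 2) ≤ p + q / 1000 :=
  ⟨Real.le_sqrt_of_sq_le (by nlinarith), Real.sqrt_le_iff.mpr ⟨by linarith, by nlinarith only [hq, hp]⟩⟩

lemma fin_bounds {q x : ℝ} (hq : 0 < q) (h1 : 99 / 100 * q ≤ x) (h2 : x ≤ 101 / 100 * q) :
    3 / 10 * (2 * Real.pi * q) ≤ Real.pi / √2 * x ∧ Real.pi / √2 * x ≤ 4 / 10 * (2 * Real.pi * q) := by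
  obtain ⟨s1, s2⟩ := sqrt2_bounds
  have p0 := Real.pi_pos
  have s0 : 0 < √2 := by positivity
  rw [div_mul_eq_mul_div Real.pi, le_div_iff₀ s0, div_le_iff₀ s0]
  constructor
  · have : 3 / 10 * (2 * q) * √2 ≤ x := by nlinarith only [hq, h1, s2]
    linarith only [mul_le_mul_of_nonneg_left this p0.le]
  · have : x ≤ 4 / 10 * (2 * q) * √2 := by nlinarith only [hq, h2, s1]
    linarith only [mul_le_mul_of_nonneg_left this p0.le]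

lemma br_C {p q : ℝ} (hq : 0 < q) (hp : 0 < p) : br (-1) 1 (-1) p q p 0 0 q =
    Real.pi / √2 * (q + p + (q ^ 2 - p ^ 2) / √(p ^ 2 + q ^ 2)) := by
  have d0 : 0 < √(p ^ 2 + q ^ 2) := by positivity
  simp only [br, ne_eq, OfNat.ofNat_ne_zero, not_false_eq_true, zero_pow, add_zero, zero_add,
    Real.sqrt_sq hp.le, Real.sqrt_sq hq.le]
  field_simp
  ring

lemma br_Bm {p q : ℝ} (hq : 0 < q) (hp : 0 < p) : -br 1 (-1) (-1) p 0 p (-q) 0 q =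
    Real.pi / √2 * (p * ((q + p) / √(p ^ 2 + q ^ 2) - 1)) := by
  have d0 : 0 < √(p ^ 2 + q ^ 2) := by positivity
  simp only [br, ne_eq, OfNat.ofNat_ne_zero, not_false_eq_true, zero_pow, add_zero, zero_add,
    Real.sqrt_sq hp.le, Real.sqrt_sq hq.le, neg_sq]
  field_simp
  ring

lemma br_Bp {p q : ℝ} (hq : 0 < q) (hp : 0 < p) : br 1 (-1) (-1) p 0 p q 0 (-q) =
    Real.pi / √2 * (p * ((q + p) / √(p ^ 2 + q ^ 2) - 1)) := by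
  have d0 : 0 < √(p ^ 2 + q ^ 2) := by positivity
  simp only [br, ne_eq, OfNat.ofNat_ne_zero, not_false_eq_true, zero_pow, add_zero, zero_add,
    Real.sqrt_sq hp.le, Real.sqrt_sq hq.le, neg_sq]
  field_simp
  ring

lemma q_pos (j : ℕ) : (0 : ℝ) < Γ.P j := by exact_mod_cast P_pos' j

lemma P_ratio (j : ℕ) : 1000 * (Γ.P j : ℝ) ≤ Γ.P (j + 1) := by
  have h1 : (Γ.P (j + 1) : ℝ) = Γ.T j ^ 8 * Γ.P j := by rw [Γ.Psucc, Γ.T8]; push_cast; ring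
  have h2 : (1000 : ℝ) ≤ Γ.T j := le_trans (by norm_num) (Γ.Tbig j)
  have h3 : Γ.T j ≤ Γ.T j ^ 8 := le_self_pow₀ (by linarith) (by norm_num)
  rw [h1]
  exact mul_le_mul_of_nonneg_right (h2.trans h3) (q_pos j).le

lemma e_b (j : ℕ) : (Row.b j).e Γ = (1 : ℂ) • hv 1 (pt Γ (.b j) 1 0) := (one_smul _ _).symm

lemma e_c (j : ℕ) : (Row.c j).e Γ = I • hv (-1) (pt Γ (.c j) 1 0) := rfl

lemma Sg_e_b (j : ℕ) :
    Sg ((Row.b j).e Γ) = (-1 : ℂ) • hv (-1) (swE (pt Γ (.b j) 1 0)) := by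
  rw [Row.e, Sg_hv]; simp

lemma cj_Sg_e_b (j : ℕ) :
    cj (Sg ((Row.b j).e Γ)) = (1 : ℂ) • hv (-1) (-swE (pt Γ (.b j) 1 0)) := by
  rw [Sg_e_b, cj_smul, cj_hv]; simp

lemma rx_pt (ρ : Row) : rxE (pt Γ ρ 1 0) = pt Γ ρ (-1) 0 := by
  ext i; fin_cases i <;> simp [rxE_apply, pt]

lemma e'_c (j : ℕ) : (Row.c j).e' Γ = I • hv (-1) (pt Γ (.c j) (-1) 0) := by
  have := P_odd (Γ := Γ) (j + 1)
  rw [Row.e', sgn_odd (by simp only [Row.X]; omega), e_c, Rx_smul, Rx_hv, rx_pt]; simp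

lemma sw2 (ρ : Row) : swE (pt Γ ρ 1 0) 2 = 0 := by simp [swE_apply, pt]

lemma cf_C' (j : ℕ) : cf ((Row.c j).e Γ) (pt Γ (.b (j + 1)) 1 0) ((Row.b (j + 1)).e Γ)
    (swE (pt Γ (.b j) 1 0)) (Sg ((Row.b j).e Γ)) =
      ((Real.pi / √2 * (Γ.P j + Γ.P (j + 1) + ((Γ.P j : ℝ) ^ 2 - (Γ.P (j + 1) : ℝ) ^ 2) /
        √((Γ.P (j + 1) : ℝ) ^ 2 + (Γ.P j : ℝ) ^ 2)) : ℝ) : ℂ) := by
  rw [Sg_e_b, e_c, e_b, cf_hv' _ _ _ _ _ _ _ (pt2 _ _) (sw2 _), ← br_C (q_pos j) (q_pos (j + 1))]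
  simp [pt, swE_apply, Row.X, Row.W]

lemma cf_Bm' (j : ℕ) : cf ((Row.b (j + 1)).e Γ) (pt Γ (.c j) (-1) 0) ((Row.c j).e' Γ)
    (swE (pt Γ (.b j) 1 0)) (Sg ((Row.b j).e Γ)) =
      ((Real.pi / √2 * (Γ.P (j + 1) * ((Γ.P j + Γ.P (j + 1)) /
        √((Γ.P (j + 1) : ℝ) ^ 2 + (Γ.P j : ℝ) ^ 2) - 1)) : ℝ) : ℂ) := by
  rw [Sg_e_b, e'_c, e_b, cf_hv' _ _ _ _ _ _ _ (pt2 _ _) (sw2 _), ← br_Bm (q_pos j) (q_pos (j + 1))]
  simp [pt, swE_apply, Row.X, Row.W]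

lemma cf_Bp' (j : ℕ) : cf ((Row.b (j + 1)).e Γ) (pt Γ (.c j) 1 0) ((Row.c j).e Γ)
    (-swE (pt Γ (.b j) 1 0)) (cj (Sg ((Row.b j).e Γ))) =
      ((Real.pi / √2 * (Γ.P (j + 1) * ((Γ.P j + Γ.P (j + 1)) /
        √((Γ.P (j + 1) : ℝ) ^ 2 + (Γ.P j : ℝ) ^ 2) - 1)) : ℝ) : ℂ) := by
  rw [cj_Sg_e_b, e_c, e_b, cf_hv' _ _ _ _ _ _ _ (pt2 _ _) (by simp [sw2]),
    ← br_Bp (q_pos j) (q_pos (j + 1))]
  simp [pt, swE_apply, Row.X, Row.W]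

theorem cB_bounds (j : ℕ) : 3 / 10 * Γ.lam j ≤ cB Γ j ∧ cB Γ j ≤ 4 / 10 * Γ.lam j := by
  rw [cB, cf_Bm', ofReal_re, Geo.lam]
  have hq := q_pos (Γ := Γ) j
  have hp := P_ratio (Γ := Γ) j
  obtain ⟨d1, d2⟩ := hyp_bounds hq hp
  set p : ℝ := (Γ.P (j + 1) : ℝ)
  set q : ℝ := (Γ.P j : ℝ)
  set D := √(p ^ 2 + q ^ 2)
  have D0 : 0 < D := by linarith only [hq, hp, d1]
  have e : p * ((q + p) / D - 1) = p * (q + p - D) / D := by field_simp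
  refine fin_bounds hq ?_ ?_
  · rw [e, le_div_iff₀ D0]; nlinarith only [hq, hp, d2]
  · rw [e, div_le_iff₀ D0]; nlinarith only [hq, hp, d1]

theorem cC_bounds (j : ℕ) : 3 / 10 * Γ.lam j ≤ cC Γ j ∧ cC Γ j ≤ 4 / 10 * Γ.lam j := by
  rw [cC, cf_C', ofReal_re, Geo.lam]
  have hq := q_pos (Γ := Γ) j
  have hp := P_ratio (Γ := Γ) j
  obtain ⟨d1, d2⟩ := hyp_bounds hq hp
  set p : ℝ := (Γ.P (j + 1) : ℝ)
  set q : ℝ := (Γ.P j : ℝ)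
  set D := √(p ^ 2 + q ^ 2)
  have D0 : 0 < D := by linarith only [hq, hp, d1]
  have e : q + p + (q ^ 2 - p ^ 2) / D = q + (p * (D - p) + q ^ 2) / D := by field_simp; ring
  have h1 : 0 ≤ (p * (D - p) + q ^ 2) / D := by
    have : 0 ≤ p * (D - p) := mul_nonneg (by linarith only [hq, hp]) (by linarith only [d1])
    positivity
  have h2 : (p * (D - p) + q ^ 2) / D ≤ q / 100 := by rw [div_le_iff₀ D0]; nlinarith only [hq, hp, d2]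
  refine fin_bounds hq ?_ ?_ <;> rw [e] <;> linarith only [hq, h1, h2]

lemma rho_bounds (j : ℕ) : 4 / 5 ≤ rho Γ j ∧ rho Γ j ≤ 6 / 5 := by
  obtain ⟨b1, b2⟩ := cB_bounds (Γ := Γ) j
  obtain ⟨c1, c2⟩ := cC_bounds (Γ := Γ) j
  have l0 := lam_pos (Γ := Γ) j
  have c0 : 0 < cC Γ j := by linarith only [c1, l0]
  refine ⟨Real.le_sqrt_of_sq_le ?_, Real.sqrt_le_iff.mpr ⟨by norm_num, ?_⟩⟩
  · rw [le_div_iff₀ c0]; linarith only [b1, c2, c0]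
  · rw [div_le_iff₀ c0]; linarith only [b2, c1, c0]

theorem cf_C (j : ℕ) : cf ((Row.c j).e Γ) (pt Γ (.b (j + 1)) 1 0) ((Row.b (j + 1)).e Γ)
    (swE (pt Γ (.b j) 1 0)) (Sg ((Row.b j).e Γ)) = cC Γ j := by
  rw [cC, cf_C', ofReal_re]

theorem cf_Bm (j : ℕ) : cf ((Row.b (j + 1)).e Γ) (pt Γ (.c j) (-1) 0) ((Row.c j).e' Γ)
    (swE (pt Γ (.b j) 1 0)) (Sg ((Row.b j).e Γ)) = cB Γ j := by
  rw [cB, cf_Bm', ofReal_re]

theorem cf_Bp (j : ℕ) : cf ((Row.b (j + 1)).e Γ) (pt Γ (.c j) 1 0) ((Row.c j).e Γ)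
    (-swE (pt Γ (.b j) 1 0)) (cj (Sg ((Row.b j).e Γ))) = cB Γ j := by
  rw [cB, cf_Bm', cf_Bp', ofReal_re]

/-- The phase of the reference vectors of the chain. -/
def gg (m : ℕ) : ℂ := (-1 : ℂ) ^ m * if m % 3 = 2 then I else 1

lemma gg_eq (m : ℕ) : gg m = (-1 : ℂ) ^ (m % 2) * if m % 3 = 2 then I else 1 := by
  rw [gg, neg_one_pow_eq_pow_mod_two]

lemma e_y {j m : ℕ} (hm : m ≠ 2) :
    (Row.y j m).e Γ = gg m • hv (Row.y j m).s (pt Γ (.y j m) 1 0) := by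
  rw [Row.e, if_neg hm, gg]

lemma e'_y {j m : ℕ} (hm : m ≠ 2) : (Row.y j m).e' Γ =
    (-(sgn ((Row.y j m).X Γ)) * gg m) • hv (Row.y j m).s (pt Γ (.y j m) (-1) 0) := by
  rw [Row.e', e_y hm, Rx_smul, Rx_hv, rx_pt]; simp [smul_smul]

lemma e_yr (j m : ℕ) : (yr Γ j m).e Γ = (Row.y j m).e Γ := by
  rw [yr]
  split_ifs with h
  · have h1 := Γ.nmod (j + 1)
    have h2 := Γ.n8 (j + 1)
    have h3 : pt Γ (.c (j + 1)) 1 0 = pt Γ (.y j m) 1 0 := by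
      have : m % 6 = 2 := by omega
      ext i
      fin_cases i
      · simp [pt, Row.X, h, Γ.Psucc (j + 1)]
      · simp [pt, Row.W, wv, this]
      · simp [pt]
    rw [e_y (by omega), e_c, h3, gg_eq, show m % 2 = 0 by omega, if_pos (by omega), Row.s,
      if_neg (by omega)]
    simp
  · rfl

lemma sgn_X (j m : ℕ) : sgn ((Row.y j m).X Γ) = if (m - 1) % 3 = 0 then 1 else -1 := by
  have := X_mod (Γ := Γ) j m
  split_ifs at this ⊢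
  · exact sgn_even this
  · exact sgn_odd this

lemma phase_eq {j m : ℕ} (h : 5 ≤ m) :
    conj (gg m) * gg (m - 1) * (-(sgn ((Row.y j (m - 2)).X Γ)) * gg (m - 2)) * -I =
      (((if m % 6 < 3 then 1 else -1 : ℝ)) : ℂ) := by
  rw [gg_eq, gg_eq, gg_eq, sgn_X, show m % 2 = m % 6 % 2 by omega, show m % 3 = m % 6 % 3 by omega,
    show (m - 1) % 2 = (m % 6 + 1) % 2 by omega, show (m - 1) % 3 = (m % 6 + 2) % 3 by omega,
    show (m - 2) % 2 = m % 6 % 2 by omega, show (m - 2) % 3 = (m % 6 + 1) % 3 by omega,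
    show (m - 2 - 1) % 3 = m % 6 % 3 by omega]
  have : m % 6 < 6 := Nat.mod_lt _ (by norm_num)
  generalize m % 6 = r at this ⊢
  interval_cases r <;> simp

lemma br_lower {s s' s'' r0 r1 k0 k1 l0 l1 ε Y K : ℝ} (h1 : s * s'' = 1) (h2 : s * s' = -1)
    (hr : 0 ≤ r0 * l0 + r1 * l1) (hk : 0 < k0) (hY : 0 ≤ Y) (hX : Y ≤ ε * (k0 * l1 - k1 * l0))
    (hK : √(k0 ^ 2 + k1 ^ 2) ≤ K) :
    Real.pi * Y / √2 / K ≤ ε * br s s' s'' r0 r1 k0 k1 l0 l1 := by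
  have k1' : 0 < √(k0 ^ 2 + k1 ^ 2) := by positivity
  have c1 := @cos_le r0 r1 k0 k1
  have c2 : 0 ≤ (r0 * l0 + r1 * l1) / (√(r0 ^ 2 + r1 ^ 2) * √(l0 ^ 2 + l1 ^ 2)) := by positivity
  rw [br, h1, h2]
  set A := (r0 * l0 + r1 * l1) / (√(r0 ^ 2 + r1 ^ 2) * √(l0 ^ 2 + l1 ^ 2))
  set C := (r0 * k0 + r1 * k1) / (√(r0 ^ 2 + r1 ^ 2) * √(k0 ^ 2 + k1 ^ 2))
  have c3 : (C + -1) / √(l0 ^ 2 + l1 ^ 2) ≤ 0 :=
    div_nonpos_of_nonpos_of_nonneg (by linarith) (by positivity)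
  have c4 : 1 / K ≤ (A + 1) / √(k0 ^ 2 + k1 ^ 2) := by gcongr; linarith only [c2]
  have K0 : 0 < K := k1'.trans_le hK
  have p0 := Real.pi_pos
  calc Real.pi * Y / √2 / K = Real.pi * Y / √2 * (1 / K) := by ring
    _ ≤ Real.pi * (ε * (k0 * l1 - k1 * l0)) / √2 *
        ((A + 1) / √(k0 ^ 2 + k1 ^ 2) - (C + -1) / √(l0 ^ 2 + l1 ^ 2)) := by
      have := hY.trans hX
      gcongr
      linarith only [c3, c4]
    _ = _ := by ring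

lemma abs_wv (j m : ℕ) : |(wv Γ j m : ℝ)| ≤ Γ.P (j + 1) := by
  have hq := q_pos (Γ := Γ) j
  have hp := P_ratio (Γ := Γ) j
  rw [abs_le, wv]
  split_ifs <;> push_cast <;> constructor <;> linarith only [hp]

lemma cross_lower {j m : ℕ} (h : 5 ≤ m) {a b : ℝ} (b1 : 1 ≤ b) (ab : b ≤ a) :
    Γ.P (j + 1) * a * Γ.P j ≤ (if m % 6 < 3 then 1 else -1 : ℝ) *
      (a * Γ.P (j + 1) * -(wv Γ j (m - 2) : ℝ) - (wv Γ j (m - 1) : ℝ) * (b * Γ.P (j + 1))) := by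
  have hq := q_pos (Γ := Γ) j
  have hp := P_ratio (Γ := Γ) j
  rw [wv, wv, show (m - 1) % 6 = (m % 6 + 5) % 6 by omega,
    show (m - 2) % 6 = (m % 6 + 4) % 6 by omega]
  have : m % 6 < 6 := Nat.mod_lt _ (by norm_num)
  generalize m % 6 = r at this ⊢
  set p : ℝ := (Γ.P (j + 1) : ℝ) with hpd
  set q : ℝ := (Γ.P j : ℝ) with hqd
  have p0 : 0 < p := by linarith only [hq, hp]
  have u1 : 0 ≤ p * (a * (p - 2 * q) - b * q) := mul_nonneg p0.le (by nlinarith only [b1, ab, hq, hp])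
  have u2 : 0 ≤ p * (b * p) := by positivity
  have u3 : 0 ≤ p * (a * (p - q) + b * (p - q)) := mul_nonneg p0.le (by nlinarith only [b1, ab, hq, hp])
  interval_cases r <;> norm_num [← hpd, ← hqd] <;> linarith only [u2, u3, u1]

lemma luc_le {k : ℕ} (h : 1 ≤ k) : luc k ≤ luc (k + 1) := by
  obtain ⟨t, rfl⟩ : ∃ t, k = t + 1 := ⟨k - 1, by omega⟩
  simp only [luc]; omega

lemma pi_bound {q : ℝ} (hq : 0 < q) : 2 * Real.pi * q / 10 ≤ Real.pi * q / √2 / 2 := by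
  obtain ⟨_, s2⟩ := sqrt2_bounds
  have := mul_pos Real.pi_pos hq
  rw [le_div_iff₀ two_pos, le_div_iff₀ (by positivity)]
  nlinarith only [s2, this]

lemma cY_gen {j m : ℕ} (h : 5 ≤ m) : ∃ x : ℝ, cY0 Γ j m = x ∧ Γ.lam j / 10 ≤ x := by
  have hq := q_pos (Γ := Γ) j
  have hp := q_pos (Γ := Γ) (j + 1)
  rw [cY0, if_neg (by omega), if_neg (by omega), e_yr, e_y (by omega), e_y (by omega),
    e'_y (by omega), cf_hv' _ _ _ _ _ _ _ (pt2 _ _) (pt2 _ _), phase_eq h, ← ofReal_mul]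
  refine ⟨_, rfl, ?_⟩
  have b1 : (1 : ℝ) ≤ luc (m - 2 - 1) := by exact_mod_cast luc_pos' _
  have c1 : (1 : ℝ) ≤ luc (m - 1) := by exact_mod_cast luc_pos' _
  have ab : (luc (m - 2 - 1) : ℝ) ≤ luc (m - 1 - 1) := by
    rw [show m - 1 - 1 = m - 2 - 1 + 1 by omega]; exact_mod_cast luc_le (by omega)
  have w0 := abs_wv (Γ := Γ) j m
  have w1 := abs_wv (Γ := Γ) j (m - 1)
  have w2 := abs_wv (Γ := Γ) j (m - 2)
  have hx := cross_lower (Γ := Γ) (j := j) h b1 ab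
  simp only [pt0, pt1, Row.X, Row.W]
  push_cast
  simp only [one_mul, neg_mul]
  set p : ℝ := (Γ.P (j + 1) : ℝ)
  set q : ℝ := (Γ.P j : ℝ)
  set a : ℝ := (luc (m - 1 - 1) : ℝ)
  set b : ℝ := (luc (m - 2 - 1) : ℝ)
  set c : ℝ := (luc (m - 1) : ℝ)
  have a1 : 1 ≤ a := b1.trans ab
  refine le_trans ?_ (br_lower (Y := p * a * q) (K := 2 * (a * p)) ?_ ?_ ?_ (by positivity)
    (by positivity) hx ?_)
  · rw [Geo.lam]
    refine (pi_bound hq).trans (le_of_eq ?_)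
    field_simp
  · simp only [Row.s]; split_ifs <;> first | omega | norm_num
  · simp only [Row.s]; split_ifs <;> first | omega | norm_num
  · have t1 : |(wv Γ j m : ℝ) * (wv Γ j (m - 2) : ℝ)| ≤ p * p := by
      rw [abs_mul]; exact mul_le_mul w0 w2 (abs_nonneg _) hp.le
    have t2 : 1 * (p * p) ≤ (c * b) * (p * p) := by gcongr; nlinarith only [b1, c1]
    linarith only [t2, (abs_le.mp t1).2]
  · refine Real.sqrt_le_iff.mpr ⟨by positivity, ?_⟩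
    have t1 : (wv Γ j (m - 1) : ℝ) ^ 2 ≤ p ^ 2 := sq_le_sq' (abs_le.mp w1).1 (abs_le.mp w1).2
    have t2 : p ^ 2 ≤ (a * p) ^ 2 := by gcongr; nlinarith only [hp, b1, ab]
    nlinarith only [t1, t2]

lemma br_swap (s s' s'' r0 r1 k0 k1 l0 l1 : ℝ) :
    br s s' s'' r0 r1 k0 k1 l0 l1 = br s s'' s' r0 r1 l0 l1 k0 k1 := by
  simp only [br]; ring

lemma cY_one (j : ℕ) : ∃ x : ℝ, cY0 Γ j 1 = x ∧ Γ.lam j / 10 ≤ x := by
  have hq := q_pos (Γ := Γ) j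
  have hp := q_pos (Γ := Γ) (j + 1)
  have hr := P_ratio (Γ := Γ) j
  have ph : conj (gg 1) * 1 * I * -I = ((-1 : ℝ) : ℂ) := by simp [gg]
  rw [cY0, if_pos rfl, e_y (by omega), e_b, e_c, cf_hv' _ _ _ _ _ _ _ (pt2 _ _) (pt2 _ _), ph,
    ← ofReal_mul, br_swap]
  refine ⟨_, rfl, ?_⟩
  obtain ⟨d1, d2⟩ := hyp_bounds hq hr
  refine le_trans ?_ (br_lower (Y := Γ.P (j + 1) * Γ.P j) (K := 2 * Γ.P (j + 1)) ?_ ?_ ?_ ?_
    (by positivity) ?_ ?_)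
  · rw [Geo.lam]
    refine (pi_bound hq).trans (le_of_eq ?_)
    field_simp
  · simp [Row.s]
  · simp [Row.s]
  · simp only [pt0, pt1, Row.X, Row.W]
    push_cast
    simp only [mul_zero, add_zero]
    positivity
  · simpa [pt0, Row.X] using P_pos' (j + 1)
  · simp [pt0, pt1, Row.X, Row.W, mul_comm]
  · simp only [pt0, pt1, Row.X, Row.W]
    push_cast
    simp only [one_mul]
    linarith

lemma dt_ez {l : Z3} (hl : l 2 = 0) : dt ez l = 0 := by simp [dt3, ez, hl]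

lemma inner_hv_ez (s : ℝ) (r : Z3) : ⟪hv s r, ez⟫_ℂ = -I * ((s / √2 : ℝ) : ℂ) := by
  rw [inner3, hv2, map_mul, conj_ofReal, conj_I]; simp [ez]

lemma inner_ez_hv (s : ℝ) (r : Z3) : ⟪ez, hv s r⟫_ℂ = I * ((s / √2 : ℝ) : ℂ) := by
  rw [inner3, hv2]; simp [ez]

lemma nn_eq {k : Z3} {x : ℝ} (hx : 0 ≤ x) (h : (k 0 : ℝ) ^ 2 + (k 1 : ℝ) ^ 2 = x ^ 2) : nn k = x := by
  rw [nn, h, Real.sqrt_sq hx]

lemma nn_le {k : Z3} {x : ℝ} (hx : 0 ≤ x) (h : (k 0 : ℝ) ^ 2 + (k 1 : ℝ) ^ 2 ≤ x ^ 2) : nn k ≤ x :=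
  Real.sqrt_le_iff.mpr ⟨hx, h⟩

lemma lam_le (j : ℕ) : Γ.lam j ≤ Γ.lam (j + 1) := by
  have hq := q_pos (Γ := Γ) j
  have hr := P_ratio (Γ := Γ) j
  have := Real.pi_pos
  unfold Geo.lam
  gcongr
  have : (Γ.P j : ℝ) ≤ Γ.P (j + 1) := by linarith
  exact_mod_cast this

lemma cY_two (j : ℕ) : ∃ x : ℝ, cY0 Γ j 2 = x ∧ Γ.lam j / 10 ≤ x := by
  have hp := q_pos (Γ := Γ) (j + 1)
  have s2 : √2 * √2 = (2 : ℝ) := Real.mul_self_sqrt (by norm_num)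
  have n1 : nn (pt Γ (.b (j + 1)) 1 0) = Γ.P (j + 1) := nn_eq hp.le (by simp [pt, Row.X, Row.W])
  have n2 : nn (swE (pt Γ (.b (j + 1)) 1 0)) = Γ.P (j + 1) :=
    nn_eq hp.le (by simp [pt, swE_apply, Row.X, Row.W])
  refine ⟨Γ.lam (j + 1), ?_, by linarith [lam_le (Γ := Γ) j, lam_pos (Γ := Γ) j]⟩
  rw [cY0, if_neg (by omega), if_pos rfl, Sg_e_b, e_b, ← one_smul ℂ ez, cf_smul, cf, dt_hv _ _ (sw2 _),
    dt_hv _ _ (pt2 _ _), inner_ez_hv, inner_ez_hv, n1, n2]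
  have e : Γ.lam (j + 1) = -(2 * Real.pi * ((Γ.P (j + 1) : ℝ) * Γ.P (j + 1) / Γ.P (j + 1) / √2) *
      (-1 / √2) + 2 * Real.pi * (-((Γ.P (j + 1) : ℝ) * Γ.P (j + 1)) / Γ.P (j + 1) / √2) * (1 / √2)) := by
    have : (0 : ℝ) < √2 := by positivity
    rw [Geo.lam]
    field_simp
    linarith
  rw [e]
  simp only [swE_apply, pt0, pt1, Row.X, Row.W, Matrix.cons_val_zero, Matrix.cons_val_one]
  push_cast
  simp only [map_one]
  linear_combination (2 * Real.pi * ((Γ.P (j + 1) : ℂ) * Γ.P (j + 1) / Γ.P (j + 1) / (√2 : ℝ)) *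
      (-1 / (√2 : ℝ)) + 2 * Real.pi * (-((Γ.P (j + 1) : ℂ) * Γ.P (j + 1)) / Γ.P (j + 1) / (√2 : ℝ)) *
        (1 / (√2 : ℝ))) * I_mul_I

lemma half_bound {p q y N : ℝ} (hq : 0 < q) (hp : q ≤ p) (N0 : 0 < N) (hN : N ≤ y) :
    2 * Real.pi * q / 10 ≤ 2 * Real.pi * (p * y / N / √2) * (1 / √2) := by
  have s2 : √2 * √2 = (2 : ℝ) := Real.mul_self_sqrt (by norm_num)
  have : 2 * Real.pi * (p * y / N / √2) * (1 / √2) = Real.pi * (p * (y / N)) := by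
    have : (0 : ℝ) < √2 := by positivity
    field_simp
    linear_combination -(p * y) * s2
  rw [this]
  have h1 : 1 ≤ y / N := (one_le_div N0).mpr hN
  have h2 : q ≤ p * (y / N) := by nlinarith only [hq, hp, h1]
  linarith only [mul_le_mul_of_nonneg_left h2 Real.pi_pos.le, mul_pos Real.pi_pos hq]

lemma cY_three (j : ℕ) : ∃ x : ℝ, cY0 Γ j 3 = x ∧ Γ.lam j / 10 ≤ x := by
  have hq := q_pos (Γ := Γ) j
  have hp := q_pos (Γ := Γ) (j + 1)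
  have hr := P_ratio (Γ := Γ) j
  have N0 : 0 < nn (pt Γ (.y j 1) (-1) 0) := nn_pos (pt0_ne _ _)
  have hN : nn (pt Γ (.y j 1) (-1) 0) ≤ 2 * Γ.P (j + 1) + Γ.P j := nn_le (by positivity) (by
    simp [pt0, pt1, Row.X, Row.W, wv, luc]; linarith [mul_pos hp hq])
  refine ⟨_, ?_, half_bound hq (p := Γ.P (j + 1)) (by linarith) N0 hN⟩
  have e2 : (Row.y j (3 - 1)).e Γ = (1 : ℂ) • ez := by simp [Row.e]
  rw [cY0, if_neg (by omega), if_neg (by omega), e_yr, e_y (by omega), e2, e'_y (by omega), cf_smul,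
    cf, dt_ez (pt2 _ _), dt_hv _ _ (pt2 _ _), inner_hv_ez, sgn_X]
  simp only [pt0, pt1, Row.X, Row.W, Row.s, wv, gg]
  norm_num [luc]
  linear_combination (-(2 * Real.pi * (Γ.P (j + 1) * (2 * Γ.P (j + 1) + Γ.P j) /
    (nn (pt Γ (.y j 1) (-1) 0) : ℝ) / (√2 : ℝ)) * ((√2 : ℝ) : ℂ)⁻¹)) * I_mul_I

lemma cY_four (j : ℕ) : ∃ x : ℝ, cY0 Γ j 4 = x ∧ Γ.lam j / 10 ≤ x := by
  have hq := q_pos (Γ := Γ) j
  have hp := q_pos (Γ := Γ) (j + 1)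
  have hr := P_ratio (Γ := Γ) j
  have N0 : 0 < nn (pt Γ (.y j 3) 1 0) := nn_pos (pt0_ne _ _)
  have hN : nn (pt Γ (.y j 3) 1 0) ≤ 4 * Γ.P (j + 1) - Γ.P j := nn_le (by linarith) (by
    simp [pt0, pt1, Row.X, Row.W, wv, luc]; nlinarith only [hr, mul_pos hp hq])
  refine ⟨_, ?_, half_bound hq (p := Γ.P (j + 1)) (by linarith) N0 hN⟩
  have e2 : (Row.y j (4 - 2)).e' Γ = (1 : ℂ) • ez := by
    rw [Row.e', sgn_X]
    ext i; fin_cases i <;> simp [Row.e, Rx, ez]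
  rw [cY0, if_neg (by omega), if_neg (by omega), e_yr, e_y (by omega), e_y (by omega), e2, cf_smul,
    cf, dt_ez (pt2 _ _), dt_hv _ _ (pt2 _ _), inner_hv_ez]
  simp only [pt0, pt1, Row.X, Row.W, Row.s, wv, gg]
  norm_num [luc]
  linear_combination (-(2 * Real.pi * (Γ.P (j + 1) * (4 * Γ.P (j + 1) - Γ.P j) /
    (nn (pt Γ (.y j 3) 1 0) : ℝ) / (√2 : ℝ)) * ((√2 : ℝ) : ℂ)⁻¹)) * I_mul_I

lemma zero_mem_box (n : ℕ) : (0 : Z3) ∈ box n := by simp [mem_box, sn]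

lemma norm_cY0_le {j m : ℕ} (h1 : 1 ≤ m) (h2 : m ≤ Γ.n (j + 1)) :
    ‖cY0 Γ j m‖ ≤ 10 * Γ.lam (j + 2) := by
  have l0 := lam_pos (Γ := Γ) (j + 1)
  have l1 := lam_le (Γ := Γ) (j + 1)
  have hb := (ax_b (pt_mem_Orb (Γ := Γ) (ρ := .b (j + 1)) (Or.inl rfl) (zero_mem_box _))).2
  have hc := (ax_c (pt_mem_Orb (Γ := Γ) (ρ := .c j) (Or.inl rfl) (zero_mem_box _))).2
  rw [cY0]
  split_ifs with m1 m2
  · refine (norm_cf_le (norm_e' _) (norm_e' _) (norm_e' _) _ _).trans ?_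
    linarith only [l0, l1, hb, hc]
  · refine (norm_cf_le norm_ez (norm_e' _) (by rw [norm_Sg, norm_e']) _ _).trans ?_
    rw [ax_swE]; linarith only [l0, l1, hb]
  · refine (norm_cf_le (norm_e' _) (norm_e' _) (norm_e'' _) _ _).trans ?_
    have a1 := (ax_y (m := m - 1) (by omega) (by omega)
      (pt_mem_Orb (Γ := Γ) (ρ := .y j (m - 1)) (Or.inl rfl) (zero_mem_box _))).2.1
    have a2 := (ax_y (m := m - 2) (by omega) (by omega)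
      (pt_mem_Orb (Γ := Γ) (ρ := .y j (m - 2)) (Or.inr rfl) (zero_mem_box _))).2.1
    linarith only [l0, l1, a1, a2]

theorem cY0_spec {j m : ℕ} (h1 : 1 ≤ m) (h2 : m ≤ Γ.n (j + 1)) :
    (cY0 Γ j m).im = 0 ∧ Γ.lam j / 10 ≤ (cY0 Γ j m).re ∧
      (cY0 Γ j m).re ≤ 10 * Γ.lam (j + 2) := by
  have h3 : ∃ x : ℝ, cY0 Γ j m = x ∧ Γ.lam j / 10 ≤ x := by
    by_cases h5 : 5 ≤ m
    · exact cY_gen h5
    · have : m < 5 := by omega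
      interval_cases m
      exacts [cY_one j, cY_two j, cY_three j, cY_four j]
  obtain ⟨x, hx, hl⟩ := h3
  exact ⟨by rw [hx, ofReal_im], by rwa [hx, ofReal_re],
    (Complex.re_le_norm _).trans (norm_cY0_le h1 h2)⟩

end

end Pool.Agent.Work.MP_6bf1e5_an.Dec.Cf
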