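import Pool.Agent.Work.MP_6bf1e5_an.Dec.Phi

/-!
The cone around the unstable direction.
-/

open Set Complex
open scoped InnerProductSpace ComplexConjugate
open Pool.Agent.Work.MP_6bf1e5_an.B (Z3 R3 box)

namespace Pool.Agent.Work.MP_6bf1e5_an.Dec

noncomputable section

namespace Cn

lemma re_smul_left (c : ℝ) (u v : V) : (⟪(c : ℂ) • u, v⟫_ℂ).re = c * (⟪u, v⟫_ℂ).re := by
  rw [inner_smul_left, conj_ofReal, re_ofReal_mul]

lemma re_smul_right (c : ℝ) (u v : V) : (⟪u, (c : ℂ) • v⟫_ℂ).re = c * (⟪u, v⟫_ℂ).re := by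
  rw [inner_smul_right, re_ofReal_mul]

lemma re_comm (u v : V) : (⟪u, v⟫_ℂ).re = (⟪v, u⟫_ℂ).re := by
  rw [← inner_conj_symm, conj_re]

lemma abs_re_le (u v : V) : |(⟪u, v⟫_ℂ).re| ≤ ‖u‖ * ‖v‖ :=
  (abs_re_le_norm _).trans (norm_inner_le_norm _ _)

lemma normsq_sub (u v : V) (c : ℝ) :
    ‖v - (c : ℂ) • u‖ ^ 2 = ‖v‖ ^ 2 - 2 * c * (⟪u, v⟫_ℂ).re + c ^ 2 * ‖u‖ ^ 2 := by
  rw [@norm_sub_sq ℂ, norm_smul, mul_pow, Complex.norm_real, Real.norm_eq_abs, sq_abs,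
    RCLike.re_to_complex, re_smul_right, re_comm]
  ring

lemma sqle {a b : ℝ} (h : a ^ 2 ≤ b ^ 2) (hb : 0 ≤ b) : a ≤ b := (abs_le_of_sq_le_sq' h hb).2

lemma add_sq_le' (a b : ℝ) : (a + b) ^ 2 ≤ 2 * a ^ 2 + 2 * b ^ 2 := by
  linarith [sq_nonneg (a - b)]

lemma real_g {α g s X q x z μ η G ε ω r : ℝ} (hα : 0 < α) (hs : 0 < s) (g0 : 0 ≤ g) (gG : g ≤ G)
    (ε0 : 0 ≤ ε)
    (k2 : 2 * √2 * ((√2 * X - g * α ^ 2) * α + g * α ^ 2 * q) ≤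
      α * (-(1 / 10 ^ 7 * μ) * (g * α ^ 2 - α ^ 2 / 2) + 20000 * μ * (η + μ) * (G * α) ^ 2))
    (zle : z ≤ 2 * (G * α) * (ε * α)) (xle : |x| ≤ (5 / 2 * ε + r * ω) * α) :
    (2 * (2 * s * X + z) * α ^ 2 - g * α ^ 2 * (2 * α * (√2 * s * α - √2 * s * q + x))) /
      (α ^ 2) ^ 2 ≤ -(1 / 10 ^ 7 * s * μ) * (g - 1 / 2) + 20000 * s * μ * (η + μ) * G ^ 2 +
        10 * G * ε + 2 * G * r * ω := by
  rw [div_le_iff₀ (by positivity)]
  have a1 := mul_le_mul_of_nonneg_left k2 (mul_pos hs hα).le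
  have a2 := mul_le_mul_of_nonneg_left zle (sq_nonneg α)
  have a3 : -(g * x) ≤ G * ((5 / 2 * ε + r * ω) * α) := by
    have := mul_le_mul gG xle (abs_nonneg _) (g0.trans gG)
    linarith only [this, mul_le_mul_of_nonneg_left (neg_abs_le x) g0]
  have a4 := mul_le_mul_of_nonneg_left a3 (pow_pos hα 3).le
  have a5 : 0 ≤ G * ε * α ^ 4 := by have := g0.trans gG; positivity
  have a7 : √2 * √2 = (2 : ℝ) := Real.mul_self_sqrt (by norm_num)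
  linear_combination a1 + 2 * a2 + 2 * a4 + a5 - 2 * s * X * α ^ 2 * a7

lemma s2 : (√2 : ℝ) * √2 = 2 := Real.mul_self_sqrt (by norm_num)

lemma s2_pos : (0 : ℝ) < √2 := by positivity

lemma s2_lo : (14 / 10 : ℝ) ≤ √2 := Real.le_sqrt_of_sq_le (by norm_num)

lemma s2_hi : √2 ≤ (15 / 10 : ℝ) := Real.sqrt_le_iff.mpr (by norm_num)

lemma pphi_le {m n : ℕ} {p : V} (hp : Drv m p) : ‖p * phi n‖ ≤ 1 :=
  (hp.norm_mul_le _).trans (norm_phi n).le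

lemma dist_eq (n : ℕ) (p B Cp Cm : V) (c : ℝ) :
    ‖B - (c : ℂ) • phi n‖ ^ 2 + ‖Cp - ((c / √2 : ℝ) : ℂ) • (p * phi n)‖ ^ 2 +
      ‖Cm - ((c / √2 : ℝ) : ℂ) • (dag p * phi n)‖ ^ 2 =
      nr3 B Cp Cm ^ 2 - 2 * c * al n p B Cp Cm + c ^ 2 * (1 + ‖p * phi n‖ ^ 2) := by
  rw [normsq_sub, normsq_sub, normsq_sub, nr3_sq, al, norm_phi, norm_dag_mul, div_pow,
    Real.sq_sqrt (by norm_num : (0 : ℝ) ≤ 2)]
  ring

lemma real_main {α E nb β Qt μ' μ η G R b ρ : ℝ} (hα : 0 < α) (hG : 1 ≤ G) (μ0 : 0 ≤ μ)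
    (η0 : 0 ≤ η) (μ1 : μ * G ≤ 1 / 10 ^ 6) (μ'0 : 0 ≤ μ') (μ'1 : μ' ≤ 30 * μ) (R0 : 0 ≤ R)
    (nb0 : 0 ≤ nb) (h1 : E ≤ G * α ^ 2) (h2 : nb ^ 2 ≤ E) (h3 : E ≤ 2 * nb ^ 2 + 2 * nb * R + R ^ 2)
    (h4 : 2 * β - α = μ' * β + b - ρ) (h5 : |ρ| ≤ R) (h6 : b ^ 2 ≤ η * μ * Qt)
    (h7 : 1 / 10 ^ 6 * μ * (nb ^ 2 - β ^ 2) ≤ Qt) (h8 : |β| ≤ nb)
    (h9 : E - α ^ 2 / 2 ≤ 3 * (nb ^ 2 - β ^ 2) + 2 * R ^ 2 + (15 + η / 2) * μ * α ^ 2) :
    2 * √2 * (-(μ' * nb ^ 2 + Qt + R ^ 2) * α + E * (μ' * β + b)) ≤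
      α * (-(1 / 10 ^ 7 * μ) * (E - α ^ 2 / 2) + 20000 * μ * (η + μ) * (G * α) ^ 2) := by
  obtain ⟨A, hA⟩ : ∃ A, A = G * α := ⟨_, rfl⟩
  rw [← hA]
  have αA : α ≤ A := by rw [hA]; nlinarith only [hα, hG]
  have A0 : 0 ≤ A := by linarith only [hα, αA]
  have EA : E ≤ α * A := by rw [hA]; linarith only [h1]
  have E0 : 0 ≤ E := (sq_nonneg _).trans h2
  have nA : nb ≤ A := by nlinarith only [hα, h2, αA, EA]
  have w0 : 0 ≤ nb ^ 2 - β ^ 2 := by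
    have := sq_abs β
    nlinarith only [h8, this, abs_nonneg β]
  have μs : μ ≤ 1 / 10 ^ 6 := by nlinarith only [hG, μ1]
  have Q0 : 0 ≤ Qt := le_trans (by positivity) h7
  have b0 := abs_nonneg b
  have q1 : μ' * β + b ≤ 30 * μ * A + |b| := by
    have : μ' * β ≤ 30 * μ * A := (mul_le_mul_of_nonneg_left ((le_abs_self β).trans (h8.trans nA))
      μ'0).trans (mul_le_mul_of_nonneg_right μ'1 A0)
    linarith only [this, le_abs_self b]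
  have t1 : E * β - nb ^ 2 * α ≤ α * (3 / 2 * A * R + R ^ 2 / 2 + A * (30 * μ * A + |b|) / 2) := by
    have e1 : E * (μ' * β + b - ρ) ≤ α * A * (30 * μ * A + |b| + R) :=
      (mul_le_mul_of_nonneg_left (by linarith only [h5, q1, neg_abs_le ρ]) E0).trans
        (mul_le_mul_of_nonneg_right EA (by positivity))
    have e2 : α * (E / 2 - nb ^ 2) ≤ α * (A * R + R ^ 2 / 2) :=
      mul_le_mul_of_nonneg_left (by nlinarith only [R0, h3, nA]) hα.le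
    rw [← h4] at e1
    linarith only [e1, e2]
  have t2 : μ' * (E * β - nb ^ 2 * α) ≤
      30 * μ * (α * (3 / 2 * A * R + R ^ 2 / 2 + A * (30 * μ * A + |b|) / 2)) :=
    (mul_le_mul_of_nonneg_left t1 μ'0).trans (mul_le_mul_of_nonneg_right μ'1 (by (clear * - hα μ0 R0 A0; positivity)))
  have t3 : E * b ≤ α * (A * |b|) := by
    rw [← mul_assoc]
    exact (mul_le_mul_of_nonneg_left (le_abs_self b) E0).trans (mul_le_mul_of_nonneg_right EA b0)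
  have t4 : 101 / 100 * (A * |b|) ≤ Qt / 2 + 52 / 100 * (η * μ * A ^ 2) := by
    refine sqle ?_ (by positivity)
    have e1 : A ^ 2 * b ^ 2 ≤ A ^ 2 * (η * μ * Qt) := mul_le_mul_of_nonneg_left h6 (sq_nonneg _)
    have e2 : 0 ≤ A ^ 2 * (η * μ * Qt) := by positivity
    rw [mul_pow, mul_pow, sq_abs]
    linarith only [e1, e2, sq_nonneg (Qt / 2 - 52 / 100 * (η * μ * A ^ 2))]
  have t5 : 30 * μ * (3 / 2 * A * R + R ^ 2 / 2 + A * (30 * μ * A + |b|) / 2) + A * |b| ≤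
      Qt / 2 + 26 / 100 * R ^ 2 + 2475 * (μ * A) ^ 2 + 52 / 100 * (η * μ * A ^ 2) := by
    have e1 : μ * R ^ 2 ≤ 1 / 10 ^ 6 * R ^ 2 := mul_le_mul_of_nonneg_right μs (sq_nonneg _)
    have e2 : μ * (A * |b|) ≤ 1 / 10 ^ 6 * (A * |b|) :=
      mul_le_mul_of_nonneg_right μs (by positivity)
    have e3 : 0 ≤ A * |b| := by positivity
    linarith only [t4, e1, e2, e3, sq_nonneg (R / 2 - 45 * (μ * A)), sq_nonneg R]
  have t6 : -(μ' * nb ^ 2 + Qt + R ^ 2) * α + E * (μ' * β + b) ≤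
      α * (-(Qt / 2 + 74 / 100 * R ^ 2) + (2475 * (μ * A) ^ 2 + 52 / 100 * (η * μ * A ^ 2))) := by
    have := mul_le_mul_of_nonneg_left t5 hα.le
    linarith only [t2, t3, this]
  have t7 : 2 * √2 * (-(Qt / 2 + 74 / 100 * R ^ 2) +
      (2475 * (μ * A) ^ 2 + 52 / 100 * (η * μ * A ^ 2))) ≤
      -(1 / 10 ^ 7 * μ) * (E - α ^ 2 / 2) + 20000 * μ * (η + μ) * A ^ 2 := by
    have e1 : 14 / 10 * (Qt / 2 + 74 / 100 * R ^ 2) ≤ √2 * (Qt / 2 + 74 / 100 * R ^ 2) :=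
      mul_le_mul_of_nonneg_right s2_lo (by positivity)
    have e2 : √2 * (2475 * (μ * A) ^ 2 + 52 / 100 * (η * μ * A ^ 2)) ≤
        15 / 10 * (2475 * (μ * A) ^ 2 + 52 / 100 * (η * μ * A ^ 2)) :=
      mul_le_mul_of_nonneg_right s2_hi (by positivity)
    have e3 := mul_le_mul_of_nonneg_left h9 μ0
    have e4 : μ * R ^ 2 ≤ 1 / 10 ^ 6 * R ^ 2 := mul_le_mul_of_nonneg_right μs (sq_nonneg _)
    have e5 : α ^ 2 ≤ A ^ 2 := pow_le_pow_left₀ hα.le αA 2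
    have e6 : μ ^ 2 * α ^ 2 ≤ μ ^ 2 * A ^ 2 := mul_le_mul_of_nonneg_left e5 (sq_nonneg _)
    have e7 : μ * (η * μ * α ^ 2) ≤ 1 / 10 ^ 6 * (η * μ * A ^ 2) :=
      mul_le_mul μs (mul_le_mul_of_nonneg_left e5 (by positivity)) (by positivity) (by positivity)
    have e8 : 0 ≤ η * μ * A ^ 2 := by positivity
    have e9 : 0 ≤ μ ^ 2 * A ^ 2 := by positivity
    linarith only [h7, Q0, e1, e2, e3, e4, e6, e7, e8, e9, sq_nonneg R]
  have := mul_le_mul_of_nonneg_left t6 (by positivity : (0 : ℝ) ≤ 2 * √2)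
  have := mul_le_mul_of_nonneg_left t7 hα.le
  linarith

end Cn

open Cn

lemma abs_al_le {m n : ℕ} {p : V} (hp : Drv m p) (B Cp Cm : V) :
    al n p B Cp Cm ^ 2 ≤ 2 * nr3 B Cp Cm ^ 2 := by
  have h := dist_eq n p B Cp Cm (al n p B Cp Cm / 2)
  have h1 : ‖p * phi n‖ ^ 2 ≤ 1 := pow_le_one₀ (norm_nonneg _) (pphi_le hp)
  have h2 := mul_le_mul_of_nonneg_left h1 (sq_nonneg (al n p B Cp Cm / 2))
  have h3 : 0 ≤ nr3 B Cp Cm ^ 2 - 2 * (al n p B Cp Cm / 2) * al n p B Cp Cm +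
      (al n p B Cp Cm / 2) ^ 2 * (1 + ‖p * phi n‖ ^ 2) := by rw [← h]; positivity
  linarith only [h2, h3]

lemma cone_close {m n : ℕ} {p B Cp Cm : V} (hp : Drv m p) {γ : ℝ}
    (h : nr3 B Cp Cm ^ 2 ≤ (1 / 2 + γ) * al n p B Cp Cm ^ 2) :
    ‖B - ((al n p B Cp Cm / 2 : ℝ) : ℂ) • phi n‖ ^ 2 ≤ γ * al n p B Cp Cm ^ 2 ∧
      ‖Cp - ((al n p B Cp Cm / 2 / √2 : ℝ) : ℂ) • (p * phi n)‖ ^ 2 ≤ γ * al n p B Cp Cm ^ 2 := by
  have h0 := dist_eq n p B Cp Cm (al n p B Cp Cm / 2)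
  have h1 : ‖p * phi n‖ ^ 2 ≤ 1 := pow_le_one₀ (norm_nonneg _) (pphi_le hp)
  have h2 := mul_le_mul_of_nonneg_left h1 (sq_nonneg (al n p B Cp Cm / 2))
  have a1 := sq_nonneg ‖B - ((al n p B Cp Cm / 2 : ℝ) : ℂ) • phi n‖
  have a2 := sq_nonneg ‖Cp - ((al n p B Cp Cm / 2 / √2 : ℝ) : ℂ) • (p * phi n)‖
  have a3 := sq_nonneg ‖Cm - ((al n p B Cp Cm / 2 / √2 : ℝ) : ℂ) • (dag p * phi n)‖
  constructor <;> linarith only [h, h0, h2, a2, a3, a1]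

lemma hd_nr3_sq {B Cp Cm : ℝ → V} {B' Cp' Cm' : V} {t : ℝ} (dB : HD B B' t) (dP : HD Cp Cp' t)
    (dM : HD Cm Cm' t) : HD (fun t => nr3 (B t) (Cp t) (Cm t) ^ 2)
      (2 * ((⟪B t, B'⟫_ℂ).re + (⟪Cp t, Cp'⟫_ℂ).re + (⟪Cm t, Cm'⟫_ℂ).re)) t := by
  simp only [nr3_sq]
  convert (dB.normsq.fun_add dP.normsq).fun_add dM.normsq using 1
  ring

/-- The static part of the cone estimate. -/
lemma Cn.static {m n : ℕ} {η G : ℝ} {p B Cp Cm : V} (hp : Drv m p) (hg : Gap m n η p) (η0 : 0 ≤ η)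
    (sB : Supp n B) (sy : Sym B) (hG : 1 ≤ G) (small1 : mu m n * G ≤ 1 / 10 ^ 6)
    (small2 : η * mu m n * G ≤ 1 / 10 ^ 4) {α E q : ℝ} (hα : α = al n p B Cp Cm)
    (hE : E = nr3 B Cp Cm ^ 2) (hq : q = (⟪phi n, B⟫_ℂ).re - (⟪p * phi n, p * B⟫_ℂ).re)
    (pos : 0 < α) (le : E ≤ G * α ^ 2) : |q| ≤ α / 15 ∧
      2 * √2 * ((√2 * ((⟪p * B, Cp⟫_ℂ).re + (⟪dag p * B, Cm⟫_ℂ).re) - E) * α + E * q) ≤
        α * (-(1 / 10 ^ 7 * mu m n) * (E - α ^ 2 / 2) +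
          20000 * mu m n * (η + mu m n) * (G * α) ^ 2) := by
  obtain ⟨μ', μ'0, μ'1, gφ, gap⟩ := hg
  have μ0 : 0 ≤ mu m n := sq_nonneg _
  obtain ⟨β, hβ⟩ : ∃ β, β = (⟪phi n, B⟫_ℂ).re := ⟨_, rfl⟩
  have β2 : ‖⟪phi n, B⟫_ℂ‖ ^ 2 = β ^ 2 := by
    rw [Complex.sq_norm, normSq_apply, sy.inner_phi_im, hβ]; ring
  have βle : |β| ≤ ‖B‖ := by simpa [norm_phi, hβ] using abs_re_le (phi n) B
  have expand : ∀ c : ℝ, Qf p (B - (c : ℂ) • phi n) = Qf p B - 2 * c * q + c ^ 2 * Qf p (phi n) := by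
    intro c
    simp only [Qf]
    rw [mul_sub, mul_smul_comm, normsq_sub, normsq_sub, hq]
    ring
  have Qn : ∀ y, 0 ≤ Qf p y := fun y =>
    sub_nonneg.mpr (pow_le_pow_left₀ (norm_nonneg _) (hp.norm_mul_le y) 2)
  have Qφ : Qf p (phi n) = 1 - ‖p * phi n‖ ^ 2 := by rw [Qf, norm_phi, one_pow]
  have BE : ‖B‖ ^ 2 ≤ E := by rw [hE, nr3_sq]; linarith only [sq_nonneg ‖Cp‖, sq_nonneg ‖Cm‖]
  have q2 : q ^ 2 ≤ Qf p (phi n) * Qf p B := by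
    have := discrim_le_zero (a := Qf p (phi n)) (b := -(2 * q)) (c := Qf p B) fun c => by
      have := Qn (B - (c : ℂ) • phi n)
      rw [expand] at this
      linarith only [this]
    rw [discrim] at this
    linarith only [this]
  have b2 : (q - μ' * β) ^ 2 ≤ η * mu m n * (Qf p B - μ' * ‖B‖ ^ 2) := by
    have := discrim_le_zero (a := η * mu m n) (b := -(2 * (q - μ' * β)))
      (c := Qf p B - μ' * ‖B‖ ^ 2) fun c => by
      have h1 := gap _ (sB.sub ((supp_phi n).smul (c : ℂ)))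
      have h2 : ‖⟪phi n, B - (c : ℂ) • phi n⟫_ℂ‖ ≤ ‖B - (c : ℂ) • phi n‖ := by
        simpa only [norm_phi, one_mul] using
          norm_inner_le_norm (𝕜 := ℂ) (phi n) (B - (c : ℂ) • phi n)
      have h3 := mul_nonneg μ0 (sub_nonneg.mpr (pow_le_pow_left₀ (norm_nonneg _) h2 2))
      have h4 := mul_le_mul_of_nonneg_left gφ (sq_nonneg c)
      have h5 : μ' * ‖B - (c : ℂ) • phi n‖ ^ 2 ≤ Qf p (B - (c : ℂ) • phi n) := by linarith only [h1, h3]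
      rw [expand, normsq_sub, norm_phi, ← hβ] at h5
      linarith only [h4, h5]
    rw [discrim] at this
    linarith only [this]
  refine ⟨?_, ?_⟩
  · refine abs_le_of_sq_le_sq' ?_ (by positivity) |>.elim fun a b => abs_le.mpr ⟨a, b⟩
    have h1 : Qf p B ≤ G * α ^ 2 := by
      have : Qf p B ≤ ‖B‖ ^ 2 := sub_le_self _ (sq_nonneg _)
      linarith only [le, BE, this]
    have h2 := mul_le_mul gφ h1 (Qn _) (by (clear * - η0 μ'0 μ0; positivity))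
    have h3 := mul_le_mul_of_nonneg_right small1 (sq_nonneg α)
    have h4 := mul_le_mul_of_nonneg_right small2 (sq_nonneg α)
    have h5 := mul_le_mul_of_nonneg_right μ'1 (by positivity : 0 ≤ G * α ^ 2)
    linarith only [q2, h2, h3, h4, h5, sq_nonneg α]
  obtain ⟨c, hc⟩ : ∃ c : ℝ, c = 1 / √2 := ⟨_, rfl⟩
  have c0 : 0 < c := by rw [hc]; positivity
  have c2 : c ^ 2 = 1 / 2 := by rw [hc, div_pow, Real.sq_sqrt (by norm_num), one_pow]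
  have cs : √2 = 2 * c := by rw [hc]; field_simp; rw [sq, s2]
  obtain ⟨Rp, hRp⟩ : ∃ Rp, Rp = Cp - (c : ℂ) • (p * B) := ⟨_, rfl⟩
  obtain ⟨Rm, hRm⟩ : ∃ Rm, Rm = Cm - (c : ℂ) • (dag p * B) := ⟨_, rfl⟩
  have eP : Cp = (c : ℂ) • (p * B) + Rp := by rw [hRp]; abel
  have eM : Cm = (c : ℂ) • (dag p * B) + Rm := by rw [hRm]; abel
  obtain ⟨R, hR⟩ : ∃ R, R = √(‖Rp‖ ^ 2 + ‖Rm‖ ^ 2) := ⟨_, rfl⟩
  have R0 : 0 ≤ R := by rw [hR]; (clear * -; positivity)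
  have R2 : R ^ 2 = ‖Rp‖ ^ 2 + ‖Rm‖ ^ 2 := by rw [hR, Real.sq_sqrt (by (clear * -; positivity))]
  have RR : c * (‖Rp‖ + ‖Rm‖) ≤ R := by
    refine sqle ?_ R0
    rw [mul_pow, c2, R2]
    linarith only [add_sq_le' ‖Rp‖ ‖Rm‖]
  have pB := hp.norm_mul_le B
  have pφ : ‖p * phi n‖ ≤ 1 := pphi_le hp
  have en : √2 * ((⟪p * B, Cp⟫_ℂ).re + (⟪dag p * B, Cm⟫_ℂ).re) - E = -(Qf p B + R ^ 2) := by
    rw [R2, hRp, hRm, normsq_sub, normsq_sub, norm_dag_mul, c2, cs, hE, nr3_sq, Qf]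
    ring
  have dd : ⟪dag p * phi n, dag p * B⟫_ℂ = ⟪p * phi n, p * B⟫_ℂ := by
    rw [inner_mul_right, inner_mul_right, dag_dag, ← mul_assoc, ← mul_assoc, mul_comm p]
  have h3 : E ≤ 2 * ‖B‖ ^ 2 + 2 * ‖B‖ * R + R ^ 2 := by
    have a1 : ‖Cp‖ ≤ c * ‖B‖ + ‖Rp‖ := by
      rw [eP]
      refine (norm_add_le _ _).trans ?_
      rw [norm_smul, Complex.norm_real, Real.norm_of_nonneg c0.le]
      (clear * - c0 pB; gcongr)
    have a2 : ‖Cm‖ ≤ c * ‖B‖ + ‖Rm‖ := by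
      rw [eM]
      refine (norm_add_le _ _).trans ?_
      rw [norm_smul, Complex.norm_real, Real.norm_of_nonneg c0.le, norm_dag_mul]
      (clear * - c0 pB; gcongr)
    have a3 := pow_le_pow_left₀ (norm_nonneg _) a1 2
    have a4 := pow_le_pow_left₀ (norm_nonneg _) a2 2
    have a5 := mul_le_mul_of_nonneg_left RR (norm_nonneg B)
    have a6 : (c * ‖B‖) ^ 2 = ‖B‖ ^ 2 / 2 := by rw [mul_pow, c2]; ring
    rw [hE, nr3_sq, R2]
    linarith only [a3, a4, a5, a6]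
  have h4 : 2 * β - α = μ' * β + (q - μ' * β) -
      c * ((⟪p * phi n, Rp⟫_ℂ).re + (⟪dag p * phi n, Rm⟫_ℂ).re) := by
    have : c * c = 1 / 2 := by rw [← sq, c2]
    rw [hα, al, div_eq_mul_one_div, ← hc, hq, ← hβ]
    conv_lhs => rw [eP, eM]
    simp only [inner_add_right, add_re, re_smul_right, dd]
    linear_combination (-2 * (⟪p * phi n, p * B⟫_ℂ).re) * this
  have h5 : |c * ((⟪p * phi n, Rp⟫_ℂ).re + (⟪dag p * phi n, Rm⟫_ℂ).re)| ≤ R := by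
    rw [abs_mul, abs_of_pos c0]
    refine le_trans (mul_le_mul_of_nonneg_left ((abs_add_le _ _).trans (add_le_add
      ((abs_re_le _ _).trans ?_) ((abs_re_le _ _).trans ?_))) c0.le) RR
    · exact mul_le_of_le_one_left (norm_nonneg _) pφ
    · exact mul_le_of_le_one_left (norm_nonneg _) (by rwa [norm_dag_mul])
  have h7 := gap B sB
  rw [β2] at h7
  have h9 : E - α ^ 2 / 2 ≤ 3 * (‖B‖ ^ 2 - β ^ 2) + 2 * R ^ 2 + (15 + η / 2) * mu m n * α ^ 2 := by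
    have a0 := dist_eq n p B Cp Cm β
    obtain ⟨w, hw⟩ : ∃ w, w = B - (β : ℂ) • phi n := ⟨_, rfl⟩
    have w2 : ‖w‖ ^ 2 = ‖B‖ ^ 2 - β ^ 2 := by rw [hw, normsq_sub, norm_phi, ← hβ]; ring
    have a1 : ∀ (u Z C : V), ‖u * w‖ ≤ ‖w‖ → C = (c : ℂ) • (u * B) + Z →
        ‖C - ((β / √2 : ℝ) : ℂ) • (u * phi n)‖ ^ 2 ≤ ‖w‖ ^ 2 + 2 * ‖Z‖ ^ 2 := by
      intro u Z C hu hC
      have : C - ((β / √2 : ℝ) : ℂ) • (u * phi n) = (c : ℂ) • (u * w) + Z := by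
        rw [hC, hw, div_eq_mul_one_div, ← hc, mul_sub, mul_smul_comm, smul_sub, smul_smul]
        push_cast
        rw [mul_comm (c : ℂ)]
        abel
      rw [this]
      have b1 : ‖(c : ℂ) • (u * w) + Z‖ ≤ c * ‖w‖ + ‖Z‖ := by
        refine (norm_add_le _ _).trans ?_
        rw [norm_smul, Complex.norm_real, Real.norm_of_nonneg c0.le]
        (clear * - c0 hu; gcongr)
      have b2 := pow_le_pow_left₀ (norm_nonneg _) b1 2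
      have b3 : (c * ‖w‖) ^ 2 = ‖w‖ ^ 2 / 2 := by rw [mul_pow, c2]; ring
      linarith only [b2, b3, add_sq_le' (c * ‖w‖) ‖Z‖]
    have a2 := a1 p Rp Cp (hp.norm_mul_le w) eP
    have a3 := a1 (dag p) Rm Cm (by rw [norm_dag_mul]; exact hp.norm_mul_le w) eM
    rw [← hw, ← hα, ← hE] at a0
    have a4 : 0 ≤ ‖p * phi n‖ ^ 2 * (β - α / 2) ^ 2 := by (clear * -; positivity)
    have a5 := mul_nonneg (Qn (phi n)) (sq_nonneg (α - β))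
    have a6 := mul_le_mul_of_nonneg_right (gφ.trans (add_le_add_left μ'1 _)) (sq_nonneg α)
    rw [Qφ] at a5 a6
    linarith only [R2, a0, w2, a2, a3, a4, a5, a6]
  have := real_main pos hG μ0 η0 small1 μ'0 μ'1 R0 (norm_nonneg B) le BE h3 h4 h5 b2
    (by linarith only [h7]) βle h9
  rw [en]
  convert this using 3 <;> ring

theorem cone_step {m n : ℕ} {η s G ε ω t : ℝ} {p B Cp Cm : ℝ → V} {p' eB eP eM : V}
    (hp : Drv m (p t)) (hg : Gap m n η (p t)) (η0 : 0 ≤ η) (sB : Supp n (B t)) (sy : Sym (B t))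
    (hs : 0 < s) (hG : 1 ≤ G) (small1 : mu m n * G ≤ 1 / 10 ^ 6)
    (small2 : η * mu m n * G ≤ 1 / 10 ^ 4) (dp : HD p p' t) (hω : ‖p' * phi n‖ ≤ ω)
    (dB : HD B ((s : ℂ) • proj n (dag (p t) * Cp t + p t * Cm t) + eB) t)
    (dP : HD Cp ((s : ℂ) • (p t * B t) + eP) t) (dM : HD Cm ((s : ℂ) • (dag (p t) * B t) + eM) t)
    (pos : 0 < al n (p t) (B t) (Cp t) (Cm t))
    (hE : nr3 (B t) (Cp t) (Cm t) ^ 2 ≤ G * al n (p t) (B t) (Cp t) (Cm t) ^ 2)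
    (h1 : ‖eB‖ ≤ ε * al n (p t) (B t) (Cp t) (Cm t))
    (h2 : ‖eP‖ ≤ ε * al n (p t) (B t) (Cp t) (Cm t))
    (h3 : ‖eM‖ ≤ ε * al n (p t) (B t) (Cp t) (Cm t)) :
    ∃ α' g', HD (fun t => al n (p t) (B t) (Cp t) (Cm t)) α' t ∧
      HD (fun t => nr3 (B t) (Cp t) (Cm t) ^ 2 / al n (p t) (B t) (Cp t) (Cm t) ^ 2) g' t ∧
      |α' - √2 * s * al n (p t) (B t) (Cp t) (Cm t)| ≤
        (s / 10 + 3 * ε + √G * ω) * al n (p t) (B t) (Cp t) (Cm t) ∧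
      g' ≤ -(1 / 10 ^ 7 * s * mu m n) *
          (nr3 (B t) (Cp t) (Cm t) ^ 2 / al n (p t) (B t) (Cp t) (Cm t) ^ 2 - 1 / 2) +
        20000 * s * mu m n * (η + mu m n) * G ^ 2 + 10 * G * ε + 2 * G * √G * ω := by
  have dα : HD (fun t => al n (p t) (B t) (Cp t) (Cm t)) _ t :=
    (HD.re_inner (hasDerivWithinAt_const t _ (phi n)) dB).fun_add
      ((((dp.mul_const' _).re_inner dP).fun_add ((dp.dag.mul_const' _).re_inner dM)).div_const _)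
  have dE := hd_nr3_sq dB dP dM
  obtain ⟨α, hα⟩ : ∃ α, α = al n (p t) (B t) (Cp t) (Cm t) := ⟨_, rfl⟩
  obtain ⟨E, hE'⟩ : ∃ E, E = nr3 (B t) (Cp t) (Cm t) ^ 2 := ⟨_, rfl⟩
  obtain ⟨q, hq⟩ : ∃ q, q = (⟪phi n, B t⟫_ℂ).re - (⟪p t * phi n, p t * B t⟫_ℂ).re := ⟨_, rfl⟩
  rw [← hα] at pos h1 h2 h3 hE
  rw [← hE'] at hE
  obtain ⟨k1, k2⟩ := Cn.static hp hg η0 sB sy hG small1 small2 hα hE' hq pos hE
  have ε0 : 0 ≤ ε := nonneg_of_mul_nonneg_left ((norm_nonneg _).trans h1) pos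
  have ω0 : 0 ≤ ω := (norm_nonneg _).trans hω
  have G0 : 0 ≤ G := by linarith only [hG]
  have sG : √G ≤ G := Real.sqrt_le_self_iff.mpr (Or.inr hG)
  have pφ : ‖p t * phi n‖ ≤ 1 := pphi_le hp
  have pφ' : ‖dag (p t) * phi n‖ ≤ 1 := by rwa [norm_dag_mul]
  have nE : nr3 (B t) (Cp t) (Cm t) ≤ √G * α := by
    refine sqle ?_ (by positivity)
    rw [mul_pow, Real.sq_sqrt G0, ← hE']; exact hE
  have dd : ⟪dag (p t) * phi n, dag (p t) * B t⟫_ℂ = ⟪p t * phi n, p t * B t⟫_ℂ := by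
    rw [inner_mul_right, inner_mul_right, dag_dag, ← mul_assoc, ← mul_assoc, mul_comm (p t)]
  obtain ⟨c, hc⟩ : ∃ c : ℝ, c = 1 / √2 := ⟨_, rfl⟩
  have c0 : 0 < c := by rw [hc]; positivity
  have c2 : c * c = 1 / 2 := by rw [hc, div_mul_div_comm, s2, one_mul]
  have cs : √2 = 2 * c := by rw [hc]; field_simp; rw [sq, s2]
  have c1 : c ≤ 3 / 4 := by linarith only [cs, s2_hi]
  obtain ⟨x, hx⟩ : ∃ x, x = (⟪phi n, eB⟫_ℂ).re +
    c * ((⟪p t * phi n, eP⟫_ℂ).re + (⟪dag (p t) * phi n, eM⟫_ℂ).re) +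
    c * ((⟪p' * phi n, Cp t⟫_ℂ).re + (⟪dag p' * phi n, Cm t⟫_ℂ).re) := ⟨_, rfl⟩
  obtain ⟨z, hz⟩ : ∃ z, z = (⟪B t, eB⟫_ℂ).re + (⟪Cp t, eP⟫_ℂ).re + (⟪Cm t, eM⟫_ℂ).re := ⟨_, rfl⟩
  have xle : |x| ≤ (5 / 2 * ε + √G * ω) * α := by
    have a1 : |(⟪phi n, eB⟫_ℂ).re| ≤ ε * α :=
      (abs_re_le _ _).trans (by rw [norm_phi, one_mul]; exact h1)
    have a2 : |(⟪p t * phi n, eP⟫_ℂ).re| ≤ ε * α :=
      (abs_re_le _ _).trans ((mul_le_of_le_one_left (norm_nonneg _) pφ).trans h2)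
    have a3 : |(⟪dag (p t) * phi n, eM⟫_ℂ).re| ≤ ε * α :=
      (abs_re_le _ _).trans ((mul_le_of_le_one_left (norm_nonneg _) pφ').trans h3)
    have a4 : |(⟪p' * phi n, Cp t⟫_ℂ).re| ≤ ω * ‖Cp t‖ :=
      (abs_re_le _ _).trans (mul_le_mul_of_nonneg_right hω (norm_nonneg _))
    have a5 : |(⟪dag p' * phi n, Cm t⟫_ℂ).re| ≤ ω * ‖Cm t‖ :=
      (abs_re_le _ _).trans (mul_le_mul_of_nonneg_right (by rw [norm_dag_mul]; exact hω) (norm_nonneg _))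
    have a6 : c * (‖Cp t‖ + ‖Cm t‖) ≤ √G * α := by
      refine le_trans (sqle ?_ (nr3_nonneg _ _ _)) nE
      rw [mul_pow, sq c, c2, nr3_sq]
      linarith only [add_sq_le' ‖Cp t‖ ‖Cm t‖, sq_nonneg ‖B t‖]
    have a7 := mul_le_mul_of_nonneg_left a6 ω0
    have a8 := mul_le_mul c1 ((abs_add_le _ _).trans (add_le_add a2 a3)) (abs_nonneg _) (by norm_num)
    have a9 := mul_le_mul_of_nonneg_left ((abs_add_le _ _).trans (add_le_add a4 a5)) c0.le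
    rw [hx]
    refine (abs_add_three _ _ _).trans ?_
    rw [abs_mul, abs_mul, abs_of_pos c0]
    linarith only [a1, a7, a8, a9]
  have zle : z ≤ 2 * (G * α) * (ε * α) := by
    have a1 := (le_abs_self _).trans ((abs_re_le (B t) eB).trans
      (mul_le_mul_of_nonneg_left h1 (norm_nonneg _)))
    have a2 := (le_abs_self _).trans ((abs_re_le (Cp t) eP).trans
      (mul_le_mul_of_nonneg_left h2 (norm_nonneg _)))
    have a3 := (le_abs_self _).trans ((abs_re_le (Cm t) eM).trans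
      (mul_le_mul_of_nonneg_left h3 (norm_nonneg _)))
    have a4 : ‖B t‖ + ‖Cp t‖ + ‖Cm t‖ ≤ 2 * nr3 (B t) (Cp t) (Cm t) := by
      refine sqle ?_ (mul_nonneg two_pos.le (nr3_nonneg _ _ _))
      rw [mul_pow, nr3_sq]
      linarith only [sq_nonneg (‖Cp t‖ - ‖Cm t‖), sq_nonneg (‖B t‖ - ‖Cm t‖), sq_nonneg (‖B t‖ - ‖Cp t‖),
        sq_nonneg ‖B t‖, sq_nonneg ‖Cp t‖, sq_nonneg ‖Cm t‖]
    have a5 : ‖B t‖ + ‖Cp t‖ + ‖Cm t‖ ≤ 2 * (G * α) := by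
      have := mul_le_mul_of_nonneg_right sG pos.le
      linarith only [nE, a4, this]
    have a6 := mul_le_mul_of_nonneg_right a5 (mul_nonneg ε0 pos.le)
    rw [hz]
    linarith only [a1, a2, a3, a6]
  obtain ⟨X, hX⟩ : ∃ X, X = (⟪p t * B t, Cp t⟫_ℂ).re + (⟪dag (p t) * B t, Cm t⟫_ℂ).re := ⟨_, rfl⟩
  rw [← hX] at k2
  replace dα : HD (fun t => al n (p t) (B t) (Cp t) (Cm t)) (√2 * s * α - √2 * s * q + x) t := by
    convert dα using 1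
    have dv : ∀ y : ℝ, y / √2 = y * c := fun y => by rw [hc, mul_one_div]
    rw [hα, hq, hx, al, dv, dv, cs]
    simp only [inner_add_right, add_re, re_smul_right, dd, (supp_phi n).inner_proj, inner_zero_left,
      zero_re, inner_mul_right (dag (p t)) (phi n), inner_mul_right (p t) (phi n), dag_dag]
    linear_combination (2 * s * ((⟪p t * phi n, Cp t⟫_ℂ).re + (⟪dag (p t) * phi n, Cm t⟫_ℂ).re)) * c2
  replace dE : HD (fun t => nr3 (B t) (Cp t) (Cm t) ^ 2) (2 * (2 * s * X + z)) t := by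
    convert dE using 2
    rw [hX, hz]
    simp only [inner_add_right, add_re, re_smul_right, sB.inner_proj,
      inner_mul_right (dag (p t)) (B t), inner_mul_right (p t) (B t), dag_dag,
      re_comm (Cp t) (p t * B t), re_comm (Cm t) (dag (p t) * B t)]
    ring
  refine ⟨_, (2 * (2 * s * X + z) * α ^ 2 - E * (2 * α * (√2 * s * α - √2 * s * q + x))) /
    (α ^ 2) ^ 2, dα, ?_, ?_, ?_⟩
  · convert dE.fun_div (dα.fun_pow 2) (by rw [← hα]; exact (pow_pos pos 2).ne') using 1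
    rw [← hα, ← hE']
    norm_num
  · rw [← hα]
    have a1 : |√2 * s * q| ≤ s / 10 * α := by
      rw [abs_mul, abs_of_pos (mul_pos s2_pos hs)]
      have := mul_le_mul (mul_le_mul_of_nonneg_right s2_hi hs.le) k1 (abs_nonneg _) (by positivity)
      linarith only [this]
    have a2 := mul_nonneg ε0 pos.le
    rw [abs_le] at a1 xle ⊢
    constructor <;> linarith only [a2, a1.1, a1.2, xle.1, xle.2]
  · rw [← hα, ← hE']
    have a6 : E / α ^ 2 * α ^ 2 = E := div_mul_cancel₀ _ (pow_pos pos 2).ne'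
    have E0 : 0 ≤ E := by rw [hE']; positivity
    have g0 : 0 ≤ E / α ^ 2 := by positivity
    have gG : E / α ^ 2 ≤ G := by rwa [div_le_iff₀ (pow_pos pos 2)]
    obtain ⟨g, hg'⟩ : ∃ g, g = E / α ^ 2 := ⟨_, rfl⟩
    rw [← hg'] at a6 g0 gG ⊢
    rw [← a6] at k2 ⊢
    exact real_g pos hs g0 gG ε0 k2 zle xle

end

end Pool.Agent.Work.MP_6bf1e5_an.Dec
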