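import Pool.Agent.Work.MP_6bf1e5_an.Dec.Coef
import Pool.Agent.Work.MP_6bf1e5_an.Dec.Modes

/-!
Solutions stay admissible; derivatives in time.
-/

open Set Complex
open scoped InnerProductSpace ComplexConjugate
open Pool.Agent.Work.MP_6bf1e5_an.B

namespace Pool.Agent.Work.MP_6bf1e5_an.Dec

noncomputable section

variable {Γ : Geo}

/-- Global solutions of the projected system. -/
def GSol (Γ : Geo) (ν : ℝ) (a : ℝ → Z3 → C3) : Prop :=
  ∀ T, @G.IsSol (G.pj (s := 1) (by norm_num) (neg_mem_SS (Γ := Γ) 1) (neg_mem_SS (Γ := Γ) (-1)))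
    (G.lapS ν) a 0 T

namespace SymAux

/-- `Sg` as a continuous linear map. -/
def SgL : C3 →L[ℂ] C3 :=
  LinearMap.toContinuousLinearMap
    { toFun := Sg
      map_add' := fun u v => by ext i; fin_cases i <;> simp [Sg]
      map_smul' := fun c v => by ext i; fin_cases i <;> simp [Sg] }

/-- `Rx` as a continuous linear map. -/
def RxL : C3 →L[ℂ] C3 :=
  LinearMap.toContinuousLinearMap
    { toFun := Rx
      map_add' := fun u v => by ext i; fin_cases i <;> simp [Rx] <;> ring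
      map_smul' := fun c v => by ext i; fin_cases i <;> simp [Rx] }

lemma SgL_apply (v : C3) : SgL v = Sg v := rfl

lemma RxL_apply (v : C3) : RxL v = Rx v := rfl

lemma Sg_add (u v : C3) : Sg (u + v) = Sg u + Sg v := map_add SgL u v

lemma Rx_add (u v : C3) : Rx (u + v) = Rx u + Rx v := map_add RxL u v

lemma Sg_smul (c : ℂ) (v : C3) : Sg (c • v) = c • Sg v := map_smul SgL c v

lemma Rx_smul (c : ℂ) (v : C3) : Rx (c • v) = c • Rx v := map_smul RxL c v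

lemma Sg_zero : Sg 0 = 0 := map_zero SgL

lemma Rx_zero : Rx 0 = 0 := map_zero RxL

lemma Sg_Sg (v : C3) : Sg (Sg v) = v := by ext i; fin_cases i <;> simp [Sg]

lemma Rx_Rx (v : C3) : Rx (Rx v) = v := by ext i; fin_cases i <;> simp [Rx]

lemma Sg_cj (v : C3) : Sg (cj v) = cj (Sg v) := by ext i; fin_cases i <;> simp [Sg]

lemma Rx_cj (v : C3) : Rx (cj v) = cj (Rx v) := by ext i; fin_cases i <;> simp [Rx]

lemma sw_sw (k : Z3) : swE (swE k) = k := by
  ext i; fin_cases i <;> simp [swE_apply]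

lemma rx_rx (k : Z3) : rxE (rxE k) = k := by
  ext i; fin_cases i <;> simp [rxE_apply]

lemma mz_mz (k : Z3) : mzE (mzE k) = k := by
  ext i; fin_cases i <;> simp [mzE_apply]

lemma rx_zero' (k : Z3) : rxE k 0 = k 0 := by simp [rxE_apply]

lemma sgn_add (m n : ℤ) : sgn (m + n) = sgn m * sgn n := by
  unfold sgn
  rcases Int.emod_two_eq_zero_or_one m with hm | hm <;>
    rcases Int.emod_two_eq_zero_or_one n with hn | hn <;>
    simp [Int.add_emod, hm, hn]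

lemma sgn_neg (m : ℤ) : sgn (-m) = sgn m := by
  unfold sgn
  have : (-m) % 2 = 0 ↔ m % 2 = 0 := by omega
  simp only [this]

lemma sgn_congr {m n : ℤ} (h : m % 2 = n % 2) : sgn m = sgn n := by
  unfold sgn; rw [h]

lemma sgn_mul_self (m : ℤ) : sgn m * sgn m = 1 := by
  unfold sgn; split_ifs <;> simp

lemma conj_sgn (m : ℤ) : conj (sgn m) = sgn m := by
  unfold sgn; split_ifs <;> simp

lemma norm_sgn (m : ℤ) : ‖sgn m‖ = 1 := by
  unfold sgn; split_ifs <;> simp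

lemma ch_congr {S S' : Set Z3} {k k' : Z3} (h : k ∈ S ↔ k' ∈ S') : G.ch S k = G.ch S' k' := by
  by_cases a : k ∈ S
  · rw [G.ch_mem a, G.ch_mem (h.mp a)]
  · rw [G.ch_not a, G.ch_not fun b => a (h.mpr b)]

lemma PS_Rx (k : Z3) (v : C3) : G.PS 1 (SS Γ 1) (SS Γ (-1)) (rxE k) (Rx v) =
    Rx (G.PS 1 (SS Γ 1) (SS Γ (-1)) k v) := by
  by_cases hk : k = 0
  · subst hk
    rw [map_zero, G.PS_zero, G.PS_zero]
  · have hk' : rxE k ≠ 0 := fun h => hk (rxE.injective (by rw [h, map_zero]))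
    rw [G.PS_apply hk, G.PS_apply hk', hP_Rx, hP_Rx, Rx_add, Rx_smul, Rx_smul,
      ch_congr (rx_mem_SS 1 k), ch_congr (rx_mem_SS (-1) k)]

lemma PS_Sg (k : Z3) (v : C3) : G.PS 1 (SS Γ 1) (SS Γ (-1)) (swE k) (Sg v) =
    Sg (G.PS 1 (SS Γ 1) (SS Γ (-1)) k v) := by
  by_cases hk : k = 0
  · subst hk
    rw [map_zero, G.PS_zero, G.PS_zero]
  · have hk' : swE k ≠ 0 := fun h => hk (swE.injective (by rw [h, map_zero]))
    have e1 := hP_Sg (-1) k v
    have e2 := sw_mem_SS (Γ := Γ) (-1) k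
    rw [neg_neg] at e1 e2
    rw [G.PS_apply hk, G.PS_apply hk', hP_Sg, e1, Sg_add, Sg_smul, Sg_smul,
      ch_congr (sw_mem_SS 1 k), ch_congr e2, add_comm]

lemma PS_cj (k : Z3) (v : C3) : G.PS 1 (SS Γ 1) (SS Γ (-1)) (-k) (cj v) =
    cj (G.PS 1 (SS Γ 1) (SS Γ (-1)) k v) :=
  (G.pj (s := 1) (by norm_num) (neg_mem_SS (Γ := Γ) 1) (neg_mem_SS (Γ := Γ) (-1))).real k v

/-- The data of a symmetry of the system. -/
structure IsSy [G.PJ] (χ : Z3 → ℂ) (R : C3 →L[ℂ] C3) (e : Z3 ≃+ Z3) : Prop where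
  mul : ∀ p q, χ (p + q) = χ p * χ q
  nrm : ∀ p, ‖χ p‖ = 1
  cnj : ∀ p, χ (-p) = conj (χ p)
  iso : ∀ v, ‖R v‖ = ‖v‖
  rcj : ∀ v, R (cj v) = cj (R v)
  axe : ∀ k, ax (e k) = ax k
  dte : ∀ v k, dt (R v) k = dt v (e k)
  lp : ∀ k v, G.LP k (R v) = R (G.LP (e k) v)

lemma Bd_comp {s : ℕ} {a b : Z3 → C3} {M : ℝ} (e : Z3 ≃+ Z3) (he : ∀ k, ax (e k) = ax k)
    (h : Bd s a M) (hb : ∀ k, ‖b k‖ = ‖a (e k)‖) : Bd s b M := fun F => by
  have := h (F.map e.toEquiv.toEmbedding)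
  rw [Finset.sum_map] at this
  refine le_of_eq_of_le (Finset.sum_congr rfl fun k _ => ?_) this
  rw [hb]
  simp [w, he]

lemma IsSy.BB [G.PJ] {χ : Z3 → ℂ} {R : C3 →L[ℂ] C3} {e : Z3 ≃+ Z3} (H : IsSy χ R e)
    {a : Z3 → C3} {M : ℝ} (ha : Bd 1 a M) (k : Z3) :
    BB (fun k => χ k • R (a (e k))) (fun k => χ k • R (a (e k))) k = χ k • R (BB a a (e k)) := by
  unfold B.BB
  rw [R.map_tsum (summable_BB_term (ha.mono (Nat.zero_le 1)) ha (e k)), ← tsum_const_smul'']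
  refine Eq.trans (tsum_congr fun p => ?_) (e.toEquiv.tsum_eq _)
  have e1 : χ k = χ p * χ (k - p) := by rw [← H.mul]; simp
  simp only [AddEquiv.toEquiv_eq_coe, EquivLike.coe_coe, dt_smul_left, H.dte, map_smul, map_sub,
    smul_smul, e1]
  congr 1
  ring

lemma IsSy.sol [G.PJ] {χ : Z3 → ℂ} {R : C3 →L[ℂ] C3} {e : Z3 ≃+ Z3} (H : IsSy χ R e) {ν : ℝ}
    {a : ℝ → Z3 → C3} {t0 t1 : ℝ} (ha : G.IsSol (G.lapS ν) a t0 t1) :
    G.IsSol (G.lapS ν) (fun t k => χ k • R (a t (e k))) t0 t1 := by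
  refine ⟨fun s => (ha.bd s).imp fun M hM t ht => Bd_comp e H.axe (hM t ht) fun k => ?_,
    fun t ht k => ?_, fun t ht k => ?_, fun k t ht => ?_⟩
  · rw [norm_smul, H.nrm, H.iso, one_mul]
  · simp only [map_neg]
    rw [ha.real t ht, H.rcj, cj_smul, H.cnj]
  · have := ha.div t ht (e k)
    unfold G.Fx at this ⊢
    rw [map_smul, H.lp, this]
  · obtain ⟨M, hM⟩ := ha.bd 1
    have d := ((R.restrictScalars ℝ).hasFDerivAt.comp_hasDerivWithinAt t
      (ha.deriv (e k) t ht)).const_smul (χ k)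
    refine d.congr_deriv ?_
    simp only [G.FF, H.BB (hM t ht), map_smul, H.lp, G.lapS_apply, H.axe,
      ContinuousLinearMap.coe_restrictScalars', map_sub, map_neg, smul_sub, smul_neg]

lemma isSy_x : @IsSy (G.pj (s := 1) (by norm_num) (neg_mem_SS (Γ := Γ) 1)
    (neg_mem_SS (Γ := Γ) (-1))) (fun k => sgn (k 0)) RxL rxE := by
  let _ := G.pj (s := 1) (by norm_num) (neg_mem_SS (Γ := Γ) 1) (neg_mem_SS (Γ := Γ) (-1))
  refine ⟨fun p q => sgn_add _ _, fun p => norm_sgn _, fun p => ?_, norm_Rx, Rx_cj, ax_rxE,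
    fun v k => ?_, fun k v => ?_⟩
  · rw [conj_sgn]; exact sgn_neg _
  · have := dt_Rx v (rxE k)
    rwa [rx_rx] at this
  · have := PS_Rx (Γ := Γ) (rxE k) v
    rwa [rx_rx] at this

lemma isSy_s : @IsSy (G.pj (s := 1) (by norm_num) (neg_mem_SS (Γ := Γ) 1)
    (neg_mem_SS (Γ := Γ) (-1))) (fun _ => 1) SgL swE := by
  let _ := G.pj (s := 1) (by norm_num) (neg_mem_SS (Γ := Γ) 1) (neg_mem_SS (Γ := Γ) (-1))
  refine ⟨fun p q => by simp, fun p => by simp, fun p => by simp, norm_Sg, Sg_cj, ax_swE,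
    fun v k => ?_, fun k v => ?_⟩
  · have := dt_Sg v (swE k)
    rwa [sw_sw] at this
  · have := PS_Sg (Γ := Γ) (swE k) v
    rwa [sw_sw] at this

lemma Icc_mem {t : ℝ} : Icc 0 (t + 1) ∈ nhdsWithin t (Ici 0) := by
  rw [← Ici_inter_Iic]
  exact inter_mem_nhdsWithin _ (Iic_mem_nhds (by linarith))

lemma pt_inj (ρ : Row) (e : ℤ) : Function.Injective (pt Γ ρ e) := fun h h' H => by
  have h0 := congrFun H 0
  have h1 := congrFun H 1
  have h2 := congrFun H 2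
  simp only [pt, Matrix.cons_val_zero, Matrix.cons_val_one, Matrix.cons_val] at h0 h1 h2
  ext i
  fin_cases i
  · change h 0 = h' 0; omega
  · change h 1 = h' 1; omega
  · change h 2 = h' 2; omega

end SymAux

open SymAux

variable {ν : ℝ} {a : ℝ → Z3 → C3}

theorem GSol.adm (hν : 0 < ν) (ha : GSol Γ ν a) (h0 : Adm Γ (a 0)) {t : ℝ} (ht : 0 ≤ t) :
    Adm Γ (a t) := by
  let _ := G.pj (s := 1) (by norm_num) (neg_mem_SS (Γ := Γ) 1) (neg_mem_SS (Γ := Γ) (-1))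
  have s := ha t
  have tm : t ∈ Icc 0 t := ⟨ht, le_rfl⟩
  refine ⟨s.rapid tm, s.real t tm, s.div t tm, ?_, fun k => ?_, fun k => ?_⟩
  · have d : ∀ x ∈ Icc 0 t, HasDerivWithinAt (fun t => a t 0) 0 (Icc 0 t) x := fun x hx => by
      have := s.deriv 0 x hx
      rwa [G.FF, BB_zero (s.div x hx).toB, map_zero, G.lapS_apply, ax_zero, neg_zero,
        zero_pow two_ne_zero, mul_zero, Complex.ofReal_zero, zero_smul, sub_zero] at this
    have := (convex_Icc 0 t).norm_image_sub_le_of_norm_hasDerivWithin_le (C := 0) d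
      (fun _ _ => by simp) (left_mem_Icc.mpr ht) tm
    rw [zero_mul, h0.zero, sub_zero] at this
    exact norm_le_zero_iff.mp this
  · have u := G.IsSol.unique (G.diss_lapS hν) (isSy_x.sol s) s (by
      funext k
      rw [h0.sym.sx, map_smul, RxL_apply, Rx_Rx, smul_smul, sgn_mul_self, one_smul]) t tm
    have := congrFun u (rxE k)
    simp only [rx_rx, rx_zero'] at this
    exact this.symm
  · have u := G.IsSol.unique (G.diss_lapS hν) (isSy_s.sol s) s (by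
      funext k
      rw [h0.sym.sg, SgL_apply, Sg_Sg, one_smul]) t tm
    have := congrFun u (swE k)
    simp only [sw_sw, one_smul] at this
    exact this.symm

theorem GSol.hd (ha : GSol Γ ν a) (k : Z3) {t : ℝ} (ht : 0 ≤ t) :
    HD (fun t => a t k) (rhs Γ ν (a t) k) t := by
  let _ := G.pj (s := 1) (by norm_num) (neg_mem_SS (Γ := Γ) 1) (neg_mem_SS (Γ := Γ) (-1))
  exact ((ha (t + 1)).deriv k t ⟨ht, by linarith⟩).mono_of_mem_nhdsWithin Icc_mem

theorem GSol.hd_En (hν : 0 < ν) (ha : GSol Γ ν a) (i : ℕ) {t : ℝ} (ht : 0 ≤ t) :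
    HD (fun t => En Γ i (a t)) (2 * QQ (cut Γ i) (a t) (rhs Γ ν (a t))) t := by
  let _ := G.pj (s := 1) (by norm_num) (neg_mem_SS (Γ := Γ) 1) (neg_mem_SS (Γ := Γ) (-1))
  have hm : Mult (cut Γ i) := mult_scalar (C := 1) (m := 0) zero_le_one fun k => by
    by_cases hk : k ∈ tail Γ i <;> simp [hk]
  exact ((ha (t + 1)).hasDeriv_QQ (G.diss_lapS hν) hm ⟨ht, by linarith⟩).mono_of_mem_nhdsWithin
    Icc_mem

theorem GSol.decay (ha : GSol Γ ν a) (tb : ℝ) :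
    ∃ K, ∀ j, ∀ t ∈ Icc 0 tb, Γ.lam j * ‖ampB Γ j (a t)‖ ≤ K := by
  let _ := G.pj (s := 1) (by norm_num) (neg_mem_SS (Γ := Γ) 1) (neg_mem_SS (Γ := Γ) (-1))
  obtain ⟨M, hM⟩ := (ha tb).bd 1
  refine ⟨2 * M, fun j t ht => ?_⟩
  have hl := lam_pos (Γ := Γ) j
  have h1 := hM t ht ((box (Γ.M j)).map ⟨_, pt_inj (Γ := Γ) (.b j) 1⟩)
  rw [Finset.sum_map] at h1
  calc Γ.lam j * ‖ampB Γ j (a t)‖ ≤ Γ.lam j * l1 (ampB Γ j (a t)) :=
        mul_le_mul_of_nonneg_left (norm_le_l1 _) hl.le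
    _ = ∑ h ∈ box (Γ.M j), Γ.lam j * ‖(ampB Γ j (a t)).coeff h‖ := by
        rw [l1_eq (f := ampB Γ j (a t)) (support_mk _ _), Finset.mul_sum]
    _ ≤ ∑ h ∈ box (Γ.M j), 2 * (w (pt Γ (.b j) 1 h) ^ 1 * ‖a t (pt Γ (.b j) 1 h)‖) := by
        refine Finset.sum_le_sum fun h hh => ?_
        have h2 := (ax_b (pt_mem_Orb (Γ := Γ) (ρ := .b j) (Or.inl rfl) hh)).1
        have h3 := ax_le_w (pt Γ (.b j) 1 h)
        have h4 : ‖(ampB Γ j (a t)).coeff h‖ ≤ ‖a t (pt Γ (.b j) 1 h)‖ := by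
          rw [ampB, coeff_mk, if_pos hh]
          refine (norm_inner_le_norm _ _).trans ?_
          rw [norm_e (ρ := .b j) trivial, one_mul]
        rw [pow_one, ← mul_assoc]
        exact mul_le_mul (by linarith) h4 (norm_nonneg _) (by linarith only [w_pos (pt Γ (.b j) 1 h)])
    _ ≤ 2 * M := by
        rw [← Finset.mul_sum]
        exact mul_le_mul_of_nonneg_left h1 (by norm_num)

end

end Pool.Agent.Work.MP_6bf1e5_an.Dec
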