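import Pool.Agent.Work.MP_6bf1e5_an.Dec.Amp
import Pool.Agent.Work.MP_6bf1e5_an.Dec.Symm

/-!
The initial data.
-/

open Set Complex
open scoped InnerProductSpace ComplexConjugate
open Pool.Agent.Work.MP_6bf1e5_an.B

namespace Pool.Agent.Work.MP_6bf1e5_an.Dec

noncomputable section

variable {Γ : Geo}

namespace DataAux

open SymAux

lemma Rz_smul (c : ℂ) (v : C3) : Rz (c • v) = c • Rz v := by
  ext i; fin_cases i <;> simp [Rz]

lemma Rz_add (u v : C3) : Rz (u + v) = Rz u + Rz v := by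
  ext i; fin_cases i <;> simp [Rz] <;> ring

lemma Rz_zero : Rz 0 = 0 := by
  ext i; fin_cases i <;> simp [Rz]

lemma Rz_eq (v : C3) : Rz v = Rx (Sg (Rx (Sg v))) := by
  ext i; fin_cases i <;> simp [Rz, Rx, Sg]

lemma mz_eq (k : Z3) : mzE k = rxE (swE (rxE (swE (-k)))) := by
  ext i; fin_cases i <;> simp [mzE_apply, rxE_apply, swE_apply]

lemma norm_Rz (v : C3) : ‖Rz v‖ = ‖v‖ := by
  rw [Rz_eq, norm_Rx, norm_Sg, norm_Rx, norm_Sg]

lemma hP_mz (s : ℝ) (k : Z3) (v : C3) : hP s (mzE k) (Rz (cj v)) = Rz (cj (hP s k v)) := by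
  have e1 := hP_Sg (-s) (rxE (swE (-k))) (Rx (Sg (cj v)))
  rw [neg_neg] at e1
  rw [mz_eq, Rz_eq, Rz_eq, hP_Rx, e1, hP_Rx, hP_Sg, hP_cj]

lemma hP_smul (s : ℝ) (k : Z3) (c : ℂ) (v : C3) : hP s k (c • v) = c • hP s k v :=
  map_smul (hPL s k) c v

lemma uu_sgn (s : ℝ) (k : Z3) (n : ℤ) (v : C3) : uu s k (sgn n • v) = sgn n • uu s k v := by
  rw [uu, uu, hP_smul, norm_smul, norm_sgn, one_mul, smul_comm]

lemma uu_Rx (s : ℝ) (k : Z3) (v : C3) : uu s (rxE k) (Rx v) = Rx (uu s k v) := by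
  rw [uu, uu, hP_Rx, norm_Rx, Rx_smul]

lemma uu_mz (s : ℝ) (k : Z3) (v : C3) : uu s (mzE k) (Rz (cj v)) = Rz (cj (uu s k v)) := by
  rw [uu, uu, hP_mz, norm_Rz, norm_cj, cj_smul, Rz_smul, Complex.conj_ofReal]

lemma hP_uu {s : ℝ} (hs : s = 1 ∨ s = -1) (k : Z3) (v : C3) : hP s k (uu s k v) = uu s k v := by
  have h : s * s = 1 := by rcases hs with rfl | rfl <;> norm_num
  rw [uu, hP_smul, hP_hP s h, h]
  norm_num

lemma inner_uu {s : ℝ} (hs : s = 1 ∨ s = -1) {k : Z3} {v : C3} (hv : hP s k v ≠ 0) :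
    ⟪v, uu s k v⟫_ℂ = 1 := by
  have h : s * s = 1 := by rcases hs with rfl | rfl <;> norm_num
  have e1 : hP s k (hP s k v) = hP s k v := by
    rw [hP_hP s h, h]; norm_num
  have e2 : ⟪v, hP s k v⟫_ℂ = ((‖hP s k v‖ ^ 2 : ℝ) : ℂ) := by
    rw [← e1, ← hP_sym, e1, inner_self_eq_norm_sq_to_K]; simp
  have e3 : ‖hP s k v‖ ^ 2 ≠ 0 := pow_ne_zero _ (norm_ne_zero_iff.mpr hv)
  rw [uu, inner_smul_right, e2, ← Complex.ofReal_mul, inv_mul_cancel₀ e3, Complex.ofReal_one]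

lemma hP_e_ne {ρ : Row} (ok : ρ.ok Γ) (h2 : ∀ j, ρ ≠ .y j 2) {h : Z3} (hh : h ∈ box (ρ.R Γ)) :
    hP ρ.s (pt Γ ρ 1 h) (ρ.e Γ) ≠ 0 := fun H => by
  have h1 := (uu_near ok h2 hh).1
  rw [H, zero_sub, norm_neg, norm_e ok] at h1
  have h3 : (1 : ℝ) < Γ.T ρ.lev := lt_of_lt_of_le (by norm_num) (Γ.Tbig ρ.lev)
  have h4 : 1 < Γ.T ρ.lev ^ 800 := one_lt_pow₀ h3 (by norm_num)
  linarith [inv_lt_one_of_one_lt₀ h4]

/-- The field with envelope `c` on the cell of a row in standard position. -/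
def cellF (Γ : Geo) (ρ : Row) (c : V) : Z3 → C3 :=
  Function.extend (pt Γ ρ 1) (fun h => c.coeff h • uu ρ.s (pt Γ ρ 1 h) (ρ.e Γ)) 0

lemma cellF_pt (ρ : Row) (c : V) (h : Z3) :
    cellF Γ ρ c (pt Γ ρ 1 h) = c.coeff h • uu ρ.s (pt Γ ρ 1 h) (ρ.e Γ) :=
  (pt_inj ρ 1).extend_apply _ _ _

lemma cellF_out (ρ : Row) (c : V) {k : Z3} (hk : ¬∃ h, pt Γ ρ 1 h = k) : cellF Γ ρ c k = 0 :=
  Function.extend_apply' _ _ _ hk

lemma cellF_ne {ρ : Row} {c : V} (hc : Supp (ρ.R Γ) c) {k : Z3} (hk : cellF Γ ρ c k ≠ 0) :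
    ∃ h ∈ box (ρ.R Γ), k = pt Γ ρ 1 h := by
  by_cases H : ∃ h, pt Γ ρ 1 h = k
  · obtain ⟨h, rfl⟩ := H
    refine ⟨h, ?_, rfl⟩
    by_contra hh
    rw [cellF_pt, hc h hh, zero_smul] at hk
    exact hk rfl
  · exact absurd (cellF_out ρ c H) hk

lemma mz_pt (ρ : Row) (e : ℤ) (h : Z3) : mzE (pt Γ ρ e h) = pt Γ ρ e (mzE h) := by
  ext i; fin_cases i <;> simp [mzE_apply, pt]

lemma rx_pt_b (j : ℕ) (h : Z3) : rxE (pt Γ (.b j) 1 h) = pt Γ (.b j) 1 (rxE h) := by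
  ext i; fin_cases i <;> simp [rxE_apply, pt, Row.W]

/-- Invariance under the half turn about the first axis. -/
def SX (f : Z3 → C3) : Prop := ∀ k, f (rxE k) = sgn (k 0) • Rx (f k)

/-- Invariance under the reflection of the third frequency. -/
def SM (f : Z3 → C3) : Prop := ∀ k, f (mzE k) = sgn (k 0 + k 1) • Rz (cj (f k))

/-- Retained fields. -/
def Fix (Γ : Geo) (f : Z3 → C3) : Prop := ∀ k, G.PS 1 (SS Γ 1) (SS Γ (-1)) k (f k) = f k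

lemma cellF_SM {ρ : Row} (ok : ρ.ok Γ) {c : V} (hc : ∀ h, c.coeff (mzE h) = conj (c.coeff h)) :
    SM (cellF Γ ρ c) := fun k => by
  by_cases H : ∃ h, pt Γ ρ 1 h = k
  · obtain ⟨h, rfl⟩ := H
    have e1 : sgn (pt Γ ρ 1 h 0 + pt Γ ρ 1 h 1) = sgn (ρ.X Γ + ρ.W Γ) :=
      sgn_congr (by simp only [pt, Matrix.cons_val_zero, Matrix.cons_val_one]; omega)
    rw [mz_pt, cellF_pt, cellF_pt, hc, ← mz_pt, cj_smul, Rz_smul, smul_comm, e1, ← uu_mz,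
      ← uu_sgn, e_real ok]
  · have H' : ¬∃ h, pt Γ ρ 1 h = mzE k := fun ⟨h, e⟩ =>
      H ⟨mzE h, by rw [← mz_pt, e, mz_mz]⟩
    rw [cellF_out ρ c H, cellF_out ρ c H', map_zero, Rz_zero, smul_zero]

lemma cellF_SX (j : ℕ) {c : V} (hc : ∀ h, c.coeff (rxE h) = c.coeff h) :
    SX (cellF Γ (.b j) c) := fun k => by
  by_cases H : ∃ h, pt Γ (.b j) 1 h = k
  · obtain ⟨h, rfl⟩ := H
    have e1 : sgn (pt Γ (.b j) 1 h 0) = sgn ((Row.b j).X Γ) :=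
      sgn_congr (by simp only [pt, Matrix.cons_val_zero]; omega)
    have e2 := e'_b (Γ := Γ) j
    rw [Row.e'] at e2
    rw [rx_pt_b, cellF_pt, cellF_pt, hc, ← rx_pt_b, Rx_smul, smul_comm, e1, ← uu_Rx,
      ← uu_sgn, e2]
  · have H' : ¬∃ h, pt Γ (.b j) 1 h = rxE k := fun ⟨h, e⟩ =>
      H ⟨rxE h, by rw [← rx_pt_b, e, rx_rx]⟩
    rw [cellF_out _ c H, cellF_out _ c H', Rx_zero, smul_zero]

lemma cellF_fix {ρ : Row} (ok : ρ.ok Γ) (h2 : ∀ j, ρ ≠ .y j 2) {c : V} (hc : Supp (ρ.R Γ) c) :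
    Fix Γ (cellF Γ ρ c) := fun k => by
  by_cases H : cellF Γ ρ c k = 0
  · rw [H, map_zero]
  · obtain ⟨h, hh, rfl⟩ := cellF_ne hc H
    have hk : pt Γ ρ 1 h ∈ Str Γ ρ := ⟨1, h, Or.inl rfl, hh, Or.inl rfl⟩
    obtain ⟨m1, m2⟩ := str_helicity ok h2 hk
    have e := hP_uu (row_s ρ) (pt Γ ρ 1 h) (ρ.e Γ)
    rw [cellF_pt, map_smul, G.PS_apply (ne_zero_of_Orb ok (Or.inl hk))]
    congr 1
    rcases row_s ρ with hs | hs
    · rw [hs] at m1 m2 e ⊢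
      rw [G.ch_mem m1, G.ch_not m2, e]; simp
    · rw [hs] at m1 m2 e ⊢
      rw [neg_neg] at m2
      rw [G.ch_mem m1, G.ch_not m2, e]; simp

/-- The image under the half turn. -/
def TX (f : Z3 → C3) (k : Z3) : C3 := sgn (k 0) • Rx (f (rxE k))

lemma SX_add_TX (f : Z3 → C3) : SX fun k => f k + TX f k := fun k => by
  simp only [TX, rx_rx, rx_zero', Rx_add, Rx_smul, Rx_Rx, smul_add, smul_smul, sgn_mul_self,
    one_smul]
  rw [add_comm]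

lemma SM.TX {f : Z3 → C3} (h : SM f) : SM (TX f) := fun k => by
  have e1 : rxE (mzE k) = mzE (rxE k) := by
    ext i; fin_cases i <;> simp [mzE_apply, rxE_apply]
  have e2 : sgn (rxE k 0 + rxE k 1) = sgn (k 0 + k 1) :=
    sgn_congr (by simp only [rxE_apply, Matrix.cons_val_zero, Matrix.cons_val_one]; omega)
  have e3 : mzE k 0 = k 0 := by simp [mzE_apply]
  have e4 : ∀ v, Rx (Rz (cj v)) = Rz (cj (Rx v)) := fun v => by
    ext i; fin_cases i <;> simp [Rz, Rx]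
  rw [DataAux.TX, DataAux.TX, e1, h, e2, e3, Rx_smul, e4, cj_smul, conj_sgn, Rz_smul, smul_comm]

lemma SX.add {f g : Z3 → C3} (hf : SX f) (hg : SX g) : SX fun k => f k + g k := fun k => by
  simp only [hf k, hg k, Rx_add, smul_add]

lemma SM.add {f g : Z3 → C3} (hf : SM f) (hg : SM g) : SM fun k => f k + g k := fun k => by
  simp only [hf k, hg k, map_add, Rz_add, smul_add]

lemma Fix.add {f g : Z3 → C3} (hf : Fix Γ f) (hg : Fix Γ g) : Fix Γ fun k => f k + g k :=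
  fun k => by simp only [map_add, hf k, hg k]

lemma Fix.TX {f : Z3 → C3} (hf : Fix Γ f) : Fix Γ (TX f) := fun k => by
  have := PS_Rx (Γ := Γ) (rxE k) (f (rxE k))
  rw [rx_rx, hf] at this
  rw [DataAux.TX, map_smul, this]

/-- Symmetrisation. -/
def symm (f : Z3 → C3) (k : Z3) : C3 :=
  f k + cj (f (-k)) + (Sg (f (swE k)) + cj (Sg (f (swE (-k)))))

lemma symm_real (f : Z3 → C3) : IsReal (symm f) := fun k => by
  simp only [symm, neg_neg, map_add, cj_cj]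
  abel

lemma symm_sg (f : Z3 → C3) (k : Z3) : symm f (swE k) = Sg (symm f k) := by
  simp only [symm, ← map_neg, sw_sw, Sg_add, Sg_Sg, Sg_cj]
  abel

lemma symm_fix {f : Z3 → C3} (hf : Fix Γ f) : Fix Γ (symm f) := fun k => by
  have e1 := PS_cj (Γ := Γ) (-k) (f (-k))
  have e2 : ∀ k, G.PS 1 (SS Γ 1) (SS Γ (-1)) k (Sg (f (swE k))) = Sg (f (swE k)) := fun k => by
    have := PS_Sg (Γ := Γ) (swE k) (f (swE k))
    rwa [sw_sw, hf] at this
  have e3 := PS_cj (Γ := Γ) (-k) (Sg (f (swE (-k))))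
  rw [neg_neg, hf] at e1
  rw [neg_neg, e2] at e3
  simp only [symm, map_add, hf k, e1, e2, e3]

lemma symm_sx {f : Z3 → C3} (hx : SX f) (hm : SM f) (k : Z3) :
    symm f (rxE k) = sgn (k 0) • Rx (symm f k) := by
  have e1 : ∀ k, Sg (f (swE (rxE k))) = sgn (k 0) • Rx (cj (Sg (f (swE (-k))))) := fun k => by
    have a1 : swE (rxE k) = rxE (mzE (swE (-k))) := by
      ext i; fin_cases i <;> simp [mzE_apply, rxE_apply, swE_apply]
    have a2 : sgn (mzE (swE (-k)) 0) * sgn (swE (-k) 0 + swE (-k) 1) = sgn (k 0) := by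
      rw [← sgn_add]
      exact sgn_congr (by
        simp only [mzE_apply, swE_apply, Matrix.cons_val_zero, Matrix.cons_val_one, Pi.neg_apply]
        omega)
    have a3 : ∀ v, Sg (Rx (Rz (cj v))) = Rx (cj (Sg v)) := fun v => by
      ext i; fin_cases i <;> simp [Rz, Rx, Sg]
    rw [a1, hx, hm, Rx_smul, smul_smul, a2, Sg_smul, a3]
  have e2 := e1 (-k)
  have e3 : sgn ((-k) 0) = sgn (k 0) := sgn_neg _
  rw [neg_neg, e3] at e2
  rw [symm, symm, ← map_neg, hx, hx, e1, e2, e3]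
  simp only [cj_smul, conj_sgn, ← Rx_cj, cj_cj, Rx_add, smul_add]
  abel

/-- The sector of the standard cells. -/
def sector : Set Z3 := {k | |k 1| < k 0}

lemma symm_eq {f : Z3 → C3} (hf : ∀ k, f k ≠ 0 → k ∈ sector) {k : Z3} (hk : k ∈ sector) :
    symm f k = f k := by
  have z : ∀ l, l ∉ sector → f l = 0 := fun l hl => by
    by_contra h; exact hl (hf l h)
  simp only [sector, mem_ofPred_eq, abs_lt] at hk z
  rw [symm, z (-k), z (swE k), z (swE (-k))]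
  · simp [Sg_zero]
  all_goals
    simp only [swE_apply, Matrix.cons_val_zero, Matrix.cons_val_one, Pi.neg_apply]
    omega

lemma symm_ne {f : Z3 → C3} {k : Z3} (hk : symm f k ≠ 0) :
    f k ≠ 0 ∨ f (-k) ≠ 0 ∨ f (swE k) ≠ 0 ∨ f (swE (-k)) ≠ 0 := by
  by_contra h
  push Not at h
  obtain ⟨h1, h2, h3, h4⟩ := h
  exact hk (by rw [symm, h1, h2, h3, h4]; simp [Sg_zero])

lemma size_M (j : ℕ) : 8 * (Γ.M (j + 1) + Γ.M j) < Γ.P j := by
  have h1 := Γ.Lhi j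
  have h2 := Γ.sep j
  have h3 : (100 : ℝ) ≤ Γ.T j := le_trans (by norm_num) (Γ.Tbig j)
  have h4 : (1 : ℝ) ≤ Γ.T j ^ 8 := one_le_pow₀ (by linarith only [h3])
  have h5 : 100 * Γ.T j ^ 8 ≤ Γ.T j ^ 900 := by
    calc 100 * Γ.T j ^ 8 ≤ Γ.T j * Γ.T j ^ 8 := by gcongr
      _ = Γ.T j ^ 9 := by ring
      _ ≤ _ := pow_le_pow_right₀ (by linarith only [h3]) (by norm_num)
  have h6 : (0 : ℝ) ≤ Γ.M j := Nat.cast_nonneg _
  have h7 : (Γ.M j + 1 : ℝ) * (100 * Γ.T j ^ 8) ≤ Γ.P j :=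
    le_trans (mul_le_mul_of_nonneg_left h5 (by linarith only [])) h2
  have : (8 : ℝ) * (Γ.M (j + 1) + Γ.M j) < Γ.P j := by nlinarith only [h1, h4, h7]
  exact_mod_cast this

lemma size_P (j : ℕ) : 3 * Γ.P j ≤ Γ.P (j + 1) := by
  have h3 : (100 : ℝ) ≤ Γ.T j := le_trans (by norm_num) (Γ.Tbig j)
  have h4 : Γ.T j ≤ Γ.T j ^ 8 := le_self_pow₀ (by linarith) (by norm_num)
  have h5 : (3 : ℝ) ≤ luc (Γ.n j - 1) := by rw [← Γ.T8]; linarith
  rw [Γ.Psucc]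
  exact Nat.mul_le_mul_right _ (by exact_mod_cast h5)

lemma pt_b_sector {j : ℕ} {h : Z3} (hh : h ∈ box (Γ.M j)) : pt Γ (.b j) 1 h ∈ sector := by
  have := size_M (Γ := Γ) j
  have h0 := abs_le.mp (mem_box'.mp hh 0)
  have h1 := abs_le.mp (mem_box'.mp hh 1)
  simp only [sector, mem_ofPred_eq, abs_lt, pt, Row.X, Row.W, Matrix.cons_val_zero,
    Matrix.cons_val_one]
  omega

lemma pt_c_sector {j : ℕ} {h : Z3} (hh : h ∈ box (Γ.M (j + 1) + Γ.M j)) :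
    pt Γ (.c j) 1 h ∈ sector ∧ 0 < pt Γ (.c j) 1 h 1 := by
  have := size_M (Γ := Γ) j
  have := size_P (Γ := Γ) j
  have h0 := abs_le.mp (mem_box'.mp hh 0)
  have h1 := abs_le.mp (mem_box'.mp hh 1)
  simp only [sector, mem_ofPred_eq, abs_lt, pt, Row.X, Row.W, Matrix.cons_val_zero,
    Matrix.cons_val_one]
  push_cast at h0 h1
  omega

lemma rx_sector {k : Z3} (h : rxE k ∈ sector) : k ∈ sector := by
  simpa [sector, rxE_apply] using h

lemma En_eq (i : ℕ) {d : Z3 → C3} (F : Finset Z3) (hF : ∀ k, d k ≠ 0 → k ∈ tail Γ i → k ∈ F) :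
    En Γ i d ≤ ∑ k ∈ F, ‖d k‖ ^ 2 := by
  unfold En QQ cut
  rw [tsum_eq_sum (s := F)]
  · refine Finset.sum_le_sum fun k _ => ?_
    rw [re_inner_scalar, re_inner_self]
    by_cases hk : k ∈ tail Γ i <;> simp [hk]
  · intro k hk
    rw [re_inner_scalar, re_inner_self]
    by_cases h1 : d k = 0
    · simp [h1]
    · have : k ∉ tail Γ i := fun h2 => hk (hF k h1 h2)
      simp [this]

lemma En_nonneg (i : ℕ) (d : Z3 → C3) : 0 ≤ En Γ i d := by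
  unfold En QQ cut
  refine tsum_nonneg fun k => ?_
  rw [re_inner_scalar, re_inner_self]
  by_cases hk : k ∈ tail Γ i <;> simp [hk]

section

variable (Γ) (c0 c1 c2 : V)

/-- The data on the standard sector. -/
def base (k : Z3) : C3 :=
  cellF Γ (.b 0) c0 k + cellF Γ (.b 1) c1 k + (cellF Γ (.c 0) c2 k + TX (cellF Γ (.c 0) c2) k)

variable {Γ c0 c1 c2}

lemma TX_ne {f : Z3 → C3} {k : Z3} (h : TX f k ≠ 0) : f (rxE k) ≠ 0 := fun H =>
  h (by rw [TX, H, Rx_zero, smul_zero])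

variable (s0 : Supp (Γ.M 0) c0) (s1 : Supp (Γ.M 1) c1) (s2 : Supp (Γ.M 1 + Γ.M 0) c2)

include s0 s1 s2

lemma base_ne {k : Z3} (hk : base Γ c0 c1 c2 k ≠ 0) :
    (∃ h ∈ box (Γ.M 0), k = pt Γ (.b 0) 1 h) ∨ (∃ h ∈ box (Γ.M 1), k = pt Γ (.b 1) 1 h) ∨
      (∃ h ∈ box (Γ.M 1 + Γ.M 0), k = pt Γ (.c 0) 1 h) ∨
      ∃ h ∈ box (Γ.M 1 + Γ.M 0), rxE k = pt Γ (.c 0) 1 h := by
  by_cases a0 : cellF Γ (.b 0) c0 k = 0
  · by_cases a1 : cellF Γ (.b 1) c1 k = 0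
    · by_cases a2 : cellF Γ (.c 0) c2 k = 0
      · refine Or.inr (Or.inr (Or.inr (cellF_ne (ρ := .c 0) s2 (TX_ne fun a3 => hk ?_))))
        rw [base, a0, a1, a2, a3]; simp
      · exact Or.inr (Or.inr (Or.inl (cellF_ne (ρ := .c 0) s2 a2)))
    · exact Or.inr (Or.inl (cellF_ne (ρ := .b 1) s1 a1))
  · exact Or.inl (cellF_ne (ρ := .b 0) s0 a0)

lemma base_sector (k : Z3) (hk : base Γ c0 c1 c2 k ≠ 0) : k ∈ sector := by
  rcases base_ne s0 s1 s2 hk with ⟨h, hh, rfl⟩ | ⟨h, hh, rfl⟩ | ⟨h, hh, rfl⟩ | ⟨h, hh, e⟩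
  · exact pt_b_sector hh
  · exact pt_b_sector hh
  · exact (pt_c_sector (j := 0) hh).1
  · exact rx_sector (e ▸ (pt_c_sector (j := 0) hh).1)

lemma base_orb {k : Z3} (hk : base Γ c0 c1 c2 k ≠ 0) :
    k ∈ Orb Γ (.b 0) ∨ k ∈ Orb Γ (.b 1) ∨ k ∈ Orb Γ (.c 0) := by
  rcases base_ne s0 s1 s2 hk with ⟨h, hh, rfl⟩ | ⟨h, hh, rfl⟩ | ⟨h, hh, rfl⟩ | ⟨h, hh, e⟩
  · exact Or.inl (pt_mem_Orb (ρ := .b 0) (Or.inl rfl) hh)
  · exact Or.inr (Or.inl (pt_mem_Orb (ρ := .b 1) (Or.inl rfl) hh))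
  · exact Or.inr (Or.inr (pt_mem_Orb (ρ := .c 0) (Or.inl rfl) hh))
  · exact Or.inr (Or.inr (Or.inl (rx_mem_Str.mp ⟨1, h, Or.inl rfl, hh, Or.inl e⟩)))

lemma symm_orb {k : Z3} (hk : symm (base Γ c0 c1 c2) k ≠ 0) :
    k ∈ Orb Γ (.b 0) ∨ k ∈ Orb Γ (.b 1) ∨ k ∈ Orb Γ (.c 0) := by
  rcases symm_ne hk with h | h | h | h <;>
    simpa only [neg_mem_Orb, sw_mem_Orb] using base_orb s0 s1 s2 h

lemma base_finite : {k | base Γ c0 c1 c2 k ≠ 0}.Finite := by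
  refine ((((box (Γ.M 0)).finite_toSet.image (pt Γ (.b 0) 1)).union
    ((box (Γ.M 1)).finite_toSet.image (pt Γ (.b 1) 1))).union
    (((box (Γ.M 1 + Γ.M 0)).finite_toSet.image (pt Γ (.c 0) 1)).union
    ((box (Γ.M 1 + Γ.M 0)).finite_toSet.image fun h => rxE (pt Γ (.c 0) 1 h)))).subset
    fun k hk => ?_
  rcases base_ne s0 s1 s2 hk with ⟨h, hh, e⟩ | ⟨h, hh, e⟩ | ⟨h, hh, e⟩ | ⟨h, hh, e⟩
  · exact Or.inl (Or.inl ⟨h, hh, e.symm⟩)
  · exact Or.inl (Or.inr ⟨h, hh, e.symm⟩)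
  · exact Or.inr (Or.inl ⟨h, hh, e.symm⟩)
  · exact Or.inr (Or.inr ⟨h, hh, by simp only [← e, rx_rx]⟩)

lemma symm_finite : {k | symm (base Γ c0 c1 c2) k ≠ 0}.Finite := by
  have h := base_finite s0 s1 s2
  refine ((h.union (h.image fun k => -k)).union
    ((h.image swE).union (h.image fun k => -swE k))).subset fun k hk => ?_
  rcases symm_ne hk with e | e | e | e
  · exact Or.inl (Or.inl e)
  · exact Or.inl (Or.inr ⟨_, e, neg_neg k⟩)
  · exact Or.inr (Or.inl ⟨_, e, sw_sw k⟩)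
  · exact Or.inr (Or.inr ⟨_, e, by simp only [sw_sw, neg_neg]⟩)

omit s0 s1 s2 in
lemma cell_other {ρ ρ' : Row} (ok : ρ.ok Γ) (ok' : ρ'.ok Γ) (ne : ρ ≠ ρ') {c : V}
    (hc : Supp (ρ.R Γ) c) {k : Z3} (hk : k ∈ Orb Γ ρ') : cellF Γ ρ c k = 0 := by
  by_contra H
  obtain ⟨h, hh, rfl⟩ := cellF_ne hc H
  exact ne (row_unique ok ok' (pt_mem_Orb (Or.inl rfl) hh) hk)

omit s0 s1 s2 in
lemma TX_other {ρ ρ' : Row} (ok : ρ.ok Γ) (ok' : ρ'.ok Γ) (ne : ρ ≠ ρ') {c : V}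
    (hc : Supp (ρ.R Γ) c) {k : Z3} (hk : k ∈ Str Γ ρ') : TX (cellF Γ ρ c) k = 0 := by
  rw [TX, cell_other ok ok' ne hc (Or.inl (rx_mem_Str.mpr hk)), Rx_zero, smul_zero]

lemma ampB0 : ampB Γ 0 (symm (base Γ c0 c1 c2)) = c0 := by
  rw [eq_mk s0.subset]
  ext h
  rw [ampB, coeff_mk, coeff_mk]
  split_ifs with hh
  · have hk : pt Γ (.b 0) 1 h ∈ Str Γ (.b 0) := ⟨1, h, Or.inl rfl, hh, Or.inl rfl⟩
    rw [← eq_mk s0.subset, symm_eq (base_sector s0 s1 s2) (pt_b_sector hh), base,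
      cell_other (ρ := .b 1) (ρ' := .b 0) trivial trivial (by simp) s1 (Or.inl hk),
      cell_other (ρ := .c 0) (ρ' := .b 0) trivial trivial (by simp) s2 (Or.inl hk),
      TX_other (ρ := .c 0) (ρ' := .b 0) trivial trivial (by simp) s2 hk, cellF_pt]
    simp only [add_zero]
    rw [inner_smul_right, inner_uu (row_s _) (hP_e_ne (ρ := .b 0) trivial (by simp) hh), mul_one]
  · rfl

lemma ampB1 : ampB Γ 1 (symm (base Γ c0 c1 c2)) = c1 := by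
  rw [eq_mk s1.subset]
  ext h
  rw [ampB, coeff_mk, coeff_mk]
  split_ifs with hh
  · have hk : pt Γ (.b 1) 1 h ∈ Str Γ (.b 1) := ⟨1, h, Or.inl rfl, hh, Or.inl rfl⟩
    rw [← eq_mk s1.subset, symm_eq (base_sector s0 s1 s2) (pt_b_sector hh), base,
      cell_other (ρ := .b 0) (ρ' := .b 1) trivial trivial (by simp) s0 (Or.inl hk),
      cell_other (ρ := .c 0) (ρ' := .b 1) trivial trivial (by simp) s2 (Or.inl hk),
      TX_other (ρ := .c 0) (ρ' := .b 1) trivial trivial (by simp) s2 hk, cellF_pt]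
    simp only [add_zero, zero_add]
    rw [inner_smul_right, inner_uu (row_s _) (hP_e_ne (ρ := .b 1) trivial (by simp) hh), mul_one]
  · rfl

lemma ampP1 : ampP Γ 1 (symm (base Γ c0 c1 c2)) = (rho Γ 0 : ℂ) • c2 := by
  rw [eq_mk (s2.smul _).subset]
  ext h
  rw [ampP, coeff_mk, coeff_mk]
  split_ifs with hh
  · have hk : pt Γ (.c 0) 1 h ∈ Str Γ (.c 0) := ⟨1, h, Or.inl rfl, hh, Or.inl rfl⟩
    have hx : TX (cellF Γ (.c 0) c2) (pt Γ (.c 0) 1 h) = 0 := by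
      by_contra H
      obtain ⟨g, hg, e⟩ := cellF_ne (ρ := .c 0) s2 (TX_ne H)
      have a1 := (pt_c_sector (j := 0) hh).2
      have a2 := (pt_c_sector (j := 0) hg).2
      rw [← e] at a2
      simp only [rxE_apply, Matrix.cons_val_one, Matrix.cons_val_zero] at a2
      omega
    rw [symm_eq (base_sector s0 s1 s2) (pt_c_sector (j := 0) hh).1, base,
      cell_other (ρ := .b 0) (ρ' := .c 0) trivial trivial (by simp) s0 (Or.inl hk),
      cell_other (ρ := .b 1) (ρ' := .c 0) trivial trivial (by simp) s1 (Or.inl hk),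
      hx, cellF_pt]
    simp only [add_zero, zero_add]
    rw [inner_smul_right, inner_uu (row_s _) (hP_e_ne (ρ := .c 0) trivial (by simp) hh), mul_one]
    simp
  · rfl

lemma symm_adm (y0 : Sym c0) (y1 : Sym c1) (y2 : ∀ h, c2.coeff (mzE h) = conj (c2.coeff h)) :
    Adm Γ (symm (base Γ c0 c1 c2)) := by
  have m2 := cellF_SM (Γ := Γ) (ρ := .c 0) trivial y2
  have f2 := cellF_fix (Γ := Γ) (ρ := .c 0) trivial (by simp) s2
  refine ⟨G.rapid_of_finite (symm_finite s0 s1 s2), symm_real _, symm_fix ?_, ?_,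
    symm_sx ?_ ?_, symm_sg _⟩
  · exact ((cellF_fix (ρ := .b 0) trivial (by simp) s0).add
      (cellF_fix (ρ := .b 1) trivial (by simp) s1)).add (f2.add f2.TX)
  · by_contra H
    rcases symm_orb s0 s1 s2 H with h | h | h
    · exact ne_zero_of_Orb (ρ := .b 0) trivial h rfl
    · exact ne_zero_of_Orb (ρ := .b 1) trivial h rfl
    · exact ne_zero_of_Orb (ρ := .c 0) trivial h rfl
  · exact ((cellF_SX 0 y0.1).add (cellF_SX 1 y1.1)).add (SX_add_TX _)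
  · exact ((cellF_SM (ρ := .b 0) trivial y0.2).add (cellF_SM (ρ := .b 1) trivial y1.2)).add
      (m2.add m2.TX)

end

lemma sym_smul_phi (r : ℝ) (n : ℕ) : Sym ((r : ℂ) • phi n) :=
  ⟨fun h => by simp [(sym_phi n).1 h], fun h => by simp [(sym_phi n).2 h]⟩

lemma norm_smul_phi (r : ℝ) (n : ℕ) : ‖(r : ℂ) • phi n‖ ^ 2 = r ^ 2 := by
  rw [norm_smul, norm_phi, mul_one, Complex.norm_real, Real.norm_eq_abs, sq_abs]

end DataAux

open DataAux

theorem exists_data (Γ : Geo) {a0 : ℝ} (ha : 0 < a0) : ∃ d : Z3 → C3,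
    {k | d k ≠ 0}.Finite ∧ Adm Γ d ∧ ampB Γ 0 d = (a0 : ℂ) • phi (Γ.M 0) ∧
    ampB Γ 1 d = ((a0 / (2 * (Γ.M 0 + 1)) : ℝ) : ℂ) • phi (Γ.M 1) ∧
    ampP Γ 1 d = ((a0 / (2 * (Γ.M 0 + 1)) / √2 : ℝ) : ℂ) • phi (Γ.M 1) ∧
    En Γ 0 d ≤ 100 * a0 ^ 2 ∧ En Γ 1 d ≤ 100 * (a0 / (Γ.M 0 + 1)) ^ 2 ∧ En Γ 2 d = 0 := by
  classical
  have hρ : 0 < rho Γ 0 := lt_of_lt_of_le (by norm_num) (rho_bounds (Γ := Γ) 0).1
  set b0 : ℝ := a0 / (2 * (Γ.M 0 + 1)) with hb0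
  have s0 := (supp_phi (Γ.M 0)).smul (a0 : ℂ)
  have s1 := (supp_phi (Γ.M 1)).smul (b0 : ℂ)
  have s2 := ((supp_phi (Γ.M 1)).smul ((b0 / √2 / rho Γ 0 : ℝ) : ℂ)).mono
    (Nat.le_add_right _ (Γ.M 0))
  have fin := symm_finite s0 s1 s2
  have adm := symm_adm s0 s1 s2 (sym_smul_phi _ _) (sym_smul_phi _ _) (sym_smul_phi _ _).2
  have orb := fun k => symm_orb s0 s1 s2 (k := k)
  have B0 := ampB0 s0 s1 s2
  have B1 := ampB1 s0 s1 s2
  have P1 := ampP1 s0 s1 s2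
  rw [smul_smul, ← Complex.ofReal_mul, mul_div_cancel₀ _ hρ.ne'] at P1
  generalize symm (base Γ _ _ _) = d at fin adm orb B0 B1 P1
  have n0 : nrA Γ 0 d ^ 2 = a0 ^ 2 := by
    rw [nrA, nr3, Real.sq_sqrt (by (clear * -; positivity)), B0, norm_smul_phi, ampM, norm_prm, ampP]
    simp
  have n1 : nrA Γ 1 d ^ 2 = 2 * b0 ^ 2 := by
    rw [nrA, nr3, Real.sq_sqrt (by (clear * -; positivity)), B1, norm_smul_phi, ampM, norm_prm, P1,
      norm_smul_phi, div_pow b0, Real.sq_sqrt (by norm_num)]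
    ring
  have L0 := adm.sum_Lv (i := 0) (fin.toFinset.filter fun k => k ∈ Lv Γ 0)
    fun k hk => (Finset.mem_filter.mp hk).2
  have L1 := adm.sum_Lv (i := 1) (fin.toFinset.filter fun k => k ∉ Lv Γ 0) fun k hk => by
    obtain ⟨h1, h2⟩ := Finset.mem_filter.mp hk
    exact (orb k (by simpa using h1)).resolve_left h2
  have hM : (1 : ℝ) ≤ Γ.M 0 + 1 := by linarith only [Nat.cast_nonneg (α := ℝ) (Γ.M 0)]
  have e1 : 2 * b0 = a0 / (Γ.M 0 + 1) := by rw [hb0]; field_simp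
  have e2 : a0 / (Γ.M 0 + 1) ≤ a0 := div_le_self ha.le hM
  have e3 : 0 < b0 := by positivity
  refine ⟨d, fin, adm, B0, B1, P1, ?_, ?_, le_antisymm ?_ (En_nonneg _ _)⟩
  · have := En_eq (Γ := Γ) 0 (d := d) fin.toFinset fun k hk _ => by simpa using hk
    rw [← Finset.sum_filter_add_sum_filter_not _ fun k => k ∈ Lv Γ 0] at this
    nlinarith only [n0, n1, L0, L1, e1, e2, e3, this]
  · have := En_eq (Γ := Γ) 1 (d := d) (fin.toFinset.filter fun k => k ∉ Lv Γ 0) fun k hk ht =>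
      Finset.mem_filter.mpr ⟨by simpa using hk, fun h => by simpa using (tail_b (j := 0) h).mp ht⟩
    rw [← e1]
    nlinarith only [n1, L1, this]
  · have := En_eq (Γ := Γ) 2 (d := d) ∅ fun k hk ht => by
      rcases orb k hk with h | h | h
      · simpa using (tail_b h).mp ht
      · simpa using (tail_b h).mp ht
      · simpa using (tail_c h).mp ht
    simpa using this

end

end Pool.Agent.Work.MP_6bf1e5_an.Dec
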