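import Mathlib

/-!
The parameters of the cascade.
-/

namespace Pool.Agent.Work.MP_6bf1e5_an.Dec

noncomputable section

/-- Lucas numbers. -/
def luc : ℕ → ℕ
  | 0 => 2
  | 1 => 1
  | k + 2 => luc (k + 1) + luc k

/-- Box radii `M`, carrier frequencies `P`, chain lengths `n` and the large parameters `T`. -/
structure Geo where
  /-- Box radii. -/
  M : ℕ → ℕ
  /-- Carrier frequencies. -/
  P : ℕ → ℕ
  /-- Chain lengths. -/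
  n : ℕ → ℕ
  /-- Eighth roots of the frequency ratios. -/
  T : ℕ → ℝ
  odd0 : P 0 % 2 = 1
  Psucc : ∀ j, P (j + 1) = luc (n j - 1) * P j
  nmod : ∀ j, n j % 6 = 2
  n8 : ∀ j, 8 ≤ n j
  nT : ∀ j, (n j : ℝ) ≤ T j
  T8 : ∀ j, T j ^ 8 = luc (n j - 1)
  Tbig : ∀ j, (10 : ℝ) ^ 100 ≤ T j
  Tmono : ∀ j, T j ≤ T (j + 1)
  Tdbl : ∀ j, T (j + 1) ≤ 2 * T j
  Mlo : ∀ j, Real.exp (T j ^ 9 / 2) ≤ M j + 1
  Mhi : ∀ j, (M j + 1 : ℝ) ≤ Real.exp (30 * T j ^ 9)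
  Llo : ∀ j, T j ^ 8 / 4 * (M j + 1) ≤ M (j + 1) + 1
  Lhi : ∀ j, (M (j + 1) + 1 : ℝ) ≤ T j ^ 8 / 2 * (M j + 1)
  sep : ∀ j, (M j + 1) * T j ^ 900 ≤ P j

/-- The wave number of level `j`. -/
def Geo.lam (G : Geo) (j : ℕ) : ℝ := 2 * Real.pi * G.P j

end

end Pool.Agent.Work.MP_6bf1e5_an.Dec
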