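import Pool.Agent.Work.MP_6bf1e5_an.Dec.Tool
import Pool.Agent.Work.MP_6bf1e5_an.Dec.Geo

/-!
The ground state, drivers, and the envelope system.
-/

open Set Complex
open scoped InnerProductSpace ComplexConjugate
open Pool.Agent.Work.MP_6bf1e5_an.B (Z3 R3 box)

namespace Pool.Agent.Work.MP_6bf1e5_an.Dec

noncomputable section

/-- Derivative on the half line of nonnegative times. -/
abbrev HD {E : Type} [NormedAddCommGroup E] [NormedSpace ℝ E] (f : ℝ → E) (f' : E) (t : ℝ) : Prop :=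
  HasDerivWithinAt f f' (Ici 0) t

/-- The frequency of the ground state of the box of radius `n`. -/
def th (n : ℕ) : ℝ := Real.pi / (2 * (n + 1))

/-- The normalised ground state of the box of radius `n`. -/
def phi (n : ℕ) : V :=
  mk (box n) fun h => (((NN n)⁻¹ * ∏ i, Real.cos (th n * h i) : ℝ) : ℂ)

/-- The period cube. -/
def cube : Set R3 := Icc (fun _ => -Real.pi) (fun _ => Real.pi)

/-- The squared length. -/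
def sq3 (x : R3) : ℝ := ∑ i, x i ^ 2

/-- The size of the loss at the ground state. -/
def mu (m n : ℕ) : ℝ := ((m + 1) * th n) ^ 2

/-- The loss of norm under convolution with `p`. -/
def Qf (p y : V) : ℝ := ‖y‖ ^ 2 - ‖p * y‖ ^ 2

/-- The two symmetries of the envelopes `B`. -/
def Sym (f : V) : Prop :=
  (∀ h, f.coeff (rxE h) = f.coeff h) ∧ ∀ h, f.coeff (mzE h) = conj (f.coeff h)

/-- The normalised driver. -/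
def pk (B : V) : V := (ev 0 B)⁻¹ • sw B

/-- Properties of a normalised driver supported in the box of radius `m`. -/
structure Drv (m : ℕ) (p : V) : Prop where
  supp : Supp m p
  one : ev 0 p = 1
  l1_le : l1 p ≤ 2
  norm_le : ‖p‖ ≤ 3 / NN m
  sy1 : ∀ h : Z3, p.coeff ![-h 0, h 1, -h 2] = p.coeff h
  sy2 : ∀ h, p.coeff (mzE h) = conj (p.coeff h)
  far : ∀ x ∈ cube, ‖ev x p‖ ^ 2 ≤ 1 - 1 / 10 ^ 6 * min 1 ((m + 1) ^ 2 * sq3 x)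
  near : ∀ x, 1 - ‖ev x p‖ ^ 2 ≤ 50 * ((m + 1) ^ 2 * sq3 x)

/-- Spectral gap of the convolution with `p` on the box of radius `n`. -/
def Gap (m n : ℕ) (η : ℝ) (p : V) : Prop :=
  ∃ μ : ℝ, 0 ≤ μ ∧ μ ≤ 30 * mu m n ∧ Qf p (phi n) ≤ μ + η * mu m n ∧
    ∀ y, Supp n y →
      μ * ‖y‖ ^ 2 + 1 / 10 ^ 6 * mu m n * (‖y‖ ^ 2 - ‖⟪phi n, y⟫_ℂ‖ ^ 2) ≤ Qf p y

/-- The norm of a triple. -/
def nr3 (B Cp Cm : V) : ℝ := √(‖B‖ ^ 2 + ‖Cp‖ ^ 2 + ‖Cm‖ ^ 2)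

/-- The component of a triple along the unstable direction of the driver `p`. -/
def al (n : ℕ) (p B Cp Cm : V) : ℝ :=
  (⟪phi n, B⟫_ℂ).re + ((⟪p * phi n, Cp⟫_ℂ).re + (⟪dag p * phi n, Cm⟫_ℂ).re) / √2

/-- The majorant of the errors in the strain terms. -/
def maj (A B Cp Cm : V) : V := (av A + av (dag A)) * (av B + av Cp + av Cm)

/-- The unknowns of the envelope system. -/
structure Raw where
  /-- Strain coefficients. -/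
  kap : ℕ → ℝ
  /-- Envelope of the positive packet. -/
  B : ℕ → ℝ → V
  /-- Envelope of the upper negative packet. -/
  Cp : ℕ → ℝ → V
  /-- Envelope of the lower negative packet. -/
  Cm : ℕ → ℝ → V
  /-- Chain amplitudes. -/
  y : ℕ → ℕ → ℝ → ℝ
  /-- `E i` is the energy beyond the packets of level `i - 1`. -/
  E : ℕ → ℝ → ℝ
  /-- The seed. -/
  f : ℕ → ℝ → ℝ
  /-- Dissipation rates. -/
  dB : ℕ → Z3 → ℝ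
  /-- Dissipation rates. -/
  dP : ℕ → Z3 → ℝ
  /-- Dissipation rates. -/
  dM : ℕ → Z3 → ℝ
  /-- Chain coefficients. -/
  c : ℕ → ℕ → ℝ
  /-- Chain dissipation rates. -/
  d : ℕ → ℕ → ℝ

/-- The norm of level `j`. -/
def Raw.nr (R : Raw) (j : ℕ) (t : ℝ) : ℝ := nr3 (R.B j t) (R.Cp j t) (R.Cm j t)

/-- The driver of level `j + 1`. -/
def Raw.A (R : Raw) (j : ℕ) (t : ℝ) : V := sw (R.B j t)

/-- Admissible errors in the equations of level `j + 1`. -/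
structure Raw.Err (R : Raw) (G : Geo) (j : ℕ) (t : ℝ) (e r : V) : Prop where
  pt : ∀ h, ‖e.coeff h‖ ≤ (G.T j ^ 100)⁻¹ * R.kap j *
    ‖(maj (R.A j t) (R.B (j + 1) t) (R.Cp (j + 1) t) (R.Cm (j + 1) t)).coeff h‖
  se : Supp (G.M (j + 1) + G.M j) e
  sr : Supp (G.M (j + 1) + G.M j) r
  nrm : ‖r‖ ≤ 10 ^ 4 * G.lam (j + 1) *
    (√(R.E (j + 2) t) * R.nr (j + 1) t + NN (G.M (j + 1)) * R.nr (j + 2) t ^ 2)

/-- The envelope system with viscosity `ν` and initial amplitude `a0`. -/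
structure IsNet (G : Geo) (ν a0 : ℝ) (R : Raw) : Prop where
  kap_lo : ∀ j, G.lam j / 4 ≤ R.kap j
  kap_hi : ∀ j, R.kap j ≤ G.lam j
  suppB : ∀ j t, Supp (G.M j) (R.B j t)
  suppP : ∀ j t, Supp (G.M (j + 1) + G.M j) (R.Cp (j + 1) t)
  suppM : ∀ j t, Supp (G.M (j + 1) + G.M j) (R.Cm (j + 1) t)
  zeroP : ∀ t, R.Cp 0 t = 0
  zeroM : ∀ t, R.Cm 0 t = 0
  sym : ∀ j t, 0 ≤ t → Sym (R.B j t)
  dB_lo : ∀ j h, ν * G.lam j ^ 2 / 2 ≤ R.dB j h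
  dB_hi : ∀ j h, R.dB j h ≤ 4 * (ν * G.lam j ^ 2)
  dP_lo : ∀ j h, ν * G.lam j ^ 2 / 2 ≤ R.dP j h
  dP_hi : ∀ j h, R.dP j h ≤ 4 * (ν * G.lam j ^ 2)
  dM_lo : ∀ j h, ν * G.lam j ^ 2 / 2 ≤ R.dM j h
  dM_hi : ∀ j h, R.dM j h ≤ 4 * (ν * G.lam j ^ 2)
  dPM : ∀ j, R.dP j 0 = R.dM j 0
  eqB0 : ∀ t, 0 ≤ t → ∃ D, HD (R.B 0) D t ∧ ‖D‖ ≤ 4 * (ν * G.lam 0 ^ 2) * ‖R.B 0 t‖ +
    10 ^ 4 * G.lam 0 * (√(R.E 1 t) * R.nr 0 t + NN (G.M 0) * R.nr 1 t ^ 2)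
  eqB : ∀ j t, 0 ≤ t → ∃ e r, R.Err G j t e r ∧ HD (R.B (j + 1))
    ((R.kap j : ℂ) • proj (G.M (j + 1))
        (dag (R.A j t) * R.Cp (j + 1) t + R.A j t * R.Cm (j + 1) t)
      - mulr (R.dB (j + 1)) (R.B (j + 1) t) + e + r) t
  eqP : ∀ j t, 0 ≤ t → ∃ e r, R.Err G j t e r ∧ HD (R.Cp (j + 1))
    ((R.kap j : ℂ) • (R.A j t * R.B (j + 1) t)
      - mulr (R.dP (j + 1)) (R.Cp (j + 1) t) + (R.f (j + 1) t : ℂ) • dl + e + r) t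
  eqM : ∀ j t, 0 ≤ t → ∃ e r, R.Err G j t e r ∧ HD (R.Cm (j + 1))
    ((R.kap j : ℂ) • (dag (R.A j t) * R.B (j + 1) t)
      - mulr (R.dM (j + 1)) (R.Cm (j + 1) t) + (R.f (j + 1) t : ℂ) • dl + e + r) t
  f1 : ∀ t, R.f 1 t = 0
  fS : ∀ j t, R.f (j + 2) t = R.c (j + 1) (G.n (j + 1)) *
    (R.y (j + 1) (G.n (j + 1) - 1) t * R.y (j + 1) (G.n (j + 1) - 2) t)
  y0 : ∀ j t, R.y (j + 1) 0 t = 0
  ytop : ∀ j t, R.y (j + 1) (G.n (j + 1)) t = R.nr (j + 2) t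
  yend : ∀ j t, R.y (j + 1) (G.n (j + 1) + 1) t = 0
  yE : ∀ j m t, 0 ≤ t → 1 ≤ m → m < G.n (j + 1) → R.y (j + 1) m t ^ 2 ≤ R.E (j + 2) t
  c_lo : ∀ j m, 1 ≤ m → m ≤ G.n (j + 1) → G.lam j / 20 ≤ R.c (j + 1) m
  c_hi : ∀ j m, 1 ≤ m → m ≤ G.n (j + 1) → R.c (j + 1) m ≤ 10 ^ 4 * G.lam (j + 2)
  d_lo : ∀ j m, 1 ≤ m → m < G.n (j + 1) → ν * G.lam (j + 1) ^ 2 ≤ R.d (j + 1) m
  d_hi : ∀ j m, 1 ≤ m → m < G.n (j + 1) → R.d (j + 1) m ≤ 4 * (ν * G.lam (j + 2) ^ 2)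
  eqY : ∀ j m t, 0 ≤ t → 1 ≤ m → m < G.n (j + 1) → ∃ S b,
    HD (R.y (j + 1) m) (R.c (j + 1) m * S - R.d (j + 1) m * R.y (j + 1) m t + b) t ∧
    |b| ≤ 10 ^ 4 * G.lam (j + 2) * (|R.y (j + 1) (m + 1) t| * |R.y (j + 1) (m - 1) t| +
      |R.y (j + 1) (m + 2) t| * |R.y (j + 1) (m + 1) t|) ∧
    (m = 1 → |S - ((R.B (j + 1) t * R.Cp (j + 1) t).coeff 0).re| ≤ R.nr (j + 1) t ^ 2 / 100) ∧
    (m = 2 → |S - ((R.B (j + 1) t * R.A (j + 1) t).coeff 0).re| ≤ R.nr (j + 1) t ^ 2 / 100) ∧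
    (3 ≤ m → S = R.y (j + 1) (m - 1) t * R.y (j + 1) (m - 2) t)
  nrE : ∀ i t, 0 ≤ t → R.nr i t ^ 2 ≤ 4 * R.E i t
  Emono : ∀ i t, 0 ≤ t → R.E (i + 1) t ≤ R.E i t
  E0 : ∀ t, 0 ≤ t → R.E 0 t ≤ 100 * a0 ^ 2
  E1 : R.E 1 0 ≤ 100 * (a0 / (G.M 0 + 1)) ^ 2
  E2 : R.E 2 0 = 0
  eqE : ∀ i t, 0 ≤ t → ∃ D, HD (R.E (i + 1)) D t ∧
    D ≤ -(ν * G.lam i ^ 2) * R.E (i + 1) t + 10 ^ 4 * G.lam i *
      (R.nr i t ^ 2 * √(R.E (i + 1) t) + NN (G.M i) * ‖R.B i t‖ * R.nr (i + 1) t ^ 2)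
  initB0 : R.B 0 0 = (a0 : ℂ) • phi (G.M 0)
  initB1 : R.B 1 0 = ((a0 / (2 * (G.M 0 + 1)) : ℝ) : ℂ) • phi (G.M 1)
  initP : R.Cp 1 0 = ((a0 / (2 * (G.M 0 + 1)) / √2 : ℝ) : ℂ) • phi (G.M 1)
  initM : R.Cm 1 0 = ((a0 / (2 * (G.M 0 + 1)) / √2 : ℝ) : ℂ) • phi (G.M 1)
  decay : ∀ tb, ∃ K, ∀ j, ∀ t ∈ Icc 0 tb, G.lam j * ‖R.B j t‖ ≤ K

end

end Pool.Agent.Work.MP_6bf1e5_an.Dec
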