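import Pool.Agent.Work.MP_6bf1e5_an.Dec.Amp

/-!
Energy flux into the tail, and the data.
-/

open Set Complex
open scoped InnerProductSpace ComplexConjugate
open Pool.Agent.Work.MP_6bf1e5_an.B

namespace Pool.Agent.Work.MP_6bf1e5_an.Dec

noncomputable section

variable {Γ : Geo}

variable {ν : ℝ} {a : Z3 → C3}

namespace Flux

lemma rapid_ind (ha : Rapid a) (S : Set Z3) : Rapid (S.indicator a) := fun s => by
  obtain ⟨M, hM⟩ := ha s
  refine ⟨M, fun F => le_trans (Finset.sum_le_sum fun k _ => ?_) (hM F)⟩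
  exact mul_le_mul_of_nonneg_left (norm_indicator_le_norm_self _ _) (pow_nonneg (w_pos k).le _)

lemma real_ind (ha : IsReal a) {S : Set Z3} (hS : ∀ k, -k ∈ S ↔ k ∈ S) :
    IsReal (S.indicator a) := fun k => by
  by_cases hk : k ∈ S
  · rw [indicator_of_mem hk, indicator_of_mem ((hS k).2 hk), ha k]
  · rw [indicator_of_notMem hk, indicator_of_notMem fun h => hk ((hS k).1 h), map_zero]

lemma cut_apply (i : ℕ) (a : Z3 → C3) (k : Z3) :
    cut Γ i k (a k) = (tail Γ i).indicator a k := by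
  by_cases hk : k ∈ tail Γ i <;> simp [cut, hk]

lemma summable_sq (ha : Rapid a) (n : ℕ) : Summable fun k => ax k ^ n * ‖a k‖ ^ 2 := by
  obtain ⟨M, hM⟩ := ha n
  refine Summable.of_nonneg_of_le (fun k => mul_nonneg (pow_nonneg (ax_nonneg k) _) (sq_nonneg _))
    (fun k => ?_) (hM.summable.mul_right M)
  have h1 := hM.norm_le k
  have h2 : ax k ^ n ≤ w k ^ n := pow_le_pow_left₀ (ax_nonneg k) (ax_le_w k) n
  have h3 := pow_nonneg (w_pos k).le n
  rw [pow_two, ← mul_assoc]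
  gcongr

lemma En_eq (i : ℕ) (a : Z3 → C3) : En Γ i a = ∑' k, ‖(tail Γ i).indicator a k‖ ^ 2 := by
  refine tsum_congr fun k => ?_
  rw [cut_apply]
  by_cases hk : k ∈ tail Γ i
  · rw [indicator_of_mem hk, re_inner_self]
  · simp [hk]

lemma En_nonneg (i : ℕ) (a : Z3 → C3) : 0 ≤ En Γ i a := by
  rw [En_eq]; exact tsum_nonneg fun _ => sq_nonneg _

/-- The energy balance of the tail. -/
lemma QQ_rhs (H : Adm Γ a) (i : ℕ) :
    QQ (cut Γ i) a (rhs Γ ν a) = -(TT a ((tail Γ i)ᶜ.indicator a) ((tail Γ i).indicator a)).re -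
      ν * ∑' k, ax k ^ 2 * ‖(tail Γ i).indicator a k‖ ^ 2 := by
  let _ : G.PJ := G.pj (s := 1) (by norm_num) (neg_mem_SS (Γ := Γ) 1) (neg_mem_SS (Γ := Γ) (-1))
  have rt := rapid_ind H.rapid (tail Γ i)
  have rh := rapid_ind H.rapid (tail Γ i)ᶜ
  obtain ⟨M, hM⟩ := H.rapid 1
  have hM0 := hM.mono (Nat.zero_le 1)
  obtain ⟨N, hN⟩ := rt 1
  obtain ⟨N', hN'⟩ := rh 1
  have s1 := hasSum_inner_BB hM0 hN' hN.norm_le
  have s2 := hasSum_inner_BB hM0 hN hN.norm_le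
  rw [TT_self H.div (real_ind H.real fun k => neg_mem_tail)] at s2
  have s3 := Complex.reCLM.hasSum (s1.add s2)
  have s4 := s3.neg.sub (((summable_sq rt 2).hasSum).mul_left ν)
  simp only [add_zero, Complex.reCLM_apply] at s4
  unfold QQ
  rw [← s4.tsum_eq]
  refine tsum_congr fun k => ?_
  have e : BB a a k = BB a ((tail Γ i)ᶜ.indicator a) k + BB a ((tail Γ i).indicator a) k := by
    rw [← BB_add_right hM0 hN' hN]
    congr 1
    funext l
    by_cases hl : l ∈ tail Γ i <;> simp [hl]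
  rw [cut_apply, ← inner_add_right, ← e, rhs]
  by_cases hk : k ∈ tail Γ i
  · rw [indicator_of_mem hk, inner_sub_right, inner_neg_right]
    have h1 : ⟪a k, G.PS 1 (SS Γ 1) (SS Γ (-1)) k (BB a a k)⟫_ℂ = ⟪a k, BB a a k⟫_ℂ :=
      G.inner_LP (k := k) (H.fix k) _
    have h2 : (⟪a k, G.lapS ν k (a k)⟫_ℂ).re = ν * (ax k ^ 2 * ‖a k‖ ^ 2) := by
      have : G.lapS ν k (a k) = ((ν * ax k ^ 2 : ℝ) : ℂ) • a k := rfl
      rw [this, inner_smul_right, Complex.re_ofReal_mul, re_inner_self]; ring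
    rw [h1, Complex.sub_re, Complex.neg_re, h2]
  · simp [hk]

/-- Young's inequality for finite sums over triads. -/
lemma sum_triad {ι : Type} (s : Finset ι) {f g h : ι → Z3} {x y u : Z3 → ℝ} {X Y : ℝ}
    (hfg : ∀ z z', f z = f z' → g z = g z' → z = z') (hfh : ∀ z z', f z = f z' → h z = h z' → z = z')
    (hx : ∀ k, 0 ≤ x k) (hX : ∀ F : Finset Z3, ∑ k ∈ F, x k ≤ X)
    (hy : ∀ F : Finset Z3, ∑ k ∈ F, y k ^ 2 ≤ Y) (hu : ∀ F : Finset Z3, ∑ k ∈ F, u k ^ 2 ≤ Y) :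
    ∑ z ∈ s, x (f z) * (y (g z) * u (h z)) ≤ X * Y := by
  have key : ∀ (g : ι → Z3) (y : Z3 → ℝ), (∀ z z', f z = f z' → g z = g z' → z = z') →
      (∀ F : Finset Z3, ∑ k ∈ F, y k ^ 2 ≤ Y) → ∑ z ∈ s, x (f z) * y (g z) ^ 2 ≤ X * Y := by
    intro g y hg hy
    have h1 : ∑ z ∈ s, x (f z) * y (g z) ^ 2
        = ∑ v ∈ s.image fun z => (f z, g z), x v.1 * y v.2 ^ 2 :=
      (Finset.sum_image (f := fun v : Z3 × Z3 => x v.1 * y v.2 ^ 2) (g := fun z => (f z, g z))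
        fun z _ z' _ e => hg z z' (congrArg Prod.fst e) (congrArg Prod.snd e)).symm
    have h2 : (s.image fun z => (f z, g z)) ⊆ s.image f ×ˢ s.image g := fun v hv => by
      obtain ⟨z, hz, rfl⟩ := Finset.mem_image.1 hv
      exact Finset.mem_product.2 ⟨Finset.mem_image_of_mem _ hz, Finset.mem_image_of_mem _ hz⟩
    rw [h1]
    refine (Finset.sum_le_sum_of_subset_of_nonneg h2 fun v _ _ =>
      mul_nonneg (hx _) (sq_nonneg _)).trans ?_
    rw [Finset.sum_product]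
    dsimp only
    rw [← Finset.sum_mul_sum]
    exact mul_le_mul (hX _) (hy _) (Finset.sum_nonneg fun _ _ => sq_nonneg _)
      (by simpa using hX ∅)
  have h1 := key g y hfg hy
  have h2 := key h u hfh hu
  have h3 : ∑ z ∈ s, x (f z) * (y (g z) * u (h z)) ≤
      ∑ z ∈ s, (x (f z) * y (g z) ^ 2 + x (f z) * u (h z) ^ 2) / 2 :=
    Finset.sum_le_sum fun z _ => by
      linarith [mul_nonneg (hx (f z)) (sq_nonneg (y (g z) - u (h z)))]
  rw [← Finset.sum_div, Finset.sum_add_distrib] at h3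
  linarith

/-- The rows lying in `tail (i + 1)`. -/
def tl (i : ℕ) : Row → Prop
  | .b j => i < j
  | .c j => i ≤ j
  | .y j _ => i ≤ j + 1

lemma tail_iff {i : ℕ} {ρ : Row} (ok : ρ.ok Γ) {k : Z3} (h : k ∈ Orb Γ ρ) :
    k ∈ tail Γ (i + 1) ↔ tl i ρ := by
  cases ρ with
  | b j => exact tail_b h
  | c j => exact tail_c h
  | y j m => exact tail_y ok.1 ok.2 h

lemma tl_yr (i j m : ℕ) : tl i (yr Γ j m) ↔ i ≤ j + 1 := by
  unfold yr; split_ifs <;> rfl

lemma Lv_b {i : ℕ} {k : Z3} (h : k ∈ Orb Γ (.b i)) : k ∈ Lv Γ i := by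
  cases i with
  | zero => exact h
  | succ j => exact Or.inl h

lemma Lv_c {j : ℕ} {k : Z3} (h : k ∈ Orb Γ (.c j)) : k ∈ Lv Γ (j + 1) := Or.inr h

/-- The first two modes of the chain of level `i`. -/
def YY (Γ : Geo) (i : ℕ) : Set Z3 :=
  {r | ∃ j, j + 1 = i ∧ (r ∈ Orb Γ (.y j 1) ∨ r ∈ Orb Γ (.y j 2))}

attribute [local irreducible] Orb in
lemma classify (H : Adm Γ a) {i : ℕ} {p q : Z3} (hp : a p ≠ 0) (hq : a q ≠ 0) (hr : a (p + q) ≠ 0)
    (tq : q ∉ tail Γ (i + 1)) (tr : p + q ∈ tail Γ (i + 1)) :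
    q ∈ Lv Γ i ∧ ((q ∈ Orb Γ (.b i) ∧ p ∈ Lv Γ (i + 1) ∧ p + q ∈ Lv Γ (i + 1)) ∨
      (p + q ∈ YY Γ i ∧ p ∈ Lv Γ i)) := by
  obtain ⟨ρ1, o1, m1⟩ := H.row hp
  obtain ⟨ρ2, o2, m2⟩ := H.row hq
  obtain ⟨ρ3, o3, m3⟩ := H.row hr
  rw [tail_iff o2 m2] at tq
  rw [tail_iff o3 m3] at tr
  rcases triad_rows o1 o2 o3 m1 m2 m3 with d | d | d | d | d | d <;> cases d <;>
    (try simp only [tl_yr] at tq tr) <;> (try simp only [tl] at tq tr) <;>
    first
    | (exfalso; omega)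
    | (rename_i j
       obtain rfl : i = j := by omega
       exact ⟨Lv_b m2, Or.inl ⟨m2, by first | exact Lv_b m1 | exact Lv_c m1,
        by first | exact Lv_b m3 | exact Lv_c m3⟩⟩)
    | (rename_i j
       obtain rfl : i = j + 1 := by omega
       exact ⟨by first | exact Lv_b m2 | exact Lv_c m2, Or.inr
        ⟨⟨j, rfl, by first | exact Or.inl m3 | exact Or.inr m3⟩,
          by first | exact Lv_b m1 | exact Lv_c m1⟩⟩)

lemma ax_Lv {i : ℕ} {k : Z3} (h : k ∈ Lv Γ i) : ax k ≤ 2 * Γ.lam i := by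
  cases i with
  | zero => exact (ax_b h).2
  | succ j => exact h.elim (fun h => (ax_b h).2) fun h => (ax_c h).2

open Classical in
lemma sum_ind_le {S : Set Z3} {f : Z3 → ℝ} {X : ℝ}
    (h : ∀ F : Finset Z3, (∀ k ∈ F, k ∈ S) → ∑ k ∈ F, f k ≤ X) (F : Finset Z3) :
    ∑ k ∈ F, S.indicator f k ≤ X := by
  simp only [indicator_apply]
  rw [← Finset.sum_filter]
  exact h _ fun k hk => (Finset.mem_filter.1 hk).2

lemma ind_sq (S : Set Z3) (f : Z3 → ℝ) (k : Z3) :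
    S.indicator f k ^ 2 = S.indicator (fun k => f k ^ 2) k := by
  by_cases hk : k ∈ S <;> simp [hk]

lemma sum_YY (H : Adm Γ a) (i : ℕ) (F : Finset Z3) (hF : ∀ k ∈ F, k ∈ YY Γ i) :
    ∑ k ∈ F, ‖a k‖ ≤ 16 * √(En Γ (i + 1) a) := by
  have h1 : ∀ k ∈ F, ‖a k‖ ≤ √(En Γ (i + 1) a) := fun k hk => by
    obtain ⟨j, rfl, hj⟩ := hF k hk
    have n8 := Γ.n8 (j + 1)
    have ht : k ∈ tail Γ (j + 1 + 1) :=
      hj.elim (fun h => (tail_y le_rfl (by omega) h).2 le_rfl)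
        fun h => (tail_y (by omega) (by omega) h).2 le_rfl
    have := H.sum_le_En {k} (i := j + 1 + 1) (by simpa using ht)
    exact Real.le_sqrt_of_sq_le (by simpa using this)
  have h2 : F.card ≤ 16 := by
    cases i with
    | zero =>
      have : F = ∅ := Finset.eq_empty_of_forall_notMem fun k hk => by
        obtain ⟨j, hj, -⟩ := hF k hk
        omega
      simp [this]
    | succ j =>
      obtain ⟨F1, c1, e1⟩ := orb_y_card (Γ := Γ) j 1
      obtain ⟨F2, c2, e2⟩ := orb_y_card (Γ := Γ) j 2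
      have : F ⊆ F1 ∪ F2 := fun k hk => by
        obtain ⟨j', hj, h⟩ := hF k hk
        obtain rfl : j' = j := by omega
        exact Finset.mem_union.2 (h.imp (e1 k).1 (e2 k).1)
      exact (Finset.card_le_card this).trans ((Finset.card_union_le _ _).trans (by omega))
  refine (Finset.sum_le_sum h1).trans ?_
  rw [Finset.sum_const, nsmul_eq_mul]
  exact mul_le_mul_of_nonneg_right (by exact_mod_cast h2) (Real.sqrt_nonneg _)

lemma norm_TT_le (H : Adm Γ a) (i : ℕ) :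
    ‖TT a ((tail Γ (i + 1))ᶜ.indicator a) ((tail Γ (i + 1)).indicator a)‖ ≤
      2 * Γ.lam i * (15 * NN (Γ.M i) * ‖ampB Γ i a‖ * (7 * nrA Γ (i + 1) a ^ 2) +
        16 * √(En Γ (i + 1) a) * (7 * nrA Γ i a ^ 2)) := by
  obtain ⟨M, hM⟩ := H.rapid 0
  obtain ⟨N, hN⟩ := rapid_ind H.rapid (tail Γ (i + 1)) 1
  obtain ⟨N', hN'⟩ := rapid_ind H.rapid (tail Γ (i + 1))ᶜ 1
  have hs := summable_norm_tt hM hN' hN.norm_le
  have l0 := lam_pos (Γ := Γ) i
  refine (norm_tsum_le_tsum_norm hs).trans (hs.tsum_le_of_sum_le fun s => ?_)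
  set n : Z3 → ℝ := fun k => ‖a k‖ with hn
  have n0 : ∀ (S : Set Z3) k, 0 ≤ S.indicator n k := fun S k =>
    indicator_nonneg (fun _ _ => norm_nonneg _) k
  have hL : ∀ j (F : Finset Z3), ∑ k ∈ F, (Lv Γ j).indicator n k ^ 2 ≤ 7 * nrA Γ j a ^ 2 := by
    intro j F
    simp only [ind_sq]
    exact sum_ind_le (fun F hF => H.sum_Lv F hF) F
  have hA := sum_triad s (f := fun z : Z3 × Z3 => z.2) (g := fun z => z.1) (h := fun z => z.1 + z.2)
    (x := (Orb Γ (.b i)).indicator n) (y := (Lv Γ (i + 1)).indicator n)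
    (u := (Lv Γ (i + 1)).indicator n) (X := 15 * NN (Γ.M i) * ‖ampB Γ i a‖)
    (fun z z' e1 e2 => Prod.ext e2 e1)
    (fun z z' e1 e2 => Prod.ext (by rwa [e1, add_left_inj] at e2) e1)
    (n0 _) (sum_ind_le fun F hF => (H.sum_b F hF).1.trans (by
      have h0 : Supp (Γ.M i) (ampB Γ i a) := supp_mk _ _
      have := h0.l1_le
      linarith)) (hL _) (hL _)
  have hB := sum_triad s (f := fun z : Z3 × Z3 => z.1 + z.2) (g := fun z => z.1) (h := fun z => z.2)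
    (x := (YY Γ i).indicator n) (y := (Lv Γ i).indicator n)
    (u := (Lv Γ i).indicator n) (X := 16 * √(En Γ (i + 1) a))
    (fun z z' e1 e2 => Prod.ext e2 (by rwa [e2, add_right_inj] at e1))
    (fun z z' e1 e2 => Prod.ext (by rwa [e2, add_left_inj] at e1) e2)
    (n0 _) (sum_ind_le (sum_YY H i)) (hL _) (hL _)
  refine le_trans ?_ (mul_le_mul_of_nonneg_left (add_le_add hA hB) (by positivity))
  rw [← Finset.sum_add_distrib, Finset.mul_sum]
  refine Finset.sum_le_sum fun z _ => (norm_tt_le _ _ _ z).trans ?_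
  obtain ⟨p, q⟩ := z
  have e1 := mul_nonneg (n0 (Orb Γ (.b i)) q)
    (mul_nonneg (n0 (Lv Γ (i + 1)) p) (n0 (Lv Γ (i + 1)) (p + q)))
  have e2 := mul_nonneg (n0 (YY Γ i) (p + q)) (mul_nonneg (n0 (Lv Γ i) p) (n0 (Lv Γ i) q))
  have r0 := mul_nonneg (mul_nonneg zero_le_two l0.le) (add_nonneg e1 e2)
  simp only
  by_cases tq : q ∈ tail Γ (i + 1)
  · rw [indicator_of_notMem (by simpa using tq)]; simpa using r0
  by_cases tr : p + q ∉ tail Γ (i + 1)
  · rw [indicator_of_notMem tr]; simpa using r0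
  rw [not_not] at tr
  rw [indicator_of_mem (show q ∈ (tail Γ (i + 1))ᶜ from tq), indicator_of_mem tr]
  by_cases hp : a p = 0
  · rw [hp]; simpa using r0
  by_cases hq : a q = 0
  · rw [hq]; simpa using r0
  by_cases hr : a (p + q) = 0
  · rw [hr]; simpa using r0
  obtain ⟨c0, c⟩ := classify H hp hq hr tq tr
  have b1 : ‖a p‖ * (ax q * ‖a q‖) * ‖a (p + q)‖ ≤
      2 * Γ.lam i * (‖a q‖ * (‖a p‖ * ‖a (p + q)‖)) := by
    have := ax_Lv c0
    calc _ = ax q * (‖a q‖ * (‖a p‖ * ‖a (p + q)‖)) := by ring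
      _ ≤ _ := by gcongr
  refine b1.trans (mul_le_mul_of_nonneg_left ?_ (by positivity))
  rcases c with ⟨c1, c2, c3⟩ | ⟨c1, c2⟩
  · rw [indicator_of_mem c1, indicator_of_mem c2, indicator_of_mem c3]
    simp only [hn]; linarith only [e2]
  · rw [indicator_of_mem c1, indicator_of_mem c2, indicator_of_mem c0]
    simp only [hn] at e1 ⊢; linarith

end Flux

open Flux

theorem flux_zero (hν : 0 < ν) (H : Adm Γ a) : 2 * QQ (cut Γ 0) a (rhs Γ ν a) ≤ 0 := by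
  rw [QQ_rhs H]
  have h1 : TT a ((tail Γ 0)ᶜ.indicator a) ((tail Γ 0).indicator a) = 0 := by
    simp [TT, tt, tail]
  have h2 : 0 ≤ ∑' k, ax k ^ 2 * ‖(tail Γ 0).indicator a k‖ ^ 2 :=
    tsum_nonneg fun k => by positivity
  rw [h1]
  simp only [zero_re, neg_zero, zero_sub]
  nlinarith only [hν, h2]

theorem flux_le (hν : 0 < ν) (H : Adm Γ a) (i : ℕ) :
    2 * QQ (cut Γ (i + 1)) a (rhs Γ ν a) ≤ -(ν * Γ.lam i ^ 2) * En Γ (i + 1) a + 10 ^ 4 * Γ.lam i *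
      (nrA Γ i a ^ 2 * √(En Γ (i + 1) a) +
        NN (Γ.M i) * ‖ampB Γ i a‖ * nrA Γ (i + 1) a ^ 2) := by
  rw [QQ_rhs H]
  have l0 := lam_pos (Γ := Γ) i
  have h1 := (abs_le.1 ((Complex.abs_re_le_norm _).trans (norm_TT_le H i))).1
  have rt := rapid_ind H.rapid (tail Γ (i + 1))
  have h2 : Γ.lam i ^ 2 * En Γ (i + 1) a ≤
      ∑' k, ax k ^ 2 * ‖(tail Γ (i + 1)).indicator a k‖ ^ 2 := by
    rw [En_eq, ← tsum_mul_left]
    refine Summable.tsum_le_tsum (fun k => ?_)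
      (by simpa using (summable_sq rt 0).mul_left (Γ.lam i ^ 2)) (summable_sq rt 2)
    by_cases hk : k ∈ tail Γ (i + 1)
    · have := tail_ax hk
      gcongr
    · simp [hk]
  have h3 := mul_le_mul_of_nonneg_left h2 hν.le
  have h4 : 0 ≤ ν * (Γ.lam i ^ 2 * En Γ (i + 1) a) := by
    have := En_nonneg (Γ := Γ) (i + 1) a
    positivity
  have h5 : 0 ≤ Γ.lam i * (nrA Γ i a ^ 2 * √(En Γ (i + 1) a)) := by positivity
  have h6 : 0 ≤ Γ.lam i * (NN (Γ.M i) * ‖ampB Γ i a‖ * nrA Γ (i + 1) a ^ 2) := by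
    have := NN_pos (Γ.M i)
    positivity
  linarith

end

end Pool.Agent.Work.MP_6bf1e5_an.Dec
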