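import Pool.Agent.Work.MP_6bf1e5_an.Dec.Rest

/-!
The equations of the positive packets.
-/

open Set Complex
open scoped InnerProductSpace ComplexConjugate
open Pool.Agent.Work.MP_6bf1e5_an.B

namespace Pool.Agent.Work.MP_6bf1e5_an.Dec

noncomputable section

variable {Γ : Geo}

namespace EB

variable {a : Z3 → C3}

lemma Sg_smul (c : ℂ) (v : C3) : Sg (c • v) = c • Sg v := by
  ext i; fin_cases i <;> simp [Sg]

lemma Sg_sub (u v : C3) : Sg (u - v) = Sg u - Sg v := by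
  ext i; fin_cases i <;> simp [Sg]

lemma Rx_sub (u v : C3) : Rx (u - v) = Rx u - Rx v := by
  ext i; fin_cases i <;> simp [Rx] <;> ring

lemma norm_sgn (n : ℤ) : ‖sgn n‖ = 1 := by
  unfold sgn; split_ifs <;> simp

lemma T_two (j : ℕ) : 2 ≤ Γ.T j := le_trans (by norm_num) (Γ.Tbig j)

lemma two_M_lt (j : ℕ) : 2 * (Γ.M j : ℤ) < Γ.P j := by
  have h := Γ.sep j
  have h2 : (2 : ℝ) ≤ Γ.T j ^ 900 := (T_two j).trans (le_self_pow₀ (by linarith [T_two (Γ := Γ) j])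
    (by norm_num))
  have h3 : (2 : ℝ) * Γ.M j < Γ.P j := by nlinarith only [h, h2, (Nat.cast_nonneg (Γ.M j) : (0 : ℝ) ≤ Γ.M j)]
  exact_mod_cast h3

lemma lam_le (j : ℕ) : Γ.lam j ≤ Γ.lam (j + 1) := by
  rw [lam_succ]
  exact le_mul_of_one_le_left (lam_pos j).le (one_le_pow₀ (by linarith [T_two (Γ := Γ) j]))

lemma inv_le {j j' m n : ℕ} (hj : Γ.T j ≤ Γ.T j') (h : m ≤ n) :
    (Γ.T j' ^ n)⁻¹ ≤ (Γ.T j ^ m)⁻¹ := by
  have := T_two (Γ := Γ) j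
  refine inv_anti₀ (by positivity) ?_
  exact (pow_le_pow_right₀ (by linarith only [this]) h).trans (pow_le_pow_left₀ (by linarith only [this]) hj n)

lemma cf_close {j : ℕ} {w u v w' u' v' : C3} {k l k' l' : Z3}
    (nw : ‖w'‖ ≤ 1) (nu : ‖u'‖ ≤ 1) (nv : ‖v'‖ ≤ 1)
    (dw : ‖w - w'‖ ≤ (Γ.T j ^ 800)⁻¹) (du : ‖u - u'‖ ≤ (Γ.T j ^ 800)⁻¹)
    (dv : ‖v - v'‖ ≤ (Γ.T j ^ 800)⁻¹)
    (dk : ax (k - k') ≤ (Γ.T j ^ 800)⁻¹ * Γ.lam (j + 1))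
    (dl : ax (l - l') ≤ (Γ.T j ^ 800)⁻¹ * Γ.lam (j + 1))
    (hk : ax k' ≤ 2 * Γ.lam (j + 1)) (hl : ax l' ≤ 2 * Γ.lam (j + 1)) :
    ‖cf w k u l v - cf w' k' u' l' v'‖ ≤ (Γ.T j ^ 100)⁻¹ * (Γ.lam j / 5) := by
  have t2 := T_two (Γ := Γ) j
  have t0 : 0 < Γ.T j := by linarith only [t2]
  have l0 := lam_pos (Γ := Γ) j
  refine (cf_lip (inv_le_one_of_one_le₀ (one_le_pow₀ (by linarith only [t2]))) nw nu nv dw du dv dk dl
    hk hl).trans ?_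
  have h1 : (220 : ℝ) ≤ Γ.T j ^ 692 :=
    le_trans (by norm_num) ((pow_le_pow_left₀ zero_le_two t2 8).trans
      (pow_le_pow_right₀ (by linarith only [t2]) (by norm_num)))
  have e : (Γ.T j ^ 100)⁻¹ = (Γ.T j ^ 800)⁻¹ * Γ.T j ^ 8 * Γ.T j ^ 692 := by field_simp
  rw [lam_succ, e]
  have p : 0 ≤ (Γ.T j ^ 800)⁻¹ * Γ.T j ^ 8 * Γ.lam j := by positivity
  linarith only [mul_le_mul_of_nonneg_left h1 p]

lemma kap_ge (j : ℕ) : Γ.lam j / 4 ≤ √(cB Γ j * cC Γ j) := by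
  have l0 := lam_pos (Γ := Γ) j
  refine Real.le_sqrt_of_sq_le ?_
  have := mul_le_mul (cB_bounds (Γ := Γ) j).1 (cC_bounds j).1 (by positivity)
    (le_trans (by positivity) (cB_bounds j).1)
  nlinarith only [this]

lemma kap_mul_rho (j : ℕ) : √(cB Γ j * cC Γ j) * rho Γ j = cB Γ j := by
  have l0 := lam_pos (Γ := Γ) j
  have b0 : 0 < cB Γ j := lt_of_lt_of_le (by positivity) (cB_bounds j).1
  have c0 : 0 < cC Γ j := lt_of_lt_of_le (by positivity) (cC_bounds j).1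
  rw [rho, ← Real.sqrt_mul (by positivity), show cB Γ j * cC Γ j * (cB Γ j / cC Γ j) = cB Γ j ^ 2 by
    field_simp, Real.sqrt_sq b0.le]

lemma des_cases {x y z : Row} (h : Des Γ x y z) :
    (∃ j, x = .b j ∧ y = .b (j + 1) ∧ z = .c j) ∨ (∃ j, x = .b (j + 1) ∧ y = .c j ∧ z = .y j 1) ∨
      (∃ j, x = .b (j + 1) ∧ y = .b (j + 1) ∧ z = .y j 2) ∨
      ((∀ i, x ≠ .b i) ∧ (∀ i, y ≠ .b i) ∧ ∀ i, z ≠ .b i) := by
  cases h with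
  | strain j => exact Or.inl ⟨j, rfl, rfl, rfl⟩
  | one j => exact Or.inr (Or.inl ⟨j, rfl, rfl, rfl⟩)
  | two j => exact Or.inr (Or.inr (Or.inl ⟨j, rfl, rfl, rfl⟩))
  | fib j m h1 h2 =>
    refine Or.inr (Or.inr (Or.inr ⟨fun i => nofun, fun i => nofun, fun i => ?_⟩))
    unfold yr
    split_ifs <;> nofun

/-- The pairs of rows which act on a positive packet. -/
lemma des_b {x y : Row} {J : ℕ} (h : Des' Γ x y (.b J)) :
    (∃ j, J = j + 1 ∧ (x = .b j ∧ y = .c j ∨ x = .c j ∧ y = .b j)) ∨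
      (x = .b (J + 1) ∧ y = .c J ∨ x = .c J ∧ y = .b (J + 1)) ∨
      ∃ j, J = j + 1 ∧ ((x = .y j 1 ∧ y = .c j ∨ x = .y j 2 ∧ y = .b (j + 1)) ∨
        (y = .y j 1 ∧ x = .c j ∨ y = .y j 2 ∧ x = .b (j + 1))) := by
  rcases h with h | h | h | h | h | h <;>
  rcases des_cases h with ⟨j, h1, h2, h3⟩ | ⟨j, h1, h2, h3⟩ | ⟨j, h1, h2, h3⟩ | ⟨h1, h2, h3⟩ <;>
  simp_all

/-- The upper driving modes. -/
def kp (Γ : Geo) (j : ℕ) (g : Z3) : Z3 := swE (pt Γ (.b j) 1 (swE g))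

lemma swE_swE (g : Z3) : swE (swE g) = g := swE.left_inv g

lemma kp_injective (j : ℕ) : Function.Injective (kp Γ j) :=
  swE.injective.comp ((pt_injective _ _).comp swE.injective)

lemma kp_mem {j : ℕ} {g : Z3} (hg : g ∈ box (Γ.M j)) : kp Γ j g ∈ Orb Γ (.b j) :=
  sw_mem_Orb.mpr (pt_mem_Orb (Or.inl rfl) (swE_mem_box.mpr hg))

lemma sub_kp (j : ℕ) (h g : Z3) :
    pt Γ (.b (j + 1)) 1 h - kp Γ j g = pt Γ (.c j) (-1) (h - g) := by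
  funext i
  fin_cases i <;> simp [kp, pt, swE_apply, Row.X, Row.W] <;> ring

lemma sub_km (j : ℕ) (h g : Z3) :
    pt Γ (.b (j + 1)) 1 h - -kp Γ j (-g) = pt Γ (.c j) 1 (h - g) := by
  funext i
  fin_cases i <;> simp [kp, pt, swE_apply, Row.X, Row.W] <;> ring

lemma at_kp (H : Adm Γ a) {j : ℕ} {g : Z3} (hg : g ∈ box (Γ.M j)) :
    a (kp Γ j g) = (sw (ampB Γ j a)).coeff g •
      Sg (uu 1 (pt Γ (.b j) 1 (swE g)) ((Row.b j).e Γ)) := by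
  rw [kp, H.sym.sg, H.at_b (swE_mem_box.mpr hg), Sg_smul, coeff_sw]

lemma at_km (H : Adm Γ a) {j : ℕ} {g : Z3} (hg : g ∈ box (Γ.M j)) :
    a (-kp Γ j (-g)) = (dag (sw (ampB Γ j a))).coeff g •
      cj (Sg (uu 1 (pt Γ (.b j) 1 (swE (-g))) ((Row.b j).e Γ))) := by
  rw [H.real, at_kp H (neg_mem_box.mpr hg), cj_smul, coeff_dag]

/-- The driving modes. -/
def FD (Γ : Geo) (j : ℕ) : Finset Z3 :=
  (box (Γ.M j)).image (kp Γ j) ∪ (box (Γ.M j)).image fun g => -kp Γ j (-g)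

lemma FD_orb {j : ℕ} {k : Z3} (hk : k ∈ FD Γ j) : k ∈ Orb Γ (.b j) := by
  rcases Finset.mem_union.mp hk with h | h <;> obtain ⟨g, hg, rfl⟩ := Finset.mem_image.mp h
  · exact kp_mem hg
  · exact neg_mem_Orb.mpr (kp_mem (neg_mem_box.mpr hg))

lemma mem_FD {j : ℕ} {k g : Z3} (hg : g ∈ box (Γ.M j))
    (h : k = swE (pt Γ (.b j) 1 g) ∨ k = -swE (pt Γ (.b j) 1 g)) : k ∈ FD Γ j := by
  rcases h with h | h
  · exact Finset.mem_union_left _ (Finset.mem_image.mpr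
      ⟨swE g, swE_mem_box.mpr hg, by rw [h, kp, swE_swE]⟩)
  · exact Finset.mem_union_right _ (Finset.mem_image.mpr
      ⟨-swE g, neg_mem_box.mpr (swE_mem_box.mpr hg), by rw [h, kp, neg_neg, swE_swE]⟩)

lemma sum_FD (j : ℕ) (f : Z3 → C3) : ∑ k ∈ FD Γ j, f k =
    ∑ g ∈ box (Γ.M j), (f (kp Γ j g) + f (-kp Γ j (-g))) := by
  rw [FD, Finset.sum_union, Finset.sum_image fun _ _ _ _ h => kp_injective j h,
    Finset.sum_image fun _ _ _ _ h => neg_injective (kp_injective j (neg_injective h)),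
    Finset.sum_add_distrib]
  rw [Finset.disjoint_left]
  intro k h1 h2
  obtain ⟨g, hg, rfl⟩ := Finset.mem_image.mp h1
  obtain ⟨g', hg', e⟩ := Finset.mem_image.mp h2
  have e1 := congrFun e 1
  have b1 := abs_le.mp (mem_box'.mp hg 1)
  have b2 := abs_le.mp (mem_box'.mp hg' 1)
  have := two_M_lt (Γ := Γ) j
  simp [kp, pt, swE_apply, Row.X] at e1
  omega

/-- The test vector. -/
def tv (Γ : Geo) (J : ℕ) (h : Z3) : C3 := hP 1 (pt Γ (.b J) 1 h) ((Row.b J).e Γ)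

lemma tv_near {J : ℕ} {h : Z3} (hh : h ∈ box (Γ.M J)) :
    ‖tv Γ J h - (Row.b J).e Γ‖ ≤ (Γ.T J ^ 800)⁻¹ :=
  (uu_near (ρ := .b J) trivial (fun _ => nofun) hh).1

lemma norm_tv {J : ℕ} {h : Z3} (hh : h ∈ box (Γ.M J)) : ‖tv Γ J h‖ ≤ 2 := by
  have h1 := tv_near hh
  have h2 := norm_le_norm_add_norm_sub' (tv Γ J h) ((Row.b J).e Γ)
  rw [norm_e (ρ := .b J) trivial] at h2
  have h3 : (Γ.T J ^ 800)⁻¹ ≤ 1 :=
    inv_le_one_of_one_le₀ (one_le_pow₀ (by linarith [T_two (Γ := Γ) J]))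
  linarith

lemma inner_rhs (ν : ℝ) (a : Z3 → C3) {J : ℕ} {h : Z3} (hh : h ∈ box (Γ.M J)) :
    ⟪(Row.b J).e Γ, rhs Γ ν a (pt Γ (.b J) 1 h)⟫_ℂ =
      -⟪tv Γ J h, BB a a (pt Γ (.b J) 1 h)⟫_ℂ -
        ((ν * ax (pt Γ (.b J) 1 h) ^ 2 : ℝ) : ℂ) * (ampB Γ J a).coeff h := by
  rw [rhs, inner_sub_right, inner_neg_right, inner_PS (ρ := .b J) trivial (fun _ => nofun) hh,
    G.lapS_apply, inner_smul_right, ampB, coeff_mk, if_pos hh]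
  rfl

/-- The coefficient of the interaction with the lower negative packet. -/
def c1 (Γ : Geo) (j : ℕ) (h g : Z3) : ℂ :=
  cf (tv Γ (j + 1) h) (kp Γ j g) (Sg (uu 1 (pt Γ (.b j) 1 (swE g)) ((Row.b j).e Γ)))
    (pt Γ (.c j) (-1) (h - g))
    (sgn ((Row.c j).X Γ) • Rx (uu (-1) (pt Γ (.c j) 1 (rxE (h - g))) ((Row.c j).e Γ)))

/-- The coefficient of the interaction with the upper negative packet. -/
def c2 (Γ : Geo) (j : ℕ) (h g : Z3) : ℂ :=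
  cf (tv Γ (j + 1) h) (-kp Γ j (-g)) (cj (Sg (uu 1 (pt Γ (.b j) 1 (swE (-g))) ((Row.b j).e Γ))))
    (pt Γ (.c j) 1 (h - g)) (uu (-1) (pt Γ (.c j) 1 (h - g)) ((Row.c j).e Γ))

lemma sub_mem_box {j : ℕ} {h g : Z3} (hh : h ∈ box (Γ.M (j + 1))) (hg : g ∈ box (Γ.M j)) :
    h - g ∈ box (Γ.M (j + 1) + Γ.M j) := by
  rw [sub_eq_add_neg]; exact add_mem_box hh (neg_mem_box.mpr hg)

lemma ax_kp {j : ℕ} {g : Z3} (hg : g ∈ box (Γ.M j)) :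
    ax (kp Γ j g - swE (pt Γ (.b j) 1 0)) ≤ (Γ.T j ^ 800)⁻¹ * Γ.lam (j + 1) := by
  rw [kp, ← map_sub, ax_swE]
  have := T_two (Γ := Γ) j
  exact (ax_offset (ρ := .b j) 1 (swE_mem_box.mpr hg)).trans
    (mul_le_mul (inv_le le_rfl (by norm_num)) (lam_le j) (lam_pos j).le (by positivity))

lemma ax_cc {j : ℕ} (e : ℤ) {g : Z3} (hg : g ∈ box (Γ.M (j + 1) + Γ.M j)) :
    ax (pt Γ (.c j) e g - pt Γ (.c j) e 0) ≤ (Γ.T j ^ 800)⁻¹ * Γ.lam (j + 1) :=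
  (ax_offset (ρ := .c j) e hg).trans
    (mul_le_mul_of_nonneg_right (inv_le (Γ.Tmono j) (by norm_num)) (lam_pos _).le)

lemma ax_A (j : ℕ) : ax (swE (pt Γ (.b j) 1 0)) ≤ 2 * Γ.lam (j + 1) := by
  rw [ax_swE]
  have := (ax_b (pt_mem_Orb (Γ := Γ) (ρ := .b j) (Or.inl rfl) (zero_mem_box _))).2
  linarith [lam_le (Γ := Γ) j]

lemma uu_b {j : ℕ} {g : Z3} (hg : g ∈ box (Γ.M j)) :
    ‖Sg (uu 1 (pt Γ (.b j) 1 (swE g)) ((Row.b j).e Γ)) - Sg ((Row.b j).e Γ)‖ ≤ (Γ.T j ^ 800)⁻¹ := by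
  rw [← Sg_sub, norm_Sg]
  exact (uu_near (ρ := .b j) trivial (fun _ => nofun) (swE_mem_box.mpr hg)).2

lemma uu_c {j : ℕ} {g : Z3} (hg : g ∈ box (Γ.M (j + 1) + Γ.M j)) :
    ‖uu (-1) (pt Γ (.c j) 1 g) ((Row.c j).e Γ) - (Row.c j).e Γ‖ ≤ (Γ.T j ^ 800)⁻¹ :=
  (uu_near (ρ := .c j) trivial (fun _ => nofun) hg).2.trans (inv_le (Γ.Tmono j) le_rfl)

lemma c1_close {j : ℕ} {h g : Z3} (hh : h ∈ box (Γ.M (j + 1))) (hg : g ∈ box (Γ.M j)) :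
    ‖c1 Γ j h g - cB Γ j‖ ≤ (Γ.T j ^ 100)⁻¹ * (Γ.lam j / 5) := by
  have hb := sub_mem_box hh hg
  rw [← cf_Bm, cf_comm _ (pt Γ (.c j) (-1) 0)]
  refine cf_close (norm_e (ρ := .b (j + 1)) trivial).le ?_ ?_
    ((tv_near hh).trans (inv_le (Γ.Tmono j) le_rfl)) (uu_b hg) ?_ (ax_kp hg) (ax_cc _ hb) (ax_A j)
    (ax_c (pt_mem_Orb (Or.inr rfl) (zero_mem_box _))).2
  · rw [norm_Sg, norm_e (ρ := .b j) trivial]
  · rw [Row.e', norm_smul, norm_sgn, norm_Rx, norm_e (ρ := .c j) trivial, one_mul]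
  · rw [Row.e', ← smul_sub, norm_smul, norm_sgn, one_mul, ← Rx_sub, norm_Rx]
    exact uu_c (rxE_mem_box.mpr hb)

lemma c2_close {j : ℕ} {h g : Z3} (hh : h ∈ box (Γ.M (j + 1))) (hg : g ∈ box (Γ.M j)) :
    ‖c2 Γ j h g - cB Γ j‖ ≤ (Γ.T j ^ 100)⁻¹ * (Γ.lam j / 5) := by
  have hb := sub_mem_box hh hg
  rw [← cf_Bp, cf_comm _ (pt Γ (.c j) 1 0)]
  refine cf_close (norm_e (ρ := .b (j + 1)) trivial).le ?_ (norm_e (ρ := .c j) trivial).le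
    ((tv_near hh).trans (inv_le (Γ.Tmono j) le_rfl)) ?_ (uu_c hb) ?_ (ax_cc _ hb) ?_
    (ax_c (pt_mem_Orb (Or.inl rfl) (zero_mem_box _))).2
  · rw [norm_cj, norm_Sg, norm_e (ρ := .b j) trivial]
  · rw [← map_sub, norm_cj]
    exact uu_b (neg_mem_box.mpr hg)
  · rw [← neg_sub', ax_neg]
    exact ax_kp (neg_mem_box.mpr hg)
  · rw [ax_neg]
    exact ax_A j

open Classical in
/-- The interactions which are not with the driving modes. -/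
def rest (Γ : Geo) (j : ℕ) (a : Z3 → C3) (r : Z3) : C3 :=
  ∑' k, if k ∉ FD Γ j ∧ r - k ∉ FD Γ j then (I * dt (a k) (r - k)) • a (r - k) else 0

lemma inner_BB (H : Adm Γ a) {j : ℕ} {h : Z3} (hh : h ∈ box (Γ.M (j + 1))) :
    -⟪tv Γ (j + 1) h, BB a a (pt Γ (.b (j + 1)) 1 h)⟫_ℂ =
      ∑ g ∈ box (Γ.M j), (c1 Γ j h g * ((sw (ampB Γ j a)).coeff g *
          ((rho Γ j : ℂ)⁻¹ * (ampM Γ (j + 1) a).coeff (h - g))) +
        c2 Γ j h g * ((dag (sw (ampB Γ j a))).coeff g *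
          ((rho Γ j : ℂ)⁻¹ * (ampP Γ (j + 1) a).coeff (h - g)))) +
      -⟪tv Γ (j + 1) h, rest Γ j a (pt Γ (.b (j + 1)) 1 h)⟫_ℂ := by
  rw [H.BB_split _ (FD Γ j) fun k hk hk' => ?_, inner_add_right, neg_add, sum_FD, inner_sum,
    ← Finset.sum_neg_distrib]
  · congr 1
    refine Finset.sum_congr rfl fun g hg => ?_
    have hb := sub_mem_box hh hg
    rw [inner_add_right, neg_add, sub_kp, sub_km, at_kp H hg, at_km H hg, H.at_m hb, H.at_p hb,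
      inner_sym_term, inner_sym_term]
    rfl
  · have := des_b (triad_rows (a := .b j) (b := .b j) (c := .b (j + 1)) trivial trivial trivial
      (FD_orb hk) (FD_orb hk') (by
        rw [add_sub_cancel]; exact pt_mem_Orb (Or.inl rfl) hh))
    simp at this

lemma Lv_b (J : ℕ) : Orb Γ (.b (J + 1)) ⊆ Lv Γ (J + 1) := subset_union_left

lemma Lv_c (J : ℕ) : Orb Γ (.c J) ⊆ Lv Γ (J + 1) := subset_union_right

lemma rest_cases (H : Adm Γ a) {j : ℕ} {h k : Z3} (hh : h ∈ box (Γ.M (j + 1))) {Y1 Y2 : Finset Z3}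
    (hY1 : ∀ k, k ∈ Orb Γ (.y j 1) ↔ k ∈ Y1) (hY2 : ∀ k, k ∈ Orb Γ (.y j 2) ↔ k ∈ Y2)
    (hP : k ∉ FD Γ j ∧ pt Γ (.b (j + 1)) 1 h - k ∉ FD Γ j) (h1 : a k ≠ 0)
    (h2 : a (pt Γ (.b (j + 1)) 1 h - k) ≠ 0) :
    (k ∈ Lv Γ (j + 2) ∧ pt Γ (.b (j + 1)) 1 h - k ∈ Lv Γ (j + 2)) ∨
      (k ∈ Y1 ∪ Y2 ∧ pt Γ (.b (j + 1)) 1 h - k ∈ Lv Γ (j + 1)) ∨
      (pt Γ (.b (j + 1)) 1 h - k ∈ Y1 ∪ Y2 ∧ k ∈ Lv Γ (j + 1)) := by
  have hr : pt Γ (.b (j + 1)) 1 h ∈ Orb Γ (.b (j + 1)) := pt_mem_Orb (Or.inl rfl) hh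
  obtain ⟨x, ox, hx⟩ := H.row h1
  obtain ⟨y, oy, hy⟩ := H.row h2
  have d := des_b (triad_rows (c := .b (j + 1)) ox oy trivial hx hy (by rw [add_sub_cancel]; exact hr))
  rcases d with ⟨i, hi, d⟩ | d | ⟨i, hi, d⟩
  · obtain rfl : j = i := by omega
    rcases d with ⟨rfl, rfl⟩ | ⟨rfl, rfl⟩
    · obtain ⟨g, hg, e⟩ := fine_B hh hx hy
      exact absurd (mem_FD hg e) hP.1
    · obtain ⟨g, hg, e⟩ := fine_B hh hy (by rw [sub_sub_cancel]; exact hx)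
      exact absurd (mem_FD hg e) hP.2
  · rcases d with ⟨rfl, rfl⟩ | ⟨rfl, rfl⟩
    · exact Or.inl ⟨Lv_b _ hx, Lv_c _ hy⟩
    · exact Or.inl ⟨Lv_c _ hx, Lv_b _ hy⟩
  · obtain rfl : j = i := by omega
    rcases d with (⟨rfl, rfl⟩ | ⟨rfl, rfl⟩) | ⟨rfl, rfl⟩ | ⟨rfl, rfl⟩
    · exact Or.inr (Or.inl ⟨Finset.mem_union_left _ ((hY1 _).mp hx), Lv_c _ hy⟩)
    · exact Or.inr (Or.inl ⟨Finset.mem_union_right _ ((hY2 _).mp hx), Lv_b _ hy⟩)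
    · exact Or.inr (Or.inr ⟨Finset.mem_union_left _ ((hY1 _).mp hy), Lv_c _ hx⟩)
    · exact Or.inr (Or.inr ⟨Finset.mem_union_right _ ((hY2 _).mp hy), Lv_b _ hx⟩)

lemma rest_pt (H : Adm Γ a) {j : ℕ} {h : Z3} (hh : h ∈ box (Γ.M (j + 1))) {Y1 Y2 : Finset Z3}
    (hY1 : ∀ k, k ∈ Orb Γ (.y j 1) ↔ k ∈ Y1) (hY2 : ∀ k, k ∈ Orb Γ (.y j 2) ↔ k ∈ Y2) :
    ‖-⟪tv Γ (j + 1) h, rest Γ j a (pt Γ (.b (j + 1)) 1 h)⟫_ℂ‖ ≤
      4 * Γ.lam (j + 1) * (7 * nrA Γ (j + 2) a ^ 2 +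
        2 * ∑ y ∈ Y1 ∪ Y2, ‖a y‖ * nb a (Lv Γ (j + 1)) (pt Γ (.b (j + 1)) 1 h - y)) := by
  have hr : pt Γ (.b (j + 1)) 1 h ∈ Orb Γ (.b (j + 1)) := pt_mem_Orb (Or.inl rfl) hh
  have b : ‖rest Γ j a (pt Γ (.b (j + 1)) 1 h)‖ ≤ _ :=
    H.rest_le (ax_b hr).2 H.sum_Lv fun k hP h1 h2 => rest_cases H hh hY1 hY2 hP h1 h2
  rw [norm_neg]
  exact (norm_inner_le_norm _ _).trans
    ((mul_le_mul (norm_tv hh) b (norm_nonneg _) zero_le_two).trans (le_of_eq (by ring)))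

lemma norm_rest (H : Adm Γ a) (j : ℕ) :
    ‖mk (box (Γ.M (j + 1))) fun h => -⟪tv Γ (j + 1) h, rest Γ j a (pt Γ (.b (j + 1)) 1 h)⟫_ℂ‖ ≤
      10 ^ 4 * Γ.lam (j + 1) * (√(En Γ (j + 2) a) * nrA Γ (j + 1) a +
        NN (Γ.M (j + 1)) * nrA Γ (j + 2) a ^ 2) := by
  obtain ⟨Y1, n1, hY1⟩ := orb_y_card (Γ := Γ) j 1
  obtain ⟨Y2, n2, hY2⟩ := orb_y_card (Γ := Γ) j 2
  have n8 := Γ.n8 (j + 1)
  have l0 := lam_pos (Γ := Γ) (j + 1)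
  have r0 : 0 ≤ nrA Γ (j + 1) a := Real.sqrt_nonneg _
  have hb : ∀ y ∈ Y1 ∪ Y2, ‖a y‖ ≤ √(En Γ (j + 2) a) := fun y hy => by
    rcases Finset.mem_union.mp hy with hy | hy
    · rw [H.norm_y le_rfl (by omega) ((hY1 y).mpr hy)]
      exact Real.abs_le_sqrt (H.ampY_le le_rfl (by omega))
    · rw [H.norm_y one_le_two (by omega) ((hY2 y).mpr hy)]
      exact Real.abs_le_sqrt (H.ampY_le one_le_two (by omega))
  have key := norm_mk_rest (pt_injective (Γ := Γ) (.b (j + 1)) 1) (Z := 3 * nrA Γ (j + 1) a)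
    (mul_nonneg (by norm_num) l0.le) (mul_nonneg (by norm_num) (sq_nonneg _))
    (mul_nonneg (by norm_num) r0)
    (fun F hF => (H.sum_Lv F hF).trans (by linarith only [sq_nonneg (nrA Γ (j + 1) a)])) hb
    fun h hh => rest_pt H hh hY1 hY2
  refine key.trans ?_
  have nc0 : (Y1 ∪ Y2).card ≤ 16 := by
    have := Finset.card_union_le Y1 Y2
    omega
  have nc : ((Y1 ∪ Y2).card : ℝ) ≤ 16 := by exact_mod_cast nc0
  have p1 : 0 ≤ √(En Γ (j + 2) a) * nrA Γ (j + 1) a := mul_nonneg (Real.sqrt_nonneg _) r0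
  have p2 : 0 ≤ NN (Γ.M (j + 1)) * nrA Γ (j + 2) a ^ 2 := mul_nonneg (NN_pos _).le (sq_nonneg _)
  have p3 := mul_le_mul_of_nonneg_right nc p1
  linarith only [mul_nonneg l0.le p1, mul_nonneg l0.le p2, mul_le_mul_of_nonneg_left p3 l0.le]

end EB

namespace EB

variable {ν t : ℝ} {a : ℝ → Z3 → C3}

theorem _root_.Pool.Agent.Work.MP_6bf1e5_an.Dec.eqB0_static (hν : 0 < ν) (H : Adm Γ (a t)) :
    ‖mk (box (Γ.M 0)) fun h => ⟪(Row.b 0).e Γ, rhs Γ ν (a t) (pt Γ (.b 0) 1 h)⟫_ℂ‖ ≤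
      4 * (ν * Γ.lam 0 ^ 2) * ‖(rawOf Γ ν a).B 0 t‖ + 10 ^ 4 * Γ.lam 0 *
        (√((rawOf Γ ν a).E 1 t) * (rawOf Γ ν a).nr 0 t + NN (Γ.M 0) * (rawOf Γ ν a).nr 1 t ^ 2) := by
  have l0 := lam_pos (Γ := Γ) 0
  have e : (mk (box (Γ.M 0)) fun h => ⟪(Row.b 0).e Γ, rhs Γ ν (a t) (pt Γ (.b 0) 1 h)⟫_ℂ) =
      (mk (box (Γ.M 0)) fun h => -⟪tv Γ 0 h, BB (a t) (a t) (pt Γ (.b 0) 1 h)⟫_ℂ) -
        mulr ((rawOf Γ ν a).dB 0) (ampB Γ 0 (a t)) := by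
    ext h
    by_cases hh : h ∈ box (Γ.M 0)
    · simp only [AddMonoidAlgebra.coeff_sub, Finsupp.sub_apply, coeff_mk, if_pos hh, coeff_mulr,
        rawOf, inner_rhs ν (a t) hh]
    · simp [coeff_mk, hh, ampB]
  have k1 : ‖mulr ((rawOf Γ ν a).dB 0) (ampB Γ 0 (a t))‖ ≤
      4 * (ν * Γ.lam 0 ^ 2) * ‖ampB Γ 0 (a t)‖ := by
    refine norm_mulr_le (fun h => ?_) (fun h => ?_) _ <;> simp only [rawOf] <;> split_ifs with hh
    · positivity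
    · positivity
    · have := (ax_b (pt_mem_Orb (Γ := Γ) (ρ := .b 0) (Or.inl rfl) hh)).2
      have := pow_le_pow_left₀ (ax_nonneg _) this 2
      nlinarith only [hν, this]
    · linarith [mul_pos hν (pow_pos l0 2)]
  have k2 := norm_mk_rest (a := a t) (n := Γ.M 0)
    (R := fun h => -⟪tv Γ 0 h, BB (a t) (a t) (pt Γ (.b 0) 1 h)⟫_ℂ)
    (pt_injective (Γ := Γ) (.b 0) 1) (W := ∅) (Y := ∅) (c := 4 * Γ.lam 0)
    (X := 7 * nrA Γ 1 (a t) ^ 2) (Z := 0) (b := 0) (by positivity) (by positivity) le_rfl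
    (fun F hF => by rw [Finset.eq_empty_of_forall_notMem hF]; simp) (by simp)
    (fun h hh => by
      have hr : pt Γ (.b 0) 1 h ∈ Orb Γ (.b 0) := pt_mem_Orb (Or.inl rfl) hh
      have b := H.rest_le (r := pt Γ (.b 0) 1 h) (P := fun _ => True) (U := Lv Γ 1) (W := ∅)
        (Y := ∅) (ax_b hr).2 H.sum_Lv (fun k _ h1 h2 => by
          obtain ⟨x, ox, hx⟩ := H.row h1
          obtain ⟨y, oy, hy⟩ := H.row h2
          have d := des_b (triad_rows (c := .b 0) ox oy trivial hx hy (by rw [add_sub_cancel]; exact hr))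
          rcases d with ⟨i, hi, -⟩ | d | ⟨i, hi, -⟩
          · omega
          · rcases d with ⟨rfl, rfl⟩ | ⟨rfl, rfl⟩
            · exact Or.inl ⟨Lv_b _ hx, Lv_c _ hy⟩
            · exact Or.inl ⟨Lv_c _ hx, Lv_b _ hy⟩
          · omega)
      rw [norm_neg]
      exact (norm_inner_le_norm _ _).trans
        ((mul_le_mul (norm_tv hh) b (norm_nonneg _) zero_le_two).trans (le_of_eq (by ring))))
  rw [e]
  refine (norm_sub_le _ _).trans ?_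
  have p1 : 0 ≤ √((rawOf Γ ν a).E 1 t) * (rawOf Γ ν a).nr 0 t :=
    mul_nonneg (Real.sqrt_nonneg _) (Real.sqrt_nonneg _)
  have p2 : 0 ≤ NN (Γ.M 0) * nrA Γ 1 (a t) ^ 2 := mul_nonneg (NN_pos _).le (sq_nonneg _)
  change _ ≤ 4 * (ν * Γ.lam 0 ^ 2) * ‖ampB Γ 0 (a t)‖ + 10 ^ 4 * Γ.lam 0 *
    (_ + NN (Γ.M 0) * nrA Γ 1 (a t) ^ 2)
  simp only [Finset.card_empty, Nat.cast_zero, mul_zero, add_zero] at k2
  linarith [mul_nonneg l0.le p1, mul_nonneg l0.le p2]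

theorem _root_.Pool.Agent.Work.MP_6bf1e5_an.Dec.eqB_static (H : Adm Γ (a t)) (j : ℕ) :
    ∃ e r, (rawOf Γ ν a).Err Γ j t e r ∧
    (mk (box (Γ.M (j + 1))) fun h =>
      ⟪(Row.b (j + 1)).e Γ, rhs Γ ν (a t) (pt Γ (.b (j + 1)) 1 h)⟫_ℂ) =
    ((rawOf Γ ν a).kap j : ℂ) • proj (Γ.M (j + 1))
        (dag ((rawOf Γ ν a).A j t) * (rawOf Γ ν a).Cp (j + 1) t +
          (rawOf Γ ν a).A j t * (rawOf Γ ν a).Cm (j + 1) t)
      - mulr ((rawOf Γ ν a).dB (j + 1)) ((rawOf Γ ν a).B (j + 1) t) + e + r := by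
  have sA : Supp (Γ.M j) (sw (ampB Γ j (a t))) := (supp_mk _ _).sw
  have r0 : (4 : ℝ) / 5 ≤ rho Γ j := (rho_bounds j).1
  have t2 := T_two (Γ := Γ) j
  have l0 := lam_pos (Γ := Γ) j
  refine ⟨mk (box (Γ.M (j + 1))) fun h => ∑ g ∈ box (Γ.M j),
      ((c1 Γ j h g - cB Γ j) * ((sw (ampB Γ j (a t))).coeff g *
          ((rho Γ j : ℂ)⁻¹ * (ampM Γ (j + 1) (a t)).coeff (h - g))) +
        (c2 Γ j h g - cB Γ j) * ((dag (sw (ampB Γ j (a t)))).coeff g *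
          ((rho Γ j : ℂ)⁻¹ * (ampP Γ (j + 1) (a t)).coeff (h - g)))),
    mk (box (Γ.M (j + 1))) fun h => -⟪tv Γ (j + 1) h, rest Γ j (a t) (pt Γ (.b (j + 1)) 1 h)⟫_ℂ,
    ⟨fun h => ?_, (supp_mk _ _).mono (Nat.le_add_right _ _),
      (supp_mk _ _).mono (Nat.le_add_right _ _), norm_rest H j⟩, ?_⟩
  · change _ ≤ (Γ.T j ^ 100)⁻¹ * √(cB Γ j * cC Γ j) * ‖(maj (sw (ampB Γ j (a t)))
      (ampB Γ (j + 1) (a t)) (ampP Γ (j + 1) (a t)) (ampM Γ (j + 1) (a t))).coeff h‖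
    rw [coeff_mk]
    split_ifs with hh
    swap
    · rw [norm_zero]; positivity
    rw [norm_coeff_maj sA, Finset.mul_sum]
    refine (norm_sum_le _ _).trans (Finset.sum_le_sum fun g hg => (norm_add_le _ _).trans ?_)
    have nr : ‖(rho Γ j : ℂ)⁻¹‖ ≤ 5 / 4 := by
      rw [norm_inv, Complex.norm_real, Real.norm_of_nonneg (by linarith)]
      exact (inv_anti₀ (by norm_num) r0).trans (by norm_num)
    have one : ∀ c x y : ℂ, ‖c‖ ≤ (Γ.T j ^ 100)⁻¹ * (Γ.lam j / 5) →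
        ‖c * (x * ((rho Γ j : ℂ)⁻¹ * y))‖ ≤
          (Γ.T j ^ 100)⁻¹ * √(cB Γ j * cC Γ j) * (‖x‖ * ‖y‖) := by
      intro c x y hc
      rw [norm_mul, norm_mul, norm_mul]
      calc ‖c‖ * (‖x‖ * (‖(rho Γ j : ℂ)⁻¹‖ * ‖y‖))
          ≤ (Γ.T j ^ 100)⁻¹ * (Γ.lam j / 5) * (‖x‖ * (5 / 4 * ‖y‖)) := by (clear * - t2 l0 nr hc; gcongr)
        _ = (Γ.T j ^ 100)⁻¹ * (Γ.lam j / 4) * (‖x‖ * ‖y‖) := by ring
        _ ≤ _ := by gcongr; exact kap_ge j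
    refine (add_le_add (one _ _ _ (c1_close hh hg)) (one _ _ _ (c2_close hh hg))).trans ?_
    rw [← mul_add]
    refine mul_le_mul_of_nonneg_left ?_ (by positivity)
    have n1 := norm_nonneg ((sw (ampB Γ j (a t))).coeff g)
    have n2 := norm_nonneg ((dag (sw (ampB Γ j (a t)))).coeff g)
    have n3 := norm_nonneg ((ampB Γ (j + 1) (a t)).coeff (h - g))
    have n4 := norm_nonneg ((ampP Γ (j + 1) (a t)).coeff (h - g))
    have n5 := norm_nonneg ((ampM Γ (j + 1) (a t)).coeff (h - g))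
    linarith only [mul_nonneg n1 n3, mul_nonneg n1 n4, mul_nonneg n2 n3, mul_nonneg n2 n5]
  · ext h
    by_cases hh : h ∈ box (Γ.M (j + 1))
    · have kr : ((√(cB Γ j * cC Γ j) : ℝ) : ℂ) = cB Γ j * (rho Γ j : ℂ)⁻¹ := by
        have : (rho Γ j : ℂ) ≠ 0 := by exact_mod_cast (by linarith : rho Γ j ≠ 0)
        rw [eq_mul_inv_iff_mul_eq₀ this, ← Complex.ofReal_mul, kap_mul_rho]
      simp only [AddMonoidAlgebra.coeff_add, AddMonoidAlgebra.coeff_sub,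
        AddMonoidAlgebra.coeff_smul, Finsupp.add_apply, Finsupp.sub_apply, Finsupp.smul_apply,
        coeff_mk, coeff_proj, if_pos hh, coeff_mulr, rawOf, Raw.A, inner_rhs ν (a t) hh,
        inner_BB H hh, coeff_mul_eq _ sA.subset, coeff_mul_eq _ sA.dag.subset, smul_eq_mul, kr,
        ← Finset.sum_add_distrib, Finset.mul_sum]
      rw [add_sub_right_comm, sub_add_eq_add_sub (∑ _ ∈ _, _) _ (∑ _ ∈ _, _),
        ← Finset.sum_add_distrib]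
      congr 2
      exact Finset.sum_congr rfl fun g _ => by ring
    · simp [coeff_mk, coeff_proj, hh, rawOf, ampB]

end EB

end

end Pool.Agent.Work.MP_6bf1e5_an.Dec
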