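import Pool.Agent.Work.MP_6bf1e5_an.Dec.Rest

/-!
The equations of the negative packets.
-/

open Set Complex
open scoped InnerProductSpace ComplexConjugate
open Pool.Agent.Work.MP_6bf1e5_an.B

namespace Pool.Agent.Work.MP_6bf1e5_an.Dec

noncomputable section

variable {Γ : Geo}

namespace EqP

lemma des_c {ρ σ τ : Row} {j : ℕ} (h : Des Γ ρ σ τ) :
    (ρ ≠ .c j) ∧ (σ = .c j → ρ = .b (j + 1) ∧ τ = .y j 1) ∧
      (τ = .c j → (ρ = .b j ∧ σ = .b (j + 1)) ∨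
        ∃ i, j = i + 1 ∧ ρ = .y i (Γ.n (i + 1) - 2) ∧ σ = .y i (Γ.n (i + 1) - 1)) := by
  cases h with
  | strain i =>
    refine ⟨by simp, by simp, fun h => ?_⟩
    obtain rfl : i = j := by simpa using h
    exact Or.inl ⟨rfl, rfl⟩
  | one i =>
    refine ⟨by simp, fun h => ?_, by simp⟩
    obtain rfl : i = j := by simpa using h
    exact ⟨rfl, rfl⟩
  | two i => exact ⟨by simp, by simp, by simp⟩
  | fib i m h1 h2 =>
    refine ⟨by simp, by simp, fun h => Or.inr ⟨i, ?_⟩⟩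
    unfold yr at h
    split_ifs at h with hm
    · obtain rfl : i + 1 = j := by simpa using h
      refine ⟨rfl, ?_, ?_⟩
      · rw [← hm]; rfl
      · rw [← hm]; rfl

/-- The triads which contain a negative packet. -/
lemma cls {ρ σ : Row} {j : ℕ} (h : Des' Γ ρ σ (.c j)) :
    (ρ = .b j ∧ σ = .b (j + 1)) ∨ (σ = .b j ∧ ρ = .b (j + 1)) ∨
      (ρ = .y j 1 ∧ σ = .b (j + 1)) ∨ (σ = .y j 1 ∧ ρ = .b (j + 1)) ∨
      (∃ i, j = i + 1 ∧ ρ = .y i (Γ.n (i + 1) - 1) ∧ σ = .y i (Γ.n (i + 1) - 2)) ∨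
      ∃ i, j = i + 1 ∧ σ = .y i (Γ.n (i + 1) - 1) ∧ ρ = .y i (Γ.n (i + 1) - 2) := by
  rcases h with h | h | h | h | h | h
  · rcases (des_c h).2.2 rfl with h | ⟨i, h1, h2, h3⟩
    · exact Or.inl h
    · exact Or.inr (Or.inr (Or.inr (Or.inr (Or.inr ⟨i, h1, h3, h2⟩))))
  · have := (des_c h).2.1 rfl
    exact Or.inr (Or.inr (Or.inr (Or.inl ⟨this.2, this.1⟩)))
  · rcases (des_c h).2.2 rfl with h | ⟨i, h1, h2, h3⟩
    · exact Or.inr (Or.inl h)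
    · exact Or.inr (Or.inr (Or.inr (Or.inr (Or.inl ⟨i, h1, h3, h2⟩))))
  · have := (des_c h).2.1 rfl
    exact Or.inr (Or.inr (Or.inl ⟨this.2, this.1⟩))
  · exact absurd rfl (des_c h).1
  · exact absurd rfl (des_c h).1

lemma one_le_T (j : ℕ) : 1 ≤ Γ.T j := le_trans (by norm_num) (Γ.Tbig j)

lemma M_le (j : ℕ) : Γ.M j ≤ Γ.M (j + 1) := by
  have h := Γ.Llo j
  have h1 : (4 : ℝ) ≤ Γ.T j ^ 8 :=
    le_trans (le_trans (by norm_num) (Γ.Tbig j)) (le_self_pow₀ (one_le_T j) (by norm_num))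
  have h2 : (0 : ℝ) ≤ Γ.M j + 1 := by positivity
  have h3 : (Γ.M j : ℝ) + 1 ≤ Γ.M (j + 1) + 1 := by nlinarith only [h, h1]
  exact_mod_cast (by linarith only [h3] : (Γ.M j : ℝ) ≤ Γ.M (j + 1))

lemma kap_eq (j : ℕ) : √(cB Γ j * cC Γ j) = rho Γ j * cC Γ j := by
  have hl := lam_pos (Γ := Γ) j
  have hB := (cB_bounds (Γ := Γ) j).1
  have hC := (cC_bounds (Γ := Γ) j).1
  have c0 : 0 < cC Γ j := by linarith only [hl, hC]
  have b0 : 0 < cB Γ j := by linarith only [hl, hB]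
  rw [rho]
  calc √(cB Γ j * cC Γ j) = √(cB Γ j / cC Γ j * cC Γ j ^ 2) := by congr 1; field_simp
    _ = _ := by rw [Real.sqrt_mul (by (clear * - c0 b0; positivity)), Real.sqrt_sq c0.le]

/-- The driver mode with offset `g`. -/
def kd (Γ : Geo) (j : ℕ) (g : Z3) : Z3 := swE (pt Γ (.b j) 1 (swE g))

lemma swE_swE (k : Z3) : swE (swE k) = k := by
  ext i; fin_cases i <;> rfl

lemma kd_inj (j : ℕ) : Function.Injective (kd Γ j) :=
  swE.injective.comp ((pt_injective _ _).comp swE.injective)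

lemma sub_kd (j : ℕ) (h g : Z3) :
    pt Γ (.c j) 1 h - kd Γ j g = pt Γ (.b (j + 1)) 1 (h - g) := by
  ext i
  fin_cases i <;> simp [pt, kd, swE_apply, Row.X, Row.W] <;> ring

lemma kd_mem {j : ℕ} {g : Z3} (hg : g ∈ box (Γ.M j)) : kd Γ j g ∈ Orb Γ (.b j) :=
  sw_mem_Orb.mpr (pt_mem_Orb (ρ := .b j) (Or.inl rfl) (swE_mem_box.mpr hg))

/-- The source point at the top of the previous chain. -/
def top (Γ : Geo) : ℕ → Z3 → Finset Z3
  | 0, _ => ∅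
  | i + 1, h => if h = 0 then {pt Γ (.y i (Γ.n (i + 1) - 1)) 1 0} else ∅

lemma ok_top1 (i : ℕ) : (Row.y i (Γ.n (i + 1) - 1)).ok Γ := by
  have := Γ.n8 (i + 1)
  constructor <;> omega

lemma ok_top2 (i : ℕ) : (Row.y i (Γ.n (i + 1) - 2)).ok Γ := by
  have := Γ.n8 (i + 1)
  constructor <;> omega

lemma ok_one (j : ℕ) : (Row.y j 1).ok Γ := by
  have := Γ.n8 (j + 1)
  constructor <;> omega

lemma mem_top {j : ℕ} {h k : Z3} (hk : k ∈ top Γ j h) :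
    ∃ i, j = i + 1 ∧ k ∈ Orb Γ (.y i (Γ.n (i + 1) - 1)) := by
  cases j with
  | zero => simp [top] at hk
  | succ i =>
    simp only [top] at hk
    split_ifs at hk
    · obtain rfl := Finset.mem_singleton.mp hk
      exact ⟨i, rfl, pt_mem_Orb (Or.inl rfl) (zero_mem_box _)⟩
    · simp at hk

/-- The modes which carry the main terms. -/
def Fs (Γ : Geo) (j : ℕ) (h : Z3) : Finset Z3 := (box (Γ.M j)).image (kd Γ j) ∪ top Γ j h

lemma mem_Fs {j : ℕ} {h k : Z3} (hk : k ∈ Fs Γ j h) :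
    k ∈ Orb Γ (.b j) ∨ ∃ i, j = i + 1 ∧ k ∈ Orb Γ (.y i (Γ.n (i + 1) - 1)) := by
  rcases Finset.mem_union.mp hk with hk | hk
  · obtain ⟨g, hg, rfl⟩ := Finset.mem_image.mp hk
    exact Or.inl (kd_mem hg)
  · exact Or.inr (mem_top hk)

lemma triad {ρ σ : Row} (oρ : ρ.ok Γ) (oσ : σ.ok Γ) {j : ℕ} {h k : Z3}
    (hh : h ∈ box (Γ.M (j + 1) + Γ.M j)) (hk : k ∈ Orb Γ ρ)
    (hl : pt Γ (.c j) 1 h - k ∈ Orb Γ σ) : Des' Γ ρ σ (.c j) :=
  triad_rows oρ oσ trivial hk hl (by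
    rw [add_sub_cancel]; exact pt_mem_Orb (ρ := .c j) (Or.inl rfl) hh)

lemma Fs_sep {j : ℕ} {h : Z3} (hh : h ∈ box (Γ.M (j + 1) + Γ.M j)) :
    ∀ k ∈ Fs Γ j h, pt Γ (.c j) 1 h - k ∉ Fs Γ j h := by
  intro k hk0 hl0
  rcases mem_Fs hk0 with hk | ⟨i, e, hk⟩ <;> rcases mem_Fs hl0 with hl | ⟨i', e', hl⟩
  · have := cls (triad (ρ := .b j) (σ := .b j) trivial trivial hh hk hl)
    simp at this
  · have := cls (triad (ρ := .b j) trivial (ok_top1 i') hh hk hl)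
    simp at this
  · have := cls (triad (σ := .b j) (ok_top1 i) trivial hh hk hl)
    simp at this
  · have n8 := Γ.n8 (i + 1)
    have := cls (triad (ok_top1 i) (ok_top1 i') hh hk hl)
    simp only [reduceCtorEq, and_false, false_or, Row.y.injEq] at this
    rcases this with ⟨i0, -, ⟨rfl, -⟩, rfl, h2⟩ | ⟨i0, -, ⟨rfl, -⟩, rfl, h2⟩ <;> omega

lemma disj (j : ℕ) (h : Z3) : Disjoint ((box (Γ.M j)).image (kd Γ j)) (top Γ j h) := by
  refine Finset.disjoint_left.mpr fun k h1 h2 => ?_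
  obtain ⟨g, hg, rfl⟩ := Finset.mem_image.mp h1
  obtain ⟨i, -, hk⟩ := mem_top h2
  have := row_unique (ρ := .b j) trivial (ok_top1 i) (kd_mem hg) hk
  simp at this

variable {a : Z3 → C3}

/-- The vector with unit amplitude at a driver mode. -/
def vd (Γ : Geo) (j : ℕ) (g : Z3) : C3 := Sg (uu 1 (pt Γ (.b j) 1 (swE g)) ((Row.b j).e Γ))

/-- The vector with unit amplitude at a mode of the positive packet. -/
def vb (Γ : Geo) (j : ℕ) (h : Z3) : C3 := uu 1 (pt Γ (.b j) 1 h) ((Row.b j).e Γ)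

/-- The test vector. -/
def wc (Γ : Geo) (j : ℕ) (h : Z3) : C3 := hP (-1) (pt Γ (.c j) 1 h) ((Row.c j).e Γ)

/-- The coefficient of a strain triad. -/
def cg (Γ : Geo) (j : ℕ) (h g : Z3) : ℂ :=
  cf (wc Γ j h) (pt Γ (.b (j + 1)) 1 (h - g)) (vb Γ (j + 1) (h - g)) (kd Γ j g) (vd Γ j g)

lemma Sg_smul (c : ℂ) (v : C3) : Sg (c • v) = c • Sg v := by
  ext i; fin_cases i <;> simp [Sg]

lemma Sg_sub (u v : C3) : Sg (u - v) = Sg u - Sg v := by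
  ext i; fin_cases i <;> simp [Sg]

lemma at_kd (H : Adm Γ a) {j : ℕ} {g : Z3} (hg : g ∈ box (Γ.M j)) :
    a (kd Γ j g) = (sw (ampB Γ j a)).coeff g • vd Γ j g := by
  rw [kd, H.sym.sg, H.at_b (swE_mem_box.mpr hg), Sg_smul, coeff_sw, vd]

lemma at_l (H : Adm Γ a) {j : ℕ} {h g : Z3} (hh : h ∈ box (Γ.M (j + 1) + Γ.M j))
    (hg : g ∈ box (Γ.M j)) :
    a (pt Γ (.b (j + 1)) 1 (h - g)) = (ampB Γ (j + 1) a).coeff (h - g) • vb Γ (j + 1) (h - g) := by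
  by_cases hb : h - g ∈ box (Γ.M (j + 1))
  · exact H.at_b hb
  have z : (ampB Γ (j + 1) a).coeff (h - g) = 0 := supp_mk _ _ _ hb
  rw [z, zero_smul]
  by_contra hne
  obtain ⟨σ, oσ, hσ⟩ := H.row hne
  have hc := cls (triad (ρ := .b j) trivial oσ hh (kd_mem hg) (by rw [sub_kd]; exact hσ))
  obtain rfl : σ = .b (j + 1) := by simpa using hc
  refine hb (box_of_pt_b ?_ hσ)
  have hM := M_le (Γ := Γ) j
  have := add_mem_box hh (neg_mem_box.mpr hg)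
  rw [← sub_eq_add_neg] at this
  exact box_mono (by omega) this

lemma wc_near {j : ℕ} {h : Z3} (hh : h ∈ box (Γ.M (j + 1) + Γ.M j)) :
    ‖wc Γ j h - (Row.c j).e Γ‖ ≤ (Γ.T (j + 1) ^ 800)⁻¹ :=
  (uu_near (ρ := .c j) trivial (by simp) hh).1

lemma norm_wc {j : ℕ} {h : Z3} (hh : h ∈ box (Γ.M (j + 1) + Γ.M j)) : ‖wc Γ j h‖ ≤ 2 := by
  have h1 := wc_near hh
  have h2 : (Γ.T (j + 1) ^ 800)⁻¹ ≤ 1 := inv_le_one_of_one_le₀ (one_le_pow₀ (one_le_T _))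
  have h3 := norm_e (Γ := Γ) (ρ := .c j) trivial
  have h4 := norm_le_norm_add_norm_sub' (wc Γ j h) ((Row.c j).e Γ)
  linarith

lemma small {T l c : ℝ} (hT : 10 ^ 100 ≤ T) (hl : 0 < l) (hc : 3 / 10 * l ≤ c) :
    14 * (T ^ 800)⁻¹ * (2 * (T ^ 8 * l)) + 16 * ((T ^ 800)⁻¹ * (T ^ 8 * l)) ≤ (T ^ 100)⁻¹ * c := by
  have T1 : 1 ≤ T := le_trans (by norm_num) hT
  have T0 : 0 < T := by linarith only [hT]
  have e : (T ^ 800)⁻¹ * T ^ 8 = (T ^ 100)⁻¹ * (T ^ 692)⁻¹ := by field_simp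
  have h1 : (T ^ 692)⁻¹ ≤ 1 / 1000 := by
    rw [one_div]
    refine inv_anti₀ (by norm_num) ?_
    exact le_trans (le_trans (by norm_num) hT) (le_self_pow₀ T1 (by norm_num))
  have p : 0 < (T ^ 100)⁻¹ := by positivity
  calc _ = 44 * ((T ^ 800)⁻¹ * T ^ 8) * l := by ring
    _ = (T ^ 100)⁻¹ * (44 * ((T ^ 692)⁻¹ * l)) := by rw [e]; ring
    _ ≤ _ := by
      refine mul_le_mul_of_nonneg_left ?_ p.le
      have := mul_le_mul_of_nonneg_right h1 hl.le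
      linarith only [hl, hc, this]

lemma cg_near {j : ℕ} {h g : Z3} (hh : h ∈ box (Γ.M (j + 1) + Γ.M j)) (hg : g ∈ box (Γ.M j))
    (hb : h - g ∈ box (Γ.M (j + 1))) : ‖cg Γ j h g - cC Γ j‖ ≤ (Γ.T j ^ 100)⁻¹ * cC Γ j := by
  have T1 := one_le_T (Γ := Γ) j
  have T0 : 0 < Γ.T j := by linarith
  have hl := lam_pos (Γ := Γ) j
  have m8 : (Γ.T (j + 1) ^ 800)⁻¹ ≤ (Γ.T j ^ 800)⁻¹ :=
    inv_anti₀ (by positivity) (pow_le_pow_left₀ T0.le (Γ.Tmono j) _)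
  have m5 : (Γ.T j ^ 850)⁻¹ ≤ (Γ.T j ^ 800)⁻¹ :=
    inv_anti₀ (by positivity) (pow_le_pow_right₀ T1 (by norm_num))
  have m6 : (Γ.T (j + 1) ^ 850)⁻¹ ≤ (Γ.T j ^ 850)⁻¹ :=
    inv_anti₀ (by positivity) (pow_le_pow_left₀ T0.le (Γ.Tmono j) _)
  have ll : Γ.lam j ≤ Γ.T j ^ 8 * Γ.lam j := le_mul_of_one_le_left hl.le (one_le_pow₀ T1)
  rw [← cf_C, cg]
  refine le_trans (cf_lip (δ := (Γ.T j ^ 800)⁻¹) (ζ := (Γ.T j ^ 800)⁻¹ * (Γ.T j ^ 8 * Γ.lam j))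
    (L := 2 * (Γ.T j ^ 8 * Γ.lam j)) (inv_le_one_of_one_le₀ (one_le_pow₀ T1))
    (norm_e (ρ := .c j) trivial).le (norm_e (ρ := .b (j + 1)) trivial).le
    (by rw [norm_Sg]; exact (norm_e (ρ := .b j) trivial).le) ((wc_near hh).trans m8)
    ((uu_near (ρ := .b (j + 1)) trivial (by simp) hb).2.trans m8) ?_ ?_ ?_ ?_ ?_) ?_
  · rw [vd, ← Sg_sub, norm_Sg]
    exact (uu_near (ρ := .b j) trivial (by simp) (swE_mem_box.mpr hg)).2
  · refine (ax_offset (ρ := .b (j + 1)) 1 hb).trans ?_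
    simp only [Row.lev]
    rw [lam_succ]
    exact mul_le_mul_of_nonneg_right (m6.trans m5) (by positivity)
  · rw [kd, ← map_sub, ax_swE]
    refine (ax_offset (ρ := .b j) 1 (swE_mem_box.mpr hg)).trans ?_
    simp only [Row.lev]
    exact mul_le_mul m5 ll hl.le (by positivity)
  · rw [← lam_succ]
    exact (ax_b (pt_mem_Orb (ρ := .b (j + 1)) (Or.inl rfl) (zero_mem_box _))).2
  · rw [ax_swE]
    have := (ax_b (pt_mem_Orb (Γ := Γ) (ρ := .b j) (Or.inl rfl) (zero_mem_box _))).2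
    linarith only [ll, this]
  · exact small (Γ.Tbig j) hl (cC_bounds j).1

/-- The symmetrised term of the convolution. -/
def sy (a : Z3 → C3) (r k : Z3) : C3 :=
  (I * dt (a k) (r - k)) • a (r - k) + (I * dt (a (r - k)) k) • a k

lemma sy_kd (H : Adm Γ a) {j : ℕ} {h g : Z3} (hh : h ∈ box (Γ.M (j + 1) + Γ.M j))
    (hg : g ∈ box (Γ.M j)) :
    -⟪wc Γ j h, sy a (pt Γ (.c j) 1 h) (kd Γ j g)⟫_ℂ =
      cg Γ j h g * ((sw (ampB Γ j a)).coeff g * (ampB Γ (j + 1) a).coeff (h - g)) := by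
  rw [sy, sub_kd, at_l H hh hg, at_kd H hg, inner_sym_term, cg, cf_comm]

/-- The seed. -/
def sd (Γ : Geo) (j : ℕ) (a : Z3 → C3) : ℝ :=
  if j + 1 ≤ 1 then 0 else cY Γ (j + 1 - 2) (Γ.n (j + 1 - 1)) *
    (yA Γ (j + 1 - 2) (Γ.n (j + 1 - 1) - 1) a * yA Γ (j + 1 - 2) (Γ.n (j + 1 - 1) - 2) a)

lemma sy_top (H : Adm Γ a) (j : ℕ) (h : Z3) :
    (rho Γ j : ℂ) * ∑ k ∈ top Γ j h, -⟪wc Γ j h, sy a (pt Γ (.c j) 1 h) k⟫_ℂ =
      (sd Γ j a : ℂ) * dl.coeff h := by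
  cases j with
  | zero => simp [top, sd]
  | succ i =>
    rw [coeff_dl, top]
    split_ifs with h0
    swap
    · simp
    subst h0
    have n8 := Γ.n8 (i + 1)
    have hy : yr Γ i (Γ.n (i + 1)) = .c (i + 1) := if_pos rfl
    have hp := fib_pt (Γ := Γ) (j := i) (m := Γ.n (i + 1)) (by omega) le_rfl
    rw [hy] at hp
    have hw : wc Γ (i + 1) 0 = (Row.c (i + 1)).e Γ := hP_e (ρ := .c (i + 1)) trivial (by simp)
    have hs := cY0_spec (Γ := Γ) (j := i) (m := Γ.n (i + 1)) (by omega) le_rfl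
    have hc : cY0 Γ i (Γ.n (i + 1)) = ((cY0 Γ i (Γ.n (i + 1))).re : ℂ) :=
      Complex.ext (by simp) (by simpa using hs.1)
    have e1 : i + 1 + 1 - 2 = i := rfl
    have e2 : i + 1 + 1 - 1 = i + 1 := rfl
    rw [Finset.sum_singleton, sy, hp, add_sub_cancel_left, hw,
      (H.at_y (ok_top1 i).1 (ok_top1 i).2).1, (H.at_y (ok_top2 i).1 (ok_top2 i).2).2,
      inner_sym_term, sd, if_neg (by omega), e1, e2, cY, if_neg (by omega), if_pos rfl,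
      yA, if_neg (by omega), if_pos (by omega), yA, if_neg (by omega), if_pos (by omega)]
    push_cast
    rw [← hc, cY0, if_neg (by omega), if_neg (by omega), hy]
    ring

open Classical in
/-- The remaining interactions. -/
def rs (Γ : Geo) (j : ℕ) (a : Z3 → C3) (h : Z3) : C3 :=
  ∑' k, if k ∉ Fs Γ j h ∧ pt Γ (.c j) 1 h - k ∉ Fs Γ j h then
    (I * dt (a k) (pt Γ (.c j) 1 h - k)) • a (pt Γ (.c j) 1 h - k) else 0

lemma mem_Fs_b {j : ℕ} {h k : Z3} (hh : h ∈ box (Γ.M (j + 1) + Γ.M j)) (hk : k ∈ Orb Γ (.b j))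
    (hl : pt Γ (.c j) 1 h - k ∈ Orb Γ (.b (j + 1))) : k ∈ Fs Γ j h := by
  obtain ⟨g, hg, rfl⟩ := fine_C hh hk hl
  exact Finset.mem_union_left _
    (Finset.mem_image.mpr ⟨swE g, swE_mem_box.mpr hg, by rw [kd, swE_swE]⟩)

lemma mem_Fs_y {i : ℕ} {h k : Z3} (hh : h ∈ box (Γ.M (i + 2) + Γ.M (i + 1)))
    (hk : k ∈ Orb Γ (.y i (Γ.n (i + 1) - 1)))
    (hl : pt Γ (.c (i + 1)) 1 h - k ∈ Orb Γ (.y i (Γ.n (i + 1) - 2))) : k ∈ Fs Γ (i + 1) h := by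
  obtain ⟨rfl, rfl⟩ := fine_top hh hk hl
  exact Finset.mem_union_right _ (by simp [top])

lemma norm_rs (H : Adm Γ a) {j : ℕ} {h : Z3} (hh : h ∈ box (Γ.M (j + 1) + Γ.M j))
    {Y : Finset Z3} (hY : ∀ k, k ∈ Orb Γ (.y j 1) ↔ k ∈ Y) :
    ‖rs Γ j a h‖ ≤ 2 * Γ.lam (j + 1) *
      (0 + 2 * ∑ y ∈ Y, ‖a y‖ * nb a (Lv Γ (j + 1)) (pt Γ (.c j) 1 h - y)) := by
  classical
  refine H.rest_le (U := ∅) (ax_c (pt_mem_Orb (ρ := .c j) (Or.inl rfl) hh)).2 (fun F hF => ?_) ?_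
  · rw [Finset.eq_empty_of_forall_notMem (s := F) fun k hk => hF k hk, Finset.sum_empty]
  · rintro k ⟨n1, n2⟩ h1 h2
    obtain ⟨ρ, oρ, hρ⟩ := H.row h1
    obtain ⟨σ, oσ, hσ⟩ := H.row h2
    rcases cls (triad oρ oσ hh hρ hσ) with ⟨rfl, rfl⟩ | ⟨rfl, rfl⟩ | ⟨rfl, rfl⟩ | ⟨rfl, rfl⟩ |
      ⟨i, rfl, rfl, rfl⟩ | ⟨i, rfl, rfl, rfl⟩
    · exact absurd (mem_Fs_b hh hρ hσ) n1
    · exact absurd (mem_Fs_b hh hσ (by rwa [sub_sub_cancel])) n2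
    · exact Or.inr (Or.inl ⟨(hY _).mp hρ, Or.inl hσ⟩)
    · exact Or.inr (Or.inr ⟨(hY _).mp hσ, Or.inl hρ⟩)
    · exact absurd (mem_Fs_y hh hρ hσ) n1
    · exact absurd (mem_Fs_y hh hσ (by rwa [sub_sub_cancel])) n2

/-- The error in the strain term. -/
def ee (Γ : Geo) (j : ℕ) (a : Z3 → C3) : V :=
  mk (box (Γ.M (j + 1) + Γ.M j)) fun h => (rho Γ j : ℂ) * ∑ g ∈ box (Γ.M j),
    (cg Γ j h g - cC Γ j) * ((sw (ampB Γ j a)).coeff g * (ampB Γ (j + 1) a).coeff (h - g))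

/-- The remainder. -/
def rr (Γ : Geo) (j : ℕ) (a : Z3 → C3) : V :=
  mk (box (Γ.M (j + 1) + Γ.M j)) fun h => -((rho Γ j : ℂ) * ⟪wc Γ j h, rs Γ j a h⟫_ℂ)

lemma supp_A (j : ℕ) (a : Z3 → C3) : Supp (Γ.M j) (sw (ampB Γ j a)) := (supp_mk _ _).sw

lemma ee_le (j : ℕ) (a : Z3 → C3) (h : Z3) :
    ‖(ee Γ j a).coeff h‖ ≤ (Γ.T j ^ 100)⁻¹ * √(cB Γ j * cC Γ j) *
      ‖(maj (sw (ampB Γ j a)) (ampB Γ (j + 1) a) (ampP Γ (j + 1) a) (ampM Γ (j + 1) a)).coeff h‖ := by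
  have T0 : 0 < Γ.T j := lt_of_lt_of_le one_pos (one_le_T j)
  have r0 : 0 ≤ rho Γ j := Real.sqrt_nonneg _
  have c0 : 0 ≤ cC Γ j := by
    have := lam_pos (Γ := Γ) j
    have := (cC_bounds (Γ := Γ) j).1
    linarith
  rw [ee, coeff_mk]
  split_ifs with hh
  swap
  · rw [norm_zero]; positivity
  rw [norm_coeff_maj (supp_A j a), kap_eq, norm_mul, Complex.norm_real, Real.norm_of_nonneg r0,
    mul_left_comm, mul_assoc (rho Γ j)]
  refine mul_le_mul_of_nonneg_left ((norm_sum_le _ _).trans ?_) r0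
  rw [Finset.mul_sum]
  refine Finset.sum_le_sum fun g hg => ?_
  by_cases hb : h - g ∈ box (Γ.M (j + 1))
  · rw [norm_mul, norm_mul]
    refine mul_le_mul (cg_near hh hg hb) ?_ (by positivity) (by positivity)
    refine mul_le_mul (le_add_of_nonneg_right (norm_nonneg _)) ?_ (norm_nonneg _) (by positivity)
    rw [add_assoc]
    exact le_add_of_nonneg_right (by positivity)
  · have z : (ampB Γ (j + 1) a).coeff (h - g) = 0 := supp_mk _ _ _ hb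
    conv_lhs => rw [z, mul_zero, mul_zero, norm_zero]
    (clear * - T0 c0; positivity)

lemma rr_le (H : Adm Γ a) (j : ℕ) :
    ‖rr Γ j a‖ ≤ 10 ^ 4 * Γ.lam (j + 1) * (√(En Γ (j + 2) a) * nrA Γ (j + 1) a +
      NN (Γ.M (j + 1)) * nrA Γ (j + 2) a ^ 2) := by
  obtain ⟨Y, hc, hY⟩ := orb_y_card (Γ := Γ) j 1
  have hl := lam_pos (Γ := Γ) (j + 1)
  have n0 : 0 ≤ nrA Γ (j + 1) a := Real.sqrt_nonneg _
  have r0 : 0 ≤ rho Γ j := Real.sqrt_nonneg _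
  have key := norm_mk_rest (a := a) (n := Γ.M (j + 1) + Γ.M j)
    (R := fun h => -((rho Γ j : ℂ) * ⟪wc Γ j h, rs Γ j a h⟫_ℂ)) (pt_injective (Γ := Γ) (.c j) 1)
    (W := Lv Γ (j + 1)) (Y := Y) (c := 6 * Γ.lam (j + 1)) (X := 0) (Z := 3 * nrA Γ (j + 1) a)
    (b := √(En Γ (j + 2) a)) (by positivity) le_rfl (by positivity)
    (fun F hF => (H.sum_Lv F hF).trans (by linarith only [sq_nonneg (nrA Γ (j + 1) a)]))
    (fun y hy => by
      rw [H.norm_y le_rfl (ok_one (Γ := Γ) j).2 ((hY y).mpr hy)]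
      exact Real.abs_le_sqrt (H.ampY_le le_rfl (ok_one (Γ := Γ) j).2))
    (fun h hh => by
      have h1 := norm_rs H hh hY
      have h2 := norm_inner_le_norm (𝕜 := ℂ) (wc Γ j h) (rs Γ j a h)
      have h3 := mul_le_mul_of_nonneg_right (norm_wc hh) (norm_nonneg (rs Γ j a h))
      have h4 := mul_le_mul_of_nonneg_right (rho_bounds (Γ := Γ) j).2
        (norm_nonneg ⟪wc Γ j h, rs Γ j a h⟫_ℂ)
      have h5 := norm_nonneg (rs Γ j a h)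
      rw [norm_neg, norm_mul, Complex.norm_real, Real.norm_of_nonneg r0]
      linarith only [h1, h2, h3, h4, h5])
  refine key.trans ?_
  have c8 : (Y.card : ℝ) ≤ 8 := by exact_mod_cast hc
  have p1 : 0 ≤ √(En Γ (j + 2) a) * nrA Γ (j + 1) a := by positivity
  have p2 : 0 ≤ NN (Γ.M (j + 1)) * nrA Γ (j + 2) a ^ 2 := by have := NN_pos (Γ.M (j + 1)); (clear * - this; positivity)
  have p3 := mul_le_mul_of_nonneg_right c8 p1
  have p4 : 6 * (3 * NN (Γ.M (j + 1) + Γ.M j) * 0 +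
      2 * (Y.card * (√(En Γ (j + 2) a) * (3 * nrA Γ (j + 1) a)))) ≤
      10 ^ 4 * (√(En Γ (j + 2) a) * nrA Γ (j + 1) a + NN (Γ.M (j + 1)) * nrA Γ (j + 2) a ^ 2) := by
    linarith only [p1, p2, p3]
  have p5 := mul_le_mul_of_nonneg_left p4 hl.le
  linarith only [p5]

lemma main_eq (ν : ℝ) (H : Adm Γ a) (j : ℕ) :
    (mk (box (Γ.M (j + 1) + Γ.M j)) fun h =>
      (rho Γ j : ℂ) * ⟪(Row.c j).e Γ, rhs Γ ν a (pt Γ (.c j) 1 h)⟫_ℂ) =
    ((√(cB Γ j * cC Γ j) : ℝ) : ℂ) • (sw (ampB Γ j a) * ampB Γ (j + 1) a)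
      - mulr (dPr Γ ν (j + 1)) (ampP Γ (j + 1) a) + (sd Γ j a : ℂ) • dl + ee Γ j a + rr Γ j a := by
  classical
  ext h
  have ex : ∀ (c d : ℂ) (x y z u v : V), (c • x - y + d • z + u + v).coeff h =
      c * x.coeff h - y.coeff h + d * z.coeff h + u.coeff h + v.coeff h := by
    intro c d x y z u v; simp
  rw [ex, coeff_mulr, coeff_mk, ee, coeff_mk, rr, coeff_mk, ampP, coeff_mk]
  split_ifs with hh
  · have hs := H.BB_split (pt Γ (.c j) 1 h) (Fs Γ j h) (Fs_sep hh)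
    have hs' : BB a a (pt Γ (.c j) 1 h) =
        ∑ k ∈ Fs Γ j h, sy a (pt Γ (.c j) 1 h) k + rs Γ j a h := hs
    have hl : ⟪(Row.c j).e Γ, G.lapS ν (pt Γ (.c j) 1 h) (a (pt Γ (.c j) 1 h))⟫_ℂ =
        ((ν * ax (pt Γ (.c j) 1 h) ^ 2 : ℝ) : ℂ) * ⟪(Row.c j).e Γ, a (pt Γ (.c j) 1 h)⟫_ℂ := by
      rw [← inner_smul_right]; rfl
    have hp : ⟪(Row.c j).e Γ, G.PS 1 (SS Γ 1) (SS Γ (-1)) (pt Γ (.c j) 1 h)
        (BB a a (pt Γ (.c j) 1 h))⟫_ℂ = ⟪wc Γ j h, BB a a (pt Γ (.c j) 1 h)⟫_ℂ :=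
      inner_PS (ρ := .c j) trivial (by simp) hh _
    have hm : ∑ g ∈ box (Γ.M j), -⟪wc Γ j h, sy a (pt Γ (.c j) 1 h) (kd Γ j g)⟫_ℂ =
        ∑ g ∈ box (Γ.M j),
          cg Γ j h g * ((sw (ampB Γ j a)).coeff g * (ampB Γ (j + 1) a).coeff (h - g)) :=
      Finset.sum_congr rfl fun g hg => sy_kd H hh hg
    have ht := sy_top H j h
    rw [Finset.sum_neg_distrib] at hm ht
    rw [rhs, inner_sub_right, inner_neg_right, hl, hp, hs', inner_add_right, inner_sum, Fs,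
      Finset.sum_union (disj j h), Finset.sum_image fun _ _ _ _ e => kd_inj j e,
      coeff_mul_eq _ (supp_A j a).subset, kap_eq, ← ht, dPr, if_pos hh]
    simp only [sub_mul, Finset.sum_sub_distrib, ← Finset.mul_sum]
    rw [← hm]
    push_cast
    ring
  · have z1 : (sw (ampB Γ j a) * ampB Γ (j + 1) a).coeff h = 0 :=
      (supp_A j a).mul (supp_mk _ _) h (by rwa [add_comm])
    rw [z1, supp_dl _ h hh]
    simp

lemma prm_av (e : Z3 ≃+ Z3) (f : V) : prm e (av f) = av (prm e f) := by ext h; simp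

lemma rxE_rxE (k : Z3) : rxE (rxE k) = k := by
  ext i; fin_cases i <;> simp [rxE_apply]

lemma prm_prm (f : V) : prm rxE (prm rxE f) = f := by ext h; simp [rxE_rxE]

lemma prm_B {f : V} (h : Sym f) : prm rxE f = f := by ext k; rw [coeff_prm, h.1]

lemma prm_A {f : V} (h : Sym f) : prm rxE (sw f) = dag (sw f) := by
  ext k
  rw [coeff_prm, coeff_sw, coeff_dag, coeff_sw, ← h.2, ← h.1]
  rfl

lemma prm_maj {f B P : V} (hf : Sym f) (hB : Sym B) :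
    prm rxE (maj (sw f) B P (prm rxE P)) = maj (sw f) B P (prm rxE P) := by
  have h1 : prm rxE (dag (sw f)) = sw f := by rw [← prm_A hf, prm_prm]
  simp only [maj, map_mul, map_add, prm_av, prm_A hf, h1, prm_B hB, prm_prm]
  ring

lemma supp_prm {n : ℕ} {f : V} (hf : Supp n f) : Supp n (prm rxE f) :=
  fun k hk => by rw [coeff_prm]; exact hf _ fun h => hk (rxE_mem_box.mp h)

end EqP

variable {ν t : ℝ} {a : ℝ → Z3 → C3}

theorem eqP_static (H : Adm Γ (a t)) (j : ℕ) : ∃ e r, (rawOf Γ ν a).Err Γ j t e r ∧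
    (mk (box (Γ.M (j + 1) + Γ.M j)) fun h =>
      (rho Γ j : ℂ) * ⟪(Row.c j).e Γ, rhs Γ ν (a t) (pt Γ (.c j) 1 h)⟫_ℂ) =
    ((rawOf Γ ν a).kap j : ℂ) • ((rawOf Γ ν a).A j t * (rawOf Γ ν a).B (j + 1) t)
      - mulr ((rawOf Γ ν a).dP (j + 1)) ((rawOf Γ ν a).Cp (j + 1) t)
      + ((rawOf Γ ν a).f (j + 1) t : ℂ) • dl + e + r :=
  ⟨EqP.ee Γ j (a t), EqP.rr Γ j (a t),
    ⟨EqP.ee_le j (a t), supp_mk _ _, supp_mk _ _, EqP.rr_le H j⟩, EqP.main_eq ν H j⟩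

theorem eqM_static (H : Adm Γ (a t)) (j : ℕ) : ∃ e r, (rawOf Γ ν a).Err Γ j t e r ∧
    prm rxE (mk (box (Γ.M (j + 1) + Γ.M j)) fun h =>
      (rho Γ j : ℂ) * ⟪(Row.c j).e Γ, rhs Γ ν (a t) (pt Γ (.c j) 1 h)⟫_ℂ) =
    ((rawOf Γ ν a).kap j : ℂ) • (dag ((rawOf Γ ν a).A j t) * (rawOf Γ ν a).B (j + 1) t)
      - mulr ((rawOf Γ ν a).dM (j + 1)) ((rawOf Γ ν a).Cm (j + 1) t)
      + ((rawOf Γ ν a).f (j + 1) t : ℂ) • dl + e + r := by
  refine ⟨prm rxE (EqP.ee Γ j (a t)), prm rxE (EqP.rr Γ j (a t)),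
    ⟨fun h => ?_, EqP.supp_prm (supp_mk _ _), EqP.supp_prm (supp_mk _ _), ?_⟩, ?_⟩
  · have h1 := EqP.ee_le (Γ := Γ) j (a t) (rxE h)
    rw [← coeff_prm, ← coeff_prm rxE (maj _ _ _ _), ampM,
      EqP.prm_maj (H.symB j) (H.symB (j + 1))] at h1
    exact h1
  · rw [norm_prm]
    exact EqP.rr_le H j
  · have hm : prm rxE (mulr (dPr Γ ν (j + 1)) (ampP Γ (j + 1) (a t))) =
        mulr (fun h => dPr Γ ν (j + 1) (rxE h)) (ampM Γ (j + 1) (a t)) := by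
      ext h; simp [ampM]
    rw [EqP.main_eq ν H j, map_add, map_add, map_add, map_sub, map_smul, map_smul, map_mul,
      EqP.prm_A (H.symB j), EqP.prm_B (H.symB (j + 1)), hm, dl_eq_one, map_one]
    rfl

end

end Pool.Agent.Work.MP_6bf1e5_an.Dec
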