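import Pool.Agent.Work.MP_6bf1e5_an.Dec.Amp

/-!
The equations of the chain.
-/

open Set Complex
open scoped InnerProductSpace ComplexConjugate
open Pool.Agent.Work.MP_6bf1e5_an.B

namespace Pool.Agent.Work.MP_6bf1e5_an.Dec

noncomputable section

variable {Γ : Geo}

variable {ν : ℝ} {a : Z3 → C3}

namespace EqYAux

lemma Sg_smul (c : ℂ) (v : C3) : Sg (c • v) = c • Sg v := by
  ext i; fin_cases i <;> simp [Sg]

lemma Sg_sub (u v : C3) : Sg (u - v) = Sg u - Sg v := by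
  ext i; fin_cases i <;> simp [Sg]

lemma pt_inj (ρ : Row) (e : ℤ) : Function.Injective (pt Γ ρ e) := fun g g' h => by
  have h0 := congrFun h 0
  have h1 := congrFun h 1
  have h2 := congrFun h 2
  simp only [pt, Matrix.cons_val_zero, Matrix.cons_val_one, Matrix.cons_val] at h0 h1 h2
  ext i
  fin_cases i
  · show g 0 = g' 0; omega
  · show g 1 = g' 1; omega
  · show g 2 = g' 2; omega

lemma sub_one (j : ℕ) (g : Z3) :
    pt Γ (.y j 1) 1 0 - pt Γ (.b (j + 1)) 1 g = pt Γ (.c j) 1 (-g) := by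
  ext i
  fin_cases i <;> simp [pt, Row.X, Row.W, wv, luc] <;> ring

lemma sub_two (j : ℕ) (g : Z3) :
    pt Γ (.y j 2) 1 0 - pt Γ (.b (j + 1)) 1 g = swE (pt Γ (.b (j + 1)) 1 (swE (-g))) := by
  ext i
  fin_cases i <;> simp [pt, Row.X, Row.W, wv, luc, swE_apply]
  ring

lemma hasSum_ind (F : Finset Z3) (c : ℝ) :
    HasSum (fun k : Z3 => if k ∈ F then c else 0) (F.card * c) := by
  have h := hasSum_sum_of_ne_finset_zero (L := SummationFilter.unconditional Z3)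
    (f := fun k : Z3 => if k ∈ F then c else 0) (s := F) (fun k hk => if_neg hk)
  rwa [Finset.sum_congr rfl (fun k hk => if_pos hk), Finset.sum_const, nsmul_eq_mul] at h

lemma hasSum_ind' (F : Finset Z3) (c : ℝ) (r : Z3) :
    HasSum (fun k : Z3 => if r - k ∈ F then c else 0) (F.card * c) :=
  (Equiv.subLeft r).hasSum_iff (f := fun k : Z3 => if k ∈ F then c else 0) |>.2 (hasSum_ind F c)

lemma near_conv {M : ℕ} {f : V} (hf : Supp M f) (f' : V) (c : Z3 → ℂ) {c0 : ℂ} (h0 : c0.im = 0)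
    {ε : ℝ} (hε : 0 ≤ ε) (hc : ∀ g ∈ box M, ‖c g - c0‖ ≤ ε) :
    |(∑ g ∈ box M, c g * (f.coeff g * f'.coeff (-g))).re - c0.re * ((f * f').coeff 0).re| ≤
      ε * (‖f‖ * ‖f'‖) := by
  have e1 : c0.re * ((f * f').coeff 0).re = (c0 * (f * f').coeff 0).re := by
    rw [Complex.mul_re, h0]; ring
  rw [e1, ← Complex.sub_re, coeff_mul_eq f' hf.subset, Finset.mul_sum, ← Finset.sum_sub_distrib]
  refine (Complex.abs_re_le_norm _).trans ((norm_sum_le _ _).trans ?_)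
  have e2 : ∑ g ∈ box M, ‖f.coeff g‖ * ‖f'.coeff (-g)‖ ≤ ‖f‖ * ‖f'‖ := by
    have h1 := norm_coeff_mul_le (av f) (av f') 0
    rw [norm_av, norm_av, coeff_mul_eq (av f') hf.av.subset] at h1
    refine le_trans (le_of_eq ?_) ((Complex.re_le_norm _).trans h1)
    rw [Complex.re_sum]
    refine Finset.sum_congr rfl fun g _ => ?_
    rw [coeff_av, coeff_av, zero_sub, ← Complex.ofReal_mul, Complex.ofReal_re]
  refine le_trans ?_ (mul_le_mul_of_nonneg_left e2 hε)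
  rw [Finset.mul_sum]
  refine Finset.sum_le_sum fun g hg => ?_
  rw [zero_sub, ← sub_mul, norm_mul, norm_mul]
  exact mul_le_mul_of_nonneg_right (hc g hg) (by positivity)

lemma yA_eq {j m : ℕ} (h1 : 1 ≤ m) (h2 : m < Γ.n (j + 1)) : yA Γ j m a = ampY Γ j m a := by
  rw [yA, if_neg (by omega), if_pos h2]

lemma yr_eq {j m : ℕ} (h2 : m < Γ.n (j + 1)) : yr Γ j m = .y j m := if_neg h2.ne

lemma norm_yr (H : Adm Γ a) {j m : ℕ} (h1 : 1 ≤ m) (h2 : m ≤ Γ.n (j + 1)) {k : Z3}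
    (hk : k ∈ Orb Γ (yr Γ j m)) : ‖a k‖ ≤ 3 * |yA Γ j m a| := by
  rcases h2.lt_or_eq with h | h
  · rw [yr_eq h] at hk
    rw [H.norm_y h1 h hk, yA_eq h1 h]
    linarith only [abs_nonneg (ampY Γ j m a)]
  · rw [yr, if_pos h] at hk
    rw [yA, if_neg (by omega), if_neg (by omega), if_pos h]
    have h3 := H.sum_Lv (i := j + 2) {k} fun l hl => by
      rw [Finset.mem_singleton.1 hl]; exact Or.inr hk
    rw [Finset.sum_singleton] at h3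
    refine (pow_le_pow_iff_left₀ (norm_nonneg _) (by positivity) two_ne_zero).mp ?_
    rw [mul_pow, sq_abs]
    linarith only [h3, sq_nonneg (nrA Γ (j + 2) a)]

/-- The designed triads through a chain mode. -/
lemma des_y {j m : ℕ} {x y z : Row} (h : Des Γ x y z) :
    (x = .y j m → y = .y j (m + 1) ∧ z = yr Γ j (m + 2) ∧ m + 2 ≤ Γ.n (j + 1)) ∧
    (y = .y j m → x = .y j (m - 1) ∧ z = yr Γ j (m + 1) ∧ 2 ≤ m) ∧
    (z = .y j m → (m = 1 ∧ x = .b (j + 1) ∧ y = .c j) ∨ (m = 2 ∧ x = .b (j + 1) ∧ y = .b (j + 1)) ∨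
      (3 ≤ m ∧ x = .y j (m - 2) ∧ y = .y j (m - 1))) := by
  cases h with
  | strain i => simp
  | one i =>
    refine ⟨by simp, by simp, fun h => ?_⟩
    obtain ⟨rfl, rfl⟩ := Row.y.inj h
    simp
  | two i =>
    refine ⟨by simp, by simp, fun h => ?_⟩
    obtain ⟨rfl, rfl⟩ := Row.y.inj h
    simp
  | fib i l h1 h2 =>
    refine ⟨fun h => ?_, fun h => ?_, fun h => ?_⟩
    · obtain ⟨rfl, rfl⟩ := Row.y.inj h
      exact ⟨rfl, rfl, h2⟩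
    · obtain ⟨rfl, rfl⟩ := Row.y.inj h
      exact ⟨rfl, rfl, by omega⟩
    · unfold yr at h
      split_ifs at h
      obtain ⟨rfl, rfl⟩ := Row.y.inj h
      exact Or.inr (Or.inr ⟨by omega, rfl, rfl⟩)

/-- A pair of modes feeding back into the `m`-th chain mode. -/
def Back (Γ : Geo) (j m : ℕ) (k l : Z3) : Prop :=
  (2 ≤ m ∧ k ∈ Orb Γ (.y j (m - 1)) ∧ l ∈ Orb Γ (yr Γ j (m + 1))) ∨
    (m + 2 ≤ Γ.n (j + 1) ∧ k ∈ Orb Γ (.y j (m + 1)) ∧ l ∈ Orb Γ (yr Γ j (m + 2)))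

/-- A pair of modes driving the `m`-th chain mode. -/
def Fwd (Γ : Geo) (j m : ℕ) (k l : Z3) : Prop :=
  (m = 1 ∧ k ∈ Orb Γ (.b (j + 1)) ∧ l ∈ Orb Γ (.c j)) ∨
    (m = 2 ∧ k ∈ Orb Γ (.b (j + 1)) ∧ l ∈ Orb Γ (.b (j + 1))) ∨
    (3 ≤ m ∧ k ∈ Orb Γ (.y j (m - 1)) ∧ l ∈ Orb Γ (.y j (m - 2)))

lemma pairs (H : Adm Γ a) {j m : ℕ} (h1 : 1 ≤ m) (h2 : m < Γ.n (j + 1)) {k l : Z3}
    (hkl : k + l = pt Γ (.y j m) 1 0) (hk : a k ≠ 0) (hl : a l ≠ 0) :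
    (Back Γ j m k l ∨ Fwd Γ j m k l) ∨ (Back Γ j m l k ∨ Fwd Γ j m l k) := by
  obtain ⟨ρ, o, hρ⟩ := H.row hk
  obtain ⟨σ, o', hσ⟩ := H.row hl
  have hd := triad_rows o o' (c := .y j m) ⟨h1, h2⟩ hρ hσ
    (hkl ▸ pt_mem_Orb (Or.inl rfl) (zero_mem_box _))
  rcases hd with h | h | h | h | h | h
  · rcases (des_y h).2.2 rfl with ⟨h3, rfl, rfl⟩ | ⟨h3, rfl, rfl⟩ | ⟨h3, rfl, rfl⟩
    · exact Or.inl (Or.inr (Or.inl ⟨h3, hρ, hσ⟩))
    · exact Or.inl (Or.inr (Or.inr (Or.inl ⟨h3, hρ, hσ⟩)))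
    · exact Or.inr (Or.inr (Or.inr (Or.inr ⟨h3, hσ, hρ⟩)))
  · obtain ⟨rfl, rfl, h3⟩ := (des_y h).2.1 rfl
    exact Or.inl (Or.inl (Or.inl ⟨h3, hρ, hσ⟩))
  · rcases (des_y h).2.2 rfl with ⟨h3, rfl, rfl⟩ | ⟨h3, rfl, rfl⟩ | ⟨h3, rfl, rfl⟩
    · exact Or.inr (Or.inr (Or.inl ⟨h3, hσ, hρ⟩))
    · exact Or.inl (Or.inr (Or.inr (Or.inl ⟨h3, hρ, hσ⟩)))
    · exact Or.inl (Or.inr (Or.inr (Or.inr ⟨h3, hρ, hσ⟩)))
  · obtain ⟨rfl, rfl, h3⟩ := (des_y h).2.1 rfl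
    exact Or.inr (Or.inl (Or.inl ⟨h3, hσ, hρ⟩))
  · obtain ⟨rfl, rfl, h3⟩ := (des_y h).1 rfl
    exact Or.inl (Or.inl (Or.inr ⟨h3, hρ, hσ⟩))
  · obtain ⟨rfl, rfl, h3⟩ := (des_y h).1 rfl
    exact Or.inr (Or.inl (Or.inr ⟨h3, hσ, hρ⟩))

open Classical in
lemma rest_le (H : Adm Γ a) {j m : ℕ} (h1 : 1 ≤ m) (h2 : m < Γ.n (j + 1)) (F : Finset Z3)
    (hF : ∀ k l, k + l = pt Γ (.y j m) 1 0 → Fwd Γ j m k l → k ∈ F ∨ l ∈ F) :
    ‖∑' k, if k ∉ F ∧ pt Γ (.y j m) 1 0 - k ∉ F then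
        (I * dt (a k) (pt Γ (.y j m) 1 0 - k)) • a (pt Γ (.y j m) 1 0 - k) else 0‖ ≤
      10 ^ 4 * Γ.lam (j + 2) * (|yA Γ j (m + 1) a| * |yA Γ j (m - 1) a| +
        |yA Γ j (m + 2) a| * |yA Γ j (m + 1) a|) := by
  obtain ⟨F1, c1, m1⟩ := orb_y_card (Γ := Γ) j (m - 1)
  obtain ⟨F2, c2, m2⟩ := orb_y_card (Γ := Γ) j (m + 1)
  set r := pt Γ (.y j m) 1 0 with hr
  have hl := lam_pos (Γ := Γ) (j + 2)
  set u := 6 * Γ.lam (j + 2) * (|yA Γ j (m + 1) a| * |yA Γ j (m - 1) a|) with hu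
  set v := 6 * Γ.lam (j + 2) * (|yA Γ j (m + 2) a| * |yA Γ j (m + 1) a|) with hv
  have u0 : 0 ≤ u := by positivity
  have v0 : 0 ≤ v := by positivity
  have hs := ((hasSum_ind F1 u).add (hasSum_ind F2 v)).add
    ((hasSum_ind' F1 u r).add (hasSum_ind' F2 v r))
  have hax : ax r ≤ 2 * Γ.lam (j + 2) :=
    (ax_y h1 h2 (pt_mem_Orb (Or.inl rfl) (zero_mem_box _))).2.1
  have key : ∀ k l, Back Γ j m k l → ‖a k‖ * ‖a l‖ * (2 * Γ.lam (j + 2)) ≤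
      (if k ∈ F1 then u else 0) + if k ∈ F2 then v else 0 := by
    intro k l hb
    have i1 : 0 ≤ if k ∈ F1 then u else 0 := by split_ifs <;> simp [u0]
    have i2 : 0 ≤ if k ∈ F2 then v else 0 := by split_ifs <;> simp [v0]
    rcases hb with ⟨h3, hk, hl'⟩ | ⟨h3, hk, hl'⟩
    · rw [if_pos ((m1 k).1 hk), H.norm_y (by omega) (by omega) hk, ← yA_eq (by omega) (by omega)]
      have h4 := norm_yr H (by omega) (by omega) hl'
      have h5 := mul_le_mul_of_nonneg_left h4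
        (by positivity : 0 ≤ |yA Γ j (m - 1) a| * (2 * Γ.lam (j + 2)))
      linarith only [i2, h5]
    · rw [if_pos ((m2 k).1 hk), H.norm_y (by omega) (by omega) hk, ← yA_eq (by omega) (by omega)]
      have h4 := norm_yr H (by omega) (by omega) hl'
      have h5 := mul_le_mul_of_nonneg_left h4
        (by positivity : 0 ≤ |yA Γ j (m + 1) a| * (2 * Γ.lam (j + 2)))
      linarith only [i1, h5]
  refine (tsum_of_norm_bounded hs fun k => ?_).trans ?_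
  · have i1 : ∀ k, 0 ≤ (if k ∈ F1 then u else 0) + if k ∈ F2 then v else 0 := fun k => by
      split_ifs <;> simp [u0, v0, add_nonneg]
    have i2 := add_nonneg (i1 k) (i1 (r - k))
    by_cases hP : k ∉ F ∧ r - k ∉ F
    swap
    · rw [if_neg hP, norm_zero]; exact i2
    rw [if_pos hP]
    by_cases hk : a k = 0
    · simpa [hk, dt] using i2
    by_cases hl' : a (r - k) = 0
    · simpa [hl'] using i2
    have e : k + (r - k) = r := by abel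
    have ht : ‖(I * dt (a k) (r - k)) • a (r - k)‖ ≤ ‖a k‖ * ‖a (r - k)‖ * (2 * Γ.lam (j + 2)) := by
      refine (H.term_le k (r - k)).trans (mul_le_mul_of_nonneg_left ?_ (by positivity))
      rw [e]; exact (min_le_right _ _).trans hax
    rcases pairs H h1 h2 e hk hl' with (h | h) | (h | h)
    · linarith only [ht, key _ _ h, i1 (r - k)]
    · exact ((hF _ _ e h).elim hP.1 hP.2).elim
    · have := key _ _ h
      rw [mul_comm ‖a (r - k)‖] at this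
      linarith only [ht, this, i1 k]
    · exact ((hF _ _ ((add_comm _ _).trans e) h).elim hP.2 hP.1).elim
  · have d1 : (F1.card : ℝ) ≤ 8 := by exact_mod_cast c1
    have d2 : (F2.card : ℝ) ≤ 8 := by exact_mod_cast c2
    have e1 := mul_le_mul_of_nonneg_right d1 u0
    have e2 := mul_le_mul_of_nonneg_right d2 v0
    have e3 : 10 ^ 4 * Γ.lam (j + 2) * (|yA Γ j (m + 1) a| * |yA Γ j (m - 1) a| +
        |yA Γ j (m + 2) a| * |yA Γ j (m + 1) a|) = 10 ^ 4 / 6 * (u + v) := by rw [hu, hv]; ring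
    rw [e3]
    linarith only [u0, v0, e1, e2]

lemma split (H : Adm Γ a) {j m : ℕ} (h1 : 1 ≤ m) (h2 : m < Γ.n (j + 1)) (F : Finset Z3)
    (hF : ∀ k l, k + l = pt Γ (.y j m) 1 0 → Fwd Γ j m k l → k ∈ F ∨ l ∈ F)
    (hF' : ∀ k ∈ F, pt Γ (.y j m) 1 0 - k ∉ F) : ∃ b : ℝ,
    (⟪(Row.y j m).e Γ, rhs Γ ν a (pt Γ (.y j m) 1 0)⟫_ℂ).re =
      (∑ k ∈ F, -⟪(Row.y j m).e Γ, (I * dt (a k) (pt Γ (.y j m) 1 0 - k)) •
          a (pt Γ (.y j m) 1 0 - k) + (I * dt (a (pt Γ (.y j m) 1 0 - k)) k) • a k⟫_ℂ).re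
        - ν * ax (pt Γ (.y j m) 1 0) ^ 2 * ampY Γ j m a + b ∧
    |b| ≤ 10 ^ 4 * Γ.lam (j + 2) * (|yA Γ j (m + 1) a| * |yA Γ j (m - 1) a| +
      |yA Γ j (m + 2) a| * |yA Γ j (m + 1) a|) := by
  have hb := rest_le H h1 h2 F hF
  have hs := H.BB_split (pt Γ (.y j m) 1 0) F hF'
  set R : C3 := ∑' k, _ with hR
  refine ⟨-(⟪(Row.y j m).e Γ, R⟫_ℂ).re, ?_, ?_⟩
  · rw [rhs, inner_sub_right, inner_neg_right, inner_PS_y h1 h2, hs, inner_add_right, inner_sum,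
      Finset.sum_neg_distrib, ampY]
    simp only [G.lapS, smul_apply, ContinuousLinearMap.id_apply,
      inner_smul_right, Complex.sub_re, Complex.neg_re, Complex.add_re, Complex.re_ofReal_mul]
    ring
  · rw [abs_neg]
    refine (Complex.abs_re_le_norm _).trans ((norm_inner_le_norm _ _).trans ?_)
    rw [norm_e (ρ := .y j m) ⟨h1, h2⟩, one_mul]
    exact hb

lemma T_ge (i : ℕ) : (1000 : ℝ) ≤ Γ.T i := le_trans (by norm_num) (Γ.Tbig i)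

lemma delta_le (i : ℕ) : (Γ.T i ^ 800)⁻¹ ≤ 1 :=
  inv_le_one_of_one_le₀ (one_le_pow₀ (by linarith [T_ge (Γ := Γ) i]))

lemma eps_le (j : ℕ) : 14 * (Γ.T (j + 1) ^ 800)⁻¹ * (2 * Γ.lam (j + 1)) +
    16 * ((Γ.T (j + 1) ^ 850)⁻¹ * Γ.lam (j + 1)) ≤ Γ.lam j / 1000 := by
  have h0 := T_ge (Γ := Γ) j
  have h1 := T_ge (Γ := Γ) (j + 1)
  have hl := lam_pos (Γ := Γ) j
  have h2 : Γ.lam (j + 1) ≤ Γ.T (j + 1) ^ 8 * Γ.lam j := by
    rw [lam_succ]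
    exact mul_le_mul_of_nonneg_right (pow_le_pow_left₀ (by linarith) (Γ.Tmono j) 8) hl.le
  generalize Γ.T (j + 1) = t at *
  have h3 : (t ^ 850)⁻¹ ≤ (t ^ 10)⁻¹ :=
    inv_anti₀ (by positivity) (pow_le_pow_right₀ (by linarith) (by norm_num))
  have h4 : (t ^ 800)⁻¹ ≤ (t ^ 10)⁻¹ :=
    inv_anti₀ (by positivity) (pow_le_pow_right₀ (by linarith) (by norm_num))
  have h5 : (t ^ 10)⁻¹ * Γ.lam (j + 1) ≤ Γ.lam j / 10 ^ 6 := by
    rw [inv_mul_le_iff₀ (by positivity)]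
    have h6 : (10 : ℝ) ^ 6 ≤ t ^ 2 := by nlinarith only [h1]
    have h7 := mul_le_mul_of_nonneg_right h6 (by positivity : 0 ≤ t ^ 8 * Γ.lam j)
    have e : t ^ 10 * (Γ.lam j / 10 ^ 6) = t ^ 2 * (t ^ 8 * Γ.lam j) / 10 ^ 6 := by ring
    rw [e, le_div_iff₀ (by norm_num)]
    linarith only [h2, h7]
  have hl' := (lam_pos (Γ := Γ) (j + 1)).le
  have h8 := mul_le_mul_of_nonneg_right h3 hl'
  have h9 := mul_le_mul_of_nonneg_right h4 hl'
  linarith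

lemma nr_sq (i : ℕ) : nrA Γ i a ^ 2 = ‖ampB Γ i a‖ ^ 2 + ‖ampP Γ i a‖ ^ 2 + ‖ampM Γ i a‖ ^ 2 :=
  Real.sq_sqrt (by positivity)

lemma div_near {x c c0 z w l : ℝ} (hl : 0 < l) (hc : l / 10 ≤ c0) (hw : 0 ≤ w)
    (h : |x - c0 * z| ≤ l / 1000 * c) (hcw : c ≤ w) : |x / c0 - z| ≤ w / 100 := by
  have h0 : 0 < c0 := by linarith only [hl, hc]
  have e : x / c0 - z = (x - c0 * z) / c0 := by field_simp
  rw [e, abs_div, abs_of_pos h0, div_le_iff₀ h0]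
  nlinarith only [hl, hc, hw, h, hcw]

lemma case_one (H : Adm Γ a) (j : ℕ) : ∃ S b : ℝ,
    (⟪(Row.y j 1).e Γ, rhs Γ ν a (pt Γ (.y j 1) 1 0)⟫_ℂ).re =
      cY Γ j 1 * S - ν * ax (pt Γ (.y j 1) 1 0) ^ 2 * ampY Γ j 1 a + b ∧
    |b| ≤ 10 ^ 4 * Γ.lam (j + 2) * (|yA Γ j (1 + 1) a| * |yA Γ j (1 - 1) a| +
      |yA Γ j (1 + 2) a| * |yA Γ j (1 + 1) a|) ∧
    |S - ((ampB Γ (j + 1) a * ampP Γ (j + 1) a).coeff 0).re| ≤ nrA Γ (j + 1) a ^ 2 / 100 := by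
  classical
  have hn := Γ.n8 (j + 1)
  have h2 : 1 < Γ.n (j + 1) := by omega
  have hbox : ∀ g ∈ box (Γ.M (j + 1)), -g ∈ box (Γ.M (j + 1) + Γ.M j) := fun g hg =>
    box_mono (Nat.le_add_right _ _) (neg_mem_box.2 hg)
  obtain ⟨b, hb1, hb2⟩ := split (ν := ν) H le_rfl h2
    ((box (Γ.M (j + 1))).image (pt Γ (.b (j + 1)) 1))
    (fun k l hkl hf => by
      rcases hf with ⟨-, hk, hl⟩ | ⟨h, -⟩ | ⟨h, -⟩
      · obtain ⟨g, hg, rfl⟩ := fine_Y1 hk (by rw [← hkl, add_sub_cancel_left]; exact hl)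
        exact Or.inl (Finset.mem_image_of_mem _ hg)
      all_goals omega)
    (fun k hk hk' => by
      obtain ⟨g, hg, rfl⟩ := Finset.mem_image.1 hk
      obtain ⟨g', hg', e⟩ := Finset.mem_image.1 hk'
      rw [sub_one] at e
      have := row_unique (ρ := .b (j + 1)) (ρ' := .c j) trivial trivial
        (pt_mem_Orb (Or.inl rfl) hg') (e ▸ pt_mem_Orb (ρ := .c j) (Or.inl rfl) (hbox g hg))
      cases this)
  rw [Finset.sum_image (pt_inj _ _).injOn] at hb1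
  obtain ⟨c1, c2, -⟩ := cY0_spec (Γ := Γ) (j := j) (m := 1) le_rfl h2.le
  have hl := lam_pos (Γ := Γ) j
  have hρ : 0 < rho Γ j := by linarith only [(rho_bounds (Γ := Γ) j).1]
  set c : Z3 → ℂ := fun g => cf ((Row.y j 1).e Γ) (pt Γ (.b (j + 1)) 1 g)
    (uu 1 (pt Γ (.b (j + 1)) 1 g) ((Row.b (j + 1)).e Γ)) (pt Γ (.c j) 1 (-g))
    (uu (-1) (pt Γ (.c j) 1 (-g)) ((Row.c j).e Γ)) with hc
  have hsum : ∀ g ∈ box (Γ.M (j + 1)),
      -⟪(Row.y j 1).e Γ, (I * dt (a (pt Γ (.b (j + 1)) 1 g))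
          (pt Γ (.y j 1) 1 0 - pt Γ (.b (j + 1)) 1 g)) •
          a (pt Γ (.y j 1) 1 0 - pt Γ (.b (j + 1)) 1 g) +
          (I * dt (a (pt Γ (.y j 1) 1 0 - pt Γ (.b (j + 1)) 1 g)) (pt Γ (.b (j + 1)) 1 g)) •
          a (pt Γ (.b (j + 1)) 1 g)⟫_ℂ =
      (((rho Γ j)⁻¹ : ℝ) : ℂ) *
        (c g * ((ampB Γ (j + 1) a).coeff g * (ampP Γ (j + 1) a).coeff (-g))) := fun g hg => by
    rw [sub_one, H.at_b hg, H.at_p (hbox g hg), inner_sym_term, Complex.ofReal_inv]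
    ring
  rw [Finset.sum_congr rfl hsum, ← Finset.mul_sum, Complex.re_ofReal_mul] at hb1
  have hnear := near_conv (M := Γ.M (j + 1)) (f := ampB Γ (j + 1) a) (supp_mk _ _)
    (ampP Γ (j + 1) a) c c1 (ε := Γ.lam j / 1000) (by positivity) fun g hg => by
      refine le_trans ?_ (eps_le j)
      rw [cY0, if_pos rfl]
      exact cf_lip (delta_le _) (norm_e (ρ := .y j 1) ⟨le_rfl, h2⟩).le
        (norm_e (ρ := .b (j + 1)) trivial).le (norm_e (ρ := .c j) trivial).le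
        (by rw [sub_self, norm_zero]; have := T_ge (Γ := Γ) (j + 1); positivity)
        (uu_near (ρ := .b (j + 1)) trivial (by simp) hg).2
        (uu_near (ρ := .c j) trivial (by simp) (hbox g hg)).2
        (ax_offset (ρ := .b (j + 1)) 1 hg) (ax_offset (ρ := .c j) 1 (hbox g hg))
        (ax_b (pt_mem_Orb (Or.inl rfl) (zero_mem_box _))).2
        (ax_c (pt_mem_Orb (Or.inl rfl) (zero_mem_box _))).2
  refine ⟨_ / (cY0 Γ j 1).re, b, ?_, hb2, div_near hl c2 (sq_nonneg _) hnear ?_⟩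
  · have : (cY0 Γ j 1).re ≠ 0 := ne_of_gt (by linarith only [c2, hl])
    rw [hb1, cY, if_pos rfl]
    field_simp
  · rw [nr_sq]
    linarith only [sq_nonneg (‖ampB Γ (j + 1) a‖ - ‖ampP Γ (j + 1) a‖), sq_nonneg ‖ampM Γ (j + 1) a‖,
      sq_nonneg ‖ampB Γ (j + 1) a‖, sq_nonneg ‖ampP Γ (j + 1) a‖]

lemma case_two (H : Adm Γ a) (j : ℕ) : ∃ S b : ℝ,
    (⟪(Row.y j 2).e Γ, rhs Γ ν a (pt Γ (.y j 2) 1 0)⟫_ℂ).re =
      cY Γ j 2 * S - ν * ax (pt Γ (.y j 2) 1 0) ^ 2 * ampY Γ j 2 a + b ∧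
    |b| ≤ 10 ^ 4 * Γ.lam (j + 2) * (|yA Γ j (2 + 1) a| * |yA Γ j (2 - 1) a| +
      |yA Γ j (2 + 2) a| * |yA Γ j (2 + 1) a|) ∧
    |S - ((ampB Γ (j + 1) a * sw (ampB Γ (j + 1) a)).coeff 0).re| ≤
      nrA Γ (j + 1) a ^ 2 / 100 := by
  classical
  have hn := Γ.n8 (j + 1)
  have h2 : 2 < Γ.n (j + 1) := by omega
  have hbox : ∀ g ∈ box (Γ.M (j + 1)), swE (-g) ∈ box (Γ.M (j + 1)) := fun g hg =>
    swE_mem_box.2 (neg_mem_box.2 hg)
  obtain ⟨b, hb1, hb2⟩ := split (ν := ν) H (by norm_num) h2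
    ((box (Γ.M (j + 1))).image (pt Γ (.b (j + 1)) 1))
    (fun k l hkl hf => by
      rcases hf with ⟨h, -⟩ | ⟨-, hk, hl⟩ | ⟨h, -⟩
      · omega
      · have e : pt Γ (.y j 2) 1 0 - k = l := by rw [← hkl, add_sub_cancel_left]
        obtain ⟨g, hg, h | h⟩ := fine_Y2 hk (e ▸ hl)
        · exact Or.inl (h ▸ Finset.mem_image_of_mem _ hg)
        · exact Or.inr (e ▸ h ▸ Finset.mem_image_of_mem _ hg)
      · omega)
    (fun k hk hk' => by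
      obtain ⟨g, hg, rfl⟩ := Finset.mem_image.1 hk
      obtain ⟨g', hg', e⟩ := Finset.mem_image.1 hk'
      have h0 := congrFun e 0
      have h1 := P_odd (Γ := Γ) (j + 1)
      simp [pt, Row.X, luc] at h0
      omega)
  rw [Finset.sum_image (pt_inj _ _).injOn] at hb1
  obtain ⟨c1, c2, -⟩ := cY0_spec (Γ := Γ) (j := j) (m := 2) (by norm_num) h2.le
  have hl := lam_pos (Γ := Γ) j
  set c : Z3 → ℂ := fun g => cf ((Row.y j 2).e Γ) (pt Γ (.b (j + 1)) 1 g)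
    (uu 1 (pt Γ (.b (j + 1)) 1 g) ((Row.b (j + 1)).e Γ)) (swE (pt Γ (.b (j + 1)) 1 (swE (-g))))
    (Sg (uu 1 (pt Γ (.b (j + 1)) 1 (swE (-g))) ((Row.b (j + 1)).e Γ))) with hc
  have hsum : ∀ g ∈ box (Γ.M (j + 1)),
      -⟪(Row.y j 2).e Γ, (I * dt (a (pt Γ (.b (j + 1)) 1 g))
          (pt Γ (.y j 2) 1 0 - pt Γ (.b (j + 1)) 1 g)) •
          a (pt Γ (.y j 2) 1 0 - pt Γ (.b (j + 1)) 1 g) +
          (I * dt (a (pt Γ (.y j 2) 1 0 - pt Γ (.b (j + 1)) 1 g)) (pt Γ (.b (j + 1)) 1 g)) •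
          a (pt Γ (.b (j + 1)) 1 g)⟫_ℂ =
        c g * ((ampB Γ (j + 1) a).coeff g * (sw (ampB Γ (j + 1) a)).coeff (-g)) := fun g hg => by
    rw [sub_two, H.sym.sg, H.at_b hg, H.at_b (hbox g hg), Sg_smul, inner_sym_term, coeff_sw]
  rw [Finset.sum_congr rfl hsum] at hb1
  have hez : (Row.y j 2).e Γ = ez := rfl
  have hnear := near_conv (M := Γ.M (j + 1)) (f := ampB Γ (j + 1) a) (supp_mk _ _)
    (sw (ampB Γ (j + 1) a)) c c1 (ε := Γ.lam j / 1000) (by positivity) fun g hg => by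
      refine le_trans ?_ (eps_le j)
      rw [cY0, if_neg (by norm_num), if_pos rfl, ← hez]
      have hx := (ax_b (pt_mem_Orb (Γ := Γ) (ρ := .b (j + 1)) (Or.inl rfl) (zero_mem_box _))).2
      exact cf_lip (delta_le _) (norm_e (ρ := .y j 2) ⟨by norm_num, h2⟩).le
        (norm_e (ρ := .b (j + 1)) trivial).le
        (by rw [norm_Sg]; exact (norm_e (ρ := .b (j + 1)) trivial).le)
        (by rw [sub_self, norm_zero]; have := T_ge (Γ := Γ) (j + 1); positivity)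
        (uu_near (ρ := .b (j + 1)) trivial (by simp) hg).2
        (by rw [← Sg_sub, norm_Sg]
            exact (uu_near (ρ := .b (j + 1)) trivial (by simp) (hbox g hg)).2)
        (ax_offset (ρ := .b (j + 1)) 1 hg)
        (by rw [← map_sub, ax_swE]; exact ax_offset (ρ := .b (j + 1)) 1 (hbox g hg))
        hx (by rw [ax_swE]; exact hx)
  refine ⟨_ / (cY0 Γ j 2).re, b, ?_, hb2, div_near hl c2 (sq_nonneg _) hnear ?_⟩
  · have : (cY0 Γ j 2).re ≠ 0 := ne_of_gt (by linarith only [c2, hl])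
    rw [hb1, cY, if_neg (by norm_num), if_neg h2.ne]
    field_simp
  · rw [nr_sq, norm_sw]
    linarith only [sq_nonneg ‖ampM Γ (j + 1) a‖, sq_nonneg ‖ampP Γ (j + 1) a‖]

lemma case_fib (H : Adm Γ a) {j m : ℕ} (h1 : 3 ≤ m) (h2 : m < Γ.n (j + 1)) : ∃ b : ℝ,
    (⟪(Row.y j m).e Γ, rhs Γ ν a (pt Γ (.y j m) 1 0)⟫_ℂ).re =
      cY Γ j m * (yA Γ j (m - 1) a * yA Γ j (m - 2) a) -
        ν * ax (pt Γ (.y j m) 1 0) ^ 2 * ampY Γ j m a + b ∧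
    |b| ≤ 10 ^ 4 * Γ.lam (j + 2) * (|yA Γ j (m + 1) a| * |yA Γ j (m - 1) a| +
      |yA Γ j (m + 2) a| * |yA Γ j (m + 1) a|) := by
  have e : pt Γ (.y j m) 1 0 - pt Γ (.y j (m - 1)) 1 0 = pt Γ (.y j (m - 2)) (-1) 0 := by
    rw [← yr_eq h2, fib_pt h1 h2.le, add_sub_cancel_left]
  obtain ⟨b, hb1, hb2⟩ := split (ν := ν) H (by omega) h2 {pt Γ (.y j (m - 1)) 1 0}
    (fun k l hkl hf => by
      rcases hf with ⟨h, -⟩ | ⟨h, -⟩ | ⟨-, hk, hl⟩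
      · omega
      · omega
      · exact Or.inl (Finset.mem_singleton.2
          (fine_Y h1 h2 hk (by rw [← hkl, add_sub_cancel_left]; exact hl))))
    (fun k hk hk' => by
      rw [Finset.mem_singleton] at hk hk'
      rw [hk, e] at hk'
      have := row_unique (Γ := Γ) (ρ := .y j (m - 2)) (ρ' := .y j (m - 1)) ⟨by omega, by omega⟩
        ⟨by omega, by omega⟩ (pt_mem_Orb (Or.inr rfl) (zero_mem_box _))
        (hk' ▸ pt_mem_Orb (Or.inl rfl) (zero_mem_box _))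
      have := (Row.y.inj this).2
      omega)
  refine ⟨b, ?_, hb2⟩
  rw [hb1, Finset.sum_singleton, e, (H.at_y (m := m - 1) (by omega) (by omega)).1,
    (H.at_y (m := m - 2) (by omega) (by omega)).2, inner_sym_term, cY, if_neg (by omega),
    if_neg h2.ne, cY0, if_neg (by omega), if_neg (by omega), yr_eq h2,
    yA_eq (by omega) (by omega), yA_eq (by omega) (by omega), ← Complex.ofReal_mul,
    Complex.re_mul_ofReal]

end EqYAux

theorem eqY_static (H : Adm Γ a) {j m : ℕ} (h1 : 1 ≤ m) (h2 : m < Γ.n (j + 1)) : ∃ S b : ℝ,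
    (⟪(Row.y j m).e Γ, rhs Γ ν a (pt Γ (.y j m) 1 0)⟫_ℂ).re =
      cY Γ j m * S - ν * ax (pt Γ (.y j m) 1 0) ^ 2 * ampY Γ j m a + b ∧
    |b| ≤ 10 ^ 4 * Γ.lam (j + 2) * (|yA Γ j (m + 1) a| * |yA Γ j (m - 1) a| +
      |yA Γ j (m + 2) a| * |yA Γ j (m + 1) a|) ∧
    (m = 1 → |S - ((ampB Γ (j + 1) a * ampP Γ (j + 1) a).coeff 0).re| ≤
      nrA Γ (j + 1) a ^ 2 / 100) ∧
    (m = 2 → |S - ((ampB Γ (j + 1) a * sw (ampB Γ (j + 1) a)).coeff 0).re| ≤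
      nrA Γ (j + 1) a ^ 2 / 100) ∧
    (3 ≤ m → S = yA Γ j (m - 1) a * yA Γ j (m - 2) a) := by
  by_cases m1 : m = 1
  · subst m1
    obtain ⟨S, b, e1, e2, e3⟩ := EqYAux.case_one (ν := ν) H j
    exact ⟨S, b, e1, e2, fun _ => e3, by omega, by omega⟩
  by_cases m2 : m = 2
  · subst m2
    obtain ⟨S, b, e1, e2, e3⟩ := EqYAux.case_two (ν := ν) H j
    exact ⟨S, b, e1, e2, by omega, fun _ => e3, by omega⟩
  obtain ⟨b, e1, e2⟩ := EqYAux.case_fib (ν := ν) H (by omega) h2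
  exact ⟨_, b, e1, e2, by omega, by omega, fun _ => rfl⟩

end

end Pool.Agent.Work.MP_6bf1e5_an.Dec
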