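import Pool.Agent.Work.MP_6bf1e5_an.Dec.StDefs2
import Pool.Agent.Work.MP_6bf1e5_an.Dec.Classic

/-!
Balance laws and unboundedness of the velocity for the maximal solution.
-/

open Set Filter Topology MeasureTheory Complex
open scoped InnerProductSpace ComplexConjugate ContDiff

namespace Pool.Agent.Work.MP_6bf1e5_an.B.G

noncomputable section

lemma parseval_sc {g : R3 → ℝ} (hg : ContDiff ℝ ∞ g) (hp : Periodic3 g) :
    HasSum (fun k => ‖sc g k‖ ^ 2) (∫ x in Icc (0 : R3) 1, g x ^ 2) := by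
  have h := Complex.reCLM.hasSum (hasSum_sc_mul hg hp hg.continuous 0)
  convert h using 1
  · funext k
    rw [zero_sub, sc_neg_index, Complex.mul_conj, reCLM_apply, ofReal_re, Complex.sq_norm]
  · simp only [sc, neg_zero, ek_zero_index, one_mul, reCLM_apply]
    rw [integral_complex_ofReal, ofReal_re]
    exact integral_congr_ae (Eventually.of_forall fun x => pow_two (g x))

lemma hq_one (a : Z3 → C3) : hq 1 a = ∑' k, ax k ^ 2 * ‖a k‖ ^ 2 := tsum_congr fun k => by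
  by_cases hk : k = 0
  · simp [ht, hk]
  · exact ht_nat 2 (by norm_num) a hk

lemma hq_two (a : Z3 → C3) (k : Z3) : ht 2 a k = ax k ^ 4 * ‖a k‖ ^ 2 := by
  by_cases hk : k = 0
  · simp [ht, hk]
  · exact ht_nat 4 (by norm_num) a hk

lemma bessel_transport {v : R3 → R3} (hv : IsData v) {M : ℝ} (hM : ∀ x, ‖v x‖ ≤ M) :
    ∃ X, HasSum (fun k => ‖BB (fc v) (fc v) k‖ ^ 2) X ∧ X ≤ 3 * M ^ 2 * hq 1 (fc v) := by
  have sm : ∀ i, ContDiff ℝ ∞ fun x => v x i := fun i => contDiff_pi.mp hv.smooth i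
  have pe : ∀ i, Periodic3 fun x => v x i := fun i j x => congrFun (hv.periodic j x) i
  obtain ⟨d, hd⟩ : ∃ d : Fin 3 → Fin 3 → R3 → ℝ, ∀ i j, d i j = pd j fun y => v y i :=
    ⟨_, fun _ _ => rfl⟩
  have sd : ∀ i j, ContDiff ℝ ∞ (d i j) := fun i j => hd i j ▸ contDiff_pd (sm i) j
  have pp : ∀ i j, Periodic3 (d i j) := fun i j => hd i j ▸ (pe i).pd j
  have s1 : ∀ i, HasSum (fun k => ‖sc (fun x => ∑ j, v x j * d i j x) k‖ ^ 2)
      (∫ x in Icc (0 : R3) 1, (∑ j, v x j * d i j x) ^ 2) :=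
    fun i => parseval_sc (ContDiff.sum fun j _ => (sm j).mul (sd i j)) fun l x => by
      simp only [hv.periodic l x, pp i _ l x]
  have s2 : HasSum (fun k => ∑ i, ∑ j, ‖sc (d i j) k‖ ^ 2)
      (∑ i, ∑ j, ∫ x in Icc (0 : R3) 1, d i j x ^ 2) :=
    hasSum_sum fun i _ => hasSum_sum fun j _ => parseval_sc (sd i j) (pp i j)
  have s3 : HasSum (fun k => ∑ i, ‖sc (fun x => ∑ j, v x j * d i j x) k‖ ^ 2)
      (∑ i, ∫ x in Icc (0 : R3) 1, (∑ j, v x j * d i j x) ^ 2) := hasSum_sum fun i _ => s1 i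
  have e3 : ∀ k, ‖BB (fc v) (fc v) k‖ ^ 2 = ∑ i, ‖sc (fun x => ∑ j, v x j * d i j x) k‖ ^ 2 := by
    intro k
    rw [← fc_transport hv.smooth hv.periodic hv.smooth hv.periodic, EuclideanSpace.norm_sq_eq]
    simp only [fc_apply, hd]
  have e2 : ∀ k, ax k ^ 2 * ‖fc v k‖ ^ 2 = ∑ i, ∑ j, ‖sc (d i j) k‖ ^ 2 := by
    intro k
    rw [EuclideanSpace.norm_sq_eq, ax_sq, Finset.mul_sum]
    refine Finset.sum_congr rfl fun i _ => ?_
    rw [Finset.sum_mul]
    refine Finset.sum_congr rfl fun j _ => ?_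
    rw [hd, sc_pd (sm i) (pe i), norm_mul, fc_apply]
    simp [mul_pow]
  refine ⟨_, by simp only [e3]; exact s3, ?_⟩
  rw [hq_one]
  simp only [e2]
  rw [s2.tsum_eq, Finset.mul_sum]
  refine Finset.sum_le_sum fun i _ => ?_
  have ci : ∀ j, IntegrableOn (fun x => d i j x ^ 2) (Icc (0 : R3) 1) :=
    fun j => integrableOn_cube ((sd i j).continuous.pow 2)
  rw [← integral_finsetSum _ fun j _ => ci j, ← integral_const_mul]
  refine setIntegral_mono_on (integrableOn_cube ((continuous_finsetSum _ fun j _ =>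
    (sm j).continuous.mul (sd i j).continuous).pow 2))
    ((integrable_finsetSum _ fun j _ => ci j).const_mul _) measurableSet_Icc fun x _ => ?_
  refine (Finset.sum_mul_sq_le_sq_mul_sq _ _ _).trans (mul_le_mul_of_nonneg_right ?_
    (Finset.sum_nonneg fun j _ => sq_nonneg _))
  have : ∀ j, v x j ^ 2 ≤ M ^ 2 := fun j =>
    sq_le_sq' (neg_le_of_abs_le ((norm_le_pi_norm (v x) j).trans (hM x)))
      (le_of_abs_le ((norm_le_pi_norm (v x) j).trans (hM x)))
  simp only [Fin.sum_univ_three]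
  linarith [this 0, this 1, this 2]

lemma H1_sup {ν : ℝ} (hν : 0 < ν) {v : R3 → R3} (hv : IsData v) {M : ℝ} (hM : ∀ x, ‖v x‖ ≤ M) :
    2 * QQ H1 (fc v) (B.FF (lapS ν) (fc v)) + ν * hq 2 (fc v) ≤
      3 * M ^ 2 / ν * QQ H1 (fc v) (fc v) := by
  obtain ⟨rp, re, dv, -⟩ := hv.fourier
  obtain ⟨X, hX, hX'⟩ := bessel_transport hv hM
  obtain ⟨a, ha⟩ : ∃ a, a = fc v := ⟨_, rfl⟩
  rw [← ha] at rp re dv hX hX' ⊢
  have hA : B.Diss ν (lapS ν) := diss_visc hν
  have rF : Rapid (B.FF (lapS ν) a) := fun s => by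
    obtain ⟨C, m, hC, hg⟩ := hA.growth
    obtain ⟨N, hN⟩ := rp (s + 1)
    obtain ⟨N', hN'⟩ := rp.map hC hg s
    exact ⟨_, (Bd_BB (hN.mono (Nat.le_succ s)) hN).LP.neg.sub hN'⟩
  have e0 : QQ I1 a (B.FF (lapS ν) a) ≤ 0 := by
    rw [energy_eq hA rp dv re]
    exact neg_nonpos.mpr (QQ_I1_nonneg hA dv)
  have e1 := hasSum_le (fun k => ?_) (((mult_H1.summable rp rF).hasSum.mul_left 2).add
    ((rp.summable_ht 2).hasSum.mul_left ν))
    (((mult_I1.summable rp rF).hasSum.mul_left 2).add (hX.div_const ν))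
  · have e2 : hq 1 a ≤ QQ H1 a a := by
      refine (rp.summable_ht 1).tsum_le_tsum (fun k => ?_) (mult_H1.summable rp rp)
      rw [H1, re_inner_scalar, re_inner_self]
      by_cases hk : k = 0
      · simp [ht, hk]
      · rw [ht_nat 2 (by norm_num) a hk]
        linarith only [sq_nonneg ‖a k‖]
    have e3 : X / ν ≤ 3 * M ^ 2 / ν * QQ H1 a a := by
      rw [div_mul_eq_mul_div]
      exact div_le_div_of_nonneg_right
        (hX'.trans (mul_le_mul_of_nonneg_left e2 (by positivity))) hν.le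
    change 2 * QQ H1 a _ + ν * hq 2 a ≤ 2 * QQ I1 a _ + _ at e1
    linarith
  · rw [H1, I1, re_inner_scalar, re_inner_scalar, hq_two, B.FF, inner_sub_right, inner_neg_right,
      B.inner_LP (dv k), lapS_apply, inner_smul_right, sub_re, re_ofReal_mul, re_inner_self, neg_re]
    have b1 : -(⟪a k, BB a a k⟫_ℂ).re ≤ ‖a k‖ * ‖BB a a k‖ :=
      (neg_le_abs _).trans ((abs_re_le_norm _).trans (norm_inner_le_norm _ _))
    have b2 := mul_le_mul_of_nonneg_left b1 (sq_nonneg (ax k))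
    have b3 : 2 * (ax k ^ 2 * (‖a k‖ * ‖BB a a k‖)) ≤
        ν * (ax k ^ 4 * ‖a k‖ ^ 2) + ‖BB a a k‖ ^ 2 / ν := by
      rw [← sub_nonneg]
      have : ν * (ax k ^ 4 * ‖a k‖ ^ 2) + ‖BB a a k‖ ^ 2 / ν -
          2 * (ax k ^ 2 * (‖a k‖ * ‖BB a a k‖)) = (ν * (ax k ^ 2 * ‖a k‖) - ‖BB a a k‖) ^ 2 / ν := by
        field_simp; ring
      rw [this]; positivity
    linarith

lemma mult_curl : Mult curlL := ⟨inner_curlS, 1, 1, zero_le_one, fun k v => by
  rw [one_mul, pow_one]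
  exact (norm_curlS_le k v).trans (mul_le_mul_of_nonneg_right (ax_le_w k) (norm_nonneg _))⟩

lemma PS_curl {S1 S2 : Set Z3} {k : Z3} {v : C3} (h : PS 1 S1 S2 k v = v) :
    PS 1 S1 S2 k (curlS k v) = curlS k v := by
  by_cases hk : k = 0
  · rw [hk, PS_zero]
  have e : curlS k v = ((ch S1 k * ax k : ℝ) : ℂ) • hP 1 k v +
      ((ch S2 k * -ax k : ℝ) : ℂ) • hP (-1) k v := by
    conv_lhs => rw [← h, PS_apply hk, curlS_add, curlS_smul, curlS_smul, curl_hP (by norm_num),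
      curl_hP (by norm_num), smul_smul, smul_smul]
    push_cast
    simp
  rw [e, PS_apply hk, hP_comb (by norm_num), hP_comb' (by norm_num), smul_smul, smul_smul]
  by_cases a : k ∈ S1 <;> by_cases b : k ∈ S2 <;> simp [ch_mem, ch_not, a, b]

theorem blowup_full {S1 S2 : Set Z3} (h1 : ∀ k, -k ∈ S1 ↔ k ∈ S1)
    (h2 : ∀ k, -k ∈ S2 ↔ k ∈ S2) {ν : ℝ} (hν : 0 < ν) {u0 : R3 → R3} (h0 : IsData u0)
    (a1 : ∀ k, k ∉ S1 → hP 1 k (fc u0 k) = 0) (a2 : ∀ k, k ∉ S2 → hP (-1) k (fc u0 k) = 0)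
    (H : ¬∃ u p, IsSolutionOn (decim ν S1 S2) u0 (Ici 0) u p) :
    ∃ T > 0, ∃ u p, IsSolutionOn (decim ν S1 S2) u0 (Ico 0 T) u p ∧
      (∀ t ∈ Ico 0 T, (∀ k, k ∉ S1 → hP 1 k (fc (fun x => u x t) k) = 0) ∧
        (∀ k, k ∉ S2 → hP (-1) k (fc (fun x => u x t) k) = 0) ∧
        HasDerivWithinAt (fun s => enr 0 fun x => u x s) (-(2 * ν * enr 1 fun x => u x t))
          (Ico 0 T) t ∧
        HasDerivWithinAt (fun s => hlc 0 fun x => u x s) (-(2 * ν * hlc 1 fun x => u x t))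
          (Ico 0 T) t) ∧
      ∀ M : ℝ, ∃ t ∈ Ico 0 T, ∃ x, M < ‖u x t‖ := by
  let _ : PJ := pj (s := 1) (by norm_num) h1 h2
  have hA : Diss ν (lapS ν) := diss_lapS hν
  have hB : B.Diss ν (lapS ν) := diss_visc hν
  obtain ⟨rp0, re0, dv0, hs0⟩ := h0.fourier
  obtain ⟨a, a00, ha⟩ := hA.maximal (a0 := fc u0)
    (fun k => (PS_fix (s := 1) (by norm_num) k _).mpr ⟨dv0 k, a1 k, a2 k⟩) re0 rp0
  have cl : ∀ J : Set ℝ, 0 ∈ J → J ⊆ Ici 0 → (∀ t ∈ J, ∃ T, t < T ∧ Icc 0 T ⊆ J) →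
      (∀ T ∈ J, IsSol (lapS ν) a 0 T) → ∃ u p, IsSolutionOn (decim ν S1 S2) u0 J u p ∧
        ∀ t ∈ J, (fc fun x => u x t) = a t := by
    intro J z j1 j2 j3
    obtain ⟨u, p, hsum, hd, hsol⟩ := hA.classical j1 j2 j3
    have fu : ∀ t ∈ J, (fc fun x => u x t) = a t := fun t ht =>
      fc_of_hasSum ((j3 t ht).rapid ⟨j1 ht, le_rfl⟩).summable_norm (hsum t ht)
    refine ⟨u, p, hsol _ _ (fun x => funext fun i => ?_) fun t ht x i => ?_, fu⟩
    · have := hsum 0 z x i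
      rw [a00] at this
      exact_mod_cast this.unique (hs0 x i)
    · have := hasSum_decim h1 h2 ν (hd t ht) x i
      rw [fu t ht] at this
      refine this.congr_fun fun k => ?_
      refine congrArg (fun v : C3 => ek k x * v i) ?_
      rw [FF]
      change -(PS 1 S1 S2 k _) - _ + _ = _
      abel
  obtain ⟨Ts, hTs, ha, hl⟩ := ha.resolve_left fun h => by
    obtain ⟨u, p, hu, -⟩ := cl (Ici 0) self_mem_Ici subset_rfl
      (fun t _ => ⟨t + 1, lt_add_one t, Icc_subset_Ici_self⟩) fun T _ => h T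
    exact H ⟨u, p, hu⟩
  obtain ⟨u, p, hu, fu⟩ := cl (Ico 0 Ts) ⟨le_rfl, hTs⟩ Ico_subset_Ici_self Ico_extend
    fun S hS => ha S hS.2
  refine ⟨Ts, hTs, u, p, hu, fun t ht => ?_, fun M => ?_⟩
  · obtain ⟨T, tT, hT⟩ := exists_between ht.2
    have s := ha T hT
    have tm : t ∈ Icc 0 T := ⟨ht.1, tT.le⟩
    have nb : Icc 0 T ∈ 𝓝[Ico 0 Ts] t :=
      mem_nhdsWithin.mpr ⟨Iio T, isOpen_Iio, tT, fun r hr => ⟨hr.2.1, hr.1.le⟩⟩
    have fx := fun k => (PS_fix (s := 1) (by norm_num) k (a t k)).mp (s.div t tm k)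
    have key : ∀ {Φ : Z3 → C3 →L[ℂ] C3} (_ : Mult Φ) (F : (R3 → R3) → ℝ) {D : ℝ},
        (∀ v, F v = QQ Φ (fc v) (fc v)) → D = 2 * QQ Φ (a t) (FF (lapS ν) (a t)) →
        HasDerivWithinAt (fun s => F fun x => u x s) D (Ico 0 Ts) t := by
      intro Φ hΦ F D hF hD
      have d := (s.hasDeriv_QQ hA hΦ tm).mono_of_mem_nhdsWithin nb
      rw [hD]
      exact d.congr (fun r hr => by rw [hF, fu r hr]) (by rw [hF, fu t ht])
    refine ⟨fun k => by rw [fu t ht]; exact (fx k).2.1, fun k => by rw [fu t ht]; exact (fx k).2.2,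
      key mult_I1 (enr 0) ?_ ?_, key mult_curl (hlc 0) ?_ ?_⟩
    · exact fun v => tsum_congr fun k => by rw [I1, re_inner_scalar, re_inner_self]; simp
    · rw [QQ_I1_eq (s.div t tm), energy_eq hB (s.rapid tm) (s.div t tm).toB (s.real t tm), enr,
        fu t ht, QQ, mul_neg, mul_assoc, ← tsum_mul_left]
      congr 2
      refine tsum_congr fun k => ?_
      rw [I1, re_inner_scalar, lapS_apply, inner_smul_right, re_ofReal_mul, re_inner_self]
      ring
    · exact fun v => tsum_congr fun k => by simp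
    · have e : QQ curlL (a t) (FF (lapS ν) (a t)) = QQ curlL (a t) (B.FF (lapS ν) (a t)) := by
        refine tsum_congr fun k => ?_
        rw [FF, B.FF, inner_sub_right, inner_sub_right, inner_neg_right, inner_neg_right,
          curlL_apply, inner_LP (PS_curl (s.div t tm k)), B.inner_LP (dt_curlS k _)]
      have z : (fun k => B.LP k (tf curlL 1 0 (a t) k)) = fun _ => 0 := by
        funext k; simp [tf]
      rw [e, QQ_FF hB mult_curl 1 0 (s.rapid tm) (s.div t tm).toB (s.real t tm), z, hlc, fu t ht,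
        QQ, mul_assoc, ← tsum_mul_left]
      simp only [TT, tt, inner_zero_left, mul_zero, tsum_zero, zero_re, neg_zero, zero_sub, mul_neg]
      congr 2
      refine tsum_congr fun k => ?_
      rw [lapS_apply, inner_smul_right, re_ofReal_mul, curlL_apply]
      ring
  by_contra hc
  push Not at hc
  obtain ⟨Bd, B0, hBd⟩ := osgood (QQ H1 (a 0) (a 0)) (3 * M ^ 2 / ν * Ts) (by positivity)
  refine hA.no_blowup hB hTs (K := Bd / ν) (by positivity) ha hl fun T hT => ?_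
  have s := ha T hT.2
  have y0 : ∀ t ∈ Icc 0 T, 0 ≤ QQ H1 (a t) (a t) := fun t ht =>
    (sq_nonneg _).trans (QQ_H1_ge (s.rapid ht))
  have k := (hBd T _ _ _ (fun _ => 3 * M ^ 2 / ν) hT.1 rfl (fun t ht => s.hasDeriv_QQ hA mult_H1 ht)
    (s.continuousOn_QQ_FF hA mult_H1) (continuousOn_const.mul (s.continuousOn_hq 2)) y0
    (fun t _ => mul_nonneg hν.le (hq_nonneg _ _)) (fun t _ => by positivity) (fun t ht => ?_) ?_).2
  · rw [div_eq_inv_mul Bd, ENNReal.ofReal_mul (by positivity)]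
    refine le_trans ?_ (mul_le_mul_right k _)
    rw [← lintegral_const_mul' _ _ ENNReal.ofReal_ne_top]
    refine setLIntegral_mono' measurableSet_Ioo fun t ht => ?_
    rw [← ENNReal.ofReal_mul (by positivity), Pi.mul_apply, inv_mul_cancel_left₀ hν.ne']
    exact ENNReal.ofReal_le_ofReal ((s.rapid (Ioo_subset_Icc_self ht)).hq_mono (by norm_num))
  · have tm : t ∈ Ico 0 Ts := ⟨ht.1, ht.2.trans_lt hT.2⟩
    have := H1_sup hν (hu.isData_slice tm) (hc t tm)
    rw [fu t tm] at this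
    rw [QQ_H1_eq (s.div t ht)]
    exact this.trans (mul_le_mul_of_nonneg_left (le_log_form (y0 t ht)) (by positivity))
  · rw [setLIntegral_const, Real.volume_Ioo, ← ENNReal.ofReal_mul (by positivity), sub_zero]
    exact ENNReal.ofReal_le_ofReal (mul_le_mul_of_nonneg_left hT.2.le (by positivity))

end

end Pool.Agent.Work.MP_6bf1e5_an.B.G
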