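import Pool.Agent.Work.MP_6bf1e5_an.Dec.Gap1D

/-!
Envelopes close to the ground state are drivers.
-/

open Set Complex
open scoped InnerProductSpace ComplexConjugate
open Pool.Agent.Work.MP_6bf1e5_an.B (Z3 R3 box)

namespace Pool.Agent.Work.MP_6bf1e5_an.Dec

namespace Gap1Aux

/-- The two symmetries of a driver. -/
def Sy (f : V) : Prop :=
  (∀ h : Z3, f.coeff ![-h 0, h 1, -h 2] = f.coeff h) ∧ ∀ h, f.coeff (mzE h) = conj (f.coeff h)

lemma sy_sw {B : V} (h : Sym B) : Sy (sw B) := by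
  refine ⟨fun k => ?_, fun k => ?_⟩
  · rw [coeff_sw, coeff_sw, ← h.1 (swE k)]
    rfl
  · rw [coeff_sw, coeff_sw, ← h.2 (swE k)]
    rfl

lemma sym_sub_smul {B C : V} (hB : Sym B) (hC : Sym C) (a : ℝ) : Sym (B - (a : ℂ) • C) := by
  refine ⟨fun k => ?_, fun k => ?_⟩
  · simp [hB.1 k, hC.1 k]
  · simp [hB.2 k, hC.2 k]

lemma norm_exp_taylor (u : ℝ) : ‖Complex.exp (I * u) - 1 - I * u‖ ≤ 2 * u ^ 2 := by
  have hn : ‖I * (u : ℂ)‖ = |u| := by simp
  rcases le_total |u| 1 with h | h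
  · have := Complex.norm_exp_sub_one_sub_id_le (x := I * u) (by rw [hn]; exact h)
    rw [hn, sq_abs] at this
    linarith [sq_nonneg u]
  · have h1 : ‖Complex.exp (I * u) - 1‖ ≤ |u| := Real.norm_exp_I_mul_ofReal_sub_one_le
    have h2 := norm_sub_le (Complex.exp (I * u) - 1) (I * u)
    rw [hn] at h2
    rw [← sq_abs]
    nlinarith only [h, h1, h2, abs_nonneg u]

lemma sum_abs_sq_le (x : R3) : (∑ i, |x i|) ^ 2 ≤ 3 * sq3 x := by
  rw [sq3, Fin.sum_univ_three, Fin.sum_univ_three, ← sq_abs (x 0), ← sq_abs (x 1), ← sq_abs (x 2)]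
  linarith [sq_nonneg (|x 0| - |x 1|), sq_nonneg (|x 0| - |x 2|), sq_nonneg (|x 1| - |x 2|)]

lemma sq3_nonneg (x : R3) : 0 ≤ sq3 x := Finset.sum_nonneg fun _ _ => sq_nonneg _

lemma radius_sq_le (m : ℕ) (x : R3) : (m * ∑ i, |x i|) ^ 2 ≤ 3 * ((m + 1) ^ 2 * sq3 x) := by
  have h1 := sum_abs_sq_le x
  have h2 := sq3_nonneg x
  have h3 : (0 : ℝ) ≤ m := Nat.cast_nonneg m
  calc (m * ∑ i, |x i|) ^ 2 = (m : ℝ) ^ 2 * (∑ i, |x i|) ^ 2 := by ring
    _ ≤ (m + 1) ^ 2 * (3 * sq3 x) := by gcongr; linarith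
    _ = _ := by ring

lemma moment {m : ℕ} {f : V} (h : Sy f) (x : R3) :
    (∑ k ∈ box m, f.coeff k * (pr k x : ℝ)).im = 0 := by
  have e1 : ∑ k ∈ box m, f.coeff k * (pr k x : ℝ) =
      ∑ k ∈ box m, f.coeff k * (pr ![-k 0, k 1, -k 2] x : ℝ) := by
    refine Finset.sum_nbij' (fun k => ![-k 0, k 1, -k 2]) (fun k => ![-k 0, k 1, -k 2])
      ?_ ?_ ?_ ?_ ?_
    · intro k hk; simpa [mem_box', Fin.forall_fin_succ] using hk
    · intro k hk; simpa [mem_box', Fin.forall_fin_succ] using hk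
    · intro k _; ext i; fin_cases i <;> simp
    · intro k _; ext i; fin_cases i <;> simp
    · intro k _
      rw [h.1 k]
      congr 3
      ext i; fin_cases i <;> simp
  have e2 : 2 * ∑ k ∈ box m, f.coeff k * (pr k x : ℝ) =
      2 * ∑ k ∈ box m, f.coeff k * ((k 1 * x 1 : ℝ) : ℂ) := by
    rw [two_mul]
    nth_rewrite 2 [e1]
    rw [← Finset.sum_add_distrib, Finset.mul_sum]
    refine Finset.sum_congr rfl fun k _ => ?_
    simp [pr, Fin.sum_univ_three]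
    ring
  have e3 := mul_left_cancel₀ two_ne_zero e2
  rw [e3]
  apply Complex.conj_eq_iff_im.mp
  rw [map_sum]
  refine Finset.sum_nbij' mzE mzE ?_ ?_ ?_ ?_ ?_
  · intro k hk; exact mzE_mem_box.mpr hk
  · intro k hk; exact mzE_mem_box.mpr hk
  · intro k _; exact mzE.left_inv k
  · intro k _; exact mzE.left_inv k
  · intro k _
    rw [map_mul, Complex.conj_ofReal, h.2 k]
    rfl

lemma ev_zero_im {m : ℕ} {f : V} (hs : Supp m f) (h : Sy f) : (ev 0 f).im = 0 := by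
  rw [ev_zero_eq hs.subset]
  apply Complex.conj_eq_iff_im.mp
  rw [map_sum]
  refine Finset.sum_nbij' mzE mzE ?_ ?_ ?_ ?_ ?_
  · intro k hk; exact mzE_mem_box.mpr hk
  · intro k hk; exact mzE_mem_box.mpr hk
  · intro k _; exact mzE.left_inv k
  · intro k _; exact mzE.left_inv k
  · intro k _
    rw [h.2 k]

lemma re_sub_le {m : ℕ} {f : V} (hs : Supp m f) (h : Sy f) (x : R3) :
    |(ev x f).re - (ev 0 f).re| ≤ l1 f * (6 * ((m + 1) ^ 2 * sq3 x)) := by
  have e : ev x f - ev 0 f - I * ∑ k ∈ box m, f.coeff k * (pr k x : ℝ) =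
      ∑ k ∈ box m, f.coeff k * (Complex.exp (I * (pr k x : ℝ)) - 1 - I * (pr k x : ℝ)) := by
    rw [ev_eq x hs.subset, ev_zero_eq hs.subset, Finset.mul_sum, ← Finset.sum_sub_distrib,
      ← Finset.sum_sub_distrib]
    exact Finset.sum_congr rfl fun k _ => by ring
  have e2 : (ev x f).re - (ev 0 f).re =
      (ev x f - ev 0 f - I * ∑ k ∈ box m, f.coeff k * (pr k x : ℝ)).re := by
    rw [Complex.sub_re, Complex.sub_re, Complex.mul_re, moment h x]
    simp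
  rw [e2, e, l1_eq hs.subset, Finset.sum_mul]
  refine (Complex.abs_re_le_norm _).trans ((norm_sum_le _ _).trans
    (Finset.sum_le_sum fun k hk => ?_))
  rw [norm_mul]
  gcongr
  refine (norm_exp_taylor _).trans ?_
  have h1 := abs_pr_le hk x
  have h2 := radius_sq_le m x
  have h3 : pr k x ^ 2 ≤ (m * ∑ i, |x i|) ^ 2 := by
    rw [← sq_abs]; gcongr
  linarith

lemma re_sub_le' {m : ℕ} {f : V} (hs : Supp m f) (h : Sy f) (x : R3) :
    |(ev x f).re - (ev 0 f).re| ≤ l1 f * (6 * min 1 ((m + 1) ^ 2 * sq3 x)) := by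
  rcases min_cases 1 ((m + 1 : ℝ) ^ 2 * sq3 x) with h0 | h0
  · rw [h0.1]
    have h1 := (Complex.abs_re_le_norm _).trans (norm_ev_le x f)
    have h2 := (Complex.abs_re_le_norm _).trans (norm_ev_le 0 f)
    have h3 := abs_sub (ev x f).re (ev 0 f).re
    have := l1_nonneg f
    linarith
  · rw [h0.1]; exact re_sub_le hs h x

lemma im_sq_le {m : ℕ} {f : V} (hs : Supp m f) (h : Sy f) (x : R3) :
    |(ev x f).im| ≤ l1 f * √(3 * min 1 ((m + 1) ^ 2 * sq3 x)) := by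
  have hl := l1_nonneg f
  rcases min_cases 1 ((m + 1 : ℝ) ^ 2 * sq3 x) with h0 | h0
  · rw [h0.1]
    refine ((Complex.abs_im_le_norm _).trans (norm_ev_le x f)).trans ?_
    exact le_mul_of_one_le_right hl (Real.one_le_sqrt.mpr (by norm_num))
  · rw [h0.1]
    have h1 : (ev x f).im = (ev x f - ev 0 f).im := by
      rw [Complex.sub_im, ev_zero_im hs h, sub_zero]
    rw [h1]
    refine ((Complex.abs_im_le_norm _).trans (norm_ev_sub_le hs x)).trans ?_
    gcongr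
    exact Real.le_sqrt_of_sq_le (radius_sq_le m x)

lemma bilin {m : ℕ} {f g : V} (hf : Supp m f) (hg : Supp m g) (sf : Sy f) (sg : Sy g) (x : R3) :
    (ev x f).re * (ev x g).re + (ev x f).im * (ev x g).im ≤
      (ev 0 f).re * (ev 0 g).re + 15 * min 1 ((m + 1) ^ 2 * sq3 x) * (l1 f * l1 g) := by
  set t := min 1 ((m + 1 : ℝ) ^ 2 * sq3 x) with ht
  have ht0 : 0 ≤ t := le_min zero_le_one (by have := sq3_nonneg x; positivity)
  have lf := l1_nonneg f
  have lg := l1_nonneg g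
  have a1 := re_sub_le' hf sf x
  have a2 := re_sub_le' hg sg x
  have b1 := im_sq_le hf sf x
  have b2 := im_sq_le hg sg x
  rw [← ht] at a1 a2 b1 b2
  have c1 := (Complex.abs_re_le_norm _).trans (norm_ev_le x g)
  have c2 := (Complex.abs_re_le_norm _).trans (norm_ev_le 0 f)
  have d1 : ((ev x f).re - (ev 0 f).re) * (ev x g).re ≤ l1 f * (6 * t) * l1 g := by
    refine (le_abs_self _).trans ?_
    rw [abs_mul]; gcongr
  have d2 : (ev 0 f).re * ((ev x g).re - (ev 0 g).re) ≤ l1 f * (l1 g * (6 * t)) := by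
    refine (le_abs_self _).trans ?_
    rw [abs_mul]; gcongr
  have d3 : (ev x f).im * (ev x g).im ≤ l1 f * √(3 * t) * (l1 g * √(3 * t)) := by
    refine (le_abs_self _).trans ?_
    rw [abs_mul]; gcongr
  have d4 : l1 f * √(3 * t) * (l1 g * √(3 * t)) = 3 * t * (l1 f * l1 g) := by
    have := Real.mul_self_sqrt (show 0 ≤ 3 * t by positivity)
    linear_combination (l1 f * l1 g) * this
  linarith only [d1, d2, d3, d4]

lemma arith_far {a L l t r P Q R : ℝ} (ha : 0 < a) (hl0 : 0 ≤ l) (ht0 : 0 ≤ t) (hu0 : 0 < a * L)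
    (hlu : l ≤ 3 / 10 ^ 10 * (a * L)) (hr : r ≤ l)
    (f1 : P ≤ (1 - 1 / (3 * 10 ^ 5) * t) * L ^ 2) (f2 : Q ≤ L * r + 15 * t * (L * l))
    (f3 : R ≤ r * r + 15 * t * (l * l)) (hb : 0 ≤ a * L + r) :
    a ^ 2 * P + 2 * a * Q + R ≤ (a * L + r) ^ 2 * (1 - 1 / 10 ^ 6 * t) := by
  have g1 := mul_le_mul_of_nonneg_left f1 (sq_nonneg a)
  have g2 := mul_le_mul_of_nonneg_left f2 (show 0 ≤ 2 * a by positivity)
  have f5 : a ^ 2 * P + 2 * a * Q + R ≤ (a * L + r) ^ 2 -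
      t * (1 / (3 * 10 ^ 5) * (a * L) ^ 2 - 30 * ((a * L) * l) - 15 * (l * l)) := by
    linarith only [f3, g1, g2]
  clear g1 g2 f1 f2 f3
  generalize a * L = u at *
  have g3 : u * l ≤ 3 / 10 ^ 10 * u ^ 2 := by nlinarith only [hu0, hlu]
  have g4 : l * l ≤ 3 / 10 ^ 10 * u ^ 2 := by nlinarith only [hl0, hlu]
  have g6 : (u + r) ^ 2 ≤ (3 / 2 * u) ^ 2 := pow_le_pow_left₀ hb (by linarith only [hr, hu0, hlu]) 2
  have g7 : 1 / 10 ^ 6 * (u + r) ^ 2 ≤
      1 / (3 * 10 ^ 5) * u ^ 2 - 30 * (u * l) - 15 * (l * l) := by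
    linarith only [g3, g4, g6, sq_nonneg u]
  have g8 := mul_le_mul_of_nonneg_left g7 ht0
  linarith only [f5, g8]

lemma arith_near {e l r n : ℝ} (he : 0 ≤ e) (hl : l ≤ 2) (h1 : -(l * (6 * e)) ≤ r - 1)
    (h2 : r ^ 2 ≤ n) : 1 - n ≤ 50 * e := by
  nlinarith only [he, hl, h1, h2, sq_nonneg (r - 1)]

end Gap1Aux

open Gap1Aux in
theorem drv_of_cone {m : ℕ} (hm : 100 ≤ m) {B : V} {a : ℝ} (ha : 0 < a) (hs : Supp m B)
    (hy : Sym B) (hc : ‖B - (a : ℂ) • phi m‖ ≤ 1 / 10 ^ 10 * a) :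
    NN m * a / 2 ≤ (ev 0 B).re ∧ (ev 0 B).re ≤ 4 * (NN m * a) ∧ Drv m (pk B) := by
  have hN := NN_pos m
  set ψ : V := sw (B - (a : ℂ) • phi m) with hψ
  have hA : sw B = (a : ℂ) • phi m + ψ := by
    rw [hψ, sw_sub, sw_smul, sw_phi]; abel
  have sψ : Supp m ψ := (hs.sub ((supp_phi m).smul _)).sw
  have yψ : Sy ψ := sy_sw (sym_sub_smul hy (sym_phi m) a)
  have yφ : Sy (phi m) := by
    have := sy_sw (sym_phi m)
    rwa [sw_phi] at this
  have yA : Sy (sw B) := sy_sw hy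
  have nψ : ‖ψ‖ ≤ 1 / 10 ^ 10 * a := by rw [hψ, norm_sw]; exact hc
  have lψ : l1 ψ ≤ 3 * NN m * (1 / 10 ^ 10 * a) := sψ.l1_le.trans (by gcongr)
  have lφ1 := le_l1_phi m
  have lφ2 := l1_phi_le m
  set L := l1 (phi m) with hL
  have hev : ∀ x, ev x (sw B) = a * ev x (phi m) + ev x ψ := fun x => by
    rw [hA, map_add, map_smul, smul_eq_mul]
  have h0 : ev 0 B = ev 0 (sw B) := (ev_zero_prm swE B).symm
  have hφ0 : (ev 0 (phi m)).re = L := by rw [ev_zero_phi]; simp [hL]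
  have hb : (ev 0 B).re = a * L + (ev 0 ψ).re := by
    rw [h0, hev, Complex.add_re, Complex.re_ofReal_mul, hφ0]
  have hψ0 : |(ev 0 ψ).re| ≤ l1 ψ := (Complex.abs_re_le_norm _).trans (norm_ev_le 0 ψ)
  have hψ1 := abs_le.mp hψ0
  have hNa : 0 < NN m * a := by positivity
  have hL1 : NN m * a ≤ a * L := by rw [mul_comm]; exact mul_le_mul_of_nonneg_left lφ1 ha.le
  have hL2 : a * L ≤ 3 * (NN m * a) :=
    (mul_le_mul_of_nonneg_left lφ2 ha.le).trans (le_of_eq (by ring))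
  have lψ' : l1 ψ ≤ 3 / 10 ^ 10 * (NN m * a) := lψ.trans (le_of_eq (by ring))
  set b := (ev 0 B).re with hbdef
  have hb1 : NN m * a / 2 ≤ b := by linarith only [lψ, hNa, hL1, hb, hψ1.1]
  have hb0 : 0 < b := by linarith only [lψ, hψ1, hNa, hL1, hb]
  have hbc : ev 0 B = (b : ℂ) := by
    apply Complex.ext
    · simp [hbdef]
    · simp [hy.ev_zero_im]
  have hp : pk B = ((b⁻¹ : ℝ) : ℂ) • sw B := by rw [pk, hbc]; simp
  have hnb : ‖((b⁻¹ : ℝ) : ℂ)‖ = b⁻¹ := by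
    rw [Complex.norm_real, Real.norm_of_nonneg (inv_nonneg.mpr hb0.le)]
  have lA : l1 (sw B) ≤ a * L + l1 ψ := by
    rw [hA]
    refine (l1_add_le _ _).trans ?_
    rw [l1_smul, Complex.norm_real, Real.norm_of_nonneg ha.le]
  have lp : l1 (pk B) ≤ 2 := by
    rw [hp, l1_smul, hnb, inv_mul_le_iff₀ hb0]
    linarith only [lψ, hNa, hL1, hb, lA, hψ1.1]
  have sp : Supp m (pk B) := hs.sw.smul _
  have yp : Sy (pk B) := by
    rw [hp]
    refine ⟨fun k => ?_, fun k => ?_⟩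
    · simp only [AddMonoidAlgebra.coeff_smul, Finsupp.smul_apply, smul_eq_mul, yA.1 k]
    · simp only [AddMonoidAlgebra.coeff_smul, Finsupp.smul_apply, smul_eq_mul, yA.2 k, map_mul,
        Complex.conj_ofReal]
  have one : ev 0 (pk B) = 1 := by
    rw [hp, map_smul, ← h0, hbc, smul_eq_mul, ← Complex.ofReal_mul, inv_mul_cancel₀ hb0.ne']
    simp
  refine ⟨hb1, by linarith only [lψ, hNa, hL2, hb, hψ1.2], sp, one, lp, ?_, yp.1, yp.2, fun x hx => ?_, fun x => ?_⟩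
  · rw [hp, norm_smul, hnb, norm_sw, inv_mul_le_iff₀ hb0]
    have h1 : ‖B‖ ≤ a + 1 / 10 ^ 10 * a := by
      have h2 := norm_add_le ((a : ℂ) • phi m) (B - (a : ℂ) • phi m)
      rw [add_sub_cancel, norm_smul, norm_phi, Complex.norm_real, Real.norm_of_nonneg ha.le] at h2
      linarith only [hc, h2]
    calc ‖B‖ ≤ NN m * a / 2 * (3 / NN m) := by
          rw [show NN m * a / 2 * (3 / NN m) = 3 / 2 * a by field_simp]
          linarith only [ha, h1]
      _ ≤ _ := mul_le_mul_of_nonneg_right hb1 (div_nonneg (by norm_num) hN.le)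
  · set t := min 1 ((m + 1 : ℝ) ^ 2 * sq3 x) with ht
    have ht0 : 0 ≤ t := le_min zero_le_one (mul_nonneg (sq_nonneg _) (sq3_nonneg x))
    have f1 := phi_far hm hx
    have f2 := bilin (supp_phi m) sψ yφ yψ x
    have f3 := bilin sψ sψ yψ yψ x
    rw [← ht, ← hL] at f1 f2
    rw [← ht] at f3
    rw [hφ0] at f2
    rw [Complex.sq_norm, Complex.normSq_apply] at f1
    have f4 : ‖ev x (sw B)‖ ^ 2 = a ^ 2 * ((ev x (phi m)).re * (ev x (phi m)).re +
        (ev x (phi m)).im * (ev x (phi m)).im) + 2 * a * ((ev x (phi m)).re * (ev x ψ).re +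
        (ev x (phi m)).im * (ev x ψ).im) +
        ((ev x ψ).re * (ev x ψ).re + (ev x ψ).im * (ev x ψ).im) := by
      rw [Complex.sq_norm, Complex.normSq_apply, hev]
      simp only [Complex.add_re, Complex.add_im, Complex.re_ofReal_mul, Complex.im_ofReal_mul]
      ring
    have f5 := arith_far ha (l1_nonneg ψ) ht0 (by linarith only [hNa, hL1]) (by linarith only [lψ, hL1]) hψ1.2 f1 f2 f3
      (by linarith only [lψ, hψ1, hL1])
    rw [← f4, ← hb] at f5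
    rw [hp, map_smul, smul_eq_mul, norm_mul, hnb, mul_pow, inv_pow,
      inv_mul_le_iff₀ (pow_pos hb0 2)]
    exact f5
  · have f1 := abs_le.mp (re_sub_le sp yp x)
    rw [one, Complex.one_re] at f1
    have f2 : (ev x (pk B)).re ^ 2 ≤ ‖ev x (pk B)‖ ^ 2 := by
      rw [← sq_abs]
      exact pow_le_pow_left₀ (abs_nonneg _) (Complex.abs_re_le_norm _) 2
    have f3 : 0 ≤ (m + 1 : ℝ) ^ 2 * sq3 x := mul_nonneg (sq_nonneg _) (sq3_nonneg x)
    exact arith_near f3 lp f1.1 f2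

end Pool.Agent.Work.MP_6bf1e5_an.Dec
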