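import Pool.Agent.Work.MP_6bf1e5_an.Dec.Phi

/-!
The symbol of the ground state.
-/

open Set Complex
open scoped InnerProductSpace ComplexConjugate
open Pool.Agent.Work.MP_6bf1e5_an.B (Z3 R3 box)

namespace Pool.Agent.Work.MP_6bf1e5_an.Dec.Gap1Aux

noncomputable section

/-- The one dimensional symbol. -/
def DD (θ : ℝ) (n : ℕ) (x : ℝ) : ℝ :=
  ∑ h ∈ Finset.Icc (-(n : ℤ)) n, Real.cos (θ * h) * Real.cos (x * h)

lemma sum_Icc_succ {α : Type} [AddCommMonoid α] (f : ℤ → α) (n : ℕ) :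
    ∑ h ∈ Finset.Icc (-((n + 1 : ℕ) : ℤ)) ((n + 1 : ℕ) : ℤ), f h =
      ∑ h ∈ Finset.Icc (-(n : ℤ)) n, f h + (f (-(n + 1)) + f (n + 1)) := by
  rw [Nat.cast_add, Nat.cast_one, Finset.Icc_succ_succ, Finset.sum_union (by simp),
    Finset.sum_pair (by omega)]

lemma DD_closed (θ x : ℝ) (n : ℕ) :
    (Real.cos x - Real.cos θ) * DD θ n x =
      Real.cos (θ * n) * Real.cos (x * (n + 1)) - Real.cos (θ * (n + 1)) * Real.cos (x * n) := by
  induction n with
  | zero => simp [DD]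
  | succ n ih =>
    unfold DD at ih ⊢
    rw [sum_Icc_succ, mul_add, ih]
    push_cast
    simp only [mul_neg, Real.cos_neg]
    have e1 : Real.cos (x * (n + 1 + 1)) = 2 * Real.cos x * Real.cos (x * (n + 1)) - Real.cos (x * n) := by
      rw [show x * ((n : ℝ) + 1 + 1) = x * (n + 1) + x by ring,
        show x * (n : ℝ) = x * (n + 1) - x by ring, Real.cos_add, Real.cos_sub]
      ring
    have e2 : Real.cos (θ * (n + 1 + 1)) = 2 * Real.cos θ * Real.cos (θ * (n + 1)) - Real.cos (θ * n) := by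
      rw [show θ * ((n : ℝ) + 1 + 1) = θ * (n + 1) + θ by ring,
        show θ * (n : ℝ) = θ * (n + 1) - θ by ring, Real.cos_add, Real.cos_sub]
      ring
    rw [e1, e2]
    ring

lemma sum_exp_eq (θ x : ℝ) (n : ℕ) :
    ∑ h ∈ Finset.Icc (-(n : ℤ)) n, ((Real.cos (θ * h) : ℝ) : ℂ) * Complex.exp (I * ((h * x : ℝ) : ℂ)) =
      (DD θ n x : ℂ) := by
  induction n with
  | zero => simp [DD]
  | succ n ih =>
    unfold DD at ih ⊢
    rw [sum_Icc_succ, sum_Icc_succ, ih, Complex.ofReal_add]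
    congr 1
    simp only [Int.cast_neg, mul_neg, Real.cos_neg, neg_mul]
    rw [mul_comm I, mul_comm I, Complex.exp_mul_I, Complex.exp_mul_I]
    push_cast
    simp only [Complex.cos_neg, Complex.sin_neg]
    rw [mul_comm (x : ℂ)]
    ring

lemma th_mul (m : ℕ) : th m * (m + 1) = Real.pi / 2 := by
  unfold th
  field_simp

lemma cos_w_nonneg {m : ℕ} {h : ℤ} (hh : h ∈ Finset.Icc (-(m : ℤ)) m) : 0 ≤ Real.cos (th m * h) := by
  apply cos_th_nonneg
  rw [Finset.mem_Icc] at hh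
  rw [abs_le]; constructor <;> omega

lemma DD_zero_le (m : ℕ) : DD (th m) m 0 ≤ 2 * (m + 1) := by
  unfold DD
  calc _ ≤ ∑ h ∈ Finset.Icc (-(m : ℤ)) m, (1 : ℝ) :=
        Finset.sum_le_sum fun h _ => by simpa using Real.cos_le_one _
    _ ≤ _ := by
        simp only [Finset.sum_const, Int.card_Icc, nsmul_eq_mul, mul_one]
        rw [show (m : ℤ) + 1 - -(m : ℤ) = ((2 * m + 1 : ℕ) : ℤ) by push_cast; ring, Int.toNat_natCast]
        push_cast; linarith

lemma DD_zero_nonneg (m : ℕ) : 0 ≤ DD (th m) m 0 :=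
  Finset.sum_nonneg fun h hh => by simpa using cos_w_nonneg hh

lemma DD_far {m : ℕ} (hm : 100 ≤ m) {x : ℝ} (h1 : 2 * th m ≤ |x|) (h2 : |x| ≤ Real.pi) :
    |DD (th m) m x| ≤ DD (th m) m 0 / 2 := by
  have hθ := th_pos m
  have hθ1 : th m ≤ 1 / 10 := by
    have := th_mul m
    have h3 : (100 : ℝ) ≤ m := by exact_mod_cast hm
    nlinarith only [this, h3, Real.pi_lt_four]
  have hc : 1 / 2 ≤ Real.cos (th m) := by
    nlinarith only [hθ, hθ1, Real.one_sub_sq_div_two_le_cos (x := th m)]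
  have hc1 : Real.cos (th m) < 1 := by
    have := Real.cos_le_one_sub_mul_cos_sq (x := th m)
      (by rw [abs_of_pos hθ]; linarith only [h1, h2, Real.pi_gt_three])
    have : 0 < 2 / Real.pi ^ 2 * th m ^ 2 := by have := Real.pi_pos; positivity
    linarith
  have e0 := DD_closed (th m) 0 m
  have ex := DD_closed (th m) x m
  rw [th_mul, Real.cos_pi_div_two] at e0 ex
  simp only [zero_mul, Real.cos_zero, sub_zero, mul_one] at e0 ex
  have hx : Real.cos x ≤ Real.cos (2 * th m) := by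
    rw [← Real.cos_abs x]
    exact Real.cos_le_cos_of_nonneg_of_le_pi (by positivity) h2 h1
  rw [Real.cos_two_mul] at hx
  have hD0 := DD_zero_nonneg m
  have h4 : 2 * (1 - Real.cos (th m)) ≤ |Real.cos x - Real.cos (th m)| := by
    rw [abs_sub_comm]
    refine le_trans ?_ (le_abs_self _)
    nlinarith only [hc, hc1, hx]
  have h5 : |Real.cos x - Real.cos (th m)| * |DD (th m) m x| ≤ (1 - Real.cos (th m)) * DD (th m) m 0 := by
    rw [← abs_mul, ex, ← e0, abs_mul, abs_of_nonneg (mul_nonneg (by linarith only [hc1]) hD0)]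
    exact mul_le_of_le_one_right (mul_nonneg (by linarith only [hc1]) hD0) (Real.abs_cos_le_one _)
  have h6 : 2 * (1 - Real.cos (th m)) * |DD (th m) m x| ≤ (1 - Real.cos (th m)) * DD (th m) m 0 :=
    le_trans (mul_le_mul_of_nonneg_right h4 (abs_nonneg _)) h5
  nlinarith only [hc1, h6]

lemma sum_sub_ge {m : ℕ} (hm : 100 ≤ m) (g : ℤ → ℝ) (hg : ∀ h ∈ Finset.Icc (-(m : ℤ)) m, 0 ≤ g h)
    {c : ℝ} (hc0 : 0 ≤ c)
    (hc : ∀ h : ℤ, (m + 1 : ℝ) ≤ 4 * h → 2 * h ≤ (m + 1 : ℝ) → c ≤ g h) :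
    (m + 1 : ℝ) / 10 * c ≤ ∑ h ∈ Finset.Icc (-(m : ℤ)) m, Real.cos (th m * h) * g h := by
  set J : Finset ℤ := Finset.Icc (((m + 4) / 4 : ℕ) : ℤ) (((m + 1) / 2 : ℕ) : ℤ) with hJ
  have hsub : J ⊆ Finset.Icc (-(m : ℤ)) m := by
    intro h hh
    simp only [hJ, Finset.mem_Icc] at hh ⊢
    omega
  have hcard : (m + 1 : ℝ) / 5 ≤ J.card := by
    have : m + 1 ≤ 5 * J.card := by
      simp only [hJ, Int.card_Icc]
      omega
    have : ((m + 1 : ℕ) : ℝ) ≤ ((5 * J.card : ℕ) : ℝ) := by exact_mod_cast this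
    push_cast at this
    linarith only [this]
  refine le_trans ?_ (Finset.sum_le_sum_of_subset_of_nonneg hsub fun h hh _ =>
    mul_nonneg (cos_w_nonneg hh) (hg h hh))
  calc (m + 1 : ℝ) / 10 * c ≤ J.card * (1 / 2 * c) := by nlinarith only [hc0, hcard]
    _ = ∑ h ∈ J, 1 / 2 * c := by simp
    _ ≤ _ := by
      refine Finset.sum_le_sum fun h hh => ?_
      simp only [hJ, Finset.mem_Icc] at hh
      have a1 : (m + 1 : ℝ) ≤ 4 * h := by
        have : (m + 1 : ℤ) ≤ 4 * h := by omega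
        exact_mod_cast this
      have a2 : 2 * h ≤ (m + 1 : ℝ) := by
        have : 2 * h ≤ (m + 1 : ℤ) := by omega
        exact_mod_cast this
      have hθ := th_pos m
      have a3 : th m * h ≤ 1 := by
        have := th_mul m
        nlinarith only [a1, a2, this, Real.pi_lt_four]
      have a4 : 0 ≤ th m * h := by
        have : (0 : ℝ) ≤ m := Nat.cast_nonneg m
        exact mul_nonneg hθ.le (by linarith only [a1])
      have a5 : 1 / 2 ≤ Real.cos (th m * h) := by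
        nlinarith only [a3, a4, Real.one_sub_sq_div_two_le_cos (x := th m * h)]
      exact mul_le_mul a5 (hc h a1 a2) hc0 (by linarith only [a5])

lemma DD_near {m : ℕ} (hm : 100 ≤ m) {x : ℝ} (h1 : |x| ≤ 2 * th m) :
    DD (th m) m x ^ 2 ≤ (1 - 1 / 10 ^ 5 * ((m + 1) ^ 2 * x ^ 2)) * DD (th m) m 0 ^ 2 := by
  have hN : (0 : ℝ) < m + 1 := by positivity
  have hD0 := DD_zero_nonneg m
  have hD1 := DD_zero_le m
  have hth := th_mul m
  have hθ := th_pos m
  have hA : (m + 1 : ℝ) / 10 * (1 / 80 * ((m + 1) ^ 2 * x ^ 2)) ≤ DD (th m) m 0 - DD (th m) m x := by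
    have := sum_sub_ge hm (fun h => 1 - Real.cos (x * h))
      (fun h _ => by linarith only [Real.cos_le_one (x * h)]) (c := 1 / 80 * ((m + 1) ^ 2 * x ^ 2))
      (by positivity) (fun h a1 a2 => by
        have b1 : |x * h| ≤ Real.pi := by
          rw [abs_mul, abs_of_nonneg (by linarith only [a1] : (0 : ℝ) ≤ h)]
          nlinarith only [h1, hth, a2, abs_nonneg x, Real.pi_pos]
        have b2 := Real.cos_le_one_sub_mul_cos_sq b1
        have b3 : 1 / 5 ≤ 2 / Real.pi ^ 2 := by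
          rw [div_le_div_iff₀ (by norm_num) (by have := Real.pi_pos; positivity)]
          nlinarith only [Real.pi_lt_d2, Real.pi_pos]
        have b4 : (m + 1 : ℝ) ^ 2 ≤ 16 * (h : ℝ) ^ 2 := by nlinarith only [a1]
        have b5 : 1 / 80 * ((m + 1) ^ 2 * x ^ 2) ≤ 1 / 5 * (x * h) ^ 2 := by
          nlinarith only [b4, sq_nonneg x]
        have b6 : 1 / 5 * (x * h) ^ 2 ≤ 2 / Real.pi ^ 2 * (x * h) ^ 2 := by gcongr
        linarith only [b2, b5, b6])
    refine this.trans (le_of_eq ?_)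
    unfold DD
    rw [← Finset.sum_sub_distrib]
    exact Finset.sum_congr rfl fun h _ => by simp; ring
  have hB : (m + 1 : ℝ) / 10 * 1 ≤ DD (th m) m 0 + DD (th m) m x := by
    have := sum_sub_ge hm (fun h => 1 + Real.cos (x * h))
      (fun h _ => by linarith only [Real.neg_one_le_cos (x * h)]) (c := 1)
      (by positivity) (fun h a1 a2 => by
        have b1 : |x * h| ≤ Real.pi / 2 := by
          rw [abs_mul, abs_of_nonneg (by linarith only [a1] : (0 : ℝ) ≤ h)]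
          nlinarith only [h1, hth, a2, abs_nonneg x, Real.pi_pos]
        have := Real.cos_nonneg_of_mem_Icc (abs_le.mp b1)
        linarith only [this])
    refine this.trans (le_of_eq ?_)
    unfold DD
    rw [← Finset.sum_add_distrib]
    exact Finset.sum_congr rfl fun h _ => by simp; ring
  set D0 := DD (th m) m 0
  set D := DD (th m) m x
  set e := (m + 1 : ℝ) ^ 2 * x ^ 2
  have he : 0 ≤ e := by positivity
  have h2 : D0 / 20 * (1 / 80 * e) ≤ D0 - D := 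
    le_trans (mul_le_mul_of_nonneg_right (by linarith only [hD1]) (by positivity)) hA
  have h3 : D0 / 20 ≤ D0 + D := le_trans (by linarith only [hD1]) hB
  have h4 : D0 / 20 * (1 / 80 * e) * (D0 / 20) ≤ (D0 - D) * (D0 + D) :=
    mul_le_mul h2 h3 (by (clear * - hD0; positivity)) (le_trans (by (clear * - hm hD0; positivity)) h2)
  linarith only [h4, mul_nonneg he (sq_nonneg D0)]

lemma DD_bound {m : ℕ} (hm : 100 ≤ m) {x : ℝ} (hx : |x| ≤ Real.pi) :
    DD (th m) m x ^ 2 ≤ (1 - 1 / 10 ^ 5 * min 1 ((m + 1) ^ 2 * x ^ 2)) * DD (th m) m 0 ^ 2 := by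
  rcases le_total |x| (2 * th m) with h | h
  · refine (DD_near hm h).trans ?_
    gcongr
    exact min_le_right _ _
  · have h1 := DD_far hm h hx
    have h2 : DD (th m) m x ^ 2 ≤ (DD (th m) m 0 / 2) ^ 2 := by
      rw [← sq_abs]; gcongr
    have h3 : min 1 ((m + 1 : ℝ) ^ 2 * x ^ 2) ≤ 1 := min_le_left _ _
    nlinarith only [h2, h3, sq_nonneg (DD (th m) m 0)]

lemma ev_phi (m : ℕ) (x : R3) :
    ev x (phi m) = (((NN m)⁻¹ * ∏ i, DD (th m) m (x i) : ℝ) : ℂ) := by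
  rw [ev_eq x (supp_phi m).subset]
  push_cast
  simp only [← sum_exp_eq]
  rw [Finset.prod_univ_sum, Finset.mul_sum]
  refine Finset.sum_congr rfl fun h hh => ?_
  have hh' : h ∈ box m := hh
  rw [coeff_phi, if_pos hh', Finset.prod_mul_distrib, ← Complex.exp_sum, pr]
  push_cast
  rw [Finset.mul_sum, mul_assoc]

lemma phi_far {m : ℕ} (hm : 100 ≤ m) {x : R3} (hx : x ∈ cube) :
    ‖ev x (phi m)‖ ^ 2 ≤ (1 - 1 / (3 * 10 ^ 5) * min 1 ((m + 1) ^ 2 * sq3 x)) * l1 (phi m) ^ 2 := by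
  have h0 : l1 (phi m) = (NN m)⁻¹ * DD (th m) m 0 ^ 3 := by
    have := ev_zero_phi m
    rw [ev_phi] at this
    have := Complex.ofReal_injective this
    rw [← this]
    simp
  have hi : ∀ i, |x i| ≤ Real.pi := fun i => abs_le.mpr ⟨hx.1 i, hx.2 i⟩
  rw [ev_phi, Complex.norm_real, Real.norm_eq_abs, sq_abs, h0, Fin.prod_univ_three, sq3,
    Fin.sum_univ_three]
  have b0 := DD_bound hm (hi 0)
  have b1 := DD_bound hm (hi 1)
  have b2 := DD_bound hm (hi 2)
  set D := DD (th m) m 0 ^ 2 with hD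
  have hD0 : 0 ≤ D := by (clear * -; positivity)
  set t0 := min 1 ((m + 1 : ℝ) ^ 2 * x 0 ^ 2)
  set t1 := min 1 ((m + 1 : ℝ) ^ 2 * x 1 ^ 2)
  set t2 := min 1 ((m + 1 : ℝ) ^ 2 * x 2 ^ 2)
  have ht0 : 0 ≤ t0 := le_min zero_le_one (by (clear * - hm; positivity))
  have ht1 : 0 ≤ t1 := le_min zero_le_one (by (clear * - hm; positivity))
  have ht2 : 0 ≤ t2 := le_min zero_le_one (by (clear * - hm; positivity))
  have ht0' : t0 ≤ 1 := min_le_left _ _
  have ht1' : t1 ≤ 1 := min_le_left _ _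
  have ht2' : t2 ≤ 1 := min_le_left _ _
  have hs : min 1 ((m + 1 : ℝ) ^ 2 * (x 0 ^ 2 + x 1 ^ 2 + x 2 ^ 2)) ≤ t0 + t1 + t2 := by
    rcases min_cases 1 ((m + 1 : ℝ) ^ 2 * x 0 ^ 2) with h0 | h0
    · exact (min_le_left _ _).trans (by linarith only [ht1, ht2, h0.1])
    rcases min_cases 1 ((m + 1 : ℝ) ^ 2 * x 1 ^ 2) with h1 | h1
    · exact (min_le_left _ _).trans (by linarith only [ht0, ht2, h1.1])
    rcases min_cases 1 ((m + 1 : ℝ) ^ 2 * x 2 ^ 2) with h2 | h2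
    · exact (min_le_left _ _).trans (by linarith only [ht0, ht1, h2.1])
    exact (min_le_right _ _).trans (by linarith only [h0.1, h1.1, h2.1])
  set s0 := 1 - 1 / 10 ^ 5 * t0
  set s1 := 1 - 1 / 10 ^ 5 * t1
  set s2 := 1 - 1 / 10 ^ 5 * t2
  have hs0 : 0 ≤ s0 ∧ s0 ≤ 1 := ⟨by simp only [s0]; linarith only [ht0'], by simp only [s0]; linarith only [ht0]⟩
  have hs1 : 0 ≤ s1 ∧ s1 ≤ 1 := ⟨by simp only [s1]; linarith only [ht1'], by simp only [s1]; linarith only [ht1]⟩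
  have hs2 : 0 ≤ s2 ∧ s2 ≤ 1 := ⟨by simp only [s2]; linarith only [ht2'], by simp only [s2]; linarith only [ht2]⟩
  have p0 : s0 * s1 * s2 ≤ s0 := by
    rw [mul_assoc]; exact mul_le_of_le_one_right hs0.1 (mul_le_one₀ hs1.2 hs2.1 hs2.2)
  have p1 : s0 * s1 * s2 ≤ s1 := by
    rw [mul_comm s0, mul_assoc]; exact mul_le_of_le_one_right hs1.1 (mul_le_one₀ hs0.2 hs2.1 hs2.2)
  have p2 : s0 * s1 * s2 ≤ s2 := mul_le_of_le_one_left hs2.1 (mul_le_one₀ hs0.2 hs1.1 hs1.2)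
  have p3 : s0 * s1 * s2 ≤ 1 - 1 / (3 * 10 ^ 5) *
      min 1 ((m + 1 : ℝ) ^ 2 * (x 0 ^ 2 + x 1 ^ 2 + x 2 ^ 2)) := by
    simp only [s0, s1, s2] at p0 p1 p2 ⊢
    linarith only [hs, p0, p1, p2]
  have hp : DD (th m) m (x 0) ^ 2 * DD (th m) m (x 1) ^ 2 * DD (th m) m (x 2) ^ 2 ≤
      (s0 * D) * (s1 * D) * (s2 * D) := by
    have := hs0.1; have := hs1.1
    gcongr
  calc _ = (NN m)⁻¹ ^ 2 * (DD (th m) m (x 0) ^ 2 * DD (th m) m (x 1) ^ 2 * DD (th m) m (x 2) ^ 2) := by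
        ring
    _ ≤ (NN m)⁻¹ ^ 2 * ((s0 * D) * (s1 * D) * (s2 * D)) := by (clear * - hp; gcongr)
    _ = (s0 * s1 * s2) * ((NN m)⁻¹ ^ 2 * D ^ 3) := by ring
    _ ≤ (1 - 1 / (3 * 10 ^ 5) * min 1 ((m + 1 : ℝ) ^ 2 * (x 0 ^ 2 + x 1 ^ 2 + x 2 ^ 2))) *
        ((NN m)⁻¹ ^ 2 * D ^ 3) := by (clear * - p3; gcongr)
    _ = _ := by rw [hD]; ring

end

end Pool.Agent.Work.MP_6bf1e5_an.Dec.Gap1Aux
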