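import Pool.Agent.Work.MP_6bf1e5_an.Dec.Gap2D

/-!
The spectral gap of a driver on a large box.
-/

open Set Complex
open scoped InnerProductSpace ComplexConjugate
open Pool.Agent.Work.MP_6bf1e5_an.B (Z3 R3 box)

namespace Pool.Agent.Work.MP_6bf1e5_an.Dec

lemma th_add_le (n K : ℕ) : th (n + K) ≤ th n := by
  rw [th, th]
  gcongr
  exact Nat.le_add_right n K

lemma th_sub_le {n K : ℕ} {δ : ℝ} (hK : (K : ℝ) ≤ 2 * δ * (n + 1)) :
    th n - th (n + K) ≤ 2 * δ * th n := by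
  have h1 := th_mul n
  have h2 := th_mul (n + K)
  push_cast at h2
  have h3 := th_add_le n K
  have h4 := th_pos (n + K)
  refine le_of_mul_le_mul_right ?_ (by positivity : (0 : ℝ) < n + 1)
  calc (th n - th (n + K)) * (n + 1) = th (n + K) * K := by linarith
    _ ≤ th n * (2 * δ * (n + 1)) := by gcongr; exact (th_pos n).le
    _ = _ := by ring

lemma abs_prod_sub_le {a b : Fin 3 → ℝ} {c : ℝ} (ha : ∀ i, |a i| ≤ 1) (hb : ∀ i, |b i| ≤ 1)
    (h : ∀ i, |a i - b i| ≤ c) : |∏ i, a i - ∏ i, b i| ≤ 3 * c := by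
  have hc : 0 ≤ c := (abs_nonneg _).trans (h 0)
  rw [Fin.prod_univ_three, Fin.prod_univ_three, show a 0 * a 1 * a 2 - b 0 * b 1 * b 2 =
    (a 0 - b 0) * a 1 * a 2 + b 0 * (a 1 - b 1) * a 2 + b 0 * b 1 * (a 2 - b 2) by ring]
  refine (abs_add_three _ _ _).trans ?_
  simp only [abs_mul]
  have t1 : |a 0 - b 0| * |a 1| * |a 2| ≤ c * 1 * 1 := by gcongr <;> apply_assumption
  have t2 : |b 0| * |a 1 - b 1| * |a 2| ≤ 1 * c * 1 := by gcongr <;> apply_assumption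
  have t3 : |b 0| * |b 1| * |a 2 - b 2| ≤ 1 * 1 * c := by gcongr <;> apply_assumption
  linarith

lemma norm_proj_phi_sub {n K : ℕ} {δ : ℝ} (h0 : 0 < δ) (h1 : δ ≤ 1 / 4)
    (hK : (K : ℝ) ≤ 2 * δ * (n + 1)) : ‖proj n (phi (n + K)) - phi n‖ ≤ 48 * δ := by
  have hN := NN_pos n
  have hN' := NN_pos (n + K)
  have a1 : NN n ≤ NN (n + K) := by
    rw [NN, NN]
    gcongr
    exact Nat.le_add_right n K
  have a2 : NN (n + K) ≤ NN n * (1 + 4 * δ) := by
    refine (pow_le_pow_iff_left₀ hN'.le (by positivity) two_ne_zero).mp ?_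
    rw [mul_pow, NN_sq, NN_sq]
    push_cast
    calc ((n : ℝ) + K + 1) ^ 3 ≤ ((n + 1) * (1 + 2 * δ)) ^ 3 := by gcongr; linarith only [hK]
      _ = (n + 1) ^ 3 * (1 + 2 * δ) ^ 3 := mul_pow _ _ _
      _ ≤ _ := by gcongr ?_ * ?_; nlinarith only [h0, h1, sq_nonneg δ]
  have a3 : |(NN (n + K))⁻¹ - (NN n)⁻¹| ≤ (NN n)⁻¹ * (4 * δ) := by
    have b1 : (NN (n + K))⁻¹ ≤ (NN n)⁻¹ := inv_anti₀ hN a1
    have b2 : (NN n)⁻¹ ≤ (NN (n + K))⁻¹ * (1 + 4 * δ) := by
      rw [← div_eq_inv_mul, inv_eq_one_div, div_le_div_iff₀ hN hN']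
      linarith only [a2]
    rw [abs_sub_comm, abs_of_nonneg (by linarith only [b1])]
    nlinarith only [h0, b1, b2]
  have := ((supp_proj n (phi (n + K))).sub (supp_phi n)).norm_le (c := (NN n)⁻¹ * (16 * δ))
    (by positivity) fun h => by
      by_cases hh : h ∈ box n
      · have e : (proj n (phi (n + K)) - phi n).coeff h =
            (((NN (n + K))⁻¹ * ∏ i, Real.cos (th (n + K) * h i) -
              (NN n)⁻¹ * ∏ i, Real.cos (th n * h i) : ℝ) : ℂ) := by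
          simp only [AddMonoidAlgebra.coeff_sub, Finsupp.coe_sub, Pi.sub_apply, coeff_proj,
            coeff_phi, if_pos hh, if_pos (box_mono (Nat.le_add_right n K) hh), Complex.ofReal_sub]
        have c1 := abs_prod_sub_le (a := fun i => Real.cos (th (n + K) * h i))
          (b := fun i => Real.cos (th n * h i)) (c := 4 * δ) (fun _ => Real.abs_cos_le_one _)
          (fun _ => Real.abs_cos_le_one _) fun i => by
            refine (Real.abs_cos_sub_cos_le _ _).trans ?_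
            have d1 : |(h i : ℝ)| ≤ n := by exact_mod_cast mem_box'.mp hh i
            rw [← sub_mul, abs_mul, abs_sub_comm, abs_of_nonneg (sub_nonneg.mpr (th_add_le n K))]
            calc (th n - th (n + K)) * |(h i : ℝ)| ≤ 2 * δ * th n * (n + 1) := by
                  have := th_pos n
                  gcongr
                  · exact th_sub_le hK
                  · linarith only [d1]
              _ = δ * Real.pi := by rw [mul_assoc, th_mul]; ring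
              _ ≤ _ := by nlinarith only [h0, Real.pi_le_four]
        have c2 : |∏ i, Real.cos (th (n + K) * h i)| ≤ 1 := by
          rw [Finset.abs_prod]
          exact Finset.prod_le_one (fun _ _ => abs_nonneg _) fun _ _ => Real.abs_cos_le_one _
        rw [e, Complex.norm_real, Real.norm_eq_abs, show
          (NN (n + K))⁻¹ * ∏ i, Real.cos (th (n + K) * h i) - (NN n)⁻¹ * ∏ i, Real.cos (th n * h i) =
          ((NN (n + K))⁻¹ - (NN n)⁻¹) * ∏ i, Real.cos (th (n + K) * h i) + (NN n)⁻¹ *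
            (∏ i, Real.cos (th (n + K) * h i) - ∏ i, Real.cos (th n * h i)) by ring]
        refine (abs_add_le _ _).trans ?_
        rw [abs_mul, abs_mul, abs_of_pos (inv_pos.mpr hN)]
        calc _ ≤ (NN n)⁻¹ * (4 * δ) * 1 + (NN n)⁻¹ * (3 * (4 * δ)) := by gcongr
          _ = _ := by ring
      · rw [(supp_proj n (phi (n + K))).sub (supp_phi n) h hh, norm_zero]
        positivity
  refine this.trans (le_of_eq ?_)
  field_simp
  ring

lemma inner_phi_sq_le {n K : ℕ} {y : V} (hy : Supp n y) {ε : ℝ}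
    (hε : ‖proj n (phi (n + K)) - phi n‖ ≤ ε) :
    ‖⟪phi (n + K), y⟫_ℂ‖ ^ 2 ≤ ‖⟪phi n, y⟫_ℂ‖ ^ 2 + 2 * ε * ‖y‖ ^ 2 := by
  have h1 : ⟪phi (n + K), y⟫_ℂ = ⟪phi n, y⟫_ℂ + ⟪proj n (phi (n + K)) - phi n, y⟫_ℂ := by
    rw [inner_sub_left, inner_proj_left, hy.proj_eq]; ring
  have h2 : ‖⟪phi (n + K), y⟫_ℂ‖ ≤ ‖⟪phi n, y⟫_ℂ‖ + ε * ‖y‖ := by
    rw [h1]
    refine (norm_add_le _ _).trans ?_
    gcongr
    exact (norm_inner_le_norm _ _).trans (by gcongr)
  have h3 : ∀ k, ‖⟪phi k, y⟫_ℂ‖ ≤ ‖y‖ := fun k => by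
    simpa [norm_phi] using norm_inner_le_norm (𝕜 := ℂ) (phi k) y
  have h4 : 0 ≤ ε * ‖y‖ := mul_nonneg ((norm_nonneg _).trans hε) (norm_nonneg _)
  nlinarith only [h2, h4, h3 n, h3 (n + K), norm_nonneg ⟪phi n, y⟫_ℂ, norm_nonneg ⟪phi (n + K), y⟫_ℂ]

lemma le_psi_high {n K l : ℕ} (hK : 2 ≤ K) (h1 : K * th n ≤ 1 / 100) (hl : 1 ≤ l)
    (hl' : l < 2 * n + 1) : 7 / 2 * th n ^ 2 ≤ psi K (th n * (l + 1)) := by
  have ht := th_pos n
  have hK0 : (0 : ℝ) < K := by exact_mod_cast (by omega : 0 < K)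
  have a1 : (1 : ℝ) ≤ l := by exact_mod_cast hl
  have a2 : (l : ℝ) ≤ 2 * n + 1 := by exact_mod_cast hl'.le
  by_cases hc : K * (th n * (l + 1)) ≤ 1
  · refine le_trans ?_ (le_psi_small (by omega) (by positivity) hc)
    have b1 : (K * (th n * (l + 1))) ^ 2 ≤ 1 := pow_le_one₀ (by positivity) hc
    have b2 : (th n * 2) ^ 2 ≤ (th n * (l + 1)) ^ 2 := by gcongr; linarith only [a1]
    calc 7 / 2 * th n ^ 2 ≤ (th n * 2) ^ 2 * (43 / 48) := by linarith only [sq_nonneg (th n)]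
      _ ≤ _ := by gcongr; linarith only [b1]
  · have b1 := le_psi_large hK (not_le.mp hc).le (by nlinarith only [ht, a2, th_mul n])
    have b2 : (K * th n) ^ 2 ≤ (1 / 100) ^ 2 := by gcongr
    refine le_of_mul_le_mul_right ?_ (by positivity : (0 : ℝ) < K ^ 2)
    linarith only [b1, b2]

lemma lower_form {n K : ℕ} {y : V} (hy : Supp n y) {c : Fin 3 → ℝ} {lam g : ℝ} (hK : 2 ≤ K)
    (h1 : K * th (n + K) ≤ 1 / 100) (hl : lam ≤ psi K (th (n + K))) (hl' : lam ≤ th (n + K) ^ 2)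
    (hc : ∀ i, 0 ≤ c i) (hg : ∀ i, g ≤ 5 / 2 * th (n + K) ^ 2 * c i) :
    lam * (∑ i, c i) * ‖y‖ ^ 2 + g * (‖y‖ ^ 2 - ‖⟪phi (n + K), y⟫_ℂ‖ ^ 2) ≤
      ∑ l ∈ idx (n + K), (∑ i, c i * psi K (th (n + K) * (l i + 1))) *
        ‖⟪sv (n + K) l, y⟫_ℂ‖ ^ 2 := by
  have h0 : (0 : Fin 3 → ℕ) ∈ idx (n + K) := by simp [idx]
  have hlo : ∀ l : ℕ, l < 2 * (n + K) + 1 → lam ≤ psi K (th (n + K) * (l + 1)) := fun l hl2 => by
    rcases Nat.eq_zero_or_pos l with rfl | h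
    · simpa using hl
    · linarith only [hl', le_psi_high hK h1 h hl2, sq_nonneg (th (n + K))]
  have e : ‖⟪phi (n + K), y⟫_ℂ‖ ^ 2 =
      ∑ l ∈ idx (n + K), if l = 0 then ‖⟪sv (n + K) l, y⟫_ℂ‖ ^ 2 else 0 := by
    rw [Finset.sum_ite_eq', if_pos h0, sv_zero]
  rw [e, normsq_eq_sum_sv (hy.mono (Nat.le_add_right n K)), ← Finset.sum_sub_distrib,
    Finset.mul_sum, Finset.mul_sum, Finset.mul_sum, ← Finset.sum_add_distrib]
  refine Finset.sum_le_sum fun l hl2 => ?_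
  have hli : ∀ i, l i < 2 * (n + K) + 1 := fun i =>
    Finset.mem_range.mp (Fintype.mem_piFinset.mp hl2 i)
  have hb : ∀ i, lam * c i ≤ c i * psi K (th (n + K) * (l i + 1)) := fun i => by
    rw [mul_comm]; exact mul_le_mul_of_nonneg_left (hlo _ (hli i)) (hc i)
  split_ifs with h
  · rw [sub_self, mul_zero, add_zero]
    exact mul_le_mul_of_nonneg_right (Finset.sum_le_sum fun i _ => hb i) (sq_nonneg _)
  · rw [sub_zero, ← add_mul]
    refine mul_le_mul_of_nonneg_right ?_ (sq_nonneg _)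
    obtain ⟨i, hi⟩ := Function.ne_iff.mp h
    have b1 := le_psi_high hK h1 (Nat.pos_of_ne_zero hi) (hli i)
    have b2 : lam * c i + g ≤ c i * psi K (th (n + K) * (l i + 1)) := by
      linarith only [hg i, mul_le_mul_of_nonneg_left b1 (hc i), mul_le_mul_of_nonneg_left hl' (hc i)]
    rw [← Finset.add_sum_erase _ _ (Finset.mem_univ i),
      ← Finset.add_sum_erase _ _ (Finset.mem_univ i)]
    linarith only [b2, Finset.sum_le_sum fun j (_ : j ∈ Finset.univ.erase i) => hb j]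

attribute [local irreducible] Hm in
theorem gap_of_drv {m n : ℕ} {p : V} (hp : Drv m p) (hL : (10 : ℝ) ^ 60 * (m + 1) ≤ n + 1) :
    Gap m n (10 ^ 20 * √((m + 1) / (n + 1))) p := by
  have ha : (1 : ℝ) ≤ m + 1 := by linarith [(Nat.cast_nonneg m : (0 : ℝ) ≤ m)]
  have hn : (0 : ℝ) < n + 1 := by positivity
  obtain ⟨δ, hδ⟩ : ∃ δ : ℝ, δ = √((m + 1) / (n + 1)) := ⟨_, rfl⟩
  rw [← hδ]
  have d0 : 0 < δ := by rw [hδ]; positivity
  have d1 : δ ≤ 1 / 10 ^ 30 := by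
    rw [hδ]
    refine Real.sqrt_le_iff.mpr ⟨by positivity, ?_⟩
    rw [div_le_iff₀ hn]
    linarith
  have d2 : δ ^ 2 * (n + 1) = m + 1 := by
    rw [hδ, Real.sq_sqrt (by positivity)]; field_simp
  have d3 : 2 ≤ δ * (n + 1) := by
    refine le_of_mul_le_mul_left ?_ d0
    linarith only [d1, d2]
  obtain ⟨K, k1, k2⟩ : ∃ K : ℕ, δ * (n + 1) ≤ K ∧ (K : ℝ) ≤ 2 * δ * (n + 1) :=
    ⟨⌈δ * (n + 1)⌉₊, Nat.le_ceil _, by
      linarith only [d3, Nat.ceil_lt_add_one (by positivity : 0 ≤ δ * (n + 1))]⟩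
  have hK2 : 2 ≤ K := by exact_mod_cast d3.trans k1
  have hK : (m + 1 : ℝ) ≤ δ * K := by nlinarith only [d0, d2, k1]
  have ht := th_pos n
  have ht' := th_pos (n + K)
  have t1 := th_add_le n K
  have t2 := th_sub_le k2
  have t3 : K * th (n + K) ≤ 4 * δ :=
    calc K * th (n + K) ≤ 2 * δ * (n + 1) * th n := by gcongr
      _ = δ * Real.pi := by linear_combination 2 * δ * th_mul n
      _ ≤ _ := by nlinarith only [d0, Real.pi_le_four]
  have t4 : (m + 1) * th n ≤ 2 * δ ^ 2 :=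
    calc (m + 1) * th n = δ ^ 2 * (Real.pi / 2) := by rw [← d2, ← th_mul n]; ring
      _ ≤ _ := by nlinarith only [Real.pi_le_four, sq_nonneg δ]
  have t5 : th (n + K) ^ 2 ≤ th n ^ 2 := by gcongr
  have t6 : th n ^ 2 * (1 - 4 * δ) ≤ th (n + K) ^ 2 :=
    calc th n ^ 2 * (1 - 4 * δ) ≤ (th n * (1 - 2 * δ)) ^ 2 := by linarith only [sq_nonneg (th n * δ)]
      _ ≤ _ := by gcongr <;> nlinarith only [d1, ht, t2]
  have dd : δ ^ 2 ≤ δ / 10 := by nlinarith only [d1, hK]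
  have m0 : 0 < mu m n := by rw [mu]; positivity
  have hmu : mu m n = th n ^ 2 * (m + 1) ^ 2 := by rw [mu]; ring
  have s1 : 27 / 10 ^ 7 * mu m n ≤ th n ^ 2 * ∑ i, Hm m p i := by
    rw [hmu, mul_left_comm, Fin.sum_univ_three]
    gcongr
    linarith only [hp.le_Hm 0, hp.le_Hm 1, hp.le_Hm 2]
  have s2 : th n ^ 2 * ∑ i, Hm m p i ≤ 24 * mu m n := by
    rw [hmu, mul_left_comm, Fin.sum_univ_three]
    gcongr
    linarith only [hp.Hm_le 0, hp.Hm_le 1, hp.Hm_le 2]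
  have hH : ∀ i, 0 ≤ Hm m p i := fun i => le_trans (by positivity) (hp.le_Hm i)
  have s0 : 0 ≤ ∑ i, Hm m p i := Finset.sum_nonneg fun i _ => hH i
  have e0 : 1 / 2 ≤ 1 - 3 * 10 ^ 12 * δ := by linarith only [d1]
  obtain ⟨Λ, hΛ⟩ : ∃ Λ : ℝ, Λ = th (n + K) ^ 2 * (1 - 2 * δ ^ 2) *
    ∑ i, (1 - 3 * 10 ^ 12 * δ) * Hm m p i := ⟨_, rfl⟩
  have l1 : Λ ≤ th n ^ 2 * ∑ i, Hm m p i := by
    rw [hΛ, ← Finset.mul_sum]
    calc _ ≤ th n ^ 2 * 1 * (1 * ∑ i, Hm m p i) := by gcongr <;> nlinarith only [dd, d0]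
      _ = _ := by ring
  have l2 : (1 - 4 * 10 ^ 12 * δ) * (th n ^ 2 * ∑ i, Hm m p i) ≤ Λ := by
    rw [hΛ, ← Finset.mul_sum]
    calc _ ≤ (1 - 4 * δ) * (1 - δ) * (1 - 3 * 10 ^ 12 * δ) * (th n ^ 2 * ∑ i, Hm m p i) := by
          gcongr; nlinarith only [dd, mul_pos d0 d0]
      _ = th n ^ 2 * (1 - 4 * δ) * (1 - δ) * ((1 - 3 * 10 ^ 12 * δ) * ∑ i, Hm m p i) := by ring
      _ ≤ _ := by gcongr <;> linarith only [d1, d0, dd]
  have dm : δ * mu m n ≤ 1 / 10 ^ 30 * mu m n := by gcongr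
  have dm0 : 0 < δ * mu m n := by positivity
  have ds : δ * (th n ^ 2 * ∑ i, Hm m p i) ≤ δ * (24 * mu m n) := by gcongr
  refine ⟨Λ - 96 * δ * (1 / 10 ^ 6 * mu m n), by linarith only [s1, l2, dm, dm0, ds], by linarith only [s2, l1, dm, dm0], ?_, fun y hy => ?_⟩
  · have q1 := hp.Qf_phi_le (n := n) (by linarith only [d1, t4, dd])
    have q2 : ((m + 1) * th n) ^ 3 ≤ δ * mu m n := by
      rw [mu, pow_succ']; gcongr; linarith only [d0, t4, dd]
    linarith only [l2, dm0, ds, q1, q2]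
  · have q1 := hp.le_Qf d0 d1 hK y
    rw [sum_sh_eq hy] at q1
    have q2 := lower_form hy (c := fun i => (1 - 3 * 10 ^ 12 * δ) * Hm m p i)
      (lam := th (n + K) ^ 2 * (1 - 2 * δ ^ 2)) (g := 1 / 10 ^ 6 * mu m n) hK2 (by linarith only [d1, t3])
      (by
        refine le_trans ?_ (le_psi_small (by omega) ht'.le (by linarith only [d1, t3]))
        have : (K * th (n + K)) ^ 2 ≤ (4 * δ) ^ 2 := by gcongr
        gcongr ?_ * ?_
        nlinarith only [this])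
      (by linarith only [sq_nonneg (th (n + K) * δ)]) (fun i => mul_nonneg (by linarith only [d1]) (hH i))
      fun i => by
        calc 1 / 10 ^ 6 * mu m n
            ≤ 5 / 2 * (th n ^ 2 * (99 / 100)) * (99 / 100 * (9 / 10 ^ 7 * (m + 1) ^ 2)) := by
              rw [hmu] at m0 ⊢; linarith only [m0]
          _ ≤ _ := by
              gcongr
              · nlinarith only [d1, t6, sq_nonneg (th n)]
              · linarith only [d1]
              · exact hp.le_Hm i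
    rw [← hΛ] at q2
    have q3 := inner_phi_sq_le hy (norm_proj_phi_sub d0 (by linarith only [d1]) k2)
    have q4 := mul_le_mul_of_nonneg_left q3 m0.le
    refine le_trans ?_ (q2.trans q1)
    linarith only [q4]

end Pool.Agent.Work.MP_6bf1e5_an.Dec
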