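import Pool.Agent.Work.MP_6bf1e5_an.Dec.Phi

/-!
Second moments of the kernel `dag p * p` and the Taylor expansion of its symbol.
-/

open Set Complex
open scoped InnerProductSpace ComplexConjugate
open Pool.Agent.Work.MP_6bf1e5_an.B (Z3 R3 box)

namespace Pool.Agent.Work.MP_6bf1e5_an.Dec

noncomputable section

/-- Change of sign of the first and the last coordinate. -/
def g1E : Z3 ≃+ Z3 where
  toFun h := ![-h 0, h 1, -h 2]
  invFun h := ![-h 0, h 1, -h 2]
  left_inv h := by ext i; fin_cases i <;> simp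
  right_inv h := by ext i; fin_cases i <;> simp
  map_add' a b := by ext i; fin_cases i <;> simp [add_comm]

/-- Change of sign of the first two coordinates. -/
def g2E : Z3 ≃+ Z3 where
  toFun h := ![-h 0, -h 1, h 2]
  invFun h := ![-h 0, -h 1, h 2]
  left_inv h := by ext i; fin_cases i <;> simp
  right_inv h := by ext i; fin_cases i <;> simp
  map_add' a b := by ext i; fin_cases i <;> simp [add_comm]

lemma g1E_apply (h : Z3) : g1E h = ![-h 0, h 1, -h 2] := rfl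
lemma g2E_apply (h : Z3) : g2E h = ![-h 0, -h 1, h 2] := rfl

lemma g1E_mem_box {n : ℕ} {h : Z3} : g1E h ∈ box n ↔ h ∈ box n := by
  simp [mem_box', g1E_apply, Fin.forall_fin_succ]

lemma g2E_mem_box {n : ℕ} {h : Z3} : g2E h ∈ box n ↔ h ∈ box n := by
  simp [mem_box', g2E_apply, Fin.forall_fin_succ]

lemma prm_dag (e : Z3 ≃+ Z3) (f : V) : prm e (dag f) = dag (prm e f) := by ext h; simp

/-- The kernel of the quadratic form. -/
def kq (p : V) : V := dag p * p

lemma Drv.kq_g1 {m : ℕ} {p : V} (hp : Drv m p) (h : Z3) : (kq p).coeff (g1E h) = (kq p).coeff h := by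
  have h1 : prm g1E p = p := by ext k; rw [coeff_prm]; exact hp.sy1 k
  rw [← coeff_prm, kq, map_mul, prm_dag, h1]

lemma Drv.kq_g2 {m : ℕ} {p : V} (hp : Drv m p) (h : Z3) : (kq p).coeff (g2E h) = (kq p).coeff h := by
  have h1 : prm g2E p = dag p := by
    ext k
    rw [coeff_prm, coeff_dag, ← hp.sy2]
    congr 1
    ext i; fin_cases i <;> simp [g2E_apply, mzE_apply]
  rw [← coeff_prm, kq, map_mul, prm_dag, h1, dag_dag, mul_comm]

lemma Drv.kq_supp {m : ℕ} {p : V} (hp : Drv m p) : Supp (m + m) (kq p) := hp.supp.dag.mul hp.supp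

lemma Drv.kq_l1 {m : ℕ} {p : V} (hp : Drv m p) : l1 (kq p) ≤ 4 := by
  refine (l1_mul_le _ _).trans ?_
  rw [l1_dag]
  nlinarith [hp.l1_le, l1_nonneg p]

lemma ev_kq (p : V) (x : R3) : ev x (kq p) = ((‖ev x p‖ ^ 2 : ℝ) : ℂ) := by
  rw [kq, map_mul, ev_dag, Complex.conj_mul']; norm_cast

lemma Drv.kq_sum {m : ℕ} {p : V} (hp : Drv m p) : ∑ k ∈ box (m + m), (kq p).coeff k = 1 := by
  rw [← ev_zero_eq hp.kq_supp.subset, ev_kq, hp.one]; simp

lemma sum_odd_eq_zero {n : ℕ} {q : V} (e : Z3 ≃+ Z3) (he : ∀ h, e h ∈ box n ↔ h ∈ box n)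
    (hq : ∀ h, q.coeff (e h) = q.coeff h) {g : Z3 → ℂ} (hg : ∀ h, g (e h) = -g h) :
    ∑ k ∈ box n, q.coeff k * g k = 0 := by
  have : ∑ k ∈ box n, q.coeff k * g k = ∑ k ∈ box n, -(q.coeff k * g k) := by
    refine (Finset.sum_equiv e.toEquiv (fun h => (he h).symm) fun h _ => ?_).symm
    change _ = q.coeff (e h) * g (e h)
    rw [hq, hg]; ring
  rw [Finset.sum_neg_distrib] at this
  linear_combination this / 2

/-- The second moments. -/
def Hm (m : ℕ) (p : V) (i : Fin 3) : ℝ :=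
  ∑ k ∈ box (m + m), ((kq p).coeff k).re * ((k i : ℝ) ^ 2 / 2)

lemma abs_re_sum_le {m : ℕ} {p : V} (hp : Drv m p) {g : Z3 → ℂ} {c : ℝ} (hc : 0 ≤ c)
    (hg : ∀ k ∈ box (m + m), ‖g k‖ ≤ c) :
    |(∑ k ∈ box (m + m), (kq p).coeff k * g k).re| ≤ 4 * c := by
  refine (Complex.abs_re_le_norm _).trans ((norm_sum_le _ _).trans ?_)
  calc ∑ k ∈ box (m + m), ‖(kq p).coeff k * g k‖
      ≤ ∑ k ∈ box (m + m), ‖(kq p).coeff k‖ * c := Finset.sum_le_sum fun k hk => by
        rw [norm_mul]; gcongr; exact hg k hk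
    _ = l1 (kq p) * c := by rw [← Finset.sum_mul, l1_eq hp.kq_supp.subset]
    _ ≤ 4 * c := by gcongr; exact hp.kq_l1

lemma re_sum_mom (m : ℕ) (p : V) (w : Fin 3 → ℝ) :
    (∑ k ∈ box (m + m), (kq p).coeff k * ((∑ i, w i * ((k i : ℝ) ^ 2 / 2) : ℝ) : ℂ)).re =
      ∑ i, Hm m p i * w i := by
  simp only [Hm, Finset.sum_mul]
  rw [Finset.sum_comm, Complex.re_sum]
  refine Finset.sum_congr rfl fun k _ => ?_
  rw [Complex.re_mul_ofReal, Finset.mul_sum]
  exact Finset.sum_congr rfl fun i _ => by ring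

lemma Drv.Hm_le {m : ℕ} {p : V} (hp : Drv m p) (i : Fin 3) : Hm m p i ≤ 8 * (m + 1 : ℝ) ^ 2 := by
  have h1 := abs_re_sum_le hp (g := fun k => (((k i : ℝ) ^ 2 / 2 : ℝ) : ℂ))
    (c := 2 * (m + 1 : ℝ) ^ 2) (by positivity) fun k hk => by
      rw [Complex.norm_real, Real.norm_of_nonneg (by positivity)]
      have h2 : |(k i : ℝ)| ≤ (m + m : ℕ) := by exact_mod_cast mem_box'.mp hk i
      push_cast at h2
      have h3 : (k i : ℝ) ^ 2 ≤ (m + m) ^ 2 := by
        rw [← sq_abs]; gcongr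
      linarith [(Nat.cast_nonneg m : (0 : ℝ) ≤ m)]
  have h2 : (∑ k ∈ box (m + m), (kq p).coeff k * (((k i : ℝ) ^ 2 / 2 : ℝ) : ℂ)).re = Hm m p i := by
    rw [Complex.re_sum, Hm]
    exact Finset.sum_congr rfl fun k _ => Complex.re_mul_ofReal _ _
  rw [h2] at h1
  linarith only [h1, le_abs_self (Hm m p i)]

lemma exp_taylor {u : ℝ} (hu : |u| ≤ 1) :
    ‖Complex.exp (I * u) - (1 + I * u - u ^ 2 / 2)‖ ≤ |u| ^ 3 / 4 := by
  have h := Complex.exp_bound (x := I * u) (by simpa using hu) (n := 3) (by norm_num)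
  have e : ∑ m ∈ Finset.range 3, (I * u) ^ m / (m.factorial : ℂ) = 1 + I * u - u ^ 2 / 2 := by
    simp [Finset.sum_range_succ, Nat.factorial, mul_pow]; ring
  rw [e] at h
  refine h.trans ?_
  simp only [norm_mul, Complex.norm_I, Complex.norm_real, Real.norm_eq_abs, one_mul]
  have : (0 : ℝ) ≤ |u| ^ 3 := by positivity
  norm_num [Nat.factorial]
  linarith only [this]

/-- Taylor expansion of the symbol. -/
theorem Drv.taylor {m : ℕ} {p : V} (hp : Drv m p) {x : R3}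
    (hx : 2 * ((m + 1) * ∑ i, |x i|) ≤ 1) :
    |1 - ‖ev x p‖ ^ 2 - ∑ i, Hm m p i * x i ^ 2| ≤ 8 * ((m + 1) * ∑ i, |x i|) ^ 3 := by
  have hs : 0 ≤ ∑ i, |x i| := Finset.sum_nonneg fun _ _ => abs_nonneg _
  have hu : ∀ k ∈ box (m + m), |pr k x| ≤ 2 * ((m + 1) * ∑ i, |x i|) := fun k hk => by
    refine (abs_pr_le hk x).trans ?_
    push_cast
    linarith
  have h1 := abs_re_sum_le hp
    (g := fun k => Complex.exp (I * pr k x) - (1 + I * pr k x - (pr k x : ℂ) ^ 2 / 2))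
    (c := 2 * ((m + 1) * ∑ i, |x i|) ^ 3) (by positivity) fun k hk => by
      refine (exp_taylor ((hu k hk).trans hx)).trans ?_
      calc |pr k x| ^ 3 / 4 ≤ (2 * ((m + 1) * ∑ i, |x i|)) ^ 3 / 4 := by
            gcongr; exact hu k hk
        _ = _ := by ring
  have z1 := sum_odd_eq_zero (n := m + m) g1E (fun _ => g1E_mem_box) hp.kq_g1
    (g := fun k => I * (k 0 * x 0 + k 2 * x 2) - k 0 * k 1 * x 0 * x 1 - k 1 * k 2 * x 1 * x 2)
    fun h => by simp [g1E_apply]; ring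
  have z2 := sum_odd_eq_zero (n := m + m) g2E (fun _ => g2E_mem_box) hp.kq_g2
    (g := fun k => I * (k 1 * x 1) - k 0 * k 2 * x 0 * x 2)
    fun h => by simp [g2E_apply]; ring
  have key : ∑ k ∈ box (m + m), (kq p).coeff k *
      (Complex.exp (I * pr k x) - (1 + I * pr k x - (pr k x : ℂ) ^ 2 / 2)) =
      ev x (kq p) - ∑ k ∈ box (m + m), (kq p).coeff k + ∑ k ∈ box (m + m), (kq p).coeff k *
        ((∑ i, x i ^ 2 * ((k i : ℝ) ^ 2 / 2) : ℝ) : ℂ) := by
    rw [ev_eq x hp.kq_supp.subset, ← Finset.sum_sub_distrib, ← Finset.sum_add_distrib]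
    have aux : ∀ A B C D : ℂ, C = 0 → D = 0 → A = B - C - D → A = B := by
      intro A B C D h1 h2 h3; rw [h3, h1, h2]; ring
    refine aux _ _ _ _ z1 z2 ?_
    rw [← Finset.sum_sub_distrib, ← Finset.sum_sub_distrib]
    refine Finset.sum_congr rfl fun k _ => ?_
    simp only [pr, Fin.sum_univ_three]
    push_cast
    ring
  rw [key, hp.kq_sum, Complex.add_re, re_sum_mom, ev_kq, Complex.sub_re, Complex.ofReal_re,
    Complex.one_re] at h1
  rw [← abs_neg]
  refine le_trans (le_of_eq ?_) (h1.trans (le_of_eq (by ring)))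
  congr 1
  ring

lemma Drv.le_Hm {m : ℕ} {p : V} (hp : Drv m p) (i : Fin 3) :
    9 / 10 ^ 7 * (m + 1 : ℝ) ^ 2 ≤ Hm m p i := by
  have ha : (1 : ℝ) ≤ m + 1 := by linarith [(Nat.cast_nonneg m : (0 : ℝ) ≤ m)]
  obtain ⟨t, ht⟩ : ∃ t : ℝ, t = 1 / 10 ^ 8 / (m + 1) := ⟨_, rfl⟩
  have ht0 : 0 < t := by rw [ht]; positivity
  have hat : (m + 1) * t = 1 / 10 ^ 8 := by rw [ht]; field_simp
  have ht1 : t ≤ 1 := by nlinarith only [hat]
  have hs : ∑ j, |(Pi.single i t : R3) j| = t := by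
    rw [Finset.sum_eq_single i (fun j _ hj => by simp [hj]) (by simp)]
    simp [abs_of_pos ht0]
  have hq : sq3 (Pi.single i t) = t ^ 2 := by
    rw [sq3, Finset.sum_eq_single i (fun j _ hj => by simp [hj]) (by simp)]
    simp
  have hH : ∑ j, Hm m p j * (Pi.single i t : R3) j ^ 2 = Hm m p i * t ^ 2 := by
    rw [Finset.sum_eq_single i (fun j _ hj => by simp [hj]) (by simp)]
    simp
  have hc : (Pi.single i t : R3) ∈ cube := by
    constructor <;> intro j <;> by_cases hj : j = i <;> simp [hj] <;>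
      linarith only [ht0, ht1, Real.pi_gt_three]
  have h1 := hp.taylor (x := Pi.single i t) (by rw [hs, hat]; norm_num)
  have h2 := hp.far _ hc
  rw [hq, ← mul_pow, hat, min_eq_right (by norm_num)] at h2
  rw [hs, hat, hH] at h1
  have h3 : 9 / 10 ^ 7 * ((m + 1) * t) ^ 2 ≤ Hm m p i * t ^ 2 := by
    rw [hat]
    have := (abs_le.mp h1).2
    norm_num at this h2 ⊢
    linarith only [this, h2]
  rw [mul_pow, ← mul_assoc] at h3
  exact le_of_mul_le_mul_right h3 (by positivity)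

end

end Pool.Agent.Work.MP_6bf1e5_an.Dec
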