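import Pool.Agent.Work.MP_6bf1e5_an.Dec.Gap2A

/-!
The loss at the ground state.
-/

open Set Complex
open scoped InnerProductSpace ComplexConjugate
open Pool.Agent.Work.MP_6bf1e5_an.B (Z3 R3 box)

namespace Pool.Agent.Work.MP_6bf1e5_an.Dec

noncomputable section

/-- The one-dimensional overlap of the ground state with its shift. -/
def c1 (n : ℕ) (k : ℤ) : ℝ := (n + 1 : ℝ)⁻¹ * ∑ h ∈ Finset.Icc (-(n : ℤ)) n,
  Real.cos (th n * h) * if |h - k| ≤ n then Real.cos (th n * (h - k : ℤ)) else 0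

lemma abs_cos_th_le (n : ℕ) (h : ℤ) : |Real.cos (th n * h)| ≤ th n * |(|(h : ℝ)| - (n + 1))| := by
  have h1 : Real.cos (th n * h) = Real.cos (th n * |(h : ℝ)|) := by
    rw [← Real.cos_abs, abs_mul, abs_of_pos (th_pos n)]
  have h2 := Real.abs_cos_sub_cos_le (th n * |(h : ℝ)|) (Real.pi / 2)
  rw [Real.cos_pi_div_two, sub_zero, ← th_mul n, ← mul_sub, abs_mul, abs_of_pos (th_pos n)] at h2
  rw [h1]; exact h2

lemma sum_cos_sin (n : ℕ) (t : ℝ) :
    ∑ h ∈ Finset.Icc (-(n : ℤ)) n, Real.cos (t * h) * Real.sin (t * h) = 0 := by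
  have : ∑ h ∈ Finset.Icc (-(n : ℤ)) n, Real.cos (t * h) * Real.sin (t * h) =
      ∑ h ∈ Finset.Icc (-(n : ℤ)) n, -(Real.cos (t * h) * Real.sin (t * h)) := by
    refine Finset.sum_equiv (Equiv.neg ℤ) (fun h => by simp; omega) fun h _ => ?_
    simp
  rw [Finset.sum_neg_distrib] at this
  linarith

lemma sum_cos_cos (n : ℕ) (k : ℤ) : ∑ h ∈ Finset.Icc (-(n : ℤ)) n,
    Real.cos (th n * h) * Real.cos (th n * (h - k : ℤ)) = (n + 1) * Real.cos (th n * k) := by
  have : ∀ h : ℤ, Real.cos (th n * h) * Real.cos (th n * (h - k : ℤ)) =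
      Real.cos (th n * h) ^ 2 * Real.cos (th n * k) +
        Real.cos (th n * h) * Real.sin (th n * h) * Real.sin (th n * k) := fun h => by
    push_cast
    rw [mul_sub, Real.cos_sub]; ring
  simp only [this, Finset.sum_add_distrib, ← Finset.sum_mul, sum_cos_sq, sum_cos_sin]
  ring

lemma abs_c1_sub (n : ℕ) (k : ℤ) : |c1 n k - Real.cos (th n * k)| ≤ 2 * (th n * |(k : ℝ)|) ^ 3 := by
  classical
  have hn : (0 : ℝ) < n + 1 := by positivity
  have ht := th_pos n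
  have e : c1 n k - Real.cos (th n * k) = -((n + 1 : ℝ)⁻¹ *
      ∑ h ∈ (Finset.Icc (-(n : ℤ)) n).filter (fun h => ¬|h - k| ≤ n),
        Real.cos (th n * h) * Real.cos (th n * (h - k : ℤ))) := by
    have h1 := sum_cos_cos n k
    rw [← Finset.sum_filter_add_sum_filter_not _ (fun h => |h - k| ≤ n)] at h1
    have h2 : ∑ h ∈ Finset.Icc (-(n : ℤ)) n, Real.cos (th n * h) *
        (if |h - k| ≤ n then Real.cos (th n * (h - k : ℤ)) else 0) =
        ∑ h ∈ (Finset.Icc (-(n : ℤ)) n).filter (fun h => |h - k| ≤ n),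
          Real.cos (th n * h) * Real.cos (th n * (h - k : ℤ)) := by
      rw [Finset.sum_filter]
      exact Finset.sum_congr rfl fun h _ => by split_ifs <;> simp
    rw [c1, h2]
    field_simp
    linarith
  have hcard : (((Finset.Icc (-(n : ℤ)) n).filter (fun h => ¬|h - k| ≤ n)).card : ℝ) ≤
      2 * |(k : ℝ)| := by
    have h1 : (Finset.Icc (-(n : ℤ)) n).filter (fun h => ¬|h - k| ≤ n) ⊆
        Finset.Ico (-(n : ℤ)) (-n + |k|) ∪ Finset.Ioc (n - |k|) n := fun h hh => by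
      simp only [Finset.mem_filter, Finset.mem_Icc, Finset.mem_union, Finset.mem_Ico,
        Finset.mem_Ioc, not_le, lt_abs] at hh ⊢
      have := le_abs_self k
      have := neg_abs_le k
      omega
    have h2 := (Finset.card_le_card h1).trans (Finset.card_union_le _ _)
    rw [Int.card_Ico, Int.card_Ioc] at h2
    have h3 : ((((Finset.Icc (-(n : ℤ)) n).filter (fun h => ¬|h - k| ≤ n)).card : ℕ) : ℤ) ≤
        2 * |k| := by
      have := abs_nonneg k
      omega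
    exact_mod_cast h3
  have hterm : ∀ h ∈ (Finset.Icc (-(n : ℤ)) n).filter (fun h => ¬|h - k| ≤ n),
      |Real.cos (th n * h) * Real.cos (th n * (h - k : ℤ))| ≤ (th n * |(k : ℝ)|) ^ 2 := by
    intro h hh
    simp only [Finset.mem_filter, Finset.mem_Icc, not_le] at hh
    have a1 : |h| ≤ n := abs_le.mpr hh.1
    have a2 : |h - k| ≤ |h| + |k| := abs_sub _ _
    have b1 : |(|h| - (n + 1))| ≤ |k| := abs_le.mpr ⟨by omega, by have := abs_nonneg k; omega⟩
    have b2 : |(|h - k| - (n + 1))| ≤ |k| := abs_le.mpr ⟨by have := abs_nonneg k; omega, by omega⟩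
    have c1 : |(|(h : ℝ)| - (n + 1))| ≤ |(k : ℝ)| := by exact_mod_cast b1
    have c2 : |(|((h - k : ℤ) : ℝ)| - (n + 1))| ≤ |(k : ℝ)| := by exact_mod_cast b2
    rw [abs_mul, sq]
    exact mul_le_mul ((abs_cos_th_le n h).trans (by gcongr))
      ((abs_cos_th_le n _).trans (by gcongr)) (abs_nonneg _) (by positivity)
  have hinv : (n + 1 : ℝ)⁻¹ ≤ th n := by
    rw [inv_le_iff_one_le_mul₀ hn, th_mul]
    linarith only [Real.pi_gt_three]
  rw [e, abs_neg, abs_mul, abs_of_pos (inv_pos.mpr hn)]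
  calc (n + 1 : ℝ)⁻¹ * |∑ h ∈ (Finset.Icc (-(n : ℤ)) n).filter (fun h => ¬|h - k| ≤ n),
        Real.cos (th n * h) * Real.cos (th n * (h - k : ℤ))|
      ≤ th n * (2 * |(k : ℝ)| * (th n * |(k : ℝ)|) ^ 2) := by
        gcongr
        refine (Finset.abs_sum_le_sum_abs _ _).trans ((Finset.sum_le_sum hterm).trans ?_)
        rw [Finset.sum_const, nsmul_eq_mul]
        gcongr
    _ = _ := by ring

lemma abs_c1_taylor {n : ℕ} {k : ℤ} {d : ℝ} (hd : d ≤ 1) (hk : th n * |(k : ℝ)| ≤ d) :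
    |1 - c1 n k - th n ^ 2 * ((k : ℝ) ^ 2 / 2)| ≤ 3 * d ^ 3 := by
  have ht := th_pos n
  have h0 : 0 ≤ th n * |(k : ℝ)| := by positivity
  have e : |th n * k| = th n * |(k : ℝ)| := by rw [abs_mul, abs_of_pos ht]
  have h1 := abs_c1_sub n k
  have h2 := Real.cos_bound (x := th n * k) (by rw [e]; linarith)
  rw [e] at h2
  have h3 : (th n * |(k : ℝ)|) ^ 3 ≤ d ^ 3 := by gcongr
  have h4 : (th n * |(k : ℝ)|) ^ 4 ≤ d ^ 3 :=
    (pow_le_pow_of_le_one h0 (hk.trans hd) (by norm_num : 3 ≤ 4)).trans h3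
  have h5 : 0 ≤ d ^ 3 := le_trans (by positivity) h3
  rw [abs_le] at h1 h2 ⊢
  constructor <;> linarith only [h3, h4, h1.1, h1.2, h2.1, h2.2]

lemma inner_phi_shift (n : ℕ) (k : Z3) :
    ⟪phi n, AddMonoidAlgebra.single k 1 * phi n⟫_ℂ = ((∏ i, c1 n (k i) : ℝ) : ℂ) := by
  rw [inner_eq _ (supp_phi n).subset]
  simp only [c1]
  rw [Finset.prod_mul_distrib, Finset.prod_univ_sum, Finset.mul_sum, Complex.ofReal_sum]
  refine Finset.sum_congr rfl fun h (hh : h ∈ box n) => ?_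
  rw [coeff_single_mul, one_mul, coeff_phi, if_pos hh, coeff_phi, Complex.conj_ofReal]
  have hN : ((NN n)⁻¹ : ℝ) * (NN n)⁻¹ = ((n + 1 : ℝ)⁻¹) ^ 3 := by
    rw [← mul_inv, ← sq, NN_sq, inv_pow]
  by_cases hk : h - k ∈ box n
  · rw [if_pos hk]
    have : ∀ i, |h i - k i| ≤ n := mem_box'.mp hk
    simp only [this, if_true, Finset.prod_const, Finset.card_univ, Fintype.card_fin, Pi.sub_apply,
      Finset.prod_mul_distrib]
    rw [← Complex.ofReal_mul, ← hN]
    congr 1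
    ring
  · rw [if_neg hk, mul_zero]
    rw [mem_box', not_forall] at hk
    obtain ⟨i, hi⟩ := hk
    have hi' : ¬|h i - k i| ≤ n := hi
    symm
    rw [Complex.ofReal_eq_zero]
    exact mul_eq_zero_of_right _
      (Finset.prod_eq_zero (Finset.mem_univ i) (by rw [if_neg hi', mul_zero]))

lemma prod_taylor {u w : Fin 3 → ℝ} {d : ℝ} (h0 : 0 ≤ d) (hd : d ≤ 1 / 6)
    (hw : ∀ i, 0 ≤ w i ∧ w i ≤ d ^ 2 / 2) (hu : ∀ i, |1 - u i - w i| ≤ 3 * d ^ 3) :
    |1 - ∏ i, u i - ∑ i, w i| ≤ 13 * d ^ 3 := by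
  have h3 : 3 * d ^ 3 ≤ d ^ 2 / 2 := by nlinarith only [hd, sq_nonneg d]
  have hv : ∀ i, |1 - u i| ≤ d ^ 2 := fun i => by
    have := abs_le.mp (hu i)
    have := hw i
    rw [abs_le]; constructor <;> linarith
  have hvv : ∀ i j, |(1 - u i) * (1 - u j)| ≤ d ^ 3 := fun i j => by
    rw [abs_mul]
    calc |1 - u i| * |1 - u j| ≤ d ^ 2 * d ^ 2 := by gcongr <;> exact hv _
      _ = d ^ 3 * d := by ring
      _ ≤ d ^ 3 * 1 := by gcongr; linarith only [hd]
      _ = _ := mul_one _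
  have hvvv : |(1 - u 0) * (1 - u 1) * (1 - u 2)| ≤ d ^ 3 := by
    rw [abs_mul]
    calc |(1 - u 0) * (1 - u 1)| * |1 - u 2| ≤ d ^ 3 * d ^ 2 := by gcongr; exacts [hvv _ _, hv _]
      _ ≤ d ^ 3 * 1 := by gcongr; nlinarith only [h0, hd]
      _ = _ := mul_one _
  have a0 := abs_le.mp (hu 0)
  have a1 := abs_le.mp (hu 1)
  have a2 := abs_le.mp (hu 2)
  have b0 := abs_le.mp (hvv 0 1)
  have b1 := abs_le.mp (hvv 0 2)
  have b2 := abs_le.mp (hvv 1 2)
  have b3 := abs_le.mp hvvv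
  rw [Fin.prod_univ_three, Fin.sum_univ_three, abs_le]
  constructor <;> linarith only [a0, a1, a2, b0, b1, b2, b3]

lemma Qf_eq (p y : V) : Qf p y = ‖y‖ ^ 2 - (⟪y, kq p * y⟫_ℂ).re := by
  rw [Qf, @norm_sq_eq_re_inner ℂ _ _ _ _ (p * y), inner_mul_left, ← mul_assoc]; rfl

lemma mul_eq_sum' {p : V} {s : Finset Z3} (hs : p.coeff.support ⊆ s) (f : V) :
    p * f = ∑ k ∈ s, p.coeff k • (AddMonoidAlgebra.single k 1 * f) := by
  rw [mul_eq_sum]
  exact Finset.sum_subset hs fun k _ hk => by simp [Finsupp.notMem_support_iff.mp hk]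

/-- The loss at the ground state. -/
theorem Drv.Qf_phi_le {m n : ℕ} {p : V} (hp : Drv m p) (hL : (m + 1) * th n ≤ 1 / 12) :
    Qf p (phi n) ≤ th n ^ 2 * ∑ i, Hm m p i + 416 * ((m + 1) * th n) ^ 3 := by
  have ht := th_pos n
  have h1 := abs_re_sum_le hp
    (g := fun k => ((1 - ∏ i, c1 n (k i) - ∑ i, th n ^ 2 * ((k i : ℝ) ^ 2 / 2) : ℝ) : ℂ))
    (c := 13 * (2 * ((m + 1) * th n)) ^ 3) (by positivity) fun k hk => by
      rw [Complex.norm_real, Real.norm_eq_abs]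
      have hk' : ∀ i, th n * |(k i : ℝ)| ≤ 2 * ((m + 1) * th n) := fun i => by
        have h2 : |(k i : ℝ)| ≤ (m + m : ℕ) := by exact_mod_cast mem_box'.mp hk i
        push_cast at h2
        nlinarith only [ht, h2]
      refine prod_taylor (by positivity) (by linarith) (fun i => ⟨by positivity, ?_⟩)
        fun i => abs_c1_taylor (by linarith) (hk' i)
      have : (th n * |(k i : ℝ)|) ^ 2 ≤ (2 * ((m + 1) * th n)) ^ 2 :=
        pow_le_pow_left₀ (by positivity) (hk' i) 2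
      rw [mul_pow, sq_abs] at this
      linarith
  have key : ∑ k ∈ box (m + m), (kq p).coeff k *
      ((1 - ∏ i, c1 n (k i) - ∑ i, th n ^ 2 * ((k i : ℝ) ^ 2 / 2) : ℝ) : ℂ) =
      ∑ k ∈ box (m + m), (kq p).coeff k - ⟪phi n, kq p * phi n⟫_ℂ -
        ∑ k ∈ box (m + m), (kq p).coeff k *
          ((∑ i, th n ^ 2 * ((k i : ℝ) ^ 2 / 2) : ℝ) : ℂ) := by
    rw [mul_eq_sum' hp.kq_supp.subset, inner_sum, ← Finset.sum_sub_distrib,
      ← Finset.sum_sub_distrib]
    refine Finset.sum_congr rfl fun k _ => ?_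
    rw [inner_smul_right, inner_phi_shift]
    push_cast; ring
  rw [key, hp.kq_sum, Complex.sub_re, re_sum_mom m p fun _ => th n ^ 2, Complex.sub_re,
    Complex.one_re, ← Finset.sum_mul] at h1
  rw [Qf_eq, norm_phi]
  have := (abs_le.mp h1).2
  linarith only [this]

end

end Pool.Agent.Work.MP_6bf1e5_an.Dec
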