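import Pool.Agent.Work.MP_6bf1e5_an.Dec.Gap2A

/-!
A comparison symbol made of long shifts along the axes.
-/

open Set Complex
open scoped InnerProductSpace ComplexConjugate
open Pool.Agent.Work.MP_6bf1e5_an.B (Z3 R3 box)

namespace Pool.Agent.Work.MP_6bf1e5_an.Dec

noncomputable section

/-- The normalisation of the comparison symbol. -/
def Wk (K : ℕ) : ℝ := ∑ k ∈ Finset.range (K + 1), (k : ℝ) ^ 2 / 2

/-- The one-dimensional comparison symbol. -/
def psi (K : ℕ) (u : ℝ) : ℝ := (∑ k ∈ Finset.range (K + 1), (1 - Real.cos (k * u))) / Wk K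

lemma le_Wk (K : ℕ) : (K : ℝ) ^ 3 / 6 ≤ Wk K := by
  induction K with
  | zero => simp [Wk]
  | succ K ih =>
    rw [Wk, Finset.sum_range_succ, ← Wk]
    push_cast
    linarith [(Nat.cast_nonneg K : (0 : ℝ) ≤ K)]

lemma Wk_le (K : ℕ) : Wk K ≤ (K : ℝ) ^ 3 / 2 := by
  induction K with
  | zero => simp [Wk]
  | succ K ih =>
    rw [Wk, Finset.sum_range_succ, ← Wk]
    push_cast
    nlinarith [(Nat.cast_nonneg K : (0 : ℝ) ≤ K)]

lemma Wk_pos {K : ℕ} (hK : 1 ≤ K) : 0 < Wk K :=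
  lt_of_lt_of_le (by have : (0 : ℝ) < K := by exact_mod_cast hK
                     positivity) (le_Wk K)

lemma psi_nonneg {K : ℕ} (hK : 1 ≤ K) (u : ℝ) : 0 ≤ psi K u :=
  div_nonneg (Finset.sum_nonneg fun _ _ => sub_nonneg.mpr (Real.cos_le_one _)) (Wk_pos hK).le

lemma psi_le_sq {K : ℕ} (hK : 1 ≤ K) (u : ℝ) : psi K u ≤ u ^ 2 := by
  rw [psi, div_le_iff₀ (Wk_pos hK), Wk, Finset.mul_sum]
  refine Finset.sum_le_sum fun k _ => ?_
  have := Real.one_sub_sq_div_two_le_cos (x := k * u)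
  linarith only [this]

lemma psi_le {K : ℕ} (hK : 1 ≤ K) (u : ℝ) : psi K u * K ^ 2 ≤ 24 := by
  have h0 : (1 : ℝ) ≤ K := by exact_mod_cast hK
  rw [psi, div_mul_eq_mul_div, div_le_iff₀ (Wk_pos hK)]
  have h1 : ∑ k ∈ Finset.range (K + 1), (1 - Real.cos (k * u)) ≤ 4 * K := by
    calc ∑ k ∈ Finset.range (K + 1), (1 - Real.cos (k * u))
        ≤ ∑ k ∈ Finset.range (K + 1), (2 : ℝ) :=
          Finset.sum_le_sum fun k _ => by linarith only [Real.neg_one_le_cos (k * u)]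
      _ ≤ _ := by simp; linarith only [h0]
  calc _ ≤ 4 * (K : ℝ) * K ^ 2 := by gcongr
    _ = 24 * ((K : ℝ) ^ 3 / 6) := by ring
    _ ≤ _ := by gcongr; exact le_Wk K

lemma le_psi_small {K : ℕ} (hK : 1 ≤ K) {u : ℝ} (h0 : 0 ≤ u) (hu : K * u ≤ 1) :
    u ^ 2 * (1 - 5 / 48 * (K * u) ^ 2) ≤ psi K u := by
  rw [psi, le_div_iff₀ (Wk_pos hK), Wk, Finset.mul_sum]
  refine Finset.sum_le_sum fun k hk => ?_
  have hk' : (k : ℝ) ≤ K := by exact_mod_cast Nat.lt_succ_iff.mp (Finset.mem_range.mp hk)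
  have h1 : 0 ≤ k * u := by positivity
  have h2 : k * u ≤ K * u := by gcongr
  have h3 := Real.cos_bound (x := k * u) (by rw [abs_of_nonneg h1]; linarith only [hu, h2])
  rw [abs_of_nonneg h1] at h3
  have h4 : (k * u) ^ 2 ≤ (K * u) ^ 2 := by gcongr
  have h5 : (k * u) ^ 4 ≤ (k * u) ^ 2 * (K * u) ^ 2 := by
    rw [show (k * u) ^ 4 = (k * u) ^ 2 * (k * u) ^ 2 by ring]; gcongr
  linarith only [h5, (abs_le.mp h3).2]

lemma one_sub_cos_sub (a b : ℝ) :
    (1 - Real.cos (a - b)) / 2 ≤ (1 - Real.cos a) + (1 - Real.cos b) := by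
  rw [Real.cos_sub]
  linarith [Real.sin_sq_add_cos_sq a, Real.sin_sq_add_cos_sq b,
    sq_nonneg (Real.sin a + Real.sin b), sq_nonneg (Real.cos a + Real.cos b - 2)]

lemma le_psi_large {K : ℕ} (hK : 2 ≤ K) {u : ℝ} (h0 : 1 ≤ K * u) (hu : u ≤ Real.pi) :
    1 / 320 ≤ psi K u * K ^ 2 := by
  have hK' : (2 : ℝ) ≤ K := by exact_mod_cast hK
  have hu0 : 0 < u := by
    by_contra h
    nlinarith only [h0, not_lt.mp h]
  obtain ⟨j, hj1, hj2, hj3⟩ : ∃ j : ℕ, 2 * (j : ℝ) ≤ K ∧ 1 / 4 ≤ j * u ∧ j * u ≤ Real.pi := by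
    by_cases h : 1 / 4 ≤ u
    · exact ⟨1, by simpa using hK', by simpa using h, by simpa using hu⟩
    · have h1 := Nat.floor_le (a := 1 / (2 * u)) (by positivity)
      have h2 := Nat.lt_floor_add_one (1 / (2 * u))
      rw [le_div_iff₀ (by positivity)] at h1
      rw [div_lt_iff₀ (by positivity)] at h2
      refine ⟨⌊1 / (2 * u)⌋₊, ?_, by linarith only [h, h2], by linarith only [h1, Real.pi_gt_three]⟩
      refine le_of_mul_le_mul_right ?_ hu0
      linarith only [h0, h1]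
  have hc : 1 / 80 ≤ 1 - Real.cos (j * u) := by
    have h1 := Real.cos_le_one_sub_mul_cos_sq (x := j * u) (by
      rw [abs_of_nonneg (by linarith only [hj2])]; exact hj3)
    have h2 : 1 / 5 ≤ 2 / Real.pi ^ 2 := by
      rw [le_div_iff₀ (by positivity)]
      nlinarith only [Real.pi_lt_d2, Real.pi_pos]
    have h3 : 1 / 16 ≤ (j * u) ^ 2 := by nlinarith only [hj2]
    linarith only [h1, mul_le_mul h2 h3 (by norm_num) (by positivity)]
  have hjK : j ≤ K := by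
    have : (j : ℝ) ≤ K := by linarith only [hj1, (Nat.cast_nonneg j : (0 : ℝ) ≤ j)]
    exact_mod_cast this
  have hg : ∀ k : ℕ, 0 ≤ 1 - Real.cos (k * u) := fun k => sub_nonneg.mpr (Real.cos_le_one _)
  have s1 : ∑ k ∈ Finset.range (K + 1 - j), (1 - Real.cos (k * u)) ≤
      ∑ k ∈ Finset.range (K + 1), (1 - Real.cos (k * u)) :=
    Finset.sum_le_sum_of_subset_of_nonneg (Finset.range_mono (by omega)) fun k _ _ => hg k
  have s2 : ∑ k ∈ Finset.range (K + 1 - j), (1 - Real.cos ((j + k : ℕ) * u)) ≤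
      ∑ k ∈ Finset.range (K + 1), (1 - Real.cos (k * u)) := by
    conv_rhs => rw [show K + 1 = j + (K + 1 - j) by omega, Finset.sum_range_add]
    exact le_add_of_nonneg_left (Finset.sum_nonneg fun k _ => hg k)
  have s3 : ∑ k ∈ Finset.range (K + 1 - j), (1 / 160 : ℝ) ≤
      ∑ k ∈ Finset.range (K + 1 - j), (1 - Real.cos ((j + k : ℕ) * u)) +
        ∑ k ∈ Finset.range (K + 1 - j), (1 - Real.cos (k * u)) := by
    rw [← Finset.sum_add_distrib]
    refine Finset.sum_le_sum fun k _ => ?_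
    have := one_sub_cos_sub ((j + k : ℕ) * u) (k * u)
    rw [show ((j + k : ℕ) : ℝ) * u - k * u = j * u by push_cast; ring] at this
    linarith only [hc, this]
  rw [Finset.sum_const, Finset.card_range, nsmul_eq_mul, Nat.cast_sub (by omega)] at s3
  push_cast at s3 s2
  have s4 : (K : ℝ) / 640 ≤ ∑ k ∈ Finset.range (K + 1), (1 - Real.cos (k * u)) := by linarith only [hj1, s1, s3, s2]
  rw [psi, div_mul_eq_mul_div, le_div_iff₀ (Wk_pos (by omega))]
  calc 1 / 320 * Wk K ≤ 1 / 320 * ((K : ℝ) ^ 3 / 2) := by gcongr; exact Wk_le K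
    _ = K / 640 * K ^ 2 := by ring
    _ ≤ _ := by gcongr

lemma sq_sum_abs_le (x : R3) : (∑ i, |x i|) ^ 2 ≤ 3 * sq3 x := by
  simp only [sq3, Fin.sum_univ_three]
  rw [← sq_abs (x 0), ← sq_abs (x 1), ← sq_abs (x 2)]
  linarith [sq_nonneg (|x 0| - |x 1|), sq_nonneg (|x 0| - |x 2|), sq_nonneg (|x 1| - |x 2|)]

/-- The symbol inequality. -/
theorem Drv.symbol {m K : ℕ} {p : V} (hp : Drv m p) {δ : ℝ} (h0 : 0 < δ) (h1 : δ ≤ 1 / 10 ^ 30)
    (hK : (m + 1 : ℝ) ≤ δ * K) {x : R3} (hx : x ∈ cube) :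
    (1 - 3 * 10 ^ 12 * δ) * ∑ i, Hm m p i * psi K (x i) ≤ 1 - ‖ev x p‖ ^ 2 := by
  have ha : (1 : ℝ) ≤ m + 1 := by linarith only [(Nat.cast_nonneg m : (0 : ℝ) ≤ m)]
  have hK1 : 1 ≤ K := by
    rcases Nat.eq_zero_or_pos K with rfl | h
    · simp at hK; linarith only [hK]
    · exact h
  have hH : ∀ i, 0 ≤ Hm m p i := fun i => le_trans (by positivity) (hp.le_Hm i)
  have hs : 0 ≤ ∑ i, |x i| := Finset.sum_nonneg fun _ _ => abs_nonneg _
  have hs2 : ((m + 1) * ∑ i, |x i|) ^ 2 ≤ 3 * ((m + 1) ^ 2 * sq3 x) := by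
    rw [mul_pow, mul_left_comm]; gcongr; exact sq_sum_abs_le x
  by_cases hc : (m + 1) * ∑ i, |x i| ≤ 10 ^ 5 * δ
  · have t1 := (abs_le.mp (hp.taylor (x := x) (by linarith only [h1, hc]))).1
    have t2 : ∑ i, Hm m p i * psi K (x i) ≤ ∑ i, Hm m p i * x i ^ 2 :=
      Finset.sum_le_sum fun i _ => mul_le_mul_of_nonneg_left (psi_le_sq hK1 _) (hH i)
    have t3 : 9 / 10 ^ 7 * ((m + 1) ^ 2 * sq3 x) ≤ ∑ i, Hm m p i * x i ^ 2 := by
      rw [sq3, ← mul_assoc, Finset.mul_sum]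
      exact Finset.sum_le_sum fun i _ => mul_le_mul_of_nonneg_right (hp.le_Hm i) (sq_nonneg _)
    have t4 : ((m + 1) * ∑ i, |x i|) ^ 3 ≤ 10 ^ 5 * δ * (3 * ((m + 1) ^ 2 * sq3 x)) := by
      rw [pow_succ']; gcongr
    have t5 : (1 - 3 * 10 ^ 12 * δ) * ∑ i, Hm m p i * psi K (x i) ≤
        (1 - 3 * 10 ^ 12 * δ) * ∑ i, Hm m p i * x i ^ 2 :=
      mul_le_mul_of_nonneg_left t2 (by linarith only [h1])
    have t6 : 0 ≤ (m + 1) ^ 2 * sq3 x := by linarith only [hs2, sq_nonneg ((m + 1) * ∑ i, |x i|)]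
    linarith only [t1, t4, t5, mul_le_mul_of_nonneg_left t3 h0.le, mul_nonneg h0.le t6]
  · have t1 := hp.far x hx
    have t2 : (10 ^ 5 * δ) ^ 2 ≤ ((m + 1) * ∑ i, |x i|) ^ 2 :=
      pow_le_pow_left₀ (by positivity) (not_le.mp hc).le 2
    have t3 : 10 ^ 10 / 3 * δ ^ 2 ≤ min 1 ((m + 1) ^ 2 * sq3 x) :=
      le_min (by nlinarith only [h0, h1]) (by linarith only [hs2, t2])
    have t4 : ∀ i, Hm m p i * psi K (x i) ≤ 192 * δ ^ 2 := fun i => by
      calc Hm m p i * psi K (x i) ≤ 8 * (δ * K) ^ 2 * psi K (x i) :=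
            mul_le_mul_of_nonneg_right ((hp.Hm_le i).trans (by gcongr)) (psi_nonneg hK1 _)
        _ = 8 * δ ^ 2 * (psi K (x i) * K ^ 2) := by ring
        _ ≤ 8 * δ ^ 2 * 24 := by gcongr; exact psi_le hK1 _
        _ = _ := by ring
    have t5 : ∑ i, Hm m p i * psi K (x i) ≤ 576 * δ ^ 2 := by
      rw [Fin.sum_univ_three]; linarith only [t4 0, t4 1, t4 2]
    have t6 : 0 ≤ ∑ i, Hm m p i * psi K (x i) :=
      Finset.sum_nonneg fun i _ => mul_nonneg (hH i) (psi_nonneg hK1 _)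
    linarith only [t1, t3, t5, mul_nonneg h0.le t6, sq_nonneg δ]

/-- The shift by `k` along the `i`-th axis. -/
def sh (i : Fin 3) (k : ℤ) : V := AddMonoidAlgebra.single (Pi.single i k) 1

lemma norm_ev_sh_sub (x : R3) (i : Fin 3) (k : ℤ) :
    ‖ev x (sh i k - 1)‖ ^ 2 = 2 * (1 - Real.cos (k * x i)) := by
  have : pr (Pi.single i k) x = k * x i := by
    rw [pr, Finset.sum_eq_single i (fun j _ hj => by simp [hj]) (by simp)]
    simp
  rw [map_sub, map_one, sh, ev_single, one_mul, this, mul_comm I, Complex.sq_norm,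
    Complex.normSq_apply]
  simp only [Complex.sub_re, Complex.sub_im, Complex.exp_ofReal_mul_I_re,
    Complex.exp_ofReal_mul_I_im, Complex.one_re, Complex.one_im]
  linarith [Real.sin_sq_add_cos_sq (k * x i)]

theorem Drv.le_Qf {m K : ℕ} {p : V} (hp : Drv m p) {δ : ℝ} (h0 : 0 < δ) (h1 : δ ≤ 1 / 10 ^ 30)
    (hK : (m + 1 : ℝ) ≤ δ * K) (y : V) :
    ∑ i, ∑ k ∈ Finset.range (K + 1), (1 - 3 * 10 ^ 12 * δ) * Hm m p i / (2 * Wk K) *
      ‖(sh i k - 1) * y‖ ^ 2 ≤ Qf p y := by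
  have := normsq_le_of_symbol (Finset.univ ×ˢ Finset.range (K + 1)) Finset.univ
    (fun ik : Fin 3 × ℕ => (sh ik.1 ik.2 - 1) * y) (fun b : Bool => if b then y else p * y)
    (fun ik => (1 - 3 * 10 ^ 12 * δ) * Hm m p ik.1 / (2 * Wk K))
    (fun b => if b then 1 else -1) fun x hx => by
      have h2 := mul_le_mul_of_nonneg_right (hp.symbol h0 h1 hK hx) (sq_nonneg ‖ev x y‖)
      simp only [Fintype.sum_bool, if_true, Bool.false_eq_true, if_false, map_mul, norm_mul,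
        mul_pow, norm_ev_sh_sub, Finset.sum_product]
      refine le_trans (le_of_eq ?_) (h2.trans (le_of_eq (by ring)))
      simp only [psi, Finset.mul_sum, Finset.sum_mul, Finset.sum_div]
      refine Finset.sum_congr rfl fun i _ => Finset.sum_congr rfl fun k _ => ?_
      push_cast
      ring
  rw [Finset.sum_product] at this
  simpa [Qf, sub_eq_add_neg] using this

end

end Pool.Agent.Work.MP_6bf1e5_an.Dec
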