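import Pool.Agent.Work.MP_6bf1e5_an.Dec.Gap2B
import Pool.Agent.Work.MP_6bf1e5_an.Dec.Gap2C

/-!
The product sine basis of a box.
-/

open Set Complex
open scoped InnerProductSpace ComplexConjugate
open Pool.Agent.Work.MP_6bf1e5_an.B (Z3 R3 box)

namespace Pool.Agent.Work.MP_6bf1e5_an.Dec

noncomputable section

/-- The one-dimensional sine vectors. -/
def s1 (n l : ℕ) (h : ℤ) : ℝ := Real.sin (th n * (l + 1) * (h + n + 1))

/-- The product sine vectors. -/
def sv (n : ℕ) (l : Fin 3 → ℕ) : V :=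
  mk (box n) fun h => (((NN n)⁻¹ * ∏ i, s1 n (l i) (h i) : ℝ) : ℂ)

/-- The index set of the sine basis. -/
def idx (n : ℕ) : Finset (Fin 3 → ℕ) := Fintype.piFinset fun _ => Finset.range (2 * n + 1)

lemma sum_cos_tel (t : ℝ) (M : ℕ) : 2 * Real.sin (t / 2) *
    ∑ l ∈ Finset.range M, Real.cos ((l + 1) * t) = Real.sin (M * t + t / 2) - Real.sin (t / 2) := by
  induction M with
  | zero => simp
  | succ M ih =>
    rw [Finset.sum_range_succ, mul_add, ih]
    push_cast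
    rw [show (M : ℝ) * t + t / 2 = (M + 1) * t - t / 2 by ring, Real.sin_add, Real.sin_sub]
    ring

lemma sum_cos_th {n : ℕ} {d : ℤ} (h0 : d ≠ 0) (h1 : |d| < 4 * n + 4) :
    ∑ l ∈ Finset.range (2 * n + 1), Real.cos ((l + 1) * (th n * d)) =
      -(1 + Real.cos (d * Real.pi)) / 2 := by
  have ht := th_pos n
  have hm := th_mul n
  have hs : Real.sin (th n * d / 2) ≠ 0 := by
    have h2 : |(d : ℝ)| < 4 * n + 4 := by exact_mod_cast h1
    have h3 := abs_lt.mp h2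
    intro h
    rw [Real.sin_eq_zero_iff_of_lt_of_lt (by nlinarith only [ht, hm, h3]) (by nlinarith only [ht, hm, h3])] at h
    have : (d : ℝ) ≠ 0 := by exact_mod_cast h0
    exact absurd h (by positivity)
  have h := sum_cos_tel (th n * d) (2 * n + 1)
  rw [show ((2 * n + 1 : ℕ) : ℝ) * (th n * d) + th n * d / 2 = d * Real.pi - th n * d / 2 by
    push_cast; linear_combination (2 * d) * hm, Real.sin_sub, Real.sin_int_mul_pi] at h
  refine mul_left_cancel₀ hs ?_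
  linear_combination h / 2

lemma sum_s1 {n : ℕ} {h h' : ℤ} (a : |h| ≤ n) (b : |h'| ≤ n) :
    ∑ l ∈ Finset.range (2 * n + 1), s1 n l h * s1 n l h' = if h = h' then (n + 1 : ℝ) else 0 := by
  have e : ∀ l : ℕ, s1 n l h * s1 n l h' = (Real.cos ((l + 1) * (th n * (h - h' : ℤ))) -
      Real.cos ((l + 1) * (th n * (h + h' + 2 * n + 2 : ℤ)))) / 2 := fun l => by
    rw [show ((l : ℝ) + 1) * (th n * (h - h' : ℤ)) =
        th n * (l + 1) * (h + n + 1) - th n * (l + 1) * (h' + n + 1) by push_cast; ring,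
      show ((l : ℝ) + 1) * (th n * (h + h' + 2 * n + 2 : ℤ)) =
        th n * (l + 1) * (h + n + 1) + th n * (l + 1) * (h' + n + 1) by push_cast; ring,
      Real.cos_sub, Real.cos_add, s1, s1]
    ring
  have a' := abs_le.mp a
  have b' := abs_le.mp b
  have c : Real.cos ((h + h' + 2 * n + 2 : ℤ) * Real.pi) = Real.cos ((h - h' : ℤ) * Real.pi) := by
    rw [← Real.cos_add_int_mul_two_pi ((h - h' : ℤ) * Real.pi) (h' + n + 1)]
    congr 1
    push_cast; ring
  simp only [e]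
  rw [← Finset.sum_div, Finset.sum_sub_distrib,
    sum_cos_th (d := h + h' + 2 * n + 2) (by omega) (abs_lt.mpr ⟨by omega, by omega⟩), c]
  split_ifs with hh
  · subst hh
    simp
    ring
  · rw [sum_cos_th (d := h - h') (by omega) (abs_lt.mpr ⟨by omega, by omega⟩)]
    ring

lemma sum_sv {n : ℕ} {h h' : Z3} (a : h ∈ box n) (b : h' ∈ box n) :
    ∑ l ∈ idx n, ((NN n)⁻¹ * ∏ i, s1 n (l i) (h i)) * ((NN n)⁻¹ * ∏ i, s1 n (l i) (h' i)) =
      if h = h' then 1 else 0 := by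
  have hN : ((NN n)⁻¹ : ℝ) * (NN n)⁻¹ = ((n + 1 : ℝ) ^ 3)⁻¹ := by rw [← mul_inv, ← sq, NN_sq]
  have e : ∀ l : Fin 3 → ℕ,
      ((NN n)⁻¹ * ∏ i, s1 n (l i) (h i)) * ((NN n)⁻¹ * ∏ i, s1 n (l i) (h' i)) =
      ((n + 1 : ℝ) ^ 3)⁻¹ * ∏ i, s1 n (l i) (h i) * s1 n (l i) (h' i) := fun l => by
    rw [Finset.prod_mul_distrib, ← hN]; ring
  simp only [e]
  rw [← Finset.mul_sum, idx,
    ← Finset.prod_univ_sum (fun _ => Finset.range (2 * n + 1))
      fun i l => s1 n l (h i) * s1 n l (h' i)]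
  simp only [fun i => sum_s1 (mem_box'.mp a i) (mem_box'.mp b i)]
  split_ifs with hh
  · subst hh
    simp only [if_true, Finset.prod_const, Finset.card_univ, Fintype.card_fin]
    exact inv_mul_cancel₀ (by positivity)
  · obtain ⟨i, hi⟩ := Function.ne_iff.mp hh
    exact mul_eq_zero_of_right _ (Finset.prod_eq_zero (Finset.mem_univ i) (if_neg hi))

lemma coeff_sv (n : ℕ) (l : Fin 3 → ℕ) (h : Z3) : (sv n l).coeff h =
    if h ∈ box n then (((NN n)⁻¹ * ∏ i, s1 n (l i) (h i) : ℝ) : ℂ) else 0 := coeff_mk _ _ _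

lemma eq_sum_sv {n : ℕ} {g : V} (hg : Supp n g) : g = ∑ l ∈ idx n, ⟪sv n l, g⟫_ℂ • sv n l := by
  ext h
  have : (∑ l ∈ idx n, ⟪sv n l, g⟫_ℂ • sv n l).coeff h =
      ∑ l ∈ idx n, ⟪sv n l, g⟫_ℂ * (sv n l).coeff h := by simp
  rw [this]
  by_cases hh : h ∈ box n
  · simp only [inner_eq' _ hg.subset, Finset.sum_mul]
    rw [Finset.sum_comm]
    have : ∀ h' ∈ box n, ∑ l ∈ idx n, conj ((sv n l).coeff h') * g.coeff h' * (sv n l).coeff h =
        if h = h' then g.coeff h' else 0 := fun h' hh' => by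
      have h1 := congrArg (fun r : ℝ => (r : ℂ) * g.coeff h') (sum_sv hh hh')
      simp only [Complex.ofReal_sum, Finset.sum_mul] at h1
      refine Eq.trans (Finset.sum_congr rfl fun l _ => ?_) (h1.trans (by split_ifs <;> simp))
      rw [coeff_sv, coeff_sv, if_pos hh, if_pos hh', Complex.conj_ofReal]
      push_cast; ring
    rw [Finset.sum_congr rfl this, Finset.sum_ite_eq, if_pos hh]
  · simp [hg h hh, coeff_sv, hh]

lemma inner_eq_sum_sv {n : ℕ} (f : V) {g : V} (hg : Supp n g) :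
    ⟪f, g⟫_ℂ = ∑ l ∈ idx n, ⟪sv n l, g⟫_ℂ * conj ⟪sv n l, f⟫_ℂ := by
  conv_lhs => rw [eq_sum_sv hg, inner_sum]
  exact Finset.sum_congr rfl fun l _ => by rw [inner_smul_right, inner_conj_symm]

lemma normsq_eq_sum_sv {n : ℕ} {g : V} (hg : Supp n g) :
    ‖g‖ ^ 2 = ∑ l ∈ idx n, ‖⟪sv n l, g⟫_ℂ‖ ^ 2 := by
  rw [@norm_sq_eq_re_inner ℂ, inner_eq_sum_sv g hg, RCLike.re_to_complex, Complex.re_sum]
  exact Finset.sum_congr rfl fun l _ => by rw [Complex.mul_conj']; norm_cast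

lemma dag_sh (i : Fin 3) (k : ℤ) : dag (sh i k) = sh i (-k) := by
  rw [sh, dag_single, sh, Pi.single_neg, map_one]

lemma single_mem_box {K : ℕ} (i : Fin 3) {k : ℤ} (hk : |k| ≤ K) : (Pi.single i k : Z3) ∈ box K :=
  mem_box'.mpr fun j => by by_cases hj : j = i <;> simp [hj, hk]

lemma s1_add (n l : ℕ) (h k : ℤ) :
    s1 n l (h + k) + s1 n l (h - k) = 2 * Real.cos (k * (th n * (l + 1))) * s1 n l h := by
  simp only [s1]
  push_cast
  rw [show th n * (l + 1) * (h + k + n + 1) = th n * (l + 1) * (h + n + 1) + k * (th n * (l + 1)) by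
      ring, show th n * (l + 1) * (h - k + n + 1) =
      th n * (l + 1) * (h + n + 1) - k * (th n * (l + 1)) by ring, Real.sin_add, Real.sin_sub]
  ring

lemma inner_sv_sh {n K : ℕ} {y : V} (hy : Supp n y) (l : Fin 3 → ℕ) (i : Fin 3) {k : ℤ}
    (hk : |k| ≤ K) : ⟪sv (n + K) l, sh i k * y + sh i (-k) * y⟫_ℂ =
      ((2 * Real.cos (k * (th (n + K) * (l i + 1))) : ℝ) : ℂ) * ⟪sv (n + K) l, y⟫_ℂ := by
  rw [inner_add_right, inner_mul_right, inner_mul_right, dag_sh, dag_sh, neg_neg,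
    inner_eq' _ hy.subset, inner_eq' _ hy.subset, inner_eq' _ hy.subset, ← Finset.sum_add_distrib,
    Finset.mul_sum]
  refine Finset.sum_congr rfl fun h hh => ?_
  have m1 : h - Pi.single i (-k) ∈ box (n + K) := by
    rw [Pi.single_neg, sub_neg_eq_add]; exact add_mem_box hh (single_mem_box i hk)
  have m2 : h - Pi.single i k ∈ box (n + K) := by
    rw [sub_eq_add_neg]; exact add_mem_box hh (neg_mem_box.mpr (single_mem_box i hk))
  rw [sh, sh, coeff_single_mul, coeff_single_mul, one_mul, one_mul, coeff_sv, coeff_sv, coeff_sv,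
    if_pos m1, if_pos m2, if_pos (box_mono (Nat.le_add_right n K) hh), Complex.conj_ofReal,
    Complex.conj_ofReal, Complex.conj_ofReal, ← add_mul, ← mul_assoc, ← Complex.ofReal_add,
    ← Complex.ofReal_mul]
  congr 2
  have e := s1_add (n + K) (l i) (h i) k
  have p : ∀ k' : ℤ, ∏ j, s1 (n + K) (l j) ((h - Pi.single i k' : Z3) j) =
      s1 (n + K) (l i) (h i - k') * ∏ j ∈ Finset.univ.erase i, s1 (n + K) (l j) (h j) := fun k' => by
    rw [← Finset.mul_prod_erase _ _ (Finset.mem_univ i)]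
    congr 1
    · simp
    · exact Finset.prod_congr rfl fun j hj => by simp [Finset.ne_of_mem_erase hj]
  rw [p, p, sub_neg_eq_add, ← Finset.mul_prod_erase _ _ (Finset.mem_univ i)]
  linear_combination ((NN (n + K))⁻¹ * ∏ j ∈ Finset.univ.erase i, s1 (n + K) (l j) (h j)) * e

lemma normsq_sh_sub {n K : ℕ} {y : V} (hy : Supp n y) (i : Fin 3) {k : ℤ} (hk : |k| ≤ K) :
    ‖(sh i k - 1) * y‖ ^ 2 = ∑ l ∈ idx (n + K),
      2 * (1 - Real.cos (k * (th (n + K) * (l i + 1)))) * ‖⟪sv (n + K) l, y⟫_ℂ‖ ^ 2 := by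
  have s1 : ∀ k : ℤ, |k| ≤ K → Supp (n + K) (sh i k * y) := fun k hk => by
    rw [add_comm]; exact (supp_single (single_mem_box i hk) 1).mul hy
  have h1 := inner_eq_sum_sv y ((s1 k hk).add (s1 (-k) (by rwa [abs_neg])))
  simp only [inner_sv_sh hy _ i hk] at h1
  have h2 := congrArg Complex.re h1
  rw [inner_add_right, Complex.add_re, ← dag_sh, ← inner_mul_left, Complex.re_sum] at h2
  have h3 : (⟪y, sh i k * y⟫_ℂ).re = (⟪sh i k * y, y⟫_ℂ).re := by
    rw [← inner_conj_symm, Complex.conj_re]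
  have h4 := normsq_eq_sum_sv (hy.mono (Nat.le_add_right n K))
  have h5 : ∀ l ∈ idx (n + K), (((2 * Real.cos (k * (th (n + K) * (l i + 1))) : ℝ) : ℂ) *
      ⟪sv (n + K) l, y⟫_ℂ * conj ⟪sv (n + K) l, y⟫_ℂ).re =
      2 * Real.cos (k * (th (n + K) * (l i + 1))) * ‖⟪sv (n + K) l, y⟫_ℂ‖ ^ 2 := fun l _ => by
    rw [mul_assoc, Complex.mul_conj']; norm_cast
  rw [Finset.sum_congr rfl h5] at h2
  have h6 : ‖sh i k * y‖ = ‖y‖ := norm_single_mul _ _
  rw [sub_mul, one_mul, @norm_sub_sq ℂ, h6, RCLike.re_to_complex]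
  simp only [mul_sub, sub_mul, Finset.sum_sub_distrib, mul_one, ← Finset.mul_sum]
  linarith only [h2, h3, h4]

lemma sum_sh_eq {n K : ℕ} {y : V} (hy : Supp n y) (c : Fin 3 → ℝ) :
    ∑ i, ∑ k ∈ Finset.range (K + 1), c i / (2 * Wk K) * ‖(sh i k - 1) * y‖ ^ 2 =
      ∑ l ∈ idx (n + K), (∑ i, c i * psi K (th (n + K) * (l i + 1))) * ‖⟪sv (n + K) l, y⟫_ℂ‖ ^ 2 := by
  simp only [Finset.sum_mul]
  rw [Finset.sum_comm (s := idx (n + K))]
  refine Finset.sum_congr rfl fun i _ => ?_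
  simp only [psi, Finset.sum_div, Finset.mul_sum, Finset.sum_mul]
  rw [Finset.sum_comm]
  refine Finset.sum_congr rfl fun k hk => ?_
  rw [normsq_sh_sub (K := K) hy i (by
    rw [Int.abs_natCast]; exact_mod_cast Nat.lt_succ_iff.mp (Finset.mem_range.mp hk)),
    Finset.mul_sum]
  refine Finset.sum_congr rfl fun l _ => ?_
  push_cast
  ring

lemma sv_zero (n : ℕ) : sv n 0 = phi n := by
  rw [sv, phi]
  congr 1
  funext h
  congr 2
  refine Finset.prod_congr rfl fun i _ => ?_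
  rw [s1, ← Real.sin_add_pi_div_two, ← th_mul n]
  congr 1
  simp; ring

end

end Pool.Agent.Work.MP_6bf1e5_an.Dec
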