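import Pool.Agent.Work.MP_6bf1e5_an.Dec.Phi
import Pool.Agent.Work.MP_6bf1e5_an.B.Tri
import Pool.Agent.Work.MP_6bf1e5_an.G.Defs

/-!
The retained modes, the reference vectors and the amplitudes.
-/

open Set Complex
open scoped InnerProductSpace ComplexConjugate
open Pool.Agent.Work.MP_6bf1e5_an.B

namespace Pool.Agent.Work.MP_6bf1e5_an.Dec

noncomputable section

/-- Families of modes: `b j` is the positive packet of level `j`, `c j` the negative packet of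
level `j + 1`, `y j m` the `m`-th mode of the chain of level `j + 1`. -/
inductive Row where
  | b (j : ℕ) : Row
  | c (j : ℕ) : Row
  | y (j m : ℕ) : Row

variable (Γ : Geo)

/-- The short coordinate along the chain of level `j + 1`. -/
def wv (j m : ℕ) : ℤ :=
  if m % 6 = 1 then Γ.P j else if m % 6 = 2 then Γ.P (j + 1)
  else if m % 6 = 3 then Γ.P (j + 1) - Γ.P j else if m % 6 = 4 then -Γ.P j
  else if m % 6 = 5 then -Γ.P (j + 1) else Γ.P j - Γ.P (j + 1)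

/-- The long coordinate of the carrier. -/
def Row.X : Row → ℤ
  | .b j => Γ.P j
  | .c j => Γ.P (j + 1)
  | .y j m => luc (m - 1) * Γ.P (j + 1)

/-- The short coordinate of the carrier. -/
def Row.W : Row → ℤ
  | .b _ => 0
  | .c j => Γ.P j
  | .y j m => wv Γ j m

/-- The radius of the box. -/
def Row.R : Row → ℕ
  | .b j => Γ.M j
  | .c j => Γ.M (j + 1) + Γ.M j
  | .y _ _ => 0

/-- The rows which are used. -/
def Row.ok : Row → Prop
  | .y j m => 1 ≤ m ∧ m < Γ.n (j + 1)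
  | _ => True

/-- The level. -/
def Row.lev : Row → ℕ
  | .b j => j
  | .c j => j + 1
  | .y j _ => j + 1

/-- The helicity. -/
def Row.s : Row → ℝ
  | .b _ => 1
  | .c _ => -1
  | .y _ m => if m % 2 = 1 then 1 else -1

/-- The mode with offset `h` from the carrier `(X, e W, 0)`. -/
def pt (ρ : Row) (e : ℤ) (h : Z3) : Z3 := ![ρ.X Γ + 2 * h 0, e * ρ.W Γ + 2 * h 1, 2 * h 2]

/-- The modes of a row with long first coordinate. -/
def Str (ρ : Row) : Set Z3 :=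
  {k | ∃ e h, (e = 1 ∨ e = -1) ∧ h ∈ box (ρ.R Γ) ∧ (k = pt Γ ρ e h ∨ k = -pt Γ ρ e h)}

/-- All the modes of a row. -/
def Orb (ρ : Row) : Set Z3 := {k | k ∈ Str Γ ρ ∨ swE k ∈ Str Γ ρ}

/-- The retained modes of helicity `s`. -/
def SS (s : ℝ) : Set Z3 :=
  {k | ∃ ρ : Row, ρ.ok Γ ∧ ((ρ.s = s ∧ k ∈ Str Γ ρ) ∨ (ρ.s = -s ∧ swE k ∈ Str Γ ρ))}

/-- The packets of level `i`. -/
def Lv : ℕ → Set Z3
  | 0 => Orb Γ (.b 0)
  | j + 1 => Orb Γ (.b (j + 1)) ∪ Orb Γ (.c j)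

/-- The `m`-th member of the chain of level `j + 1`, the last one being the next packet. -/
def yr (j m : ℕ) : Row := if m = Γ.n (j + 1) then .c (j + 1) else .y j m

/-- The designed triads of rows. -/
inductive Des : Row → Row → Row → Prop
  | strain (j : ℕ) : Des (.b j) (.b (j + 1)) (.c j)
  | one (j : ℕ) : Des (.b (j + 1)) (.c j) (.y j 1)
  | two (j : ℕ) : Des (.b (j + 1)) (.b (j + 1)) (.y j 2)
  | fib (j m : ℕ) (h1 : 1 ≤ m) (h2 : m + 2 ≤ Γ.n (j + 1)) :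
      Des (.y j m) (.y j (m + 1)) (yr Γ j (m + 2))

/-- Designed triads in any order. -/
def Des' (a b c : Row) : Prop :=
  Des Γ a b c ∨ Des Γ a c b ∨ Des Γ b a c ∨ Des Γ b c a ∨ Des Γ c a b ∨ Des Γ c b a

/-- `tail 0` is everything, `tail (i+1)` lies beyond the packets of level `i`. -/
def tail : ℕ → Set Z3
  | 0 => univ
  | i + 1 => {k | 3 * (Γ.P i : ℤ) ≤ 2 * (|k 0| + |k 1|)}

/-! Vectors -/

/-- Exchange of the first two components. -/
def Sg (v : C3) : C3 := WithLp.toLp 2 ![v 1, v 0, v 2]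

/-- The half turn about the first axis. -/
def Rx (v : C3) : C3 := WithLp.toLp 2 ![v 0, -v 1, -v 2]

/-- The half turn about the third axis. -/
def Rz (v : C3) : C3 := WithLp.toLp 2 ![-v 0, -v 1, v 2]

/-- The sign `(-1)^n`. -/
def sgn (n : ℤ) : ℂ := if n % 2 = 0 then 1 else -1

/-- The third unit vector. -/
def ez : C3 := WithLp.toLp 2 ![0, 0, 1]

/-- The helical unit vector at a horizontal frequency. -/
def hv (s : ℝ) (k : Z3) : C3 :=
  WithLp.toLp 2 ![((-(k 1 : ℝ) / √((k 0 : ℝ) ^ 2 + (k 1 : ℝ) ^ 2) / √2 : ℝ) : ℂ),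
    (((k 0 : ℝ) / √((k 0 : ℝ) ^ 2 + (k 1 : ℝ) ^ 2) / √2 : ℝ) : ℂ), I * ((s / √2 : ℝ) : ℂ)]

/-- The reference vector at the carrier `pt ρ 1 0`. -/
def Row.e : Row → C3
  | .b j => hv 1 (pt Γ (.b j) 1 0)
  | .c j => I • hv (-1) (pt Γ (.c j) 1 0)
  | .y j m => if m = 2 then ez else
      ((-1 : ℂ) ^ m * if m % 3 = 2 then I else 1) • hv (Row.y j m).s (pt Γ (.y j m) 1 0)

/-- The reference vector at the carrier `pt ρ (-1) 0`. -/
def Row.e' (ρ : Row) : C3 := sgn (ρ.X Γ) • Rx (ρ.e Γ)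

/-- The vector with unit amplitude at frequency `k`. -/
def uu (s : ℝ) (k : Z3) (e : C3) : C3 := (((‖hP s k e‖ ^ 2)⁻¹ : ℝ) : ℂ) • hP s k e

/-- The coefficient of the interaction of `u` at `k` and `v` at `l`, tested against `w`. -/
def cf (w : C3) (k : Z3) (u : C3) (l : Z3) (v : C3) : ℂ :=
  -(I * (dt u l * ⟪w, v⟫_ℂ + dt v k * ⟪w, u⟫_ℂ))

/-- Strain coefficient in the equation of the negative packets of level `j + 1`. -/
def cC (j : ℕ) : ℝ :=
  (cf ((Row.c j).e Γ) (pt Γ (.b (j + 1)) 1 0) ((Row.b (j + 1)).e Γ)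
    (swE (pt Γ (.b j) 1 0)) (Sg ((Row.b j).e Γ))).re

/-- Strain coefficient in the equation of the positive packet of level `j + 1`. -/
def cB (j : ℕ) : ℝ :=
  (cf ((Row.b (j + 1)).e Γ) (pt Γ (.c j) (-1) 0) ((Row.c j).e' Γ)
    (swE (pt Γ (.b j) 1 0)) (Sg ((Row.b j).e Γ))).re

/-- The normalisation of the negative packets. -/
def rho (j : ℕ) : ℝ := √(cB Γ j / cC Γ j)

/-- The coefficient of the source of the `m`-th chain mode, before normalisation. -/
def cY0 (j m : ℕ) : ℂ :=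
  if m = 1 then
    cf ((Row.y j 1).e Γ) (pt Γ (.b (j + 1)) 1 0) ((Row.b (j + 1)).e Γ) (pt Γ (.c j) 1 0)
      ((Row.c j).e Γ)
  else if m = 2 then
    cf ez (pt Γ (.b (j + 1)) 1 0) ((Row.b (j + 1)).e Γ) (swE (pt Γ (.b (j + 1)) 1 0))
      (Sg ((Row.b (j + 1)).e Γ))
  else
    cf ((yr Γ j m).e Γ) (pt Γ (.y j (m - 1)) 1 0) ((Row.y j (m - 1)).e Γ)
      (pt Γ (.y j (m - 2)) (-1) 0) ((Row.y j (m - 2)).e' Γ)

/-- The normalised chain coefficients. -/
def cY (j m : ℕ) : ℝ :=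
  if m = 1 then (cY0 Γ j m).re / rho Γ j
  else if m = Γ.n (j + 1) then rho Γ (j + 1) * (cY0 Γ j m).re else (cY0 Γ j m).re

/-! Amplitudes -/

/-- The envelope of the positive packet of level `j`. -/
def ampB (j : ℕ) (a : Z3 → C3) : V :=
  mk (box (Γ.M j)) fun h => ⟪(Row.b j).e Γ, a (pt Γ (.b j) 1 h)⟫_ℂ

/-- The envelope of the upper negative packet. -/
def ampP : ℕ → (Z3 → C3) → V
  | 0, _ => 0
  | j + 1, a => mk (box (Γ.M (j + 1) + Γ.M j)) fun h =>
      (rho Γ j : ℂ) * ⟪(Row.c j).e Γ, a (pt Γ (.c j) 1 h)⟫_ℂ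

/-- The envelope of the lower negative packet. -/
def ampM (j : ℕ) (a : Z3 → C3) : V := prm rxE (ampP Γ j a)

/-- The amplitude of a chain mode. -/
def ampY (j m : ℕ) (a : Z3 → C3) : ℝ := (⟪(Row.y j m).e Γ, a (pt Γ (.y j m) 1 0)⟫_ℂ).re

/-- The norm of level `j`. -/
def nrA (j : ℕ) (a : Z3 → C3) : ℝ := nr3 (ampB Γ j a) (ampP Γ j a) (ampM Γ j a)

/-- The chain amplitudes with their end values. -/
def yA (j m : ℕ) (a : Z3 → C3) : ℝ :=
  if m = 0 then 0 else if m < Γ.n (j + 1) then ampY Γ j m a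
  else if m = Γ.n (j + 1) then nrA Γ (j + 2) a else 0

end

end Pool.Agent.Work.MP_6bf1e5_an.Dec
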