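import Pool.Agent.Work.MP_6bf1e5_an.Dec.Symm
import Pool.Agent.Work.MP_6bf1e5_an.Dec.Data
import Pool.Agent.Work.MP_6bf1e5_an.Dec.EqB
import Pool.Agent.Work.MP_6bf1e5_an.Dec.EqP
import Pool.Agent.Work.MP_6bf1e5_an.Dec.EqY
import Pool.Agent.Work.MP_6bf1e5_an.Dec.Energy

/-!
A global solution of the decimated system gives a solution of the envelope system.
-/

open Set
open scoped InnerProductSpace
open Pool.Agent.Work.MP_6bf1e5_an.B

namespace Pool.Agent.Work.MP_6bf1e5_an.Dec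

namespace NO

variable {Γ : Geo} {ν : ℝ} {a : ℝ → Z3 → C3}

lemma hd_inner (ha : GSol Γ ν a) (e : C3) (k : Z3) {t : ℝ} (ht : 0 ≤ t) :
    HD (fun t => ⟪e, a t k⟫_ℂ) ⟪e, rhs Γ ν (a t) k⟫_ℂ t :=
  ((innerSL ℂ e).restrictScalars ℝ).hasFDerivAt.comp_hasDerivWithinAt t (ha.hd k ht)

lemma sq_bounds (hν : 0 < ν) {l x : ℝ} (hl : 0 < l) (h : 9 / 10 * l ≤ x ∧ x ≤ 2 * l) :
    ν * l ^ 2 / 2 ≤ ν * x ^ 2 ∧ ν * x ^ 2 ≤ 4 * (ν * l ^ 2) := by
  have h1 := pow_le_pow_left₀ (by positivity) h.1 2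
  have h2 := pow_le_pow_left₀ (le_trans (by positivity) h.1) h.2 2
  have h3 := mul_le_mul_of_nonneg_left h1 hν.le
  have h4 := mul_le_mul_of_nonneg_left h2 hν.le
  have h5 := mul_pos hν (pow_pos hl 2)
  constructor <;> linarith only [h3, h5, h4]

lemma dB_bounds (hν : 0 < ν) (j : ℕ) (h : Z3) : ν * Γ.lam j ^ 2 / 2 ≤ (rawOf Γ ν a).dB j h ∧
    (rawOf Γ ν a).dB j h ≤ 4 * (ν * Γ.lam j ^ 2) := by
  have l0 := lam_pos (Γ := Γ) j
  simp only [rawOf]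
  split_ifs with hh
  · exact sq_bounds hν l0 (ax_b (pt_mem_Orb (Or.inl rfl) hh))
  · exact sq_bounds hν l0 ⟨by linarith, by linarith⟩

lemma dPr_bounds (hν : 0 < ν) (j : ℕ) (h : Z3) : ν * Γ.lam j ^ 2 / 2 ≤ dPr Γ ν j h ∧
    dPr Γ ν j h ≤ 4 * (ν * Γ.lam j ^ 2) := by
  have l0 := lam_pos (Γ := Γ) j
  rcases j with _ | j
  · exact sq_bounds hν l0 ⟨by linarith, by linarith⟩
  · simp only [dPr]
    split_ifs with hh
    · exact sq_bounds hν l0 (ax_c (pt_mem_Orb (Or.inl rfl) hh))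
    · exact sq_bounds hν l0 ⟨by linarith, by linarith⟩

lemma cY_bounds {j m : ℕ} (h1 : 1 ≤ m) (h2 : m ≤ Γ.n (j + 1)) :
    Γ.lam j / 20 ≤ cY Γ j m ∧ cY Γ j m ≤ 10 ^ 4 * Γ.lam (j + 2) := by
  obtain ⟨-, a1, a2⟩ := cY0_spec (Γ := Γ) h1 h2
  have l0 := lam_pos (Γ := Γ) j
  have l2 := lam_pos (Γ := Γ) (j + 2)
  obtain ⟨r1, r2⟩ := rho_bounds (Γ := Γ) j
  obtain ⟨s1, s2⟩ := rho_bounds (Γ := Γ) (j + 1)
  unfold cY
  generalize (cY0 Γ j m).re = x at *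
  split_ifs
  · rw [le_div_iff₀ (by linarith only [r1]), div_le_iff₀ (by linarith only [r1])]
    constructor <;> nlinarith only [l0, r2, a1, l2, r1, a2]
  · constructor <;> nlinarith only [l0, s1, a1, l2, s2, a2]
  · constructor <;> linarith only [l0, a1, l2, a2]

lemma y_eq (j m : ℕ) (t : ℝ) : (rawOf Γ ν a).y (j + 1) m t = yA Γ j m (a t) := by
  simp [rawOf]

lemma yA_eq {j m : ℕ} (h1 : 1 ≤ m) (h2 : m < Γ.n (j + 1)) (b : Z3 → C3) :
    yA Γ j m b = ampY Γ j m b := by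
  rw [yA, if_neg (by omega), if_pos h2]

theorem isNet (hν : 0 < ν) {a0 : ℝ} (ha : GSol Γ ν a) (h0 : Adm Γ (a 0))
    (i0 : ampB Γ 0 (a 0) = (a0 : ℂ) • phi (Γ.M 0))
    (i1 : ampB Γ 1 (a 0) = ((a0 / (2 * (Γ.M 0 + 1)) : ℝ) : ℂ) • phi (Γ.M 1))
    (i2 : ampP Γ 1 (a 0) = ((a0 / (2 * (Γ.M 0 + 1)) / √2 : ℝ) : ℂ) • phi (Γ.M 1))
    (e0 : En Γ 0 (a 0) ≤ 100 * a0 ^ 2) (e1 : En Γ 1 (a 0) ≤ 100 * (a0 / (Γ.M 0 + 1)) ^ 2)
    (e2 : En Γ 2 (a 0) = 0) : IsNet Γ ν a0 (rawOf Γ ν a) := by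
  have H : ∀ t, 0 ≤ t → Adm Γ (a t) := fun t ht => ha.adm hν h0 ht
  have hB : ∀ j t, 0 ≤ t → HD ((rawOf Γ ν a).B j) (mk (box (Γ.M j)) fun h =>
      ⟪(Row.b j).e Γ, rhs Γ ν (a t) (pt Γ (.b j) 1 h)⟫_ℂ) t := fun j t ht =>
    hd_mk _ fun h _ => hd_inner ha _ _ ht
  have hP : ∀ j t, 0 ≤ t → HD ((rawOf Γ ν a).Cp (j + 1))
      (mk (box (Γ.M (j + 1) + Γ.M j)) fun h =>
        (rho Γ j : ℂ) * ⟪(Row.c j).e Γ, rhs Γ ν (a t) (pt Γ (.c j) 1 h)⟫_ℂ) t := fun j t ht =>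
    hd_mk _ fun h _ => HasDerivWithinAt.const_mul _ (hd_inner ha _ _ ht)
  exact
  { kap_lo := fun j => EB.kap_ge j
    kap_hi := fun j => by
      have l0 := lam_pos (Γ := Γ) j
      refine Real.sqrt_le_iff.mpr ⟨l0.le, ?_⟩
      have := mul_le_mul (cB_bounds (Γ := Γ) j).2 (cC_bounds j).2
        (le_trans (by positivity) (cC_bounds j).1) (by positivity)
      nlinarith only [this]
    suppB := fun j t => supp_mk _ _
    suppP := fun j t => supp_mk _ _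
    suppM := fun j t h hh =>
      (coeff_prm _ _ _).trans (supp_mk _ _ _ fun h' => hh (rxE_mem_box.mp h'))
    zeroP := fun t => rfl
    zeroM := fun t => map_zero (prm rxE)
    sym := fun j t ht => (H t ht).symB j
    dB_lo := fun j h => (dB_bounds hν j h).1
    dB_hi := fun j h => (dB_bounds hν j h).2
    dP_lo := fun j h => (dPr_bounds hν j h).1
    dP_hi := fun j h => (dPr_bounds hν j h).2
    dM_lo := fun j h => (dPr_bounds hν j _).1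
    dM_hi := fun j h => (dPr_bounds hν j _).2
    dPM := fun j => congrArg (dPr Γ ν j) (map_zero rxE).symm
    eqB0 := fun t ht => ⟨_, hB 0 t ht, eqB0_static hν (H t ht)⟩
    eqB := fun j t ht => by
      obtain ⟨e, r, h1, h2⟩ := eqB_static (ν := ν) (H t ht) j
      exact ⟨e, r, h1, h2 ▸ hB (j + 1) t ht⟩
    eqP := fun j t ht => by
      obtain ⟨e, r, h1, h2⟩ := eqP_static (ν := ν) (H t ht) j
      exact ⟨e, r, h1, h2 ▸ hP j t ht⟩
    eqM := fun j t ht => by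
      obtain ⟨e, r, h1, h2⟩ := eqM_static (ν := ν) (H t ht) j
      exact ⟨e, r, h1, h2 ▸ (hP j t ht).prm rxE⟩
    f1 := fun t => rfl
    fS := fun j t => by simp [rawOf]
    y0 := fun j t => by rw [y_eq, yA, if_pos rfl]
    ytop := fun j t => by
      have := Γ.n8 (j + 1)
      rw [y_eq, yA, if_neg (by omega), if_neg (lt_irrefl _), if_pos rfl]
      rfl
    yend := fun j t => by
      rw [y_eq, yA, if_neg (by omega), if_neg (by omega), if_neg (by omega)]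
    yE := fun j m t ht h1 h2 => by
      rw [y_eq, yA_eq h1 h2]
      exact (H t ht).ampY_le h1 h2
    c_lo := fun j m h1 h2 => (cY_bounds h1 h2).1
    c_hi := fun j m h1 h2 => (cY_bounds h1 h2).2
    d_lo := fun j m h1 h2 => mul_le_mul_of_nonneg_left (pow_le_pow_left₀ (lam_pos _).le
      (ax_y h1 h2 (pt_mem_Orb (Or.inl rfl) (zero_mem_box _))).1 2) hν.le
    d_hi := fun j m h1 h2 => by
      have h3 := pow_le_pow_left₀ (ax_nonneg _)
        (ax_y h1 h2 (pt_mem_Orb (Γ := Γ) (Or.inl rfl) (zero_mem_box _))).2.1 2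
      have h4 := mul_le_mul_of_nonneg_left h3 hν.le
      exact h4.trans (le_of_eq (by ring))
    eqY := fun j m t ht h1 h2 => by
      obtain ⟨S, b, q1, q2, q3, q4, q5⟩ := eqY_static (ν := ν) (H t ht) h1 h2
      have e : (rawOf Γ ν a).y (j + 1) m = fun t => ampY Γ j m (a t) :=
        funext fun t => by rw [y_eq, yA_eq h1 h2]
      refine ⟨S, b, ?_, by simpa only [y_eq] using q2, q3, q4, by simpa only [y_eq] using q5⟩
      rw [e]
      have := (hd_inner ha ((Row.y j m).e Γ) (pt Γ (.y j m) 1 0) ht).re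
      rw [q1] at this
      exact this
    nrE := fun i t ht => (H t ht).nrA_le i
    Emono := fun i t ht => (H t ht).En_mono i
    E0 := fun t ht => le_of_deriv_le (F := fun t => En Γ 0 (a t)) (G := fun _ => 100 * a0 ^ 2)
      le_rfl e0 (fun s hs => ⟨_, 0, ha.hd_En hν 0 hs.1, hasDerivWithinAt_const _ _ _,
        flux_zero hν (H s hs.1)⟩) t ⟨ht, le_rfl⟩
    E1 := e1
    E2 := e2
    eqE := fun i t ht => ⟨_, ha.hd_En hν (i + 1) ht, flux_le hν (H t ht) i⟩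
    initB0 := i0
    initB1 := i1
    initP := i2
    initM := by
      change prm rxE (ampP Γ 1 (a 0)) = _
      rw [i2, map_smul]
      congr 1
      ext h
      rw [coeff_prm, (sym_phi _).1]
    decay := ha.decay }

end NO

theorem net_of_isSol (Γ : Geo) : ∃ (S1 S2 : Set Z3) (h1 : ∀ k, -k ∈ S1 ↔ k ∈ S1)
    (h2 : ∀ k, -k ∈ S2 ↔ k ∈ S2), ∀ ν a0 : ℝ, 0 < ν → 0 < a0 → ∃ d0 : Z3 → C3,
      {k | d0 k ≠ 0}.Finite ∧ IsReal d0 ∧ (∀ k, G.PS 1 S1 S2 k (d0 k) = d0 k) ∧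
      ∀ a : ℝ → Z3 → C3, a 0 = d0 →
        (∀ T, @G.IsSol (G.pj (s := 1) (by norm_num) h1 h2) (G.lapS ν) a 0 T) →
        ∃ R, IsNet Γ ν a0 R := by
  refine ⟨SS Γ 1, SS Γ (-1), neg_mem_SS 1, neg_mem_SS (-1), fun ν a0 hν ha0 => ?_⟩
  obtain ⟨d, fin, H, i0, i1, i2, e0, e1, e2⟩ := exists_data Γ ha0
  refine ⟨d, fin, H.real, H.fix, fun a h0 ha => ⟨rawOf Γ ν a, ?_⟩⟩
  subst h0
  exact NO.isNet hν ha H i0 i1 i2 e0 e1 e2

end Pool.Agent.Work.MP_6bf1e5_an.Dec
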