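import Pool.Agent.Work.MP_6bf1e5_an.Dec.Upper

/-!
The next stage: numerical facts and the energy barriers.
-/

open Set Complex
open scoped InnerProductSpace ComplexConjugate
open Pool.Agent.Work.MP_6bf1e5_an.B (Z3 R3 box)

namespace Pool.Agent.Work.MP_6bf1e5_an.Dec

noncomputable section

namespace NextAux

lemma M_le_NN (n : ℕ) : (n + 1 : ℝ) ≤ NN n :=
  Real.le_sqrt_of_sq_le
    (pow_le_pow_right₀ (by linarith [(Nat.cast_nonneg n : (0 : ℝ) ≤ n)]) (by norm_num))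

lemma cpow {T c : ℝ} (hT : 10 ^ 100 ≤ T) (hc : c ≤ 10 ^ 100) {k l : ℕ} (h : k + 1 ≤ l) :
    c * T ^ k ≤ T ^ l := by
  have h1 : (1 : ℝ) ≤ T := le_trans (by norm_num) hT
  calc c * T ^ k ≤ T * T ^ k := by gcongr; linarith only [hT, hc]
    _ = T ^ (k + 1) := by ring
    _ ≤ T ^ l := pow_le_pow_right₀ h1 h

variable {Γ : Geo} {ν a0 : ℝ} {R : Raw} {j : ℕ} {t0 a tb t1 t : ℝ}

lemma Na_big (Γ : Geo) (j : ℕ) : Γ.T (j + 1) ^ 40 ≤ NN (Γ.M j) :=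
  (Γ.pow_le_M j (by norm_num)).trans (M_le_NN _)

lemma mb_big (Γ : Geo) (j : ℕ) : Γ.T (j + 1) ^ 40 ≤ Γ.M (j + 1) + 1 := by
  have h : (Γ.M j : ℝ) ≤ Γ.M (j + 1) := by exact_mod_cast Γ.M_mono j
  linarith [Γ.pow_le_M j (k := 40) (by norm_num)]

lemma Nb_big (Γ : Geo) (j : ℕ) : Γ.T (j + 1) ^ 40 ≤ NN (Γ.M (j + 1)) :=
  (mb_big Γ j).trans (M_le_NN _)

lemma lam_rr (N : IsNet Γ ν a0 R) (j : ℕ) (ha : 0 ≤ a) :
    Γ.lam j * NN (Γ.M j) * a ≤ 4 * R.rr Γ j a := by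
  have h := N.kap_lo j
  have := NN_pos (Γ.M j)
  unfold Raw.rr
  calc Γ.lam j * NN (Γ.M j) * a ≤ 4 * R.kap j * NN (Γ.M j) * a := by gcongr; linarith
    _ = _ := by ring

lemma rr_eq (N : IsNet Γ ν a0 R) (S : St Γ ν R j t0 a tb) (t : ℝ) :
    R.rr Γ (j + 1) (R.alf Γ j t / 2) = R.rho Γ j a t * R.rr Γ j a :=
  (div_mul_cancel₀ _ (S.rr_pos N).ne').symm

lemma DD_pos (N : IsNet Γ ν a0 R) (S : St Γ ν R j t0 a tb) : 0 < R.DD Γ j a := by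
  have := S.rr_pos N
  have := Γ.T_pos j
  unfold Raw.DD
  positivity

lemma a_le (hν : 0 < ν) (N : IsNet Γ ν a0 R) (S : St Γ ν R j t0 a tb) (H : Run Γ R j t0 a t1) :
    a ≤ 2000 * Γ.T j ^ 3 * (R.alf Γ j t1 / 2) := by
  have h1 := trigger hν N S H
  have h2 := (N.rr_ratio j).2
  have h3 := rr_eq N S t1
  have hp : 0 < R.alf Γ j t1 / 2 := half_pos (H.pos t1 ⟨H.le, le_rfl⟩)
  have hT := Γ.T_pos j
  have h4 : Γ.T j ^ 17 ≤ Γ.T (j + 1) ^ 17 := pow_le_pow_left₀ hT.le (Γ.Tmono j) _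
  have hr := S.rr_pos N
  have e1 : R.rr Γ j a = R.rr Γ j 1 * a := by unfold Raw.rr; ring
  have e2 : R.rr Γ (j + 1) (R.alf Γ j t1 / 2) = R.rr Γ (j + 1) 1 * (R.alf Γ j t1 / 2) := by
    unfold Raw.rr; ring
  have hu : 0 < R.rr Γ j 1 := by
    rw [e1] at hr
    exact (mul_pos_iff_of_pos_right S.a_pos).mp hr
  have h5 : Γ.T j ^ 17 / 1000 * R.rr Γ j a ≤
      2 * Γ.T j ^ 20 * R.rr Γ j 1 * (R.alf Γ j t1 / 2) :=
    calc Γ.T j ^ 17 / 1000 * R.rr Γ j a ≤ R.rho Γ j a t1 * R.rr Γ j a := by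
          gcongr; linarith only [h1, h4]
      _ = R.rr Γ (j + 1) 1 * (R.alf Γ j t1 / 2) := by rw [← h3, e2]
      _ ≤ _ := by gcongr
  rw [e1] at h5
  have h6 : 0 < Γ.T j ^ 17 / 1000 * R.rr Γ j 1 := by positivity
  refine le_of_mul_le_mul_left ?_ h6
  calc Γ.T j ^ 17 / 1000 * R.rr Γ j 1 * a = Γ.T j ^ 17 / 1000 * (R.rr Γ j 1 * a) := by ring
    _ ≤ _ := h5
    _ = _ := by ring

lemma DD_le (hν : 0 < ν) (N : IsNet Γ ν a0 R) (S : St Γ ν R j t0 a tb) (H : Run Γ R j t0 a t1) :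
    2 * R.DD Γ (j + 1) (R.alf Γ j t1 / 2) ≤ R.DD Γ j a := by
  have h1 := trigger hν N S H
  have hr := S.rr_pos N
  have hT := Γ.T_pos j
  have hT' := Γ.T_pos (j + 1)
  have h2 : (1024000 : ℝ) * Γ.T (j + 1) ^ 0 ≤ Γ.T (j + 1) ^ 17 :=
    cpow (Γ.Tbig _) (by norm_num) (by norm_num)
  have h3 : 1024 ≤ R.rho Γ j a t1 := by linarith
  have h4 : Γ.T (j + 1) ^ 9 ≤ (2 * Γ.T j) ^ 9 := pow_le_pow_left₀ hT'.le (Γ.Tdbl j) _
  unfold Raw.DD
  rw [rr_eq N S t1]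
  calc 2 * (100 * Γ.T (j + 1) ^ 9 / (R.rho Γ j a t1 * R.rr Γ j a))
      ≤ 2 * (100 * (2 * Γ.T j) ^ 9 / (1024 * R.rr Γ j a)) := by gcongr
    _ = _ := by field_simp; ring

lemma K1 (hν : 0 < ν) (N : IsNet Γ ν a0 R) (S : St Γ ν R j t0 a tb) (H : Run Γ R j t0 a t1) :
    Γ.T (j + 1) ^ 100 * (ν * Γ.lam (j + 1 + 1) ^ 2) ≤ R.rr Γ (j + 1) (R.alf Γ j t1 / 2) := by
  have h1 := trigger hν N S H
  have hr := S.rr_pos N
  have hT := Γ.T_pos j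
  have hT' := Γ.T_pos (j + 1)
  have hl := Γ.lam_pos' (j + 1)
  have h4 : Γ.T (j + 1) ^ 99 ≤ (2 * Γ.T j) ^ 99 := pow_le_pow_left₀ hT'.le (Γ.Tdbl j) _
  have h5 : 1000 * 2 ^ 99 * Γ.T j ^ 99 ≤ Γ.T j ^ 100 := cpow (Γ.Tbig _) (by norm_num) le_rfl
  have h6 : 1000 * Γ.T (j + 1) ^ 99 ≤ Γ.T j ^ 100 := by rw [mul_pow] at h4; linarith only [h4, h5]
  rw [rr_eq N S t1, Γ.lam_succ' (j + 1)]
  calc Γ.T (j + 1) ^ 100 * (ν * (Γ.T (j + 1) ^ 8 * Γ.lam (j + 1)) ^ 2)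
      = Γ.T (j + 1) ^ 17 / 1000 * (1000 * Γ.T (j + 1) ^ 99 * (ν * Γ.lam (j + 1) ^ 2)) := by ring
    _ ≤ Γ.T (j + 1) ^ 17 / 1000 * (Γ.T j ^ 100 * (ν * Γ.lam (j + 1) ^ 2)) := by gcongr
    _ ≤ R.rho Γ j a t1 * R.rr Γ j a :=
      mul_le_mul h1 S.K1 (by positivity) ((by positivity : (0 : ℝ) ≤ _).trans h1)

lemma K2 (hν : 0 < ν) (N : IsNet Γ ν a0 R) (S : St Γ ν R j t0 a tb) (H : Run Γ R j t0 a t1) :
    R.rr Γ (j + 1) (R.alf Γ j t1 / 2) ^ 3 ≤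
      ((Γ.M (j + 1) : ℝ) + 1) * (ν * Γ.lam (j + 1 + 1) ^ 2) ^ 3 := by
  have h1 := H.rhole t1 ⟨H.le, le_rfl⟩
  have h0 := (H.hd_rho N S ⟨H.le, le_rfl⟩).1
  have hr := S.rr_pos N
  have hT := Γ.T_pos j
  have hT' := Γ.T_pos (j + 1)
  have hl := Γ.lam_pos' (j + 1)
  have h4 : Γ.T (j + 1) ^ 6 ≤ (2 * Γ.T j) ^ 6 := pow_le_pow_left₀ hT'.le (Γ.Tdbl j) _
  have h5 : 4 * 2 ^ 6 * Γ.T j ^ 6 ≤ Γ.T j ^ 8 := cpow (Γ.Tbig _) (by norm_num) (by norm_num)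
  have h6 : Γ.T (j + 1) ^ 6 ≤ Γ.T j ^ 8 / 4 := by rw [mul_pow] at h4; linarith
  have h7 : Γ.T (j + 1) ^ 6 * ((Γ.M j : ℝ) + 1) ≤ (Γ.M (j + 1) : ℝ) + 1 :=
    le_trans (by gcongr) (Γ.Llo j)
  rw [rr_eq N S t1, Γ.lam_succ' (j + 1), mul_pow]
  calc R.rho Γ j a t1 ^ 3 * R.rr Γ j a ^ 3
      ≤ (Γ.T (j + 1) ^ 18) ^ 3 * (((Γ.M j : ℝ) + 1) * (ν * Γ.lam (j + 1) ^ 2) ^ 3) :=
        mul_le_mul (pow_le_pow_left₀ h0.le h1 _) S.K2 (by positivity) (by positivity)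
    _ = Γ.T (j + 1) ^ 6 * ((Γ.M j : ℝ) + 1) *
        (ν * (Γ.T (j + 1) ^ 8 * Γ.lam (j + 1)) ^ 2) ^ 3 := by ring
    _ ≤ _ := by gcongr

/-- The barrier step for an energy. -/
lemma E_barrier (hν : 0 < ν) (N : IsNet Γ ν a0 R) (i : ℕ) {u v : ℝ} (hu : 0 ≤ u) {β : ℝ → ℝ}
    (h0 : R.E (i + 1) u ≤ β u ^ 2)
    (hβ : ∀ t ∈ Icc u v, 0 < β t ∧ ∃ β', HD β β' t ∧ (R.E (i + 1) t = β t ^ 2 →
      10 ^ 4 * Γ.lam i * (R.nr i t ^ 2 * β t + NN (Γ.M i) * ‖R.B i t‖ * R.nr (i + 1) t ^ 2) ≤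
        2 * β t * β')) :
    ∀ t ∈ Icc u v, R.E (i + 1) t ≤ β t ^ 2 := by
  refine barrier (F := R.E (i + 1)) (G := fun t => β t ^ 2) hu h0 fun t ht => ?_
  obtain ⟨D, h1, h2⟩ := N.eqE i t (hu.trans ht.1)
  obtain ⟨hp, β', h3, h4⟩ := hβ t ht
  refine ⟨D, 2 * β t * β', h1, by simpa using h3.fun_pow 2, fun e => ?_⟩
  have e' : R.E (i + 1) t = β t ^ 2 := e
  have h5 := h4 e'
  rw [e', Real.sqrt_sq hp.le] at h2
  have := Γ.lam_pos' i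
  have : 0 < ν * Γ.lam i ^ 2 * β t ^ 2 := by positivity
  linarith

lemma num1 {l N a r T x b D : ℝ} (hT : 10 ^ 100 ≤ T) (hN : T ^ 40 ≤ N) (ha : 0 < a) (hr : 0 < r)
    (hl : 0 < l) (h : l * N * a ≤ 4 * r) (hx : 0 < x) (hb : 1000 * x ≤ b) (hD : r / 2 * x ≤ D) :
    10 ^ 4 * l * (4 * (T * a) ^ 2 * b + N * (2 * a) * (3 * x ^ 2)) ≤
      2 * b * (a / T ^ 5 * (r / (100 * T ^ 9)) + 1000 * D) := by
  have T0 : 0 < T := lt_of_lt_of_le (by positivity) hT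
  have b0 : 0 < b := by linarith only [hx, hb]
  have h1 : 8 * 10 ^ 6 * T ^ 16 ≤ T ^ 40 := cpow hT (by norm_num) (by norm_num)
  have h2 : 8 * 10 ^ 6 * T ^ 16 * (l * a) ≤ 4 * r := by
    refine le_trans ?_ h
    calc 8 * 10 ^ 6 * T ^ 16 * (l * a) ≤ N * (l * a) := by gcongr; linarith only [hN, h1]
      _ = _ := by ring
  have h3 : 10 ^ 4 * l * (4 * (T * a) ^ 2 * b) ≤ 2 * b * (a / T ^ 5 * (r / (100 * T ^ 9))) := by
    have : 10 ^ 4 * l * (4 * (T * a) ^ 2 * b) =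
        (8 * 10 ^ 6 * T ^ 16 * (l * a)) * (a * b / (200 * T ^ 14)) := by field_simp; ring
    rw [this]
    calc _ ≤ 4 * r * (a * b / (200 * T ^ 14)) := by gcongr
      _ = _ := by field_simp; ring
  have h4 : 10 ^ 4 * l * (N * (2 * a) * (3 * x ^ 2)) ≤ 2 * b * (1000 * D) :=
    calc 10 ^ 4 * l * (N * (2 * a) * (3 * x ^ 2)) = 6 * 10 ^ 4 * x ^ 2 * (l * N * a) := by ring
      _ ≤ 6 * 10 ^ 4 * x ^ 2 * (4 * r) := by gcongr
      _ ≤ 10 ^ 6 * (r * x ^ 2) := by linarith only [mul_pos hr (pow_pos hx 2)]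
      _ = 2 * (1000 * x) * (1000 * (r / 2 * x)) := by ring
      _ ≤ _ := by gcongr
  linarith only [h3, h4]

lemma nrb_sq (H : Run Γ R j t0 a t1) (ht : t ∈ Icc t0 t1) :
    R.nr (j + 1) t ^ 2 ≤ 3 * (R.alf Γ j t / 2) ^ 2 := by
  have := H.gb t ht
  linarith [sq_nonneg (R.alf Γ j t)]

lemma nra_le (N : IsNet Γ ν a0 R) (S : St Γ ν R j t0 a tb)
    (ht : t ∈ Icc t0 (t0 + 2 * R.DD Γ j a)) : R.nr j t ^ 2 ≤ 4 * (Γ.T j * a) ^ 2 := by
  linarith [N.nrE j t (S.t0_nonneg.trans ht.1), S.horE t ht]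

/-- The energy beyond level `j` at the end of the stage. -/
lemma Eb_t1 (hν : 0 < ν) (N : IsNet Γ ν a0 R) (S : St Γ ν R j t0 a tb) (H : Run Γ R j t0 a t1) :
    R.E (j + 1) t1 ≤ (1001 * (R.alf Γ j t1 / 2)) ^ 2 := by
  have hD := DD_pos N S
  have hT := Γ.T_pos j
  have ha := S.a_pos
  have hr := S.rr_pos N
  have key := E_barrier hν N j (u := t0) (v := t1) S.t0_nonneg
    (β := fun t => a / Γ.T j ^ 5 * (1 + (t - t0) / R.DD Γ j a) + 1000 * (R.alf Γ j t / 2))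
    (by
      have hp := H.pos t0 ⟨le_rfl, H.le⟩
      refine S.Eb.trans (pow_le_pow_left₀ (by positivity) ?_ _)
      simp only [sub_self, zero_div, add_zero, mul_one]
      linarith)
    (fun t ht => by
      have hp := H.pos t ht
      have h0 : 0 ≤ t - t0 := by linarith [ht.1]
      obtain ⟨D, h1, h2, -⟩ := H.grow t ht
      refine ⟨by positivity, a / Γ.T j ^ 5 * (1 / R.DD Γ j a) + 1000 * (D / 2), ?_, fun _ => ?_⟩
      · exact ((((hasDerivWithinAt_id t _).sub_const t0).div_const _).const_add 1 |>.const_mul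
          _).add ((h1.div_const 2).const_mul _)
      · have hm : t ∈ Icc t0 (t0 + 2 * R.DD Γ j a) := ⟨ht.1, by linarith only [hD, ht.2, H.le']⟩
        have hB : ‖R.B j t‖ ≤ 2 * a := by
          have h3 := H.coneA t ht
          have h4 := norm_sub_norm_le (R.B j t) ((a : ℂ) • phi (Γ.M j))
          rw [norm_smul, norm_phi, Complex.norm_real, Real.norm_of_nonneg ha.le] at h4
          linarith only [ha, h3, h4]
        have hl := Γ.lam_pos' j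
        have hN := NN_pos (Γ.M j)
        have e : 1 / R.DD Γ j a = R.rr Γ j a / (100 * Γ.T j ^ 9) := by
          unfold Raw.DD; field_simp
        rw [e]
        refine le_trans ?_ (num1 (Γ.Tbig j) ((pow_le_pow_left₀ hT.le (Γ.Tmono j) _).trans
          (Na_big Γ j)) ha hr hl (lam_rr N j ha.le) (half_pos hp) ?_ (by linarith only [h2]))
        · gcongr
          · exact nra_le N S hm
          · exact nrb_sq H ht
        · have : 0 ≤ a / Γ.T j ^ 5 * (1 + (t - t0) / R.DD Γ j a) := by positivity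
          linarith only [this])
    t1 ⟨H.le, le_rfl⟩
  have hp := H.pos t1 ⟨H.le, le_rfl⟩
  have h0 : 0 ≤ t1 - t0 := by linarith only [H.le]
  refine key.trans (pow_le_pow_left₀ (by positivity) ?_ _)
  have h1 : (t1 - t0) / R.DD Γ j a ≤ 1 := (div_le_one hD).mpr (by linarith only [H.le'])
  have h2 := a_le hν N S H
  have h3 : 4000 * Γ.T j ^ 3 ≤ Γ.T j ^ 5 := cpow (Γ.Tbig _) (by norm_num) (by norm_num)
  have h4 : a / Γ.T j ^ 5 ≤ R.alf Γ j t1 / 2 / 2 := by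
    rw [div_le_iff₀ (by positivity)]
    calc a ≤ _ := h2
      _ = R.alf Γ j t1 / 2 / 2 * (4000 * Γ.T j ^ 3) := by ring
      _ ≤ _ := by gcongr
  have h5 : a / Γ.T j ^ 5 * (1 + (t1 - t0) / R.DD Γ j a) ≤ R.alf Γ j t1 / 2 / 2 * (1 + 1) := by
    gcongr
  linarith only [h5]

lemma num2 {l N a r Ta T x b ρ : ℝ} (hT : 10 ^ 100 ≤ T) (hTa : 0 < Ta) (hT' : Ta ≤ T)
    (hN : T ^ 40 ≤ N) (ha : 0 < a) (hr : 0 < r) (hl : 0 < l) (h : l * N * a ≤ 4 * r) (hx : 0 < x)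
    (hax : a ≤ 2000 * Ta ^ 3 * x) (b0 : 0 < b) (hb : b ≤ 3006 * x) (hρ : T ^ 17 / 1000 ≤ ρ) :
    10 ^ 4 * l * (4 * (Ta * a) ^ 2 * b + N * (2 * (Ta * a)) * (4 * b ^ 2)) ≤
      2 * b * (1002 * x * (ρ * r / (100 * T ^ 9))) := by
  have T0 : 0 < T := lt_of_lt_of_le (by positivity) hT
  have N0 : 0 < N := lt_of_lt_of_le (by positivity) hN
  have h1 : 32 * 10 ^ 7 * T ^ 5 ≤ T ^ 40 := cpow hT (by norm_num) (by norm_num)
  have h1' : Ta ^ 5 ≤ T ^ 5 := pow_le_pow_left₀ hTa.le hT' _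
  have h2 : 32 * 10 ^ 7 * Ta ^ 5 * (l * a) ≤ 4 * r := by
    refine le_trans ?_ h
    calc 32 * 10 ^ 7 * Ta ^ 5 * (l * a) ≤ N * (l * a) := by gcongr; linarith only [hN, h1, h1']
      _ = _ := by ring
  have h3 : 10 ^ 4 * l * (4 * (Ta * a) ^ 2 * b) ≤ r * x * b :=
    calc 10 ^ 4 * l * (4 * (Ta * a) ^ 2 * b) = 4 * 10 ^ 4 * Ta ^ 2 * (l * a) * b * a := by ring
      _ ≤ 4 * 10 ^ 4 * Ta ^ 2 * (l * a) * b * (2000 * Ta ^ 3 * x) := by gcongr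
      _ = 32 * 10 ^ 7 * Ta ^ 5 * (l * a) * (x * b / 4) := by ring
      _ ≤ 4 * r * (x * b / 4) := by gcongr
      _ = _ := by ring
  have h4 : 10 ^ 4 * l * (N * (2 * (Ta * a)) * (4 * b ^ 2)) ≤ 10 ^ 9 * T * (r * x * b) :=
    calc 10 ^ 4 * l * (N * (2 * (Ta * a)) * (4 * b ^ 2))
        = 8 * 10 ^ 4 * Ta * (l * N * a) * b * b := by ring
      _ ≤ 8 * 10 ^ 4 * T * (4 * r) * b * (3006 * x) := by gcongr
      _ = 961920000 * T * (r * x * b) := by ring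
      _ ≤ _ := by gcongr; norm_num
  have h5 : 10 ^ 11 * T ^ 1 ≤ T ^ 8 := cpow hT (by norm_num) (by norm_num)
  have h6 : 1 + 10 ^ 9 * T ≤ T ^ 8 / 50 := by
    have : (1 : ℝ) ≤ T := le_trans (by norm_num) hT
    linarith only [hT, h5]
  calc _ ≤ (1 + 10 ^ 9 * T) * (r * x * b) := by linarith only [h3, h4]
    _ ≤ T ^ 8 / 50 * (r * x * b) := by gcongr
    _ = 2 * b * (1000 * x * (T ^ 17 / 1000 * r / (100 * T ^ 9))) := by field_simp; ring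
    _ ≤ _ := by gcongr; norm_num

/-- The energy beyond level `j` on the horizon of the next stage. -/
lemma Eb_hor (hν : 0 < ν) (N : IsNet Γ ν a0 R) (S : St Γ ν R j t0 a tb) (H : Run Γ R j t0 a t1) :
    ∀ t ∈ Icc t1 (t1 + 2 * R.DD Γ (j + 1) (R.alf Γ j t1 / 2)),
      R.E (j + 1) t ≤ (3006 * (R.alf Γ j t1 / 2)) ^ 2 := by
  have hT := Γ.T_pos j
  have hT' := Γ.T_pos (j + 1)
  have ha := S.a_pos
  have hr := S.rr_pos N
  have hp := half_pos (H.pos t1 ⟨H.le, le_rfl⟩)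
  have hρ := (H.hd_rho N S ⟨H.le, le_rfl⟩).1
  have h1 := DD_le hν N S H
  have e : 1 / R.DD Γ (j + 1) (R.alf Γ j t1 / 2) =
      R.rho Γ j a t1 * R.rr Γ j a / (100 * Γ.T (j + 1) ^ 9) := by
    unfold Raw.DD; rw [rr_eq N S t1]; field_simp
  have hD : 0 < R.DD Γ (j + 1) (R.alf Γ j t1 / 2) := by
    unfold Raw.DD; rw [rr_eq N S t1]; positivity
  set D' := R.DD Γ (j + 1) (R.alf Γ j t1 / 2) with hD'
  set x := R.alf Γ j t1 / 2 with hx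
  have up : ∀ t ∈ Icc t1 (t1 + 2 * D'), 1002 * x * (1 + (t - t1) / D') ≤ 3006 * x := fun t ht => by
    have : (t - t1) / D' ≤ 2 := (div_le_iff₀ hD).mpr (by linarith only [ht.2])
    calc _ ≤ 1002 * x * (1 + 2) := by gcongr
      _ = _ := by ring
  have t10 : 0 ≤ t1 := S.t0_nonneg.trans H.le
  have key := E_barrier hν N j (u := t1) (v := t1 + 2 * D') t10
    (β := fun t => 1002 * x * (1 + (t - t1) / D'))
    (by
      refine (Eb_t1 hν N S H).trans (pow_le_pow_left₀ (by positivity) ?_ _)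
      simp only [sub_self, zero_div, add_zero, mul_one]
      linarith only [hp, hx])
    (fun t ht => by
      have h0 : 0 ≤ t - t1 := by linarith only [ht.1]
      refine ⟨by (clear * - hD hp h0; positivity), 1002 * x * (1 / D'), ?_, fun eq => ?_⟩
      · exact (((hasDerivWithinAt_id t _).sub_const t1).div_const _).const_add 1 |>.const_mul _
      · have hm : t ∈ Icc t0 (t0 + 2 * R.DD Γ j a) :=
          ⟨H.le.trans ht.1, by linarith only [h1, ht.2, H.le']⟩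
        have h2 := nra_le N S hm
        have hB : ‖R.B j t‖ ≤ 2 * (Γ.T j * a) :=
          (le_nr3_1 _ _ _).trans (abs_le_of_sq_le_sq' (by unfold Raw.nr at h2; linarith only [h2])
            (by positivity)).2
        have h3 : R.nr (j + 1) t ^ 2 ≤ 4 * (1002 * x * (1 + (t - t1) / D')) ^ 2 := by
          rw [← eq]; exact N.nrE _ t (t10.trans ht.1)
        have hl := Γ.lam_pos' j
        have hN := NN_pos (Γ.M j)
        rw [e]
        refine le_trans ?_ (num2 (Γ.Tbig (j + 1)) hT (Γ.Tmono j) (Na_big Γ j) ha hr hl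
          (lam_rr N j ha.le) hp (a_le hν N S H) (by (clear * - hD hp h0; positivity)) (up t ht) (trigger hν N S H))
        (clear * - hT ha hD hp h0 h2 hB h3 hl hN; gcongr))
  intro t ht
  have h0 : 0 ≤ t - t1 := by linarith only [ht.1]
  exact (key t ht).trans (pow_le_pow_left₀ (by (clear * - hD hp h0; positivity)) (up t ht) _)

lemma num3 {l N m r T x D : ℝ} (hT : 10 ^ 100 ≤ T) (hN : T ^ 40 ≤ N) (hm : T ^ 40 ≤ m)
    (hr : 0 < r) (hl : 0 < l) (hx : 0 < x) (h : l * N * x ≤ 4 * (T ^ 18 * r))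
    (hD : r / 2 * x ≤ D) :
    10 ^ 4 * l * (3 * x ^ 2 * (x / T ^ 6) + N * (2 * x) * (x / m) ^ 2) ≤
      2 * (x / T ^ 6) * (D / T ^ 6) := by
  have T0 : 0 < T := lt_of_lt_of_le (by positivity) hT
  have T1 : (1 : ℝ) ≤ T := le_trans (by norm_num) hT
  have m0 : 0 < m := lt_of_lt_of_le (by positivity) hm
  have h1 : 24 * 10 ^ 4 * T ^ 24 ≤ T ^ 40 := cpow hT (by norm_num) (by norm_num)
  have h2 : 24 * 10 ^ 4 * T ^ 24 * (l * x) ≤ 4 * (T ^ 18 * r) := by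
    refine le_trans ?_ h
    calc 24 * 10 ^ 4 * T ^ 24 * (l * x) ≤ N * (l * x) := by gcongr; linarith only [hN, h1]
      _ = _ := by ring
  have h3 : 10 ^ 4 * l * (3 * x ^ 2 * (x / T ^ 6)) ≤ r * x ^ 2 / (2 * T ^ 12) :=
    calc 10 ^ 4 * l * (3 * x ^ 2 * (x / T ^ 6))
        = 24 * 10 ^ 4 * T ^ 24 * (l * x) * (x ^ 2 / (8 * T ^ 30)) := by field_simp; ring
      _ ≤ 4 * (T ^ 18 * r) * (x ^ 2 / (8 * T ^ 30)) := by gcongr
      _ = _ := by field_simp; ring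
  have h4 : 16 * 10 ^ 4 * T ^ 30 ≤ m ^ 2 := by
    have h5 : 16 * 10 ^ 4 * T ^ 30 ≤ T ^ 80 := cpow hT (by norm_num) (by norm_num)
    calc _ ≤ (T ^ 40) ^ 2 := by rw [← pow_mul]; exact h5
      _ ≤ _ := by gcongr
  have h6 : 10 ^ 4 * l * (N * (2 * x) * (x / m) ^ 2) ≤ r * x ^ 2 / (2 * T ^ 12) :=
    calc 10 ^ 4 * l * (N * (2 * x) * (x / m) ^ 2)
        = l * N * x * (2 * 10 ^ 4 * x ^ 2 / m ^ 2) := by field_simp
      _ ≤ 4 * (T ^ 18 * r) * (2 * 10 ^ 4 * x ^ 2 / (16 * 10 ^ 4 * T ^ 30)) := by gcongr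
      _ = _ := by field_simp; ring
  calc _ ≤ r * x ^ 2 / (2 * T ^ 12) + r * x ^ 2 / (2 * T ^ 12) := by linarith only [h3, h6]
    _ = 2 * (x / T ^ 6) * (r / 2 * x / T ^ 6) := by field_simp; ring
    _ ≤ _ := by gcongr

/-- The energy beyond level `j + 1` at the end of the stage. -/
lemma Ec_t1 (hν : 0 < ν) (N : IsNet Γ ν a0 R) (S : St Γ ν R j t0 a tb) (H : Run Γ R j t0 a t1) :
    R.E (j + 1 + 1) t1 ≤ (R.alf Γ j t1 / 2 / Γ.T (j + 1) ^ 5) ^ 2 := by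
  have hT := Γ.T_pos (j + 1)
  have hr := S.rr_pos N
  have key := E_barrier hν N (j + 1) (u := t0) (v := t1) S.t0_nonneg
    (β := fun t => R.alf Γ j t / 2 / Γ.T (j + 1) ^ 6) (pre hν N S).2.2.2
    (fun t ht => by
      have hp := half_pos (H.pos t ht)
      obtain ⟨D, h1, h2, -⟩ := H.grow t ht
      refine ⟨by positivity, D / 2 / Γ.T (j + 1) ^ 6, (h1.div_const 2).div_const _, fun _ => ?_⟩
      have hB : ‖R.B (j + 1) t‖ ≤ 2 * (R.alf Γ j t / 2) := by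
        have h3 := H.nr_le ht
        have h4 : ‖R.B (j + 1) t‖ ≤ R.nr (j + 1) t := le_nr3_1 _ _ _
        linarith only [hp, h3, h4]
      have hl := Γ.lam_pos' (j + 1)
      have hN := NN_pos (Γ.M (j + 1))
      have h5 := lam_rr N (j + 1) hp.le
      rw [rr_eq N S t] at h5
      have h6 : R.rho Γ j a t * R.rr Γ j a ≤ Γ.T (j + 1) ^ 18 * R.rr Γ j a := by
        gcongr; exact H.rhole t ht
      have h7 : 0 ≤ R.nr (j + 1 + 1) t := nr3_nonneg _ _ _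
      refine le_trans ?_ (num3 (Γ.Tbig (j + 1)) (Nb_big Γ j) (mb_big Γ j) hr hl hp (by linarith only [h5, h6])
        (by linarith only [h2]))
      gcongr
      · exact nrb_sq H ht
      · exact H.small t ht)
    t1 ⟨H.le, le_rfl⟩
  have hp := half_pos (H.pos t1 ⟨H.le, le_rfl⟩)
  refine key.trans (pow_le_pow_left₀ (by positivity) ?_ _)
  have T1 : (1 : ℝ) ≤ Γ.T (j + 1) := le_trans (by norm_num) (Γ.Tbig _)
  gcongr
  norm_num

end NextAux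

end

end Pool.Agent.Work.MP_6bf1e5_an.Dec
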