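import Pool.Agent.Work.MP_6bf1e5_an.Dec.Phase2B

/-!
Convergence to the unstable direction.
-/

open Set Complex
open scoped InnerProductSpace ComplexConjugate
open Pool.Agent.Work.MP_6bf1e5_an.B (Z3 R3 box)

namespace Pool.Agent.Work.MP_6bf1e5_an.Dec

noncomputable section

variable {Γ : Geo} {ν a0 : ℝ} {R : Raw} {j : ℕ} {t0 a tb t1 : ℝ}

namespace P2

variable {σ t : ℝ}

lemma WW_le (N : IsNet Γ ν a0 R) (S : St Γ ν R j t0 a tb) (H : Run Γ R j t0 a t1)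
    (K : Seeded Γ ν R j t0 a t1 σ) (ht : t ∈ Icc t0 t1) :
    R.WW Γ ν j a t0 t ≤ Γ.T (j + 1) ^ 6 * R.WW Γ ν j a t0 σ := by
  have hT := Γ.Tbig (j + 1)
  have T0 := pos hT
  have Nb := NN_pos (Γ.M (j + 1))
  obtain ⟨c, c1, -, hc⟩ := S.xx_eq N
  have c0 : 0 ≤ c := le_trans (by positivity) c1
  have x0 := (H.hd_xx N S ⟨le_rfl, H.le⟩).1
  have x1 := (H.hd_xx N S ht).1
  have x2 := (H.hd_xx N S K.mem).1
  have h1 : R.xx Γ j a t ≤ Γ.T (j + 1) ^ 3 * R.xx Γ j a σ := by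
    rw [hc, hc, K.level]
    calc _ ≤ c * Γ.T (j + 1) ^ 18 := mul_le_mul_of_nonneg_left (H.rhole t ht) c0
      _ = _ := by ring
  have h2 : R.xx Γ j a t ≤ Γ.T (j + 1) ^ 6 * R.xx Γ j a σ :=
    h1.trans (mul_le_mul_of_nonneg_right (pw_le hT (by norm_num)) x2.le)
  unfold Raw.WW
  calc _ ≤ 10 ^ 8 * ((Γ.T (j + 1) ^ 3 * R.xx Γ j a σ) ^ 2 +
        (R.rr Γ j a / (ν * Γ.lam (j + 1) ^ 2)) ^ 2 * R.xx Γ j a t0 *
          (Γ.T (j + 1) ^ 6 * R.xx Γ j a σ)) := by gcongr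
    _ = _ := by ring

/-- The seed is negligible after the first phase. -/
lemma fbound (hν : 0 < ν) (N : IsNet Γ ν a0 R) (S : St Γ ν R j t0 a tb) (H : Run Γ R j t0 a t1)
    (K : Seeded Γ ν R j t0 a t1 σ) (ht : t ∈ Icc σ t1)
    (hA : R.alf Γ (j + 1) σ ≤ R.alf Γ (j + 1) t)
    (h1 : ∀ s ∈ Icc σ t, R.nr (j + 2) s ≤ Γ.T (j + 1) ^ 2 * R.alf Γ (j + 1) t) :
    |R.f (j + 2) t| < R.rr Γ j a / Γ.T (j + 1) ^ 50 * R.alf Γ (j + 1) t := by
  have hT := Γ.Tbig (j + 1)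
  have T0 := pos hT
  have r0 := S.rr_pos N
  have l0 := Γ.lam_pos' (j + 2)
  have lb0 : 0 < 10 ^ 4 * Γ.lam (j + 2) := by positivity
  have σ0 : 0 ≤ σ := S.t0_nonneg.trans K.mem.1
  have sub : ∀ s ∈ Icc σ t, s ∈ Icc t0 t1 := fun s hs => ⟨K.mem.1.trans hs.1, hs.2.trans ht.2⟩
  have ht' := sub t ⟨ht.1, le_rfl⟩
  have A0 : 0 < R.alf Γ (j + 1) t := (lt_of_lt_of_le (by positivity) K.lo2).trans_le hA
  have n8 := Γ.n8 (j + 1)
  have W1 : ∀ s ∈ Icc t0 t1, 2 * R.WW Γ ν j a t0 s ≤ 2 * 1 / Γ.T (j + 1) ^ 100 := fun s hs => by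
    have := (H.hd_WW hν N S hs).2.1.trans (exp_neg_le hT)
    rw [mul_div_assoc]
    linarith only [this]
  have W2 : 2 * 1 / Γ.T (j + 1) ^ 100 ≤ 1 := by
    simpa using div_pw_le hT (C := 2) (D := 1) (X := 1) zero_le_one one_pos (by norm_num) (k := 0)
      (l := 100) (by norm_num)
  have hZ : 10 ^ 4 * Γ.lam (j + 2) * (Γ.T (j + 1) ^ 2 * R.alf Γ (j + 1) t) ≤
      R.rr Γ j a / 2 / 10 := by
    have k3 := nc_small' N S H ht'
    have k4 := A_le N S H ht'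
    have k5 := div_pw_le hT (C := 2) (D := 1 / 20) (X := R.rr Γ j a) r0.le (by norm_num)
      (by norm_num) (k := 0) (l := 98) (by norm_num)
    calc _ ≤ 10 ^ 4 * Γ.lam (j + 2) * (Γ.T (j + 1) ^ 2 * (2 * R.nr (j + 2) t)) := by gcongr
      _ = 2 * Γ.T (j + 1) ^ 2 * (10 ^ 4 * Γ.lam (j + 2) * R.nr (j + 2) t) := by ring
      _ ≤ 2 * Γ.T (j + 1) ^ 2 * (R.rr Γ j a / Γ.T (j + 1) ^ 100) := by gcongr
      _ = 2 * R.rr Γ j a / Γ.T (j + 1) ^ 98 := by field_simp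
      _ ≤ _ := k5
      _ = _ := by ring
  have key := chain_upper (n := Γ.n (j + 1)) n8 (y := R.y (j + 1)) (c := R.c (j + 1))
    (d := R.d (j + 1)) (lb := 10 ^ 4 * Γ.lam (j + 2)) (q := R.rr Γ j a / 2) (dlo := 0) (t1 := σ)
    (t2 := t) (W := fun s => 2 * R.WW Γ ν j a t0 s)
    (Z := fun _ => Γ.T (j + 1) ^ 2 * R.alf Γ (j + 1) t) (Sb := fun s => 2 * R.nr (j + 1) s ^ 2)
    σ0 lb0 (half_pos r0) le_rfl
    (fun m m1 m2 => ⟨le_trans (by have := Γ.lam_pos' j; positivity) (N.c_lo j m m1 m2.le),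
      N.c_hi j m m1 m2.le⟩)
    (fun m m1 m2 => le_trans (by positivity) (N.d_lo j m m1 m2)) (N.y0 j) (N.yend j)
    (fun m s hs m1 m2 => N.chain_eq j m (σ0.trans hs.1) m1 m2)
    (fun s hs => by
      have hs' := sub s hs
      obtain ⟨w0, -, -, -, -, D, hD, hD'⟩ := H.hd_WW hν N S hs'
      refine ⟨by positivity, (W1 s hs').trans W2, ?_, _, hD.const_mul 2, ?_, ?_⟩
      · have x0 := (H.hd_xx N S ⟨le_rfl, H.le⟩).1
        have x1 := (H.hd_xx N S hs').1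
        have e : 10 ^ 4 * Γ.lam (j + 2) * (R.alf Γ j s / 2) = R.xx Γ j a s * R.rr Γ j a := by
          rw [Raw.xx, div_mul_cancel₀ _ r0.ne']
        have e1 : 10 ^ 8 * R.xx Γ j a s ^ 2 ≤ R.WW Γ ν j a t0 s := by
          unfold Raw.WW
          gcongr
          exact le_add_of_nonneg_right (by (clear * - x0 x1; positivity))
        have e2 := H.nr_le hs'
        have e3 := nr_nonneg R (j + 1) s
        have e4 := H.pos s hs'
        calc (10 ^ 4 * Γ.lam (j + 2)) ^ 2 * (2 * R.nr (j + 1) s ^ 2)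
            ≤ (10 ^ 4 * Γ.lam (j + 2)) ^ 2 * (50 * (R.alf Γ j s / 2) ^ 2) := by
              gcongr ?_ * ?_
              nlinarith only [e2, e3]
          _ = 50 * (10 ^ 4 * Γ.lam (j + 2) * (R.alf Γ j s / 2)) ^ 2 := by ring
          _ = (R.rr Γ j a / 2) ^ 2 * (2 * (10 ^ 8 * R.xx Γ j a s ^ 2)) / 10 ^ 6 := by rw [e]; ring
          _ ≤ _ := by gcongr
      · linarith only [hD', mul_pos r0 w0]
      · linarith only [hD'])
    (fun s hs => ⟨by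
        rw [N.ytop, abs_of_nonneg (nr_nonneg _ _ _)]
        exact h1 s hs, hZ, 0, hasDerivWithinAt_const _ _ _, le_rfl⟩)
    (fun m m1 m2 => by
      have hρ : R.rho Γ j a σ ≤ Γ.T (j + 1) ^ 17 / 1000 := by
        rw [K.level, le_div_iff₀ (by norm_num), mul_comm]
        exact mul_pw_le hT (by norm_num) (by norm_num)
      have e1 := (upper hν N S H K.mem hρ σ ⟨K.mem.1, le_rfl⟩).1 m m1 m2
      have w0 := (H.hd_WW hν N S K.mem).1
      have e2 : (2 : ℝ) ≤ 2 ^ Nat.fib m :=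
        le_self_pow₀ one_le_two (Nat.fib_pos.2 m1).ne'
      refine e1.trans (le_add_of_le_of_nonneg ?_ (by split_ifs <;> positivity))
      calc _ = R.rr Γ j a / 2 / (10 ^ 4 * Γ.lam (j + 2)) *
            (2 * R.WW Γ ν j a t0 σ ^ Nat.fib m) / 10 ^ 4 := by ring
        _ ≤ _ := by rw [mul_pow]; gcongr)
    t ⟨ht.1, le_rfl⟩
  have y1 := key (Γ.n (j + 1) - 1) (by omega) (by omega)
  have y2 := key (Γ.n (j + 1) - 2) (by omega) (by omega)
  rw [UU, if_pos (by omega)] at y1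
  rw [UU, if_neg (by omega), add_zero] at y2
  have c1 := N.c_hi j (Γ.n (j + 1)) (by omega) le_rfl
  have c0 : 0 ≤ R.c (j + 1) (Γ.n (j + 1)) :=
    le_trans (by have := Γ.lam_pos' j; positivity) (N.c_lo j _ (by omega) le_rfl)
  have w0 := (H.hd_WW hν N S ht').1
  have w1 := (H.hd_WW hν N S K.mem).1
  have w2 := WW_le N S H K ht'
  have w3 := W1 t ht'
  have lo := K.lo1.trans hA
  have fl := fib_loss hT (Γ.fib_hi (j + 1))
  have fa := Γ.fib_add (j + 1)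
  have f1 : 1 ≤ Nat.fib (Γ.n (j + 1) - 2) := Nat.fib_pos.2 (by omega)
  rw [N.fS, abs_mul, abs_mul, abs_of_nonneg c0]
  generalize Nat.fib (Γ.n (j + 1)) = F at *
  generalize Nat.fib (Γ.n (j + 1) - 1) = F1 at *
  generalize Nat.fib (Γ.n (j + 1) - 2) = F2 at *
  generalize R.WW Γ ν j a t0 t = W at *
  generalize R.WW Γ ν j a t0 σ = Wσ at *
  clear key W1 h1 hA
  generalize R.rr Γ j a = r at *
  generalize R.alf Γ (j + 1) t = A at *
  generalize Γ.T (j + 1) = T at *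
  generalize 10 ^ 4 * Γ.lam (j + 2) = lb at *
  have rA : 0 < r * A := by positivity
  have e1 : r / lb * (2 * W) ^ F * T ^ 50 ≤ A := by
    calc _ ≤ r / lb * (2 * (T ^ 6 * Wσ)) ^ F * T ^ 50 := by gcongr
      _ = r / lb * Wσ ^ F * ((2 * T ^ 6) ^ F * T ^ 50) := by rw [← mul_assoc 2, mul_pow]; ring
      _ ≤ r / lb * Wσ ^ F * Real.exp (T ^ 13) := by gcongr
      _ ≤ _ := lo
  have e2 : r / lb * (2 * W) ^ F ≤ A / T ^ 50 := by rwa [le_div_iff₀ (by positivity)]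
  have e3 : (2 * W) ^ F2 * (2 * W) ^ F2 ≤ 2 * 1 / T ^ 100 := by
    have e4 : (2 * W) ^ F2 ≤ 1 := pow_le_one₀ (by positivity) (w3.trans W2)
    have e5 : (2 * W) ^ F2 ≤ 2 * W := pow_le_of_le_one (by positivity) (w3.trans W2) (by omega)
    calc _ ≤ 1 * (2 * W) := by gcongr
      _ ≤ _ := by rwa [one_mul]
  have e6 : 10 * (r * A) / T ^ 98 ≤ 1 / 4 * (r * A) / T ^ 50 :=
    div_pw_le hT rA.le (by norm_num) (by norm_num) (by norm_num)
  have e7 : 0 < r * A / T ^ 50 := by positivity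
  calc _ ≤ lb * ((r / 2 / lb * (2 * W) ^ F1 / 10 ^ 4 +
        10 * lb * (T ^ 2 * A) / (r / 2) * (r / 2 / lb * (2 * W) ^ F2 / 10 ^ 4)) *
        (r / 2 / lb * (2 * W) ^ F2 / 10 ^ 4)) := by (clear * - w0 r0 A0 hT lb0 c1 y2 y1; gcongr)
    _ = (r / 4 * (r / lb * (2 * W) ^ F) + 5 * (r * A) * T ^ 2 * ((2 * W) ^ F2 * (2 * W) ^ F2)) /
        10 ^ 8 := by
        rw [fa, pow_add]
        field_simp
        ring
    _ ≤ (r / 4 * (A / T ^ 50) + 5 * (r * A) * T ^ 2 * (2 * 1 / T ^ 100)) / 10 ^ 8 := by gcongr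
    _ = (1 / 4 * (r * A) / T ^ 50 + 10 * (r * A) / T ^ 98) / 10 ^ 8 := by field_simp; ring
    _ < r * A / T ^ 50 := by
        rw [div_lt_iff₀ (by norm_num)]
        have e8 : 1 / 4 * (r * A) / T ^ 50 = 1 / 4 * (r * A / T ^ 50) := by ring
        rw [e8] at e6 ⊢
        linarith only [e6, e7]
    _ = _ := by ring

lemma barrier4 {f0 f1 f2 f3 : ℝ → ℝ} {a b : ℝ} (c0 : ContinuousOn f0 (Icc a b))
    (c1 : ContinuousOn f1 (Icc a b)) (c2 : ContinuousOn f2 (Icc a b))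
    (c3 : ContinuousOn f3 (Icc a b)) (i0 : f0 a ≤ 0) (i1 : f1 a ≤ 0) (i2 : f2 a ≤ 0)
    (i3 : f3 a ≤ 0)
    (step : ∀ t ∈ Ico a b, (∀ s ∈ Icc a t, f0 s ≤ 0 ∧ f1 s ≤ 0 ∧ f2 s ≤ 0 ∧ f3 s ≤ 0) →
      (f0 t = 0 → ∃ D < 0, HasDerivWithinAt f0 D (Ici t) t) ∧
      (f1 t = 0 → ∃ D < 0, HasDerivWithinAt f1 D (Ici t) t) ∧
      (f2 t = 0 → ∃ D < 0, HasDerivWithinAt f2 D (Ici t) t) ∧ f3 t < 0) :
    ∀ t ∈ Icc a b, f0 t ≤ 0 ∧ f1 t ≤ 0 := by
  have key := family_barrier (ι := Fin 4) (H := ![f0, f1, f2, f3]) (a := a) (b := b)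
    (fun i => by fin_cases i <;> assumption) (fun i => by fin_cases i <;> assumption)
    (fun t ht all i => by
      obtain ⟨s0, s1, s2, s3⟩ := step t ht fun s hs => ⟨all s hs 0, all s hs 1, all s hs 2, all s hs 3⟩
      fin_cases i
      · exact s0
      · exact s1
      · exact s2
      · exact fun e => absurd e s3.ne)
  exact fun t ht => ⟨key t ht 0, key t ht 1⟩

end P2

open P2 in
theorem phase2 (hν : 0 < ν) (N : IsNet Γ ν a0 R) (S : St Γ ν R j t0 a tb)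
    (H : Run Γ R j t0 a t1) {σ : ℝ} (K : Seeded Γ ν R j t0 a t1 σ) :
    R.alf Γ (j + 1) σ * Real.exp ((R.rho Γ j a t1 - Γ.T (j + 1) ^ 15) / 32) ≤
        R.alf Γ (j + 1) t1 ∧
      R.nr (j + 2) t1 ^ 2 ≤ (1 / 2 + 1 / 10 ^ 22) * R.alf Γ (j + 1) t1 ^ 2 := by
  have hT := Γ.Tbig (j + 1)
  have T0 := pos hT
  have r0 := S.rr_pos N
  have l0 := Γ.lam_pos' (j + 2)
  have σ0 : 0 ≤ σ := S.t0_nonneg.trans K.mem.1
  have sub : ∀ s ∈ Icc σ t1, s ∈ Icc t0 t1 := fun s hs => ⟨K.mem.1.trans hs.1, hs.2⟩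
  have Aσ : 0 < R.alf Γ (j + 1) σ := lt_of_lt_of_le (by positivity) K.lo2
  have hρ : ∀ s ∈ Icc σ t1, Γ.T (j + 1) ^ 15 ≤ R.rho Γ j a s := fun s hs => by
    rw [← K.level]
    refine mono_of_deriv (a := σ) (b := t1) σ0 (fun v hv => ?_) le_rfl hs.1 hs.2
    obtain ⟨p0, D, d1, d2, -⟩ := H.hd_rho N S (sub v hv)
    exact ⟨D, d1, le_trans (by positivity) d2⟩
  obtain ⟨u, hu⟩ : ∃ u : ℝ → ℝ, u = fun s => 100 * Γ.T (j + 1) ^ 3 * Real.exp
    (-((R.rho Γ j a s - Γ.T (j + 1) ^ 15) / (10 ^ 8 * Γ.T (j + 1) ^ 16))) + 1 / (2 * 10 ^ 22) :=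
    ⟨_, rfl⟩
  have u1 : ∀ s, 1 / (2 * 10 ^ 22) ≤ u s := fun s => by
    rw [hu]
    exact le_add_of_nonneg_left (by positivity)
  have u2 : ∀ s ∈ Icc σ t1, u s ≤ 101 * Γ.T (j + 1) ^ 3 := fun s hs => by
    have e1 : Real.exp (-((R.rho Γ j a s - Γ.T (j + 1) ^ 15) / (10 ^ 8 * Γ.T (j + 1) ^ 16))) ≤ 1 :=
      Real.exp_le_one_iff.2 (neg_nonpos.2 (div_nonneg (sub_nonneg.2 (hρ s hs)) (by positivity)))
    have e2 : (1 : ℝ) ≤ Γ.T (j + 1) ^ 3 := le_pw hT (by norm_num) (by norm_num)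
    have e3 := mul_le_mul_of_nonneg_left e1 (by positivity : 0 ≤ 100 * Γ.T (j + 1) ^ 3)
    rw [hu]
    simp only
    linarith only [e2, e3]
  have du : ∀ s ∈ Icc σ t1, ∃ D, HD u D s ∧
      -(8 * (R.rho Γ j a s * R.rr Γ j a * u s / (10 ^ 8 * Γ.T (j + 1) ^ 16))) ≤ D := fun s hs => by
    obtain ⟨p0, D, d1, d2, d3⟩ := H.hd_rho N S (sub s hs)
    have e := ((((d1.sub_const (Γ.T (j + 1) ^ 15)).div_const
      (10 ^ 8 * Γ.T (j + 1) ^ 16)).fun_neg.exp).const_mul (100 * Γ.T (j + 1) ^ 3)).add_const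
      (1 / (2 * 10 ^ 22))
    rw [hu]
    refine ⟨_, e, ?_⟩
    simp only
    have e0 := Real.exp_pos
      (-((R.rho Γ j a s - Γ.T (j + 1) ^ 15) / (10 ^ 8 * Γ.T (j + 1) ^ 16)))
    generalize Real.exp
      (-((R.rho Γ j a s - Γ.T (j + 1) ^ 15) / (10 ^ 8 * Γ.T (j + 1) ^ 16))) = x at *
    rw [mul_neg, mul_neg, neg_le_neg_iff]
    calc _ = D * (100 * Γ.T (j + 1) ^ 3 * x) / (10 ^ 8 * Γ.T (j + 1) ^ 16) := by ring
      _ ≤ 8 * R.rr Γ j a * R.rho Γ j a s * (100 * Γ.T (j + 1) ^ 3 * x + 1 / (2 * 10 ^ 22)) /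
          (10 ^ 8 * Γ.T (j + 1) ^ 16) := by
        gcongr
        exact le_add_of_nonneg_right (by norm_num)
      _ = _ := by ring
  have cA : ContinuousOn (R.alf Γ (j + 1)) (Icc σ t1) :=
    contOn_of_HD σ0 fun s hs => hd_A N S H (sub s hs)
  have cρ : ContinuousOn (R.rho Γ j a) (Icc σ t1) :=
    contOn_of_HD σ0 fun s hs => (H.hd_rho N S (sub s hs)).2.imp fun _ h => h.1
  have cu : ContinuousOn u (Icc σ t1) := contOn_of_HD σ0 fun s hs => (du s hs).imp fun _ h => h.1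
  have cE : ContinuousOn (R.E (j + 3)) (Icc σ t1) :=
    contOn_of_HD σ0 fun s hs => (N.eqE (j + 2) s (σ0.trans hs.1)).imp fun _ h => h.1
  have sI : Icc σ t1 ⊆ Ici 0 := fun s hs => σ0.trans hs.1
  have nT : ∀ s ∈ Icc σ t1, 0 < R.alf Γ (j + 1) s →
      R.nr (j + 2) s ^ 2 ≤ (1 / 2 + u s) * R.alf Γ (j + 1) s ^ 2 →
      R.nr (j + 2) s ≤ Γ.T (j + 1) ^ 2 * R.alf Γ (j + 1) s := fun s hs hA h => by
    have e1 : 102 * Γ.T (j + 1) ^ 3 ≤ Γ.T (j + 1) ^ 4 := mul_pw_le hT (by norm_num) (by norm_num)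
    have e2 : (1 : ℝ) ≤ Γ.T (j + 1) ^ 3 := le_pw hT (by norm_num) (by norm_num)
    refine (abs_le_of_sq_le_sq' (h.trans ?_) (by (clear * - hT hA; positivity))).2
    rw [mul_pow, ← pow_mul]
    exact mul_le_mul_of_nonneg_right (by linarith only [e1, e2, u2 s hs]) (sq_nonneg _)
  have i1 : R.nr (j + 2) σ ^ 2 ≤ (1 / 2 + u σ) * R.alf Γ (j + 1) σ ^ 2 := by
    refine K.conc.trans (mul_le_mul_of_nonneg_right ?_ (sq_nonneg _))
    rw [hu]
    simp only [K.level, sub_self, zero_div, neg_zero, Real.exp_zero, mul_one]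
    norm_num
    linarith only []
  have key := barrier4 (a := σ) (b := t1)
    (f0 := fun s => R.alf Γ (j + 1) σ * Real.exp ((R.rho Γ j a s - Γ.T (j + 1) ^ 15) / 32) -
      R.alf Γ (j + 1) s)
    (f1 := fun s => R.nr (j + 2) s ^ 2 - (1 / 2 + u s) * R.alf Γ (j + 1) s ^ 2)
    (f2 := fun s => R.E (j + 3) s - 2 * R.alf Γ (j + 1) s ^ 2)
    (f3 := fun s => |R.f (j + 2) s| - R.rr Γ j a / Γ.T (j + 1) ^ 50 * R.alf Γ (j + 1) s)
    ((continuousOn_const.fun_mul ((cρ.fun_sub continuousOn_const).div_const _).rexp).fun_sub cA)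
    ((((N.cont_nr (j + 2)).mono sI).fun_pow 2).fun_sub
      ((continuousOn_const.fun_add cu).fun_mul (cA.fun_pow 2)))
    (cE.fun_sub (continuousOn_const.fun_mul (cA.fun_pow 2)))
    (((N.cont_f (j + 1)).mono sI).abs.fun_sub (continuousOn_const.fun_mul cA))
    (by simp [K.level]) (sub_nonpos.2 i1) (by have := K.Ed; linarith only [this, sq_nonneg (R.alf Γ (j + 1) σ)])
    (sub_nonpos.2 (fbound hν N S H K ⟨le_rfl, K.mem.2⟩ le_rfl fun s hs => by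
      rw [le_antisymm hs.2 hs.1]
      exact nT σ ⟨le_rfl, K.mem.2⟩ Aσ i1).le) ?_ t1 ⟨K.mem.2, le_rfl⟩
  · refine ⟨sub_nonpos.1 key.1, (sub_nonpos.1 key.2).trans
      (mul_le_mul_of_nonneg_right ?_ (sq_nonneg _))⟩
    have := final_le hT (trigger hν N S H)
    rw [hu]
    simp only
    linarith only [this]
  intro t ht all
  have sb : ∀ s ∈ Icc σ t, s ∈ Icc σ t1 := fun s hs => ⟨hs.1, hs.2.trans ht.2.le⟩
  have lo : ∀ s ∈ Icc σ t, R.alf Γ (j + 1) σ ≤ R.alf Γ (j + 1) s := fun s hs =>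
    (le_mul_of_one_le_right Aσ.le (Real.one_le_exp
      (div_nonneg (sub_nonneg.2 (hρ s (sb s hs))) (by norm_num)))).trans (sub_nonpos.1 (all s hs).1)
  have st := fun s (hs : s ∈ Icc σ t) => step hν N S H (sub s (sb s hs)) (hρ s (sb s hs))
    (Aσ.trans_le (lo s hs)) (u1 s) (u2 s (sb s hs)) (sub_nonpos.1 (all s hs).2.1)
    (sub_nonpos.1 (all s hs).2.2.1) (sub_nonpos.1 (all s hs).2.2.2)
  have tt : t ∈ Icc σ t := ⟨ht.1, le_rfl⟩
  have ht1 := sb t tt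
  have h0 : 0 ≤ t := σ0.trans ht.1
  have At := Aσ.trans_le (lo t tt)
  obtain ⟨α', g', dA, dg, b1, b2⟩ := st t tt
  obtain ⟨ρ0, ρ', dρ, -, b3⟩ := H.hd_rho N S (sub t ht1)
  have rA : 0 < R.rho Γ j a t * R.rr Γ j a * R.alf Γ (j + 1) t := by (clear * - r0 At ρ0; positivity)
  refine ⟨fun e => ?_, fun e => ?_, fun e => ?_, sub_neg.2 (fbound hν N S H K ht1 (lo t tt)
    fun s hs => (nT s (sb s hs) (Aσ.trans_le (lo s hs)) (sub_nonpos.1 (all s hs).2.1)).trans ?_)⟩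
  · refine ⟨_, ?_, HD.right (((((dρ.sub_const (Γ.T (j + 1) ^ 15)).div_const 32).exp).const_mul
      (R.alf Γ (j + 1) σ)).fun_sub dA) h0⟩
    rw [← mul_assoc, sub_eq_zero.1 e]
    linarith only [b1, rA, mul_le_mul_of_nonneg_left b3 At.le]
  · obtain ⟨u', du', b4⟩ := du t ht1
    have e' : R.nr (j + 2) t ^ 2 / R.alf Γ (j + 1) t ^ 2 = 1 / 2 + u t := by
      rw [div_eq_iff (by (clear * - At; positivity))]
      exact sub_eq_zero.1 e
    have b5 := b2 e'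
    have d1 := (dg.fun_sub (du'.const_add (1 / 2))).fun_mul (dA.fun_pow 2)
    have ev : ∀ᶠ s in nhdsWithin t (Ici 0), 0 < R.alf Γ (j + 1) s :=
      dA.continuousWithinAt.eventually (lt_mem_nhds At)
    have d2 := d1.congr_of_eventuallyEq
      (f₁ := fun s => R.nr (j + 2) s ^ 2 - (1 / 2 + u s) * R.alf Γ (j + 1) s ^ 2)
      (ev.mono fun s hs => by simp only; field_simp) (by field_simp)
    refine ⟨_, ?_, HD.right d2 h0⟩
    have ut : 0 < u t := lt_of_lt_of_le (by norm_num) (u1 t)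
    have b6 : 0 < R.rho Γ j a t * R.rr Γ j a * u t / (10 ^ 8 * Γ.T (j + 1) ^ 16) := by positivity
    rw [e', sub_self, zero_mul, add_zero]
    exact mul_neg_of_neg_of_pos (by linarith only [b4, b5, b6]) (by (clear * - At; positivity))
  · obtain ⟨D, dE, b4⟩ := Estep hν N S H (sub t ht1) At
      (nT t ht1 At (sub_nonpos.1 (all t tt).2.1)) (sub_eq_zero.1 e)
    refine ⟨_, ?_, HD.right (dE.fun_sub ((dA.fun_pow 2).const_mul 2)) h0⟩
    have b5 : (1 : ℝ) ≤ R.rho Γ j a t := (le_pw hT (by norm_num) (by norm_num)).trans (hρ t ht1)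
    have b6 := mul_le_mul_of_nonneg_left b1 At.le
    have b7 : 0 < R.rr Γ j a * R.alf Γ (j + 1) t ^ 2 := by (clear * - r0 At; positivity)
    have b8 := mul_le_mul_of_nonneg_right b5 b7.le
    norm_num
    linarith only [b4, b6, b7, b8]
  · refine mul_le_mul_of_nonneg_left (mono_of_deriv (a := σ) (b := t) σ0 (fun v hv => ?_) hs.1 hs.2
      le_rfl) (by positivity)
    obtain ⟨β, -, d1, -, d2, -⟩ := st v hv
    have := (H.hd_rho N S (sub v (sb v hv))).1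
    have := Aσ.trans_le (lo v hv)
    exact ⟨β, d1, le_trans (by positivity) d2⟩

end

end Pool.Agent.Work.MP_6bf1e5_an.Dec
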