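import Pool.Agent.Work.MP_6bf1e5_an.Dec.SeedB

/-!
The seed of the level after the next.
-/

open Set Complex
open scoped InnerProductSpace ComplexConjugate
open Pool.Agent.Work.MP_6bf1e5_an.B (Z3 R3 box)

namespace Pool.Agent.Work.MP_6bf1e5_an.Dec

noncomputable section

variable {Γ : Geo} {ν a0 : ℝ} {R : Raw} {j : ℕ} {t0 a tb t1 : ℝ}

namespace Sd

variable {u0 u1 w1 w2 σ c : ℝ}

/-- The size of the seed. -/
def PP (Γ : Geo) (R : Raw) (j : ℕ) (a c : ℝ) : ℝ := R.rr Γ j a / (10 ^ 4 * Γ.lam (j + 2)) *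
  (c ^ 2 / Γ.T (j + 1) ^ 60) ^ Nat.fib (Γ.n (j + 1))

lemma F_lo (Γ : Geo) (j : ℕ) : Γ.T j ^ 8 / 4 ≤ Nat.fib (Γ.n j) :=
  (Γ.fib_lo j).trans (by exact_mod_cast Nat.fib_mono (Nat.sub_le _ _))

lemma F_lo' (Γ : Geo) (j : ℕ) : Γ.T j ^ 8 / 4 ≤ Nat.fib (Γ.n j - 1) :=
  (Γ.fib_lo j).trans (by exact_mod_cast Nat.fib_mono (by omega))

lemma PP_nonneg (N : IsNet Γ ν a0 R) (S : St Γ ν R j t0 a tb) : 0 ≤ PP Γ R j a c := by
  have r0 := S.rr_pos N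
  have l0 := lb_pos Γ j
  have := Γ.T_pos (j + 1)
  unfold PP
  positivity

lemma Tm.WF (K : Tm Γ R j t0 a t1 u0 u1 w1 w2 σ) (hν : 0 < ν) (N : IsNet Γ ν a0 R)
    (S : St Γ ν R j t0 a tb) (H : Run Γ R j t0 a t1)
    (hc : ∀ t, R.xx Γ j a t = c * R.rho Γ j a t) {t : ℝ} (ht : t ∈ Icc u0 σ) :
    R.rr Γ j a / (10 ^ 4 * Γ.lam (j + 2)) * R.WW Γ ν j a t0 t ^ Nat.fib (Γ.n (j + 1)) ≤
      Real.exp (Γ.T (j + 1) ^ 9) * PP Γ R j a c := by
  have r0 := S.rr_pos N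
  have l0 := lb_pos Γ j
  have := WF_le (Γ.Tbig (j + 1)) (Γ.fib_hi (j + 1)) (H.hd_WW hν N S (K.mem ht)).1.le
    (H.hd_rho N S (K.mem ht)).1.le (K.rho_le N S H ht) (hc t ▸ K.W_le hν N S H ht)
  unfold PP
  rw [mul_left_comm]
  gcongr

lemma Tm.ZZ_pos (K : Tm Γ R j t0 a t1 u0 u1 w1 w2 σ) (hν : 0 < ν) (N : IsNet Γ ν a0 R)
    (S : St Γ ν R j t0 a tb) (H : Run Γ R j t0 a t1) {t : ℝ} (ht : t ∈ Icc u0 σ) :
    0 < R.ZZ Γ ν j a t0 t := by
  have r0 := S.rr_pos N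
  have l0 := lb_pos Γ j
  have w0 := (H.hd_WW hν N S (K.mem ht)).1
  unfold Raw.ZZ
  positivity

lemma Tm.ZZ_sq (K : Tm Γ R j t0 a t1 u0 u1 w1 w2 σ) (hν : 0 < ν) (N : IsNet Γ ν a0 R)
    (S : St Γ ν R j t0 a tb) (H : Run Γ R j t0 a t1)
    (hc : ∀ t, R.xx Γ j a t = c * R.rho Γ j a t) {t : ℝ} (ht : t ∈ Icc u0 σ) :
    10 ^ 4 * Γ.lam (j + 2) * R.ZZ Γ ν j a t0 t ^ 2 ≤
      R.rr Γ j a * PP Γ R j a c * Real.exp (-(Γ.T (j + 1) ^ 17 / 5)) := by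
  have hT := Γ.Tbig (j + 1)
  have r0 := S.rr_pos N
  have l0 := lb_pos Γ j
  obtain ⟨w0, w1, -⟩ := H.hd_WW hν N S (K.mem ht)
  have a1 := K.WF hν N S H hc ht
  have a2 := WF_small hT (F_lo Γ (j + 1)) w0.le w1
  have a3 := K.rho_le N S H ht
  have P0 := PP_nonneg (c := c) N S
  have U0 := pow_pos w0 (Nat.fib (Γ.n (j + 1)))
  unfold Raw.ZZ
  generalize 10 ^ 4 * Γ.lam (j + 2) = lb at *
  generalize R.WW Γ ν j a t0 t ^ Nat.fib (Γ.n (j + 1)) = U at *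
  calc _ = R.rr Γ j a * (R.rr Γ j a / lb * U) * U * Real.exp (60 * R.rho Γ j a t) ^ 2 / 4 := by
        field_simp; ring
    _ ≤ R.rr Γ j a * (R.rr Γ j a / lb * U) * U * Real.exp (60 * R.rho Γ j a t) ^ 2 :=
        div_le_self (by positivity) (by norm_num)
    _ ≤ R.rr Γ j a * (Real.exp (Γ.T (j + 1) ^ 9) * PP Γ R j a c) *
        Real.exp (-(Γ.T (j + 1) ^ 17 / 4)) * Real.exp (60 * Γ.T (j + 1) ^ 15) ^ 2 := by gcongr
    _ = R.rr Γ j a * PP Γ R j a c * Real.exp (Γ.T (j + 1) ^ 9 + -(Γ.T (j + 1) ^ 17 / 4) +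
        (60 * Γ.T (j + 1) ^ 15 + 60 * Γ.T (j + 1) ^ 15)) := by
        simp only [Real.exp_add]; ring
    _ ≤ _ := by
        gcongr
        have := pw hT (a := 15) (b := 17) (by norm_num)
        have := pw' hT (a := 9) (b := 15) (by norm_num)
        have := pw0 hT 15
        linarith

lemma Tm.ZZ_small (K : Tm Γ R j t0 a t1 u0 u1 w1 w2 σ) (hν : 0 < ν) (N : IsNet Γ ν a0 R)
    (S : St Γ ν R j t0 a tb) (H : Run Γ R j t0 a t1) {t : ℝ} (ht : t ∈ Icc u0 σ) :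
    16 * 10 ^ 4 * Γ.lam (j + 2) * NN (Γ.M (j + 2)) * R.ZZ Γ ν j a t0 t ≤
      ν * Γ.lam (j + 2) ^ 2 := by
  have hT := Γ.Tbig (j + 1)
  have r0 := S.rr_pos N
  have l0 := lb_pos Γ j
  have l1 := Γ.lam_pos' (j + 2)
  obtain ⟨w0, w1, -⟩ := H.hd_WW hν N S (K.mem ht)
  have a1 := (K.upper hν N S H ht).2.2
  have a2 := WF_small hT (F_lo' Γ (j + 1)) w0.le w1
  have a3 := rr_le hν N S
  have a4 := Γ.NN_le_exp (j + 1)
  have n0 := NN_pos (Γ.M (j + 2))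
  have e4 : (16 : ℝ) ≤ Real.exp 15 := by linarith only [Real.add_one_le_exp 15]
  calc _ ≤ 16 * 10 ^ 4 * Γ.lam (j + 2) * NN (Γ.M (j + 2)) * (R.rr Γ j a /
        (10 ^ 4 * Γ.lam (j + 2)) * Real.exp (-(Γ.T (j + 1) ^ 17 / 4))) := by
        gcongr
        exact a1.trans (by gcongr)
    _ = 16 * NN (Γ.M (j + 2)) * R.rr Γ j a * Real.exp (-(Γ.T (j + 1) ^ 17 / 4)) := by field_simp
    _ ≤ Real.exp 15 * Real.exp (50 * Γ.T (j + 1) ^ 9) *
        (Real.exp (30 * Γ.T (j + 1) ^ 9) * (ν * Γ.lam (j + 2) ^ 2)) *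
        Real.exp (-(Γ.T (j + 1) ^ 17 / 4)) := by gcongr
    _ = Real.exp (15 + 50 * Γ.T (j + 1) ^ 9 + 30 * Γ.T (j + 1) ^ 9 + -(Γ.T (j + 1) ^ 17 / 4)) *
        (ν * Γ.lam (j + 2) ^ 2) := by simp only [Real.exp_add]; ring
    _ ≤ 1 * (ν * Γ.lam (j + 2) ^ 2) := by
        gcongr
        refine Real.exp_le_one_iff.mpr ?_
        have := pw hT (a := 9) (b := 17) (by norm_num)
        have := one_le_pow₀ (n := 9) (one_le hT)
        linarith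
    _ = _ := one_mul _

/-- The energy beyond the seeded level. -/
lemma Tm.Ed (K : Tm Γ R j t0 a t1 u0 u1 w1 w2 σ) (hν : 0 < ν) (N : IsNet Γ ν a0 R)
    (S : St Γ ν R j t0 a tb) (H : Run Γ R j t0 a t1)
    (hc : ∀ t, R.xx Γ j a t = c * R.rho Γ j a t) {t : ℝ} (ht : t ∈ Icc u0 σ) :
    R.E (j + 3) t ≤ R.ZZ Γ ν j a t0 t ^ 2 ∧ R.E (j + 3) t ≤ PP Γ R j a c ^ 2 := by
  have hT := Γ.Tbig (j + 1)
  have l1 := Γ.lam_pos' (j + 2)
  have Z0 := K.ZZ_pos hν N S H ht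
  have Z1 := K.ZZ_small hν N S H ht
  have Z2 := K.ZZ_sq hν N S H hc ht
  have P0 := PP_nonneg (c := c) N S
  have a3 := rr_le hν N S
  have n1 := one_le_NN (Γ.M (j + 2))
  have h := Ebound hν N (j + 1) Z0 (K.upper hν N S H ht).2.1 Z1 t
    ⟨(S.t0_nonneg.trans K.h0).trans ht.1, le_rfl⟩
  have q0 : 0 < ν * Γ.lam (j + 2) ^ 2 := by positivity
  constructor
  · refine h.trans (pow_le_pow_left₀ (by positivity) ?_ 2)
    rw [div_le_iff₀ q0]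
    refine le_trans ?_ (mul_le_mul_of_nonneg_left Z1 Z0.le)
    have : 0 < 10 ^ 4 * Γ.lam (j + 2) * R.ZZ Γ ν j a t0 t ^ 2 := by positivity
    have := mul_le_mul_of_nonneg_left n1 this.le
    linarith
  · refine h.trans (pow_le_pow_left₀ (by positivity) ?_ 2)
    rw [div_le_iff₀ q0]
    have e4 : (2 : ℝ) ≤ Real.exp 1 := by linarith only [Real.add_one_le_exp 1]
    calc _ = 2 * (10 ^ 4 * Γ.lam (j + 2) * R.ZZ Γ ν j a t0 t ^ 2) := by ring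
      _ ≤ Real.exp 1 * (Real.exp (30 * Γ.T (j + 1) ^ 9) * (ν * Γ.lam (j + 2) ^ 2) *
          PP Γ R j a c * Real.exp (-(Γ.T (j + 1) ^ 17 / 5))) :=
          mul_le_mul e4 (Z2.trans (by gcongr)) (by positivity) (Real.exp_pos _).le
      _ = Real.exp (1 + 30 * Γ.T (j + 1) ^ 9 + -(Γ.T (j + 1) ^ 17 / 5)) *
          (PP Γ R j a c * (ν * Γ.lam (j + 2) ^ 2)) := by simp only [Real.exp_add]; ring
      _ ≤ 1 * (PP Γ R j a c * (ν * Γ.lam (j + 2) ^ 2)) := by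
          gcongr
          refine Real.exp_le_one_iff.mpr ?_
          have := pw hT (a := 9) (b := 17) (by norm_num)
          have := one_le_pow₀ (n := 9) (one_le hT)
          linarith
      _ = _ := one_mul _

/-- The remote errors during the first phase. -/
lemma Tm.err (K : Tm Γ R j t0 a t1 u0 u1 w1 w2 σ) (hν : 0 < ν) (N : IsNet Γ ν a0 R)
    (S : St Γ ν R j t0 a tb) (H : Run Γ R j t0 a t1)
    (hc : ∀ t, R.xx Γ j a t = c * R.rho Γ j a t) {t : ℝ} (ht : t ∈ Icc u0 σ) :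
    10 ^ 4 * Γ.lam (j + 2) * (√(R.E (j + 3) t) * R.nr (j + 2) t +
      NN (Γ.M (j + 2)) * R.nr (j + 3) t ^ 2) * (σ - u1) ≤
      PP Γ R j a c * Real.exp (-(60 * Γ.T (j + 1) ^ 9)) := by
  have hT := Γ.Tbig (j + 1)
  have t0' : 0 ≤ t := (S.t0_nonneg.trans K.h0).trans ht.1
  have l0 := lb_pos Γ j
  have r0 := S.rr_pos N
  have Z0 := K.ZZ_pos hν N S H ht
  have Z2 := K.ZZ_sq hν N S H hc ht
  have P0 := PP_nonneg (c := c) N S
  have n1 := one_le_NN (Γ.M (j + 2))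
  have a4 := Γ.NN_le_exp (j + 1)
  have E1 := (K.Ed hν N S H hc ht).1
  have E2 : √(R.E (j + 3) t) ≤ R.ZZ Γ ν j a t0 t := Real.sqrt_le_iff.mpr ⟨Z0.le, E1⟩
  have E3 : R.nr (j + 3) t ^ 2 ≤ 4 * R.ZZ Γ ν j a t0 t ^ 2 := (N.nrE _ t t0').trans (by gcongr)
  have E4 := (K.upper hν N S H ht).2.1 t ⟨t0', le_rfl⟩
  have n0 : 0 ≤ R.nr (j + 2) t := nr3_nonneg _ _ _
  have d0 : 0 ≤ σ - u1 := sub_nonneg.mpr (K.h2.trans (K.h3.trans K.h4))
  have d1 := K.time_hi N S H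
  have b1 : √(R.E (j + 3) t) * R.nr (j + 2) t + NN (Γ.M (j + 2)) * R.nr (j + 3) t ^ 2 ≤
      5 * NN (Γ.M (j + 2)) * R.ZZ Γ ν j a t0 t ^ 2 := by
    have c1 : √(R.E (j + 3) t) * R.nr (j + 2) t ≤ R.ZZ Γ ν j a t0 t * R.ZZ Γ ν j a t0 t := by
      gcongr
    have c2 := mul_le_mul_of_nonneg_left E3 (zero_le_one.trans n1)
    have c3 := mul_le_mul_of_nonneg_right n1 (sq_nonneg (R.ZZ Γ ν j a t0 t))
    linarith only [c1, c2, c3]
  have b2 : 20 * Γ.T (j + 1) ^ 2 ≤ Real.exp (Γ.T (j + 1)) := by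
    have := pw hT (a := 2) (b := 3) (by norm_num)
    have := pw0 hT 2
    have := pow_le_exp hT (k := 3) (by norm_num)
    linarith
  calc _ ≤ 10 ^ 4 * Γ.lam (j + 2) * (5 * NN (Γ.M (j + 2)) * R.ZZ Γ ν j a t0 t ^ 2) * (σ - u1) := by
        gcongr
    _ = 5 * NN (Γ.M (j + 2)) * (10 ^ 4 * Γ.lam (j + 2) * R.ZZ Γ ν j a t0 t ^ 2) * (σ - u1) := by
        ring
    _ ≤ 5 * Real.exp (50 * Γ.T (j + 1) ^ 9) *
        (R.rr Γ j a * PP Γ R j a c * Real.exp (-(Γ.T (j + 1) ^ 17 / 5))) * (σ - u1) := by gcongr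
    _ = 5 * (R.rr Γ j a * (σ - u1)) * Real.exp (50 * Γ.T (j + 1) ^ 9) *
        Real.exp (-(Γ.T (j + 1) ^ 17 / 5)) * PP Γ R j a c := by ring
    _ ≤ Real.exp (Γ.T (j + 1)) * Real.exp (50 * Γ.T (j + 1) ^ 9) *
        Real.exp (-(Γ.T (j + 1) ^ 17 / 5)) * PP Γ R j a c := by gcongr; linarith only [d1, b2]
    _ ≤ _ := by
        rw [mul_comm, ← Real.exp_add, ← Real.exp_add]
        gcongr
        have := pw hT (a := 9) (b := 17) (by norm_num)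
        have := pw' hT (a := 1) (b := 9) (by norm_num)
        have := pw0 hT 9
        rw [pow_one] at *
        linarith

lemma Tm.init (K : Tm Γ R j t0 a t1 u0 u1 w1 w2 σ) (hν : 0 < ν) (N : IsNet Γ ν a0 R)
    (S : St Γ ν R j t0 a tb) (H : Run Γ R j t0 a t1)
    (hc : ∀ t, R.xx Γ j a t = c * R.rho Γ j a t) :
    R.nr (j + 2) u1 ≤ PP Γ R j a c * Real.exp (-(60 * Γ.T (j + 1) ^ 9)) := by
  have hT := Γ.Tbig (j + 1)
  have m1 : u1 ∈ Icc u0 σ := ⟨K.h1, K.h2.trans (K.h3.trans K.h4)⟩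
  have l0 := lb_pos Γ j
  have r0 := S.rr_pos N
  have T0 := pos hT
  have w0 := (H.hd_WW hν N S (K.mem m1)).1
  have a1 := K.W_le hν N S H m1
  rw [hc, K.e1] at a1
  have a2 := WF_init hT (F_lo Γ (j + 1)) w0.le a1
  have a3 : R.rho Γ j a u1 ≤ 1 := by
    rw [K.e1]
    exact Real.exp_le_one_iff.mpr (by linarith only [pw0 hT 2])
  refine ((K.upper hν N S H m1).2.1 u1 ⟨(S.t0_nonneg.trans K.h0).trans K.h1, le_rfl⟩).trans ?_
  unfold Raw.ZZ PP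
  calc _ ≤ R.rr Γ j a / (10 ^ 4 * Γ.lam (j + 2)) * (Real.exp (-(Γ.T (j + 1) ^ 10 / 4)) *
        (c ^ 2 / Γ.T (j + 1) ^ 60) ^ Nat.fib (Γ.n (j + 1))) * Real.exp (60 * 1) := by
        gcongr; linarith only [r0]
    _ = R.rr Γ j a / (10 ^ 4 * Γ.lam (j + 2)) *
        (c ^ 2 / Γ.T (j + 1) ^ 60) ^ Nat.fib (Γ.n (j + 1)) *
        Real.exp (-(Γ.T (j + 1) ^ 10 / 4) + 60 * 1) := by rw [Real.exp_add]; ring
    _ ≤ _ := by
        gcongr
        have := pw hT (a := 9) (b := 10) (by norm_num)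
        have := one_le_pow₀ (n := 9) (one_le hT)
        linarith

/-- The driver of the seeded level. -/
lemma drive (N : IsNet Γ ν a0 R) (S : St Γ ν R j t0 a tb) (H : Run Γ R j t0 a t1) {t : ℝ}
    (ht : t ∈ Icc t0 t1) : Drv (Γ.M (j + 1)) (R.pp (j + 1) t) ∧
      (∃ p', HD (R.pp (j + 1)) p' t ∧ Supp (Γ.M (j + 1)) p' ∧ ev 0 p' = 0 ∧
        l1 p' ≤ 720 * R.rr Γ j a) ∧ 0 < R.ss (j + 1) t ∧
      ∃ D, HD (R.rho Γ j a) D t ∧ D / 16 ≤ R.ss (j + 1) t ∧ R.ss (j + 1) t ≤ 8 * D := by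
  have t0' : 0 ≤ t := S.t0_nonneg.trans ht.1
  have r0 := S.rr_pos N
  have a1 := H.pos t ht
  have a2 : 0 < R.alf Γ j t / 2 := by positivity
  have c1 : ‖R.B (j + 1) t - ((R.alf Γ j t / 2 : ℝ) : ℂ) • phi (Γ.M (j + 1))‖ ≤
      1 / 10 ^ 10 * (R.alf Γ j t / 2) := (H.coneB N S ht).1.trans (by gcongr; norm_num)
  obtain ⟨d1, -, d2, d3⟩ := N.drv t0' a2 c1
  obtain ⟨D, hD, hD'⟩ := H.dB t ht
  obtain ⟨p', p1, p2, p3, p4, -⟩ := N.hd_pp t0' a2 c1 hD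
  obtain ⟨ρ0, D', h1, h2, h3⟩ := H.hd_rho N S ht
  have e : R.rr Γ (j + 1) (R.alf Γ j t / 2) = R.rr Γ j a * R.rho Γ j a t := by
    unfold Raw.rho
    field_simp
  rw [e] at d2 d3
  have : 0 < R.rr Γ j a * R.rho Γ j a t := by positivity
  refine ⟨d1, ⟨p', p1, p2, p3, p4.trans ?_⟩, by linarith only [d2, this], D', h1, by linarith only [d2, h3], by linarith only [d3, h2]⟩
  rw [div_le_iff₀ a2]
  linarith only [hD']

end Sd

open Sd in
theorem exists_seed (hν : 0 < ν) (N : IsNet Γ ν a0 R) (S : St Γ ν R j t0 a tb)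
    (H : Run Γ R j t0 a t1) : ∃ σ, Seeded Γ ν R j t0 a t1 σ := by
  obtain ⟨u0, u1, w1, w2, σ, K⟩ := exists_times hν N S H
  obtain ⟨c, c1, -, hc⟩ := S.xx_eq N
  have hT := Γ.Tbig (j + 1)
  have T0 := pos hT
  have r0 := S.rr_pos N
  have l0 := lb_pos Γ j
  have c0 : 0 < c := lt_of_lt_of_le (inv_pos.mpr (NN_pos _)) c1
  have P0 : 0 < PP Γ R j a c := by unfold PP; positivity
  have h0 : 0 ≤ u1 := S.t0_nonneg.trans (K.h0.trans K.h1)
  have tl := K.time_lo N S H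
  have th := K.time_hi N S H
  have hw : w1 < w2 := by
    by_contra h
    push Not at h
    have : 16 * R.rr Γ j a * (w2 - w1) ≤ 0 :=
      mul_nonpos_of_nonneg_of_nonpos (by positivity) (by linarith)
    linarith only [tl, this]
  have h12 : u1 < σ := K.h2.trans_lt (hw.trans_le K.h4)
  have d0 := sub_pos.mpr h12
  have mσ : σ ∈ Icc u1 σ := ⟨h12.le, le_rfl⟩
  set sg := R.rr Γ j a * Γ.T (j + 1) ^ 42 * PP Γ R j a c * (w2 - w1) with hsg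
  have s1 : 4 * Γ.T (j + 1) ^ 2 * PP Γ R j a c ≤ sg := by
    have a1 := pw hT (a := 2) (b := 42) (by norm_num)
    have a2 := pw0 hT 2
    calc _ ≤ Γ.T (j + 1) ^ 42 / 16 * PP Γ R j a c * 1 := by rw [mul_one]; gcongr; linarith only [a1, a2]
      _ ≤ Γ.T (j + 1) ^ 42 / 16 * PP Γ R j a c * (16 * R.rr Γ j a * (w2 - w1)) := by gcongr
      _ = sg := by rw [hsg]; ring
  have s2 : PP Γ R j a c ≤ sg := by
    refine le_trans (le_mul_of_one_le_left P0.le ?_) s1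
    linarith only [one_le_pow₀ (n := 2) (one_le hT)]
  have cs : ContinuousOn (R.ss (j + 1)) (Icc u1 σ) :=
    (N.cont_ss (j + 1)).mono fun t ht => h0.trans ht.1
  obtain ⟨τ, τ1, hτ⟩ := exists_prim h12.le cs
  have dr := fun t (ht : t ∈ Icc u1 σ) => drive N S H (K.mem (K.sub ht))
  have ρ1 : 0 < R.rho Γ j a u1 ∧ R.rho Γ j a u1 ≤ 1 := by
    rw [K.e1]
    exact ⟨Real.exp_pos _, Real.exp_le_one_iff.mpr (by linarith only [pw0 hT 2])⟩
  have τhi := le_of_deriv_le (F := τ) (G := fun t => 8 * R.rho Γ j a t) (b := σ) h0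
    (by rw [τ1]; linarith only [ρ1.1]) fun t ht => by
      obtain ⟨D, h1, -, h3⟩ := (dr t ht).2.2.2
      exact ⟨_, _, hτ t ht, h1.const_mul 8, h3⟩
  have τlo := le_of_deriv_le (F := fun t => (R.rho Γ j a t - 1) / 16) (G := τ) (b := σ) h0
    (by rw [τ1]; linarith only [ρ1.2]) fun t ht => by
      obtain ⟨D, h1, h2, -⟩ := (dr t ht).2.2.2
      exact ⟨_, _, (h1.sub_const 1).div_const 16, hτ t ht, h2⟩
  have T15 := pw hT (a := 0) (b := 15) (by norm_num)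
  rw [pow_zero] at T15
  have hd : ∀ d : ℝ, ν * Γ.lam (j + 2) ^ 2 / 2 ≤ d → d ≤ 4 * (ν * Γ.lam (j + 2) ^ 2) →
      0 ≤ d ∧ d * (σ - u1) ≤ (Γ.T (j + 1) ^ 50)⁻¹ := fun d h1 h2 => by
    refine ⟨le_trans (by positivity) h1, ?_⟩
    rw [← one_div, le_div_iff₀ (pw0 hT 50)]
    refine le_of_mul_le_mul_left ?_ r0
    calc _ = d * (R.rr Γ j a * (σ - u1)) * Γ.T (j + 1) ^ 50 := by ring
      _ ≤ 4 * (ν * Γ.lam (j + 2) ^ 2) * (4 * Γ.T (j + 1) ^ 2) * Γ.T (j + 1) ^ 50 := by gcongr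
      _ ≤ _ := by rw [mul_one]; exact diss hν S
  have eqs := fun t (ht : t ∈ Icc u1 σ) => N.eqs (j := j + 1) (h0.trans ht.1) (dr t ht).2.2.1
    (ρ := sg * Real.exp (-(60 * Γ.T (j + 1) ^ 9)) / (σ - u1)) (by
      rw [le_div_iff₀ d0]
      exact (K.err hν N S H hc (K.sub ht)).trans (by gcongr))
  obtain ⟨g1, g2⟩ := phase1 (m := Γ.M (j + 1)) (n := Γ.M (j + 2)) (t1 := u1) (t2 := σ) (w1 := w1)
    (w2 := w2) (σ := sg) (p := R.pp (j + 1)) (B := R.B (j + 2)) (Cp := R.Cp (j + 2))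
    (Cm := R.Cm (j + 2)) (s := R.ss (j + 1)) (f := R.f (j + 2)) (τ := τ) (dB := R.dB (j + 2))
    (dP := R.dP (j + 2)) (dM := R.dM (j + 2)) hT (Γ.Llo (j + 1)) (Γ.Lhi (j + 1))
    (Γ.NN_le_exp (j + 1)) h0 K.h2 hw K.h4
    (fun t ht => by
      obtain ⟨d1, ⟨p', p1, p2, p3, p4⟩, -⟩ := dr t ht
      refine ⟨d1, p', p1, p2, p3, ?_⟩
      have a1 := pw hT (a := 2) (b := 3) (by norm_num)
      have a2 := pw0 hT 2
      have := mul_le_mul_of_nonneg_right p4 d0.le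
      linarith only [th, a1, a2, this])
    cs (fun t ht => ⟨(dr t ht).2.2.1, hτ t ht⟩) τ1
    (by have := τhi w2 ⟨K.h2.trans K.h3, K.h4⟩; rw [K.e3] at this; linarith only [this])
    (by have := τlo σ mσ; rw [K.e4] at this; linarith only [T15, this])
    (by have := τhi σ mσ; rw [K.e4] at this; linarith only [T15, this])
    (fun h => hd _ (N.dB_lo _ h) (N.dB_hi _ h)) (fun h => hd _ (N.dP_lo _ h) (N.dP_hi _ h))
    (fun h => hd _ (N.dM_lo _ h) (N.dM_hi _ h)) (N.dPM _) (P0.trans_le s2)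
    ((N.cont_f (j + 1)).mono fun t ht => h0.trans ht.1)
    (fun t ht => by
      obtain ⟨f1, f2⟩ := K.f_bd hν N S H ht
      refine ⟨le_trans (by (clear * - hT r0 l0; positivity)) f1, ?_⟩
      have a1 := K.WF hν N S H hc (K.sub ht)
      calc _ ≤ R.rr Γ j a * (Real.exp (Γ.T (j + 1) ^ 9) * PP Γ R j a c) * (σ - u1) := by
            gcongr
            exact f2.trans (by gcongr)
        _ = R.rr Γ j a * (σ - u1) * PP Γ R j a c * Real.exp (Γ.T (j + 1) ^ 9) := by ring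
        _ ≤ 4 * Γ.T (j + 1) ^ 2 * PP Γ R j a c * Real.exp (Γ.T (j + 1) ^ 10) := by
            gcongr
            · exact one_le hT
            · norm_num
        _ ≤ _ := by gcongr)
    (fun t ht => by
      have m1 : t ∈ Icc u1 σ := ⟨K.h2.trans ht.1, ht.2.trans K.h4⟩
      have f1 := (K.f_bd hν N S H m1).1
      have a1 := rho_mono N S H (K.h0.trans (K.h1.trans K.h2)) ht.1 (m1.2.trans K.h5)
      rw [K.e2] at a1
      have a2 : c ≤ R.xx Γ j a t := by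
        rw [hc]
        exact le_mul_of_one_le_right c0.le a1
      rw [hsg]
      gcongr
      refine le_trans ?_ f1
      unfold PP
      (clear * - hT r0 l0 c0 a2; gcongr))
    (N.suppB _) (N.suppP _) (N.suppM _) (fun t ht => (eqs t ht).1) (fun t ht => (eqs t ht).2.1)
    (fun t ht => (eqs t ht).2.2) ((K.init hν N S H hc).trans (by gcongr))
  have g3 : PP Γ R j a c * Real.exp (Γ.T (j + 1) ^ 14) ≤ R.alf Γ (j + 1) σ :=
    le_trans (by gcongr) g1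
  have g4 : PP Γ R j a c ≤ R.alf Γ (j + 1) σ :=
    le_trans (le_mul_of_one_le_right P0.le (Real.one_le_exp (pw0 hT 14).le)) g3
  refine ⟨σ, K.mem (K.sub mσ), K.e4, le_trans ?_ g3, le_trans ?_ g4, g2, ?_⟩
  · calc _ ≤ Real.exp (Γ.T (j + 1) ^ 9) * PP Γ R j a c * Real.exp (Γ.T (j + 1) ^ 13) :=
          mul_le_mul_of_nonneg_right (K.WF hν N S H hc (K.sub mσ)) (Real.exp_pos _).le
      _ = PP Γ R j a c * Real.exp (Γ.T (j + 1) ^ 9 + Γ.T (j + 1) ^ 13) := by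
          rw [Real.exp_add]; ring
      _ ≤ _ := by
          gcongr
          have := pw hT (a := 13) (b := 14) (by norm_num)
          have := pw' hT (a := 9) (b := 13) (by norm_num)
          have := pw0 hT 13
          linarith
  · unfold PP
    gcongr
    refine Q_lo hT (Γ.fib_hi (j + 1)) (le_trans ?_ c1)
    rw [Real.exp_neg]
    refine inv_anti₀ (NN_pos _) ((Γ.NN_le_exp j).trans ?_)
    have := Γ.T_pos j
    gcongr
    exact Γ.Tmono j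
  · exact (K.Ed hν N S H hc (K.sub mσ)).2.trans (by gcongr)

end

end Pool.Agent.Work.MP_6bf1e5_an.Dec
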