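import Pool.Agent.Work.MP_6bf1e5_an.Dec.RunX
import Pool.Agent.Work.MP_6bf1e5_an.Dec.Seed
import Pool.Agent.Work.MP_6bf1e5_an.Dec.Phase2
import Pool.Agent.Work.MP_6bf1e5_an.Dec.NextA

/-!
The next stage.
-/

open Set Complex
open scoped InnerProductSpace ComplexConjugate
open Pool.Agent.Work.MP_6bf1e5_an.B (Z3 R3 box)

namespace Pool.Agent.Work.MP_6bf1e5_an.Dec

noncomputable section

variable {Γ : Geo} {ν a0 : ℝ} {R : Raw} {j : ℕ} {t0 a tb t1 : ℝ}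

namespace NextAux

lemma num4 {l N r T Ta x ρ q : ℝ} (hT : 10 ^ 100 ≤ T) (hT' : Ta ≤ T) (hN : T ^ 40 ≤ N)
    (hr : 0 < r) (hl : 0 < l) (hx : 0 < x) (h : l * N * x ≤ 4 * (ρ * r))
    (hρ : T ^ 17 / 1000 ≤ ρ) (hq : q ≤ r) :
    24 * 6012 * Ta * r * x + 4 * q * (6012 * x) + 36 * 6012 * Ta * r * x +
      10 ^ 4 * l * (3006 * x * (6012 * x)) ≤ ρ * r * x / T ^ 14 := by
  have T0 : 0 < T := lt_of_lt_of_le (by positivity) hT
  have T1 : (1 : ℝ) ≤ T := le_trans (by norm_num) hT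
  have ρ0 : 0 < ρ := lt_of_lt_of_le (by positivity) hρ
  have h1 : 10 ^ 13 * T ^ 14 ≤ T ^ 40 := cpow hT (by norm_num) (by norm_num)
  have h2 : 10 ^ 13 * T ^ 14 * (l * x) ≤ 4 * (ρ * r) := by
    refine le_trans ?_ h
    calc 10 ^ 13 * T ^ 14 * (l * x) ≤ N * (l * x) := by gcongr; linarith only [hN, h1]
      _ = _ := by ring
  have h3 : 10 ^ 4 * l * (3006 * x * (6012 * x)) ≤ ρ * r * x / T ^ 14 / 2 :=
    calc 10 ^ 4 * l * (3006 * x * (6012 * x))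
        = 10 ^ 13 * T ^ 14 * (l * x) * (18072072 / 10 ^ 9 * (x / T ^ 14)) := by field_simp; ring
      _ ≤ 4 * (ρ * r) * (1 / 8 * (x / T ^ 14)) :=
        mul_le_mul h2 (mul_le_mul_of_nonneg_right (by norm_num) (by positivity)) (by positivity)
          (by positivity)
      _ = _ := by ring
  have h4 : 10 ^ 9 * T ^ 1 ≤ T ^ 3 := cpow hT (by norm_num) (by norm_num)
  have h5 : 24 * 6012 * Ta * r * x + 4 * q * (6012 * x) + 36 * 6012 * Ta * r * x ≤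
      ρ * r * x / T ^ 14 / 2 :=
    calc _ ≤ 24 * 6012 * T * r * x + 4 * r * (6012 * x) + 36 * 6012 * T * r * x := by gcongr
      _ = (360720 * T + 24048) * (r * x) := by ring
      _ ≤ T ^ 3 / 2000 * (r * x) := by gcongr; linarith only [hT, h4]
      _ = T ^ 17 / 1000 * r * x / T ^ 14 / 2 := by field_simp; ring
      _ ≤ _ := by gcongr
  linarith only [h3, h5]

lemma horD (hν : 0 < ν) (N : IsNet Γ ν a0 R) (S : St Γ ν R j t0 a tb) (H : Run Γ R j t0 a t1) :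
    ∀ t ∈ Icc t1 (t1 + 2 * R.DD Γ (j + 1) (R.alf Γ j t1 / 2)), ∃ D, HD (R.B (j + 1)) D t ∧
      ‖D‖ ≤ R.rr Γ (j + 1) (R.alf Γ j t1 / 2) * (R.alf Γ j t1 / 2) / Γ.T (j + 1) ^ 14 +
        10 ^ 4 * Γ.lam (j + 1) * NN (Γ.M (j + 1)) * R.nr (j + 1 + 1) t ^ 2 := by
  intro t ht
  have ht0 : 0 ≤ t := (S.t0_nonneg.trans H.le).trans ht.1
  obtain ⟨e, r, er, hd⟩ := N.eqB j t ht0
  refine ⟨_, hd, ?_⟩
  have hT := Γ.T_pos j
  have T1 : (1 : ℝ) ≤ Γ.T j := le_trans (by norm_num) (Γ.Tbig _)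
  have ha := S.a_pos
  have hr := S.rr_pos N
  have hk := N.kap_pos j
  have hNa := NN_pos (Γ.M j)
  have hp := half_pos (H.pos t1 ⟨H.le, le_rfl⟩)
  have hE := Eb_hor hν N S H t ht
  have hm : t ∈ Icc t0 (t0 + 2 * R.DD Γ j a) :=
    ⟨H.le.trans ht.1, by linarith only [ht.2, H.le', DD_le hν N S H]⟩
  have h5 := lam_rr N (j + 1) hp.le
  rw [rr_eq N S t1] at h5 ⊢
  set x := R.alf Γ j t1 / 2 with hx
  have h2 := nra_le N S hm
  have hB : ‖R.B j t‖ ≤ 2 * (Γ.T j * a) :=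
    (le_nr3_1 _ _ _).trans (abs_le_of_sq_le_sq' (by unfold Raw.nr at h2; linarith only [h2])
      (by positivity)).2
  have hA : l1 (R.A j t) ≤ 3 * NN (Γ.M j) * (2 * (Γ.T j * a)) := by
    unfold Raw.A
    rw [l1_sw]
    exact (N.suppB j t).l1_le.trans (by gcongr)
  have hn : R.nr (j + 1) t ≤ 6012 * x :=
    (abs_le_of_sq_le_sq' (by linarith only [hE, N.nrE (j + 1) t ht0]) (by positivity)).2
  have hb : ‖R.B (j + 1) t‖ ≤ 6012 * x := (le_nr3_1 _ _ _).trans hn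
  have hcp : ‖R.Cp (j + 1) t‖ ≤ 6012 * x := (le_nr3_2 _ _ _).trans hn
  have hcm : ‖R.Cm (j + 1) t‖ ≤ 6012 * x := (le_nr3_3 _ _ _).trans hn
  have hA0 := l1_nonneg (R.A j t)
  have b1 : ‖(R.kap j : ℂ) • proj (Γ.M (j + 1))
      (dag (R.A j t) * R.Cp (j + 1) t + R.A j t * R.Cm (j + 1) t)‖ ≤
      24 * 6012 * Γ.T j * R.rr Γ j a * x := by
    rw [norm_smul, Complex.norm_real, Real.norm_of_nonneg hk.le]
    have c1 := norm_mul_le_l1 (dag (R.A j t)) (R.Cp (j + 1) t)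
    have c2 := norm_mul_le_l1 (R.A j t) (R.Cm (j + 1) t)
    rw [l1_dag] at c1
    calc _ ≤ R.kap j * (l1 (R.A j t) * ‖R.Cp (j + 1) t‖ + l1 (R.A j t) * ‖R.Cm (j + 1) t‖) := by
          gcongr
          exact (norm_proj_le _ _).trans ((norm_add_le _ _).trans (add_le_add c1 c2))
      _ ≤ R.kap j * (3 * NN (Γ.M j) * (2 * (Γ.T j * a)) * (6012 * x) +
          3 * NN (Γ.M j) * (2 * (Γ.T j * a)) * (6012 * x)) := by (clear * - hT ha hk hNa hA hcp hcm; gcongr)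
      _ = 12 * 6012 * Γ.T j * R.rr Γ j a * x := by unfold Raw.rr; ring
      _ ≤ _ := by gcongr; norm_num
  have hl := Γ.lam_pos' (j + 1)
  have b2 : ‖mulr (R.dB (j + 1)) (R.B (j + 1) t)‖ ≤ 4 * (ν * Γ.lam (j + 1) ^ 2) * (6012 * x) :=
    (norm_mulr_le (fun h => le_trans (by positivity) (N.dB_lo (j + 1) h)) (N.dB_hi (j + 1)) _).trans
      (by gcongr)
  have b3 : ‖e‖ ≤ 36 * 6012 * Γ.T j * R.rr Γ j a * x := by
    have c0 : (Γ.T j ^ 100)⁻¹ ≤ 1 := inv_le_one_of_one_le₀ (one_le_pow₀ T1)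
    refine (norm_le_of_coeff (by positivity) er.pt).trans ?_
    calc _ ≤ 1 * R.kap j * (2 * l1 (R.A j t) *
          (‖R.B (j + 1) t‖ + ‖R.Cp (j + 1) t‖ + ‖R.Cm (j + 1) t‖)) := by
          gcongr
          exact norm_maj_le _ _ _ _
      _ ≤ 1 * R.kap j * (2 * (3 * NN (Γ.M j) * (2 * (Γ.T j * a))) *
          (6012 * x + 6012 * x + 6012 * x)) := by (clear * - hT ha hk hNa hA hb hcp hcm; gcongr)
      _ = _ := by unfold Raw.rr; ring
  have b4 : √(R.E (j + 2) t) ≤ 3006 * x :=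
    Real.sqrt_le_iff.mpr ⟨by positivity, (N.Emono (j + 1) t ht0).trans hE⟩
  have b5 : ‖r‖ ≤ 10 ^ 4 * Γ.lam (j + 1) * (3006 * x * (6012 * x)) +
      10 ^ 4 * Γ.lam (j + 1) * NN (Γ.M (j + 1)) * R.nr (j + 1 + 1) t ^ 2 := by
    have n0 : 0 ≤ R.nr (j + 1) t := nr3_nonneg _ _ _
    refine er.nrm.trans ?_
    calc _ ≤ 10 ^ 4 * Γ.lam (j + 1) * (3006 * x * (6012 * x) +
          NN (Γ.M (j + 1)) * R.nr (j + 2) t ^ 2) := by gcongr
      _ = _ := by ring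
  have hq : ν * Γ.lam (j + 1) ^ 2 ≤ R.rr Γ j a := by
    refine le_trans ?_ S.K1
    exact le_mul_of_one_le_left (by positivity) (one_le_pow₀ T1)
  have fin := num4 (Γ.Tbig (j + 1)) (Γ.Tmono j) (Nb_big Γ j) hr hl hp h5 (trigger hν N S H) hq
  refine (norm_add_le _ _).trans ?_
  have c3 := (norm_add_le _ e).trans (add_le_add ((norm_sub_le _ _).trans (add_le_add b1 b2)) b3)
  linarith only [b5, fin, c3]

lemma now (hν : 0 < ν) (N : IsNet Γ ν a0 R) (S : St Γ ν R j t0 a tb) (H : Run Γ R j t0 a t1)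
    {σ : ℝ} (K : Seeded Γ ν R j t0 a t1 σ) :
    R.nr (j + 2) t1 = R.alf Γ j t1 / 2 / (Γ.M (j + 1) + 1) := by
  refine H.stop.resolve_left fun e => ?_
  have mem : t1 ∈ Icc t0 t1 := ⟨H.le, le_rfl⟩
  have hp := half_pos (H.pos t1 mem)
  have hr := S.rr_pos N
  have hT := Γ.T_pos (j + 1)
  have hTb := Γ.Tbig (j + 1)
  have hl := Γ.lam_pos' (j + 2)
  have h1 := (phase2 hν N S H K).1
  have h2 := K.lo2
  have dr := (N.drv (j := j + 1) (S.t0_nonneg.trans H.le) hp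
    ((H.coneB N S mem).1.trans (mul_le_mul_of_nonneg_right (by norm_num) hp.le))).1
  have h3 : R.alf Γ (j + 1) t1 ^ 2 ≤ 2 * R.nr (j + 2) t1 ^ 2 := abs_al_le dr _ _ _
  have h4 := H.small t1 mem
  have n0 : 0 ≤ R.nr (j + 2) t1 := nr3_nonneg _ _ _
  obtain ⟨c, -, c1, c2⟩ := S.xx_eq N
  have hm := mb_big Γ j
  have hN := one_le_NN (Γ.M (j + 1))
  have c3 : c ≤ Γ.T (j + 1) ^ 9 := c1.trans (div_le_self (by positivity) hN)
  have h5 : R.xx Γ j a t1 ≤ (Γ.M (j + 1) : ℝ) + 1 := by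
    rw [c2, e]
    have : 1 * Γ.T (j + 1) ^ 27 ≤ Γ.T (j + 1) ^ 40 := cpow hTb (by norm_num) (by norm_num)
    calc c * Γ.T (j + 1) ^ 18 ≤ Γ.T (j + 1) ^ 9 * Γ.T (j + 1) ^ 18 := by gcongr
      _ = 1 * Γ.T (j + 1) ^ 27 := by ring
      _ ≤ _ := this.trans hm
  have m0 : (0 : ℝ) < Γ.M (j + 1) + 1 := by positivity
  set u := R.rr Γ j a / (10 ^ 4 * Γ.lam (j + 2)) with hu
  have u0 : 0 < u := by positivity
  have h6 : R.nr (j + 2) t1 ≤ u := by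
    refine h4.trans ?_
    rw [div_le_iff₀ m0]
    calc R.alf Γ j t1 / 2 = u * R.xx Γ j a t1 := by unfold Raw.xx; rw [hu]; field_simp
      _ ≤ _ := by gcongr
  have h7 : (2 : ℝ) ≤ Real.exp (-(200 * Γ.T (j + 1) ^ 17)) *
      Real.exp ((R.rho Γ j a t1 - Γ.T (j + 1) ^ 15) / 32) := by
    rw [← Real.exp_add, e]
    refine le_trans ?_ (Real.add_one_le_exp _)
    have d1 : 20000 * Γ.T (j + 1) ^ 17 ≤ Γ.T (j + 1) ^ 18 := cpow hTb (by norm_num) le_rfl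
    have d2 : 1 * Γ.T (j + 1) ^ 15 ≤ Γ.T (j + 1) ^ 17 := cpow hTb (by norm_num) (by norm_num)
    have d3 : 1 * Γ.T (j + 1) ^ 0 ≤ Γ.T (j + 1) ^ 17 := cpow hTb (by norm_num) (by norm_num)
    linarith only [d1, d2, d3]
  have h8 : u * 2 ≤ R.alf Γ (j + 1) t1 :=
    calc u * 2 ≤ u * (Real.exp (-(200 * Γ.T (j + 1) ^ 17)) *
          Real.exp ((R.rho Γ j a t1 - Γ.T (j + 1) ^ 15) / 32)) := by gcongr
      _ = u * Real.exp (-(200 * Γ.T (j + 1) ^ 17)) *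
          Real.exp ((R.rho Γ j a t1 - Γ.T (j + 1) ^ 15) / 32) := by ring
      _ ≤ _ := le_trans (by gcongr) h1
  have h9 : (u * 2) ^ 2 ≤ R.alf Γ (j + 1) t1 ^ 2 := by gcongr
  have h10 : R.nr (j + 2) t1 ^ 2 ≤ u ^ 2 := by gcongr
  linarith only [h3, h9, h10, pow_pos u0 2]

end NextAux

open NextAux in
theorem next (hν : 0 < ν) (N : IsNet Γ ν a0 R) (S : St Γ ν R j t0 a tb) (H : Run Γ R j t0 a t1) :
    St Γ ν R (j + 1) t1 (R.alf Γ j t1 / 2) tb := by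
  obtain ⟨σ, K⟩ := exists_seed hν N S H
  have mem : t1 ∈ Icc t0 t1 := ⟨H.le, le_rfl⟩
  have hp := half_pos (H.pos t1 mem)
  have m0 : (0 : ℝ) < Γ.M (j + 1) + 1 := by positivity
  refine ⟨S.t0_nonneg.trans H.le, hp, (H.coneB N S mem).1, K1 hν N S H, K2 hν N S H,
    fun t ht => (Eb_hor hν N S H t ht).trans ?_, horD hν N S H, fun t ht => ?_, ?_, ?_,
    (phase2 hν N S H K).2, Ec_t1 hν N S H, ?_⟩
  · have : (3006 : ℝ) ≤ Γ.T (j + 1) := le_trans (by norm_num) (Γ.Tbig _)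
    (clear * - hp this; gcongr)
  · rcases le_total t t0 with h | h
    · refine ((pre hν N S).2.2.1 t ⟨ht.1, h⟩).trans ?_
      have := H.mono N S le_rfl H.le le_rfl
      gcongr
    · refine (H.small t ⟨h, ht.2⟩).trans ?_
      have := H.mono N S h ht.2 le_rfl
      gcongr
  · rw [now hν N S H K]
    gcongr
    linarith
  · refine lt_of_lt_of_le ?_ (phase2 hν N S H K).1
    have hr := S.rr_pos N
    have hl := Γ.lam_pos' (j + 2)
    exact mul_pos (lt_of_lt_of_le (by positivity) K.lo2) (Real.exp_pos _)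
  · linarith only [DD_le hν N S H, H.le', S.time]

end

end Pool.Agent.Work.MP_6bf1e5_an.Dec
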