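import Pool.Agent.Work.MP_6bf1e5_an.Dec.Next

/-!
The envelope system has no global solution.
-/

open Set Complex
open scoped InnerProductSpace ComplexConjugate
open Pool.Agent.Work.MP_6bf1e5_an.B (Z3 R3 box)

namespace Pool.Agent.Work.MP_6bf1e5_an.Dec

noncomputable section

variable {Γ : Geo} {ν : ℝ} {R : Raw}

namespace NoNetAux

lemma T_ge (Γ : Geo) (j : ℕ) : (10 : ℝ) ^ 10 ≤ Γ.T j :=
  (pow_le_pow_right₀ (by norm_num) (by norm_num)).trans (Γ.Tbig j)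

lemma one_le_T (Γ : Geo) (j : ℕ) : 1 ≤ Γ.T j := le_trans (by norm_num) (T_ge Γ j)

lemma pow_le_M (Γ : Geo) (j : ℕ) {k : ℕ} (hk : k ≤ 10 ^ 5) : Γ.T j ^ k ≤ Γ.M j + 1 :=
  (pow_le_pow_left₀ (Γ.T_pos j).le (Γ.Tmono j) k).trans (Γ.pow_le_M j hk)

lemma lam_mono (Γ : Geo) (j : ℕ) : 2 * Γ.lam j ≤ Γ.lam (j + 1) := by
  rw [Γ.lam_succ']
  have h1 := T_ge Γ j
  have h2 : Γ.T j ≤ Γ.T j ^ 8 := le_self_pow₀ (one_le_T Γ j) (by norm_num)
  exact mul_le_mul_of_nonneg_right (by linarith) (Γ.lam_pos' j).le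

lemma le_lam (Γ : Geo) (j : ℕ) : (j : ℝ) + 1 ≤ Γ.lam j := by
  induction j with
  | zero =>
    have := Γ.M_le_lam 0
    have h : (0 : ℝ) ≤ Γ.M 0 := Nat.cast_nonneg _
    push_cast
    linarith
  | succ j ih =>
    have := lam_mono Γ j
    have h : (0 : ℝ) ≤ j := Nat.cast_nonneg _
    push_cast
    linarith

lemma M_le_NN (n : ℕ) : (n + 1 : ℝ) ≤ NN n := by
  refine (pow_le_pow_iff_left₀ (by positivity) (NN_pos _).le two_ne_zero).mp ?_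
  rw [NN_sq]
  exact pow_le_pow_right₀ (by linarith [(Nat.cast_nonneg n : (0 : ℝ) ≤ n)]) (by norm_num)

lemma norm_smul_phi (n : ℕ) {b : ℝ} (hb : 0 ≤ b) : ‖(b : ℂ) • phi n‖ = b := by
  rw [norm_smul, norm_phi, mul_one, Complex.norm_real, Real.norm_of_nonneg hb]

lemma nr3_init (n : ℕ) {b : ℝ} (hb : 0 ≤ b) :
    nr3 ((b : ℂ) • phi n) (((b / √2 : ℝ) : ℂ) • phi n) (((b / √2 : ℝ) : ℂ) • phi n) ^ 2 =
      2 * b ^ 2 := by
  rw [nr3_sq, norm_smul_phi n hb, norm_smul_phi n (by positivity), div_pow,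
    Real.sq_sqrt (by norm_num)]
  ring

lemma re_inner_ge {n : ℕ} {u : V} {δ : ℝ} (h : ‖u - phi n‖ ≤ δ) : 1 - δ ≤ (⟪phi n, u⟫_ℂ).re := by
  have e : ⟪phi n, u⟫_ℂ = 1 + ⟪phi n, u - phi n⟫_ℂ := by
    rw [inner_sub_right, inner_self_eq_norm_sq_to_K, norm_phi]
    simp
  have h1 : ‖⟪phi n, u - phi n⟫_ℂ‖ ≤ δ :=
    (norm_inner_le_norm _ _).trans (by rw [norm_phi, one_mul]; exact h)
  have h2 := (abs_le.mp ((Complex.abs_re_le_norm _).trans h1)).1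
  rw [e, Complex.add_re, Complex.one_re]
  linarith

lemma al_init {n : ℕ} {p : V} {b δ : ℝ} (hb : 0 ≤ b) (h : ‖p * phi n - phi n‖ ≤ δ) :
    b * (2 - δ) ≤ al n p ((b : ℂ) • phi n) (((b / √2 : ℝ) : ℂ) • phi n)
      (((b / √2 : ℝ) : ℂ) • phi n) := by
  have h1 := re_inner_ge h
  have h2 : (⟪p * phi n, phi n⟫_ℂ).re = (⟪phi n, p * phi n⟫_ℂ).re := by
    rw [← inner_conj_symm, Complex.conj_re]
  have h3 : ⟪dag p * phi n, phi n⟫_ℂ = ⟪phi n, p * phi n⟫_ℂ := (inner_mul_right _ _ _).symm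
  have h4 : (⟪phi n, phi n⟫_ℂ).re = 1 := by
    rw [inner_self_eq_norm_sq_to_K, norm_phi]
    simp
  have s2 : (√2 : ℝ) * √2 = 2 := Real.mul_self_sqrt (by norm_num)
  have s0 : (0 : ℝ) < √2 := by positivity
  unfold al
  simp only [inner_smul_right, Complex.re_ofReal_mul]
  rw [h2, h3, h4]
  have e : (b / √2 * (⟪phi n, p * phi n⟫_ℂ).re + b / √2 * (⟪phi n, p * phi n⟫_ℂ).re) / √2 =
      b * (⟪phi n, p * phi n⟫_ℂ).re := by
    field_simp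
    rw [sq, s2]
    ring
  rw [e]
  nlinarith only [hb, h1]

lemma horD_num {q q0 l N a r T nB n0 s : ℝ} (ha : 0 < a) (hT : 10 ^ 10 ≤ T) (hq0 : 0 ≤ q0)
    (hq : q0 ≤ q) (hl : 0 < l) (hr : T ^ 100 * q ≤ r) (hr2 : l / 4 * N * a ≤ r) (hN : T ^ 15 ≤ N)
    (hB : nB ≤ 20 * a) (hn0 : 0 ≤ n0) (hn : n0 ≤ 20 * a) (hs : s ≤ 10 * a) :
    4 * q0 * nB + 10 ^ 4 * l * (s * n0) ≤ r * a / T ^ 14 := by
  have T0 : 0 < T := by linarith only [hT]
  have T1 : 1 ≤ T := by linarith only [hT]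
  have h14 : 0 < T ^ 14 := by positivity
  have h15 : 10 ^ 10 * T ^ 14 ≤ T ^ 15 := by
    rw [pow_succ T 14, mul_comm]
    gcongr
  have h100 : T ^ 15 ≤ T ^ 100 := pow_le_pow_right₀ T1 (by norm_num)
  have e1 : 10 ^ 10 * T ^ 14 * q0 ≤ r := by
    refine le_trans ?_ hr
    exact mul_le_mul (h15.trans h100) hq hq0 (by positivity)
  have e2 : l / 4 * (10 ^ 10 * T ^ 14) * a ≤ r := by
    refine le_trans ?_ hr2
    gcongr
    exact h15.trans hN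
  have e3 : s * n0 ≤ 10 * a * (20 * a) := mul_le_mul hs hn hn0 (by positivity)
  have e4 : 4 * q0 * nB ≤ 4 * q0 * (20 * a) := by gcongr
  have e5 : 10 ^ 4 * l * (s * n0) ≤ 10 ^ 4 * l * (10 * a * (20 * a)) := by gcongr
  have r0 : 0 ≤ r := le_trans (by positivity) e2
  rw [le_div_iff₀ h14]
  have e6 : (4 * q0 * (20 * a) + 10 ^ 4 * l * (10 * a * (20 * a))) * T ^ 14 ≤ r * a := by
    have : (4 * q0 * (20 * a) + 10 ^ 4 * l * (10 * a * (20 * a))) * T ^ 14 =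
        (80 / 10 ^ 10 * (10 ^ 10 * T ^ 14 * q0) +
          8 / 10 ^ 4 * (l / 4 * (10 ^ 10 * T ^ 14) * a)) * a := by ring
    rw [this]
    refine mul_le_mul_of_nonneg_right ?_ ha.le
    linarith only [e1, e2, r0]
  exact le_trans (mul_le_mul_of_nonneg_right (add_le_add e4 e5) h14.le) e6

end NoNetAux

open NoNetAux in
theorem first_state (hν : 0 < ν)
    (N : IsNet Γ ν (4 * Γ.T 0 ^ 100 * (ν * Γ.lam 1 ^ 2) / (Γ.lam 0 * NN (Γ.M 0))) R) :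
    ∃ tb, St Γ ν R 0 0 (4 * Γ.T 0 ^ 100 * (ν * Γ.lam 1 ^ 2) / (Γ.lam 0 * NN (Γ.M 0))) tb := by
  have T0 := Γ.T_pos 0
  have T1 := one_le_T Γ 0
  have T2 := T_ge Γ 0
  have l0 := Γ.lam_pos' 0
  have l1' := Γ.lam_pos' 1
  have n0 := NN_pos (Γ.M 0)
  have hla : Γ.lam 0 * NN (Γ.M 0) *
      (4 * Γ.T 0 ^ 100 * (ν * Γ.lam 1 ^ 2) / (Γ.lam 0 * NN (Γ.M 0))) =
      4 * (Γ.T 0 ^ 100 * (ν * Γ.lam 1 ^ 2)) := by field_simp
  have ha : 0 < 4 * Γ.T 0 ^ 100 * (ν * Γ.lam 1 ^ 2) / (Γ.lam 0 * NN (Γ.M 0)) := by positivity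
  generalize 4 * Γ.T 0 ^ 100 * (ν * Γ.lam 1 ^ 2) / (Γ.lam 0 * NN (Γ.M 0)) = a at N hla ha ⊢
  have m0 : (0 : ℝ) < Γ.M 0 + 1 := by positivity
  have r1 : Γ.lam 0 / 4 * NN (Γ.M 0) * a ≤ R.rr Γ 0 a := by
    unfold Raw.rr
    gcongr
    exact N.kap_lo 0
  have r2 : R.rr Γ 0 a ≤ Γ.lam 0 * NN (Γ.M 0) * a := by
    unfold Raw.rr
    gcongr
    exact N.kap_hi 0
  have K1 : Γ.T 0 ^ 100 * (ν * Γ.lam 1 ^ 2) ≤ R.rr Γ 0 a := by linarith only [hla, r1]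
  have r0 : 0 < R.rr Γ 0 a := lt_of_lt_of_le (by positivity) r1
  have hc : ‖R.B 0 0 - (a : ℂ) • phi (Γ.M 0)‖ = 0 := by rw [N.initB0, sub_self, norm_zero]
  have hb : 0 < a / (2 * (Γ.M 0 + 1)) := by positivity
  have hnr : R.nr 1 0 ^ 2 = 2 * (a / (2 * (Γ.M 0 + 1))) ^ 2 := by
    unfold Raw.nr
    rw [N.initB1, N.initP, N.initM]
    exact nr3_init _ hb.le
  have hn0 : 0 ≤ R.nr 1 0 := nr3_nonneg _ _ _
  have hd := (N.drv (j := 0) le_rfl ha (by rw [hc]; positivity)).1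
  have hδ : ‖R.pp 0 0 * phi (Γ.M 1) - phi (Γ.M 1)‖ ≤ 1 / 10 ^ 23 := by
    have h1 := norm_mul_phi_sub (Γ.M_mono 0) hd.supp
    rw [hd.one, one_smul] at h1
    have h2 := Γ.th_hi 0
    have h3 : 7 / Γ.T 0 ^ 8 ≤ 7 / (10 ^ 10) ^ 8 := by gcongr
    have h4 : l1 (R.pp 0 0) * (30 * ((Γ.M 0 + 1) * th (Γ.M (0 + 1)))) ≤
        2 * (30 * (7 / (10 ^ 10) ^ 8)) := by
      refine mul_le_mul hd.l1_le (by linarith only [h2, h3]) ?_ (by norm_num)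
      unfold th
      have := Real.pi_pos
      positivity
    exact h1.trans (h4.trans (by norm_num))
  have hal : a / (2 * (Γ.M 0 + 1)) * (2 - 1 / 10 ^ 23) ≤ R.alf Γ 0 0 := by
    unfold Raw.alf
    rw [zero_add, N.initB1, N.initP, N.initM]
    exact al_init hb.le hδ
  refine ⟨0 + 2 * R.DD Γ 0 a, le_rfl, ha, by rw [hc]; positivity, K1, ?_, ?_, ?_, ?_, ?_, ?_, ?_,
    ?_, le_rfl⟩
  · have h1 : 64 * Γ.T 0 ^ 300 ≤ Γ.M 0 + 1 := by
      refine le_trans ?_ (pow_le_M Γ 0 (k := 301) (by norm_num))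
      rw [pow_succ (Γ.T 0) 300, mul_comm]
      gcongr
      linarith only [T2]
    calc R.rr Γ 0 a ^ 3 ≤ (4 * (Γ.T 0 ^ 100 * (ν * Γ.lam 1 ^ 2))) ^ 3 :=
          pow_le_pow_left₀ r0.le (by linarith only [hla, r2]) 3
      _ = 64 * Γ.T 0 ^ 300 * (ν * Γ.lam 1 ^ 2) ^ 3 := by ring
      _ ≤ _ := by gcongr
  · intro t ht
    refine (N.E0 t ht.1).trans ?_
    rw [mul_pow]
    gcongr
    nlinarith only [T2]
  · intro t ht
    obtain ⟨D, hD, hD'⟩ := N.eqB0 t ht.1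
    refine ⟨D, hD, hD'.trans ?_⟩
    have e0 := N.E0 t ht.1
    have e1 : R.nr 0 t ≤ 20 * a :=
      (pow_le_pow_iff_left₀ (nr3_nonneg _ _ _) (by positivity) two_ne_zero).mp
        ((N.nrE 0 t ht.1).trans (by linarith only [e0]))
    have e2 : √(R.E 1 t) ≤ 10 * a :=
      Real.sqrt_le_iff.mpr ⟨by positivity, (N.Emono 0 t ht.1).trans (by linarith only [e0])⟩
    have e3 : ν * Γ.lam 0 ^ 2 ≤ ν * Γ.lam 1 ^ 2 := by
      have := lam_mono Γ 0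
      gcongr
      rw [zero_add] at this
      linarith only [l0, this]
    have := horD_num (nB := ‖R.B 0 t‖) ha T2 (by positivity) e3 l0 K1 r1
      ((pow_le_M Γ 0 (k := 15) (by norm_num)).trans (M_le_NN _))
      ((le_nr3_1 _ _ _).trans e1) (nr3_nonneg _ _ _) e1 e2
    rw [zero_add]
    change _ + _ * (_ * R.nr 0 t) ≤ _ at this
    linarith only [this]
  · intro t ht
    obtain rfl : t = 0 := le_antisymm ht.2 ht.1
    refine (pow_le_pow_iff_left₀ hn0 (by positivity) two_ne_zero).mp ?_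
    rw [hnr]
    have : a / (Γ.M 0 + 1) = 2 * (a / (2 * (Γ.M 0 + 1))) := by field_simp
    rw [this]
    nlinarith only []
  · refine (pow_le_pow_iff_left₀ hb.le hn0 two_ne_zero).mp ?_
    rw [hnr]
    nlinarith only []
  · exact lt_of_lt_of_le (mul_pos hb (by norm_num)) hal
  · rw [zero_add, hnr]
    have h1 := pow_le_pow_left₀ (mul_pos hb (by norm_num)).le hal 2
    refine le_trans ?_ (mul_le_mul_of_nonneg_left h1 (by norm_num))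
    rw [mul_pow, ← mul_assoc, mul_comm (1 / 2 + 1 / 10 ^ 22 : ℝ), mul_assoc, mul_comm]
    exact mul_le_mul_of_nonneg_left (by norm_num) (by positivity)
  · refine N.E1.trans ?_
    have h1 : 10 * Γ.T 0 ^ 5 ≤ Γ.M 0 + 1 := by
      refine le_trans ?_ (pow_le_M Γ 0 (k := 6) (by norm_num))
      rw [pow_succ (Γ.T 0) 5, mul_comm]
      gcongr
      linarith only [T2]
    calc 100 * (a / (Γ.M 0 + 1)) ^ 2 ≤ 100 * (a / (10 * Γ.T 0 ^ 5)) ^ 2 := by gcongr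
      _ = _ := by field_simp; norm_num

open NoNetAux in
theorem no_net (Γ : Geo) (hν : 0 < ν) : ∃ a0, 0 < a0 ∧ ∀ R, ¬IsNet Γ ν a0 R := by
  refine ⟨4 * Γ.T 0 ^ 100 * (ν * Γ.lam 1 ^ 2) / (Γ.lam 0 * NN (Γ.M 0)), ?_, fun R N => ?_⟩
  · have T0 := Γ.T_pos 0
    have l0 := Γ.lam_pos' 0
    have l1' := Γ.lam_pos' 1
    have n0 := NN_pos (Γ.M 0)
    positivity
  obtain ⟨tb, S0⟩ := first_state hν N
  have H : ∀ j, ∃ t a, St Γ ν R j t a tb := by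
    intro j
    induction j with
    | zero => exact ⟨_, _, S0⟩
    | succ j ih =>
      obtain ⟨t, a, S⟩ := ih
      obtain ⟨t1, H⟩ := exists_run hν N S
      exact ⟨_, _, next hν N S H⟩
  obtain ⟨K, hK⟩ := N.decay tb
  obtain ⟨j, hj⟩ := exists_nat_gt ((2 * K) ^ 2 / ν ^ 2)
  obtain ⟨t, a, S⟩ := H j
  have ha := S.a_pos
  have T0 := Γ.T_pos j
  have l0 := Γ.lam_pos' j
  have n0 := NN_pos (Γ.M j)
  have r0 := S.rr_pos N
  have hD : 0 ≤ R.DD Γ j a := by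
    unfold Raw.DD
    positivity
  have h1 := hK j t ⟨S.t0_nonneg, by linarith only [hD, S.time]⟩
  have h2 : a / 2 ≤ ‖R.B j t‖ := by
    have e1 := norm_sub_norm_le ((a : ℂ) • phi (Γ.M j)) (R.B j t)
    rw [norm_smul_phi _ ha.le, norm_sub_rev] at e1
    have := S.cone
    linarith only [ha, e1, this]
  have h3 : Γ.lam j * a ≤ 2 * K := by nlinarith only [l0, h1, h2]
  have h4 : ν * Γ.lam j ^ 2 ≤ NN (Γ.M j) * (Γ.lam j * a) := by
    have e1 : R.rr Γ j a ≤ Γ.lam j * NN (Γ.M j) * a := by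
      unfold Raw.rr
      gcongr
      exact N.kap_hi j
    have e2 : ν * Γ.lam j ^ 2 ≤ ν * Γ.lam (j + 1) ^ 2 := by
      have := lam_mono Γ j
      gcongr
      linarith only [l0, this]
    have e3 : ν * Γ.lam (j + 1) ^ 2 ≤ Γ.T j ^ 100 * (ν * Γ.lam (j + 1) ^ 2) :=
      le_mul_of_one_le_left (by positivity) (one_le_pow₀ (one_le_T Γ j))
    have := S.K1
    linarith only [e1, e2, e3, this]
  have h5 : NN (Γ.M j) ^ 2 ≤ Γ.lam j ^ 3 := by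
    rw [NN_sq]
    exact pow_le_pow_left₀ (by positivity) (Γ.M_le_lam j) 3
  have h6 : (ν * Γ.lam j ^ 2) ^ 2 ≤ Γ.lam j ^ 3 * (2 * K) ^ 2 := by
    calc _ ≤ (NN (Γ.M j) * (Γ.lam j * a)) ^ 2 := pow_le_pow_left₀ (by positivity) h4 2
      _ = NN (Γ.M j) ^ 2 * (Γ.lam j * a) ^ 2 := by ring
      _ ≤ _ := by gcongr
  have h7 : ν ^ 2 * Γ.lam j ≤ (2 * K) ^ 2 := by
    refine le_of_mul_le_mul_left ?_ (pow_pos l0 3)
    calc _ = (ν * Γ.lam j ^ 2) ^ 2 := by ring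
      _ ≤ _ := h6
  rw [div_lt_iff₀ (by positivity)] at hj
  have h8 := le_lam Γ j
  have h9 : 0 < ν ^ 2 := by positivity
  nlinarith only [hj, h7, h8]

end

end Pool.Agent.Work.MP_6bf1e5_an.Dec
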