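import Pool.Agent.Work.MP_6bf1e5_an.Dec.NormB

/-!
Common facts on the stages.
-/

open Set Complex
open scoped InnerProductSpace ComplexConjugate
open Pool.Agent.Work.MP_6bf1e5_an.B (Z3 R3 box)

namespace Pool.Agent.Work.MP_6bf1e5_an.Dec

noncomputable section

variable {Γ : Geo} {ν a0 : ℝ} {R : Raw} {j : ℕ} {t0 a tb t1 t : ℝ}

namespace NormAux

lemma T_ge (Γ : Geo) (j : ℕ) : (10 : ℝ) ^ 10 ≤ Γ.T j :=
  le_trans (by norm_num) (Γ.Tbig j)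

lemma le_NN (n : ℕ) : (n + 1 : ℝ) ≤ NN n := by
  have h0 : (0 : ℝ) ≤ n := Nat.cast_nonneg n
  refine (sq_le_sq₀ (by positivity) (NN_pos n).le).1 ?_
  rw [NN_sq]
  nlinarith [sq_nonneg (n + 1 : ℝ)]

/-- A positive multiple of the unstable component grows at the same rate. -/
lemma hd_mul (H : Run Γ R j t0 a t1) (ht : t ∈ Icc t0 t1) {F : ℝ → ℝ} {c : ℝ} (hc : 0 < c)
    (hF : ∀ s, F s = c * R.alf Γ j s) : 0 < F t ∧ ∃ D, HD F D t ∧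
      R.rr Γ j a / 2 * F t ≤ D ∧ D ≤ 8 * R.rr Γ j a * F t := by
  obtain ⟨D, h1, h2, h3⟩ := H.grow t ht
  have hp := H.pos t ht
  have e : F = fun s => c * R.alf Γ j s := funext hF
  subst e
  refine ⟨by positivity, c * D, h1.const_mul c, ?_, ?_⟩
  · have := mul_le_mul_of_nonneg_left h2 hc.le
    linarith only [this]
  · have := mul_le_mul_of_nonneg_left h3 hc.le
    linarith only [this]

/-- The zero coefficient of a product of two elements close to multiples of the ground state. -/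
lemma coeff_lo {n : ℕ} {f g : V} {b c η η' : ℝ} (hb : 0 ≤ b) (hc : 0 ≤ c)
    (hf : ‖f - (b : ℂ) • phi n‖ ≤ η) (hg : ‖g - (c : ℂ) • phi n‖ ≤ η') :
    b * c - b * η' - η * (c + η') ≤ ((f * g).coeff 0).re := by
  have e : f * g = ((b : ℂ) * c) • (phi n * phi n) + ((b : ℂ) • phi n) * (g - (c : ℂ) • phi n) +
      (f - (b : ℂ) • phi n) * g := by
    rw [mul_sub, sub_mul, smul_mul_smul_comm]
    abel
  have e1 : (phi n * phi n).coeff 0 = 1 := by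
    have h := inner_eq_coeff (phi n) (phi n)
    rw [dag_phi, inner_self_eq_norm_sq_to_K, norm_phi] at h
    rw [← h]
    simp
  have nb : ‖(b : ℂ) • phi n‖ = b := by
    rw [norm_smul, norm_phi, Complex.norm_real, Real.norm_of_nonneg hb, mul_one]
  have nc : ‖(c : ℂ) • phi n‖ = c := by
    rw [norm_smul, norm_phi, Complex.norm_real, Real.norm_of_nonneg hc, mul_one]
  have ng : ‖g‖ ≤ c + η' := by
    have := norm_add_le ((c : ℂ) • phi n) (g - (c : ℂ) • phi n)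
    rw [add_sub_cancel, nc] at this
    linarith
  have h1 := norm_coeff_mul_le ((b : ℂ) • phi n) (g - (c : ℂ) • phi n) 0
  have h2 := norm_coeff_mul_le (f - (b : ℂ) • phi n) g 0
  have h3 := (abs_le.1 (Complex.abs_re_le_norm
    ((((b : ℂ) • phi n) * (g - (c : ℂ) • phi n)).coeff 0))).1
  have h4 := (abs_le.1 (Complex.abs_re_le_norm (((f - (b : ℂ) • phi n) * g).coeff 0))).1
  have h5 : ‖(b : ℂ) • phi n‖ * ‖g - (c : ℂ) • phi n‖ ≤ b * η' := by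
    rw [nb]; gcongr
  have h6 : ‖f - (b : ℂ) • phi n‖ * ‖g‖ ≤ η * (c + η') :=
    mul_le_mul hf ng (norm_nonneg _) ((norm_nonneg _).trans hf)
  have e2 : ((f * g).coeff 0).re = b * c +
      ((((b : ℂ) • phi n) * (g - (c : ℂ) • phi n)).coeff 0).re +
      (((f - (b : ℂ) • phi n) * g).coeff 0).re := by
    rw [e]
    simp only [AddMonoidAlgebra.coeff_add, AddMonoidAlgebra.coeff_smul, Finsupp.add_apply,
      Finsupp.smul_apply, e1, Complex.add_re, smul_eq_mul, mul_one, Complex.mul_re,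
      Complex.ofReal_re, Complex.ofReal_im, mul_zero, sub_zero]
  rw [e2]
  linarith only [h1, h2, h3, h4, h5, h6]

/-- The numerical bound on the initial ratio. -/
lemma k_rho {T Ta m k ρ : ℝ} (hT : (10 : ℝ) ^ 100 ≤ T) (h0 : 0 < Ta) (h1 : Ta ≤ T) (hk0 : 0 ≤ k)
    (hk : k ^ 3 ≤ m) (hm : Real.exp (T ^ 9 / 1024) ≤ m) (hρ : ρ ≤ 2 * Ta ^ 20 / m) :
    k ^ 2 * ρ ≤ Real.exp (-(2 * T ^ 2)) := by
  have m0 : 0 < m := lt_of_lt_of_le (Real.exp_pos _) hm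
  have T1 : (10 : ℝ) ^ 10 ≤ T := le_trans (by norm_num) hT
  have T0 : 0 < T := by linarith only [hT, show (0 : ℝ) < 10 ^ 10 by norm_num]
  have h2 : k ^ 2 * ρ ≤ k ^ 2 * (2 * T ^ 20 / m) :=
    mul_le_mul_of_nonneg_left (hρ.trans (by gcongr)) (by positivity)
  refine h2.trans (le_of_pow_le_pow_left₀ (n := 3) (by norm_num) (Real.exp_pos _).le ?_)
  have h3 : (k ^ 2 * (2 * T ^ 20 / m)) ^ 3 = (k ^ 3) ^ 2 * (8 * T ^ 60 / m ^ 3) := by ring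
  have h4 : (k ^ 3) ^ 2 * (8 * T ^ 60 / m ^ 3) ≤ m ^ 2 * (8 * T ^ 60 / m ^ 3) := by gcongr
  have h5 : m ^ 2 * (8 * T ^ 60 / m ^ 3) = 8 * T ^ 60 / m := by field_simp
  have h6 : 8 * T ^ 60 ≤ Real.exp T := by
    refine le_trans ?_ (pow_le_exp hT (k := 61) (by norm_num))
    rw [pow_succ T 60, mul_comm]
    gcongr
    linarith only [hT]
  have h7 : T + 6 * T ^ 2 ≤ T ^ 9 / 1024 := by
    have a1 : T ≤ T ^ 2 := by nlinarith only [hT]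
    have a2 : (10 : ℝ) ^ 10 ≤ T ^ 7 :=
      T1.trans (le_self_pow₀ (by linarith only [hT, show (1 : ℝ) ≤ 10 ^ 10 by norm_num]) (by norm_num))
    have a3 : T ^ 9 = T ^ 7 * T ^ 2 := by ring
    have a4 : (10 : ℝ) ^ 10 * T ^ 2 ≤ T ^ 7 * T ^ 2 := by gcongr
    have a5 : 0 ≤ T ^ 2 := by positivity
    rw [a3]
    linarith only [hT, a1, a4]
  rw [h3]
  refine h4.trans ?_
  rw [h5, ← Real.exp_nat_mul, div_le_iff₀ m0]
  calc 8 * T ^ 60 ≤ Real.exp T := h6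
    _ ≤ Real.exp (((3 : ℕ) : ℝ) * -(2 * T ^ 2) + T ^ 9 / 1024) := by
      refine Real.exp_le_exp.2 ?_
      push_cast
      linarith only [h7]
    _ = Real.exp (((3 : ℕ) : ℝ) * -(2 * T ^ 2)) * Real.exp (T ^ 9 / 1024) := Real.exp_add _ _
    _ ≤ _ := by gcongr

end NormAux

open NormAux

lemma St.rr_pos (N : IsNet Γ ν a0 R) (S : St Γ ν R j t0 a tb) : 0 < R.rr Γ j a :=
  mul_pos (mul_pos (N.kap_pos j) (NN_pos _)) S.a_pos

lemma St.alf_lo (N : IsNet Γ ν a0 R) (S : St Γ ν R j t0 a tb) :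
    a / (2 * (Γ.M j + 1)) ≤ R.alf Γ j t0 ∧ R.alf Γ j t0 ≤ 2 * a / (Γ.M j + 1) := by
  have ha := S.a_pos
  have hα := S.pos
  have hn : 0 ≤ R.nr (j + 1) t0 := nr3_nonneg _ _ _
  constructor
  · refine S.now.trans ((sq_le_sq₀ hn hα.le).1 (S.gb.trans ?_))
    have : 0 ≤ R.alf Γ j t0 ^ 2 := sq_nonneg _
    linarith
  · have hp := (N.drv S.t0_nonneg ha (S.cone.trans (by linarith))).1
    have h1 : R.alf Γ j t0 ^ 2 ≤ 2 * R.nr (j + 1) t0 ^ 2 := abs_al_le hp _ _ _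
    have h2 := S.past t0 ⟨S.t0_nonneg, le_rfl⟩
    have h3 : R.alf Γ j t0 ≤ 2 * R.nr (j + 1) t0 :=
      (sq_le_sq₀ hα.le (by positivity)).1 (by nlinarith only [h1])
    rw [mul_div_assoc]
    linarith

lemma Run.mono (N : IsNet Γ ν a0 R) (S : St Γ ν R j t0 a tb) (H : Run Γ R j t0 a t1) {s u : ℝ}
    (h1 : t0 ≤ s) (h2 : s ≤ u) (h3 : u ≤ t1) : R.alf Γ j s ≤ R.alf Γ j u := by
  refine mono_of_deriv S.t0_nonneg (fun t ht => ?_) h1 h2 h3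
  obtain ⟨D, d1, d2, -⟩ := H.grow t ht
  have := S.rr_pos N
  have := H.pos t ht
  exact ⟨D, d1, le_trans (by positivity) d2⟩

lemma Run.nr_le (H : Run Γ R j t0 a t1) (ht : t ∈ Icc t0 t1) :
    R.nr (j + 1) t ≤ 71 / 100 * R.alf Γ j t := by
  have hα := H.pos t ht
  refine (sq_le_sq₀ (nr3_nonneg _ _ _) (by positivity)).1 ((H.gb t ht).trans ?_)
  have : 0 ≤ R.alf Γ j t ^ 2 := sq_nonneg _
  linarith

lemma Run.hd_rho (N : IsNet Γ ν a0 R) (S : St Γ ν R j t0 a tb) (H : Run Γ R j t0 a t1)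
    (ht : t ∈ Icc t0 t1) : 0 < R.rho Γ j a t ∧ ∃ D, HD (R.rho Γ j a) D t ∧
      R.rr Γ j a / 2 * R.rho Γ j a t ≤ D ∧ D ≤ 8 * R.rr Γ j a * R.rho Γ j a t := by
  have h1 := S.rr_pos N
  have h2 := N.kap_pos (j + 1)
  have h3 := NN_pos (Γ.M (j + 1))
  refine hd_mul H ht (c := R.kap (j + 1) * NN (Γ.M (j + 1)) / 2 / R.rr Γ j a) (by positivity)
    fun s => ?_
  rw [Raw.rho, Raw.rr]
  ring

lemma Run.hd_xx (N : IsNet Γ ν a0 R) (S : St Γ ν R j t0 a tb) (H : Run Γ R j t0 a t1)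
    (ht : t ∈ Icc t0 t1) : 0 < R.xx Γ j a t ∧ ∃ D, HD (R.xx Γ j a) D t ∧
      R.rr Γ j a / 2 * R.xx Γ j a t ≤ D ∧ D ≤ 8 * R.rr Γ j a * R.xx Γ j a t := by
  have h1 := S.rr_pos N
  have h2 := Γ.lam_pos' (j + 2)
  refine hd_mul H ht (c := 10 ^ 4 * Γ.lam (j + 2) / 2 / R.rr Γ j a) (by positivity) fun s => ?_
  rw [Raw.xx]
  ring

/-- `x` is `ρ` times a constant of size `1 / N`. -/
lemma St.xx_eq (N : IsNet Γ ν a0 R) (S : St Γ ν R j t0 a tb) : ∃ c, (NN (Γ.M (j + 1)))⁻¹ ≤ c ∧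
    c ≤ Γ.T (j + 1) ^ 9 / NN (Γ.M (j + 1)) ∧ ∀ t, R.xx Γ j a t = c * R.rho Γ j a t := by
  have h1 := S.rr_pos N
  have h2 := N.kap_pos (j + 1)
  have h3 := NN_pos (Γ.M (j + 1))
  have h4 := Γ.lam_pos' (j + 1)
  have h5 := N.kap_lo (j + 1)
  have h6 := N.kap_hi (j + 1)
  have h7 := T_ge Γ (j + 1)
  have h8 : Γ.lam (j + 2) = Γ.T (j + 1) ^ 8 * Γ.lam (j + 1) := Γ.lam_succ' (j + 1)
  have h9 : 1 ≤ Γ.T (j + 1) ^ 8 := one_le_pow₀ (by linarith only [h7, show (1 : ℝ) ≤ 10 ^ 10 by norm_num])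
  refine ⟨10 ^ 4 * Γ.lam (j + 2) / R.kap (j + 1) / NN (Γ.M (j + 1)), ?_, ?_, fun t => ?_⟩
  · rw [inv_eq_one_div]
    gcongr
    rw [le_div_iff₀ h2, h8]
    nlinarith only [h4, h6, h9]
  · gcongr
    rw [div_le_iff₀ h2, h8, pow_succ _ 8]
    have e1 : 10 ^ 4 * Γ.lam (j + 1) ≤ Γ.T (j + 1) * R.kap (j + 1) := by nlinarith only [h2, h5, h7]
    have := mul_le_mul_of_nonneg_left e1 (zero_le_one.trans h9)
    linarith
  · rw [Raw.xx, Raw.rho]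
    generalize R.rr Γ j a = r at h1
    rw [Raw.rr]
    field_simp

lemma St.rho_t0 (N : IsNet Γ ν a0 R) (S : St Γ ν R j t0 a tb) :
    1 / (Γ.M j + 1) ≤ R.rho Γ j a t0 ∧ R.rho Γ j a t0 ≤ 2 * Γ.T j ^ 20 / (Γ.M j + 1) := by
  obtain ⟨r1, r2⟩ := N.rr_ratio j
  obtain ⟨a1, a2⟩ := S.alf_lo N
  have ha := S.a_pos
  have hm : (0 : ℝ) < Γ.M j + 1 := by positivity
  have h0 : 0 < R.rr Γ j 1 := mul_pos (mul_pos (N.kap_pos j) (NN_pos _)) one_pos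
  have e : R.rho Γ j a t0 = R.rr Γ (j + 1) 1 / R.rr Γ j 1 * (R.alf Γ j t0 / 2 / a) := by
    simp only [Raw.rho, Raw.rr]
    ring
  have h7 := T_ge Γ j
  have h8 : (10 : ℝ) ^ 10 ≤ Γ.T j ^ 20 :=
    h7.trans (le_self_pow₀ (by linarith only [h7, show (1 : ℝ) ≤ 10 ^ 10 by norm_num]) (by norm_num))
  have b1 : Γ.T j ^ 20 / 32 ≤ R.rr Γ (j + 1) 1 / R.rr Γ j 1 := (le_div_iff₀ h0).2 r1
  have b2 : R.rr Γ (j + 1) 1 / R.rr Γ j 1 ≤ 2 * Γ.T j ^ 20 := (div_le_iff₀ h0).2 r2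
  have c1 : 1 / (4 * (Γ.M j + 1)) ≤ R.alf Γ j t0 / 2 / a := by
    rw [le_div_iff₀ ha]
    have : 1 / (4 * (Γ.M j + 1 : ℝ)) * a = a / (2 * (Γ.M j + 1)) / 2 := by field_simp; norm_num
    linarith only [a1, this]
  have c2 : R.alf Γ j t0 / 2 / a ≤ 1 / (Γ.M j + 1) := by
    rw [div_le_iff₀ ha]
    have : 1 / (Γ.M j + 1 : ℝ) * a = 2 * a / (Γ.M j + 1) / 2 := by field_simp
    linarith only [a2, this]
  have b0 : 4 ≤ R.rr Γ (j + 1) 1 / R.rr Γ j 1 := by linarith only [h8, b1]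
  rw [e]
  constructor
  · calc 1 / (Γ.M j + 1 : ℝ) = 4 * (1 / (4 * (Γ.M j + 1))) := by field_simp
      _ ≤ _ := mul_le_mul b0 c1 (by positivity) (by linarith only [h8, b1])
  · calc _ ≤ 2 * Γ.T j ^ 20 * (1 / (Γ.M j + 1)) :=
          mul_le_mul b2 c2 (le_trans (by positivity) c1) (by linarith only [h8])
      _ = _ := by ring

lemma Run.hd_WW (hν : 0 < ν) (N : IsNet Γ ν a0 R) (S : St Γ ν R j t0 a tb) (H : Run Γ R j t0 a t1)
    (ht : t ∈ Icc t0 t1) : 0 < R.WW Γ ν j a t0 t ∧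
      R.WW Γ ν j a t0 t ≤ Real.exp (-Γ.T (j + 1) ^ 9) ∧ R.WW Γ ν j a t0 t ≤ R.xx Γ j a t ∧
      R.WW Γ ν j a t0 t ≤ 1 / (Γ.M (j + 1) + 1) ^ 2 ∧
      (Real.exp (-(2 * Γ.T (j + 1) ^ 2)) ≤ R.rho Γ j a t →
        R.WW Γ ν j a t0 t ≤ 2 * 10 ^ 8 * R.xx Γ j a t ^ 2) ∧
      ∃ D, HD (R.WW Γ ν j a t0) D t ∧ R.rr Γ j a / 2 * R.WW Γ ν j a t0 t ≤ D := by
  obtain ⟨x0, D, d1, d2, -⟩ := H.hd_xx N S ht
  have y0 := (H.hd_xx N S ⟨le_rfl, H.le⟩).1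
  have p0 := (H.hd_rho N S ⟨le_rfl, H.le⟩).1
  have p1 := (H.hd_rho N S ht).1
  obtain ⟨c, c1, c2, c3⟩ := S.xx_eq N
  have hr := S.rr_pos N
  have hl := Γ.lam_pos' (j + 1)
  have hq : 0 < ν * Γ.lam (j + 1) ^ 2 := by positivity
  have hN := NN_pos (Γ.M (j + 1))
  have c0 : 0 < c := lt_of_lt_of_le (inv_pos.2 hN) c1
  have hT := T_ge Γ (j + 1)
  have T1 : 1 ≤ Γ.T (j + 1) := by linarith only [hT, show (1 : ℝ) ≤ 10 ^ 10 by norm_num]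
  have Ta := Γ.T_pos j
  have hm : (0 : ℝ) < Γ.M j + 1 := by positivity
  have hm' : (0 : ℝ) < Γ.M (j + 1) + 1 := by positivity
  have mm : (Γ.M j + 1 : ℝ) ≤ Γ.M (j + 1) + 1 := by
    have : (Γ.M j : ℝ) ≤ Γ.M (j + 1) := by exact_mod_cast Γ.M_mono j
    linarith only [this]
  have eW : R.WW Γ ν j a t0 = fun s => 10 ^ 8 * (R.xx Γ j a s ^ 2 +
      (R.rr Γ j a / (ν * Γ.lam (j + 1) ^ 2)) ^ 2 * R.xx Γ j a t0 * R.xx Γ j a s) := rfl
  have hk3 : (R.rr Γ j a / (ν * Γ.lam (j + 1) ^ 2)) ^ 3 ≤ Γ.M j + 1 := by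
    rw [div_pow, div_le_iff₀ (by positivity)]
    exact S.K2
  have hk0 : 0 < R.rr Γ j a / (ν * Γ.lam (j + 1) ^ 2) := by positivity
  have r0 := (S.rho_t0 N).2
  have hkr := k_rho (Γ.Tbig (j + 1)) Ta (Γ.Tmono j) hk0.le hk3 (Γ.exp_le_M j) r0
  rw [eW]
  simp only
  generalize R.rr Γ j a / (ν * Γ.lam (j + 1) ^ 2) = k at *
  have hkr1 : k ^ 2 * R.rho Γ j a t0 ≤ 1 :=
    hkr.trans (Real.exp_le_one_iff.2 (by linarith only [sq_nonneg (Γ.T (j + 1))]))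
  have T18 : 1 ≤ Γ.T (j + 1) ^ 18 := one_le_pow₀ T1
  have hx : R.xx Γ j a t ≤ Γ.T (j + 1) ^ 27 / NN (Γ.M (j + 1)) := by
    rw [c3]
    calc c * R.rho Γ j a t ≤ Γ.T (j + 1) ^ 9 / NN (Γ.M (j + 1)) * Γ.T (j + 1) ^ 18 :=
          mul_le_mul c2 (H.rhole t ht) p1.le (by positivity)
      _ = _ := by ring
  have hy : k ^ 2 * R.xx Γ j a t0 ≤ Γ.T (j + 1) ^ 27 / NN (Γ.M (j + 1)) := by
    rw [c3]
    calc k ^ 2 * (c * R.rho Γ j a t0) = c * (k ^ 2 * R.rho Γ j a t0) := by ring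
      _ ≤ Γ.T (j + 1) ^ 9 / NN (Γ.M (j + 1)) * Γ.T (j + 1) ^ 18 :=
          mul_le_mul c2 (hkr1.trans T18) (by positivity) (by positivity)
      _ = _ := by ring
  have hW : 10 ^ 8 * (R.xx Γ j a t ^ 2 + k ^ 2 * R.xx Γ j a t0 * R.xx Γ j a t) ≤
      Γ.T (j + 1) ^ 28 / NN (Γ.M (j + 1)) * R.xx Γ j a t := by
    have u0 : 0 < Γ.T (j + 1) ^ 27 / NN (Γ.M (j + 1)) := by positivity
    calc _ = 10 ^ 8 * (R.xx Γ j a t + k ^ 2 * R.xx Γ j a t0) * R.xx Γ j a t := by ring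
      _ ≤ Γ.T (j + 1) * (Γ.T (j + 1) ^ 27 / NN (Γ.M (j + 1))) * R.xx Γ j a t := by
          gcongr ?_ * _
          nlinarith only [x0, hT, hx, hy]
      _ = _ := by ring
  have hW2 : 10 ^ 8 * (R.xx Γ j a t ^ 2 + k ^ 2 * R.xx Γ j a t0 * R.xx Γ j a t) ≤
      1 / (Γ.M (j + 1) + 1) ^ 2 := by
    have u1 : Γ.T (j + 1) ^ 55 ≤ Γ.M (j + 1) + 1 := (Γ.pow_le_M j (by norm_num)).trans mm
    calc _ ≤ Γ.T (j + 1) ^ 28 / NN (Γ.M (j + 1)) * R.xx Γ j a t := hW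
      _ ≤ Γ.T (j + 1) ^ 28 / NN (Γ.M (j + 1)) * (Γ.T (j + 1) ^ 27 / NN (Γ.M (j + 1))) := by
          gcongr
      _ = Γ.T (j + 1) ^ 55 / NN (Γ.M (j + 1)) ^ 2 := by ring
      _ ≤ (Γ.M (j + 1) + 1) / NN (Γ.M (j + 1)) ^ 2 := by gcongr
      _ = _ := by rw [NN_sq]; field_simp
  refine ⟨by positivity, hW2.trans ?_, hW.trans ?_, hW2, fun h => ?_,
    10 ^ 8 * (2 * R.xx Γ j a t * D + k ^ 2 * R.xx Γ j a t0 * D), ?_, ?_⟩
  · rw [Real.exp_neg, one_div]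
    refine inv_anti₀ (Real.exp_pos _) ?_
    have e : Real.exp (Γ.T (j + 1) ^ 9) = Real.exp (Γ.T (j + 1) ^ 9 / 2) ^ 2 := by
      rw [← Real.exp_nat_mul]; congr 1; push_cast; ring
    rw [e]
    exact pow_le_pow_left₀ (Real.exp_pos _).le (Γ.Mlo (j + 1)) 2
  · refine mul_le_of_le_one_left x0.le ((div_le_one hN).2 ?_)
    exact ((Γ.pow_le_M j (by norm_num)).trans mm).trans (le_NN _)
  · have u : k ^ 2 * R.xx Γ j a t0 ≤ R.xx Γ j a t := by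
      rw [c3, c3]
      have := mul_le_mul_of_nonneg_left (hkr.trans h) c0.le
      linarith only [this]
    have := mul_le_mul_of_nonneg_right u x0.le
    linarith only [this]
  · have := ((d1.fun_pow 2).fun_add (d1.const_mul (k ^ 2 * R.xx Γ j a t0))).const_mul (10 ^ 8)
    simpa using this
  · have u1 := mul_le_mul_of_nonneg_left d2 x0.le
    have u2 := mul_le_mul_of_nonneg_left d2 (show 0 ≤ k ^ 2 * R.xx Γ j a t0 by (clear * - y0 hk0; positivity))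
    have u3 : 0 ≤ R.rr Γ j a * R.xx Γ j a t ^ 2 := by positivity
    linarith only [u1, u2, u3]

/-- Level `j + 1` stays in its cone and feeds the chain. -/
lemma Run.coneB (N : IsNet Γ ν a0 R) (S : St Γ ν R j t0 a tb) (H : Run Γ R j t0 a t1)
    (ht : t ∈ Icc t0 t1) :
    ‖R.B (j + 1) t - ((R.alf Γ j t / 2 : ℝ) : ℂ) • phi (Γ.M (j + 1))‖ ≤
      1 / (2 * 10 ^ 10) * (R.alf Γ j t / 2) ∧
    (R.alf Γ j t / 2) ^ 2 / 2 ≤ ((R.B (j + 1) t * R.Cp (j + 1) t).coeff 0).re ∧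
    (R.alf Γ j t / 2) ^ 2 / 2 ≤ ((R.B (j + 1) t * R.A (j + 1) t).coeff 0).re := by
  have hp := (N.drv (S.t0_nonneg.trans ht.1) S.a_pos (H.coneA t ht)).1
  have hα := H.pos t ht
  obtain ⟨h1, h2⟩ := cone_close (n := Γ.M (j + 1)) hp (H.gb t ht)
  change ‖R.B (j + 1) t - ((R.alf Γ j t / 2 : ℝ) : ℂ) • phi (Γ.M (j + 1))‖ ^ 2 ≤
    2 / 10 ^ 22 * R.alf Γ j t ^ 2 at h1
  change ‖R.Cp (j + 1) t - ((R.alf Γ j t / 2 / √2 : ℝ) : ℂ) • (R.pp j t * phi (Γ.M (j + 1)))‖ ^ 2 ≤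
    2 / 10 ^ 22 * R.alf Γ j t ^ 2 at h2
  have hs : 2 / 10 ^ 22 * R.alf Γ j t ^ 2 ≤ (1 / (2 * 10 ^ 10) * (R.alf Γ j t / 2)) ^ 2 := by
    have : 0 ≤ R.alf Γ j t ^ 2 := sq_nonneg _
    linarith only [this]
  have g1 := (sq_le_sq₀ (norm_nonneg _) (by positivity)).1 (h1.trans hs)
  have g2 := (sq_le_sq₀ (norm_nonneg _) (by positivity)).1 (h2.trans hs)
  have hb : 0 < R.alf Γ j t / 2 := by positivity
  refine ⟨g1, ?_, ?_⟩
  · have s1 : 1 ≤ √2 := Real.one_le_sqrt.2 (by norm_num)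
    have s2 : √2 ≤ 3 / 2 := Real.sqrt_le_iff.2 (by norm_num)
    have q1 := norm_mul_phi_sub (Γ.M_mono j) hp.supp
    rw [hp.one, one_smul] at q1
    have q2 : ‖R.pp j t * phi (Γ.M (j + 1)) - phi (Γ.M (j + 1))‖ ≤ 1 / 100 := by
      have u1 := Γ.th_hi j
      have u2 := T_ge Γ j
      have u3 : (10 : ℝ) ^ 10 ≤ Γ.T j ^ 8 :=
        u2.trans (le_self_pow₀ (by linarith only [u2, show (1 : ℝ) ≤ 10 ^ 10 by norm_num]) (by norm_num))
      have u4 : 7 / Γ.T j ^ 8 ≤ 7 / 10 ^ 10 := by gcongr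
      have u5 : 0 ≤ (Γ.M j + 1) * th (Γ.M (j + 1)) := by
        have := th_pos (Γ.M (j + 1))
        positivity
      have u6 := mul_le_mul_of_nonneg_right hp.l1_le u5
      norm_num at u4 ⊢
      linarith only [q1, u1, u6, u4]
    generalize R.alf Γ j t / 2 = b at *
    have c1 : b / √2 ≤ b := div_le_self hb.le s1
    have c2 : 2 / 3 * b ≤ b / √2 := by
      rw [le_div_iff₀ (by positivity)]
      nlinarith only [s2, hb]
    generalize b / √2 = c at *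
    have c0 : 0 ≤ c := by linarith only [hb, c2]
    have g3 : ‖R.Cp (j + 1) t - (c : ℂ) • phi (Γ.M (j + 1))‖ ≤ b / 50 := by
      have e : R.Cp (j + 1) t - (c : ℂ) • phi (Γ.M (j + 1)) =
          (R.Cp (j + 1) t - (c : ℂ) • (R.pp j t * phi (Γ.M (j + 1)))) +
            (c : ℂ) • (R.pp j t * phi (Γ.M (j + 1)) - phi (Γ.M (j + 1))) := by
        rw [smul_sub]; abel
      rw [e]
      refine (norm_add_le _ _).trans ?_
      rw [norm_smul, Complex.norm_real, Real.norm_of_nonneg c0]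
      have := mul_le_mul c1 q2 (norm_nonneg _) hb.le
      linarith only [hb, g2, this]
    refine le_trans ?_ (coeff_lo hb.le c0 (g1.trans (show _ ≤ b / 50 by linarith only [hb])) g3)
    nlinarith only [hb, c2]
  · have g3 : ‖R.A (j + 1) t - ((R.alf Γ j t / 2 : ℝ) : ℂ) • phi (Γ.M (j + 1))‖ =
        ‖R.B (j + 1) t - ((R.alf Γ j t / 2 : ℝ) : ℂ) • phi (Γ.M (j + 1))‖ := by
      rw [← norm_sw (R.B (j + 1) t - _), sw_sub, sw_smul, sw_phi, Raw.A]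
    generalize R.alf Γ j t / 2 = b at *
    have g4 := g1.trans (show _ ≤ b / 50 by linarith only [hb])
    refine le_trans ?_ (coeff_lo hb.le hb.le g4 (g3.le.trans g4))
    nlinarith only []

end

end Pool.Agent.Work.MP_6bf1e5_an.Dec
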