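import Pool.Agent.Work.MP_6bf1e5_an.Dec.Phi

/-!
Numerical facts on the parameters.
-/

open Set Complex
open scoped InnerProductSpace ComplexConjugate
open Pool.Agent.Work.MP_6bf1e5_an.B (Z3 R3 box)

namespace Pool.Agent.Work.MP_6bf1e5_an.Dec

noncomputable section

namespace NormAux

lemma luc_succ (k : ℕ) : luc (k + 1) = Nat.fib (k + 2) + Nat.fib k := by
  induction k using Nat.twoStepInduction with
  | zero => rfl
  | one => rfl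
  | more k h1 h2 =>
    have e : luc (k + 2 + 1) = luc (k + 1 + 1) + luc (k + 1) := rfl
    have f1 : Nat.fib (k + 2 + 2) = Nat.fib (k + 2) + Nat.fib (k + 1 + 2) := Nat.fib_add_two
    have f2 : Nat.fib (k + 2) = Nat.fib k + Nat.fib (k + 1) := Nat.fib_add_two
    omega

lemma pow_le_exp_mul {x : ℝ} (hx : 0 ≤ x) (k : ℕ) : x ^ k ≤ Real.exp (k * x) := by
  rw [Real.exp_nat_mul]
  exact pow_le_pow_left₀ hx (by linarith [Real.add_one_le_exp x]) k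

end NormAux

namespace Geo

variable (Γ : Geo) (j : ℕ)

lemma T_pos : 0 < Γ.T j := lt_of_lt_of_le (by positivity) (Γ.Tbig j)

lemma T_ge_na : (10 : ℝ) ^ 10 ≤ Γ.T j :=
  (pow_le_pow_right₀ (by norm_num) (by norm_num)).trans (Γ.Tbig j)

lemma one_le_T_na : 1 ≤ Γ.T j := le_trans (by norm_num) (Γ.T_ge_na j)

lemma T_le_pow_na {k : ℕ} (hk : k ≠ 0) : Γ.T j ≤ Γ.T j ^ k := le_self_pow₀ (Γ.one_le_T_na j) hk

lemma M_le_P_na : (Γ.M j + 1 : ℝ) ≤ Γ.P j := by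
  refine le_trans ?_ (Γ.sep j)
  exact le_mul_of_one_le_right (by positivity) (one_le_pow₀ (Γ.one_le_T_na j))

lemma lam_pos' : 0 < Γ.lam j := by
  have h : (0 : ℝ) < Γ.P j := lt_of_lt_of_le (by positivity) (Γ.M_le_P_na j)
  unfold Geo.lam
  have := Real.pi_pos
  positivity

lemma lam_succ' : Γ.lam (j + 1) = Γ.T j ^ 8 * Γ.lam j := by
  unfold Geo.lam
  rw [Γ.Psucc, Γ.T8]
  push_cast
  ring

lemma M_le_lam : (Γ.M j + 1 : ℝ) ≤ Γ.lam j := by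
  refine (Γ.M_le_P_na j).trans ?_
  unfold Geo.lam
  exact le_mul_of_one_le_left (by positivity) (by linarith [Real.pi_gt_three])

lemma M_mono : Γ.M j ≤ Γ.M (j + 1) := by
  have h1 := Γ.Llo j
  have h2 := Γ.T_le_pow_na j (k := 8) (by norm_num)
  have h3 := Γ.T_ge_na j
  have h4 : (Γ.M j + 1 : ℝ) ≤ Γ.T j ^ 8 / 4 * (Γ.M j + 1) :=
    le_mul_of_one_le_left (by positivity) (by norm_num at h3 ⊢; linarith only [h2, h3])
  have : (Γ.M j : ℝ) ≤ Γ.M (j + 1) := by linarith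
  exact_mod_cast this

lemma M_big : 100 ≤ Γ.M j := by
  have h1 := Γ.Mlo j
  have h2 := Γ.T_le_pow_na j (k := 9) (by norm_num)
  have h3 := Γ.T_ge_na j
  have h4 := Real.add_one_le_exp (Γ.T j ^ 9 / 2)
  have : (100 : ℝ) ≤ Γ.M j := by norm_num at h3; linarith
  exact_mod_cast this

lemma exp_le_M_na : Real.exp (Γ.T (j + 1) ^ 9 / 1024) ≤ Γ.M j + 1 := by
  refine le_trans (Real.exp_le_exp.2 ?_) (Γ.Mlo j)
  have := pow_le_pow_left₀ (Γ.T_pos (j + 1)).le (Γ.Tdbl j) 9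
  rw [mul_pow] at this
  linarith

/-- Any power of `T (j+1)` is negligible against a small power of the box size. -/
lemma pow_le_M {k : ℕ} (hk : k ≤ 10 ^ 5) : Γ.T (j + 1) ^ k ≤ Γ.M j + 1 := by
  refine (NormAux.pow_le_exp_mul (Γ.T_pos _).le k).trans (le_trans (Real.exp_le_exp.2 ?_) (Γ.exp_le_M_na j))
  have h1 : (k : ℝ) ≤ 10 ^ 5 := by exact_mod_cast hk
  have h2 := Γ.T_le_pow_na (j + 1) (k := 8) (by norm_num)
  have h3 := Γ.T_ge_na (j + 1)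
  have h4 := Γ.T_pos (j + 1)
  have h5 : (k : ℝ) ≤ Γ.T (j + 1) ^ 8 / 1024 := by linarith only [h1, h2, h3]
  calc (k : ℝ) * Γ.T (j + 1) ≤ Γ.T (j + 1) ^ 8 / 1024 * Γ.T (j + 1) := by gcongr
    _ = _ := by ring

lemma exp_le_M : Real.exp (Γ.T (j + 1) ^ 9 / 1024) ≤ Γ.M j + 1 := Γ.exp_le_M_na j

lemma NN_lo : Γ.T j ^ 12 / 8 * NN (Γ.M j) ≤ NN (Γ.M (j + 1)) := by
  have h0 := Γ.T_pos j
  have h1 := NN_pos (Γ.M j)
  refine (pow_le_pow_iff_left₀ (by positivity) (NN_pos _).le two_ne_zero).mp ?_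
  rw [mul_pow, NN_sq, NN_sq]
  calc _ = (Γ.T j ^ 8 / 4 * (Γ.M j + 1)) ^ 3 := by ring
    _ ≤ _ := pow_le_pow_left₀ (by positivity) (Γ.Llo j) 3

lemma NN_hi : NN (Γ.M (j + 1)) ≤ Γ.T j ^ 12 / 2 * NN (Γ.M j) := by
  have h0 := Γ.T_pos j
  have h1 := NN_pos (Γ.M j)
  refine (pow_le_pow_iff_left₀ (NN_pos _).le (by positivity) two_ne_zero).mp ?_
  rw [mul_pow, NN_sq, NN_sq]
  calc _ ≤ (Γ.T j ^ 8 / 2 * (Γ.M j + 1)) ^ 3 := pow_le_pow_left₀ (by positivity) (Γ.Lhi j) 3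
    _ = Γ.T j ^ 24 * (Γ.M j + 1) ^ 3 / 8 := by ring
    _ ≤ Γ.T j ^ 24 * (Γ.M j + 1) ^ 3 / 4 := by gcongr; norm_num
    _ = _ := by ring

lemma NN_le_exp : NN (Γ.M (j + 1)) ≤ Real.exp (50 * Γ.T j ^ 9) := by
  have h0 := Γ.T_pos j
  refine (pow_le_pow_iff_left₀ (NN_pos _).le (Real.exp_pos _).le two_ne_zero).mp ?_
  rw [NN_sq, ← Real.exp_nat_mul]
  have h1 : Γ.T j ^ 8 ≤ Real.exp (Γ.T j ^ 9) := by
    refine (NormAux.pow_le_exp_mul h0.le 8).trans (Real.exp_le_exp.2 ?_)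
    have h2 := Γ.T_le_pow_na j (k := 8) (by norm_num)
    have h3 := Γ.T_ge_na j
    calc ((8 : ℕ) : ℝ) * Γ.T j ≤ Γ.T j ^ 8 * Γ.T j := by
          gcongr
          norm_num at h3 ⊢
          linarith
      _ = _ := by ring
  have h2 : (Γ.M (j + 1) + 1 : ℝ) ≤ Real.exp (31 * Γ.T j ^ 9) := by
    calc (Γ.M (j + 1) + 1 : ℝ) ≤ Γ.T j ^ 8 / 2 * (Γ.M j + 1) := Γ.Lhi j
      _ ≤ Real.exp (Γ.T j ^ 9) * Real.exp (30 * Γ.T j ^ 9) := by
          refine mul_le_mul ?_ (Γ.Mhi j) (by positivity) (Real.exp_pos _).le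
          have : 0 < Γ.T j ^ 8 := by positivity
          linarith
      _ = _ := by rw [← Real.exp_add]; ring_nf
  calc _ ≤ Real.exp (31 * Γ.T j ^ 9) ^ 3 := pow_le_pow_left₀ (by positivity) h2 3
    _ ≤ _ := by
      rw [← Real.exp_nat_mul]
      refine Real.exp_le_exp.2 ?_
      have : 0 < Γ.T j ^ 9 := by positivity
      push_cast
      linarith

lemma th_hi : (Γ.M j + 1) * th (Γ.M (j + 1)) ≤ 7 / Γ.T j ^ 8 := by
  have h0 := Γ.T_pos j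
  have h1 := Γ.Llo j
  have h2 := Real.pi_lt_d2
  have h3 := Real.pi_pos
  unfold th
  rw [← mul_div_assoc, div_le_div_iff₀ (by positivity) (by positivity)]
  have h4 : (0 : ℝ) < (Γ.M j + 1) * Γ.T j ^ 8 := by positivity
  nlinarith only [h1, h2, h3]

lemma th_lo_na : 3 / Γ.T j ^ 8 ≤ (Γ.M j + 1) * th (Γ.M (j + 1)) := by
  have h0 := Γ.T_pos j
  have h1 := Γ.Lhi j
  have h2 := Real.pi_gt_three
  unfold th
  rw [← mul_div_assoc, div_le_div_iff₀ (by positivity) (by positivity)]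
  have h4 : (0 : ℝ) < (Γ.M j + 1) * Γ.T j ^ 8 := by positivity
  nlinarith only [h1, h2]

lemma mu_lo : 9 / Γ.T j ^ 16 ≤ mu (Γ.M j) (Γ.M (j + 1)) := by
  have h0 := Γ.T_pos j
  unfold mu
  calc _ = (3 / Γ.T j ^ 8) ^ 2 := by ring
    _ ≤ _ := pow_le_pow_left₀ (by positivity) (Γ.th_lo_na j) 2

lemma mu_hi : mu (Γ.M j) (Γ.M (j + 1)) ≤ 49 / Γ.T j ^ 16 := by
  have h0 := Γ.T_pos j
  unfold mu
  calc _ ≤ (7 / Γ.T j ^ 8) ^ 2 :=
        pow_le_pow_left₀ (le_trans (by positivity) (Γ.th_lo_na j)) (Γ.th_hi j) 2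
    _ = _ := by ring

lemma T8_eq_na : Γ.T j ^ 8 = Nat.fib (Γ.n j) + Nat.fib (Γ.n j - 2) := by
  obtain ⟨k, hk⟩ : ∃ k, Γ.n j = k + 2 := ⟨Γ.n j - 2, by have := Γ.n8 j; omega⟩
  rw [Γ.T8, hk]
  exact_mod_cast NormAux.luc_succ k

lemma fib_hi : (Nat.fib (Γ.n j) : ℝ) ≤ Γ.T j ^ 8 := by
  rw [Γ.T8_eq_na]
  exact le_add_of_nonneg_right (by positivity)

lemma fib_lo : Γ.T j ^ 8 / 4 ≤ Nat.fib (Γ.n j - 2) := by
  rw [Γ.T8_eq_na]
  obtain ⟨k, hk⟩ : ∃ k, Γ.n j = k + 3 := ⟨Γ.n j - 3, by have := Γ.n8 j; omega⟩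
  rw [hk]
  have f1 : Nat.fib (k + 3) = Nat.fib (k + 1) + Nat.fib (k + 2) := Nat.fib_add_two
  have f2 : Nat.fib (k + 2) = Nat.fib k + Nat.fib (k + 1) := Nat.fib_add_two
  have f3 : Nat.fib k ≤ Nat.fib (k + 1) := Nat.fib_le_fib_succ
  have f4 : Nat.fib (k + 3) + Nat.fib (k + 1) ≤ 4 * Nat.fib (k + 1) := by omega
  have f5 : (Nat.fib (k + 3) : ℝ) + Nat.fib (k + 1) ≤ 4 * Nat.fib (k + 1) := by exact_mod_cast f4
  rw [show k + 3 - 2 = k + 1 from rfl]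
  linarith only [f5]

lemma fib_add : Nat.fib (Γ.n j) = Nat.fib (Γ.n j - 1) + Nat.fib (Γ.n j - 2) := by
  obtain ⟨k, hk⟩ : ∃ k, Γ.n j = k + 2 := ⟨Γ.n j - 2, by have := Γ.n8 j; omega⟩
  rw [hk, Nat.fib_add_two, add_comm]
  rfl

end Geo

end

end Pool.Agent.Work.MP_6bf1e5_an.Dec
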