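import Pool.Agent.Work.MP_6bf1e5_an.Dec.StDef
import Pool.Agent.Work.MP_6bf1e5_an.Dec.NormA

/-!
The envelope system with normalised drivers.
-/

open Set Complex
open scoped InnerProductSpace ComplexConjugate
open Pool.Agent.Work.MP_6bf1e5_an.B (Z3 R3 box)

namespace Pool.Agent.Work.MP_6bf1e5_an.Dec

noncomputable section

namespace NormB

lemma av_smul {c : ℝ} (hc : 0 ≤ c) (f : V) : av ((c : ℂ) • f) = (c : ℂ) • av f := by
  ext h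
  simp [abs_of_nonneg hc]

lemma maj_smul {c : ℝ} (hc : 0 ≤ c) (A B Cp Cm : V) :
    maj ((c : ℂ) • A) B Cp Cm = (c : ℂ) • maj A B Cp Cm := by
  rw [maj, maj, dag_smul, Complex.conj_ofReal, av_smul hc, av_smul hc, ← smul_add, smul_mul_assoc]

lemma re_inner_le {d : Z3 → ℝ} {q n xs xf xe xr : ℝ} {v s f e r : V} (hd : ∀ h, q ≤ d h)
    (hv : ‖v‖ ≤ n) (hs : ‖s‖ ≤ xs) (hf : ‖f‖ ≤ xf) (he : ‖e‖ ≤ xe) (hr : ‖r‖ ≤ xr) :
    (⟪v, s - mulr d v + f + e + r⟫_ℂ).re ≤ n * (xs + xf + xe + xr) - q * ‖v‖ ^ 2 := by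
  have h1 := re_inner_mulr_ge hd v
  have h2 : ‖s + f + e + r‖ ≤ xs + xf + xe + xr := norm_add₄_le.trans (by linarith)
  have h3 := (Complex.re_le_norm _).trans ((norm_inner_le_norm (𝕜 := ℂ) v (s + f + e + r)).trans
    (mul_le_mul hv h2 (norm_nonneg _) ((norm_nonneg _).trans hv)))
  rw [show s - mulr d v + f + e + r = s + f + e + r - mulr d v by abel, inner_sub_right,
    Complex.sub_re]
  linarith

end NormB

variable {Γ : Geo} {ν a0 : ℝ} {R : Raw} {j : ℕ} {t0 a tb t1 t : ℝ}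

lemma IsNet.kap_pos (N : IsNet Γ ν a0 R) (j : ℕ) : 0 < R.kap j :=
  lt_of_lt_of_le (by have := Γ.lam_pos' j; positivity) (N.kap_lo j)

lemma IsNet.E_nonneg (N : IsNet Γ ν a0 R) (i : ℕ) (ht : 0 ≤ t) : 0 ≤ R.E i t := by
  have := N.nrE i t ht
  linarith [sq_nonneg (R.nr i t)]

lemma IsNet.f_le (N : IsNet Γ ν a0 R) (j : ℕ) (ht : 0 ≤ t) :
    |R.f (j + 1) t| ≤ 10 ^ 4 * Γ.lam (j + 1) * R.E (j + 1) t := by
  have l0 := Γ.lam_pos' (j + 1)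
  have e0 := N.E_nonneg (j + 1) ht
  rcases j with _ | j
  · rw [zero_add, N.f1, abs_zero]; positivity
  · have n8 := Γ.n8 (j + 1)
    have c0 := N.c_lo j (Γ.n (j + 1)) (by omega) le_rfl
    have c1 := N.c_hi j (Γ.n (j + 1)) (by omega) le_rfl
    have y1 := N.yE j (Γ.n (j + 1) - 1) t ht (by omega) (by omega)
    have y2 := N.yE j (Γ.n (j + 1) - 2) t ht (by omega) (by omega)
    have l1 := Γ.lam_pos' j
    rw [N.fS, abs_mul, abs_of_nonneg (le_trans (by positivity) c0)]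
    refine mul_le_mul c1 (abs_le.mpr ⟨?_, ?_⟩) (abs_nonneg _) (by positivity)
    · linarith only [y1, y2, sq_nonneg (R.y (j + 1) (Γ.n (j + 1) - 1) t + R.y (j + 1) (Γ.n (j + 1) - 2) t)]
    · linarith only [y1, y2, sq_nonneg (R.y (j + 1) (Γ.n (j + 1) - 1) t - R.y (j + 1) (Γ.n (j + 1) - 2) t)]

lemma IsNet.hd_B (N : IsNet Γ ν a0 R) (j : ℕ) (ht : 0 ≤ t) : ∃ D, HD (R.B j) D t := by
  rcases j with _ | j
  · exact (N.eqB0 t ht).imp fun _ h => h.1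
  · obtain ⟨e, r, -, h⟩ := N.eqB j t ht
    exact ⟨_, h⟩

lemma IsNet.cont_nr (N : IsNet Γ ν a0 R) (j : ℕ) : ContinuousOn (R.nr j) (Ici 0) := by
  have cB : ContinuousOn (R.B j) (Ici 0) := fun t ht =>
    (N.hd_B j ht).elim fun _ h => h.continuousWithinAt
  have cP : ContinuousOn (R.Cp j) (Ici 0) := by
    rcases j with _ | j
    · exact continuousOn_const.congr fun t _ => N.zeroP t
    · intro t ht
      obtain ⟨e, r, -, h⟩ := N.eqP j t ht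
      exact h.continuousWithinAt
  have cM : ContinuousOn (R.Cm j) (Ici 0) := by
    rcases j with _ | j
    · exact continuousOn_const.congr fun t _ => N.zeroM t
    · intro t ht
      obtain ⟨e, r, -, h⟩ := N.eqM j t ht
      exact h.continuousWithinAt
  exact (((cB.norm.pow 2).add (cP.norm.pow 2)).add (cM.norm.pow 2)).sqrt

/-- Ratio of the rates of consecutive levels. -/
lemma IsNet.rr_ratio (N : IsNet Γ ν a0 R) (j : ℕ) :
    Γ.T j ^ 20 / 32 * R.rr Γ j 1 ≤ R.rr Γ (j + 1) 1 ∧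
      R.rr Γ (j + 1) 1 ≤ 2 * Γ.T j ^ 20 * R.rr Γ j 1 := by
  have T0 := Γ.T_pos j
  have k0 := N.kap_pos j
  have k1 := N.kap_pos (j + 1)
  have n0 := NN_pos (Γ.M j)
  have n1 := NN_pos (Γ.M (j + 1))
  have e := Γ.lam_succ' j
  have T8 : 0 < Γ.T j ^ 8 := by positivity
  have a1 : Γ.T j ^ 8 / 4 * R.kap j ≤ R.kap (j + 1) := by
    have := mul_le_mul_of_nonneg_left (N.kap_hi j) T8.le
    linarith [N.kap_lo (j + 1)]
  have a2 : R.kap (j + 1) ≤ 4 * Γ.T j ^ 8 * R.kap j := by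
    have := mul_le_mul_of_nonneg_left (N.kap_lo j) T8.le
    linarith only [e, this, N.kap_hi (j + 1)]
  simp only [Raw.rr, mul_one]
  constructor
  · refine le_trans (le_of_eq ?_) (mul_le_mul a1 (Γ.NN_lo j) (by positivity) k1.le)
    ring
  · refine (mul_le_mul a2 (Γ.NN_hi j) n1.le (by positivity)).trans (le_of_eq ?_)
    ring

/-- An envelope in the cone drives the next level. -/
theorem IsNet.drv (N : IsNet Γ ν a0 R) (ht : 0 ≤ t) (ha : 0 < a)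
    (hc : ‖R.B j t - (a : ℂ) • phi (Γ.M j)‖ ≤ 1 / 10 ^ 10 * a) :
    Drv (Γ.M j) (R.pp j t) ∧
      (∃ η, 0 ≤ η ∧ η ≤ 2 * 10 ^ 20 / Γ.T j ^ 4 ∧ Gap (Γ.M j) (Γ.M (j + 1)) η (R.pp j t)) ∧
      R.rr Γ j a / 2 ≤ R.ss j t ∧ R.ss j t ≤ 4 * R.rr Γ j a := by
  obtain ⟨h1, h2, h3⟩ := drv_of_cone (Γ.M_big j) ha (N.suppB j t) (N.sym j t ht) hc
  have k0 := N.kap_pos j
  have T0 := Γ.T_pos j
  have m0 : (0 : ℝ) < Γ.M j + 1 := by positivity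
  have m1 : (0 : ℝ) < Γ.M (j + 1) + 1 := by positivity
  refine ⟨h3, ⟨_, by positivity, ?_, gap_of_drv h3 (le_trans ?_ (Γ.Llo j))⟩, ?_, ?_⟩
  · have : √((Γ.M j + 1 : ℝ) / (Γ.M (j + 1) + 1)) ≤ 2 / Γ.T j ^ 4 := by
      refine Real.sqrt_le_iff.mpr ⟨by positivity, ?_⟩
      rw [div_pow, div_le_div_iff₀ m1 (by positivity)]
      have := Γ.Llo j
      calc (Γ.M j + 1 : ℝ) * (Γ.T j ^ 4) ^ 2 = 4 * (Γ.T j ^ 8 / 4 * (Γ.M j + 1)) := by ring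
        _ ≤ _ := by linarith only [this]
    calc (10 : ℝ) ^ 20 * √((Γ.M j + 1 : ℝ) / (Γ.M (j + 1) + 1)) ≤ 10 ^ 20 * (2 / Γ.T j ^ 4) := by
          gcongr
      _ = _ := by ring
  · have h4 : (10 : ℝ) ^ 100 ≤ Γ.T j ^ 8 :=
      (Γ.Tbig j).trans (le_self_pow₀ (le_trans (by norm_num) (Γ.Tbig j)) (by norm_num))
    refine mul_le_mul_of_nonneg_right ?_ m0.le
    linarith only [h4, show (4 : ℝ) * 10 ^ 60 ≤ 10 ^ 100 by norm_num]
  · have := mul_le_mul_of_nonneg_left h1 k0.le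
    simp only [Raw.rr, Raw.ss]
    linarith only [this]
  · have := mul_le_mul_of_nonneg_left h2 k0.le
    simp only [Raw.rr, Raw.ss]
    linarith only [this]

/-- Derivative of the normalised driver. -/
theorem IsNet.hd_pp (N : IsNet Γ ν a0 R) (ht : 0 ≤ t) (ha : 0 < a)
    (hc : ‖R.B j t - (a : ℂ) • phi (Γ.M j)‖ ≤ 1 / 10 ^ 10 * a) {D : V} (hD : HD (R.B j) D t) :
    ∃ p', HD (R.pp j) p' t ∧ Supp (Γ.M j) p' ∧ ev 0 p' = 0 ∧ l1 p' ≤ 18 * ‖D‖ / a ∧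
      ‖p' * phi (Γ.M (j + 1))‖ ≤ 4000 * ‖D‖ / a / Γ.T j ^ 8 := by
  obtain ⟨h1, -, h3⟩ := drv_of_cone (Γ.M_big j) ha (N.suppB j t) (N.sym j t ht) hc
  have n0 := NN_pos (Γ.M j)
  have T0 := Γ.T_pos j
  have sD : Supp (Γ.M j) D := hD.supp ht (N.suppB j)
  have c1 : NN (Γ.M j) * a / 2 ≤ ‖ev 0 (R.B j t)‖ := h1.trans (Complex.re_le_norm _)
  have c2 : 0 < ‖ev 0 (R.B j t)‖ := lt_of_lt_of_le (by positivity) c1
  have c0 : ev 0 (R.B j t) ≠ 0 := norm_pos_iff.mp c2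
  have d := ((hD.ev ht (N.suppB j) 0).fun_inv c0).fun_smul hD.sw
  have e : (ev 0 (R.B j t))⁻¹ • sw D + (-ev 0 D / ev 0 (R.B j t) ^ 2) • sw (R.B j t) =
      (ev 0 (R.B j t))⁻¹ • (sw D - ev 0 D • pk (R.B j t)) := by
    rw [smul_sub, pk, smul_smul, smul_smul, sub_eq_add_neg, ← neg_smul]
    congr 2
    field_simp
  rw [e] at d
  have s1 : Supp (Γ.M j) ((ev 0 (R.B j t))⁻¹ • (sw D - ev 0 D • pk (R.B j t))) :=
    (sD.sw.sub (h3.supp.smul _)).smul _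
  have z : ev 0 ((ev 0 (R.B j t))⁻¹ • (sw D - ev 0 D • pk (R.B j t))) = 0 := by
    rw [map_smul, map_sub, map_smul, h3.one, sw, ev_zero_prm]; simp
  have l : l1 ((ev 0 (R.B j t))⁻¹ • (sw D - ev 0 D • pk (R.B j t))) ≤ 18 * ‖D‖ / a := by
    have a1 := sD.l1_le
    have a2 := l1_sub_le (sw D) (ev 0 D • pk (R.B j t))
    rw [l1_sw, l1_smul] at a2
    have a3 := mul_le_mul ((norm_ev_le 0 D).trans a1) h3.l1_le (l1_nonneg _) (by positivity)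
    rw [l1_smul, norm_inv, inv_mul_eq_div, div_le_div_iff₀ c2 ha]
    have a4 := mul_le_mul_of_nonneg_left c1 (show 0 ≤ 18 * ‖D‖ by positivity)
    have a5 := mul_le_mul_of_nonneg_right (show l1 (sw D - ev 0 D • pk (R.B j t)) ≤
      9 * NN (Γ.M j) * ‖D‖ by linarith only [a1, a2, a3]) ha.le
    linarith only [a4, a5]
  refine ⟨_, d, s1, z, l, ?_⟩
  have b := norm_mul_phi_sub (Γ.M_mono j) s1
  rw [z, zero_smul, sub_zero] at b
  refine b.trans ((mul_le_mul l (mul_le_mul_of_nonneg_left (Γ.th_hi j) (by norm_num))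
    (by have := th_pos (Γ.M (j + 1)); positivity) (by positivity)).trans ?_)
  calc 18 * ‖D‖ / a * (30 * (7 / Γ.T j ^ 8)) = 3780 * ‖D‖ / a / Γ.T j ^ 8 := by ring
    _ ≤ _ := by gcongr; norm_num

lemma IsNet.cont_ss (N : IsNet Γ ν a0 R) (j : ℕ) : ContinuousOn (R.ss j) (Ici 0) := fun t ht =>
  (N.hd_B j ht).elim fun _ h =>
    ((h.ev ht (N.suppB j) 0).re.continuousWithinAt).const_mul (R.kap j)

lemma IsNet.cont_f (N : IsNet Γ ν a0 R) (j : ℕ) : ContinuousOn (R.f (j + 1)) (Ici 0) := by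
  rcases j with _ | j
  · exact continuousOn_const.congr fun t _ => N.f1 t
  · have n8 := Γ.n8 (j + 1)
    have cy : ∀ m, 1 ≤ m → m < Γ.n (j + 1) → ContinuousOn (R.y (j + 1) m) (Ici 0) :=
      fun m h1 h2 t ht => by
        obtain ⟨S, b, h, -⟩ := N.eqY j m t ht h1 h2
        exact h.continuousWithinAt
    exact (((cy _ (by omega) (by omega)).mul (cy _ (by omega) (by omega))).const_mul _).congr
      fun t _ => N.fS j t

lemma IsNet.A_eq (N : IsNet Γ ν a0 R) (ht : 0 ≤ t) (hs : 0 < R.ss j t) :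
    ∃ c : ℝ, 0 < c ∧ R.ss j t = R.kap j * c ∧ R.A j t = (c : ℂ) • R.pp j t := by
  have c0 : 0 < (ev 0 (R.B j t)).re := (mul_pos_iff_of_pos_left (N.kap_pos j)).mp hs
  have e : ev 0 (R.B j t) = ((ev 0 (R.B j t)).re : ℂ) :=
    Complex.ext (by simp) (by simpa using (N.sym j t ht).ev_zero_im)
  refine ⟨_, c0, rfl, ?_⟩
  rw [Raw.pp, pk, smul_smul, ← e, mul_inv_cancel₀ (by rw [e]; exact_mod_cast c0.ne'), one_smul,
    Raw.A]

/-- The equations of level `j + 1` with the normalised driver. -/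
theorem IsNet.eqs (N : IsNet Γ ν a0 R) (ht : 0 ≤ t) (hs : 0 < R.ss j t) {ρ : ℝ}
    (hρ : 10 ^ 4 * Γ.lam (j + 1) * (√(R.E (j + 2) t) * R.nr (j + 1) t +
      NN (Γ.M (j + 1)) * R.nr (j + 2) t ^ 2) ≤ ρ) :
    (∃ e r, Er1 (Γ.M (j + 1) + Γ.M j) ((Γ.T j ^ 100)⁻¹ * R.ss j t) ρ
      (maj (R.pp j t) (R.B (j + 1) t) (R.Cp (j + 1) t) (R.Cm (j + 1) t)) e r ∧
      HD (R.B (j + 1)) ((R.ss j t : ℂ) • proj (Γ.M (j + 1))
        (dag (R.pp j t) * R.Cp (j + 1) t + R.pp j t * R.Cm (j + 1) t)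
        - mulr (R.dB (j + 1)) (R.B (j + 1) t) + e + r) t) ∧
    (∃ e r, Er1 (Γ.M (j + 1) + Γ.M j) ((Γ.T j ^ 100)⁻¹ * R.ss j t) ρ
      (maj (R.pp j t) (R.B (j + 1) t) (R.Cp (j + 1) t) (R.Cm (j + 1) t)) e r ∧
      HD (R.Cp (j + 1)) ((R.ss j t : ℂ) • (R.pp j t * R.B (j + 1) t)
        - mulr (R.dP (j + 1)) (R.Cp (j + 1) t) + (R.f (j + 1) t : ℂ) • dl + e + r) t) ∧
    (∃ e r, Er1 (Γ.M (j + 1) + Γ.M j) ((Γ.T j ^ 100)⁻¹ * R.ss j t) ρ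
      (maj (R.pp j t) (R.B (j + 1) t) (R.Cp (j + 1) t) (R.Cm (j + 1) t)) e r ∧
      HD (R.Cm (j + 1)) ((R.ss j t : ℂ) • (dag (R.pp j t) * R.B (j + 1) t)
        - mulr (R.dM (j + 1)) (R.Cm (j + 1) t) + (R.f (j + 1) t : ℂ) • dl + e + r) t) := by
  have k0 := N.kap_pos j
  obtain ⟨c, c0, hc, hA⟩ := N.A_eq ht hs
  have er : ∀ e r, R.Err Γ j t e r → Er1 (Γ.M (j + 1) + Γ.M j) ((Γ.T j ^ 100)⁻¹ * R.ss j t) ρ
      (maj (R.pp j t) (R.B (j + 1) t) (R.Cp (j + 1) t) (R.Cm (j + 1) t)) e r := fun e r h =>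
    ⟨fun k => (h.pt k).trans (le_of_eq (by
      rw [hA, NormB.maj_smul c0.le, hc, AddMonoidAlgebra.coeff_smul, Finsupp.smul_apply, norm_smul,
        Complex.norm_real, Real.norm_of_nonneg c0.le]
      ring)), h.se, h.sr, h.nrm.trans hρ⟩
  have dA : dag (R.A j t) = (c : ℂ) • dag (R.pp j t) := by rw [hA, dag_smul, Complex.conj_ofReal]
  refine ⟨?_, ?_, ?_⟩
  · obtain ⟨e, r, h1, h2⟩ := N.eqB j t ht
    refine ⟨e, r, er e r h1, ?_⟩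
    rwa [dA, hA, smul_mul_assoc, smul_mul_assoc, ← smul_add, map_smul, smul_smul,
      ← Complex.ofReal_mul, ← hc] at h2
  · obtain ⟨e, r, h1, h2⟩ := N.eqP j t ht
    refine ⟨e, r, er e r h1, ?_⟩
    rwa [hA, smul_mul_assoc, smul_smul, ← Complex.ofReal_mul, ← hc] at h2
  · obtain ⟨e, r, h1, h2⟩ := N.eqM j t ht
    refine ⟨e, r, er e r h1, ?_⟩
    rwa [dA, smul_mul_assoc, smul_smul, ← Complex.ofReal_mul, ← hc] at h2

/-- The same with all the errors collected. -/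
theorem IsNet.eqs' (hν : 0 < ν) (N : IsNet Γ ν a0 R) (ht : 0 ≤ t) (hs : 0 < R.ss j t)
    (hp : Drv (Γ.M j) (R.pp j t)) {ε : ℝ}
    (hε : (4 * (ν * Γ.lam (j + 1) ^ 2) + 12 * (Γ.T j ^ 100)⁻¹ * R.ss j t) * R.nr (j + 1) t +
      |R.f (j + 1) t| + 10 ^ 4 * Γ.lam (j + 1) * (√(R.E (j + 2) t) * R.nr (j + 1) t +
      NN (Γ.M (j + 1)) * R.nr (j + 2) t ^ 2) ≤ ε) :
    ∃ eB eP eM : V, ‖eB‖ ≤ ε ∧ ‖eP‖ ≤ ε ∧ ‖eM‖ ≤ ε ∧
      HD (R.B (j + 1)) ((R.ss j t : ℂ) • proj (Γ.M (j + 1))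
        (dag (R.pp j t) * R.Cp (j + 1) t + R.pp j t * R.Cm (j + 1) t) + eB) t ∧
      HD (R.Cp (j + 1)) ((R.ss j t : ℂ) • (R.pp j t * R.B (j + 1) t) + eP) t ∧
      HD (R.Cm (j + 1)) ((R.ss j t : ℂ) • (dag (R.pp j t) * R.B (j + 1) t) + eM) t := by
  obtain ⟨⟨e1, r1, a1, b1⟩, ⟨e2, r2, a2, b2⟩, e3, r3, a3, b3⟩ := N.eqs ht hs le_rfl
  have T0 := Γ.T_pos j
  have l0 := Γ.lam_pos' (j + 1)
  have q0 : 0 ≤ ν * Γ.lam (j + 1) ^ 2 / 2 := by positivity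
  have q1 : 0 ≤ 4 * (ν * Γ.lam (j + 1) ^ 2) := by positivity
  have n1 : ‖R.B (j + 1) t‖ ≤ R.nr (j + 1) t := le_nr3_1 _ _ _
  have n2 : ‖R.Cp (j + 1) t‖ ≤ R.nr (j + 1) t := le_nr3_2 _ _ _
  have n3 : ‖R.Cm (j + 1) t‖ ≤ R.nr (j + 1) t := le_nr3_3 _ _ _
  have mj : ‖maj (R.pp j t) (R.B (j + 1) t) (R.Cp (j + 1) t) (R.Cm (j + 1) t)‖ ≤
      12 * R.nr (j + 1) t := (norm_maj_le _ _ _ _).trans (by
    have := mul_le_mul (show 2 * l1 (R.pp j t) ≤ 4 by linarith only [hp.l1_le])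
      (show ‖R.B (j + 1) t‖ + ‖R.Cp (j + 1) t‖ + ‖R.Cm (j + 1) t‖ ≤ 3 * R.nr (j + 1) t by linarith only [n1, n2, n3])
      (by positivity) (by norm_num)
    linarith only [this])
  have c0 : 0 ≤ (Γ.T j ^ 100)⁻¹ * R.ss j t := by positivity
  have mj' := mul_le_mul_of_nonneg_left mj c0
  have f0 := abs_nonneg (R.f (j + 1) t)
  have fd : ‖(R.f (j + 1) t : ℂ) • dl‖ = |R.f (j + 1) t| := by
    rw [norm_smul, norm_dl, mul_one, Complex.norm_real, Real.norm_eq_abs]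
  have d1 := (norm_mulr_le (fun h => q0.trans (N.dB_lo _ h)) (N.dB_hi (j + 1)) _).trans
    (mul_le_mul_of_nonneg_left n1 q1)
  have d2 := (norm_mulr_le (fun h => q0.trans (N.dP_lo _ h)) (N.dP_hi (j + 1)) _).trans
    (mul_le_mul_of_nonneg_left n2 q1)
  have d3 := (norm_mulr_le (fun h => q0.trans (N.dM_lo _ h)) (N.dM_hi (j + 1)) _).trans
    (mul_le_mul_of_nonneg_left n3 q1)
  have x1 := norm_le_of_coeff c0 a1.pt
  have x2 := norm_le_of_coeff c0 a2.pt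
  have x3 := norm_le_of_coeff c0 a3.pt
  refine ⟨-mulr (R.dB (j + 1)) (R.B (j + 1) t) + e1 + r1,
    -mulr (R.dP (j + 1)) (R.Cp (j + 1) t) + (R.f (j + 1) t : ℂ) • dl + e2 + r2,
    -mulr (R.dM (j + 1)) (R.Cm (j + 1) t) + (R.f (j + 1) t : ℂ) • dl + e3 + r3, ?_, ?_, ?_,
    b1.congr_deriv (by abel), b2.congr_deriv (by abel), b3.congr_deriv (by abel)⟩
  · have := norm_add₃_le (a := -mulr (R.dB (j + 1)) (R.B (j + 1) t)) (b := e1) (c := r1)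
    rw [norm_neg] at this
    linarith only [hε, mj', f0, d1, x1, this, a1.nrm]
  · have := norm_add₄_le (a := -mulr (R.dP (j + 1)) (R.Cp (j + 1) t))
      (b := (R.f (j + 1) t : ℂ) • dl) (c := e2) (d := r2)
    rw [norm_neg, fd] at this
    linarith only [hε, mj', d2, x2, this, a2.nrm]
  · have := norm_add₄_le (a := -mulr (R.dM (j + 1)) (R.Cm (j + 1) t))
      (b := (R.f (j + 1) t : ℂ) • dl) (c := e3) (d := r3)
    rw [norm_neg, fd] at this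
    linarith only [hε, mj', d3, x3, this, a3.nrm]

/-- Crude growth bound for the squared norm of level `j + 1`. -/
theorem IsNet.nr_deriv (hν : 0 < ν) (N : IsNet Γ ν a0 R) (j : ℕ) (ht : 0 ≤ t) :
    ∃ D, HD (fun t => R.nr (j + 1) t ^ 2) D t ∧
      D ≤ 2 * R.nr (j + 1) t * ((13 * R.kap j * NN (Γ.M j) * R.nr j t - ν * Γ.lam (j + 1) ^ 2 / 2) *
        R.nr (j + 1) t + 2 * |R.f (j + 1) t| + 3 * (10 ^ 4 * Γ.lam (j + 1) *
          (√(R.E (j + 2) t) * R.nr (j + 1) t + NN (Γ.M (j + 1)) * R.nr (j + 2) t ^ 2))) := by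
  obtain ⟨e1, r1, a1, b1⟩ := N.eqB j t ht
  obtain ⟨e2, r2, a2, b2⟩ := N.eqP j t ht
  obtain ⟨e3, r3, a3, b3⟩ := N.eqM j t ht
  refine ⟨_, hd_nr3_sq b1 b2 b3, ?_⟩
  have k0 := N.kap_pos j
  have N0 := NN_pos (Γ.M j)
  have n0 : 0 ≤ R.nr (j + 1) t := nr3_nonneg _ _ _
  have n0' : 0 ≤ R.nr j t := nr3_nonneg _ _ _
  have n1 : ‖R.B (j + 1) t‖ ≤ R.nr (j + 1) t := le_nr3_1 _ _ _
  have n2 : ‖R.Cp (j + 1) t‖ ≤ R.nr (j + 1) t := le_nr3_2 _ _ _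
  have n3 : ‖R.Cm (j + 1) t‖ ≤ R.nr (j + 1) t := le_nr3_3 _ _ _
  have n4 : R.nr (j + 1) t ^ 2 =
      ‖R.B (j + 1) t‖ ^ 2 + ‖R.Cp (j + 1) t‖ ^ 2 + ‖R.Cm (j + 1) t‖ ^ 2 := nr3_sq _ _ _
  set L := 3 * NN (Γ.M j) * R.nr j t with hL
  have L0 : 0 ≤ L := by positivity
  have lA : l1 (R.A j t) ≤ L := by
    rw [Raw.A, l1_sw]
    exact (N.suppB j t).l1_le.trans (mul_le_mul_of_nonneg_left (le_nr3_1 _ _ _) (by positivity))
  have mA : ∀ v : V, ‖v‖ ≤ R.nr (j + 1) t → ‖R.A j t * v‖ ≤ L * R.nr (j + 1) t := fun v hv =>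
    (norm_mul_le_l1 _ _).trans (mul_le_mul lA hv (norm_nonneg _) L0)
  have mA' : ∀ v : V, ‖v‖ ≤ R.nr (j + 1) t → ‖dag (R.A j t) * v‖ ≤ L * R.nr (j + 1) t :=
    fun v hv => by rw [norm_dag_mul]; exact mA v hv
  have ks : ∀ v : V, ‖(R.kap j : ℂ) • v‖ = R.kap j * ‖v‖ := fun v => by
    rw [norm_smul, Complex.norm_real, Real.norm_of_nonneg k0.le]
  have er : ∀ e r, R.Err Γ j t e r → ‖e‖ ≤ R.kap j * (L * R.nr (j + 1) t) / 9 := fun e r h => by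
    have T1 : (54 : ℝ) ≤ Γ.T j ^ 100 := le_trans (le_trans (by norm_num) (Γ.Tbig j))
      (le_self_pow₀ (le_trans (by norm_num) (Γ.Tbig j)) (by norm_num))
    have T2 : (Γ.T j ^ 100)⁻¹ ≤ 54⁻¹ := inv_anti₀ (by norm_num) T1
    have x1 := norm_le_of_coeff (by have := Γ.T_pos j; positivity) h.pt
    have x2 := (norm_maj_le (R.A j t) (R.B (j + 1) t) (R.Cp (j + 1) t) (R.Cm (j + 1) t)).trans
      (mul_le_mul (show 2 * l1 (R.A j t) ≤ 2 * L by linarith only [lA])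
        (show _ ≤ 3 * R.nr (j + 1) t by linarith only [n1, n2, n3]) (by positivity) (by positivity))
    have x3 := mul_le_mul (mul_le_mul_of_nonneg_right T2 k0.le) x2 (norm_nonneg _) (by positivity)
    linarith only [x1, x3]
  have fd : ‖(R.f (j + 1) t : ℂ) • dl‖ = |R.f (j + 1) t| := by
    rw [norm_smul, norm_dl, mul_one, Complex.norm_real, Real.norm_eq_abs]
  have s1 : ‖(R.kap j : ℂ) • proj (Γ.M (j + 1))
      (dag (R.A j t) * R.Cp (j + 1) t + R.A j t * R.Cm (j + 1) t)‖ ≤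
      R.kap j * (2 * (L * R.nr (j + 1) t)) := by
    rw [ks]
    refine mul_le_mul_of_nonneg_left ((norm_proj_le _ _).trans ((norm_add_le _ _).trans ?_)) k0.le
    linarith [mA' _ n2, mA _ n3]
  have s2 : ‖(R.kap j : ℂ) • (R.A j t * R.B (j + 1) t)‖ ≤ R.kap j * (L * R.nr (j + 1) t) := by
    rw [ks]; exact mul_le_mul_of_nonneg_left (mA _ n1) k0.le
  have s3 : ‖(R.kap j : ℂ) • (dag (R.A j t) * R.B (j + 1) t)‖ ≤ R.kap j * (L * R.nr (j + 1) t) := by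
    rw [ks]; exact mul_le_mul_of_nonneg_left (mA' _ n1) k0.le
  have y1 := NormB.re_inner_le (N.dB_lo (j + 1)) n1 s1 (norm_zero (E := V)).le (er _ _ a1) a1.nrm
  have y2 := NormB.re_inner_le (N.dP_lo (j + 1)) n2 s2 fd.le (er _ _ a2) a2.nrm
  have y3 := NormB.re_inner_le (N.dM_lo (j + 1)) n3 s3 fd.le (er _ _ a3) a3.nrm
  rw [add_zero] at y1
  have y4 := congrArg (fun x => ν * Γ.lam (j + 1) ^ 2 / 2 * x) n4
  rw [hL] at y1 y2 y3
  linarith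

/-- The chain equations in the form used by the barriers. -/
theorem IsNet.chain_eq (N : IsNet Γ ν a0 R) (j m : ℕ) (ht : 0 ≤ t) (h1 : 1 ≤ m)
    (h2 : m < Γ.n (j + 1)) : ∃ S b,
    HD (R.y (j + 1) m) (R.c (j + 1) m * S - R.d (j + 1) m * R.y (j + 1) m t + b) t ∧
    |b| ≤ 10 ^ 4 * Γ.lam (j + 2) * (|R.y (j + 1) (m + 1) t| * |R.y (j + 1) (m - 1) t| +
      |R.y (j + 1) (m + 2) t| * |R.y (j + 1) (m + 1) t|) ∧
    (m ≤ 2 → |S| ≤ 2 * R.nr (j + 1) t ^ 2) ∧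
    (3 ≤ m → S = R.y (j + 1) (m - 1) t * R.y (j + 1) (m - 2) t) := by
  obtain ⟨S, b, d, hb, s1, s2, s3⟩ := N.eqY j m t ht h1 h2
  refine ⟨S, b, d, hb, fun hm => ?_, s3⟩
  have n0 : 0 ≤ R.nr (j + 1) t := nr3_nonneg _ _ _
  have n1 : ‖R.B (j + 1) t‖ ≤ R.nr (j + 1) t := le_nr3_1 _ _ _
  have key : ∀ v : V, ‖v‖ ≤ R.nr (j + 1) t →
      |S - ((R.B (j + 1) t * v).coeff 0).re| ≤ R.nr (j + 1) t ^ 2 / 100 →
      |S| ≤ 2 * R.nr (j + 1) t ^ 2 := fun v hv h => by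
    have a1 := (Complex.abs_re_le_norm _).trans ((norm_coeff_mul_le (R.B (j + 1) t) v 0).trans
      (mul_le_mul n1 hv (norm_nonneg _) n0))
    have a2 := abs_sub_abs_le_abs_sub S ((R.B (j + 1) t * v).coeff 0).re
    nlinarith only [h, a1, a2]
  rcases (by omega : m = 1 ∨ m = 2) with h | h
  · exact key _ (le_nr3_2 _ _ _) (s1 h)
  · exact key _ (by rw [Raw.A, norm_sw]; exact n1) (s2 h)

end

end Pool.Agent.Work.MP_6bf1e5_an.Dec
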