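import Pool.Agent.Work.MP_6bf1e5_an.Dec.Defs

/-!
Barriers, hitting times and derivative rules.
-/

open Set Complex Filter Topology
open scoped InnerProductSpace ComplexConjugate
open Pool.Agent.Work.MP_6bf1e5_an.B (Z3 R3 box)

namespace Pool.Agent.Work.MP_6bf1e5_an.Dec

noncomputable section

section gen

variable {E : Type} [NormedAddCommGroup E] [NormedSpace ℝ E] {f : ℝ → E} {f' : E} {t : ℝ}

lemma HD.right (h : HD f f' t) (ht : 0 ≤ t) : HasDerivWithinAt f f' (Ici t) t :=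
  h.mono (Ici_subset_Ici.mpr ht)

lemma HD.uniq {g' : E} (h : HD f f' t) (h' : HD f g' t) (ht : 0 ≤ t) : f' = g' :=
  (uniqueDiffOn_Ici 0 t ht).eq_deriv _ h h'

lemma contOn_of_HD {a b : ℝ} (ha : 0 ≤ a) (H : ∀ t ∈ Icc a b, ∃ D, HD f D t) :
    ContinuousOn f (Icc a b) := fun t ht =>
  (H t ht).elim fun _ h => h.continuousWithinAt.mono fun _ hs => ha.trans hs.1

end gen

/-- First time at which one of finitely many closed conditions becomes an equality. -/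
theorem first_hit {ι : Type} [Finite ι] {H : ι → ℝ → ℝ} {a b : ℝ} (hab : a ≤ b)
    (hc : ∀ i, ContinuousOn (H i) (Icc a b)) (h0 : ∀ i, H i a ≤ 0) :
    ∃ c ∈ Icc a b, (∀ t ∈ Icc a c, ∀ i, H i t ≤ 0) ∧
      (c = b ∨ ∃ i, H i c = 0 ∧ ∃ᶠ t in 𝓝[>] c, 0 < H i t) := by
  set S : Set ℝ := {c | c ∈ Icc a b ∧ ∀ t ∈ Icc a c, ∀ i, H i t ≤ 0} with hS
  have aS : a ∈ S := ⟨⟨le_rfl, hab⟩, fun t ht i => by rw [le_antisymm ht.2 ht.1]; exact h0 i⟩
  have bdd : BddAbove S := ⟨b, fun c hc => hc.1.2⟩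
  set c := sSup S with hcdef
  have ac : a ≤ c := le_csSup bdd aS
  have cb : c ≤ b := csSup_le ⟨a, aS⟩ fun c hc => hc.1.2
  have lt : ∀ t ∈ Ico a c, ∀ i, H i t ≤ 0 := fun t ht i => by
    obtain ⟨s, hs, hts⟩ := exists_lt_of_lt_csSup ⟨a, aS⟩ ht.2
    exact hs.2 t ⟨ht.1, hts.le⟩ i
  have atc : ∀ i, H i c ≤ 0 := fun i => by
    rcases ac.eq_or_lt with h | h
    · rw [← h]; exact h0 i
    · have : ContinuousWithinAt (H i) (Ico a c) c :=
        (hc i c ⟨ac, cb⟩).mono fun s hs => ⟨hs.1, hs.2.le.trans cb⟩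
      have ne : (𝓝[Ico a c] c).NeBot := by
        rw [nhdsWithin_Ico_eq_nhdsLT h]; infer_instance
      exact le_of_tendsto this (eventually_nhdsWithin_of_forall fun s hs => lt s hs i)
  have all : ∀ t ∈ Icc a c, ∀ i, H i t ≤ 0 := fun t ht i => by
    rcases ht.2.eq_or_lt with h | h
    · rw [h]; exact atc i
    · exact lt t ⟨ht.1, h⟩ i
  refine ⟨c, ⟨ac, cb⟩, all, ?_⟩
  rcases cb.eq_or_lt with h | h
  · exact Or.inl h
  right
  by_contra hn
  push Not at hn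
  have ev : ∀ i, ∀ᶠ t in 𝓝[>] c, H i t ≤ 0 := fun i => by
    rcases (atc i).eq_or_lt with e | e
    · simpa using hn i e
    · have : ContinuousWithinAt (H i) (Ioi c) c :=
        (hc i c ⟨ac, cb⟩).mono_of_mem_nhdsWithin
          (mem_of_superset (Ioo_mem_nhdsGT h) fun s hs => ⟨ac.trans hs.1.le, hs.2.le⟩)
      exact (this.eventually (gt_mem_nhds e)).mono fun _ hs => hs.le
  obtain ⟨u, hu, hsub⟩ := mem_nhdsGT_iff_exists_Ioc_subset.mp
    ((Filter.eventually_all.mpr ev).and (Ioo_mem_nhdsGT h))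
  have : u ∈ S := ⟨⟨ac.trans (le_of_lt hu), (hsub ⟨hu, le_rfl⟩).2.2.le⟩, fun t ht i => by
    rcases le_or_gt t c with h1 | h1
    · exact all t ⟨ht.1, h1⟩ i
    · exact (hsub ⟨h1, ht.2⟩).1 i⟩
  exact absurd (le_csSup bdd this) (not_le.mpr hu)

/-- Simultaneous barrier for a finite family; the whole past may be used. -/
theorem family_barrier {ι : Type} [Finite ι] {H : ι → ℝ → ℝ} {a b : ℝ}
    (hc : ∀ i, ContinuousOn (H i) (Icc a b)) (h0 : ∀ i, H i a ≤ 0)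
    (step : ∀ t ∈ Ico a b, (∀ s ∈ Icc a t, ∀ i, H i s ≤ 0) → ∀ i, H i t = 0 →
      ∃ D < 0, HasDerivWithinAt (H i) D (Ici t) t) :
    ∀ t ∈ Icc a b, ∀ i, H i t ≤ 0 := by
  intro t ht
  obtain ⟨c, hc', all, h | ⟨i, e, fr⟩⟩ := first_hit (ht.1.trans ht.2) hc h0
  · exact all t (h ▸ ht)
  rcases hc'.2.eq_or_lt with h | h
  · exact all t (h ▸ ht)
  obtain ⟨D, D0, hD⟩ := step c ⟨hc'.1, h⟩ all i e
  have h1 : Tendsto (slope (H i) c) (𝓝[>] c) (𝓝 D) := by
    have := hasDerivWithinAt_iff_tendsto_slope.mp hD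
    rwa [Ici_sdiff_left] at this
  have h2 := (h1.eventually (gt_mem_nhds D0)).and self_mem_nhdsWithin
  obtain ⟨s, s1, s2, s3⟩ := (fr.and_eventually h2).exists
  rw [slope_def_field, e, sub_zero] at s2
  exact absurd (div_pos s1 (sub_pos.mpr s3)) (not_lt.mpr s2.le)

/-- Barrier for one function. -/
theorem barrier {F G : ℝ → ℝ} {a b : ℝ} (ha : 0 ≤ a) (h0 : F a ≤ G a)
    (H : ∀ t ∈ Icc a b, ∃ D D', HD F D t ∧ HD G D' t ∧ (F t = G t → D < D')) :
    ∀ t ∈ Icc a b, F t ≤ G t := by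
  have := family_barrier (ι := Unit) (H := fun _ t => F t - G t) (a := a) (b := b)
    (fun _ => contOn_of_HD ha fun t ht => by
      obtain ⟨D, D', h1, h2, -⟩ := H t ht
      exact ⟨_, h1.sub h2⟩) (fun _ => by linarith) fun t ht _ _ e => by
      obtain ⟨D, D', h1, h2, h3⟩ := H t (Ico_subset_Icc_self ht)
      exact ⟨D - D', by linarith [h3 (by linarith)], HD.right (h1.sub h2) (ha.trans ht.1)⟩
  exact fun t ht => by linarith [this t ht ()]

/-- Comparison of derivatives. -/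
theorem le_of_deriv_le {F G : ℝ → ℝ} {a b : ℝ} (ha : 0 ≤ a) (h0 : F a ≤ G a)
    (H : ∀ t ∈ Icc a b, ∃ D D', HD F D t ∧ HD G D' t ∧ D ≤ D') :
    ∀ t ∈ Icc a b, F t ≤ G t := by
  intro t ht
  refine le_of_forall_pos_le_add fun ε hε => ?_
  have hb : 0 < b - a + 1 := by linarith [ht.1, ht.2]
  have := barrier (F := F) (G := fun t => G t + ε / (b - a + 1) * (t - a)) (b := b) ha (by simpa)
    (fun s hs => by
      obtain ⟨D, D', h1, h2, h3⟩ := H s hs
      refine ⟨D, _, h1, h2.add (((hasDerivWithinAt_id s _).sub_const a).const_mul _), fun _ => ?_⟩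
      have : 0 < ε / (b - a + 1) := by positivity
      linarith) t ht
  refine this.trans (add_le_add_right ?_ _)
  rw [div_mul_eq_mul_div, div_le_iff₀ hb]
  nlinarith only [hε, ht.2]

/-- Monotonicity. -/
theorem mono_of_deriv {F : ℝ → ℝ} {a b : ℝ} (ha : 0 ≤ a)
    (H : ∀ t ∈ Icc a b, ∃ D, HD F D t ∧ 0 ≤ D) {s t : ℝ} (hs : a ≤ s) (hst : s ≤ t) (ht : t ≤ b) :
    F s ≤ F t :=
  le_of_deriv_le (F := fun _ => F s) (G := F) (b := t) (ha.trans hs) le_rfl (fun u hu => by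
    obtain ⟨D, h1, h2⟩ := H u ⟨hs.trans hu.1, hu.2.trans ht⟩
    exact ⟨0, D, hasDerivWithinAt_const _ _ _, h1, h2⟩) t ⟨hst, le_rfl⟩

/-- Lower comparison with an exponential: `F' ≥ τ' F` gives `F t ≥ F a exp (τ t - τ a)`. -/
theorem exp_le_of_deriv {F τ : ℝ → ℝ} {a b : ℝ} (ha : 0 ≤ a)
    (H : ∀ t ∈ Icc a b, ∃ D s, HD F D t ∧ HD τ s t ∧ s * F t ≤ D) :
    ∀ t ∈ Icc a b, F a * Real.exp (τ t - τ a) ≤ F t := by
  intro t ht
  have := mono_of_deriv (F := fun t => F t * Real.exp (-τ t)) (b := b) ha (fun u hu => by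
    obtain ⟨D, s, h1, h2, h3⟩ := H u hu
    refine ⟨_, h1.mul h2.neg.exp, ?_⟩
    have := Real.exp_pos (-τ u)
    simp only [Pi.neg_apply]
    nlinarith only [h3, this]) le_rfl ht.1 ht.2
  have e : Real.exp (τ t - τ a) = Real.exp (-τ a) * Real.exp (τ t) := by
    rw [← Real.exp_add]; ring_nf
  have e2 : Real.exp (-τ t) * Real.exp (τ t) = 1 := by rw [← Real.exp_add]; simp
  calc F a * Real.exp (τ t - τ a) = F a * Real.exp (-τ a) * Real.exp (τ t) := by rw [e]; ring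
    _ ≤ F t * Real.exp (-τ t) * Real.exp (τ t) := by gcongr
    _ = F t := by rw [mul_assoc, e2, mul_one]

/-- Upper comparison with an exponential. -/
theorem le_exp_of_deriv {F τ : ℝ → ℝ} {a b : ℝ} (ha : 0 ≤ a)
    (H : ∀ t ∈ Icc a b, ∃ D s, HD F D t ∧ HD τ s t ∧ D ≤ s * F t) :
    ∀ t ∈ Icc a b, F t ≤ F a * Real.exp (τ t - τ a) := by
  intro t ht
  have := exp_le_of_deriv (F := fun t => -F t) (τ := τ) (b := b) ha (fun u hu => by
    obtain ⟨D, s, h1, h2, h3⟩ := H u hu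
    exact ⟨_, s, h1.neg, h2, by linarith⟩) t ht
  linarith

/-- Barrier for the distance travelled. -/
theorem norm_sub_le_of_deriv {E : Type} [NormedAddCommGroup E] [NormedSpace ℝ E] {f : ℝ → E}
    {G : ℝ → ℝ} {a b : ℝ} (ha : 0 ≤ a)
    (H : ∀ t ∈ Icc a b, ∃ D D', HD f D t ∧ HD G D' t ∧ ‖D‖ ≤ D') :
    ∀ t ∈ Icc a b, ‖f t - f a‖ ≤ G t - G a := by
  classical
  choose! D D' h1 h2 h3 using H
  intro t ht
  refine image_norm_le_of_norm_deriv_right_le_deriv_boundary' (f := fun t => f t - f a) (f' := D)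
    (B := fun t => G t - G a) (B' := D') (a := a) (b := b)
    (contOn_of_HD ha fun s hs => ⟨_, (h1 s hs).sub_const _⟩)
    (fun s hs => HD.right ((h1 s (Ico_subset_Icc_self hs)).sub_const _) (ha.trans hs.1)) (by simp)
    (contOn_of_HD ha fun s hs => ⟨_, (h2 s hs).sub_const _⟩)
    (fun s hs => HD.right ((h2 s (Ico_subset_Icc_self hs)).sub_const _) (ha.trans hs.1))
    (fun s hs => h3 s (Ico_subset_Icc_self hs)) ht

/-- Primitive of a continuous function. -/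
theorem exists_prim {g : ℝ → ℝ} {a b : ℝ} (hab : a ≤ b) (hg : ContinuousOn g (Icc a b)) :
    ∃ G : ℝ → ℝ, G a = 0 ∧ ∀ t ∈ Icc a b, HD G (g t) t := by
  have hc : Continuous (IccExtend hab fun x : Icc a b => g x) :=
    (continuousOn_iff_continuous_domRestrict.mp hg).Icc_extend'
  refine ⟨fun t => ∫ s in a..t, IccExtend hab (fun x : Icc a b => g x) s, by simp, fun t ht => ?_⟩
  have := (hc.integral_hasStrictDerivAt a t).hasDerivAt.hasDerivWithinAt (s := Ici 0)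
  rwa [IccExtend_of_mem hab _ ht] at this

/-- Solution of a scalar linear equation. -/
theorem exists_lin {s g : ℝ → ℝ} {a b : ℝ} (ha : 0 ≤ a) (hab : a ≤ b)
    (hs : ContinuousOn s (Icc a b)) (hg : ContinuousOn g (Icc a b)) (x0 : ℝ) :
    ∃ G : ℝ → ℝ, G a = x0 ∧ ∀ t ∈ Icc a b, HD G (s t * G t + g t) t := by
  obtain ⟨τ, τ0, hτ⟩ := exists_prim hab hs
  have cτ : ContinuousOn τ (Icc a b) := contOn_of_HD ha fun t ht => ⟨_, hτ t ht⟩
  obtain ⟨J, J0, hJ⟩ := exists_prim (g := fun t => Real.exp (-τ t) * g t) hab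
    (cτ.neg.rexp.mul hg)
  refine ⟨fun t => Real.exp (τ t) * (x0 + J t), by simp [τ0, J0], fun t ht => ?_⟩
  convert (hτ t ht).exp.fun_mul ((hJ t ht).const_add x0) using 1
  rw [← mul_assoc (Real.exp (τ t)), ← Real.exp_add]
  simp; ring

/-- A level is attained. -/
theorem exists_level {F : ℝ → ℝ} {a b c : ℝ} (hab : a ≤ b) (hF : ContinuousOn F (Icc a b))
    (h1 : F a ≤ c) (h2 : c ≤ F b) : ∃ t ∈ Icc a b, F t = c :=
  intermediate_value_Icc hab hF ⟨h1, h2⟩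

/-! Derivative rules for envelopes -/

section rules

variable {f g : ℝ → V} {f' g' : V} {t : ℝ}

lemma HD.lin {F : Type} [NormedAddCommGroup F] [NormedSpace ℝ F] (L : V →ₗ[ℝ] F) {C : ℝ}
    (hL : ∀ v, ‖L v‖ ≤ C * ‖v‖) (h : HD f f' t) : HD (fun t => L (f t)) (L f') t :=
  (L.mkContinuous C hL).hasFDerivAt.comp_hasDerivWithinAt t h

lemma HD.linc {F : Type} [NormedAddCommGroup F] [NormedSpace ℝ F] [Module ℂ F]
    [IsScalarTower ℝ ℂ F] (L : V →ₗ[ℂ] F) {C : ℝ}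
    (hL : ∀ v, ‖L v‖ ≤ C * ‖v‖) (h : HD f f' t) : HD (fun t => L (f t)) (L f') t :=
  HD.lin (L.restrictScalars ℝ) hL h

lemma HD.coeff (h : HD f f' t) (k : Z3) : HD (fun t => (f t).coeff k) (f'.coeff k) t :=
  HD.lin (C := 1) ⟨⟨fun v => v.coeff k, fun _ _ => rfl⟩, fun _ _ => rfl⟩
    (fun v => by simpa using norm_coeff_le v k) h

lemma HD.supp {n : ℕ} (h : HD f f' t) (ht : 0 ≤ t) (hs : ∀ t, Supp n (f t)) : Supp n f' :=
  fun k hk => (h.coeff k).uniq (by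
    simpa [hs _ k hk] using hasDerivWithinAt_const t (Ici 0) (0 : ℂ)) ht

lemma HD.mul_const' (h : HD f f' t) (q : V) : HD (fun t => f t * q) (f' * q) t :=
  HD.linc (LinearMap.mulRight ℂ q) (C := l1 q)
    (fun v => by simpa [mul_comm] using norm_mul_le_l1' v q) h

lemma HD.dag (h : HD f f' t) : HD (fun t => dag (f t)) (dag f') t :=
  HD.lin (C := 1) ⟨⟨fun v => Dec.dag v, map_add _⟩, fun r v => by
    ext h; simp⟩ (fun v => by simp [norm_dag]) h

lemma HD.prm (h : HD f f' t) (e : Z3 ≃+ Z3) : HD (fun t => prm e (f t)) (prm e f') t :=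
  HD.linc (Dec.prm e).toLinearMap (C := 1) (fun v => by simp [norm_prm]) h

lemma HD.sw (h : HD f f' t) : HD (fun t => sw (f t)) (sw f') t := h.prm swE

lemma HD.proj (h : HD f f' t) (n : ℕ) : HD (fun t => proj n (f t)) (proj n f') t :=
  HD.linc (Dec.proj n) (C := 1) (fun v => by simpa using norm_proj_le n v) h

/-- A linear map may be differentiated along families supported in a fixed box. -/
lemma HD.lin_supp {F : Type} [NormedAddCommGroup F] [NormedSpace ℝ F] [Module ℂ F]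
    [IsScalarTower ℝ ℂ F] (L : V →ₗ[ℂ] F) {C : ℝ} {n : ℕ}
    (hL : ∀ v, Supp n v → ‖L v‖ ≤ C * ‖v‖) (hC : 0 ≤ C) (h : HD f f' t) (ht : 0 ≤ t)
    (hs : ∀ t, Supp n (f t)) : HD (fun t => L (f t)) (L f') t := by
  have := HD.linc (L.comp (Dec.proj n)) (C := C) (fun v =>
    (hL _ (supp_proj n v)).trans (by gcongr; exact norm_proj_le n v)) h
  simpa [(hs _).proj_eq, (h.supp ht hs).proj_eq] using this

lemma HD.ev {n : ℕ} (h : HD f f' t) (ht : 0 ≤ t) (hs : ∀ t, Supp n (f t)) (x : R3) :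
    HD (fun t => ev x (f t)) (ev x f') t :=
  HD.lin_supp (Dec.ev x).toLinearMap (C := 3 * NN n)
    (fun v hv => (norm_ev_le x v).trans hv.l1_le) (by have := NN_pos n; positivity) h ht hs

lemma HD.wt {n : ℕ} (h : HD f f' t) (ht : 0 ≤ t) (hs : ∀ t, Supp n (f t)) (ξ : R3) :
    HD (fun t => wt ξ (f t)) (wt ξ f') t :=
  HD.lin_supp (Dec.wt ξ) (fun _ hv => hv.norm_wt_le ξ) (Real.exp_pos _).le h ht hs

lemma HD.re {c : ℝ → ℂ} {c' : ℂ} (h : HD c c' t) : HD (fun t => (c t).re) c'.re t :=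
  Complex.reCLM.hasFDerivAt.comp_hasDerivWithinAt t h

lemma HD.ofReal {c : ℝ → ℝ} {c' : ℝ} (h : HD c c' t) : HD (fun t => (c t : ℂ)) (c' : ℂ) t :=
  Complex.ofRealCLM.hasFDerivAt.comp_hasDerivWithinAt t h

lemma HD.re_inner (hf : HD f f' t) (hg : HD g g' t) :
    HD (fun t => (⟪f t, g t⟫_ℂ).re) ((⟪f t, g'⟫_ℂ).re + (⟪f', g t⟫_ℂ).re) t := by
  simpa using HD.re (hf.inner ℂ hg)

lemma HD.normsq {E : Type} [NormedAddCommGroup E] [InnerProductSpace ℂ E] [NormedSpace ℝ E]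
    {f : ℝ → E} {f' : E} (hf : HD f f' t) :
    HD (fun t => ‖f t‖ ^ 2) (2 * (⟪f t, f'⟫_ℂ).re) t := by
  have := HD.re (hf.inner ℂ hf)
  simp only [← RCLike.re_to_complex, ← @norm_sq_eq_re_inner ℂ] at this
  convert this using 1
  rw [map_add, inner_re_symm f', two_mul, RCLike.re_to_complex]

/-- A family with differentiable coefficients is differentiable. -/
lemma hd_mk (s : Finset Z3) {a : ℝ → Z3 → ℂ} {a' : Z3 → ℂ}
    (H : ∀ h ∈ s, HD (fun t => a t h) (a' h) t) : HD (fun t => mk s (a t)) (mk s a') t := by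
  unfold mk
  refine HasDerivWithinAt.fun_sum fun h hh => ?_
  have := (H h hh).smul_const (AddMonoidAlgebra.single h 1 : V)
  simpa using this

end rules

lemma nr3_sq (B Cp Cm : V) : nr3 B Cp Cm ^ 2 = ‖B‖ ^ 2 + ‖Cp‖ ^ 2 + ‖Cm‖ ^ 2 :=
  Real.sq_sqrt (by positivity)

lemma nr3_nonneg (B Cp Cm : V) : 0 ≤ nr3 B Cp Cm := Real.sqrt_nonneg _

lemma le_nr3_1 (B Cp Cm : V) : ‖B‖ ≤ nr3 B Cp Cm :=
  Real.le_sqrt_of_sq_le (by linarith [sq_nonneg ‖Cp‖, sq_nonneg ‖Cm‖])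

lemma le_nr3_2 (B Cp Cm : V) : ‖Cp‖ ≤ nr3 B Cp Cm :=
  Real.le_sqrt_of_sq_le (by linarith [sq_nonneg ‖B‖, sq_nonneg ‖Cm‖])

lemma le_nr3_3 (B Cp Cm : V) : ‖Cm‖ ≤ nr3 B Cp Cm :=
  Real.le_sqrt_of_sq_le (by linarith [sq_nonneg ‖B‖, sq_nonneg ‖Cp‖])

lemma l1_maj_le (A B Cp Cm : V) : l1 (maj A B Cp Cm) ≤ 2 * l1 A * (l1 B + l1 Cp + l1 Cm) := by
  refine (l1_mul_le _ _).trans (mul_le_mul ?_ ?_ (l1_nonneg _) (by have := l1_nonneg A; positivity))
  · refine (l1_add_le _ _).trans ?_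
    rw [l1_av, l1_av, l1_dag, two_mul]
  · refine (l1_add_le _ _).trans (add_le_add ((l1_add_le _ _).trans ?_) ?_) <;> simp [l1_av]

lemma norm_maj_le (A B Cp Cm : V) : ‖maj A B Cp Cm‖ ≤ 2 * l1 A * (‖B‖ + ‖Cp‖ + ‖Cm‖) := by
  refine (norm_mul_le_l1 _ _).trans
    (mul_le_mul ?_ ?_ (norm_nonneg _) (by have := l1_nonneg A; positivity))
  · refine (l1_add_le _ _).trans ?_
    rw [l1_av, l1_av, l1_dag, two_mul]
  · refine (norm_add_le _ _).trans (add_le_add ((norm_add_le _ _).trans ?_) ?_) <;> simp [norm_av]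

/-- Powers of a large number are dominated by its exponential. -/
lemma pow_le_exp {T : ℝ} (hT : (10 : ℝ) ^ 100 ≤ T) {k : ℕ} (hk : k ≤ 10 ^ 6) :
    T ^ k ≤ Real.exp T := by
  have T0 : 0 < T := lt_of_lt_of_le (by positivity) hT
  have h1 : Real.log T ≤ 2 * √T := by
    have := Real.log_le_sub_one_of_pos (Real.sqrt_pos.mpr T0)
    rw [Real.log_sqrt T0.le] at this
    linarith only [this]
  have h2 : (10 : ℝ) ^ 50 ≤ √T := Real.le_sqrt_of_sq_le (by norm_num at hT ⊢; exact hT)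
  have h3 : (k : ℝ) ≤ 10 ^ 6 := by exact_mod_cast hk
  rw [← Real.exp_log (pow_pos T0 k), Real.log_pow]
  refine Real.exp_le_exp.mpr ?_
  have h4 := Real.mul_self_sqrt T0.le
  have h5 : (0 : ℝ) ≤ k := Nat.cast_nonneg k
  nlinarith only [h1, h2, h3, h4, Real.sqrt_nonneg T]

end

end Pool.Agent.Work.MP_6bf1e5_an.Dec
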