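import Pool.Agent.Work.MP_6bf1e5_an.Dec.Geo

/-!
Existence of the parameters.
-/

namespace Pool.Agent.Work.MP_6bf1e5_an.Dec

noncomputable section

namespace Par

lemma luc_step (k : ℕ) : luc (k + 1) ≤ luc (k + 2) ∧ luc (k + 2) ≤ 3 * luc (k + 1) := by
  induction k with
  | zero => simp [luc]
  | succ k ih =>
    have : luc (k + 1 + 2) = luc (k + 2) + luc (k + 1) := rfl
    have e : k + 1 + 1 = k + 2 := rfl
    rw [this, e]
    omega

lemma luc_six (k : ℕ) : luc (k + 6) = 8 * luc (k + 1) + 5 * luc k := by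
  have h2 : luc (k + 2) = luc (k + 1) + luc k := rfl
  have h3 : luc (k + 3) = luc (k + 2) + luc (k + 1) := rfl
  have h4 : luc (k + 4) = luc (k + 3) + luc (k + 2) := rfl
  have h5 : luc (k + 5) = luc (k + 4) + luc (k + 3) := rfl
  have h6 : luc (k + 6) = luc (k + 5) + luc (k + 4) := rfl
  omega

/-- The frequency ratios. -/
def Lam (i : ℕ) : ℕ := luc (6 * i + 1)

lemma Lam_succ (i : ℕ) : 8 * Lam i ≤ Lam (i + 1) ∧ Lam (i + 1) ≤ 29 * Lam i := by
  have h := luc_six (6 * i + 1)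
  have h' := luc_step (6 * i)
  have e : 6 * (i + 1) + 1 = 6 * i + 1 + 6 := by ring
  have e' : 6 * i + 1 + 1 = 6 * i + 2 := rfl
  unfold Lam
  rw [e, h, e']
  omega

lemma pow_le_Lam (i : ℕ) : 8 ^ i ≤ Lam i := by
  induction i with
  | zero => simp [Lam, luc]
  | succ i ih => have := (Lam_succ i).1; rw [pow_succ]; omega

lemma n_pow_le (i : ℕ) (hi : 20 ≤ i) : (6 * i + 2) ^ 8 ≤ 8 ^ i := by
  induction i, hi using Nat.le_induction with
  | base => norm_num
  | succ i hi ih =>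
    have a : 4 * (6 * (i + 1) + 2) ≤ 5 * (6 * i + 2) := by omega
    have b := Nat.pow_le_pow_left a 8
    rw [mul_pow, mul_pow] at b
    rw [pow_succ 8 i]
    norm_num at b
    omega

/-- The eighth roots. -/
def TT (i : ℕ) : ℝ := (Lam i : ℝ) ^ ((8 : ℕ) : ℝ)⁻¹

lemma TT_pow (i : ℕ) : TT i ^ 8 = Lam i := Real.rpow_inv_natCast_pow (Nat.cast_nonneg _) (by norm_num)

lemma TT_nonneg (i : ℕ) : 0 ≤ TT i := Real.rpow_nonneg (Nat.cast_nonneg _) _

lemma le_TT {x : ℝ} {i : ℕ} (h : x ^ 8 ≤ Lam i) : x ≤ TT i :=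
  le_of_pow_le_pow_left₀ (n := 8) (by norm_num) (TT_nonneg i) (by rw [TT_pow]; exact h)

lemma one_le_TT (i : ℕ) : 1 ≤ TT i := le_TT (by
  have := (Nat.one_le_pow i 8 (by norm_num)).trans (pow_le_Lam i)
  rw [one_pow]
  exact_mod_cast this)

lemma TT_mono : Monotone TT := monotone_nat_of_le_succ fun i => le_TT (by
  rw [TT_pow]
  have := (Lam_succ i).1
  exact_mod_cast (by omega))

lemma TT_succ_le (i : ℕ) : TT (i + 1) ≤ 31 / 20 * TT i := by
  refine le_of_pow_le_pow_left₀ (n := 8) (by norm_num) (by linarith [TT_nonneg i]) ?_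
  rw [mul_pow, TT_pow, TT_pow]
  have : (Lam (i + 1) : ℝ) ≤ 29 * Lam i := by exact_mod_cast (Lam_succ i).2
  have : (0 : ℝ) ≤ Lam i := Nat.cast_nonneg _
  norm_num
  linarith

lemma exists_index (e : ℝ) : ∃ i, 1 ≤ 2 * e → TT i ^ 9 ≤ 2 * e ∧ 2 * e < TT (i + 1) ^ 9 := by
  classical
  have h : ∃ i, 2 * e < TT (i + 1) ^ 9 := by
    obtain ⟨i, hi⟩ := exists_nat_gt (2 * e)
    refine ⟨i, hi.trans_le ?_⟩
    have a : i ≤ Lam (i + 1) :=
      (Nat.le_succ i).trans ((Nat.lt_pow_self (by norm_num)).le.trans (pow_le_Lam (i + 1)))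
    have b : (i : ℝ) ≤ TT (i + 1) ^ 8 := by rw [TT_pow]; exact_mod_cast a
    exact b.trans (pow_le_pow_right₀ (one_le_TT _) (by norm_num))
  refine ⟨Nat.find h, fun he => ⟨?_, Nat.find_spec h⟩⟩
  rcases Nat.eq_zero_or_pos (Nat.find h) with h0 | h0
  · rw [h0]
    have : TT 0 = 1 := by simp [TT, Lam, luc]
    rw [this, one_pow]
    exact he
  · have := Nat.find_min h (m := Nat.find h - 1) (by omega)
    rw [Nat.sub_add_cancel h0] at this
    exact not_lt.mp this

/-- The index attached to a size. -/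
def ind (m : ℕ) : ℕ := Classical.choose (exists_index (Real.log m))

lemma ind_spec {m : ℕ} (h : 1 ≤ 2 * Real.log m) :
    TT (ind m) ^ 9 ≤ 2 * Real.log m ∧ 2 * Real.log m < TT (ind m + 1) ^ 9 :=
  Classical.choose_spec (exists_index (Real.log m)) h

lemma le_ind {m i : ℕ} (h : TT i ^ 9 ≤ 2 * Real.log m) : i ≤ ind m := by
  have h1 : 1 ≤ 2 * Real.log m := (one_le_pow₀ (one_le_TT i)).trans h
  by_contra hn
  have := pow_le_pow_left₀ (TT_nonneg _) (TT_mono (show ind m + 1 ≤ i by omega)) 9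
  linarith only [h, this, (ind_spec h1).2]

/-- The box sizes. -/
def mm : ℕ → ℕ
  | 0 => ⌈Real.exp (TT 900 ^ 9)⌉₊
  | j + 1 => mm j * (Lam (ind (mm j)) / 2)

/-- The carrier frequencies. -/
def PP : ℕ → ℕ
  | 0 => 2 * ⌈(mm 0 : ℝ) * (2 * Real.log (mm 0)) ^ 100⌉₊ + 1
  | j + 1 => Lam (ind (mm j)) * PP j

lemma mm_inv (j : ℕ) : 0 < mm j ∧ TT 900 ^ 9 ≤ 2 * Real.log (mm j) := by
  induction j with
  | zero =>
    have a : Real.exp (TT 900 ^ 9) ≤ mm 0 := Nat.le_ceil _
    have b := Real.exp_pos (TT 900 ^ 9)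
    refine ⟨by exact_mod_cast b.trans_le a, ?_⟩
    have := (Real.le_log_iff_exp_le (b.trans_le a)).mpr a
    linarith [pow_nonneg (TT_nonneg 900) 9]
  | succ j ih =>
    have a := (Nat.pow_le_pow_right (n := 8) (by norm_num)
      ((show 1 ≤ 900 by norm_num).trans (le_ind ih.2))).trans (pow_le_Lam _)
    have b : mm j ≤ mm (j + 1) := Nat.le_mul_of_pos_right _ (by omega)
    refine ⟨by omega, ih.2.trans ?_⟩
    have := Real.log_le_log (x := mm j) (y := mm (j + 1)) (by exact_mod_cast ih.1)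
      (by exact_mod_cast b)
    linarith only [this]

lemma ind_ge (j : ℕ) : 900 ≤ ind (mm j) := le_ind (mm_inv j).2

lemma spec (j : ℕ) : TT (ind (mm j)) ^ 9 ≤ 2 * Real.log (mm j) ∧
    2 * Real.log (mm j) < TT (ind (mm j) + 1) ^ 9 :=
  ind_spec ((one_le_pow₀ (one_le_TT _)).trans (mm_inv j).2)

lemma big (j : ℕ) : (10 : ℝ) ^ 100 ≤ TT (ind (mm j)) := by
  refine le_trans (le_TT ?_) (TT_mono (ind_ge j))
  have a : (10 ^ 100) ^ 8 ≤ 8 ^ 900 := by
    rw [← pow_mul, show 100 * 8 = 8 * 100 by norm_num, show 900 = 9 * 100 by norm_num, pow_mul,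
      pow_mul]
    exact Nat.pow_le_pow_left (by norm_num) _
  exact_mod_cast a.trans (pow_le_Lam 900)

lemma half (j : ℕ) : TT (ind (mm j)) ^ 8 / 4 * mm j ≤ mm (j + 1) ∧
    (mm (j + 1) : ℝ) ≤ TT (ind (mm j)) ^ 8 / 2 * mm j := by
  have a := (Nat.pow_le_pow_right (n := 8) (by norm_num)
    ((show 1 ≤ 900 by norm_num).trans (ind_ge j))).trans (pow_le_Lam _)
  have b : (Lam (ind (mm j)) : ℝ) ≤ 4 * (Lam (ind (mm j)) / 2 : ℕ) := by exact_mod_cast (by omega)
  have c : 2 * ((Lam (ind (mm j)) / 2 : ℕ) : ℝ) ≤ Lam (ind (mm j)) := by exact_mod_cast (by omega)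
  have d : (0 : ℝ) ≤ mm j := Nat.cast_nonneg _
  have e : (mm (j + 1) : ℝ) = mm j * (Lam (ind (mm j)) / 2 : ℕ) := by rw [mm, Nat.cast_mul]
  rw [TT_pow, e]
  constructor <;> nlinarith only [b, c]

lemma log_succ (j : ℕ) : Real.log (mm j) ≤ Real.log (mm (j + 1)) ∧
    Real.log (mm (j + 1)) ≤ Real.log (mm j) + TT (ind (mm j)) ^ 9 / 2000 := by
  have h0 : (0 : ℝ) < mm j := by exact_mod_cast (mm_inv j).1
  have h1 : (0 : ℝ) < mm (j + 1) := by exact_mod_cast (mm_inv (j + 1)).1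
  have hb := big j
  set T := TT (ind (mm j)) with hT
  have hT4 : (16000 : ℝ) ≤ T := le_trans (by norm_num) hb
  have h8 : T ≤ T ^ 8 := le_self_pow₀ (by linarith) (by norm_num)
  obtain ⟨a, b⟩ := half j
  refine ⟨Real.log_le_log h0 (le_trans ?_ a), ?_⟩
  · nlinarith only [hb, h8]
  · have c : Real.log (mm (j + 1)) ≤ Real.log (T ^ 8 * mm j) :=
      Real.log_le_log h1 (by linarith only [b])
    rw [Real.log_mul (by positivity) h0.ne', Real.log_pow] at c
    have d := Real.log_le_sub_one_of_pos (show 0 < T by linarith only [hb])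
    have e : T ^ 9 = T ^ 8 * T := by ring
    push_cast at c
    nlinarith only [hb, h8, c, d]

lemma log_le (j : ℕ) : 2 * Real.log (mm j) ≤ 60 * TT (ind (mm j)) ^ 9 := by
  have a := (spec j).2
  have b := pow_le_pow_left₀ (TT_nonneg _) (TT_succ_le (ind (mm j))) 9
  have c := pow_nonneg (TT_nonneg (ind (mm j))) 9
  rw [mul_pow] at b
  norm_num at b
  linarith

lemma PP_inv (j : ℕ) : (mm j : ℝ) * (2 * Real.log (mm j)) ^ 100 ≤ PP j := by
  induction j with
  | zero =>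
    have := Nat.le_ceil ((mm 0 : ℝ) * (2 * Real.log (mm 0)) ^ 100)
    rw [PP]
    push_cast
    linarith [Nat.cast_nonneg (α := ℝ) ⌈(mm 0 : ℝ) * (2 * Real.log (mm 0)) ^ 100⌉₊]
  | succ j ih =>
    obtain ⟨a, b⟩ := log_succ j
    have c := (spec j).1
    have d := (half j).2
    have l0 : 0 ≤ Real.log (mm j) := Real.log_natCast_nonneg _
    have e : (2 * Real.log (mm (j + 1))) ^ 100 ≤ (1001 / 1000 * (2 * Real.log (mm j))) ^ 100 :=
      pow_le_pow_left₀ (by linarith only [a, b, c]) (by linarith only [b, c]) _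
    have f : (1001 / 1000 : ℝ) ^ 100 ≤ 2 := by norm_num
    rw [mul_pow (1001 / 1000 : ℝ)] at e
    have g : (0 : ℝ) ≤ (2 * Real.log (mm j)) ^ 100 := pow_nonneg (by linarith only [a, b, c]) _
    have h : (2 * Real.log (mm (j + 1))) ^ 100 ≤ 2 * (2 * Real.log (mm j)) ^ 100 :=
      e.trans (mul_le_mul_of_nonneg_right f g)
    rw [PP, Nat.cast_mul, ← TT_pow]
    have t : (0 : ℝ) ≤ TT (ind (mm j)) ^ 8 := pow_nonneg (TT_nonneg _) _
    calc (mm (j + 1) : ℝ) * (2 * Real.log (mm (j + 1))) ^ 100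
        ≤ (TT (ind (mm j)) ^ 8 / 2 * mm j) * (2 * (2 * Real.log (mm j)) ^ 100) :=
          mul_le_mul d h (pow_nonneg (by linarith only [a, b, c]) _)
            (mul_nonneg (by linarith only [t]) (Nat.cast_nonneg _))
      _ = TT (ind (mm j)) ^ 8 * (mm j * (2 * Real.log (mm j)) ^ 100) := by ring
      _ ≤ _ := mul_le_mul_of_nonneg_left ih t

end Par

open Par in
theorem exists_geo : Nonempty Geo := by
  have hm : ∀ j, ((mm j - 1 : ℕ) : ℝ) + 1 = mm j := fun j => by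
    have := (mm_inv j).1
    exact_mod_cast (by omega)
  have h0 : ∀ j, (0 : ℝ) < mm j := fun j => by exact_mod_cast (mm_inv j).1
  refine ⟨{
    M := fun j => mm j - 1
    P := PP
    n := fun j => 6 * ind (mm j) + 2
    T := fun j => TT (ind (mm j))
    odd0 := by rw [PP]; omega
    Psucc := fun j => rfl
    nmod := fun j => by omega
    n8 := fun j => by have := ind_ge j; omega
    nT := fun j => le_TT (by
      exact_mod_cast (n_pow_le _ ((by norm_num : 20 ≤ 900).trans (ind_ge j))).trans (pow_le_Lam _))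
    T8 := fun j => TT_pow _
    Tbig := big
    Tmono := fun j => TT_mono (le_ind (by linarith [(spec j).1, (log_succ j).1]))
    Tdbl := fun j => ?_
    Mlo := fun j => ?_
    Mhi := fun j => ?_
    Llo := fun j => by rw [hm, hm]; exact (half j).1
    Lhi := fun j => by rw [hm, hm]; exact (half j).2
    sep := fun j => ?_ }⟩
  · refine le_of_pow_le_pow_left₀ (n := 9) (by norm_num) (by linarith [TT_nonneg (ind (mm j))]) ?_
    have := pow_nonneg (TT_nonneg (ind (mm j))) 9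
    rw [mul_pow]
    linarith [(spec (j + 1)).1, (log_succ j).2, log_le j]
  · rw [hm, ← Real.le_log_iff_exp_le (h0 j)]
    linarith [(spec j).1]
  · rw [hm, ← Real.log_le_iff_le_exp (h0 j)]
    linarith [log_le j]
  · rw [hm]
    refine le_trans (mul_le_mul_of_nonneg_left ?_ (h0 j).le) (PP_inv j)
    rw [show 900 = 9 * 100 by norm_num, pow_mul]
    exact pow_le_pow_left₀ (pow_nonneg (TT_nonneg _) _) (spec j).1 _

end

end Pool.Agent.Work.MP_6bf1e5_an.Dec
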