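import Pool.Agent.Work.MP_6bf1e5_an.Dec.Phase1C

/-!
Concentration during the first phase.
-/

open Set Complex
open scoped InnerProductSpace ComplexConjugate
open Pool.Agent.Work.MP_6bf1e5_an.B (Z3 R3 box)

namespace Pool.Agent.Work.MP_6bf1e5_an.Dec

namespace Ph1

/-- The energy inequality with the gain from the Nash type inequality. -/
lemma stepE {m n k : ℕ} {p B c1 c2 e0 r0 e1 r1 e2 r2 : V} {s f ε ρ U ω S : ℝ}
    {d0 d1 d2 : Z3 → ℝ} (hp : Drv m p) (hB : Supp n B) (hs : 0 ≤ s) (hf : 0 ≤ f) (hε : 0 ≤ ε)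
    (E0 : Er1 k (ε * s) ρ (maj p B c1 c2) e0 r0) (E1 : Er1 k (ε * s) ρ (maj p B c1 c2) e1 r1)
    (E2 : Er1 k (ε * s) ρ (maj p B c1 c2) e2 r2)
    (h0 : ∀ h, 0 ≤ d0 h) (h1 : ∀ h, 0 ≤ d1 h) (h2 : ∀ h, 0 ≤ d2 h) (hU : 0 ≤ U)
    (hY : ‖B‖ ^ 2 + ‖c1‖ ^ 2 + ‖c2‖ ^ 2 = U ^ 2) (ω0 : 0 < ω) (ω1 : ω ≤ 1)
    (hS : ∀ x ∈ cube, ‖ev x B‖ ≤ S) :
    (⟪B, (s : ℂ) • proj n (dag p * c1 + p * c2) - mulr d0 B + e0 + r0⟫_ℂ).re +
      (⟪c1, (s : ℂ) • (p * B) - mulr d1 c1 + (f : ℂ) • dl + e1 + r1⟫_ℂ).re +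
      (⟪c2, (s : ℂ) • (dag p * B) - mulr d2 c2 + (f : ℂ) • dl + e2 + r2⟫_ℂ).re ≤
      √2 * s * (U ^ 2 - 1 / 10 ^ 6 * ω * (U ^ 2 / 3 - √ω ^ 3 / (m + 1) ^ 3 * S ^ 2 / 30)) +
        36 * ε * s * U ^ 2 + (2 * f + 3 * ρ) * U := by
  have h := energy hB c1 c2 p p (e0 + r0) ((f : ℂ) • dl + e1 + r1) ((f : ℂ) • dl + e2 + r2) hs
    h0 h1 h2
  simp only [← add_assoc] at h
  refine h.trans ?_
  have b0 := le_of_sq3_1 hU hY.le
  have b1 := le_of_sq3_2 hU hY.le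
  have b2 := le_of_sq3_3 hU hY.le
  have er : ∀ {e r : V}, Er1 k (ε * s) ρ (maj p B c1 c2) e r →
      ‖e‖ + ‖r‖ ≤ 12 * ε * s * U + ρ := fun {e r} E => by
    have a1 := norm_le_of_coeff (by positivity) E.pt
    have a2 : ‖maj p B c1 c2‖ ≤ 2 * 2 * (U + U + U) :=
      (norm_maj_le _ _ _ _).trans (by gcongr; exact hp.l1_le)
    have a3 := mul_le_mul_of_nonneg_left a2 (mul_nonneg hε hs)
    linarith only [a1, a3, E.nrm]
  have nf : ‖(f : ℂ) • dl‖ = f := by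
    rw [norm_smul, norm_dl, mul_one, Complex.norm_real, Real.norm_of_nonneg hf]
  have g0 : ‖B‖ * ‖e0 + r0‖ ≤ U * (12 * ε * s * U + ρ) := by
    gcongr
    exact (norm_add_le _ _).trans (er E0)
  have g1 : ‖c1‖ * ‖(f : ℂ) • dl + e1 + r1‖ ≤ U * (f + (12 * ε * s * U + ρ)) := by
    gcongr
    exact norm_add₃_le.trans (by linarith only [nf, er E1])
  have g2 : ‖c2‖ * ‖(f : ℂ) • dl + e2 + r2‖ ≤ U * (f + (12 * ε * s * U + ρ)) := by
    gcongr
    exact norm_add₃_le.trans (by linarith only [nf, er E2])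
  have st : ‖(p + p) * B‖ * (‖c1‖ + ‖c2‖) ≤
      √2 * (U ^ 2 - 1 / 10 ^ 6 * ω * (U ^ 2 / 3 - √ω ^ 3 / (m + 1) ^ 3 * S ^ 2 / 30)) := by
    have e : ‖(p + p) * B‖ = 2 * ‖p * B‖ := by
      rw [add_mul, ← two_smul ℂ, norm_smul]; simp
    have na := hp.nash ω0 ω1 B hS
    rw [Qf] at na
    have pb := hp.norm_mul_le B
    have pb2 : ‖p * B‖ ^ 2 ≤ ‖B‖ ^ 2 := by (clear * - pb; gcongr)
    have r3 := sqrt2_sq
    set a := ‖p * B‖ with ha
    set X := ((a - √2 * ‖c1‖) ^ 2 + (a - √2 * ‖c2‖) ^ 2) / 2 with hX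
    have X0 : 0 ≤ X := by (clear * -; positivity)
    have e2 : 2 * a * (‖c1‖ + ‖c2‖) = √2 * (U ^ 2 - (‖B‖ ^ 2 - a ^ 2) - X) := by
      rw [← hY, hX]
      linear_combination (√2 * (‖c1‖ ^ 2 + ‖c2‖ ^ 2) / 2 - a * (‖c1‖ + ‖c2‖)) * r3
    have e3 : ‖c1‖ ^ 2 + ‖c2‖ ^ 2 ≤ 2 * X + 2 * a ^ 2 := by
      have u : ∀ c : ℝ, c ^ 2 ≤ (a - √2 * c) ^ 2 + a ^ 2 := fun c => by
        have : (a - √2 * c) ^ 2 + a ^ 2 - c ^ 2 = (√2 * a - c) ^ 2 := by
          linear_combination (c ^ 2 - a ^ 2) * r3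
        linarith only [this, sq_nonneg (√2 * a - c)]
      linarith only [hX, u ‖c1‖, u ‖c2‖]
    have e4 : 1 / 10 ^ 6 * ω * (U ^ 2 / 3) ≤ 1 / 10 ^ 6 * ω * (‖B‖ ^ 2 + X) := by
      gcongr; linarith only [hY, pb2, X0, e3, sq_nonneg ‖B‖]
    have e5 : 1 / 10 ^ 6 * ω * X ≤ X := mul_le_of_le_one_left X0 (by linarith only [ω1])
    rw [e, e2]
    gcongr √2 * ?_
    linarith only [na, e4, e5]
  have st' := mul_le_mul_of_nonneg_left st hs
  linarith only [g0, g1, g2, st']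

lemma algE {s g g' L X w lam ε a d U : ℝ} (hs : 0 < s) (hg : 0 < g) (hg' : √2 * s * g ≤ g')
    (L1 : 1 ≤ L) (L2 : L ≤ 2) (hX : 0 < X) (hw : 0 < w) (hl : 0 < lam) (hε : 72 * ε ≤ lam)
    (hd : 0 < d) (ha : 8 * a ^ 2 < g ^ 2 * (6000 * X + 10 * w) * d ^ 2)
    (hU : U ^ 2 = g ^ 2 * L * (6000 * X + 10 * w)) :
    2 * (√2 * s * (U ^ 2 - 10 * lam * (U ^ 2 / 3 - w * (4 * g ^ 2) / 30)) + 36 * ε * s * U ^ 2 +
      a * U) < (2 * g * g' * L + g ^ 2 * d) * (6000 * X + 10 * w) +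
        g ^ 2 * L * (6000 * (X * (-lam * s))) := by
  have r1 := sqrt2_lo
  have r2 := sqrt2_hi
  set R := 6000 * X + 10 * w with hR
  have R0 : 0 < R := by positivity
  have a1 : 2 * (√2 * s * U ^ 2) ≤ 2 * g * g' * L * R := by
    calc _ = 2 * g * (√2 * s * g) * L * R := by rw [hU]; ring
      _ ≤ _ := by gcongr
  have a2 : lam * s * (g ^ 2 * L * (6000 * X)) ≤ lam * s * U ^ 2 := by
    rw [hU]; gcongr; linarith only [hw]
  have a3 : 2 * (a * U) < g ^ 2 * d * R := by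
    have h1 : U ^ 2 ≤ g ^ 2 * 2 * R := by rw [hU]; gcongr
    have h2 : d ^ 2 * U ^ 2 ≤ d ^ 2 * (g ^ 2 * 2 * R) := by gcongr
    refine lt_of_mul_lt_mul_left ?_ hd.le
    linarith only [ha, h2, sq_nonneg (4 * a - d * U)]
  have a4 : lam * s * (10 * (w * g ^ 2)) ≤ lam * s * U ^ 2 := by
    gcongr
    calc _ = g ^ 2 * 1 * (10 * w) := by ring
      _ ≤ _ := by rw [hU]; gcongr; linarith only [hX]
  have a5 : 72 * ε * (s * U ^ 2) ≤ lam * (s * U ^ 2) := by gcongr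
  have a6 : 14 / 10 * (lam * s * U ^ 2) ≤ √2 * (lam * s * U ^ 2) := by gcongr
  have a7 : √2 * (lam * s * (w * g ^ 2)) ≤ 3 / 2 * (lam * s * (w * g ^ 2)) := by gcongr
  have a8 : 0 ≤ lam * s * (w * g ^ 2) := by positivity
  linarith only [a1, a2, a3, a4, a5, a6, a7, a8]

end Ph1

namespace P1

open Ph1

variable {m n : ℕ} {T t1 t2 σ : ℝ} {p B Cp Cm : ℝ → V} {s f τ z G : ℝ → ℝ} {dB dP dM : Z3 → ℝ}
  (H : P1 m n T t1 t2 σ p B Cp Cm s f τ z G dB dP dM) {t : ℝ}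

include H

/-- Concentration. -/
theorem conc {a : ℝ} (ha : a ∈ Icc t1 t2) (hτ : T ^ 15 / 200 ≤ τ t2 - τ a)
    (hG : ∀ t ∈ Icc a t2, σ * Real.exp (T ^ 11) ≤ G t / NN m) :
    nr3 (B t2) (Cp t2) (Cm t2) ^ 2 ≤ 22 * (G t2 / NN m) ^ 2 / T ^ 21 := by
  have T0 := H.T0
  have hσ := H.hσ
  have hD := H.Dt
  have hN := NN_pos m
  have sub : ∀ {t}, t ∈ Icc a t2 → t ∈ Icc t1 t2 := fun ht => ⟨ha.1.trans ht.1, ht.2⟩
  have e10 : T ^ 30 * Real.exp (T ^ 10) ≤ Real.exp (T ^ 11) := by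
    calc _ ≤ Real.exp T * Real.exp (T ^ 10) := by gcongr; exact pow_le_exp H.hT (by norm_num)
      _ ≤ _ := by
        rw [← Real.exp_add]
        gcongr
        linarith only [T0, H.Tpow (a := 1) (b := 11) (by norm_num), H.Tpow (a := 10) (b := 11) (by norm_num)]
  have main := barrier (F := fun t => ‖B t‖ ^ 2 + ‖Cp t‖ ^ 2 + ‖Cm t‖ ^ 2)
    (G := fun t => (G t / NN m) ^ 2 * (1 + (t - t1) / (t2 - t1)) *
      (6000 * Real.exp (-(1 / 10 ^ 7 * (T ^ 14)⁻¹) * (τ t - τ a)) + 10 * (T ^ 21)⁻¹))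
    (a := a) (b := t2) (H.h0.trans ha.1) ?_ fun t ht => ?_
  · have h := main t2 ⟨ha.2, le_rfl⟩
    rw [nr3_sq]
    refine h.trans ?_
    have x1 : Real.exp (-(1 / 10 ^ 7 * (T ^ 14)⁻¹) * (τ t2 - τ a)) ≤ (T ^ 22)⁻¹ := by
      rw [neg_mul, Real.exp_neg]
      gcongr
      refine (pow_le_exp' H.hT (by norm_num)).trans (Real.exp_le_exp.mpr ?_)
      calc _ ≤ T / (2 * 10 ^ 9) := by gcongr; norm_num
        _ = 1 / 10 ^ 7 * (T ^ 14)⁻¹ * (T ^ 15 / 200) := by field_simp; ring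
        _ ≤ _ := by gcongr
    have x2 : 6000 * (T ^ 22)⁻¹ ≤ (T ^ 21)⁻¹ := by
      rw [← div_eq_mul_inv, div_le_iff₀ (by positivity), ← div_eq_inv_mul, le_div_iff₀ (by positivity)]
      linarith only [H.Tpow (a := 21) (b := 22) (by norm_num), pow_pos T0 21]
    calc _ ≤ (G t2 / NN m) ^ 2 * 2 * (11 * (T ^ 21)⁻¹) := by
          gcongr
          · rw [div_self hD.ne']; norm_num
          · linarith only [x1, x2]
      _ = _ := by ring
  · have G0 := H.G0 ha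
    have h := H.nrm ha
    have g0 : 0 < G a / NN m := by positivity
    have zg : z a ≤ G a / NN m := by
      refine (H.zle ha).trans (le_trans ?_ (hG a ⟨le_rfl, ha.2⟩))
      gcongr
      · exact H.T1
      · norm_num
    have k : ∀ y : V, ‖y - (z a : ℂ) • dl‖ ≤ 40 * (G a / NN m) →
        ‖y‖ ^ 2 ≤ (41 * (G a / NN m)) ^ 2 := fun y hy => by
      have := norm_add_le (y - (z a : ℂ) • dl) ((z a : ℂ) • dl)
      rw [sub_add_cancel, norm_smul, norm_dl, Complex.norm_real, Real.norm_of_nonneg (H.z0 ha)]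
        at this
      gcongr
      linarith only [zg, hy, this]
    have k1 := k _ (le_of_sq3_2 (by positivity) h)
    have k2 := k _ (le_of_sq3_3 (by positivity) h)
    simp only [sub_self, mul_zero, Real.exp_zero, mul_one]
    calc _ ≤ (G a / NN m) ^ 2 * 1 * 6000 := by
          linarith only [h, k1, k2, sq_nonneg ‖Cp a - (z a : ℂ) • dl‖, sq_nonneg ‖Cm a - (z a : ℂ) • dl‖,
            sq_nonneg (G a / NN m)]
      _ ≤ _ := by
          have := H.lin0 ha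
          gcongr
          · linarith only [this]
          · exact le_add_of_nonneg_right (by positivity)
  have ht' := sub ht
  obtain ⟨e0, r0, E0, D0⟩ := H.eB t ht'
  obtain ⟨e1, r1, E1, D1⟩ := H.eP t ht'
  obtain ⟨e2, r2, E2, D2⟩ := H.eM t ht'
  have s0 := (H.hs t ht').1
  have G0 := H.G0 ht'
  have f0 := (H.hf t ht').1
  refine ⟨_, _, hd_sq3 D0 D1 D2, ((((H.hG t ht').div_const (NN m)).fun_pow 2).fun_mul
    ((hd_lin t1 (t2 - t1) t).const_add 1)).fun_mul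
    ((((((H.hs t ht').2.sub_const _).const_mul _).exp).const_mul _).add_const _), fun hY => ?_⟩
  have ω0 : 0 < (T ^ 14)⁻¹ := by positivity
  have hst := stepE (U := nr3 (B t) (Cp t) (Cm t)) (H.hp t ht').1 (H.sB t) s0.le f0
    (by positivity : 0 ≤ (T ^ 100)⁻¹) E0 E1 E2 (fun h => (H.hdB h).1) (fun h => (H.hdP h).1)
    (fun h => (H.hdM h).1) (nr3_nonneg _ _ _) (nr3_sq _ _ _).symm ω0
    (inv_le_one_of_one_le₀ (one_le_pow₀ H.T1))
    (fun x hx => le_of_sq3_1 (by positivity) (H.sup_le hx t ht'))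
  have q1 : √(T ^ 14)⁻¹ ^ 3 / (m + 1) ^ 3 * (2 * G t) ^ 2 =
      (T ^ 21)⁻¹ * (4 * (G t / NN m) ^ 2) := by
    rw [Real.sqrt_inv, show T ^ 14 = (T ^ 7) ^ 2 by ring, Real.sqrt_sq (by positivity), ← NN_sq]
    field_simp; ring
  have q2 : 1 / 10 ^ 6 * (T ^ 14)⁻¹ = 10 * (1 / 10 ^ 7 * (T ^ 14)⁻¹) := by ring
  rw [q1, q2] at hst
  rw [← nr3_sq] at hY
  have fin := algE (g' := (√2 * s t * G t + (f t + σ * Real.exp (-150) / (t2 - t1))) / NN m)
    (ε := (T ^ 100)⁻¹) (a := 2 * f t + 3 * (σ * Real.exp (-(60 * T ^ 9)) / (t2 - t1)))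
    (lam := 1 / 10 ^ 7 * (T ^ 14)⁻¹) (d := 1 / (t2 - t1)) s0 (by positivity) (by
      rw [← mul_div_assoc]; gcongr; exact le_add_of_nonneg_right (by positivity))
    (by linarith only [H.lin0 ht']) (by linarith only [H.lin1 ht']) (Real.exp_pos _) (by positivity)
    (by positivity) (by
      rw [← div_eq_mul_inv, ← div_eq_mul_inv, div_le_div_iff₀ (by positivity) (by positivity)]
      linarith only [H.Tpow (a := 14) (b := 100) (by norm_num), pow_pos T0 14]) (by positivity) (by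
      have u1 : f t ≤ σ * Real.exp (T ^ 10) * (1 / (t2 - t1)) := by
        rw [mul_one_div, le_div_iff₀ hD]; exact (H.hf t ht').2
      have u2 : σ * Real.exp (-(60 * T ^ 9)) / (t2 - t1) ≤
          σ * Real.exp (T ^ 10) * (1 / (t2 - t1)) := by
        rw [mul_one_div]; gcongr; linarith only [pow_pos T0 9, pow_pos T0 10]
      have u3 : T ^ 30 * (σ * Real.exp (T ^ 10)) ≤ G t / NN m := by
        refine le_trans ?_ (hG t ht)
        rw [mul_left_comm]; gcongr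
      calc _ ≤ 8 * (5 * (σ * Real.exp (T ^ 10) * (1 / (t2 - t1)))) ^ 2 := by gcongr; linarith only [u1, u2]
        _ = (T ^ 30 * (σ * Real.exp (T ^ 10))) ^ 2 * (200 / T ^ 39 * (T ^ 21)⁻¹) *
            (1 / (t2 - t1)) ^ 2 := by field_simp; ring
        _ ≤ (G t / NN m) ^ 2 * (10 * (T ^ 21)⁻¹) * (1 / (t2 - t1)) ^ 2 := by
            gcongr
            rw [div_le_iff₀ (by positivity)]
            linarith only [H.Tpow (a := 0) (b := 39) (by norm_num)]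
        _ < _ := by gcongr; exact lt_add_of_pos_left _ (by positivity)) hY
  refine lt_of_le_of_lt (mul_le_mul_of_nonneg_left hst (by norm_num)) (fin.trans_eq ?_)
  simp only [Nat.cast_ofNat, Nat.add_one_sub_one, pow_one]

end P1

end Pool.Agent.Work.MP_6bf1e5_an.Dec
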