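import Pool.Agent.Work.MP_6bf1e5_an.Dec.Phase1D
import Pool.Agent.Work.MP_6bf1e5_an.Dec.Phase1E

/-!
Growth and concentration of the seed.
-/

open Set Complex
open scoped InnerProductSpace ComplexConjugate
open Pool.Agent.Work.MP_6bf1e5_an.B (Z3 R3 box)

namespace Pool.Agent.Work.MP_6bf1e5_an.Dec

theorem phase1 {m n : ℕ} {T t1 t2 w1 w2 σ : ℝ} {p B Cp Cm : ℝ → V} {s f τ : ℝ → ℝ}
    {dB dP dM : Z3 → ℝ} (hT : (10 : ℝ) ^ 100 ≤ T)
    (L1 : T ^ 8 / 4 * (m + 1) ≤ n + 1) (L2 : (n + 1 : ℝ) ≤ T ^ 8 / 2 * (m + 1))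
    (hN : NN n ≤ Real.exp (50 * T ^ 9)) (h0 : 0 ≤ t1) (h1 : t1 ≤ w1) (h2 : w1 < w2) (h3 : w2 ≤ t2)
    (hp : ∀ t ∈ Icc t1 t2, Drv m (p t) ∧
      ∃ p', HD p p' t ∧ Supp m p' ∧ ev 0 p' = 0 ∧ l1 p' * (t2 - t1) ≤ T ^ 3)
    (cs : ContinuousOn s (Icc t1 t2)) (hs : ∀ t ∈ Icc t1 t2, 0 < s t ∧ HD τ (s t) t)
    (τ1 : τ t1 = 0) (τw : τ w2 ≤ 100) (τ2 : T ^ 15 / 100 ≤ τ t2) (τ3 : τ t2 ≤ 100 * T ^ 15)
    (hdB : ∀ h, 0 ≤ dB h ∧ dB h * (t2 - t1) ≤ (T ^ 50)⁻¹)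
    (hdP : ∀ h, 0 ≤ dP h ∧ dP h * (t2 - t1) ≤ (T ^ 50)⁻¹)
    (hdM : ∀ h, 0 ≤ dM h ∧ dM h * (t2 - t1) ≤ (T ^ 50)⁻¹) (hd : dP 0 = dM 0)
    (hσ : 0 < σ) (cf : ContinuousOn f (Icc t1 t2))
    (hf : ∀ t ∈ Icc t1 t2, 0 ≤ f t ∧ f t * (t2 - t1) ≤ σ * Real.exp (T ^ 10))
    (hw : ∀ t ∈ Icc w1 w2, σ ≤ f t * (w2 - w1))
    (sB : ∀ t, Supp n (B t)) (sP : ∀ t, Supp (n + m) (Cp t)) (sM : ∀ t, Supp (n + m) (Cm t))
    (eB : ∀ t ∈ Icc t1 t2, ∃ e r, Er1 (n + m) ((T ^ 100)⁻¹ * s t)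
      (σ * Real.exp (-(60 * T ^ 9)) / (t2 - t1)) (maj (p t) (B t) (Cp t) (Cm t)) e r ∧
      HD B ((s t : ℂ) • proj n (dag (p t) * Cp t + p t * Cm t) - mulr dB (B t) + e + r) t)
    (eP : ∀ t ∈ Icc t1 t2, ∃ e r, Er1 (n + m) ((T ^ 100)⁻¹ * s t)
      (σ * Real.exp (-(60 * T ^ 9)) / (t2 - t1)) (maj (p t) (B t) (Cp t) (Cm t)) e r ∧
      HD Cp ((s t : ℂ) • (p t * B t) - mulr dP (Cp t) + (f t : ℂ) • dl + e + r) t)
    (eM : ∀ t ∈ Icc t1 t2, ∃ e r, Er1 (n + m) ((T ^ 100)⁻¹ * s t)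
      (σ * Real.exp (-(60 * T ^ 9)) / (t2 - t1)) (maj (p t) (B t) (Cp t) (Cm t)) e r ∧
      HD Cm ((s t : ℂ) • (dag (p t) * B t) - mulr dM (Cm t) + (f t : ℂ) • dl + e + r) t)
    (init : nr3 (B t1) (Cp t1) (Cm t1) ≤ σ * Real.exp (-(60 * T ^ 9))) :
    σ * Real.exp (T ^ 14) ≤ al n (p t2) (B t2) (Cp t2) (Cm t2) ∧
      nr3 (B t2) (Cp t2) (Cm t2) ^ 2 ≤ 100 * T ^ 3 * al n (p t2) (B t2) (Cp t2) (Cm t2) ^ 2 := by
  have h12 : t1 < t2 := h1.trans_lt (h2.trans_le h3)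
  obtain ⟨z, z1, hz⟩ := exists_lin (s := fun _ => -dP 0) h0 h12.le continuousOn_const cf 0
  obtain ⟨G, G1, hG⟩ := exists_lin (s := fun t => √2 * s t)
    (g := fun t => f t + σ * Real.exp (-150) / (t2 - t1)) h0 h12.le (continuousOn_const.mul cs)
    (cf.add continuousOn_const) (σ * Real.exp (-150))
  have H : P1 m n T t1 t2 σ p B Cp Cm s f τ z G dB dP dM :=
    ⟨hT, L1, L2, hN, h0, h12, hp, hs, τ1, τ3, hdB, hdP, hdM, hd, hσ, hf, sB, sP, sM, eB, eP, eM,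
      init, z1, hz, G1, hG⟩
  have T0 := H.T0
  have hn := NN_pos n
  have hm := NN_pos m
  have r1 := Ph1.sqrt2_lo
  have r2 : √2 ≤ (142 / 100 : ℝ) := Real.sqrt_le_iff.mpr (by norm_num)
  have w2m : w2 ∈ Icc t1 t2 := ⟨h1.trans h2.le, h3⟩
  have t2m : t2 ∈ Icc t1 t2 := ⟨h12.le, le_rfl⟩
  have Gw : σ ≤ G w2 := by
    have hw' := sub_pos.mpr h2
    have := le_of_deriv_le (F := fun t => σ * ((t - w1) / (w2 - w1))) (G := G) (b := w2)
      (h0.trans h1) (by simpa using (H.G0 ⟨h1, h2.le.trans h3⟩).le) (fun u hu => by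
        have hu' : u ∈ Icc t1 t2 := ⟨h1.trans hu.1, hu.2.trans h3⟩
        refine ⟨_, _, (P1.hd_lin _ _ u).const_mul _, hG u hu', ?_⟩
        have a1 : σ * (1 / (w2 - w1)) ≤ f u := by
          rw [mul_one_div, div_le_iff₀ hw']; exact hw u hu
        have a2 := div_pos H.J0 H.Dt
        have a3 : 0 ≤ √2 * s u * G u := by
          have := (hs u hu').1
          have := H.G0 hu'
          positivity
        linarith only [a1, a2, a3]) w2 ⟨h2.le, le_rfl⟩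
    rwa [div_self hw'.ne', mul_one] at this
  have Glo : ∀ t ∈ Icc w2 t2, σ * Real.exp (√2 * τ t - 142) ≤ G t := fun t ht => by
    refine le_trans ?_ (H.Gexp w2m ht)
    have := H.G0 w2m
    have := H.τ0 w2m
    gcongr
    nlinarith only [τw, r1, r2]
  have p1 := H.Tpow (a := 14) (b := 15) (by norm_num)
  have p2 := H.Tpow (a := 11) (b := 14) (by norm_num)
  have p3 := H.Tpow (a := 9) (b := 11) (by norm_num)
  have p4 := H.Tpow (a := 0) (b := 9) (by norm_num)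
  obtain ⟨a, ha, τa⟩ := exists_level (F := τ) (c := τ t2 / 2) h3
    ((contOn_of_HD h0 fun t ht => ⟨_, (hs t ht).2⟩).mono (Icc_subset_Icc_left w2m.1))
    (by linarith only [τw, τ2, p1, p2, p3, p4]) (by linarith only [τ2, p1, p2, p3, p4])
  have am : a ∈ Icc t1 t2 := ⟨w2m.1.trans ha.1, ha.2⟩
  have conc := H.conc am (by linarith only [τ2, τa]) fun t ht => by
    rw [le_div_iff₀ hm]
    refine le_trans ?_ (Glo t ⟨ha.1.trans ht.1, ht.2⟩)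
    have τt := H.τmono am.1 ht.1 ht.2
    calc _ ≤ σ * Real.exp (T ^ 11) * Real.exp (50 * T ^ 9) := by gcongr; exact H.NNmn.trans hN
      _ ≤ _ := by
        rw [mul_assoc, ← Real.exp_add]
        gcongr
        nlinarith only [hT, τ2, τ3, r1, p2, p3, p4, τa, τt]
  have G2 := Glo t2 ⟨h3, le_rfl⟩
  have G0 := H.G0 t2m
  have hal : G t2 / 2 ≤ NN n * al n (p t2) (B t2) (Cp t2) (Cm t2) := by
    refine le_trans ?_ (H.al_ge t2 t2m)
    have e4 : 5 ≤ Real.exp 4 := by linarith only [Real.add_one_le_exp 4]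
    have : 16 * (σ * Real.exp (-150) * Real.exp (√2 * τ t2)) ≤ σ * Real.exp (√2 * τ t2 - 142) := by
      calc _ ≤ Real.exp 4 * Real.exp 4 * (σ * Real.exp (-150) * Real.exp (√2 * τ t2)) := by
            gcongr; nlinarith only [e4]
        _ = σ * Real.exp (4 + 4 + -150 + √2 * τ t2) := by simp only [Real.exp_add]; ring
        _ = _ := by congr 2; ring
    linarith only [G2, this]
  constructor
  · refine le_of_mul_le_mul_left (le_trans ?_ hal) hn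
    refine le_trans ?_ (div_le_div_of_nonneg_right G2 (by norm_num))
    rw [le_div_iff₀ (by norm_num)]
    calc _ ≤ Real.exp (50 * T ^ 9) * (σ * Real.exp (T ^ 14)) * Real.exp 1 := by
          gcongr; linarith only [Real.add_one_le_exp 1]
      _ = σ * Real.exp (50 * T ^ 9 + T ^ 14 + 1) := by simp only [Real.exp_add]; ring
      _ ≤ _ := by gcongr; nlinarith only [hT, τ2, τ3, r1, p2, p3, p4]
  · refine conc.trans ?_
    have a1 : G t2 / NN m ≤ 2 * T ^ 12 * al n (p t2) (B t2) (Cp t2) (Cm t2) := by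
      have al0 : 0 ≤ al n (p t2) (B t2) (Cp t2) (Cm t2) :=
        nonneg_of_mul_nonneg_right (by linarith only [G0, hal]) hn
      rw [div_le_iff₀ hm]
      linarith only [hal, mul_le_mul_of_nonneg_right H.NNT al0]
    calc _ ≤ 22 * (2 * T ^ 12 * al n (p t2) (B t2) (Cp t2) (Cm t2)) ^ 2 / T ^ 21 := by (clear * - hT hm G0 a1; gcongr)
      _ = 88 * T ^ 3 * al n (p t2) (B t2) (Cp t2) (Cm t2) ^ 2 := by field_simp; ring
      _ ≤ _ := by gcongr; norm_num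

end Pool.Agent.Work.MP_6bf1e5_an.Dec
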