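import Pool.Agent.Work.MP_6bf1e5_an.Dec.Phi

/-!
Pointwise estimates for the first phase.
-/

open Set Complex
open scoped InnerProductSpace ComplexConjugate
open Pool.Agent.Work.MP_6bf1e5_an.B (Z3 R3 box)

namespace Pool.Agent.Work.MP_6bf1e5_an.Dec

/-- Admissible errors during the first phase. -/
structure Er1 (k : ℕ) (ε ρ : ℝ) (w e r : V) : Prop where
  pt : ∀ h, ‖e.coeff h‖ ≤ ε * ‖w.coeff h‖
  se : Supp k e
  sr : Supp k r
  nrm : ‖r‖ ≤ ρ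

namespace Ph1

lemma pow_le_exp' {T : ℝ} (hT : (10 : ℝ) ^ 100 ≤ T) {k : ℕ} (hk : k ≤ 1000) :
    T ^ k ≤ Real.exp (T / 10 ^ 10) := by
  have T0 : 0 < T := lt_of_lt_of_le (by positivity) hT
  have h1 : Real.log T ≤ 2 * √T := by
    have := Real.log_le_sub_one_of_pos (Real.sqrt_pos.mpr T0)
    rw [Real.log_sqrt T0.le] at this
    linarith only [this]
  have h2 : (10 : ℝ) ^ 50 ≤ √T := Real.le_sqrt_of_sq_le (by norm_num at hT ⊢; exact hT)
  have h3 : (k : ℝ) ≤ 1000 := by exact_mod_cast hk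
  rw [← Real.exp_log (pow_pos T0 k), Real.log_pow]
  refine Real.exp_le_exp.mpr ?_
  have h4 := Real.mul_self_sqrt T0.le
  have h5 : (0 : ℝ) ≤ k := Nat.cast_nonneg k
  have h6 : (k : ℝ) * Real.log T ≤ 1000 * (2 * √T) :=
    (mul_le_mul_of_nonneg_left h1 h5).trans (by gcongr)
  rw [le_div_iff₀ (by positivity)]
  nlinarith only [h2, h4, h6, Real.sqrt_nonneg T]

lemma sqrt2_lo : (14 / 10 : ℝ) ≤ √2 := Real.le_sqrt_of_sq_le (by norm_num)

lemma sqrt2_hi : √2 ≤ (3 / 2 : ℝ) := Real.sqrt_le_iff.mpr (by norm_num)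

lemma sqrt2_sq : √2 * √2 = (2 : ℝ) := Real.mul_self_sqrt (by norm_num)

lemma two_mul_le (b c d : ℝ) : 2 * b * (c + d) ≤ √2 * (b ^ 2 + c ^ 2 + d ^ 2) := by
  have h := sqrt2_sq
  have h1 := sqrt2_lo
  have : 0 ≤ √2 * ((b - √2 * c) ^ 2 + (b - √2 * d) ^ 2) := by positivity
  have e : √2 * ((b - √2 * c) ^ 2 + (b - √2 * d) ^ 2) =
      2 * (√2 * (b ^ 2 + c ^ 2 + d ^ 2) - 2 * b * (c + d)) := by
    linear_combination (√2 * (c ^ 2 + d ^ 2) - 2 * b * (c + d)) * h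
  linarith only [this, e]

section bar

variable {E : Type} [NormedAddCommGroup E] [InnerProductSpace ℂ E] [NormedSpace ℝ E]
  {a b c : ℝ → E}

lemma hd_sq3 {a' b' c' : E} {t : ℝ} (ha : HD a a' t) (hb : HD b b' t) (hc : HD c c' t) :
    HD (fun t => ‖a t‖ ^ 2 + ‖b t‖ ^ 2 + ‖c t‖ ^ 2)
      (2 * ((⟪a t, a'⟫_ℂ).re + (⟪b t, b'⟫_ℂ).re + (⟪c t, c'⟫_ℂ).re)) t := by
  exact ((ha.normsq.fun_add hb.normsq).fun_add hc.normsq).congr_deriv (by ring)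

theorem bar3 {U : ℝ → ℝ} {t1 t2 : ℝ} (h0 : 0 ≤ t1)
    (init : ‖a t1‖ ^ 2 + ‖b t1‖ ^ 2 + ‖c t1‖ ^ 2 ≤ U t1 ^ 2)
    (H : ∀ t ∈ Icc t1 t2, ∃ a' b' c' U', HD a a' t ∧ HD b b' t ∧ HD c c' t ∧ HD U U' t ∧
      (‖a t‖ ^ 2 + ‖b t‖ ^ 2 + ‖c t‖ ^ 2 = U t ^ 2 →
        (⟪a t, a'⟫_ℂ).re + (⟪b t, b'⟫_ℂ).re + (⟪c t, c'⟫_ℂ).re < U t * U')) :
    ∀ t ∈ Icc t1 t2, ‖a t‖ ^ 2 + ‖b t‖ ^ 2 + ‖c t‖ ^ 2 ≤ U t ^ 2 := by
  refine barrier (F := fun t => ‖a t‖ ^ 2 + ‖b t‖ ^ 2 + ‖c t‖ ^ 2) (G := fun t => U t ^ 2) h0 init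
    fun t ht => ?_
  obtain ⟨a', b', c', U', ha, hb, hc, hU, h⟩ := H t ht
  refine ⟨_, 2 * (U t * U'), hd_sq3 ha hb hc, ?_, fun e => by linarith [h e]⟩
  exact (hU.fun_pow 2).congr_deriv (by simp; ring)

end bar

lemma re_inner_le (f g : V) : (⟪f, g⟫_ℂ).re ≤ ‖f‖ * ‖g‖ :=
  (Complex.re_le_norm _).trans (norm_inner_le_norm _ _)

lemma re_inner_comm (f g : V) : (⟪f, g⟫_ℂ).re = (⟪g, f⟫_ℂ).re := by
  rw [← inner_conj_symm, Complex.conj_re]

lemma re_inner_smul (s : ℝ) (f g : V) : (⟪f, (s : ℂ) • g⟫_ℂ).re = s * (⟪f, g⟫_ℂ).re := by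
  rw [inner_smul_right, Complex.re_ofReal_mul]

/-- The energy inequality. -/
lemma energy {n : ℕ} {b : V} (hb : Supp n b) (c1 c2 k1 k2 g0 g1 g2 : V) {s : ℝ} (hs : 0 ≤ s)
    {d0 d1 d2 : Z3 → ℝ} (h0 : ∀ h, 0 ≤ d0 h) (h1 : ∀ h, 0 ≤ d1 h) (h2 : ∀ h, 0 ≤ d2 h) :
    (⟪b, (s : ℂ) • proj n (dag k1 * c1 + k2 * c2) - mulr d0 b + g0⟫_ℂ).re +
      (⟪c1, (s : ℂ) • (k2 * b) - mulr d1 c1 + g1⟫_ℂ).re +
      (⟪c2, (s : ℂ) • (dag k1 * b) - mulr d2 c2 + g2⟫_ℂ).re ≤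
      s * (‖(k1 + k2) * b‖ * (‖c1‖ + ‖c2‖)) + (‖b‖ * ‖g0‖ + ‖c1‖ * ‖g1‖ + ‖c2‖ * ‖g2‖) := by
  simp only [inner_add_right, inner_sub_right, Complex.add_re, Complex.sub_re, re_inner_smul]
  rw [hb.inner_proj, inner_add_right, Complex.add_re, inner_mul_right (dag k1), dag_dag,
    inner_mul_right k2 b, re_inner_comm c1 (k2 * b), re_inner_comm c2 (dag k1 * b)]
  have e1 : (⟪k1 * b, c1⟫_ℂ).re + (⟪k2 * b, c1⟫_ℂ).re ≤ ‖(k1 + k2) * b‖ * ‖c1‖ := by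
    rw [← Complex.add_re, ← inner_add_left, ← add_mul]; exact re_inner_le _ _
  have e2 : (⟪dag k1 * b, c2⟫_ℂ).re + (⟪dag k2 * b, c2⟫_ℂ).re ≤ ‖(k1 + k2) * b‖ * ‖c2‖ := by
    rw [← Complex.add_re, ← inner_add_left, ← add_mul, ← map_add, ← norm_dag_mul (k1 + k2)]
    exact re_inner_le _ _
  have a0 := re_inner_mulr_ge h0 b
  have a1 := re_inner_mulr_ge h1 c1
  have a2 := re_inner_mulr_ge h2 c2
  have b0 := re_inner_le b g0
  have b1 := re_inner_le c1 g1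
  have b2 := re_inner_le c2 g2
  have := mul_le_mul_of_nonneg_left (add_le_add e1 e2) hs
  linarith

/-- The symmetrised weighted driver is almost a contraction. -/
lemma norm_sym_mul_le {m : ℕ} {p : V} (hp : Drv m p) {ξ : R3} {x : ℝ}
    (hx : m * ∑ i, |ξ i| ≤ x) (hx1 : x ≤ 1) (y : V) :
    ‖(wt (-ξ) p + wt ξ p) * y‖ ≤ 2 * (1 + 2 * x ^ 2) * ‖y‖ := by
  have hu : l1 (wt (-ξ) p + wt ξ p - (p + p)) ≤ 2 * x ^ 2 * l1 p := by
    refine l1_le_of_coeff (by positivity) fun h => ?_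
    by_cases hh : h ∈ box m
    · have ha : |pr h ξ| ≤ x := (abs_pr_le hh ξ).trans hx
      have e : (wt (-ξ) p + wt ξ p - (p + p)).coeff h =
          ((Real.exp (-pr h ξ) + Real.exp (pr h ξ) - 2 : ℝ) : ℂ) * p.coeff h := by
        simp only [AddMonoidAlgebra.coeff_add, AddMonoidAlgebra.coeff_sub, Finsupp.coe_add,
          Finsupp.coe_sub, Pi.add_apply, Pi.sub_apply, coeff_wt, pr_neg']
        push_cast; ring
      rw [e, norm_mul, Complex.norm_real, Real.norm_eq_abs]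
      gcongr
      have h1 := abs_le.mp (Real.abs_exp_sub_one_sub_id_le (x := pr h ξ) (ha.trans hx1))
      have h2 := abs_le.mp (Real.abs_exp_sub_one_sub_id_le (x := -pr h ξ)
        (by rw [abs_neg]; exact ha.trans hx1))
      have h3 : pr h ξ ^ 2 ≤ x ^ 2 := by
        rw [← sq_abs]; gcongr
      rw [abs_le]
      constructor <;> linarith only [h1, h2, h3]
    · simp [coeff_wt, hp.supp h hh]
  have e : (wt (-ξ) p + wt ξ p) * y = p * y + p * y + (wt (-ξ) p + wt ξ p - (p + p)) * y := by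
    ring
  rw [e]
  have h1 := hp.norm_mul_le y
  have h2 := norm_mul_le_l1 (wt (-ξ) p + wt ξ p - (p + p)) y
  have h3 := norm_add₃_le (a := p * y) (b := p * y) (c := (wt (-ξ) p + wt ξ p - (p + p)) * y)
  have h4 : l1 (wt (-ξ) p + wt ξ p - (p + p)) * ‖y‖ ≤ 2 * x ^ 2 * 2 * ‖y‖ := by
    gcongr
    exact hu.trans (by gcongr; exact hp.l1_le)
  linarith

lemma norm_mul_av_le (k y : V) {z : ℝ} (hz : 0 ≤ z) :
    ‖k * av (y + (z : ℂ) • dl)‖ ≤ l1 k * ‖y‖ + z * ‖k‖ := by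
  have e : av (y + (z : ℂ) • dl) =
      av y + ((‖y.coeff 0 + z‖ - ‖y.coeff 0‖ : ℝ) : ℂ) • dl := by
    ext h
    by_cases hh : h = 0
    · simp [hh, coeff_dl]
    · simp [hh, coeff_dl]
  rw [e, mul_add, mul_smul_comm, dl_eq_one, mul_one]
  refine (norm_add_le _ _).trans (add_le_add ?_ ?_)
  · simpa [norm_av] using norm_mul_le_l1 k (av y)
  · rw [norm_smul, Complex.norm_real, Real.norm_eq_abs]
    gcongr
    simpa [abs_of_nonneg hz] using abs_norm_sub_norm_le (y.coeff 0 + z) (y.coeff 0)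

lemma norm_wt_le_of_pt {e w : V} {ε : ℝ} (hε : 0 ≤ ε) (H : ∀ h, ‖e.coeff h‖ ≤ ε * ‖w.coeff h‖)
    (ξ : R3) : ‖wt ξ e‖ ≤ ε * ‖wt ξ w‖ :=
  norm_le_of_coeff hε fun h => by
    rw [coeff_wt, coeff_wt, norm_mul, norm_mul, mul_left_comm]
    gcongr
    exact H h

/-- The weighted majorant. -/
lemma norm_wt_maj_le {m : ℕ} {p : V} (hp : Drv m p) {ξ : R3}
    (hx : Real.exp (m * ∑ i, |ξ i|) ≤ 2) (B c1 c2 : V) {z : ℝ} (hz : 0 ≤ z) :
    ‖wt ξ (maj p B (c1 + (z : ℂ) • dl) (c2 + (z : ℂ) • dl))‖ ≤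
      8 * (‖wt ξ B‖ + ‖wt ξ c1‖ + ‖wt ξ c2‖) + 24 * z / NN m := by
  have hN := NN_pos m
  set k := av (wt ξ p) + av (dag (wt (-ξ) p)) with hk
  have hx' : Real.exp (m * ∑ i, |(-ξ) i|) ≤ 2 := by simpa using hx
  have l1k : l1 k ≤ 8 := by
    refine (l1_add_le _ _).trans ?_
    rw [l1_av, l1_av, l1_dag]
    have h1 := hp.supp.l1_wt_le ξ
    have h2 := hp.supp.l1_wt_le (-ξ)
    have := hp.l1_le
    have := l1_nonneg p
    have h3 : Real.exp (m * ∑ i, |ξ i|) * l1 p ≤ 2 * 2 := by gcongr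
    have h4 : Real.exp (m * ∑ i, |(-ξ) i|) * l1 p ≤ 2 * 2 := by gcongr
    linarith
  have nk : ‖k‖ ≤ 12 / NN m := by
    refine (norm_add_le _ _).trans ?_
    rw [norm_av, norm_av, norm_dag]
    have h1 := hp.supp.norm_wt_le ξ
    have h2 := hp.supp.norm_wt_le (-ξ)
    have := hp.norm_le
    have h3 : Real.exp (m * ∑ i, |ξ i|) * ‖p‖ ≤ 2 * (3 / NN m) := by gcongr
    have h4 : Real.exp (m * ∑ i, |(-ξ) i|) * ‖p‖ ≤ 2 * (3 / NN m) := by gcongr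
    have : 12 / NN m = 2 * (3 / NN m) + 2 * (3 / NN m) := by ring
    linarith
  have e : wt ξ (maj p B (c1 + (z : ℂ) • dl) (c2 + (z : ℂ) • dl)) =
      k * av (wt ξ B) + k * av (wt ξ c1 + (z : ℂ) • dl) + k * av (wt ξ c2 + (z : ℂ) • dl) := by
    rw [maj, wt_mul]
    simp only [map_add, map_smul, wt_av, wt_dag, wt_dl]
    rw [← hk]; ring
  rw [e]
  have h0 : ‖k * av (wt ξ B)‖ ≤ l1 k * ‖wt ξ B‖ := by
    simpa [norm_av] using norm_mul_le_l1 k (av (wt ξ B))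
  have h1 := norm_mul_av_le k (wt ξ c1) hz
  have h2 := norm_mul_av_le k (wt ξ c2) hz
  have h3 : z * ‖k‖ ≤ z * (12 / NN m) := by gcongr
  have h4 : l1 k * (‖wt ξ B‖ + ‖wt ξ c1‖ + ‖wt ξ c2‖) ≤ 8 * (‖wt ξ B‖ + ‖wt ξ c1‖ + ‖wt ξ c2‖) := by
    gcongr
  have h5 : 24 * z / NN m = 2 * (z * (12 / NN m)) := by ring
  refine norm_add₃_le.trans ?_
  linarith only [h0, h1, h2, h3, h4, h5]

lemma sum_abs_single (i : Fin 3) (a : ℝ) : ∑ j, |(Pi.single i a : R3) j| = |a| := by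
  rw [Finset.sum_eq_single i] <;> simp +contextual

lemma pr_single (h : Z3) (i : Fin 3) (a : ℝ) : pr h (Pi.single i a) = h i * a := by
  rw [pr, Finset.sum_eq_single i] <;> simp +contextual

/-- The tail outside a box is controlled by weighted norms. -/
lemma norm_tail_le (n : ℕ) {g : V} {x W : ℝ} (hx : 0 ≤ x) (hW : 0 ≤ W)
    (H : ∀ ξ : R3, ∑ i, |ξ i| ≤ x → ‖wt ξ g‖ ≤ W) :
    ‖g - proj n g‖ ≤ 3 * Real.exp (-(x * (n + 1))) * W := by
  refine (pow_le_pow_iff_left₀ (norm_nonneg _) (by positivity) two_ne_zero).mp ?_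
  have hs : (g - proj n g).coeff.support ⊆ g.coeff.support := fun h hh => by
    rw [Finsupp.mem_support_iff] at hh ⊢
    intro e
    simp [coeff_proj, e] at hh
  rw [norm_sq_eq hs]
  set E := Real.exp (-(x * (n + 1))) with hE
  have pt : ∀ h, ‖(g - proj n g).coeff h‖ ^ 2 ≤ E ^ 2 * ∑ i : Fin 3,
      (‖(wt (Pi.single i x) g).coeff h‖ ^ 2 + ‖(wt (Pi.single i (-x)) g).coeff h‖ ^ 2) := by
    intro h
    by_cases hh : h ∈ box n
    · simp only [AddMonoidAlgebra.coeff_sub, Finsupp.coe_sub, Pi.sub_apply, coeff_proj, hh,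
        if_true, sub_self, norm_zero, ne_eq, OfNat.ofNat_ne_zero, not_false_eq_true, zero_pow]
      positivity
    · obtain ⟨i, hi⟩ : ∃ i, (n : ℤ) < |h i| := by simpa [mem_box'] using hh
      have hi' : (n : ℝ) + 1 ≤ |(h i : ℝ)| := by exact_mod_cast hi
      refine le_trans ?_ (mul_le_mul_of_nonneg_left (Finset.single_le_sum
        (f := fun i => ‖(wt (Pi.single i x) g).coeff h‖ ^ 2 +
          ‖(wt (Pi.single i (-x)) g).coeff h‖ ^ 2) (fun _ _ => by positivity) (Finset.mem_univ i))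
        (by positivity))
      simp only [AddMonoidAlgebra.coeff_sub, Finsupp.coe_sub, Pi.sub_apply, coeff_proj, hh,
        if_false, sub_zero, coeff_wt, norm_mul, Complex.norm_real, pr_single,
        Real.norm_of_nonneg (Real.exp_pos _).le]
      have key : ∀ u : ℝ, x * (n + 1) ≤ u → ‖g.coeff h‖ ^ 2 ≤
          E ^ 2 * (Real.exp u * ‖g.coeff h‖) ^ 2 := fun u hu => by
        have : 1 ≤ E * Real.exp u := by
          rw [hE, ← Real.exp_add]; exact Real.one_le_exp (by linarith)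
        rw [← mul_pow, ← mul_assoc]
        gcongr
        exact le_mul_of_one_le_left (norm_nonneg _) this
      rw [mul_add]
      rcases le_abs'.mp hi' with h1 | h1
      · have := key (h i * -x) (by nlinarith only [hx, h1])
        have h2 : 0 ≤ E ^ 2 * (Real.exp (h i * x) * ‖g.coeff h‖) ^ 2 := by positivity
        linarith
      · have := key (h i * x) (by nlinarith only [hx, h1])
        have h2 : 0 ≤ E ^ 2 * (Real.exp (h i * -x) * ‖g.coeff h‖) ^ 2 := by positivity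
        linarith
  refine (Finset.sum_le_sum fun h _ => pt h).trans ?_
  rw [← Finset.mul_sum, Finset.sum_comm]
  have : ∀ i : Fin 3, ∑ h ∈ g.coeff.support, (‖(wt (Pi.single i x) g).coeff h‖ ^ 2 +
      ‖(wt (Pi.single i (-x)) g).coeff h‖ ^ 2) ≤ W ^ 2 + W ^ 2 := fun i => by
    rw [Finset.sum_add_distrib]
    refine add_le_add ((sum_sq_le _ _).trans ?_) ((sum_sq_le _ _).trans ?_)
    · gcongr
      exact H _ (by rw [sum_abs_single, abs_of_nonneg hx])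
    · gcongr
      exact H _ (by rw [sum_abs_single, abs_neg, abs_of_nonneg hx])
  have h2 := Finset.sum_le_sum fun i (_ : i ∈ Finset.univ) => this i
  have h3 : ∑ _i : Fin 3, (W ^ 2 + W ^ 2) = 6 * W ^ 2 := by simp; ring
  calc _ ≤ E ^ 2 * (6 * W ^ 2) := by rw [← h3]; gcongr
    _ ≤ _ := by linarith [sq_nonneg (E * W)]

lemma NN_le {a b : ℕ} {c : ℝ} (hc : 0 ≤ c) (h : ((a : ℝ) + 1) ^ 3 ≤ c ^ 2 * (b + 1) ^ 3) :
    NN a ≤ c * NN b := by
  have := NN_pos b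
  refine (pow_le_pow_iff_left₀ (NN_pos a).le (by positivity) two_ne_zero).mp ?_
  rwa [mul_pow, NN_sq, NN_sq]

lemma l1_mulr_le {d : Z3 → ℝ} {c : ℝ} (H0 : ∀ h, 0 ≤ d h) (H : ∀ h, d h ≤ c) (f : V) :
    l1 (mulr d f) ≤ c * l1 f :=
  l1_le_of_coeff ((H0 0).trans (H 0)) fun h => by
    rw [coeff_mulr, norm_mul, Complex.norm_real, Real.norm_of_nonneg (H0 h)]
    gcongr
    exact H h

lemma mulr_dl (d : Z3 → ℝ) : mulr d dl = (d 0 : ℂ) • dl := by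
  ext h
  by_cases hh : h = 0 <;> simp [hh, coeff_dl]

end Ph1

end Pool.Agent.Work.MP_6bf1e5_an.Dec
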