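import Pool.Agent.Work.MP_6bf1e5_an.Dec.Phase1A

/-!
The setting of the first phase, the scalar comparison functions and the weighted estimate.
-/

open Set Complex
open scoped InnerProductSpace ComplexConjugate
open Pool.Agent.Work.MP_6bf1e5_an.B (Z3 R3 box)

namespace Pool.Agent.Work.MP_6bf1e5_an.Dec

namespace Ph1

lemma le_of_sq3_1 {a b c U : ℝ} (hU : 0 ≤ U) (h : a ^ 2 + b ^ 2 + c ^ 2 ≤ U ^ 2) : a ≤ U :=
  (le_abs_self a).trans (abs_le_of_sq_le_sq (by linarith [sq_nonneg b, sq_nonneg c]) hU)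

lemma le_of_sq3_2 {a b c U : ℝ} (hU : 0 ≤ U) (h : a ^ 2 + b ^ 2 + c ^ 2 ≤ U ^ 2) : b ≤ U :=
  le_of_sq3_1 (b := a) (c := c) hU (by linarith)

lemma le_of_sq3_3 {a b c U : ℝ} (hU : 0 ≤ U) (h : a ^ 2 + b ^ 2 + c ^ 2 ≤ U ^ 2) : c ≤ U :=
  le_of_sq3_1 (b := a) (c := b) hU (by linarith)

/-- The weighted energy inequality at one time. -/
lemma stepA {m n k : ℕ} {p B c1 c2 e0 r0 e1 r1 e2 r2 : V} {s z ε ρ U x R : ℝ} {ξ : R3}
    {d0 d1 d2 : Z3 → ℝ} (hp : Drv m p) (hB : Supp n B) (hx : m * ∑ i, |ξ i| ≤ x) (hx1 : x ≤ 1 / 2)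
    (hs : 0 ≤ s) (hz : 0 ≤ z) (hε : 0 ≤ ε)
    (E0 : Er1 k (ε * s) ρ (maj p B (c1 + (z : ℂ) • dl) (c2 + (z : ℂ) • dl)) e0 r0)
    (E1 : Er1 k (ε * s) ρ (maj p B (c1 + (z : ℂ) • dl) (c2 + (z : ℂ) • dl)) e1 r1)
    (E2 : Er1 k (ε * s) ρ (maj p B (c1 + (z : ℂ) • dl) (c2 + (z : ℂ) • dl)) e2 r2)
    (h0 : ∀ h, 0 ≤ d0 h) (h1 : ∀ h, 0 ≤ d1 h) (h2 : ∀ h, 0 ≤ d2 h) (hU : 0 ≤ U)
    (hY : ‖wt ξ B‖ ^ 2 + ‖wt ξ c1‖ ^ 2 + ‖wt ξ c2‖ ^ 2 = U ^ 2)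
    (hR : Real.exp (k * ∑ i, |ξ i|) * ρ ≤ R) :
    (⟪wt ξ B, wt ξ ((s : ℂ) • proj n (dag p * (c1 + (z : ℂ) • dl) + p * (c2 + (z : ℂ) • dl))
        - mulr d0 B + e0 + r0)⟫_ℂ).re +
      (⟪wt ξ c1, wt ξ ((s : ℂ) • (p * B) - mulr d1 c1 + (e1 + r1))⟫_ℂ).re +
      (⟪wt ξ c2, wt ξ ((s : ℂ) • (dag p * B) - mulr d2 c2 + (e2 + r2))⟫_ℂ).re ≤
      U * ((√2 + 3 * x ^ 2 + 72 * ε) * s * U + (12 + 72 * ε) * (s * z / NN m) + 3 * R) := by
  have hN := NN_pos m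
  have hS : 0 ≤ ∑ i, |ξ i| := Finset.sum_nonneg fun _ _ => abs_nonneg _
  have hx0 : 0 ≤ x := le_trans (by positivity) hx
  have hex : Real.exp (m * ∑ i, |ξ i|) ≤ 2 := by
    refine (Real.exp_le_exp.mpr (hx.trans hx1)).trans ?_
    have := Real.exp_bound_div_one_sub_of_interval (x := 1 / 2) (by norm_num) (by norm_num)
    linarith only [this, show (1 : ℝ) / (1 - 1 / 2) = 2 by norm_num]
  have hex' : Real.exp (m * ∑ i, |(-ξ) i|) ≤ 2 := by simpa using hex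
  have q0 : wt ξ ((s : ℂ) • proj n (dag p * (c1 + (z : ℂ) • dl) + p * (c2 + (z : ℂ) • dl))
      - mulr d0 B + e0 + r0) = (s : ℂ) • proj n (dag (wt (-ξ) p) * wt ξ c1 + wt ξ p * wt ξ c2)
      - mulr d0 (wt ξ B) + (((s * z : ℝ) : ℂ) • proj n (dag (wt (-ξ) p) + wt ξ p)
        + wt ξ e0 + wt ξ r0) := by
    simp only [map_add, map_sub, map_smul, wt_proj, wt_mul, wt_dag, wt_mulr, mul_add,
      mul_smul_comm, dl_eq_one, mul_one, Complex.ofReal_mul]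
    module
  have q1 : wt ξ ((s : ℂ) • (p * B) - mulr d1 c1 + (e1 + r1)) =
      (s : ℂ) • (wt ξ p * wt ξ B) - mulr d1 (wt ξ c1) + (wt ξ e1 + wt ξ r1) := by
    simp only [map_add, map_sub, map_smul, wt_mul, wt_mulr]
  have q2 : wt ξ ((s : ℂ) • (dag p * B) - mulr d2 c2 + (e2 + r2)) =
      (s : ℂ) • (dag (wt (-ξ) p) * wt ξ B) - mulr d2 (wt ξ c2) + (wt ξ e2 + wt ξ r2) := by
    simp only [map_add, map_sub, map_smul, wt_mul, wt_mulr, wt_dag]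
  rw [q0, q1, q2]
  refine (energy (supp_wt hB ξ) _ _ _ _ _ _ _ hs h0 h1 h2).trans ?_
  have b0 := le_of_sq3_1 hU hY.le
  have b1 := le_of_sq3_2 hU hY.le
  have b2 := le_of_sq3_3 hU hY.le
  have hm := norm_wt_maj_le hp hex B c1 c2 hz
  have er : ∀ {e r : V}, Er1 k (ε * s) ρ (maj p B (c1 + (z : ℂ) • dl) (c2 + (z : ℂ) • dl)) e r →
      ‖wt ξ e‖ + ‖wt ξ r‖ ≤ 24 * ε * s * U + 24 * ε * (s * z / NN m) + R := fun {e r} E => by
    have a1 := norm_wt_le_of_pt (by positivity) E.pt ξ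
    have a2 : ‖wt ξ r‖ ≤ R :=
      (E.sr.norm_wt_le ξ).trans (le_trans (by gcongr; exact E.nrm) hR)
    have a3 : ‖wt ξ e‖ ≤ ε * s * (24 * U + 24 * z / NN m) :=
      a1.trans (by gcongr; linarith only [b0, b1, b2, hm])
    have : ε * s * (24 * U + 24 * z / NN m) = 24 * ε * s * U + 24 * ε * (s * z / NN m) := by ring
    linarith only [a2, a3, this]
  have src : ‖((s * z : ℝ) : ℂ) • proj n (dag (wt (-ξ) p) + wt ξ p)‖ ≤ 12 * (s * z / NN m) := by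
    rw [norm_smul, Complex.norm_real, Real.norm_of_nonneg (by positivity)]
    have a1 := hp.supp.norm_wt_le ξ
    have a2 := hp.supp.norm_wt_le (-ξ)
    have := hp.norm_le
    have a3 : Real.exp (m * ∑ i, |ξ i|) * ‖p‖ ≤ 2 * (3 / NN m) := by gcongr
    have a4 : Real.exp (m * ∑ i, |(-ξ) i|) * ‖p‖ ≤ 2 * (3 / NN m) := by gcongr
    have a5 := (norm_proj_le n _).trans (norm_add_le (dag (wt (-ξ) p)) (wt ξ p))
    rw [norm_dag] at a5
    calc _ ≤ s * z * (2 * (3 / NN m) + 2 * (3 / NN m)) := by gcongr; linarith only [a1, a2, a3, a4, a5]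
      _ = _ := by ring
  set w := s * z / NN m with hw
  have w0 : 0 ≤ w := by positivity
  set Q := 24 * ε * s * U + 24 * ε * w + R with hQ
  have g0 : ‖wt ξ B‖ * ‖((s * z : ℝ) : ℂ) • proj n (dag (wt (-ξ) p) + wt ξ p)
      + wt ξ e0 + wt ξ r0‖ ≤ U * (12 * w + Q) := by
    gcongr
    exact norm_add₃_le.trans (by linarith only [src, er E0])
  have g1 : ‖wt ξ c1‖ * ‖wt ξ e1 + wt ξ r1‖ ≤ U * Q := by
    gcongr
    exact (norm_add_le _ _).trans (er E1)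
  have g2 : ‖wt ξ c2‖ * ‖wt ξ e2 + wt ξ r2‖ ≤ U * Q := by
    gcongr
    exact (norm_add_le _ _).trans (er E2)
  have st : ‖(wt (-ξ) p + wt ξ p) * wt ξ B‖ * (‖wt ξ c1‖ + ‖wt ξ c2‖) ≤
      (√2 + 3 * x ^ 2) * U ^ 2 := by
    have a1 := norm_sym_mul_le hp hx (by linarith only [hx1]) (wt ξ B)
    have a2 := two_mul_le ‖wt ξ B‖ ‖wt ξ c1‖ ‖wt ξ c2‖
    rw [hY] at a2
    calc _ ≤ 2 * (1 + 2 * x ^ 2) * ‖wt ξ B‖ * (‖wt ξ c1‖ + ‖wt ξ c2‖) := by gcongr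
      _ = (1 + 2 * x ^ 2) * (2 * ‖wt ξ B‖ * (‖wt ξ c1‖ + ‖wt ξ c2‖)) := by ring
      _ ≤ (1 + 2 * x ^ 2) * (√2 * U ^ 2) := by gcongr
      _ = (√2 + 2 * √2 * x ^ 2) * U ^ 2 := by ring
      _ ≤ _ := by gcongr; linarith only [sqrt2_hi]
  have st' := mul_le_mul_of_nonneg_left st hs
  calc _ ≤ s * ((√2 + 3 * x ^ 2) * U ^ 2) + (U * (12 * w + Q) + U * Q + U * Q) := by linarith only [g0, g1, g2, st']
    _ = _ := by rw [hQ]; ring

end Ph1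

/-- The hypotheses of the first phase, together with two scalar comparison functions. -/
structure P1 (m n : ℕ) (T t1 t2 σ : ℝ) (p B Cp Cm : ℝ → V) (s f τ z G : ℝ → ℝ)
    (dB dP dM : Z3 → ℝ) : Prop where
  hT : (10 : ℝ) ^ 100 ≤ T
  L1 : T ^ 8 / 4 * (m + 1) ≤ n + 1
  L2 : (n + 1 : ℝ) ≤ T ^ 8 / 2 * (m + 1)
  hN : NN n ≤ Real.exp (50 * T ^ 9)
  h0 : 0 ≤ t1
  h12 : t1 < t2
  hp : ∀ t ∈ Icc t1 t2, Drv m (p t) ∧
    ∃ p', HD p p' t ∧ Supp m p' ∧ ev 0 p' = 0 ∧ l1 p' * (t2 - t1) ≤ T ^ 3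
  hs : ∀ t ∈ Icc t1 t2, 0 < s t ∧ HD τ (s t) t
  τ1 : τ t1 = 0
  τ3 : τ t2 ≤ 100 * T ^ 15
  hdB : ∀ h, 0 ≤ dB h ∧ dB h * (t2 - t1) ≤ (T ^ 50)⁻¹
  hdP : ∀ h, 0 ≤ dP h ∧ dP h * (t2 - t1) ≤ (T ^ 50)⁻¹
  hdM : ∀ h, 0 ≤ dM h ∧ dM h * (t2 - t1) ≤ (T ^ 50)⁻¹
  hd : dP 0 = dM 0
  hσ : 0 < σ
  hf : ∀ t ∈ Icc t1 t2, 0 ≤ f t ∧ f t * (t2 - t1) ≤ σ * Real.exp (T ^ 10)
  sB : ∀ t, Supp n (B t)
  sP : ∀ t, Supp (n + m) (Cp t)
  sM : ∀ t, Supp (n + m) (Cm t)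
  eB : ∀ t ∈ Icc t1 t2, ∃ e r, Er1 (n + m) ((T ^ 100)⁻¹ * s t)
    (σ * Real.exp (-(60 * T ^ 9)) / (t2 - t1)) (maj (p t) (B t) (Cp t) (Cm t)) e r ∧
    HD B ((s t : ℂ) • proj n (dag (p t) * Cp t + p t * Cm t) - mulr dB (B t) + e + r) t
  eP : ∀ t ∈ Icc t1 t2, ∃ e r, Er1 (n + m) ((T ^ 100)⁻¹ * s t)
    (σ * Real.exp (-(60 * T ^ 9)) / (t2 - t1)) (maj (p t) (B t) (Cp t) (Cm t)) e r ∧
    HD Cp ((s t : ℂ) • (p t * B t) - mulr dP (Cp t) + (f t : ℂ) • dl + e + r) t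
  eM : ∀ t ∈ Icc t1 t2, ∃ e r, Er1 (n + m) ((T ^ 100)⁻¹ * s t)
    (σ * Real.exp (-(60 * T ^ 9)) / (t2 - t1)) (maj (p t) (B t) (Cp t) (Cm t)) e r ∧
    HD Cm ((s t : ℂ) • (dag (p t) * B t) - mulr dM (Cm t) + (f t : ℂ) • dl + e + r) t
  init : nr3 (B t1) (Cp t1) (Cm t1) ≤ σ * Real.exp (-(60 * T ^ 9))
  z1 : z t1 = 0
  hz : ∀ t ∈ Icc t1 t2, HD z (-dP 0 * z t + f t) t
  G1 : G t1 = σ * Real.exp (-150)
  hG : ∀ t ∈ Icc t1 t2,
    HD G (√2 * s t * G t + (f t + σ * Real.exp (-150) / (t2 - t1))) t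

namespace P1

open Ph1

variable {m n : ℕ} {T t1 t2 σ : ℝ} {p B Cp Cm : ℝ → V} {s f τ z G : ℝ → ℝ} {dB dP dM : Z3 → ℝ}
  (H : P1 m n T t1 t2 σ p B Cp Cm s f τ z G dB dP dM) {t : ℝ}

include H

lemma Tbig : (10 : ℝ) ^ 20 ≤ T := le_trans (by norm_num) H.hT

lemma T0 : 0 < T := lt_of_lt_of_le (by norm_num) H.Tbig

lemma T1 : 1 ≤ T := le_trans (by norm_num) H.Tbig

lemma Tpow {a b : ℕ} (h : a < b) : 10 ^ 20 * T ^ a ≤ T ^ b := by
  have := H.T0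
  calc 10 ^ 20 * T ^ a ≤ T * T ^ a := by gcongr; exact H.Tbig
    _ = T ^ (a + 1) := by ring
    _ ≤ T ^ b := pow_le_pow_right₀ H.T1 h

lemma Dt : 0 < t2 - t1 := sub_pos.mpr H.h12

lemma J0 : 0 < σ * Real.exp (-150) := by have := H.hσ; positivity

lemma τmono {a b : ℝ} (ha : t1 ≤ a) (hab : a ≤ b) (hb : b ≤ t2) : τ a ≤ τ b :=
  mono_of_deriv H.h0 (fun t ht => ⟨_, (H.hs t ht).2, (H.hs t ht).1.le⟩) ha hab hb

lemma τ0 (ht : t ∈ Icc t1 t2) : 0 ≤ τ t := H.τ1 ▸ H.τmono le_rfl ht.1 ht.2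

lemma τle (ht : t ∈ Icc t1 t2) : τ t ≤ 100 * T ^ 15 := (H.τmono ht.1 ht.2 le_rfl).trans H.τ3

omit H in
lemma hd_lin (a c t : ℝ) : HD (fun t => (t - a) / c) (1 / c) t :=
  ((hasDerivWithinAt_id t _).sub_const a).div_const c

lemma lin0 (ht : t ∈ Icc t1 t2) : 0 ≤ (t - t1) / (t2 - t1) :=
  div_nonneg (sub_nonneg.mpr ht.1) H.Dt.le

lemma lin1 (ht : t ∈ Icc t1 t2) : (t - t1) / (t2 - t1) ≤ 1 :=
  (div_le_one H.Dt).mpr (by linarith [ht.2])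

lemma z0 (ht : t ∈ Icc t1 t2) : 0 ≤ z t := by
  have := exp_le_of_deriv (F := z) (τ := fun t => -dP 0 * t) (b := t2) H.h0 (fun u hu =>
    ⟨_, -dP 0, H.hz u hu, by simpa using (hasDerivWithinAt_id u (Ici 0)).const_mul (-dP 0),
      by linarith [(H.hf u hu).1]⟩) t ht
  rwa [H.z1, zero_mul] at this

lemma zle (ht : t ∈ Icc t1 t2) : z t ≤ σ * Real.exp (T ^ 10) := by
  have hσ := H.hσ
  have := le_of_deriv_le (F := z) (G := fun t => σ * Real.exp (T ^ 10) * ((t - t1) / (t2 - t1)))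
    (b := t2) H.h0 (by simp [H.z1]) (fun u hu => ⟨_, _, H.hz u hu, (hd_lin _ _ u).const_mul _, by
      have h1 := mul_nonneg (H.hdP 0).1 (H.z0 hu)
      have h2 : f u ≤ σ * Real.exp (T ^ 10) * (1 / (t2 - t1)) := by
        rw [mul_one_div, le_div_iff₀ H.Dt]; exact (H.hf u hu).2
      linarith⟩) t ht
  exact this.trans (mul_le_of_le_one_right (by positivity) (H.lin1 ht))

lemma Gexp {a : ℝ} (ha : a ∈ Icc t1 t2) (ht : t ∈ Icc a t2) :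
    G a * Real.exp (√2 * τ t - √2 * τ a) ≤ G t :=
  exp_le_of_deriv (F := G) (τ := fun t => √2 * τ t) (b := t2) (H.h0.trans ha.1) (fun u hu => by
    have hu' : u ∈ Icc t1 t2 := ⟨ha.1.trans hu.1, hu.2⟩
    refine ⟨_, _, H.hG u hu', (H.hs u hu').2.const_mul _, ?_⟩
    have := div_pos H.J0 H.Dt
    linarith [(H.hf u hu').1]) t ht

lemma G0 (ht : t ∈ Icc t1 t2) : 0 < G t := by
  refine lt_of_lt_of_le ?_ (H.Gexp ⟨le_rfl, H.h12.le⟩ ht)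
  rw [H.G1]
  exact mul_pos H.J0 (Real.exp_pos _)

lemma Klo (ht : t ∈ Icc t1 t2) : σ * Real.exp (-150) ≤ G t - z t := by
  have := mono_of_deriv (F := fun t => G t - z t) (b := t2) H.h0 (fun u hu =>
    ⟨_, (H.hG u hu).sub (H.hz u hu), by
      have h1 := mul_nonneg (H.hdP 0).1 (H.z0 hu)
      have h2 := div_pos H.J0 H.Dt
      have h3 : 0 ≤ √2 * s u * G u := by
        have := (H.hs u hu).1
        have := H.G0 hu
        positivity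
      linarith⟩) le_rfl ht.1 ht.2
  simpa [H.G1, H.z1] using this

lemma zG (ht : t ∈ Icc t1 t2) : z t ≤ G t := by linarith [H.Klo ht, H.J0]

lemma Glo (ht : t ∈ Icc t1 t2) : σ * Real.exp (-150) ≤ G t := by linarith [H.Klo ht, H.z0 ht]

lemma mn' : (3 : ℝ) * (m + 1) ≤ n + 1 := by
  have h1 := H.Tpow (a := 0) (b := 8) (by norm_num)
  refine le_trans ?_ H.L1
  gcongr
  linarith

lemma mn : 2 * m ≤ n := by
  have : (2 * m : ℝ) ≤ n := by linarith [H.mn', (Nat.cast_nonneg m : (0 : ℝ) ≤ m)]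
  exact_mod_cast this

lemma NNmn : NN m ≤ NN n := by
  have := NN_le (a := m) (b := n) zero_le_one (by
    rw [one_pow, one_mul]; gcongr; linarith [H.mn])
  linarith

lemma NN2 {k : ℕ} (hk : k ≤ n + 2 * m) : NN k ≤ 3 * NN n := by
  refine NN_le (by norm_num) ?_
  have h1 : (k : ℝ) ≤ n + n := by exact_mod_cast (by linarith [H.mn] : k ≤ n + n)
  have h2 : (0 : ℝ) ≤ n := Nat.cast_nonneg n
  calc ((k : ℝ) + 1) ^ 3 ≤ (2 * (n + 1)) ^ 3 := by gcongr; linarith only [h1]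
    _ ≤ _ := by linarith only [pow_nonneg (by linarith only [] : (0 : ℝ) ≤ n + 1) 3]

lemma NNT : NN n ≤ T ^ 12 * NN m := by
  have := H.T0
  refine NN_le (by positivity) ?_
  calc ((n : ℝ) + 1) ^ 3 ≤ (T ^ 8 * (m + 1)) ^ 3 := by
        gcongr
        refine H.L2.trans ?_
        gcongr
        linarith [pow_pos this 8]
    _ = _ := by ring

lemma mth : (m + 1) * th n ≤ 7 / T ^ 8 := by
  have := H.T0
  have h1 := H.L1
  rw [th, ← mul_div_assoc, div_le_div_iff₀ (by positivity) (by positivity)]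
  have h2 : (m + 1) * Real.pi * T ^ 8 ≤ (m + 1) * 3.5 * T ^ 8 := by
    gcongr; linarith only [Real.pi_lt_d2]
  linarith only [h1, h2]

lemma rho_le : NN n * (σ * Real.exp (-(60 * T ^ 9))) * T ^ 40 * Real.exp T ≤
    σ * Real.exp (-150) := by
  have hσ := H.hσ
  have := H.T0
  have h1 := pow_le_exp H.hT (k := 40) (by norm_num)
  have h2 := H.Tpow (a := 1) (b := 9) (by norm_num)
  have h3 := H.Tbig
  calc _ ≤ Real.exp (50 * T ^ 9) * (σ * Real.exp (-(60 * T ^ 9))) * Real.exp T * Real.exp T := by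
        gcongr; exact H.hN
    _ = σ * Real.exp (50 * T ^ 9 + -(60 * T ^ 9) + T + T) := by simp only [Real.exp_add]; ring
    _ ≤ _ := by gcongr; linarith

omit H in
lemma supp_ct {C : ℝ → V} (hC : ∀ t, Supp (n + m) (C t)) (t : ℝ) :
    Supp (n + m) (C t - (z t : ℂ) • dl) := (hC t).sub ((supp_dl _).smul _)

/-- The weighted estimate. -/
theorem wt_le {ξ : R3} {x : ℝ} (hx : (m + 1) * ∑ i, |ξ i| ≤ x) (hx1 : x ≤ 1 / (3000 * T ^ 7)) :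
    ∀ t ∈ Icc t1 t2, ‖wt ξ (B t)‖ ^ 2 + ‖wt ξ (Cp t - (z t : ℂ) • dl)‖ ^ 2 +
      ‖wt ξ (Cm t - (z t : ℂ) • dl)‖ ^ 2 ≤
      (20 / NN m * (G t - z t) * Real.exp ((3 * x ^ 2 + 100 * (T ^ 100)⁻¹) * τ t)) ^ 2 := by
  have hσ := H.hσ
  have T0 := H.T0
  have hD := H.Dt
  have hN := NN_pos m
  have hNn := NN_pos n
  have hS : 0 ≤ ∑ i, |ξ i| := Finset.sum_nonneg fun _ _ => abs_nonneg _
  have T7 : 1 ≤ T ^ 7 := one_le_pow₀ H.T1
  have hx2 : x ≤ 1 / 2 := hx1.trans (by gcongr; linarith)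
  have hk : ((n + m : ℕ) : ℝ) * ∑ i, |ξ i| ≤ T := by
    have h1 : ((n + m : ℕ) : ℝ) ≤ T ^ 8 * (m + 1) := by
      push_cast
      linarith only [H.L2, H.mn', (Nat.cast_nonneg m : (0 : ℝ) ≤ m)]
    calc _ ≤ T ^ 8 * (m + 1) * ∑ i, |ξ i| := by gcongr
      _ ≤ T ^ 8 * (1 / (3000 * T ^ 7)) := by rw [mul_assoc]; gcongr; exact hx.trans hx1
      _ = T / 3000 := by field_simp
      _ ≤ T := by linarith only [T0]
  have key : Real.exp T * (σ * Real.exp (-(60 * T ^ 9))) ≤ σ * Real.exp (-150) / NN m := by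
    rw [le_div_iff₀ hN]
    refine le_trans ?_ H.rho_le
    have : 1 ≤ T ^ 40 := one_le_pow₀ H.T1
    calc _ = NN m * (σ * Real.exp (-(60 * T ^ 9))) * 1 * Real.exp T := by ring
      _ ≤ _ := by gcongr; exact H.NNmn
  set κ := 3 * x ^ 2 + 100 * (T ^ 100)⁻¹ with hκ
  have κ0 : 0 ≤ κ := by positivity
  refine bar3 (a := fun t => wt ξ (B t)) (b := fun t => wt ξ (Cp t - (z t : ℂ) • dl))
    (c := fun t => wt ξ (Cm t - (z t : ℂ) • dl))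
    (U := fun t => 20 / NN m * (G t - z t) * Real.exp (κ * τ t)) H.h0 ?_ fun t ht => ?_
  · simp only [H.z1, H.τ1, H.G1, Complex.ofReal_zero, zero_smul, sub_zero, mul_zero, Real.exp_zero,
      mul_one]
    have w : ∀ {y : V}, Supp (n + m) y → ‖y‖ ≤ nr3 (B t1) (Cp t1) (Cm t1) →
        ‖wt ξ y‖ ^ 2 ≤ (σ * Real.exp (-150) / NN m) ^ 2 := fun {y} hy hy' => by
      gcongr
      refine (hy.norm_wt_le ξ).trans (le_trans ?_ key)
      gcongr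
      exact hy'.trans H.init
    have w0 := w ((H.sB t1).mono (Nat.le_add_right _ _)) (le_nr3_1 _ _ _)
    have w1 := w (H.sP t1) (le_nr3_2 _ _ _)
    have w2 := w (H.sM t1) (le_nr3_3 _ _ _)
    have : (20 / NN m * (σ * Real.exp (-150))) ^ 2 = 400 * (σ * Real.exp (-150) / NN m) ^ 2 := by
      ring
    linarith only [w0, w1, w2, this, sq_nonneg (σ * Real.exp (-150) / NN m)]
  obtain ⟨e0, r0, E0, D0⟩ := H.eB t ht
  obtain ⟨e1, r1, E1, D1⟩ := H.eP t ht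
  obtain ⟨e2, r2, E2, D2⟩ := H.eM t ht
  have t0 := H.h0.trans ht.1
  have Dz := (HD.ofReal (H.hz t ht)).smul_const dl
  have D1' : HD (fun t => Cp t - (z t : ℂ) • dl)
      ((s t : ℂ) • (p t * B t) - mulr dP (Cp t - (z t : ℂ) • dl) + (e1 + r1)) t :=
    (D1.fun_sub Dz).congr_deriv (by
      simp only [map_sub, map_smul, mulr_dl]; push_cast; module)
  have D2' : HD (fun t => Cm t - (z t : ℂ) • dl)
      ((s t : ℂ) • (dag (p t) * B t) - mulr dM (Cm t - (z t : ℂ) • dl) + (e2 + r2)) t :=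
    (D2.fun_sub Dz).congr_deriv (by
      simp only [map_sub, map_smul, mulr_dl, H.hd]; push_cast; module)
  have DU := (((H.hG t ht).fun_sub (H.hz t ht)).const_mul (20 / NN m)).fun_mul
    ((H.hs t ht).2.const_mul κ).exp
  refine ⟨_, _, _, _, D0.wt t0 H.sB ξ, D1'.wt t0 (supp_ct H.sP) ξ, D2'.wt t0 (supp_ct H.sM) ξ,
    DU, fun hY => ?_⟩
  have K0 := H.J0.trans_le (H.Klo ht)
  have s0 := (H.hs t ht).1
  have z0 := H.z0 ht
  have ex : 1 ≤ Real.exp (κ * τ t) := Real.one_le_exp (mul_nonneg κ0 (H.τ0 ht))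
  have U0 : 0 < 20 / NN m * (G t - z t) * Real.exp (κ * τ t) := by positivity
  have hst := stepA (c1 := Cp t - (z t : ℂ) • dl) (c2 := Cm t - (z t : ℂ) • dl) (z := z t)
    (d0 := dB) (d1 := dP) (d2 := dM) (R := σ * Real.exp (-150) / NN m / (t2 - t1))
    (H.hp t ht).1 (H.sB t) (le_trans (by gcongr; linarith only []) hx) hx2 s0.le z0
    (by positivity : 0 ≤ (T ^ 100)⁻¹) (by simpa using E0) (by simpa using E1) (by simpa using E2)
    (fun h => (H.hdB h).1) (fun h => (H.hdP h).1) (fun h => (H.hdM h).1) U0.le hY (by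
      rw [← mul_div_assoc]
      gcongr
      exact le_trans (by gcongr) key)
  simp only [sub_add_cancel] at hst
  refine hst.trans_lt (mul_lt_mul_of_pos_left ?_ U0)
  have hε : (T ^ 100)⁻¹ ≤ 1 / 100 := by
    rw [← one_div]
    gcongr
    linarith only [H.Tpow (a := 0) (b := 100) (by norm_num)]
  set ε := (T ^ 100)⁻¹ with hε'
  have ε0 : 0 < ε := by positivity
  set X := Real.exp (κ * τ t) with hX
  set j := σ * Real.exp (-150) / NN m / (t2 - t1) with hj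
  have j0 : 0 < j := by positivity
  set w := s t * z t / NN m with hw
  have w0 : 0 ≤ w := by positivity
  have d0 : 0 ≤ 20 / NN m * (dP 0 * z t) * X := by have := (H.hdP 0).1; positivity
  have e : 20 / NN m * (√2 * s t * G t + (f t + σ * Real.exp (-150) / (t2 - t1)) -
      (-dP 0 * z t + f t)) * X + 20 / NN m * (G t - z t) * (X * (κ * s t)) =
      (√2 + κ) * s t * (20 / NN m * (G t - z t) * X) + (20 * √2 * w + 20 * j) * X +
      20 / NN m * (dP 0 * z t) * X := by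
    rw [hj, hw]; ring
  rw [e]
  have a1 : (√2 + 3 * x ^ 2 + 72 * ε) * s t * (20 / NN m * (G t - z t) * X) ≤
      (√2 + κ) * s t * (20 / NN m * (G t - z t) * X) :=
    mul_le_mul_of_nonneg_right (mul_le_mul_of_nonneg_right (by linarith only [ε0]) s0.le) U0.le
  have a2 : 20 * √2 * w + 20 * j ≤ (20 * √2 * w + 20 * j) * X :=
    le_mul_of_one_le_right (by (clear * - hσ hD hN s0 z0; positivity)) ex
  have a3 : (12 + 72 * ε) * w ≤ 20 * √2 * w := by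
    gcongr; linarith only [hε, sqrt2_lo]
  linarith only [j0, d0, a1, a2, a3]

end P1

end Pool.Agent.Work.MP_6bf1e5_an.Dec
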