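import Pool.Agent.Work.MP_6bf1e5_an.Dec.Phase1B

/-!
Tails, errors and the pointwise bound during the first phase.
-/

open Set Complex
open scoped InnerProductSpace ComplexConjugate
open Pool.Agent.Work.MP_6bf1e5_an.B (Z3 R3 box)

namespace Pool.Agent.Work.MP_6bf1e5_an.Dec

namespace Ph1

lemma wt_zero (f : V) : wt 0 f = f := by ext h; simp [coeff_wt]

lemma exp_half_le : Real.exp (1 / 2) ≤ 2 := by
  have := Real.exp_bound_div_one_sub_of_interval (x := 1 / 2) (by norm_num) (by norm_num)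
  linarith [show (1 : ℝ) / (1 - 1 / 2) = 2 by norm_num]

lemma stepC {a b c P g0 g1 g2 : ℂ} {s f U η : ℝ} (hP : ‖P‖ ≤ 1) (hs : 0 ≤ s) (hf : 0 ≤ f)
    (hU : 0 ≤ U) (hY : ‖a‖ ^ 2 + ‖b‖ ^ 2 + ‖c‖ ^ 2 = U ^ 2) (h0 : ‖g0‖ ≤ η) (h1 : ‖g1‖ ≤ η)
    (h2 : ‖g2‖ ≤ η) :
    (⟪a, s * (conj P * b + P * c) + g0⟫_ℂ).re + (⟪b, s * (P * a) + f + g1⟫_ℂ).re +
      (⟪c, s * (conj P * a) + f + g2⟫_ℂ).re ≤ U * (√2 * s * U + 3 / 2 * f + 3 * η) := by
  have ri : ∀ u v : ℂ, (⟪u, v⟫_ℂ).re ≤ ‖u‖ * ‖v‖ := fun u v =>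
    (Complex.re_le_norm _).trans (norm_inner_le_norm _ _)
  have m1 : ∀ u : ℂ, ‖P * u‖ ≤ ‖u‖ := fun u => by
    rw [norm_mul]; exact mul_le_of_le_one_left (norm_nonneg _) hP
  have m2 : ∀ u : ℂ, ‖conj P * u‖ ≤ ‖u‖ := fun u => by
    rw [norm_mul, Complex.norm_conj]; exact mul_le_of_le_one_left (norm_nonneg _) hP
  have ns : ∀ u : ℂ, ‖(s : ℂ) * u‖ = s * ‖u‖ := fun u => by
    rw [norm_mul, Complex.norm_real, Real.norm_of_nonneg hs]
  have nf : ‖(f : ℂ)‖ = f := by rw [Complex.norm_real, Real.norm_of_nonneg hf]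
  have η0 : 0 ≤ η := (norm_nonneg _).trans h0
  have a0 : ‖s * (conj P * b + P * c) + g0‖ ≤ s * (‖b‖ + ‖c‖) + η := by
    refine (norm_add_le _ _).trans (add_le_add ?_ h0)
    rw [ns]; gcongr
    exact (norm_add_le _ _).trans (add_le_add (m2 _) (m1 _))
  have a1 : ‖s * (P * a) + f + g1‖ ≤ s * ‖a‖ + f + η := by
    refine norm_add₃_le.trans (add_le_add (add_le_add ?_ nf.le) h1)
    rw [ns]; gcongr; exact m1 _
  have a2 : ‖s * (conj P * a) + f + g2‖ ≤ s * ‖a‖ + f + η := by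
    refine norm_add₃_le.trans (add_le_add (add_le_add ?_ nf.le) h2)
    rw [ns]; gcongr; exact m2 _
  have b0 := (ri a _).trans (mul_le_mul_of_nonneg_left a0 (norm_nonneg _))
  have b1 := (ri b _).trans (mul_le_mul_of_nonneg_left a1 (norm_nonneg _))
  have b2 := (ri c _).trans (mul_le_mul_of_nonneg_left a2 (norm_nonneg _))
  have c0 := two_mul_le ‖a‖ ‖b‖ ‖c‖
  rw [hY] at c0
  have c1 := mul_le_mul_of_nonneg_left c0 hs
  have d0 := mul_le_mul_of_nonneg_right (le_of_sq3_1 hU hY.le) η0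
  have d1 := mul_le_mul_of_nonneg_right (le_of_sq3_2 hU hY.le) η0
  have d2 := mul_le_mul_of_nonneg_right (le_of_sq3_3 hU hY.le) η0
  have e0 : ‖b‖ + ‖c‖ ≤ 3 / 2 * U :=
    (le_abs_self _).trans (abs_le_of_sq_le_sq
      (by linarith only [hY, sq_nonneg (‖b‖ - ‖c‖), sq_nonneg ‖a‖, sq_nonneg U]) (by positivity))
  have e1 := mul_le_mul_of_nonneg_left e0 hf
  linarith only [b0, b1, b2, c1, d0, d1, d2, e1]

end Ph1

namespace P1

open Ph1

variable {m n : ℕ} {T t1 t2 σ : ℝ} {p B Cp Cm : ℝ → V} {s f τ z G : ℝ → ℝ} {dB dP dM : Z3 → ℝ}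
  (H : P1 m n T t1 t2 σ p B Cp Cm s f τ z G dB dP dM) {t : ℝ}

include H

lemma eps_tau (ht : t ∈ Icc t1 t2) : 100 * (T ^ 100)⁻¹ * τ t ≤ 1 / 2 := by
  have T0 := H.T0
  have h1 := H.Tpow (a := 15) (b := 100) (by norm_num)
  calc _ ≤ 100 * (T ^ 100)⁻¹ * (100 * T ^ 15) := by gcongr; exact H.τle ht
    _ = 10000 * T ^ 15 / T ^ 100 := by ring
    _ ≤ _ := by rw [div_le_iff₀ (by positivity)]; linarith [pow_pos T0 15]

lemma nrm (ht : t ∈ Icc t1 t2) : ‖B t‖ ^ 2 + ‖Cp t - (z t : ℂ) • dl‖ ^ 2 +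
    ‖Cm t - (z t : ℂ) • dl‖ ^ 2 ≤ (40 * (G t / NN m)) ^ 2 := by
  have T0 := H.T0
  have hN := NN_pos m
  have := H.wt_le (ξ := 0) (x := 0) (by simp) (by positivity) t ht
  simp only [wt_zero] at this
  refine this.trans ?_
  have K0 := H.J0.trans_le (H.Klo ht)
  have h1 : Real.exp ((3 * 0 ^ 2 + 100 * (T ^ 100)⁻¹) * τ t) ≤ 2 :=
    le_trans (Real.exp_le_exp.mpr (by linarith only [H.eps_tau ht])) exp_half_le
  gcongr ?_ ^ 2
  calc _ ≤ 20 / NN m * G t * 2 := by
        have := H.G0 ht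
        gcongr; linarith only [H.z0 ht]
    _ = _ := by ring

lemma l1sum (ht : t ∈ Icc t1 t2) : l1 (B t) + l1 (Cp t) + l1 (Cm t) ≤ T ^ 13 * G t := by
  have T0 := H.T0
  have hN := NN_pos m
  have hn := NN_pos n
  have G0 := H.G0 ht
  have h := H.nrm ht
  have U0 : 0 ≤ 40 * (G t / NN m) := by positivity
  have key : ∀ {y : V}, Supp (n + m) y → ‖y‖ ≤ 40 * (G t / NN m) → l1 y ≤ 360 * (T ^ 12 * G t) :=
    fun {y} hy hy' => by
      calc _ ≤ 3 * (3 * (T ^ 12 * NN m)) * (40 * (G t / NN m)) := by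
            refine hy.l1_le.trans ?_
            gcongr
            exact (H.NN2 (by omega)).trans (by gcongr; exact H.NNT)
        _ = _ := by field_simp; ring
  have k2 : ∀ y : V, l1 y ≤ l1 (y - (z t : ℂ) • dl) + G t := fun y => by
    have := l1_add_le (y - (z t : ℂ) • dl) ((z t : ℂ) • dl)
    rw [sub_add_cancel, l1_smul, l1_dl, Complex.norm_real, Real.norm_of_nonneg (H.z0 ht)] at this
    linarith only [this, H.zG ht]
  have a0 := key ((H.sB t).mono (Nat.le_add_right _ _)) (le_of_sq3_1 U0 h)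
  have a1 := key (supp_ct H.sP t) (le_of_sq3_2 U0 h)
  have a2 := key (supp_ct H.sM t) (le_of_sq3_3 U0 h)
  have b1 := mul_le_mul_of_nonneg_right (H.Tpow (a := 12) (b := 13) (by norm_num)) G0.le
  have b2 := mul_le_mul_of_nonneg_right (one_le_pow₀ (n := 12) H.T1) G0.le
  linarith only [G0, a0, a1, a2, b1, b2, k2 (Cp t), k2 (Cm t)]

lemma wt3 (ht : t ∈ Icc t1 t2) {ξ : R3} (hx : ∑ i, |ξ i| ≤ 1 / (3000 * T ^ 7) / (m + 1)) :
    ‖wt ξ (B t)‖ ^ 2 + ‖wt ξ (Cp t - (z t : ℂ) • dl)‖ ^ 2 + ‖wt ξ (Cm t - (z t : ℂ) • dl)‖ ^ 2 ≤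
      (20 * (G t / NN m) * Real.exp (T / 25000)) ^ 2 := by
  have T0 := H.T0
  have hN := NN_pos m
  refine (H.wt_le (by rwa [le_div_iff₀' (by positivity)] at hx) le_rfl t ht).trans ?_
  have K0 := H.J0.trans_le (H.Klo ht)
  have G0 := H.G0 ht
  have h1 : (3 * (1 / (3000 * T ^ 7)) ^ 2 + 100 * (T ^ 100)⁻¹) * τ t ≤ T / 25000 := by
    have : 3 * (1 / (3000 * T ^ 7)) ^ 2 * τ t ≤ T / 30000 := by
      calc _ ≤ 3 * (1 / (3000 * T ^ 7)) ^ 2 * (100 * T ^ 15) := by gcongr; exact H.τle ht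
        _ = _ := by field_simp; ring
    linarith only [this, H.eps_tau ht, H.Tbig]
  gcongr ?_ ^ 2
  calc _ ≤ 20 / NN m * G t * Real.exp (T / 25000) := by gcongr; linarith only [H.z0 ht]
    _ = _ := by ring

lemma tail_le (ht : t ∈ Icc t1 t2) {q y : V} (hq : Supp (2 * m) q) (hqy : Supp (n + 2 * m) (q * y))
    (hy : ∀ ξ : R3, ∑ i, |ξ i| ≤ 1 / (3000 * T ^ 7) / (m + 1) →
      ‖wt ξ y‖ ≤ 20 * (G t / NN m) * Real.exp (T / 25000)) :
    l1 (q * y - proj n (q * y)) ≤ l1 q * (G t / T ^ 40) := by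
  have T0 := H.T0
  have hN := NN_pos m
  have hn := NN_pos n
  have G0 := H.G0 ht
  have q0 := l1_nonneg q
  have T7 : 1 ≤ T ^ 7 := one_le_pow₀ H.T1
  have h1 := norm_tail_le n (g := q * y) (x := 1 / (3000 * T ^ 7) / (m + 1))
    (W := 2 * l1 q * (20 * (G t / NN m) * Real.exp (T / 25000))) (by positivity) (by positivity)
    fun ξ hξ => by
      rw [wt_mul]
      refine (norm_mul_le_l1 _ _).trans (mul_le_mul ((hq.l1_wt_le ξ).trans ?_) (hy ξ hξ)
        (norm_nonneg _) (by positivity))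
      gcongr
      refine le_trans (Real.exp_le_exp.mpr ?_) exp_half_le
      calc _ ≤ (2 * (m + 1) : ℝ) * (1 / (3000 * T ^ 7) / (m + 1)) := by
            gcongr
            push_cast; linarith only []
        _ = 1 / (1500 * T ^ 7) := by field_simp; ring
        _ ≤ _ := by gcongr; linarith only [T7]
  have h2 : T / 12000 ≤ 1 / (3000 * T ^ 7) / (m + 1) * (n + 1) := by
    calc _ = 1 / (3000 * T ^ 7) / (m + 1) * (T ^ 8 / 4 * (m + 1)) := by field_simp; ring
      _ ≤ _ := by gcongr; exact H.L1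
  have h3 : T ^ 53 * (Real.exp (-(T / 12000)) * Real.exp (T / 25000)) ≤ 1 := by
    calc _ ≤ Real.exp (T / 10 ^ 10) * (Real.exp (-(T / 12000)) * Real.exp (T / 25000)) := by
          gcongr; exact pow_le_exp' H.hT (by norm_num)
      _ ≤ _ := by
          rw [← Real.exp_add, ← Real.exp_add]
          exact Real.exp_le_one_iff.mpr (by linarith only [T0])
  have hs : Supp (n + 2 * m) (q * y - proj n (q * y)) :=
    hqy.sub ((supp_proj n _).mono (Nat.le_add_right _ _))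
  calc _ ≤ 3 * (3 * (T ^ 12 * NN m)) * (3 * Real.exp (-(T / 12000)) *
        (2 * l1 q * (20 * (G t / NN m) * Real.exp (T / 25000)))) := by
        refine hs.l1_le.trans ?_
        gcongr
        · exact (H.NN2 le_rfl).trans (by gcongr; exact H.NNT)
        · exact h1.trans (by gcongr)
    _ = l1 q * (G t / T ^ 40) * (1080 / T *
        (T ^ 53 * (Real.exp (-(T / 12000)) * Real.exp (T / 25000)))) := by field_simp; ring
    _ ≤ l1 q * (G t / T ^ 40) * (1 * 1) := by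
        gcongr
        rw [div_le_one T0]; linarith only [H.Tbig]
    _ = _ := by ring

lemma tailB (ht : t ∈ Icc t1 t2) {q : V} (hq : Supp (2 * m) q) :
    l1 (q * B t - proj n (q * B t)) ≤ l1 q * (G t / T ^ 40) := by
  have hN := NN_pos m
  have G0 := H.G0 ht
  exact H.tail_le ht hq ((hq.mul (H.sB t)).mono (by omega)) fun ξ hξ =>
    le_of_sq3_1 (by positivity) (H.wt3 ht hξ)

lemma tail_shift {q : V} (hq : Supp m q) (y : V) (c : ℂ) :
    q * y - proj n (q * y) = q * (y - c • dl) - proj n (q * (y - c • dl)) := by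
  have : proj n q = q := (hq.mono (by linarith [H.mn])).proj_eq
  simp only [mul_sub, mul_smul_comm, dl_eq_one, mul_one, map_sub, map_smul, this]
  abel

lemma tailP (ht : t ∈ Icc t1 t2) {q : V} (hq : Supp m q) :
    l1 (q * Cp t - proj n (q * Cp t)) ≤ l1 q * (G t / T ^ 40) := by
  have hN := NN_pos m
  have G0 := H.G0 ht
  rw [H.tail_shift hq _ (z t)]
  exact H.tail_le ht (hq.mono (by omega)) ((hq.mul (supp_ct H.sP t)).mono (by omega)) fun ξ hξ =>
    le_of_sq3_2 (by positivity) (H.wt3 ht hξ)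

lemma tailM (ht : t ∈ Icc t1 t2) {q : V} (hq : Supp m q) :
    l1 (q * Cm t - proj n (q * Cm t)) ≤ l1 q * (G t / T ^ 40) := by
  have hN := NN_pos m
  have G0 := H.G0 ht
  rw [H.tail_shift hq _ (z t)]
  exact H.tail_le ht (hq.mono (by omega)) ((hq.mul (supp_ct H.sM t)).mono (by omega)) fun ξ hξ =>
    le_of_sq3_3 (by positivity) (H.wt3 ht hξ)

lemma rho_le' : NN n * (σ * Real.exp (-(60 * T ^ 9))) ≤ σ * Real.exp (-150) / T ^ 40 := by
  have T0 := H.T0
  have hσ := H.hσ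
  have hn := NN_pos n
  rw [le_div_iff₀ (by positivity)]
  exact le_trans (le_mul_of_one_le_right (by positivity) (Real.one_le_exp T0.le)) H.rho_le

lemma err_le (ht : t ∈ Icc t1 t2) {d : Z3 → ℝ} (hd : ∀ h, 0 ≤ d h ∧ d h * (t2 - t1) ≤ (T ^ 50)⁻¹)
    {y e r : V} (hy : l1 y ≤ T ^ 13 * G t) (E : Er1 (n + m) ((T ^ 100)⁻¹ * s t)
      (σ * Real.exp (-(60 * T ^ 9)) / (t2 - t1)) (maj (p t) (B t) (Cp t) (Cm t)) e r) :
    l1 (-mulr d y + e + r) ≤ (s t + 1 / (t2 - t1)) * (G t / T ^ 30) := by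
  have T0 := H.T0
  have hD := H.Dt
  have G0 := H.G0 ht
  have s0 := (H.hs t ht).1
  have hn := NN_pos n
  have hσ := H.hσ
  have hT := H.Tbig
  have a1 : l1 (-mulr d y) ≤ 1 / (t2 - t1) * (G t / T ^ 30) / 2 := by
    rw [l1_neg]
    refine (l1_mulr_le (c := (T ^ 50)⁻¹ / (t2 - t1)) (fun h => (hd h).1)
      (fun h => (le_div_iff₀ hD).mpr (hd h).2) y).trans ?_
    calc _ ≤ (T ^ 50)⁻¹ / (t2 - t1) * (T ^ 13 * G t) := by gcongr
      _ = 1 / (t2 - t1) * (G t / T ^ 30) / T ^ 7 := by field_simp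
      _ ≤ _ := by gcongr; linarith [H.Tpow (a := 0) (b := 7) (by norm_num)]
  have a2 : l1 e ≤ s t * (G t / T ^ 30) := by
    refine (l1_le_of_coeff (by positivity) E.pt).trans ?_
    have := l1_nonneg (p t)
    calc _ ≤ (T ^ 100)⁻¹ * s t * (2 * 2 * (T ^ 13 * G t)) := by
          gcongr
          refine (l1_maj_le _ _ _ _).trans ?_
          have := l1_nonneg (B t)
          have := l1_nonneg (Cp t)
          have := l1_nonneg (Cm t)
          gcongr
          · exact (H.hp t ht).1.l1_le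
          · exact H.l1sum ht
      _ = s t * (G t / T ^ 30) * (4 / T ^ 57) := by field_simp; ring
      _ ≤ _ := mul_le_of_le_one_right (by positivity) (by
          rw [div_le_one (by positivity)]; linarith only [H.Tpow (a := 0) (b := 57) (by norm_num)])
  have a3 : l1 r ≤ 1 / (t2 - t1) * (G t / T ^ 30) / 2 := by
    calc _ ≤ 3 * (3 * NN n) * (σ * Real.exp (-(60 * T ^ 9)) / (t2 - t1)) := by
          refine E.sr.l1_le.trans ?_
          gcongr
          · exact H.NN2 (by omega)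
          · exact E.nrm
      _ = 9 / (t2 - t1) * (NN n * (σ * Real.exp (-(60 * T ^ 9)))) := by ring
      _ ≤ 9 / (t2 - t1) * (G t / T ^ 40) := by
          gcongr
          exact H.rho_le'.trans (by gcongr; exact H.Glo ht)
      _ = 1 / (t2 - t1) * (G t / T ^ 30) / (T ^ 10 / 9) := by field_simp
      _ ≤ _ := by gcongr; linarith only [H.Tpow (a := 0) (b := 10) (by norm_num)]
  have := l1_add_le (-mulr d y + e) r
  have := l1_add_le (-mulr d y) e
  linarith

/-- The equations with all errors collected. -/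
lemma eqs (ht : t ∈ Icc t1 t2) : ∃ g0 g1 g2 : V,
    l1 g0 ≤ (s t + 1 / (t2 - t1)) * (G t / T ^ 30) ∧
    l1 g1 ≤ (s t + 1 / (t2 - t1)) * (G t / T ^ 30) ∧
    l1 g2 ≤ (s t + 1 / (t2 - t1)) * (G t / T ^ 30) ∧
    HD B ((s t : ℂ) • proj n (dag (p t) * Cp t + p t * Cm t) + g0) t ∧
    HD Cp ((s t : ℂ) • (p t * B t) + (f t : ℂ) • dl + g1) t ∧
    HD Cm ((s t : ℂ) • (dag (p t) * B t) + (f t : ℂ) • dl + g2) t := by
  obtain ⟨e0, r0, E0, D0⟩ := H.eB t ht
  obtain ⟨e1, r1, E1, D1⟩ := H.eP t ht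
  obtain ⟨e2, r2, E2, D2⟩ := H.eM t ht
  have h := H.l1sum ht
  have := l1_nonneg (B t)
  have := l1_nonneg (Cp t)
  have := l1_nonneg (Cm t)
  exact ⟨_, _, _, H.err_le ht H.hdB (y := B t) (by linarith) E0,
    H.err_le ht H.hdP (y := Cp t) (by linarith) E1, H.err_le ht H.hdM (y := Cm t) (by linarith) E2,
    D0.congr_deriv (by abel), D1.congr_deriv (by abel), D2.congr_deriv (by abel)⟩

lemma cle (ht : t ∈ Icc t1 t2) : (τ t + (t - t1) / (t2 - t1)) / T ^ 20 ≤ 1 / 2 := by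
  have T0 := H.T0
  rw [div_le_iff₀ (by positivity)]
  linarith [H.τle ht, H.lin1 ht, H.Tpow (a := 15) (b := 20) (by norm_num),
    one_le_pow₀ (n := 15) H.T1]

/-- The pointwise bound. -/
theorem sup_le {x : R3} (hx : x ∈ cube) : ∀ t ∈ Icc t1 t2,
    ‖ev x (B t)‖ ^ 2 + ‖ev x (Cp t)‖ ^ 2 + ‖ev x (Cm t)‖ ^ 2 ≤ (2 * G t) ^ 2 := by
  have T0 := H.T0
  have hσ := H.hσ
  have hD := H.Dt
  have hn := NN_pos n
  have main := bar3 (a := fun t => ev x (B t)) (b := fun t => ev x (Cp t))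
    (c := fun t => ev x (Cm t)) (t2 := t2)
    (U := fun t => (3 / 2 + (τ t + (t - t1) / (t2 - t1)) / T ^ 20) * G t) H.h0 ?_ fun t ht => ?_
  · intro t ht
    refine (main t ht).trans ?_
    have := H.G0 ht
    have := H.τ0 ht
    have := H.lin0 ht
    gcongr
    linarith [H.cle ht]
  · simp only [H.τ1, H.G1, sub_self, zero_div, add_zero]
    have w : ∀ {y : V}, Supp (n + m) y → ‖y‖ ≤ nr3 (B t1) (Cp t1) (Cm t1) →
        ‖ev x y‖ ^ 2 ≤ (σ * Real.exp (-150) / 2) ^ 2 := fun {y} hy hy' => by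
      gcongr
      calc _ ≤ 3 * (3 * NN n) * (σ * Real.exp (-(60 * T ^ 9))) := by
            refine (norm_ev_le _ _).trans (hy.l1_le.trans ?_)
            gcongr
            · exact H.NN2 (by omega)
            · exact hy'.trans H.init
        _ = 9 * (NN n * (σ * Real.exp (-(60 * T ^ 9)))) := by ring
        _ ≤ 9 * (σ * Real.exp (-150) / T ^ 40) := by gcongr; exact H.rho_le'
        _ = σ * Real.exp (-150) / (T ^ 40 / 9) := by field_simp
        _ ≤ _ := by gcongr; linarith only [H.Tpow (a := 0) (b := 40) (by norm_num)]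
    have w0 := w ((H.sB t1).mono (Nat.le_add_right _ _)) (le_nr3_1 _ _ _)
    have w1 := w (H.sP t1) (le_nr3_2 _ _ _)
    have w2 := w (H.sM t1) (le_nr3_3 _ _ _)
    linarith [sq_nonneg (σ * Real.exp (-150))]
  obtain ⟨g0, g1, g2, l0, l1', l2, D0, D1, D2⟩ := H.eqs ht
  have t0 := H.h0.trans ht.1
  have hp := (H.hp t ht).1
  have s0 := (H.hs t ht).1
  have G0 := H.G0 ht
  have f0 := (H.hf t ht).1
  have τ0 := H.τ0 ht
  have lin0 := H.lin0 ht
  set g := dag (p t) * Cp t + p t * Cm t with hg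
  have tl : l1 (g - proj n g) ≤ 4 * (G t / T ^ 40) := by
    have e : g - proj n g = (dag (p t) * Cp t - proj n (dag (p t) * Cp t)) +
        (p t * Cm t - proj n (p t * Cm t)) := by rw [hg, map_add]; abel
    rw [e]
    have a1 := H.tailP ht hp.supp.dag
    have a2 := H.tailM ht hp.supp
    rw [l1_dag] at a1
    have a3 : l1 (p t) * (G t / T ^ 40) ≤ 2 * (G t / T ^ 40) := by gcongr; exact hp.l1_le
    exact (l1_add_le _ _).trans (by linarith only [a1, a2, a3])
  have E0 : HD (fun t => ev x (B t)) (s t * (conj (ev x (p t)) * ev x (Cp t) +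
      ev x (p t) * ev x (Cm t)) + ev x (g0 - (s t : ℂ) • (g - proj n g))) t :=
    (D0.ev t0 H.sB x).congr_deriv (by
      simp only [hg, map_add, map_sub, map_smul, map_mul, ev_dag, smul_eq_mul]; ring)
  have E1 : HD (fun t => ev x (Cp t)) (s t * (ev x (p t) * ev x (B t)) + f t + ev x g1) t :=
    (D1.ev t0 H.sP x).congr_deriv (by
      simp only [map_add, map_smul, map_mul, ev_dl, smul_eq_mul, mul_one])
  have E2 : HD (fun t => ev x (Cm t)) (s t * (conj (ev x (p t)) * ev x (B t)) + f t + ev x g2) t :=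
    (D2.ev t0 H.sM x).congr_deriv (by
      simp only [map_add, map_smul, map_mul, ev_dl, ev_dag, smul_eq_mul, mul_one])
  have DU := (((((H.hs t ht).2.fun_add (hd_lin t1 (t2 - t1) t)).div_const (T ^ 20)).const_add
    (3 / 2)).fun_mul (H.hG t ht))
  refine ⟨_, _, _, _, E0, E1, E2, DU, fun hY => ?_⟩
  set c := 3 / 2 + (τ t + (t - t1) / (t2 - t1)) / T ^ 20 with hc
  have c0 : 3 / 2 ≤ c := by rw [hc]; exact le_add_of_nonneg_right (by positivity)
  have U0 : 0 < c * G t := by positivity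
  set η := (s t + 1 / (t2 - t1)) * (G t / T ^ 30) with hη
  have η0 : 0 < η := by positivity
  have b0 : ‖ev x (g0 - (s t : ℂ) • (g - proj n g))‖ ≤ 2 * η := by
    refine (norm_ev_le _ _).trans ((l1_sub_le _ _).trans ?_)
    rw [l1_smul, Complex.norm_real, Real.norm_of_nonneg s0.le]
    have : s t * l1 (g - proj n g) ≤ η := by
      rw [hη]
      gcongr
      · exact l1_nonneg _
      · exact le_add_of_nonneg_right (by positivity)
      · refine tl.trans ?_
        calc _ = G t / (T ^ 40 / 4) := by field_simp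
          _ ≤ _ := by
            gcongr; linarith only [H.Tpow (a := 30) (b := 40) (by norm_num), pow_pos T0 30]
    linarith only [l0, this]
  have hst := stepC (hp.ev_le hx) s0.le f0 U0.le hY b0
    ((norm_ev_le x g1).trans (by linarith only [l1', η0])) ((norm_ev_le x g2).trans (by linarith only [l2, η0]))
  refine hst.trans_lt (mul_lt_mul_of_pos_left ?_ U0)
  have a1 : 3 * (2 * η) ≤ (s t + 1 / (t2 - t1)) / T ^ 20 * G t := by
    calc _ = (s t + 1 / (t2 - t1)) / (T ^ 30 / 6) * G t := by rw [hη]; field_simp; ring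
      _ ≤ _ := by gcongr; linarith only [H.Tpow (a := 20) (b := 30) (by norm_num), pow_pos T0 20]
  have a2 : 3 / 2 * f t ≤ c * f t := by gcongr
  have a3 : 0 < c * (σ * Real.exp (-150) / (t2 - t1)) := by (clear * - T0 hσ hD τ0 lin0; positivity)
  linarith only [a1, a2, a3]

end P1

end Pool.Agent.Work.MP_6bf1e5_an.Dec
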