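import Pool.Agent.Work.MP_6bf1e5_an.Dec.Phase1C

/-!
Growth of the component along the unstable direction during the first phase.
-/

open Set Complex
open scoped InnerProductSpace ComplexConjugate
open Pool.Agent.Work.MP_6bf1e5_an.B (Z3 R3 box)

namespace Pool.Agent.Work.MP_6bf1e5_an.Dec

namespace Ph1

/-- The rescaled product with the ground state. -/
noncomputable def Ip (n : ℕ) (y : V) : ℝ := NN n * (⟪phi n, y⟫_ℂ).re

lemma Ip_add (n : ℕ) (y w : V) : Ip n (y + w) = Ip n y + Ip n w := by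
  simp only [Ip, inner_add_right, Complex.add_re, mul_add]

lemma Ip_sub (n : ℕ) (y w : V) : Ip n (y - w) = Ip n y - Ip n w := by
  simp only [Ip, inner_sub_right, Complex.sub_re, mul_sub]

lemma Ip_smul (n : ℕ) (c : ℝ) (y : V) : Ip n ((c : ℂ) • y) = c * Ip n y := by
  rw [Ip, Ip, re_inner_smul]; ring

lemma Ip_proj (n : ℕ) (y : V) : Ip n (proj n y) = Ip n y := by
  rw [Ip, Ip, (supp_phi n).inner_proj]

lemma abs_Ip_le {n : ℕ} {y : V} {c : ℝ} (h : ‖⟪phi n, y⟫_ℂ‖ ≤ (NN n)⁻¹ * c) : |Ip n y| ≤ c := by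
  have := NN_pos n
  rw [Ip, abs_mul, abs_of_pos this]
  calc _ ≤ NN n * ((NN n)⁻¹ * c) := by gcongr; exact (Complex.abs_re_le_norm _).trans h
    _ = c := by field_simp

lemma abs_Ip_le_l1 (n : ℕ) (y : V) : |Ip n y| ≤ l1 y :=
  abs_Ip_le (norm_inner_le_l1 (norm_coeff_phi_le n))

lemma Ip_ge {m n : ℕ} (hmn : m ≤ n) {q : V} (hq : Supp m q) (h1 : ev 0 q = 1) :
    1 - l1 q * (3 * ((m + 1) * th n)) ≤ Ip n q := by
  have hn := NN_pos n
  have h := (Complex.abs_re_le_norm _).trans (norm_inner_phi_sub hmn hq)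
  rw [h1, mul_one, Complex.sub_re, Complex.ofReal_re] at h
  have h2 := mul_le_mul_of_nonneg_left (abs_le.mp h).1 hn.le
  rw [mul_neg, ← mul_assoc, mul_sub, mul_inv_cancel₀ hn.ne', one_mul] at h2
  rw [Ip]
  linarith only [h2]

lemma al_eq (n : ℕ) (p B Cp Cm : V) :
    NN n * al n p B Cp Cm = Ip n B + (Ip n (dag p * Cp) + Ip n (p * Cm)) / √2 := by
  rw [al, inner_mul_left, inner_mul_left, dag_dag, Ip, Ip, Ip]; ring

lemma hd_al {n : ℕ} {p B Cp Cm : ℝ → V} {p' B' Cp' Cm' : V} {t : ℝ} (hp : HD p p' t)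
    (hB : HD B B' t) (hP : HD Cp Cp' t) (hM : HD Cm Cm' t) :
    HD (fun t => NN n * al n (p t) (B t) (Cp t) (Cm t))
      (Ip n B' + (Ip n (dag (p t) * Cp') + Ip n (dag p' * Cp t) +
        (Ip n (p t * Cm') + Ip n (p' * Cm t))) / √2) t := by
  have h0 := HD.re_inner (f := fun _ => phi n) (hasDerivWithinAt_const t _ _) hB
  have h1 := HD.re_inner (hp.mul_const' (phi n)) hP
  have h2 := HD.re_inner (hp.dag.mul_const' (phi n)) hM
  refine ((h0.fun_add ((h1.fun_add h2).div_const √2)).const_mul (NN n)).congr_deriv ?_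
  simp only [inner_mul_left, dag_dag, Ip, inner_zero_left, Complex.zero_re]
  ring

lemma abs_al_le {m : ℕ} (n : ℕ) {p : V} (hp : Drv m p) (B Cp Cm : V) :
    |al n p B Cp Cm| ≤ 3 * nr3 B Cp Cm := by
  have ri : ∀ u v : V, ‖u‖ ≤ 1 → |(⟪u, v⟫_ℂ).re| ≤ ‖v‖ := fun u v hu =>
    (Complex.abs_re_le_norm _).trans ((norm_inner_le_norm _ _).trans
      (mul_le_of_le_one_left (norm_nonneg _) hu))
  have h1 : ‖p * phi n‖ ≤ 1 := (hp.norm_mul_le _).trans (norm_phi n).le
  have a0 := (ri _ B (norm_phi n).le).trans (le_nr3_1 B Cp Cm)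
  have a1 := (ri _ Cp h1).trans (le_nr3_2 B Cp Cm)
  have a2 := (ri (dag p * phi n) Cm (by rwa [norm_dag_mul])).trans (le_nr3_3 B Cp Cm)
  refine (abs_add_le _ _).trans ?_
  rw [abs_div, abs_of_nonneg (Real.sqrt_nonneg 2)]
  have := (div_le_self (abs_nonneg _) (by linarith [sqrt2_lo] : 1 ≤ √2)).trans
    (abs_add_le (⟪p * phi n, Cp⟫_ℂ).re (⟪dag p * phi n, Cm⟫_ℂ).re)
  linarith

lemma algD {s f b x1 x2 q i0 j1 j2 k1 k2 a1 a2 g v η : ℝ} (hs : 0 ≤ s) (hf : 0 ≤ f) (hg : 0 ≤ g)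
    (hv : 0 ≤ v) (hη : 0 ≤ η) (h0 : η ≤ s * g + v) (h1 : b - q ≤ 15000 * g) (h2 : -η ≤ i0)
    (h3 : 9 / 10 ≤ j1) (h4 : 9 / 10 ≤ j2) (h5 : -(2 * η) ≤ k1) (h6 : -(2 * η) ≤ k2)
    (h7 : -(43 * v) ≤ a1) (h8 : -(43 * v) ≤ a2) :
    √2 * s * (b + (x1 + x2) / √2) + f - (30000 * (s * g) + 100 * v) ≤
      s * (x1 + x2) + i0 + (s * q + f * j1 + k1 + a1 + (s * q + f * j2 + k2 + a2)) / √2 := by
  have r1 := sqrt2_lo
  have r2 := sqrt2_hi
  have r3 := sqrt2_sq
  have r4 : ∀ a : ℝ, a / √2 = √2 / 2 * a := fun a => by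
    rw [div_eq_iff (by positivity)]; linear_combination (-a / 2) * r3
  simp only [r4]
  have b4 : √2 * s * (b - q) ≤ 22500 * (s * g) := by
    calc _ ≤ √2 * s * (15000 * g) := by gcongr
      _ ≤ 3 / 2 * s * (15000 * g) := by gcongr
      _ = _ := by ring
  have b5 : f ≤ √2 / 2 * (f * j1 + f * j2) := by
    calc _ ≤ 14 / 10 / 2 * (f * (9 / 10) + f * (9 / 10)) := by linarith only [hf]
      _ ≤ _ := by gcongr
  have b6 : -(4 * η + 86 * v) ≤ √2 / 2 * (k1 + a1 + k2 + a2) := by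
    calc _ ≤ √2 / 2 * -(4 * η + 86 * v) := by nlinarith only [hv, hη, r2]
      _ ≤ _ := by gcongr; linarith only [h5, h6, h7, h8]
  have b9 : √2 * s * (√2 / 2 * (x1 + x2)) = s * (x1 + x2) := by
    linear_combination (s * (x1 + x2) / 2) * r3
  have := mul_nonneg hs hg
  linarith only [hη, h0, h2, b4, b5, b6, b9, this]

end Ph1

namespace P1

open Ph1

variable {m n : ℕ} {T t1 t2 σ : ℝ} {p B Cp Cm : ℝ → V} {s f τ z G : ℝ → ℝ} {dB dP dM : Z3 → ℝ}
  (H : P1 m n T t1 t2 σ p B Cp Cm s f τ z G dB dP dM) {t : ℝ}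

include H

lemma loss_le (ht : t ∈ Icc t1 t2) :
    Ip n (B t) - Ip n (dag (p t) * (p t * B t)) ≤ 15000 * (G t / T ^ 16) := by
  have T0 := H.T0
  have G0 := H.G0 ht
  have hp := (H.hp t ht).1
  have hq : Supp (2 * m) (dl - dag (p t) * p t) :=
    (supp_dl _).sub (by rw [two_mul]; exact hp.supp.dag.mul hp.supp)
  have e : B t - dag (p t) * (p t * B t) = (dl - dag (p t) * p t) * B t := by
    rw [dl_eq_one]; ring
  rw [← Ip_sub, e]
  have lq : l1 (dl - dag (p t) * p t) ≤ 5 := by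
    refine (l1_sub_le _ _).trans ?_
    have h1 := l1_mul_le (dag (p t)) (p t)
    rw [l1_dag] at h1
    have h2 : l1 (p t) * l1 (p t) ≤ 2 * 2 :=
      mul_le_mul hp.l1_le hp.l1_le (l1_nonneg _) (by norm_num)
    rw [l1_dl]; linarith
  have h := abs_Ip_le (norm_inner_phi_le (n := n) ((dl - dag (p t) * p t) * B t)
    (S := 14700 * (G t / T ^ 16)) fun x hx => by
      have hc := corner_mem_cube hx
      have h1 : ev x (dl - dag (p t) * p t) = ((1 - ‖ev x (p t)‖ ^ 2 : ℝ) : ℂ) := by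
        rw [map_sub, map_mul, ev_dl, ev_dag, Complex.conj_mul']; push_cast; ring
      have h2 : 0 ≤ 1 - ‖ev x (p t)‖ ^ 2 := by
        nlinarith only [hp.ev_le hc, norm_nonneg (ev x (p t))]
      have h3 : sq3 x = 3 * th n ^ 2 := by
        rw [sq3, Fin.sum_univ_three, ← sq_abs (x 0), ← sq_abs (x 1), ← sq_abs (x 2), hx, hx, hx]
        ring
      have h4 : 1 - ‖ev x (p t)‖ ^ 2 ≤ 150 * (7 / T ^ 8) ^ 2 := by
        refine (hp.near x).trans ?_
        have := th_pos n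
        calc _ = 150 * ((m + 1) * th n) ^ 2 := by rw [h3]; ring
          _ ≤ _ := by gcongr; exact H.mth
      rw [map_mul, norm_mul, h1, Complex.norm_real, Real.norm_of_nonneg h2]
      calc _ ≤ 150 * (7 / T ^ 8) ^ 2 * (2 * G t) := by
            gcongr
            exact le_of_sq3_1 (by positivity) (H.sup_le hc t ht)
        _ = _ := by field_simp; ring)
  have h2 := H.tailB ht hq
  have h3 : l1 (dl - dag (p t) * p t) * (G t / T ^ 40) ≤ 5 * (G t / T ^ 16) := by
    gcongr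
    · exact H.T1
    · norm_num
  have : 0 < G t / T ^ 16 := by positivity
  linarith [le_abs_self (Ip n ((dl - dag (p t) * p t) * B t))]

lemma drift_le (ht : t ∈ Icc t1 t2) {q y : V} (hq : Supp m q) (q0 : ev 0 q = 0)
    (ql : l1 q * (t2 - t1) ≤ T ^ 3) (hy : ∀ x ∈ cube, ‖ev x y‖ ≤ 2 * G t)
    (tl : l1 (q * y - proj n (q * y)) ≤ l1 q * (G t / T ^ 40)) :
    |Ip n (q * y)| ≤ 43 * (1 / (t2 - t1) * (G t / T ^ 5)) := by
  have T0 := H.T0
  have G0 := H.G0 ht
  have hD := H.Dt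
  have l0 := l1_nonneg q
  have h := abs_Ip_le (norm_inner_phi_le (n := n) (q * y) (S := l1 q * (42 * (G t / T ^ 8)))
    fun x hx => by
      have h1 := norm_ev_sub_le hq x
      have := th_pos n
      rw [q0, sub_zero, Fin.sum_univ_three, hx, hx, hx] at h1
      have h2 : m * (th n + th n + th n) ≤ 3 * (7 / T ^ 8) := by
        linarith only [this, H.mth]
      rw [map_mul, norm_mul]
      calc _ ≤ l1 q * (3 * (7 / T ^ 8)) * (2 * G t) := by
            gcongr
            · exact h1.trans (by gcongr)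
            · exact hy x (corner_mem_cube hx)
        _ = _ := by ring)
  have h3 : l1 q * (G t / T ^ 40) ≤ l1 q * (G t / T ^ 8) := by
    gcongr
    · exact H.T1
    · norm_num
  have h4 : l1 q * (G t / T ^ 8) ≤ 1 / (t2 - t1) * (G t / T ^ 5) := by
    calc _ ≤ T ^ 3 / (t2 - t1) * (G t / T ^ 8) := by gcongr; exact (le_div_iff₀ hD).mpr ql
      _ = _ := by field_simp
  linarith

lemma beta_deriv (ht : t ∈ Icc t1 t2) :
    ∃ D, HD (fun t => NN n * al n (p t) (B t) (Cp t) (Cm t)) D t ∧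
      √2 * s t * (NN n * al n (p t) (B t) (Cp t) (Cm t)) + f t -
        (30000 / T ^ 16 * s t + 100 / T ^ 5 * (1 / (t2 - t1))) * G t ≤ D := by
  have T0 := H.T0
  have hD := H.Dt
  obtain ⟨g0, g1, g2, l0, l1', l2, D0, D1, D2⟩ := H.eqs ht
  obtain ⟨hp, p', Dp, sp', p0, lp⟩ := H.hp t ht
  have s0 := (H.hs t ht).1
  have G0 := H.G0 ht
  refine ⟨_, hd_al Dp D0 D1 D2, ?_⟩
  rw [al_eq]
  have e : p t * (dag (p t) * B t) = dag (p t) * (p t * B t) := by ring
  simp only [mul_add (dag (p t)), mul_add (p t), mul_smul_comm, dl_eq_one, mul_one, Ip_add,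
    Ip_smul, Ip_proj, e]
  have a2 := abs_le.mp (H.drift_le ht sp'.dag (by rw [ev_dag, p0, map_zero]) (by rwa [l1_dag])
    (fun x hx => le_of_sq3_2 (by positivity) (H.sup_le hx t ht)) (H.tailP ht sp'.dag))
  have a3 := abs_le.mp (H.drift_le ht sp' p0 lp
    (fun x hx => le_of_sq3_3 (by positivity) (H.sup_le hx t ht)) (H.tailM ht sp'))
  have mn : m ≤ n := by linarith only [H.mn]
  have th1 : l1 (p t) * (3 * ((m + 1) * th n)) ≤ 1 / 10 := by
    have := th_pos n
    calc _ ≤ 2 * (3 * (7 / T ^ 8)) := by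
          gcongr
          · exact hp.l1_le
          · exact H.mth
      _ = 42 / T ^ 8 := by ring
      _ ≤ _ := by
        rw [div_le_iff₀ (by positivity)]; linarith only [H.Tpow (a := 0) (b := 8) (by norm_num)]
  have a4 := Ip_ge mn hp.supp hp.one
  have a5 := Ip_ge mn hp.supp.dag (by rw [ev_dag, hp.one, map_one])
  rw [l1_dag] at a5
  have a6 := (abs_le.mp ((abs_Ip_le_l1 n g0).trans l0)).1
  have a7 := (abs_le.mp ((abs_Ip_le_l1 n _).trans ((l1_mul_le _ _).trans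
    (mul_le_mul ((l1_dag _).trans_le hp.l1_le) l1' (l1_nonneg _) (by norm_num))))).1
  have a8 := (abs_le.mp ((abs_Ip_le_l1 n _).trans ((l1_mul_le _ _).trans
    (mul_le_mul hp.l1_le l2 (l1_nonneg _) (by norm_num))))).1
  have b1 : (s t + 1 / (t2 - t1)) * (G t / T ^ 30) ≤
      s t * (G t / T ^ 16) + 1 / (t2 - t1) * (G t / T ^ 5) := by
    rw [add_mul]
    gcongr
    · exact H.T1
    · norm_num
    · exact H.T1
    · norm_num
  have b2 : (30000 / T ^ 16 * s t + 100 / T ^ 5 * (1 / (t2 - t1))) * G t =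
      30000 * (s t * (G t / T ^ 16)) + 100 * (1 / (t2 - t1) * (G t / T ^ 5)) := by ring
  rw [b2]
  exact algD s0.le (H.hf t ht).1 (by positivity) (by positivity) (by positivity) b1
    (H.loss_le ht) a6 (by linarith only [a5, th1]) (by linarith only [a4, th1]) a7 a8 a2.1 a3.1

/-- Lower bound for the unstable component. -/
theorem al_ge : ∀ t ∈ Icc t1 t2, 3 / 4 * G t - 4 * (σ * Real.exp (-150)) * Real.exp (√2 * τ t) ≤
    NN n * al n (p t) (B t) (Cp t) (Cm t) := by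
  have T0 := H.T0
  have hσ := H.hσ
  have hD := H.Dt
  have hn := NN_pos n
  have J0 := H.J0
  have main := exp_le_of_deriv (τ := fun t => √2 * τ t) (b := t2)
    (F := fun t => (30000 / T ^ 16 * τ t + 100 / T ^ 5 * ((t - t1) / (t2 - t1)) - 1) * G t +
      2 * (σ * Real.exp (-150)) * (1 + (t - t1) / (t2 - t1)) * Real.exp (√2 * τ t) +
      NN n * al n (p t) (B t) (Cp t) (Cm t)) H.h0 fun t ht => ?_
  · intro t ht
    have h := main t ht
    simp only [H.τ1, H.G1, sub_self, zero_div, mul_zero, add_zero, Real.exp_zero, mul_one] at h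
    have i1 : NN n * |al n (p t1) (B t1) (Cp t1) (Cm t1)| ≤ σ * Real.exp (-150) := by
      calc _ ≤ NN n * (3 * (σ * Real.exp (-(60 * T ^ 9)))) := by
            gcongr
            exact (abs_al_le n (H.hp t1 ⟨le_rfl, H.h12.le⟩).1 _ _ _).trans
              (by gcongr; exact H.init)
        _ = 3 * (NN n * (σ * Real.exp (-(60 * T ^ 9)))) := by ring
        _ ≤ 3 * (σ * Real.exp (-150) / T ^ 40) := by gcongr; exact H.rho_le'
        _ = σ * Real.exp (-150) / (T ^ 40 / 3) := by field_simp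
        _ ≤ _ := div_le_self J0.le (by linarith only [H.Tpow (a := 0) (b := 40) (by norm_num)])
    have i2 := mul_le_mul_of_nonneg_left (neg_abs_le (al n (p t1) (B t1) (Cp t1) (Cm t1))) hn.le
    have h' := le_trans (mul_nonneg (by linarith only [i1, i2]) (Real.exp_pos _).le) h
    have G0 := H.G0 ht
    have c1 : 30000 / T ^ 16 * τ t ≤ 1 / 8 := by
      calc _ ≤ 30000 / T ^ 16 * (100 * T ^ 15) := by gcongr; exact H.τle ht
        _ = 3000000 / T := by field_simp; ring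
        _ ≤ _ := by rw [div_le_iff₀ T0]; linarith only [H.Tbig]
    have c2 : 100 / T ^ 5 * ((t - t1) / (t2 - t1)) ≤ 1 / 8 := by
      calc _ ≤ 100 / T ^ 5 * 1 := by gcongr; exact H.lin1 ht
        _ ≤ _ := by
          rw [mul_one, div_le_iff₀ (by positivity)]
          linarith only [H.Tpow (a := 0) (b := 5) (by norm_num)]
    have c3 : (30000 / T ^ 16 * τ t + 100 / T ^ 5 * ((t - t1) / (t2 - t1)) - 1) * G t ≤
        -(3 / 4) * G t := by gcongr; linarith only [c1, c2]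
    have c4 : 2 * (σ * Real.exp (-150)) * (1 + (t - t1) / (t2 - t1)) * Real.exp (√2 * τ t) ≤
        2 * (σ * Real.exp (-150)) * 2 * Real.exp (√2 * τ t) := by
      gcongr; linarith only [H.lin1 ht]
    linarith only [h', c3, c4]
  obtain ⟨D, hD', hle⟩ := H.beta_deriv ht
  have s0 := (H.hs t ht).1
  have Dτ := (H.hs t ht).2
  have f0 := (H.hf t ht).1
  have τ0 := H.τ0 ht
  have lin0 := H.lin0 ht
  have Dl := hd_lin t1 (t2 - t1) t
  refine ⟨_, _, (((((Dτ.const_mul _).fun_add (Dl.const_mul _)).sub_const 1).fun_mul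
    (H.hG t ht)).fun_add (((Dl.const_add 1).const_mul _).fun_mul (Dτ.const_mul _).exp)).fun_add
    hD', Dτ.const_mul _, ?_⟩
  have X1 : 1 ≤ Real.exp (√2 * τ t) := Real.one_le_exp (by positivity)
  have j0 : 0 < σ * Real.exp (-150) / (t2 - t1) := by positivity
  have b7 : 0 ≤ (30000 / T ^ 16 * τ t + 100 / T ^ 5 * ((t - t1) / (t2 - t1))) *
    (f t + σ * Real.exp (-150) / (t2 - t1)) := by positivity
  have b8 := mul_le_mul_of_nonneg_left X1 j0.le
  have b3 : 2 * (σ * Real.exp (-150)) * (1 / (t2 - t1)) * Real.exp (√2 * τ t) =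
    2 * (σ * Real.exp (-150) / (t2 - t1) * Real.exp (√2 * τ t)) := by ring
  rw [b3]
  linarith only [hle, b7, b8, j0]

end P1

end Pool.Agent.Work.MP_6bf1e5_an.Dec
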