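import Pool.Agent.Work.MP_6bf1e5_an.Dec.Ode

/-!
Numerical facts for the convergence to the unstable direction.
-/

namespace Pool.Agent.Work.MP_6bf1e5_an.Dec.P2

noncomputable section

variable {T : ℝ}

lemma one_le (hT : (10 : ℝ) ^ 100 ≤ T) : 1 ≤ T := le_trans (by norm_num) hT

lemma pos (hT : (10 : ℝ) ^ 100 ≤ T) : 0 < T := lt_of_lt_of_le (by norm_num) hT

lemma le_pw (hT : (10 : ℝ) ^ 100 ≤ T) {C : ℝ} (hC : C ≤ 10 ^ 100) {k : ℕ} (hk : 1 ≤ k) :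
    C ≤ T ^ k := hC.trans (hT.trans (le_self_pow₀ (one_le hT) (by omega)))

lemma pw_le (hT : (10 : ℝ) ^ 100 ≤ T) {k l : ℕ} (h : k ≤ l) : T ^ k ≤ T ^ l :=
  pow_le_pow_right₀ (one_le hT) h

/-- A constant times a power is at most a higher power. -/
lemma mul_pw_le (hT : (10 : ℝ) ^ 100 ≤ T) {C : ℝ} (hC : C ≤ 10 ^ 100) {k l : ℕ} (h : k < l) :
    C * T ^ k ≤ T ^ l := by
  have h0 := pos hT
  calc C * T ^ k ≤ T * T ^ k := by gcongr; exact hC.trans hT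
    _ = T ^ (k + 1) := by ring
    _ ≤ T ^ l := pw_le hT h

lemma div_pw_le (hT : (10 : ℝ) ^ 100 ≤ T) {C D X : ℝ} (hX : 0 ≤ X) (hD : 0 < D)
    (hC : C ≤ D * 10 ^ 100) {k l : ℕ} (h : k < l) : C * X / T ^ l ≤ D * X / T ^ k := by
  have h0 := pos hT
  rw [div_le_div_iff₀ (by positivity) (by positivity)]
  have h1 : C / D * T ^ k ≤ T ^ l := mul_pw_le hT (by rw [div_le_iff₀ hD]; linarith only [hC]) h
  have h2 := mul_le_mul_of_nonneg_left h1 (mul_nonneg hD.le hX)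
  calc C * X * T ^ k = D * X * (C / D * T ^ k) := by field_simp
    _ ≤ _ := h2

lemma sqrt_le (hT : (10 : ℝ) ^ 100 ≤ T) {u : ℝ} (u2 : u ≤ 101 * T ^ 3) : √(1 + u) ≤ T ^ 2 := by
  have h0 := pos hT
  refine Real.sqrt_le_iff.2 ⟨by positivity, ?_⟩
  have h1 : (1 : ℝ) ≤ T ^ 3 := le_pw hT (by norm_num) (by norm_num)
  have h2 : 102 * T ^ 3 ≤ T ^ 4 := mul_pw_le hT (by norm_num) (by norm_num)
  calc 1 + u ≤ T ^ 4 := by linarith
    _ = _ := by ring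

/-- The errors are at most half of the contraction. -/
lemma err_le (hT : (10 : ℝ) ^ 100 ≤ T) {r s μ η u : ℝ} (hr : 0 < r) (hs : T ^ 15 * r / 2 ≤ s)
    (m1 : 9 / T ^ 16 ≤ μ) (m2 : μ ≤ 49 / T ^ 16) (e1 : η ≤ 2 * 10 ^ 20 / T ^ 4)
    (u1 : 1 / (2 * 10 ^ 22) ≤ u) (u2 : u ≤ 101 * T ^ 3) :
    20000 * s * μ * (η + μ) * (1 + u) ^ 2 + 10 * (1 + u) * (r / T ^ 40) +
      2 * (1 + u) * √(1 + u) * (160000 * r / T ^ 8) ≤ 1 / 2 * (1 / 10 ^ 7 * s * μ * u) := by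
  have h0 := pos hT
  have u0 : 0 < u := lt_of_lt_of_le (by norm_num) u1
  have s0 : 0 < s := lt_of_lt_of_le (by positivity) hs
  have μ0 : 0 < μ := lt_of_lt_of_le (by positivity) m1
  have h1 : η + μ ≤ 3 * 10 ^ 20 / T ^ 4 := by
    have := div_pw_le hT (C := 49) (D := 10 ^ 20) (X := 1) zero_le_one (by norm_num)
      (by norm_num) (k := 4) (l := 16) (by norm_num)
    simp only [mul_one] at this
    have e : 3 * 10 ^ 20 / T ^ 4 = 2 * 10 ^ 20 / T ^ 4 + 10 ^ 20 / T ^ 4 := by ring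
    linarith only [m2, e1, this, e]
  have h2 : 1 ≤ 2 * 10 ^ 22 * u := by
    rw [div_le_iff₀ (by norm_num)] at u1
    linarith only [u1]
  have h3 : (1 + u) ^ 2 ≤ 102 * T ^ 3 * u := by
    have h4 : (2 * 10 ^ 22 + 2 : ℝ) ≤ T ^ 3 := le_pw hT (by norm_num) (by norm_num)
    linarith only [u1, mul_le_mul_of_nonneg_right h4 u0.le, mul_le_mul_of_nonneg_right u2 u0.le]
  have h4 : 20000 * (η + μ) * (1 + u) ^ 2 ≤ u / (6 * 10 ^ 7) := by
    have h5 : 20000 * (η + μ) * (1 + u) ^ 2 ≤ 20000 * (3 * 10 ^ 20 / T ^ 4) * (102 * T ^ 3 * u) := by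
      gcongr
    have h6 : 20000 * (3 * 10 ^ 20 / T ^ 4) * (102 * T ^ 3 * u) = 612 * 10 ^ 24 * u / T ^ 1 := by
      field_simp
      ring
    have h7 := div_pw_le hT (C := 612 * 10 ^ 24) (D := 1 / (6 * 10 ^ 7)) (X := u) u0.le
      (by norm_num) (by norm_num) (k := 0) (l := 1) (by norm_num)
    rw [pow_zero, div_one] at h7
    linarith only [h5, h6, h7]
  have h5 : 9 / 2 * r / T ^ 1 ≤ s * μ := by
    calc 9 / 2 * r / T ^ 1 = T ^ 15 * r / 2 * (9 / T ^ 16) := by field_simp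
      _ ≤ _ := by gcongr
  have h6 : 1 + u ≤ 3 * 10 ^ 22 * u := by linarith only [u1]
  have h7 : 10 * (1 + u) * (r / T ^ 40) ≤ 1 / (6 * 10 ^ 7) * (9 / 2) * (r * u) / T ^ 1 := by
    calc 10 * (1 + u) * (r / T ^ 40) ≤ 10 * (3 * 10 ^ 22 * u) * (r / T ^ 40) := by gcongr
      _ = 3 * 10 ^ 23 * (r * u) / T ^ 40 := by ring
      _ ≤ _ := div_pw_le hT (by positivity) (by norm_num) (by norm_num) (by norm_num)
  have h8 : 2 * (1 + u) * √(1 + u) * (160000 * r / T ^ 8) ≤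
      1 / (6 * 10 ^ 7) * (9 / 2) * (r * u) / T ^ 1 := by
    have := sqrt_le hT u2
    calc 2 * (1 + u) * √(1 + u) * (160000 * r / T ^ 8)
        ≤ 2 * (3 * 10 ^ 22 * u) * T ^ 2 * (160000 * r / T ^ 8) := by gcongr
      _ = 96 * 10 ^ 26 * (r * u) / T ^ 6 := by field_simp; ring
      _ ≤ _ := div_pw_le hT (by positivity) (by norm_num) (by norm_num) (by norm_num)
  have h9 : 1 / (6 * 10 ^ 7) * (9 / 2) * (r * u) / T ^ 1 ≤ s * μ * (u / (6 * 10 ^ 7)) := by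
    calc _ = 9 / 2 * r / T ^ 1 * (u / (6 * 10 ^ 7)) := by ring
      _ ≤ _ := by gcongr
  have h10 := mul_le_mul_of_nonneg_left h4 (mul_pos s0 μ0).le
  linarith only [h7, h8, h9, h10]

/-- The growth rate dominates its errors. -/
lemma grow_le (hT : (10 : ℝ) ^ 100 ≤ T) {r s u A α' : ℝ} (hr : 0 < r) (hs : T ^ 15 * r / 2 ≤ s)
    (u2 : u ≤ 101 * T ^ 3) (hA : 0 < A)
    (h : |α' - √2 * s * A| ≤ (s / 10 + 3 * (r / T ^ 40) + √(1 + u) * (160000 * r / T ^ 8)) * A) :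
    s * A ≤ α' := by
  have h0 := pos hT
  have h1 : (14 / 10 : ℝ) ≤ √2 := Real.le_sqrt_of_sq_le (by norm_num)
  have h2 : 3 * (r / T ^ 40) ≤ r := by
    have := div_pw_le hT (C := 3) (D := 1) (X := r) hr.le one_pos (by norm_num) (k := 0) (l := 40)
      (by norm_num)
    rw [pow_zero, div_one, one_mul] at this
    calc _ = 3 * r / T ^ 40 := by ring
      _ ≤ _ := this
  have h3 : √(1 + u) * (160000 * r / T ^ 8) ≤ r := by
    have h4 := sqrt_le hT u2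
    have := div_pw_le hT (C := 160000) (D := 1) (X := r) hr.le one_pos (by norm_num) (k := 0)
      (l := 6) (by norm_num)
    rw [pow_zero, div_one, one_mul] at this
    calc _ ≤ T ^ 2 * (160000 * r / T ^ 8) := by gcongr
      _ = 160000 * r / T ^ 6 := by field_simp
      _ ≤ _ := this
  have h4 : (100 : ℝ) ≤ T ^ 15 := le_pw hT (by norm_num) (by norm_num)
  have h5 : 50 * r ≤ s := by nlinarith only [hr, hs, h4]
  have s0 : 0 < s := by linarith only [hr, h5]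
  have h6 : (s / 10 + 3 * (r / T ^ 40) + √(1 + u) * (160000 * r / T ^ 8)) * A ≤ s / 5 * A := by
    gcongr
    linarith only [hr, h2, h3, h5]
  have h7 := (abs_le.1 (h.trans h6)).1
  have h8 := mul_le_mul_of_nonneg_right h1 (mul_pos s0 hA).le
  linarith only [h7, h8, mul_pos s0 hA]

lemma small1 (hT : (10 : ℝ) ^ 100 ≤ T) {μ u : ℝ} (m2 : μ ≤ 49 / T ^ 16) (u0 : 0 ≤ u)
    (u2 : u ≤ 101 * T ^ 3) : μ * (1 + u) ≤ 1 / 10 ^ 6 := by
  have h0 := pos hT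
  have h1 : (1 : ℝ) ≤ T ^ 3 := le_pw hT (by norm_num) (by norm_num)
  have := div_pw_le hT (C := 49 * 102) (D := 1 / 10 ^ 6) (X := 1) zero_le_one (by norm_num)
    (by norm_num) (k := 0) (l := 13) (by norm_num)
  rw [pow_zero, div_one, mul_one, mul_one] at this
  calc μ * (1 + u) ≤ 49 / T ^ 16 * (102 * T ^ 3) := by gcongr; linarith only [u2, h1]
    _ = 49 * 102 / T ^ 13 := by field_simp
    _ ≤ _ := this

lemma small2 (hT : (10 : ℝ) ^ 100 ≤ T) {μ η u : ℝ} (m0 : 0 ≤ μ) (m2 : μ ≤ 49 / T ^ 16)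
    (e1 : η ≤ 2 * 10 ^ 20 / T ^ 4) (u0 : 0 ≤ u) (u2 : u ≤ 101 * T ^ 3) :
    η * μ * (1 + u) ≤ 1 / 10 ^ 4 := by
  have h0 := pos hT
  have h1 := small1 hT m2 u0 u2
  have h2 := div_pw_le hT (C := 2 * 10 ^ 20) (D := 1) (X := 1) zero_le_one (by norm_num)
    (by norm_num) (k := 0) (l := 4) (by norm_num)
  rw [pow_zero, div_one, mul_one, mul_one] at h2
  have h3 : 0 ≤ μ * (1 + u) := by positivity
  have h4 := mul_le_mul_of_nonneg_right (e1.trans h2) h3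
  rw [mul_assoc]
  linarith only [h1, h4]

/-- The transient has died out at the end. -/
lemma final_le (hT : (10 : ℝ) ^ 100 ≤ T) {ρ : ℝ} (h : T ^ 17 / 1000 ≤ ρ) :
    100 * T ^ 3 * Real.exp (-((ρ - T ^ 15) / (10 ^ 8 * T ^ 16))) ≤ 1 / (2 * 10 ^ 22) := by
  have h0 := pos hT
  have h1 : 2000 * T ^ 15 ≤ T ^ 17 := mul_pw_le hT (by norm_num) (by norm_num)
  have h2 : T / (2 * 10 ^ 11) ≤ (ρ - T ^ 15) / (10 ^ 8 * T ^ 16) := by
    rw [div_le_div_iff₀ (by positivity) (by positivity)]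
    have e : T * (10 ^ 8 * T ^ 16) = 10 ^ 8 * T ^ 17 := by ring
    rw [e]
    linarith only [h, h1]
  have h3 := Real.pow_div_factorial_le_exp (T / (2 * 10 ^ 11)) (by positivity) 4
  have h4 := h3.trans (Real.exp_le_exp.2 h2)
  rw [Real.exp_neg, ← div_eq_mul_inv, div_le_iff₀ (Real.exp_pos _)]
  refine le_trans ?_ (mul_le_mul_of_nonneg_left h4 (by norm_num))
  have h5 : 768 * 10 ^ 68 * T ^ 3 ≤ T ^ 4 := mul_pw_le hT (by norm_num) (by norm_num)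
  have e : ((Nat.factorial 4 : ℕ) : ℝ) = 24 := by norm_num [Nat.factorial]
  rw [e, div_pow]
  calc 100 * T ^ 3 = 1 / (2 * 10 ^ 22) * (768 * 10 ^ 68 * T ^ 3 / (2 * 10 ^ 11) ^ 4 / 24) := by ring
    _ ≤ _ := by gcongr

lemma exp_neg_le (hT : (10 : ℝ) ^ 100 ≤ T) : Real.exp (-T ^ 9) ≤ 1 / T ^ 100 := by
  have h0 := pos hT
  rw [Real.exp_neg, one_div]
  refine inv_anti₀ (by positivity) ((pow_le_exp hT (by norm_num)).trans (Real.exp_le_exp.2 ?_))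
  simpa using pw_le hT (k := 1) (l := 9) (by norm_num)

/-- The loss in the barrier of the chain is compensated by the first phase. -/
lemma fib_loss (hT : (10 : ℝ) ^ 100 ≤ T) {F : ℕ} (hF : (F : ℝ) ≤ T ^ 8) :
    (2 * T ^ 6) ^ F * T ^ 50 ≤ Real.exp (T ^ 13) := by
  have h0 := pos hT
  have h1 : 2 * T ^ 6 ≤ Real.exp T :=
    (mul_pw_le hT (by norm_num) (by norm_num : 6 < 7)).trans (pow_le_exp hT (by norm_num))
  have h2 : (2 * T ^ 6) ^ F ≤ Real.exp (T ^ 9) := by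
    calc (2 * T ^ 6) ^ F ≤ Real.exp T ^ F := by gcongr
      _ = Real.exp (F * T) := by rw [Real.exp_nat_mul]
      _ ≤ _ := Real.exp_le_exp.2 (by
        calc (F : ℝ) * T ≤ T ^ 8 * T := by gcongr
          _ = _ := by ring)
  have h3 : T ^ 50 ≤ Real.exp (T ^ 9) :=
    (pow_le_exp hT (by norm_num)).trans (Real.exp_le_exp.2 (by
      simpa using pw_le hT (k := 1) (l := 9) (by norm_num)))
  have h4 : 2 * T ^ 9 ≤ T ^ 13 := mul_pw_le hT (by norm_num) (by norm_num)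
  calc _ ≤ Real.exp (T ^ 9) * Real.exp (T ^ 9) := by gcongr
    _ = Real.exp (2 * T ^ 9) := by rw [← Real.exp_add, two_mul]
    _ ≤ _ := Real.exp_le_exp.2 h4

end

end Pool.Agent.Work.MP_6bf1e5_an.Dec.P2
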