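import Pool.Agent.Work.MP_6bf1e5_an.Dec.Upper
import Pool.Agent.Work.MP_6bf1e5_an.Dec.Phase2A

/-!
One step of the convergence to the unstable direction.
-/

open Set Complex
open scoped InnerProductSpace ComplexConjugate
open Pool.Agent.Work.MP_6bf1e5_an.B (Z3 R3 box)

namespace Pool.Agent.Work.MP_6bf1e5_an.Dec.P2

noncomputable section

variable {Γ : Geo} {ν a0 : ℝ} {R : Raw} {j : ℕ} {t0 a tb t1 t : ℝ}

lemma nr_nonneg (R : Raw) (i : ℕ) (t : ℝ) : 0 ≤ R.nr i t := nr3_nonneg _ _ _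

lemma nc_small (N : IsNet Γ ν a0 R) (S : St Γ ν R j t0 a tb) (H : Run Γ R j t0 a t1)
    (ht : t ∈ Icc t0 t1) : NN (Γ.M (j + 2)) * (10 ^ 4 * Γ.lam (j + 2) * R.nr (j + 2) t) ≤
      R.rr Γ j a / Γ.T (j + 1) ^ 100 := by
  have hT := Γ.Tbig (j + 1)
  have T0 := pos hT
  have r0 := S.rr_pos N
  have l0 := Γ.lam_pos' (j + 2)
  have Nb := NN_pos (Γ.M (j + 1))
  obtain ⟨c, c1, c2, hc⟩ := S.xx_eq N
  have c0 : 0 ≤ c := le_trans (by positivity) c1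
  have hx : R.xx Γ j a t ≤ Γ.T (j + 1) ^ 9 / NN (Γ.M (j + 1)) * Γ.T (j + 1) ^ 18 := by
    rw [hc]
    exact mul_le_mul c2 (H.rhole t ht) (H.hd_rho N S ht).1.le (by positivity)
  have x0 := (H.hd_xx N S ht).1
  have e : 10 ^ 4 * Γ.lam (j + 2) * (R.alf Γ j t / 2) = R.xx Γ j a t * R.rr Γ j a := by
    rw [Raw.xx, div_mul_cancel₀ _ r0.ne']
  have hM : Γ.T (j + 1) ^ 139 ≤ Γ.M (j + 1) + 1 := by
    refine (Γ.pow_le_M j (by norm_num)).trans ?_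
    have : (Γ.M j : ℝ) ≤ Γ.M (j + 1) := by exact_mod_cast Γ.M_mono j
    linarith only [this]
  have h1 := H.small t ht
  have h2 := Γ.NN_hi (j + 1)
  have h3 : 10 ^ 4 * Γ.lam (j + 2) * R.nr (j + 2) t ≤
      R.xx Γ j a t * R.rr Γ j a / Γ.T (j + 1) ^ 139 := by
    calc _ ≤ 10 ^ 4 * Γ.lam (j + 2) * (R.alf Γ j t / 2 / (Γ.M (j + 1) + 1)) := by gcongr
      _ = R.xx Γ j a t * R.rr Γ j a / (Γ.M (j + 1) + 1) := by rw [← e]; ring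
      _ ≤ _ := by gcongr
  have h4 := nr_nonneg R (j + 2) t
  calc _ ≤ Γ.T (j + 1) ^ 12 / 2 * NN (Γ.M (j + 1)) *
        (Γ.T (j + 1) ^ 9 / NN (Γ.M (j + 1)) * Γ.T (j + 1) ^ 18 * R.rr Γ j a /
          Γ.T (j + 1) ^ 139) := by
        refine mul_le_mul h2 (h3.trans ?_) (by positivity) (by positivity)
        gcongr
    _ = R.rr Γ j a / Γ.T (j + 1) ^ 100 / 2 := by field_simp
    _ ≤ _ := half_le_self (by positivity)

lemma nc_small' (N : IsNet Γ ν a0 R) (S : St Γ ν R j t0 a tb) (H : Run Γ R j t0 a t1)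
    (ht : t ∈ Icc t0 t1) :
    10 ^ 4 * Γ.lam (j + 2) * R.nr (j + 2) t ≤ R.rr Γ j a / Γ.T (j + 1) ^ 100 := by
  have l0 := Γ.lam_pos' (j + 2)
  have h4 := nr_nonneg R (j + 2) t
  exact (le_mul_of_one_le_left (by positivity) (one_le_NN _)).trans (nc_small N S H ht)

/-- The driver of level `j + 2`. -/
lemma drv (N : IsNet Γ ν a0 R) (S : St Γ ν R j t0 a tb) (H : Run Γ R j t0 a t1)
    (ht : t ∈ Icc t0 t1) : Drv (Γ.M (j + 1)) (R.pp (j + 1) t) ∧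
      (∃ η, 0 ≤ η ∧ η ≤ 2 * 10 ^ 20 / Γ.T (j + 1) ^ 4 ∧
        Gap (Γ.M (j + 1)) (Γ.M (j + 2)) η (R.pp (j + 1) t)) ∧
      R.rho Γ j a t * R.rr Γ j a / 2 ≤ R.ss (j + 1) t ∧
      R.ss (j + 1) t ≤ 4 * (R.rho Γ j a t * R.rr Γ j a) ∧
      ∃ p', HD (R.pp (j + 1)) p' t ∧
        ‖p' * phi (Γ.M (j + 2))‖ ≤ 160000 * R.rr Γ j a / Γ.T (j + 1) ^ 8 := by
  have T0 := pos (Γ.Tbig (j + 1))
  have r0 := S.rr_pos N
  have h0 : 0 ≤ t := S.t0_nonneg.trans ht.1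
  have a0 : 0 < R.alf Γ j t / 2 := half_pos (H.pos t ht)
  have hc : ‖R.B (j + 1) t - ((R.alf Γ j t / 2 : ℝ) : ℂ) • phi (Γ.M (j + 1))‖ ≤
      1 / 10 ^ 10 * (R.alf Γ j t / 2) :=
    (H.coneB N S ht).1.trans (mul_le_mul_of_nonneg_right (by norm_num) a0.le)
  obtain ⟨d1, d2, d3, d4⟩ := N.drv h0 a0 hc
  have e : R.rr Γ (j + 1) (R.alf Γ j t / 2) = R.rho Γ j a t * R.rr Γ j a := by
    rw [Raw.rho, div_mul_cancel₀ _ r0.ne']
  rw [e] at d3 d4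
  obtain ⟨D, hD, nD⟩ := H.dB t ht
  obtain ⟨p', p1, -, -, -, p2⟩ := N.hd_pp h0 a0 hc hD
  refine ⟨d1, d2, d3, d4, p', p1, p2.trans ?_⟩
  have := H.pos t ht
  calc _ ≤ 4000 * (20 * R.rr Γ j a * R.alf Γ j t) / (R.alf Γ j t / 2) / Γ.T (j + 1) ^ 8 := by
        gcongr
    _ = _ := by field_simp; ring

lemma hd_A (N : IsNet Γ ν a0 R) (S : St Γ ν R j t0 a tb) (H : Run Γ R j t0 a t1)
    (ht : t ∈ Icc t0 t1) : ∃ D, HD (R.alf Γ (j + 1)) D t := by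
  have h0 : 0 ≤ t := S.t0_nonneg.trans ht.1
  obtain ⟨-, -, -, -, p', hp, -⟩ := drv N S H ht
  obtain ⟨D, hB⟩ := N.hd_B (j + 2) h0
  obtain ⟨_, _, -, hP⟩ := N.eqP (j + 1) t h0
  obtain ⟨_, _, -, hM⟩ := N.eqM (j + 1) t h0
  have h1 : HD (fun _ : ℝ => phi (Γ.M (j + 2))) 0 t := hasDerivWithinAt_const _ _ _
  exact ⟨_, (h1.re_inner hB).fun_add ((((hp.mul_const' (phi (Γ.M (j + 2)))).re_inner hP).fun_add
    ((hp.dag.mul_const' (phi (Γ.M (j + 2)))).re_inner hM)).div_const √2)⟩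

lemma A_le (N : IsNet Γ ν a0 R) (S : St Γ ν R j t0 a tb) (H : Run Γ R j t0 a t1)
    (ht : t ∈ Icc t0 t1) : R.alf Γ (j + 1) t ≤ 2 * R.nr (j + 2) t := by
  have h := abs_al_le (n := Γ.M (j + 2)) (drv N S H ht).1 (R.B (j + 2) t) (R.Cp (j + 2) t)
    (R.Cm (j + 2) t)
  have h4 := nr_nonneg R (j + 2) t
  refine abs_le_of_sq_le_sq' (a := R.alf Γ (j + 1) t) ?_ (by positivity) |>.2
  change R.alf Γ (j + 1) t ^ 2 ≤ 2 * R.nr (j + 2) t ^ 2 at h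
  nlinarith only [h]

lemma visc_le (hν : 0 < ν) (S : St Γ ν R j t0 a tb) :
    ν * Γ.lam (j + 2) ^ 2 ≤ R.rr Γ j a / Γ.T (j + 1) ^ 83 := by
  have hT := Γ.Tbig (j + 1)
  have T0 := pos hT
  have Ta := pos (Γ.Tbig j)
  have l0 := Γ.lam_pos' (j + 1)
  have h1 : Γ.T (j + 1) ^ 99 ≤ Γ.T j ^ 100 := by
    calc Γ.T (j + 1) ^ 99 ≤ (2 * Γ.T j) ^ 99 := by gcongr; exact Γ.Tdbl j
      _ = 2 ^ 99 * Γ.T j ^ 99 := mul_pow _ _ _
      _ ≤ _ := mul_pw_le (Γ.Tbig j) (by norm_num) (by norm_num)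
  rw [le_div_iff₀ (by positivity), Γ.lam_succ' (j + 1)]
  refine le_trans ?_ S.K1
  calc _ = Γ.T (j + 1) ^ 99 * (ν * Γ.lam (j + 1) ^ 2) := by ring
    _ ≤ _ := by gcongr

/-- The collected errors in the equations of level `j + 2`. -/
lemma eps_le (hν : 0 < ν) (N : IsNet Γ ν a0 R) (S : St Γ ν R j t0 a tb) (H : Run Γ R j t0 a t1)
    (ht : t ∈ Icc t0 t1) (hA : 0 < R.alf Γ (j + 1) t)
    (h1 : R.nr (j + 2) t ≤ Γ.T (j + 1) ^ 2 * R.alf Γ (j + 1) t)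
    (h2 : R.E (j + 3) t ≤ 2 * R.alf Γ (j + 1) t ^ 2)
    (h3 : |R.f (j + 2) t| ≤ R.rr Γ j a / Γ.T (j + 1) ^ 50 * R.alf Γ (j + 1) t) :
    (4 * (ν * Γ.lam (j + 2) ^ 2) + 12 * (Γ.T (j + 1) ^ 100)⁻¹ * R.ss (j + 1) t) * R.nr (j + 2) t +
      |R.f (j + 2) t| + 10 ^ 4 * Γ.lam (j + 2) * (√(R.E (j + 3) t) * R.nr (j + 2) t +
      NN (Γ.M (j + 2)) * R.nr (j + 3) t ^ 2) ≤
      R.rr Γ j a / Γ.T (j + 1) ^ 40 * R.alf Γ (j + 1) t := by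
  have hT := Γ.Tbig (j + 1)
  have T0 := pos hT
  have r0 := S.rr_pos N
  have l0 := Γ.lam_pos' (j + 2)
  have h0 : 0 ≤ t := S.t0_nonneg.trans ht.1
  have n0 := nr_nonneg R (j + 2) t
  have Nc := NN_pos (Γ.M (j + 2))
  obtain ⟨-, -, -, s2, -⟩ := drv N S H ht
  have k1 := visc_le hν S
  have k2 := nc_small N S H ht
  have k3 := nc_small' N S H ht
  have k4 := A_le N S H ht
  have k5 := N.nrE (j + 3) t h0
  have k6 := H.rhole t ht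
  have lb0 : 0 < 10 ^ 4 * Γ.lam (j + 2) := by positivity
  generalize R.rr Γ j a = r at *
  generalize R.alf Γ (j + 1) t = A at *
  generalize R.nr (j + 2) t = x at *
  generalize Γ.T (j + 1) = T at *
  generalize 10 ^ 4 * Γ.lam (j + 2) = lb at *
  have rA : 0 ≤ r * A := by positivity
  have e1 : (4 * (ν * Γ.lam (j + 2) ^ 2) + 12 * (T ^ 100)⁻¹ * R.ss (j + 1) t) * x ≤
      1 / 4 * (r * A) / T ^ 40 := by
    have s3 : R.ss (j + 1) t ≤ 4 * (T ^ 18 * r) := s2.trans (by gcongr)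
    have s4 : 4 * r / T ^ 83 ≤ 1 * r / T ^ 82 :=
      div_pw_le hT r0.le one_pos (by norm_num) (by norm_num)
    calc _ ≤ (4 * (r / T ^ 83) + 12 * (T ^ 100)⁻¹ * (4 * (T ^ 18 * r))) * x := by gcongr
      _ = (4 * r / T ^ 83 + 48 * r / T ^ 82) * x := by field_simp; ring
      _ ≤ (1 * r / T ^ 82 + 48 * r / T ^ 82) * (T ^ 2 * A) := by gcongr
      _ = 49 * (r * A) / T ^ 80 := by field_simp; ring
      _ ≤ _ := div_pw_le hT rA (by norm_num) (by norm_num) (by norm_num)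
  have e2 : r / T ^ 50 * A ≤ 1 / 4 * (r * A) / T ^ 40 := by
    calc _ = 1 * (r * A) / T ^ 50 := by ring
      _ ≤ _ := div_pw_le hT rA (by norm_num) (by norm_num) (by norm_num)
  have e3 : √(R.E (j + 3) t) ≤ 2 * A := Real.sqrt_le_iff.2 ⟨by positivity, by nlinarith only [h2]⟩
  have e4 : lb * (√(R.E (j + 3) t) * x) ≤ 1 / 4 * (r * A) / T ^ 40 := by
    calc _ = √(R.E (j + 3) t) * (lb * x) := by ring
      _ ≤ 2 * A * (r / T ^ 100) := by gcongr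
      _ = 2 * (r * A) / T ^ 100 := by ring
      _ ≤ _ := div_pw_le hT rA (by norm_num) (by norm_num) (by norm_num)
  have e5 : lb * (NN (Γ.M (j + 2)) * R.nr (j + 3) t ^ 2) ≤ 1 / 4 * (r * A) / T ^ 40 := by
    have e6 : R.nr (j + 3) t ^ 2 ≤ 16 * (x * A) := by nlinarith only [k5, hA, h2, k4]
    calc _ ≤ lb * (NN (Γ.M (j + 2)) * (16 * (x * A))) := by gcongr
      _ = NN (Γ.M (j + 2)) * (lb * x) * (16 * A) := by ring
      _ ≤ r / T ^ 100 * (16 * A) := by gcongr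
      _ = 16 * (r * A) / T ^ 100 := by ring
      _ ≤ _ := div_pw_le hT rA (by norm_num) (by norm_num) (by norm_num)
  have e7 : r / T ^ 40 * A = 4 * (1 / 4 * (r * A) / T ^ 40) := by ring
  rw [mul_add lb, e7]
  linarith only [h3, e1, e2, e4, e5]

/-- Growth of the unstable component and contraction of the cone. -/
lemma step (hν : 0 < ν) (N : IsNet Γ ν a0 R) (S : St Γ ν R j t0 a tb) (H : Run Γ R j t0 a t1)
    (ht : t ∈ Icc t0 t1) (hρ : Γ.T (j + 1) ^ 15 ≤ R.rho Γ j a t) (hA : 0 < R.alf Γ (j + 1) t)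
    {u : ℝ} (u1 : 1 / (2 * 10 ^ 22) ≤ u) (u2 : u ≤ 101 * Γ.T (j + 1) ^ 3)
    (h1 : R.nr (j + 2) t ^ 2 ≤ (1 / 2 + u) * R.alf Γ (j + 1) t ^ 2)
    (h2 : R.E (j + 3) t ≤ 2 * R.alf Γ (j + 1) t ^ 2)
    (h3 : |R.f (j + 2) t| ≤ R.rr Γ j a / Γ.T (j + 1) ^ 50 * R.alf Γ (j + 1) t) :
    ∃ α' g', HD (R.alf Γ (j + 1)) α' t ∧
      HD (fun t => R.nr (j + 2) t ^ 2 / R.alf Γ (j + 1) t ^ 2) g' t ∧
      R.rho Γ j a t * R.rr Γ j a / 2 * R.alf Γ (j + 1) t ≤ α' ∧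
      (R.nr (j + 2) t ^ 2 / R.alf Γ (j + 1) t ^ 2 = 1 / 2 + u →
        g' ≤ -(20 * (R.rho Γ j a t * R.rr Γ j a * u / (10 ^ 8 * Γ.T (j + 1) ^ 16)))) := by
  have hT := Γ.Tbig (j + 1)
  have T0 := pos hT
  have r0 := S.rr_pos N
  have h0 : 0 ≤ t := S.t0_nonneg.trans ht.1
  have u0 : 0 < u := lt_of_lt_of_le (by norm_num) u1
  have ρ0 := (H.hd_rho N S ht).1
  obtain ⟨d1, ⟨η, η0, η1, hg⟩, s1, s2, p', hp, hω⟩ := drv N S H ht
  have s3 : Γ.T (j + 1) ^ 15 * R.rr Γ j a / 2 ≤ R.ss (j + 1) t := le_trans (by gcongr) s1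
  have s0 : 0 < R.ss (j + 1) t := lt_of_lt_of_le (by positivity) s3
  have hE : R.nr (j + 2) t ^ 2 ≤ (1 + u) * R.alf Γ (j + 1) t ^ 2 :=
    h1.trans (mul_le_mul_of_nonneg_right (by linarith only []) (sq_nonneg _))
  have h4 : R.nr (j + 2) t ≤ Γ.T (j + 1) ^ 2 * R.alf Γ (j + 1) t := by
    have h5 := sqrt_le hT u2
    have h6 := Real.sq_sqrt (by linarith only [u0] : 0 ≤ 1 + u)
    refine (abs_le_of_sq_le_sq' ?_ (by positivity)).2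
    rw [mul_pow]
    refine hE.trans (mul_le_mul_of_nonneg_right ?_ (sq_nonneg _))
    rw [← h6]
    exact pow_le_pow_left₀ (Real.sqrt_nonneg _) h5 2
  obtain ⟨eB, eP, eM, b1, b2, b3, dB, dP, dM⟩ :=
    N.eqs' (j := j + 1) hν h0 s0 d1 (eps_le hν N S H ht hA h4 h2 h3)
  have m1 := Γ.mu_lo (j + 1)
  have m2 := Γ.mu_hi (j + 1)
  have m0 : 0 ≤ mu (Γ.M (j + 1)) (Γ.M (j + 2)) := le_trans (by positivity) m1
  obtain ⟨α', g', c1, c2, c3, c4⟩ := cone_step (p := R.pp (j + 1)) (B := R.B (j + 2))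
    (Cp := R.Cp (j + 2)) (Cm := R.Cm (j + 2)) (G := 1 + u) d1 hg η0 (N.suppB _ _) (N.sym _ _ h0)
    s0 (by linarith only [u0]) (small1 hT m2 u0.le u2) (small2 hT m0 m2 η1 u0.le u2) hp hω dB dP dM hA hE
    b1 b2 b3
  refine ⟨α', g', c1, c2, ?_, fun e => ?_⟩
  · exact (mul_le_mul_of_nonneg_right s1 hA.le).trans (grow_le hT r0 s3 u2 hA c3)
  · have h5 := err_le hT r0 s3 m1 m2 η1 u1 u2
    change g' ≤ -(1 / 10 ^ 7 * R.ss (j + 1) t * mu (Γ.M (j + 1)) (Γ.M (j + 2))) *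
      (R.nr (j + 2) t ^ 2 / R.alf Γ (j + 1) t ^ 2 - 1 / 2) + _ + _ + _ at c4
    rw [e] at c4
    have h6 : R.rho Γ j a t * R.rr Γ j a / 2 * (9 / Γ.T (j + 1) ^ 16) * u ≤
        R.ss (j + 1) t * mu (Γ.M (j + 1)) (Γ.M (j + 2)) * u := by gcongr
    have h7 : 0 ≤ R.rho Γ j a t * R.rr Γ j a * u / (10 ^ 8 * Γ.T (j + 1) ^ 16) := by positivity
    have h8 : R.rho Γ j a t * R.rr Γ j a / 2 * (9 / Γ.T (j + 1) ^ 16) * u =
        45 * 10 ^ 7 * (R.rho Γ j a t * R.rr Γ j a * u / (10 ^ 8 * Γ.T (j + 1) ^ 16)) := by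
      field_simp
      ring
    rw [h8] at h6
    linarith only [h5, c4, h6, h7]

/-- The energy beyond level `j + 2` grows slowly. -/
lemma Estep (hν : 0 < ν) (N : IsNet Γ ν a0 R) (S : St Γ ν R j t0 a tb) (H : Run Γ R j t0 a t1)
    (ht : t ∈ Icc t0 t1) (hA : 0 < R.alf Γ (j + 1) t)
    (h1 : R.nr (j + 2) t ≤ Γ.T (j + 1) ^ 2 * R.alf Γ (j + 1) t)
    (h2 : R.E (j + 3) t = 2 * R.alf Γ (j + 1) t ^ 2) :
    ∃ D, HD (R.E (j + 3)) D t ∧ D ≤ R.rr Γ j a * R.alf Γ (j + 1) t ^ 2 := by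
  have hT := Γ.Tbig (j + 1)
  have T0 := pos hT
  have r0 := S.rr_pos N
  have l0 := Γ.lam_pos' (j + 2)
  have h0 : 0 ≤ t := S.t0_nonneg.trans ht.1
  have n0 := nr_nonneg R (j + 2) t
  have Nc := NN_pos (Γ.M (j + 2))
  obtain ⟨D, hD, k1⟩ := N.eqE (j + 2) t h0
  refine ⟨D, hD, k1.trans ?_⟩
  have k2 := nc_small N S H ht
  have k3 := nc_small' N S H ht
  have k4 : ‖R.B (j + 2) t‖ ≤ R.nr (j + 2) t := le_nr3_1 _ _ _
  have k5 := N.nrE (j + 3) t h0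
  have lb0 : 0 < 10 ^ 4 * Γ.lam (j + 2) := by positivity
  have k6 : 0 ≤ ν * Γ.lam (j + 2) ^ 2 * R.E (j + 3) t := by rw [h2]; positivity
  change -(ν * Γ.lam (j + 2) ^ 2) * R.E (j + 3) t + 10 ^ 4 * Γ.lam (j + 2) *
    (R.nr (j + 2) t ^ 2 * √(R.E (j + 3) t) +
      NN (Γ.M (j + 2)) * ‖R.B (j + 2) t‖ * R.nr (j + 3) t ^ 2) ≤ _
  generalize R.rr Γ j a = r at *
  generalize R.alf Γ (j + 1) t = A at *
  generalize R.nr (j + 2) t = x at *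
  generalize Γ.T (j + 1) = T at *
  generalize 10 ^ 4 * Γ.lam (j + 2) = lb at *
  have rA : 0 ≤ r * A ^ 2 := by positivity
  have e3 : √(R.E (j + 3) t) ≤ 2 * A := Real.sqrt_le_iff.2 ⟨by positivity, by nlinarith only [h2]⟩
  have e4 : lb * (x ^ 2 * √(R.E (j + 3) t)) ≤ 1 / 2 * (r * A ^ 2) / T ^ 0 := by
    calc _ = lb * x * (x * √(R.E (j + 3) t)) := by ring
      _ ≤ r / T ^ 100 * (T ^ 2 * A * (2 * A)) := by gcongr
      _ = 2 * (r * A ^ 2) / T ^ 98 := by field_simp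
      _ ≤ _ := div_pw_le hT rA (by norm_num) (by norm_num) (by norm_num)
  have e5 : lb * (NN (Γ.M (j + 2)) * ‖R.B (j + 2) t‖ * R.nr (j + 3) t ^ 2) ≤
      1 / 2 * (r * A ^ 2) / T ^ 0 := by
    have e6 : R.nr (j + 3) t ^ 2 ≤ 8 * A ^ 2 := by linarith only [k5, h2]
    calc _ ≤ lb * (NN (Γ.M (j + 2)) * x * (8 * A ^ 2)) := by gcongr
      _ = NN (Γ.M (j + 2)) * (lb * x) * (8 * A ^ 2) := by ring
      _ ≤ r / T ^ 100 * (8 * A ^ 2) := by gcongr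
      _ = 8 * (r * A ^ 2) / T ^ 100 := by ring
      _ ≤ _ := div_pw_le hT rA (by norm_num) (by norm_num) (by norm_num)
  rw [pow_zero, div_one] at e4 e5
  rw [mul_add lb]
  linarith only [k6, e4, e5]

end

end Pool.Agent.Work.MP_6bf1e5_an.Dec.P2
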