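import Pool.Agent.Work.MP_6bf1e5_an.Dec.Ode

/-!
Parseval identity and the ground state.
-/

open Set Complex MeasureTheory
open scoped InnerProductSpace ComplexConjugate
open Pool.Agent.Work.MP_6bf1e5_an.B (Z3 R3 box)

namespace Pool.Agent.Work.MP_6bf1e5_an.Dec

noncomputable section

lemma int_char (k : ℤ) : ∫ x in Icc (-Real.pi) Real.pi, Complex.exp (I * k * (x : ℝ)) =
    if k = 0 then ((2 * Real.pi : ℝ) : ℂ) else 0 := by
  rw [integral_Icc_eq_integral_Ioc, ← intervalIntegral.integral_of_le (by linarith [Real.pi_pos])]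
  split_ifs with hk
  · simp [hk, two_mul]
  · rw [integral_exp_mul_complex (mul_ne_zero I_ne_zero (by exact_mod_cast hk))]
    have : Complex.exp (I * k * (Real.pi : ℝ)) = Complex.exp (I * k * ((-Real.pi : ℝ) : ℂ)) := by
      rw [← mul_one (Complex.exp (I * k * ((-Real.pi : ℝ) : ℂ))),
        ← Complex.exp_int_mul_two_pi_mul_I k, ← Complex.exp_add]
      congr 1; push_cast; ring
    rw [this, sub_self, zero_div]

lemma cube_measure : (volume : Measure R3).restrict cube =
    Measure.pi fun _ => (volume : Measure ℝ).restrict (Icc (-Real.pi) Real.pi) := by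
  rw [cube, ← pi_univ_Icc, volume_pi, Measure.restrict_pi_pi]

lemma integrableOn_cube' {E : Type} [NormedAddCommGroup E] {g : R3 → E} (hg : Continuous g) :
    IntegrableOn g cube := hg.continuousOn.integrableOn_compact isCompact_Icc

lemma int_ev (g : V) : ∫ x in cube, ev x g = ((2 * Real.pi : ℝ) : ℂ) ^ 3 * g.coeff 0 := by
  induction g using AddMonoidAlgebra.induction_linear with
  | zero => simp
  | add f g hf hg =>
    simp only [map_add]
    rw [integral_add (integrableOn_cube' (continuous_ev f)) (integrableOn_cube' (continuous_ev g)),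
      hf, hg]
    simp [mul_add]
  | single h c =>
    have e : ∀ x : R3, ev x (AddMonoidAlgebra.single h c) =
        c * ∏ i, Complex.exp (I * h i * (x i : ℝ)) := fun x => by
      rw [ev_single, ← Complex.exp_sum, pr]
      push_cast
      rw [Finset.mul_sum]
      simp only [mul_assoc]
    simp only [e]
    rw [integral_const_mul, cube_measure,
      integral_fintype_prod_eq_prod (fun i (x : ℝ) => Complex.exp (I * h i * x))]
    simp only [int_char]
    by_cases hh : h = 0
    · simp [hh, mul_comm]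
    · obtain ⟨i, hi⟩ := Function.ne_iff.mp hh
      rw [Finset.prod_eq_zero (Finset.mem_univ i) (if_neg hi)]
      simp [hh]

theorem parseval (f : V) : ∫ x in cube, ‖ev x f‖ ^ 2 = (2 * Real.pi) ^ 3 * ‖f‖ ^ 2 := by
  have h := int_ev (dag f * f)
  rw [← inner_eq_coeff, inner_self_eq_norm_sq_to_K] at h
  simp only [map_mul, ev_dag, Complex.conj_mul'] at h
  have h2 : ∫ x in cube, ((‖ev x f‖ : ℂ)) ^ 2 = ((∫ x in cube, ‖ev x f‖ ^ 2 : ℝ) : ℂ) := by
    rw [← integral_complex_ofReal]; simp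
  rw [h2] at h
  refine Complex.ofReal_injective (h.trans ?_)
  simp

lemma integrableOn_cube {g : R3 → ℝ} (hg : Continuous g) : IntegrableOn g cube := by
  exact integrableOn_cube' hg

/-- A pointwise inequality between symbols gives an inequality between norms. -/
theorem normsq_le_of_symbol {ι κ : Type} (s : Finset ι) (s' : Finset κ) (f : ι → V) (g : κ → V)
    (a : ι → ℝ) (b : κ → ℝ)
    (H : ∀ x ∈ cube, ∑ i ∈ s, a i * ‖ev x (f i)‖ ^ 2 ≤ ∑ i ∈ s', b i * ‖ev x (g i)‖ ^ 2) :
    ∑ i ∈ s, a i * ‖f i‖ ^ 2 ≤ ∑ i ∈ s', b i * ‖g i‖ ^ 2 := by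
  have c : ∀ f : V, Continuous fun x : R3 => ‖ev x f‖ ^ 2 := fun f => (continuous_ev f).norm.pow 2
  have key : ∀ {ι : Type} (s : Finset ι) (f : ι → V) (a : ι → ℝ),
      ∫ x in cube, ∑ i ∈ s, a i * ‖ev x (f i)‖ ^ 2 =
        (2 * Real.pi) ^ 3 * ∑ i ∈ s, a i * ‖f i‖ ^ 2 := fun s f a => by
    rw [integral_finsetSum _ fun i _ => integrableOn_cube ((c _).const_mul (a i)),
      Finset.mul_sum]
    exact Finset.sum_congr rfl fun i _ => by rw [integral_const_mul, parseval]; ring
  have := setIntegral_mono_on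
    (integrableOn_cube (continuous_finsetSum s fun i _ => (c (f i)).const_mul (a i)))
    (integrableOn_cube (continuous_finsetSum s' fun i _ => (c (g i)).const_mul (b i)))
    measurableSet_Icc H
  rw [key, key] at this
  exact le_of_mul_le_mul_left this (by have := Real.pi_pos; positivity)

theorem norm_mul_le_of_symbol {p : V} {c : ℝ} (hc : 0 ≤ c) (H : ∀ x ∈ cube, ‖ev x p‖ ≤ c) (f : V) :
    ‖p * f‖ ≤ c * ‖f‖ := by
  have := normsq_le_of_symbol (ι := Unit) (κ := Unit) {()} {()} (fun _ => p * f) (fun _ => f)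
    (fun _ => 1) (fun _ => c ^ 2) fun x hx => by
      simp only [Finset.sum_singleton, one_mul, map_mul, norm_mul, mul_pow]
      gcongr
      exact H x hx
  simp only [Finset.sum_singleton, one_mul] at this
  exact (pow_le_pow_iff_left₀ (norm_nonneg _) (by positivity) two_ne_zero).mp (by rwa [mul_pow])

lemma sq3_nonneg (x : R3) : 0 ≤ sq3 x := Finset.sum_nonneg fun _ _ => sq_nonneg _

lemma Drv.ev_le {m : ℕ} {p : V} (h : Drv m p) {x : R3} (hx : x ∈ cube) : ‖ev x p‖ ≤ 1 := by
  have h1 := h.far x hx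
  have h2 : 0 ≤ min 1 (((m : ℝ) + 1) ^ 2 * sq3 x) :=
    le_min zero_le_one (mul_nonneg (sq_nonneg _) (sq3_nonneg x))
  exact (sq_le_one_iff₀ (norm_nonneg _)).mp (by linarith)

lemma Drv.norm_mul_le {m : ℕ} {p : V} (h : Drv m p) (f : V) : ‖p * f‖ ≤ ‖f‖ := by
  simpa using norm_mul_le_of_symbol zero_le_one (fun x hx => h.ev_le hx) f

/-- Nash type inequality: the loss is large unless the mass sits at small `x`. -/
theorem Drv.nash {m : ℕ} {p : V} (h : Drv m p) {ω S : ℝ} (h0 : 0 < ω) (h1 : ω ≤ 1) (y : V)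
    (hS : ∀ x ∈ cube, ‖ev x y‖ ≤ S) :
    1 / 10 ^ 6 * ω * (‖y‖ ^ 2 - √ω ^ 3 / (m + 1) ^ 3 * S ^ 2 / 30) ≤ Qf p y := by
  set r := √ω / (m + 1) with hr
  have r0 : 0 ≤ r := by positivity
  set K : Set R3 := Icc (fun _ => -r) (fun _ => r) with hK
  have c : ∀ f : V, Continuous fun x : R3 => ‖ev x f‖ ^ 2 := fun f => (continuous_ev f).norm.pow 2
  have iK : IntegrableOn (K.indicator fun _ => S ^ 2) cube :=
    (integrableOn_cube continuous_const).indicator measurableSet_Icc
  have h2 : ∫ x in cube, K.indicator (fun _ => S ^ 2) x ≤ (2 * r) ^ 3 * S ^ 2 := by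
    refine le_trans (setIntegral_le_integral ?_ (Filter.Eventually.of_forall fun x =>
      indicator_nonneg (fun _ _ => sq_nonneg _) x)) ?_
    · exact (integrable_indicator_iff measurableSet_Icc).mpr
        (continuous_const.continuousOn.integrableOn_compact isCompact_Icc)
    · rw [integral_indicator measurableSet_Icc, setIntegral_const, smul_eq_mul, Measure.real,
        Real.volume_Icc_pi_toReal fun _ => by simpa using r0]
      simp [two_mul]
  have h3 := setIntegral_mono_on (f := fun x => ‖ev x (p * y)‖ ^ 2 + 1 / 10 ^ 6 * ω * ‖ev x y‖ ^ 2)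
    (g := fun x => ‖ev x y‖ ^ 2 + 1 / 10 ^ 6 * ω * K.indicator (fun _ => S ^ 2) x)
    (integrableOn_cube ((c (p * y)).fun_add (continuous_const.fun_mul (c y))))
    ((integrableOn_cube (c y)).fun_add (iK.const_mul _)) measurableSet_Icc fun x hx => by
      have f1 := h.far x hx
      have y0 := sq_nonneg ‖ev x y‖
      simp only [map_mul, norm_mul, mul_pow]
      by_cases xK : x ∈ K
      · rw [indicator_of_mem xK]
        have : ‖ev x p‖ ^ 2 ≤ 1 := (sq_le_one_iff₀ (norm_nonneg _)).mpr (h.ev_le hx)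
        have : ‖ev x y‖ ^ 2 ≤ S ^ 2 := by gcongr; exact hS x hx
        nlinarith
      · rw [indicator_of_notMem xK]
        have : ω ≤ min 1 (((m : ℝ) + 1) ^ 2 * sq3 x) := by
          refine le_min h1 ?_
          obtain ⟨i, hi⟩ : ∃ i, r < |x i| := by
            by_contra hn
            push Not at hn
            exact xK ⟨fun i => (abs_le.mp (hn i)).1, fun i => (abs_le.mp (hn i)).2⟩
          have a1 : x i ^ 2 ≤ sq3 x :=
            Finset.single_le_sum (f := fun i => x i ^ 2) (fun _ _ => sq_nonneg _) (Finset.mem_univ i)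
          have a2 : r ^ 2 ≤ x i ^ 2 := by rw [← sq_abs (x i)]; gcongr
          have a3 : ((m : ℝ) + 1) ^ 2 * r ^ 2 = ω := by
            rw [hr, div_pow, Real.sq_sqrt h0.le]; field_simp
          rw [← a3]; gcongr; linarith only [a1, a2]
        nlinarith only [f1, this]
  rw [integral_add (integrableOn_cube (c _)) (integrableOn_cube ((c _).const_mul _)),
    integral_add (integrableOn_cube (c _)) (iK.const_mul _), integral_const_mul, integral_const_mul,
    parseval, parseval] at h3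
  have pi3 : 240 ≤ (2 * Real.pi) ^ 3 := by
    calc (240 : ℝ) ≤ (2 * 3.14) ^ 3 := by norm_num
      _ ≤ _ := by gcongr; exact Real.pi_gt_d2.le
  have e : √ω ^ 3 / (m + 1) ^ 3 = r ^ 3 := by rw [hr, div_pow]
  rw [e, Qf]
  have h4 : 1 / 10 ^ 6 * ω * ((2 * r) ^ 3 * S ^ 2) ≤
      (2 * Real.pi) ^ 3 * (1 / 10 ^ 6 * ω * (r ^ 3 * S ^ 2 / 30)) := by
    have : 0 ≤ 1 / 10 ^ 6 * ω * (r ^ 3 * S ^ 2 / 30) := by positivity
    nlinarith only [pi3, this]
  have h5 := mul_le_mul_of_nonneg_left h2 (by positivity : 0 ≤ 1 / 10 ^ 6 * ω)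
  refine le_of_mul_le_mul_left ?_ (by linarith only [pi3] : 0 < (2 * Real.pi) ^ 3)
  linarith

lemma th_pos (n : ℕ) : 0 < th n := by
  unfold th; have := Real.pi_pos; positivity

lemma th_mul (n : ℕ) : th n * (n + 1) = Real.pi / 2 := by
  unfold th; field_simp

lemma th_le (n : ℕ) : th n ≤ Real.pi / 2 := by
  rw [← th_mul n]
  nlinarith [th_pos n, (Nat.cast_nonneg n : (0 : ℝ) ≤ n)]

lemma corner_mem_cube {n : ℕ} {x : R3} (hx : ∀ i, |x i| = th n) : x ∈ cube := by
  have := th_le n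
  have := Real.pi_pos
  exact ⟨fun i => by linarith [neg_abs_le (x i), hx i], fun i => by linarith [le_abs_self (x i), hx i]⟩

lemma coeff_phi (n : ℕ) (h : Z3) : (phi n).coeff h =
    if h ∈ box n then (((NN n)⁻¹ * ∏ i, Real.cos (th n * h i) : ℝ) : ℂ) else 0 := coeff_mk _ _ _

lemma supp_phi (n : ℕ) : Supp n (phi n) := supp_mk _ _

lemma cos_th_nonneg {n : ℕ} {k : ℤ} (hk : |k| ≤ n + 1) : 0 ≤ Real.cos (th n * k) := by
  have h1 : |(k : ℝ)| ≤ n + 1 := by exact_mod_cast hk
  have h2 : |th n * k| ≤ Real.pi / 2 := by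
    rw [abs_mul, abs_of_pos (th_pos n), ← th_mul n]
    exact mul_le_mul_of_nonneg_left h1 (th_pos n).le
  exact Real.cos_nonneg_of_neg_pi_div_two_le_of_le (abs_le.mp h2).1 (abs_le.mp h2).2

lemma norm_coeff_phi_le (n : ℕ) (h : Z3) : ‖(phi n).coeff h‖ ≤ (NN n)⁻¹ := by
  have := NN_pos n
  rw [coeff_phi]
  split_ifs
  · rw [Complex.norm_real, norm_mul, Real.norm_of_nonneg (by positivity), norm_prod]
    exact mul_le_of_le_one_right (by positivity)
      (Finset.prod_le_one (fun _ _ => norm_nonneg _) fun _ _ => Real.abs_cos_le_one _)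
  · simp; positivity

lemma sum_Icc_succ (g : ℤ → ℝ) (n : ℕ) : ∑ k ∈ Finset.Icc (-((n + 1 : ℕ) : ℤ)) (n + 1 : ℕ), g k =
    ∑ k ∈ Finset.Icc (-(n : ℤ)) n, g k + (g (-(n + 1)) + g (n + 1)) := by
  have : Finset.Icc (-((n + 1 : ℕ) : ℤ)) (n + 1 : ℕ) =
      insert (-(n + 1 : ℤ)) (insert (n + 1 : ℤ) (Finset.Icc (-(n : ℤ)) n)) := by
    ext k; simp only [Finset.mem_Icc, Finset.mem_insert]; omega
  rw [this, Finset.sum_insert (by simp only [Finset.mem_Icc, Finset.mem_insert]; omega),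
    Finset.sum_insert (by simp only [Finset.mem_Icc]; omega)]
  ring

lemma dirichlet (a : ℝ) (n : ℕ) : Real.sin a * ∑ k ∈ Finset.Icc (-(n : ℤ)) n, Real.cos (2 * a * k) =
    Real.sin ((2 * n + 1) * a) := by
  induction n with
  | zero => simp
  | succ n ih =>
    rw [sum_Icc_succ, mul_add, ih]
    push_cast
    rw [mul_neg, Real.cos_neg, show (2 * ((n : ℝ) + 1) + 1) * a = 2 * a * (n + 1) + a by ring,
      show (2 * (n : ℝ) + 1) * a = 2 * a * (n + 1) - a by ring, Real.sin_add, Real.sin_sub]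
    ring

lemma sum_cos_sq (n : ℕ) : ∑ k ∈ Finset.Icc (-(n : ℤ)) n, Real.cos (th n * k) ^ 2 = n + 1 := by
  have h := dirichlet (th n) n
  have s0 : 0 < Real.sin (th n) :=
    Real.sin_pos_of_pos_of_lt_pi (th_pos n) (by linarith [th_le n, Real.pi_pos])
  rw [show (2 * (n : ℝ) + 1) * th n = Real.pi - th n by linarith only [th_mul n], Real.sin_pi_sub] at h
  have h1 : ∑ k ∈ Finset.Icc (-(n : ℤ)) n, Real.cos (2 * th n * k) = 1 :=
    mul_left_cancel₀ s0.ne' (by rw [h, mul_one])
  simp only [Real.cos_sq, ← mul_assoc, Finset.sum_add_distrib, ← Finset.sum_div, h1]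
  simp only [Finset.sum_const, Int.card_Icc, nsmul_eq_mul]
  rw [show ((n : ℤ) + 1 - -(n : ℤ)).toNat = 2 * n + 1 by omega]
  push_cast; ring

lemma norm_phi (n : ℕ) : ‖phi n‖ = 1 := by
  refine (pow_left_inj₀ (norm_nonneg _) zero_le_one two_ne_zero).mp ?_
  rw [norm_sq_eq (supp_phi n).subset]
  have : ∀ h ∈ box n, ‖(phi n).coeff h‖ ^ 2 = (NN n ^ 2)⁻¹ * ∏ i, Real.cos (th n * h i) ^ 2 :=
    fun h hh => by
      rw [coeff_phi, if_pos hh, Complex.norm_real, Real.norm_eq_abs, sq_abs, mul_pow,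
        Finset.prod_pow, inv_pow]
  rw [Finset.sum_congr rfl this, ← Finset.mul_sum, B.box,
    ← Finset.prod_univ_sum (fun _ => Finset.Icc (-(n : ℤ)) n)
      (fun _ k => Real.cos (th n * k) ^ 2)]
  simp only [sum_cos_sq, Finset.prod_const, Finset.card_univ, Fintype.card_fin, NN_sq]
  field_simp

lemma dag_phi (n : ℕ) : dag (phi n) = phi n := by
  ext h
  simp only [coeff_dag, coeff_phi, neg_mem_box]
  split_ifs
  · rw [Complex.conj_ofReal]; simp
  · simp

lemma sw_phi (n : ℕ) : sw (phi n) = phi n := by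
  ext h
  simp only [coeff_sw, coeff_phi, swE_mem_box]
  split_ifs
  · simp only [swE_apply, Fin.prod_univ_three, Matrix.cons_val]; congr 2; ring
  · rfl

lemma sym_phi (n : ℕ) : Sym (phi n) := by
  refine ⟨fun h => ?_, fun h => ?_⟩
  · simp only [coeff_phi, rxE_mem_box]
    split_ifs
    · simp [rxE_apply, Fin.prod_univ_three]
    · rfl
  · simp only [coeff_phi, mzE_mem_box]
    split_ifs
    · rw [Complex.conj_ofReal]; simp [mzE_apply, Fin.prod_univ_three]
    · simp

lemma coeff_phi_eq_norm (n : ℕ) (h : Z3) : (phi n).coeff h = (‖(phi n).coeff h‖ : ℂ) := by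
  rw [coeff_phi]
  split_ifs with hh
  · rw [Complex.norm_real, Real.norm_of_nonneg]
    exact mul_nonneg (inv_pos.mpr (NN_pos n)).le (Finset.prod_nonneg fun i _ =>
      cos_th_nonneg ((mem_box'.mp hh i).trans (by omega)))
  · simp

lemma ev_zero_phi (n : ℕ) : ev 0 (phi n) = (l1 (phi n) : ℂ) := by
  rw [ev_zero_eq (subset_refl _), l1]
  push_cast
  exact Finset.sum_congr rfl fun h _ => coeff_phi_eq_norm n h

lemma le_l1_phi (n : ℕ) : NN n ≤ l1 (phi n) := by
  have h1 : 1 ≤ (NN n)⁻¹ * l1 (phi n) := by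
    have := norm_inner_le_l1 (g := phi n) (norm_coeff_phi_le n)
    rw [inner_self_eq_norm_sq_to_K, norm_phi] at this
    simpa using this
  have := NN_pos n
  rwa [inv_mul_eq_div, le_div_iff₀ this, one_mul] at h1

lemma l1_phi_le (n : ℕ) : l1 (phi n) ≤ 3 * NN n := by
  simpa [norm_phi] using (supp_phi n).l1_le

lemma Sym.inner_phi_im {n : ℕ} {f : V} (h : Sym f) : (⟪phi n, f⟫_ℂ).im = 0 := by
  have e : prm mzE (phi n) = phi n := by
    ext k
    rw [coeff_prm, (sym_phi n).2, coeff_phi_eq_norm, Complex.conj_ofReal]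
  have h1 := inner_prm mzE (phi n) f
  rw [e] at h1
  refine Complex.conj_eq_iff_im.mp ?_
  conv_rhs => rw [← h1]
  rw [inner_eq _ (subset_refl _), inner_eq _ (subset_refl _), map_sum]
  refine Finset.sum_congr rfl fun k _ => ?_
  rw [coeff_prm, h.2, map_mul, coeff_phi_eq_norm]
  simp

lemma Sym.ev_zero_im {f : V} (h : Sym f) : (ev 0 f).im = 0 := by
  refine Complex.conj_eq_iff_im.mp ?_
  conv_rhs => rw [← ev_zero_prm mzE f]
  rw [ev_zero_eq (f := prm mzE f) (s := f.coeff.support) fun k hk => by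
    simpa [h.2] using hk, ev_zero_eq (subset_refl _), map_sum]
  exact Finset.sum_congr rfl fun k _ => by rw [coeff_prm, h.2]

lemma abs_prod3_sub {a b : Fin 3 → ℝ} (ha : ∀ i, |a i| ≤ 1) (hb : ∀ i, |b i| ≤ 1) :
    |∏ i, a i - ∏ i, b i| ≤ ∑ i, |a i - b i| := by
  simp only [Fin.prod_univ_three, Fin.sum_univ_three]
  have e : a 0 * a 1 * a 2 - b 0 * b 1 * b 2 =
      (a 0 - b 0) * (a 1 * a 2) + (a 1 - b 1) * (b 0 * a 2) + (a 2 - b 2) * (b 0 * b 1) := by ring
  have k : ∀ x u v : ℝ, |u| ≤ 1 → |v| ≤ 1 → |x * (u * v)| ≤ |x| := fun x u v hu hv => by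
    rw [abs_mul, abs_mul]
    exact mul_le_of_le_one_right (abs_nonneg _) (mul_le_one₀ hu (abs_nonneg _) hv)
  rw [e]
  exact (abs_add_three _ _ _).trans (add_le_add (add_le_add (k _ _ _ (ha 1) (ha 2))
    (k _ _ _ (hb 0) (ha 2))) (k _ _ _ (hb 0) (hb 1)))

/-- The profile extended by zero. -/
def cb (n : ℕ) (k : ℤ) : ℝ := Real.cos (th n * max (-(n + 1 : ℝ)) (min (k : ℝ) (n + 1)))

lemma cb_of_le {n : ℕ} {k : ℤ} (hk : |k| ≤ n) : cb n k = Real.cos (th n * k) := by
  have : |(k : ℝ)| ≤ n := by exact_mod_cast hk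
  rw [cb, min_eq_left (by linarith [le_abs_self (k : ℝ)]),
    max_eq_right (by linarith [neg_abs_le (k : ℝ)])]

lemma cb_of_gt {n : ℕ} {k : ℤ} (hk : ¬|k| ≤ n) : cb n k = 0 := by
  have n0 : (0 : ℝ) ≤ n := Nat.cast_nonneg n
  rw [abs_le] at hk
  rcases (by omega : (n : ℤ) + 1 ≤ k ∨ k ≤ -(n + 1)) with h | h
  · have : (n : ℝ) + 1 ≤ k := by exact_mod_cast h
    rw [cb, min_eq_right this, max_eq_right (by linarith), th_mul, Real.cos_pi_div_two]
  · have : (k : ℝ) ≤ -(n + 1) := by exact_mod_cast h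
    rw [cb, min_eq_left (by linarith only [this]), max_eq_left this, mul_neg, Real.cos_neg, th_mul,
      Real.cos_pi_div_two]

lemma cb_lip (n : ℕ) (a b : ℤ) : |cb n a - cb n b| ≤ th n * |(a : ℝ) - b| := by
  refine (Real.abs_cos_sub_cos_le _ _).trans ?_
  rw [← mul_sub, abs_mul, abs_of_pos (th_pos n)]
  refine mul_le_mul_of_nonneg_left ?_ (th_pos n).le
  refine (abs_max_sub_max_le_max _ _ _ _).trans (max_le (by simp) ?_)
  exact (abs_min_sub_min_le_max _ _ _ _).trans (max_le le_rfl (by simp))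

lemma coeff_phi' (n : ℕ) (h : Z3) : (phi n).coeff h = (((NN n)⁻¹ * ∏ i, cb n (h i) : ℝ) : ℂ) := by
  rw [coeff_phi]
  split_ifs with hh
  · simp only [cb_of_le (mem_box'.mp hh _)]
  · obtain ⟨i, hi⟩ : ∃ i, ¬|h i| ≤ n := by simpa [mem_box'] using hh
    rw [Finset.prod_eq_zero (Finset.mem_univ i) (cb_of_gt hi)]; simp

lemma NN_two_mul (n : ℕ) : NN (n + n) ≤ 3 * NN n := by
  refine Real.sqrt_le_iff.mpr ⟨by have := NN_pos n; positivity, ?_⟩
  rw [mul_pow, NN_sq]
  push_cast
  have : (0 : ℝ) ≤ n := Nat.cast_nonneg n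
  calc ((n : ℝ) + n + 1) ^ 3 ≤ (2 * (n + 1)) ^ 3 := by gcongr; linarith
    _ ≤ _ := by linarith [pow_nonneg (by linarith : (0 : ℝ) ≤ n + 1) 3]

lemma norm_shift_phi {m n : ℕ} (hmn : m ≤ n) {k : Z3} (hk : k ∈ box m) :
    ‖AddMonoidAlgebra.single k 1 * phi n - phi n‖ ≤ 30 * ((m + 1) * th n) := by
  have hs : Supp (n + n) (AddMonoidAlgebra.single k 1 * phi n - phi n) :=
    (((supp_single hk 1).mul (supp_phi n)).mono (by omega)).sub ((supp_phi n).mono (by omega))
  have N0 := NN_pos n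
  have t0 := th_pos n
  have := hs.norm_le (c := (NN n)⁻¹ * (3 * (m * th n))) (by positivity) fun h => by
    rw [AddMonoidAlgebra.coeff_sub, Finsupp.sub_apply, coeff_single_mul, one_mul, coeff_phi',
      coeff_phi', ← Complex.ofReal_sub, Complex.norm_real, ← mul_sub, norm_mul,
      Real.norm_of_nonneg (by positivity)]
    gcongr
    refine (abs_prod3_sub (fun _ => Real.abs_cos_le_one _) fun _ => Real.abs_cos_le_one _).trans ?_
    calc ∑ i, |cb n ((h - k) i) - cb n (h i)| ≤ ∑ _i : Fin 3, m * th n :=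
          Finset.sum_le_sum fun i _ => (cb_lip _ _ _).trans (by
            have : |(k i : ℝ)| ≤ m := by exact_mod_cast mem_box'.mp hk i
            simp only [Pi.sub_apply, Int.cast_sub, sub_sub_cancel_left, abs_neg]
            nlinarith only [t0, this])
      _ = _ := by simp
  refine this.trans ?_
  calc 3 * NN (n + n) * ((NN n)⁻¹ * (3 * (m * th n)))
      ≤ 3 * (3 * NN n) * ((NN n)⁻¹ * (3 * (m * th n))) := by gcongr; exact NN_two_mul n
    _ = 27 * (m * th n) := by field_simp; ring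
    _ ≤ _ := by nlinarith only [t0, (Nat.cast_nonneg m : (0 : ℝ) ≤ m)]

/-- Convolution of the ground state with a kernel. -/
lemma norm_mul_phi_sub {m n : ℕ} (hmn : m ≤ n) {q : V} (hq : Supp m q) :
    ‖q * phi n - ev 0 q • phi n‖ ≤ l1 q * (30 * ((m + 1) * th n)) := by
  rw [mul_eq_sum, ev_zero_eq (subset_refl _), Finset.sum_smul, ← Finset.sum_sub_distrib, l1,
    Finset.sum_mul]
  refine (norm_sum_le _ _).trans (Finset.sum_le_sum fun k hk => ?_)
  rw [← smul_sub, norm_smul]
  gcongr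
  exact norm_shift_phi hmn (hq.subset hk)

/-- The product with the ground state is an average of values at the eight points
with coordinates `± th n`, up to the tail outside the box. -/
lemma norm_inner_phi_le {n : ℕ} (z : V) {S : ℝ}
    (hS : ∀ x : R3, (∀ i, |x i| = th n) → ‖ev x z‖ ≤ S) :
    ‖⟪phi n, z⟫_ℂ‖ ≤ (NN n)⁻¹ * (S + l1 (z - proj n z)) := by
  classical
  have t0 := th_pos n
  have N0 := NN_pos n
  set C : Finset R3 := Fintype.piFinset fun _ => ({th n, -th n} : Finset ℝ) with hC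
  have ne : th n ≠ -th n := by linarith
  have card : C.card = 8 := by simp [hC, Finset.card_pair ne]
  have pc : ∀ h : Z3, ((∏ i, Real.cos (th n * h i) : ℝ) : ℂ) =
      8⁻¹ * ∑ x ∈ C, Complex.exp (I * (pr h x : ℝ)) := fun h => by
    have : ∀ x : R3, Complex.exp (I * (pr h x : ℝ)) = ∏ i, Complex.exp (I * (h i * x i : ℝ)) :=
      fun x => by rw [← Complex.exp_sum, pr]; push_cast; rw [Finset.mul_sum]
    simp only [this]
    rw [hC, ← Finset.prod_univ_sum (fun _ => ({th n, -th n} : Finset ℝ))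
      (fun i (x : ℝ) => Complex.exp (I * (h i * x : ℝ)))]
    simp only [Finset.sum_pair ne, Fin.prod_univ_three]
    push_cast
    simp only [Complex.cos]
    ring_nf
  have e : ⟪phi n, z⟫_ℂ = ((NN n)⁻¹ : ℝ) * (8⁻¹ * ∑ x ∈ C, ev x (proj n z)) := by
    rw [inner_eq _ (supp_phi n).subset]
    simp only [ev_eq _ (supp_proj n z).subset]
    rw [Finset.sum_comm, Finset.mul_sum, Finset.mul_sum]
    refine Finset.sum_congr rfl fun h hh => ?_
    rw [coeff_phi, if_pos hh, Complex.conj_ofReal, Complex.ofReal_mul, pc, coeff_proj, if_pos hh,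
      ← Finset.mul_sum]
    ring
  rw [e, norm_mul, Complex.norm_real, Real.norm_of_nonneg (by positivity), norm_mul]
  gcongr
  have : ∀ x ∈ C, ‖ev x (proj n z)‖ ≤ S + l1 (z - proj n z) := fun x hx => by
    rw [show proj n z = z - (z - proj n z) by abel, map_sub]
    refine (norm_sub_le _ _).trans (add_le_add (hS x fun i => ?_) ?_)
    · have := Fintype.mem_piFinset.mp hx i
      simp only [Finset.mem_insert, Finset.mem_singleton] at this
      rcases this with h | h <;> simp [h, abs_of_pos t0]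
    · simpa using norm_ev_le x (z - proj n z)
  have h2 := (norm_sum_le _ _).trans (Finset.sum_le_card_nsmul C _ _ this)
  rw [card, nsmul_eq_mul] at h2
  have : ‖(8 : ℂ)⁻¹‖ = 8⁻¹ := by simp
  rw [this]
  push_cast at h2
  linarith only [h2]

lemma norm_inner_phi_sub {m n : ℕ} (hmn : m ≤ n) {q : V} (hq : Supp m q) :
    ‖⟪phi n, q⟫_ℂ - ((NN n)⁻¹ : ℝ) * ev 0 q‖ ≤ (NN n)⁻¹ * (l1 q * (3 * ((m + 1) * th n))) := by
  have t0 := th_pos n
  have N0 := NN_pos n
  rw [inner_eq' _ hq.subset, ev_zero_eq hq.subset, Finset.mul_sum, ← Finset.sum_sub_distrib,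
    l1_eq hq.subset, Finset.sum_mul, Finset.mul_sum]
  refine (norm_sum_le _ _).trans (Finset.sum_le_sum fun h hh => ?_)
  rw [← sub_mul, coeff_phi, if_pos (box_mono hmn hh), Complex.conj_ofReal, ← Complex.ofReal_sub,
    norm_mul, Complex.norm_real, ← mul_sub_one, norm_mul, Real.norm_of_nonneg (by positivity),
    mul_assoc, mul_comm ‖q.coeff h‖]
  gcongr
  have := abs_prod3_sub (a := fun i => Real.cos (th n * h i)) (b := fun _ => Real.cos 0)
    (fun _ => Real.abs_cos_le_one _) fun _ => Real.abs_cos_le_one _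
  simp only [Real.cos_zero, Finset.prod_const_one] at this
  refine this.trans ?_
  calc ∑ i, |Real.cos (th n * h i) - 1| ≤ ∑ _i : Fin 3, (m + 1) * th n :=
        Finset.sum_le_sum fun i _ => by
          have h1 := Real.abs_cos_sub_cos_le (th n * h i) 0
          have : |(h i : ℝ)| ≤ m := by exact_mod_cast mem_box'.mp hh i
          rw [Real.cos_zero, sub_zero, abs_mul, abs_of_pos t0] at h1
          nlinarith only [t0, h1, this]
    _ = _ := by simp

end

end Pool.Agent.Work.MP_6bf1e5_an.Dec
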