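import Pool.Agent.Work.MP_6bf1e5_an.Dec.Amp

/-!
Bounds for the remainders in the amplitude equations.
-/

open Set Complex
open scoped InnerProductSpace ComplexConjugate
open Pool.Agent.Work.MP_6bf1e5_an.B

namespace Pool.Agent.Work.MP_6bf1e5_an.Dec

noncomputable section

variable {Γ : Geo} {a : Z3 → C3}

lemma norm_tsum_le_of_sum {E : Type*} [NormedAddCommGroup E] {f : Z3 → E} {c : ℝ}
    (h : ∀ G : Finset Z3, ∑ k ∈ G, ‖f k‖ ≤ c) : ‖∑' k, f k‖ ≤ c :=
  have s := summable_of_sum_le (fun _ => norm_nonneg _) h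
  (norm_tsum_le_tsum_norm s).trans (s.tsum_le_of_sum_le h)

/-- The size of the modes in `W`. -/
def nb (a : Z3 → C3) (W : Set Z3) (k : Z3) : ℝ := W.indicator (fun k => ‖a k‖) k

lemma nb_nonneg (a : Z3 → C3) (W : Set Z3) (k : Z3) : 0 ≤ nb a W k :=
  Set.indicator_nonneg (fun _ _ => norm_nonneg _) k

lemma nb_mem {W : Set Z3} {k : Z3} (h : k ∈ W) : nb a W k = ‖a k‖ := Set.indicator_of_mem h _

lemma nb_not {W : Set Z3} {k : Z3} (h : k ∉ W) : nb a W k = 0 := Set.indicator_of_notMem h _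

lemma sum_nb_sq {W : Set Z3} {X : ℝ}
    (hX : ∀ F : Finset Z3, (∀ k ∈ F, k ∈ W) → ∑ k ∈ F, ‖a k‖ ^ 2 ≤ X) (G : Finset Z3)
    {p : Z3 → Z3} (hp : Function.Injective p) : ∑ h ∈ G, nb a W (p h) ^ 2 ≤ X := by
  classical
  rw [← Finset.sum_image (f := fun k => nb a W k ^ 2) fun _ _ _ _ h => hp h]
  refine le_trans (le_of_eq ?_) (hX ((G.image p).filter (· ∈ W)) fun k hk =>
    (Finset.mem_filter.mp hk).2)
  rw [Finset.sum_filter]
  refine Finset.sum_congr rfl fun k _ => ?_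
  split_ifs with hk
  · rw [nb_mem hk]
  · rw [nb_not hk]; simp

lemma sum_nb_fin (Y G : Finset Z3) {g : Z3 → ℝ} (hg : ∀ k, 0 ≤ g k) {p : Z3 → Z3}
    (hp : Function.Injective p) :
    ∑ k ∈ G, nb a Y (p k) * g (p k) ≤ ∑ y ∈ Y, ‖a y‖ * g y := by
  classical
  rw [← Finset.sum_image (f := fun k => nb a Y k * g k) fun _ _ _ _ h => hp h]
  calc ∑ k ∈ G.image p, nb a Y k * g k = ∑ k ∈ (G.image p).filter (· ∈ Y), ‖a k‖ * g k := by
        rw [Finset.sum_filter]
        refine Finset.sum_congr rfl fun k _ => ?_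
        split_ifs with hk
        · rw [nb_mem (Finset.mem_coe.mpr hk)]
        · rw [nb_not (fun h => hk (Finset.mem_coe.mp h)), zero_mul]
    _ ≤ _ := Finset.sum_le_sum_of_subset_of_nonneg (fun k hk => (Finset.mem_filter.mp hk).2)
        fun k _ _ => mul_nonneg (norm_nonneg _) (hg k)

/-- The remainder at frequency `r`: pairs inside `U`, or a point of `Y` with a mode of `W`. -/
lemma Adm.rest_le (H : Adm Γ a) {r : Z3} {P : Z3 → Prop} [DecidablePred P] {U W : Set Z3}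
    {Y : Finset Z3} {c X : ℝ} (hc : ax r ≤ c)
    (hU : ∀ F : Finset Z3, (∀ k ∈ F, k ∈ U) → ∑ k ∈ F, ‖a k‖ ^ 2 ≤ X)
    (hcase : ∀ k, P k → a k ≠ 0 → a (r - k) ≠ 0 →
      (k ∈ U ∧ r - k ∈ U) ∨ (k ∈ Y ∧ r - k ∈ W) ∨ (r - k ∈ Y ∧ k ∈ W)) :
    ‖∑' k, if P k then (I * dt (a k) (r - k)) • a (r - k) else 0‖ ≤
      c * (X + 2 * ∑ y ∈ Y, ‖a y‖ * nb a W (r - y)) := by
  have c0 : 0 ≤ c := (ax_nonneg r).trans hc
  refine norm_tsum_le_of_sum fun G => ?_
  have pt : ∀ k, ‖if P k then (I * dt (a k) (r - k)) • a (r - k) else 0‖ ≤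
      c * ((nb a U k ^ 2 + nb a U (r - k) ^ 2) / 2 + (nb a Y k * nb a W (r - k) +
        nb a Y (r - k) * nb a W (r - (r - k)))) := by
    intro k
    have n1 := mul_nonneg (nb_nonneg a Y k) (nb_nonneg a W (r - k))
    have n2 := mul_nonneg (nb_nonneg a Y (r - k)) (nb_nonneg a W (r - (r - k)))
    have n3 : 0 ≤ (nb a U k ^ 2 + nb a U (r - k) ^ 2) / 2 := by positivity
    by_cases hP : P k
    swap
    · rw [if_neg hP, norm_zero]; positivity
    rw [if_pos hP]
    by_cases h1 : a k = 0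
    · rw [h1]; simp only [dt, inner_zero_right, mul_zero, zero_smul, norm_zero]; positivity
    by_cases h2 : a (r - k) = 0
    · rw [h2, smul_zero, norm_zero]; positivity
    have t := H.term_le k (r - k)
    rw [add_sub_cancel] at t
    have t2 : ‖(I * dt (a k) (r - k)) • a (r - k)‖ ≤ c * (‖a k‖ * ‖a (r - k)‖) := by
      rw [mul_comm c]
      exact t.trans (mul_le_mul_of_nonneg_left ((min_le_right _ _).trans hc) (by positivity))
    refine t2.trans (mul_le_mul_of_nonneg_left ?_ c0)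
    rcases hcase k hP h1 h2 with ⟨u, v⟩ | ⟨u, v⟩ | ⟨u, v⟩
    · rw [nb_mem u, nb_mem v]
      linarith only [n1, n2, sq_nonneg (‖a k‖ - ‖a (r - k)‖)]
    · rw [nb_mem (Finset.mem_coe.mpr u), nb_mem v]; linarith only [n2, n3]
    · rw [nb_mem (Finset.mem_coe.mpr u), sub_sub_cancel, nb_mem v]; linarith
  refine (Finset.sum_le_sum fun k _ => pt k).trans ?_
  rw [← Finset.mul_sum, Finset.sum_add_distrib, Finset.sum_add_distrib, ← Finset.sum_div,
    Finset.sum_add_distrib]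
  refine mul_le_mul_of_nonneg_left ?_ c0
  have s1 := sum_nb_sq hU G Function.injective_id
  have s2 := sum_nb_sq hU G (sub_right_injective (b := r))
  have s3 := sum_nb_fin (a := a) Y G (g := fun k => nb a W (r - k)) (fun _ => nb_nonneg _ _ _)
    Function.injective_id
  have s4 := sum_nb_fin (a := a) Y G (g := fun k => nb a W (r - k)) (fun _ => nb_nonneg _ _ _)
    (sub_right_injective (b := r))
  simp only [id] at s1 s3
  linarith

/-- From the pointwise bound to the norm of the envelope. -/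
lemma norm_mk_rest {n : ℕ} {R : Z3 → ℂ} {p : Z3 → Z3} (hp : Function.Injective p) {W : Set Z3}
    {Y : Finset Z3} {c X Z b : ℝ} (hc : 0 ≤ c) (hX : 0 ≤ X) (hZ : 0 ≤ Z)
    (hW : ∀ F : Finset Z3, (∀ k ∈ F, k ∈ W) → ∑ k ∈ F, ‖a k‖ ^ 2 ≤ Z ^ 2)
    (hb : ∀ y ∈ Y, ‖a y‖ ≤ b)
    (hR : ∀ h ∈ box n, ‖R h‖ ≤ c * (X + 2 * ∑ y ∈ Y, ‖a y‖ * nb a W (p h - y))) :
    ‖mk (box n) R‖ ≤ c * (3 * NN n * X + 2 * (Y.card * (b * Z))) := by
  set g : V := mk (box n) (fun _ => (X : ℂ)) +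
    (2 : ℂ) • ∑ y ∈ Y, ((‖a y‖ : ℝ) : ℂ) • mk (box n) fun h => (nb a W (p h - y) : ℂ) with hg
  have h1 : ‖mk (box n) R‖ ≤ c * ‖g‖ := by
    refine norm_le_of_coeff hc fun h => ?_
    rw [coeff_mk]
    split_ifs with hh
    · refine (hR h hh).trans (mul_le_mul_of_nonneg_left ?_ hc)
      have : g.coeff h = ((X + 2 * ∑ y ∈ Y, ‖a y‖ * nb a W (p h - y) : ℝ) : ℂ) := by
        simp [hg, coeff_mk, hh]
      rw [this, Complex.norm_real]
      exact le_abs_self _
    · rw [norm_zero]; positivity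
  refine h1.trans (mul_le_mul_of_nonneg_left ((norm_add_le _ _).trans (add_le_add ?_ ?_)) hc)
  · refine (supp_mk n _).norm_le hX fun h => ?_
    rw [coeff_mk]
    split_ifs
    · rw [Complex.norm_real, Real.norm_of_nonneg hX]
    · simpa using hX
  · rw [norm_smul, Complex.norm_two]
    refine mul_le_mul_of_nonneg_left ((norm_sum_le _ _).trans ?_) zero_le_two
    rw [← nsmul_eq_mul]
    refine Finset.sum_le_card_nsmul _ _ _ fun y hy => ?_
    rw [norm_smul, Complex.norm_real, norm_norm]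
    refine mul_le_mul (hb y hy) ?_ (norm_nonneg _) ((norm_nonneg _).trans (hb y hy))
    refine (pow_le_pow_iff_left₀ (norm_nonneg _) hZ two_ne_zero).mp ?_
    rw [norm_sq_eq (support_mk _ _)]
    refine le_trans (le_of_eq (Finset.sum_congr rfl fun h hh => ?_))
      (sum_nb_sq hW (box n) (p := fun h => p h - y) (sub_left_injective.comp hp))
    rw [coeff_mk, if_pos hh, Complex.norm_real, Real.norm_of_nonneg (nb_nonneg _ _ _)]

lemma pt_injective (ρ : Row) (e : ℤ) : Function.Injective (pt Γ ρ e) := by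
  intro g h H
  have h0 := congrFun H 0
  have h1 := congrFun H 1
  have h2 := congrFun H 2
  simp only [pt, Matrix.cons_val_zero, Matrix.cons_val_one, Matrix.cons_val] at h0 h1 h2
  funext i
  fin_cases i
  · change g 0 = h 0; omega
  · change g 1 = h 1; omega
  · change g 2 = h 2; omega

lemma cf_comm (w : C3) (k : Z3) (u : C3) (l : Z3) (v : C3) : cf w k u l v = cf w l v k u := by
  rw [cf, cf, add_comm]

/-- The coefficients of the majorant. -/
lemma norm_coeff_maj {m : ℕ} {A : V} (hA : Supp m A) (B Cp Cm : V) (h : Z3) :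
    ‖(maj A B Cp Cm).coeff h‖ = ∑ g ∈ box m, (‖A.coeff g‖ + ‖(dag A).coeff g‖) *
      (‖B.coeff (h - g)‖ + ‖Cp.coeff (h - g)‖ + ‖Cm.coeff (h - g)‖) := by
  have e : (maj A B Cp Cm).coeff h = ((∑ g ∈ box m, (‖A.coeff g‖ + ‖(dag A).coeff g‖) *
      (‖B.coeff (h - g)‖ + ‖Cp.coeff (h - g)‖ + ‖Cm.coeff (h - g)‖) : ℝ) : ℂ) := by
    rw [maj, coeff_mul_eq _ (hA.av.add hA.dag.av).subset]
    push_cast
    rfl
  rw [e, Complex.norm_real, Real.norm_of_nonneg (Finset.sum_nonneg fun g _ => by positivity)]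

end

end Pool.Agent.Work.MP_6bf1e5_an.Dec
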