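import Pool.Agent.Work.MP_6bf1e5_an.Dec.RowsB

/-!
Arithmetic of the retained modes: classification of the triads.
-/

open Set Complex
open scoped InnerProductSpace ComplexConjugate
open Pool.Agent.Work.MP_6bf1e5_an.B

namespace Pool.Agent.Work.MP_6bf1e5_an.Dec

noncomputable section

variable {Γ : Geo}

namespace RA

lemma pt0 (ρ : Row) (e : ℤ) (h : Z3) : pt Γ ρ e h 0 = ρ.X Γ + 2 * h 0 := rfl
lemma pt1 (ρ : Row) (e : ℤ) (h : Z3) : pt Γ ρ e h 1 = e * ρ.W Γ + 2 * h 1 := rfl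
lemma pt2 (ρ : Row) (e : ℤ) (h : Z3) : pt Γ ρ e h 2 = 2 * h 2 := rfl
lemma sw0 (k : Z3) : swE k 0 = k 1 := rfl
lemma sw1 (k : Z3) : swE k 1 = k 0 := rfl
lemma sw2 (k : Z3) : swE k 2 = k 2 := rfl
lemma rx0 (k : Z3) : rxE k 0 = k 0 := rfl
lemma rx1 (k : Z3) : rxE k 1 = -k 1 := rfl
lemma rx2 (k : Z3) : rxE k 2 = -k 2 := rfl

lemma ext3 {k l : Z3} : k = l ↔ k 0 = l 0 ∧ k 1 = l 1 ∧ k 2 = l 2 := by
  constructor
  · rintro rfl; exact ⟨rfl, rfl, rfl⟩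
  · rintro ⟨a, b, c⟩
    funext i
    fin_cases i
    · exact a
    · exact b
    · exact c

lemma box3 {n : ℕ} {h : Z3} : h ∈ box n ↔
    (-(n : ℤ) ≤ h 0 ∧ h 0 ≤ n) ∧ (-(n : ℤ) ≤ h 1 ∧ h 1 ≤ n) ∧ (-(n : ℤ) ≤ h 2 ∧ h 2 ≤ n) := by
  rw [mem_box']
  simp only [abs_le]
  constructor
  · intro H; exact ⟨H 0, H 1, H 2⟩
  · rintro ⟨a, b, c⟩ i
    fin_cases i
    · exact a
    · exact b
    · exact c

lemma sw_sw (k : Z3) : swE (swE k) = k := by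
  rw [ext3]; exact ⟨rfl, rfl, rfl⟩

/-- Membership in a row in coordinates. -/
lemma mem_Str {ρ : Row} {k : Z3} : k ∈ Str Γ ρ ↔ St Γ ρ (k 0) (k 1) ∧ k 2 % 2 = 0 ∧
    -(2 * ρ.R Γ : ℤ) ≤ k 2 ∧ k 2 ≤ 2 * ρ.R Γ := by
  constructor
  · rintro ⟨e, h, he, hh, hk⟩
    rw [box3] at hh
    simp only [ext3, Pi.neg_apply, pt0, pt1, pt2] at hk
    unfold St Nr
    rcases he with rfl | rfl <;> omega
  · rintro ⟨⟨h0 | h0, h1 | h1, p0, p1⟩, p2, h2⟩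
    · refine ⟨1, ![(k 0 - ρ.X Γ) / 2, (k 1 - ρ.W Γ) / 2, k 2 / 2], Or.inl rfl, ?_, Or.inl ?_⟩
      · rw [box3]; simp only [Matrix.cons_val]; omega
      · simp only [ext3, pt0, pt1, pt2, Matrix.cons_val]; omega
    · refine ⟨-1, ![(k 0 - ρ.X Γ) / 2, (k 1 + ρ.W Γ) / 2, k 2 / 2], Or.inr rfl, ?_, Or.inl ?_⟩
      · rw [box3]; simp only [Matrix.cons_val]; omega
      · simp only [ext3, pt0, pt1, pt2, Matrix.cons_val]; omega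
    · refine ⟨-1, ![(-k 0 - ρ.X Γ) / 2, (-k 1 + ρ.W Γ) / 2, -k 2 / 2], Or.inr rfl, ?_, Or.inr ?_⟩
      · rw [box3]; simp only [Matrix.cons_val]; omega
      · simp only [ext3, Pi.neg_apply, pt0, pt1, pt2, Matrix.cons_val]; omega
    · refine ⟨1, ![(-k 0 - ρ.X Γ) / 2, (-k 1 - ρ.W Γ) / 2, -k 2 / 2], Or.inl rfl, ?_, Or.inr ?_⟩
      · rw [box3]; simp only [Matrix.cons_val]; omega
      · simp only [ext3, Pi.neg_apply, pt0, pt1, pt2, Matrix.cons_val]; omega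

lemma mem_Orb {ρ : Row} {k : Z3} : k ∈ Orb Γ ρ ↔
    (St Γ ρ (k 0) (k 1) ∨ St Γ ρ (k 1) (k 0)) ∧ k 2 % 2 = 0 ∧
      -(2 * ρ.R Γ : ℤ) ≤ k 2 ∧ k 2 ≤ 2 * ρ.R Γ := by
  change (k ∈ Str Γ ρ ∨ swE k ∈ Str Γ ρ) ↔ _
  rw [mem_Str, mem_Str, sw0, sw1, sw2]
  tauto

lemma orb_nr {ρ : Row} {k : Z3} (h : k ∈ Orb Γ ρ) :
    (Nr (k 0) (ρ.X Γ) (2 * ρ.R Γ) ∧ Nr (k 1) (ρ.W Γ) (2 * ρ.R Γ)) ∨
      (Nr (k 1) (ρ.X Γ) (2 * ρ.R Γ) ∧ Nr (k 0) (ρ.W Γ) (2 * ρ.R Γ)) :=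
  (mem_Orb.mp h).1.imp (fun h => ⟨h.1, h.2.1⟩) fun h => ⟨h.1, h.2.1⟩

lemma St_y {j m : ℕ} {a b : ℤ} : St Γ (.y j m) a b ↔
    (a = (Row.y j m).X Γ ∨ a = -(Row.y j m).X Γ) ∧ (b = wv Γ j m ∨ b = -wv Γ j m) := by
  simp only [St, Nr, R_y, W_y]
  constructor
  · rintro ⟨h1, h2, -, -⟩
    constructor <;> omega
  · rintro ⟨h1, h2⟩
    refine ⟨?_, ?_, ?_, ?_⟩ <;> omega

lemma mem_Orb_y {j m : ℕ} {k : Z3} : k ∈ Orb Γ (.y j m) ↔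
    (((k 0 = (Row.y j m).X Γ ∨ k 0 = -(Row.y j m).X Γ) ∧ (k 1 = wv Γ j m ∨ k 1 = -wv Γ j m)) ∨
      ((k 1 = (Row.y j m).X Γ ∨ k 1 = -(Row.y j m).X Γ) ∧
        (k 0 = wv Γ j m ∨ k 0 = -wv Γ j m))) ∧ k 2 = 0 := by
  rw [mem_Orb, St_y, St_y, R_y]
  refine and_congr_right fun _ => ?_
  omega

lemma s_cases (ρ : Row) : ρ.s = 1 ∨ ρ.s = -1 := by
  rcases ρ with j | j | ⟨j, m⟩
  · exact Or.inl rfl
  · exact Or.inr rfl
  · simp only [Row.s]; split_ifs <;> simp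

lemma ax_le_sum (k : Z3) : ax k ≤ 2 * Real.pi * ((|k 0| + |k 1| + |k 2| : ℤ) : ℝ) := by
  unfold ax
  refine mul_le_mul_of_nonneg_left ?_ (by positivity)
  refine Real.sqrt_le_iff.mpr ⟨by positivity, ?_⟩
  rw [Fin.sum_univ_three]
  push_cast
  have a := abs_nonneg (k 0 : ℝ)
  have b := abs_nonneg (k 1 : ℝ)
  have c := abs_nonneg (k 2 : ℝ)
  rw [← sq_abs (k 0 : ℝ), ← sq_abs (k 1 : ℝ), ← sq_abs (k 2 : ℝ)]
  linarith [mul_nonneg a b, mul_nonneg a c, mul_nonneg b c]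

lemma le_ax (k : Z3) (i : Fin 3) : 2 * Real.pi * ((|k i| : ℤ) : ℝ) ≤ ax k := by
  have := abs_xi_le k i
  rw [abs_mul, abs_of_pos (by positivity : (0 : ℝ) < 2 * Real.pi)] at this
  push_cast
  exact this

lemma ax_hi {k : Z3} {c : ℕ} {j : ℕ} (h : |k 0| + |k 1| + |k 2| ≤ c * Γ.P j) :
    ax k ≤ c * Γ.lam j := by
  have h' : ((|k 0| + |k 1| + |k 2| : ℤ) : ℝ) ≤ c * Γ.P j := by exact_mod_cast h
  calc ax k ≤ _ := ax_le_sum k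
    _ ≤ 2 * Real.pi * (c * Γ.P j) := mul_le_mul_of_nonneg_left h' (by positivity)
    _ = _ := by unfold Geo.lam; ring

lemma ax_lo {k : Z3} {j : ℕ} (h : 9 * (Γ.P j : ℤ) ≤ 10 * |k 0| ∨ 9 * (Γ.P j : ℤ) ≤ 10 * |k 1|) :
    9 / 10 * Γ.lam j ≤ ax k := by
  obtain ⟨i, hi⟩ : ∃ i, 9 * (Γ.P j : ℤ) ≤ 10 * |k i| := by
    rcases h with h | h
    · exact ⟨0, h⟩
    · exact ⟨1, h⟩
  have h' : 9 * (Γ.P j : ℝ) ≤ 10 * ((|k i| : ℤ) : ℝ) := by exact_mod_cast hi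
  have := le_ax k i
  unfold Geo.lam
  nlinarith only [h', this, Real.pi_pos]

lemma ax_lo1 {k : Z3} {j : ℕ} (h : (Γ.P j : ℤ) ≤ |k 0| ∨ (Γ.P j : ℤ) ≤ |k 1|) :
    Γ.lam j ≤ ax k := by
  obtain ⟨i, hi⟩ : ∃ i, (Γ.P j : ℤ) ≤ |k i| := by
    rcases h with h | h
    · exact ⟨0, h⟩
    · exact ⟨1, h⟩
  have h' : (Γ.P j : ℝ) ≤ ((|k i| : ℤ) : ℝ) := by exact_mod_cast hi
  have := le_ax k i
  unfold Geo.lam
  nlinarith only [h', this, Real.pi_pos]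

lemma abs_c (x : ℤ) : (|x| = x ∧ 0 ≤ x) ∨ (|x| = -x ∧ x ≤ 0) := by
  rcases abs_cases x with h | h
  · exact Or.inl h
  · exact Or.inr ⟨h.1, h.2.le⟩

lemma two_W_le {ρ : Row} (ok : ρ.ok Γ) (h2 : ∀ j, ρ ≠ .y j 2) :
    2 * ρ.W Γ ≤ ρ.X Γ ∧ -ρ.X Γ ≤ 2 * ρ.W Γ := by
  rcases ρ with j | j | ⟨j, m⟩
  · rw [W_b, X_b]; omega
  · have := P_big (Γ := Γ) j
    rw [W_c, X_c]; omega
  · have := P_big (Γ := Γ) j
    rcases Nat.lt_or_ge m 3 with h | h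
    · obtain rfl : m = 1 := by
        have := ok.1
        have : m ≠ 2 := fun h => h2 j (by rw [h])
        omega
      rw [W_y1, X_y1]; omega
    · have a := X_y_le (Γ := Γ) (j := j) (m := 3) (m' := m) (by omega) h
      have b := W_le (Γ := Γ) (.y j m)
      rw [X_y3] at a
      simp only [Row.lev] at b
      omega

end RA

open RA

lemma neg_mem_Str {ρ : Row} {k : Z3} : -k ∈ Str Γ ρ ↔ k ∈ Str Γ ρ := by
  simp only [mem_Str, St, Nr, Pi.neg_apply]; omega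

lemma rx_mem_Str {ρ : Row} {k : Z3} : rxE k ∈ Str Γ ρ ↔ k ∈ Str Γ ρ := by
  simp only [mem_Str, St, Nr, rx0, rx1, rx2]; omega

lemma neg_mem_Orb {ρ : Row} {k : Z3} : -k ∈ Orb Γ ρ ↔ k ∈ Orb Γ ρ := by
  change (-k ∈ Str Γ ρ ∨ swE (-k) ∈ Str Γ ρ) ↔ (k ∈ Str Γ ρ ∨ swE k ∈ Str Γ ρ)
  rw [map_neg, neg_mem_Str, neg_mem_Str]

lemma sw_mem_Orb {ρ : Row} {k : Z3} : swE k ∈ Orb Γ ρ ↔ k ∈ Orb Γ ρ := by
  change (swE k ∈ Str Γ ρ ∨ swE (swE k) ∈ Str Γ ρ) ↔ (k ∈ Str Γ ρ ∨ swE k ∈ Str Γ ρ)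
  rw [sw_sw, or_comm]

lemma neg_mem_SS (s : ℝ) (k : Z3) : -k ∈ SS Γ s ↔ k ∈ SS Γ s := by
  simp only [SS, mem_ofPred_eq, map_neg, neg_mem_Str]

lemma rx_mem_SS (s : ℝ) (k : Z3) : rxE k ∈ SS Γ s ↔ k ∈ SS Γ s := by
  have h : ∀ ρ : Row, swE (rxE k) ∈ Str Γ ρ ↔ swE k ∈ Str Γ ρ := fun ρ => by
    simp only [mem_Str, St, Nr, rx0, rx1, rx2, sw0, sw1, sw2]; omega
  simp only [SS, mem_ofPred_eq, rx_mem_Str, h]

lemma sw_mem_SS (s : ℝ) (k : Z3) : swE k ∈ SS Γ s ↔ k ∈ SS Γ (-s) := by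
  simp only [SS, mem_ofPred_eq, sw_sw, neg_neg]
  refine exists_congr fun ρ => and_congr_right fun _ => or_comm

lemma pt_mem_Orb {ρ : Row} {e : ℤ} (he : e = 1 ∨ e = -1) {h : Z3} (hh : h ∈ box (ρ.R Γ)) :
    pt Γ ρ e h ∈ Orb Γ ρ := Or.inl ⟨e, h, he, hh, Or.inl rfl⟩

lemma orb_of_SS {s : ℝ} {k : Z3} (h : k ∈ SS Γ s) : ∃ ρ : Row, ρ.ok Γ ∧ k ∈ Orb Γ ρ := by
  obtain ⟨ρ, ok, ⟨-, h⟩ | ⟨-, h⟩⟩ := h
  · exact ⟨ρ, ok, Or.inl h⟩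
  · exact ⟨ρ, ok, Or.inr h⟩

lemma ne_zero_of_Orb {ρ : Row} (ok : ρ.ok Γ) {k : Z3} (h : k ∈ Orb Γ ρ) : k ≠ 0 := by
  rintro rfl
  have := lab ok
  simp only [mem_Orb, St, Pi.zero_apply] at h
  omega

lemma P_odd (j : ℕ) : Γ.P j % 2 = 1 := by
  exact RA.P_odd j

lemma lam_pos (j : ℕ) : 0 < Γ.lam j := by
  have : (0 : ℝ) < Γ.P j := by exact_mod_cast P_pos j
  unfold Geo.lam
  positivity

lemma lam_succ (j : ℕ) : Γ.lam (j + 1) = Γ.T j ^ 8 * Γ.lam j := by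
  unfold Geo.lam
  rw [P_succ_real]; ring

theorem row_unique {ρ ρ' : Row} (ok : ρ.ok Γ) (ok' : ρ'.ok Γ) {k : Z3} (h : k ∈ Orb Γ ρ)
    (h' : k ∈ Orb Γ ρ') : ρ = ρ' := by
  have r1 := R_small (Γ := Γ) ρ (i := ρ.lev) (by omega)
  have r2 := R_small (Γ := Γ) ρ' (i := ρ'.lev) (by omega)
  have x1 := X_lo (Γ := Γ) ρ
  have x2 := X_lo (Γ := Γ) ρ'
  have w1 := W_le (Γ := Γ) ρ
  have w2 := W_le (Γ := Γ) ρ'
  have p1 := P_pos (Γ := Γ) ρ.lev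
  have p2 := P_pos (Γ := Γ) ρ'.lev
  have g := orb_nr h
  have g' := orb_nr h'
  simp only [Nr] at g g'
  have e : ρ.X Γ = ρ'.X Γ := X_eq_of_near ok ok' (by omega) (by omega)
  have hl : ρ.lev = ρ'.lev := le_antisymm (lev_le ok' e.le) (lev_le ok e.ge)
  rcases (by omega : ρ.lev = 0 ∨ ρ.lev = (ρ.lev - 1) + 1) with h0 | h0
  · rw [lev_zero h0, lev_zero (hl.symm.trans h0)]
  · generalize ρ.lev - 1 = j at h0
    obtain ⟨m, m1, m2, e', H⟩ := X_rep ok h0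
    have r1 := R_small (Γ := Γ) ρ (i := j) (by omega)
    have r2 := R_small (Γ := Γ) ρ' (i := j) (by omega)
    have big := P_big (Γ := Γ) j
    have pj := P_pos (Γ := Γ) j
    clear x1 x2 w1 w2 p1 p2
    rcases row_of_X ok' m1 m2 (e.symm.trans e') with rfl | ⟨rfl, rfl | rfl⟩ <;>
      rcases H with rfl | ⟨hm, rfl | rfl⟩ <;> (try subst hm) <;>
      first
        | rfl
        | (exfalso; simp only [X_b, X_c, X_y2, W_b, W_c, W_y2] at g g'; omega)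

theorem str_helicity {ρ : Row} (ok : ρ.ok Γ) (h2 : ∀ j, ρ ≠ .y j 2) {k : Z3} (h : k ∈ Str Γ ρ) :
    k ∈ SS Γ ρ.s ∧ k ∉ SS Γ (-ρ.s) := by
  refine ⟨⟨ρ, ok, Or.inl ⟨rfl, h⟩⟩, ?_⟩
  rintro ⟨ρ', ok', ⟨hs, h'⟩ | ⟨-, h'⟩⟩
  · obtain rfl := row_unique ok ok' (Or.inl h) (Or.inl h')
    rcases s_cases ρ with e | e <;> rw [e] at hs <;> norm_num at hs
  · obtain rfl := row_unique ok ok' (Or.inl h) (Or.inr h')
    have r1 := R_small (Γ := Γ) ρ (i := ρ.lev) (by omega)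
    have x1 := X_lo (Γ := Γ) ρ
    have p1 := P_pos (Γ := Γ) ρ.lev
    have w := two_W_le ok h2
    have g := (mem_Str.mp h).1.1
    have g' := (mem_Str.mp h').1.2.1
    rw [sw1] at g'
    unfold Nr at g g'
    omega

theorem y2_helicity {j : ℕ} {k : Z3} (h : k ∈ Str Γ (.y j 2)) : k ∈ SS Γ 1 ∧ k ∈ SS Γ (-1) := by
  have n8 := Γ.n8 (j + 1)
  have ok : (Row.y j 2).ok Γ := ⟨by omega, by omega⟩
  have hs : (Row.y j 2).s = -1 := by simp [Row.s]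
  refine ⟨⟨_, ok, Or.inr ⟨hs, ?_⟩⟩, ⟨_, ok, Or.inl ⟨hs, h⟩⟩⟩
  simp only [mem_Str, St, sw0, sw1, sw2, X_y2, W_y2] at h ⊢
  tauto

/-- Only the designed triads occur. -/
theorem triad_rows {a b c : Row} (oa : a.ok Γ) (ob : b.ok Γ) (oc : c.ok Γ) {k l : Z3}
    (hk : k ∈ Orb Γ a) (hl : l ∈ Orb Γ b) (hr : k + l ∈ Orb Γ c) : Des' Γ a b c := by
  have hr' := neg_mem_Orb.mpr hr
  refine core'' oa ob oc (k0 := k 0) (k1 := k 1) (l0 := l 0) (l1 := l 1) (r0 := (-(k + l)) 0)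
    (r1 := (-(k + l)) 1) ?_ ?_ (mem_Orb.mp hk).1 (mem_Orb.mp hl).1 (mem_Orb.mp hr').1
  · simp
  · simp

lemma ax_b {j : ℕ} {k : Z3} (h : k ∈ Orb Γ (.b j)) :
    9 / 10 * Γ.lam j ≤ ax k ∧ ax k ≤ 2 * Γ.lam j := by
  have r1 := R_small (Γ := Γ) (.b j) (i := j) (by simp [Row.lev])
  have a0 := abs_c (k 0)
  have a1 := abs_c (k 1)
  have a2 := abs_c (k 2)
  simp only [mem_Orb, St, Nr, X_b, W_b] at h
  exact ⟨ax_lo (by omega), by exact_mod_cast ax_hi (c := 2) (by omega)⟩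

lemma ax_c {j : ℕ} {k : Z3} (h : k ∈ Orb Γ (.c j)) :
    9 / 10 * Γ.lam (j + 1) ≤ ax k ∧ ax k ≤ 2 * Γ.lam (j + 1) := by
  have r1 := R_small (Γ := Γ) (.c j) (i := j) (by simp [Row.lev])
  have big := P_big (Γ := Γ) j
  have a0 := abs_c (k 0)
  have a1 := abs_c (k 1)
  have a2 := abs_c (k 2)
  simp only [mem_Orb, St, Nr, X_c, W_c] at h
  exact ⟨ax_lo (by omega), by exact_mod_cast ax_hi (c := 2) (by omega)⟩

lemma ax_y {j m : ℕ} (h1 : 1 ≤ m) (h2 : m < Γ.n (j + 1)) {k : Z3} (h : k ∈ Orb Γ (.y j m)) :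
    Γ.lam (j + 1) ≤ ax k ∧ ax k ≤ 2 * Γ.lam (j + 2) ∧ (m ≤ 2 → ax k ≤ 3 * Γ.lam (j + 1)) := by
  have x1 := X_lo (Γ := Γ) (.y j m)
  have x2 := X_hi (Γ := Γ) (ρ := .y j m) ⟨h1, h2⟩
  have w := W_le (Γ := Γ) (.y j m)
  have big := P_big (Γ := Γ) j
  have big2 := P_big2 (Γ := Γ) j
  have e2 : Γ.P (j + 1 + 1) = Γ.P (j + 2) := rfl
  simp only [Row.lev] at x1 x2 w
  have a0 := abs_c (k 0)
  have a1 := abs_c (k 1)
  have a2 := abs_c (k 2)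
  rw [mem_Orb_y, ← W_y] at h
  refine ⟨ax_lo1 (by omega), by exact_mod_cast ax_hi (c := 2) (by omega), fun hm => ?_⟩
  interval_cases m
  · rw [X_y1, W_y1] at h
    exact_mod_cast ax_hi (c := 3) (by omega)
  · rw [X_y2, W_y2] at h
    exact_mod_cast ax_hi (c := 3) (by omega)

lemma ax_offset {ρ : Row} (e : ℤ) {h : Z3} (hh : h ∈ box (ρ.R Γ)) :
    ax (pt Γ ρ e h - pt Γ ρ e 0) ≤ (Γ.T ρ.lev ^ 850)⁻¹ * Γ.lam ρ.lev := by
  have hR : ρ.R Γ ≤ 2 * Γ.M ρ.lev := by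
    rcases ρ with j | j | ⟨j, m⟩
    · simp only [Row.R, Row.lev]; omega
    · have := M_mono (Γ := Γ) (i := j) (j := j + 1) (by omega)
      simp only [Row.R, Row.lev]; omega
    · simp only [Row.R]; omega
  rw [box3] at hh
  set k := pt Γ ρ e h - pt Γ ρ e 0 with hk
  have k0 : k 0 = 2 * h 0 := by simp [hk, pt0]
  have k1 : k 1 = 2 * h 1 := by simp [hk, pt1]
  have k2 : k 2 = 2 * h 2 := by simp [hk, pt2]
  have a0 := abs_c (k 0)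
  have a1 := abs_c (k 1)
  have a2 := abs_c (k 2)
  have b : |k 0| + |k 1| + |k 2| ≤ 12 * Γ.M ρ.lev := by omega
  have b' : ((|k 0| + |k 1| + |k 2| : ℤ) : ℝ) ≤ 12 * Γ.M ρ.lev := by exact_mod_cast b
  have sep := Γ.sep ρ.lev
  set t := Γ.T ρ.lev
  have t1 : 1 ≤ t := T_one _
  have t2 : (1000 : ℝ) ≤ t := T_thou _
  have tp : 0 < t ^ 850 := by positivity
  have hM : (0 : ℝ) ≤ Γ.M ρ.lev := Nat.cast_nonneg _
  have c1 : t ^ 851 ≤ t ^ 900 := pow_le_pow_right₀ t1 (by norm_num)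
  have c2 : 12 * (Γ.M ρ.lev : ℝ) * t ^ 850 ≤ Γ.P ρ.lev :=
    calc 12 * (Γ.M ρ.lev : ℝ) * t ^ 850 ≤ t * (Γ.M ρ.lev + 1) * t ^ 850 := by
          gcongr
          · linarith only [t2]
          · linarith only []
      _ = (Γ.M ρ.lev + 1) * t ^ 851 := by ring
      _ ≤ (Γ.M ρ.lev + 1) * t ^ 900 := by gcongr
      _ ≤ _ := sep
  have c3 : 12 * (Γ.M ρ.lev : ℝ) ≤ (t ^ 850)⁻¹ * Γ.P ρ.lev := by
    rw [inv_mul_eq_div, le_div_iff₀ tp]; exact c2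
  calc ax k ≤ _ := ax_le_sum k
    _ ≤ 2 * Real.pi * ((t ^ 850)⁻¹ * Γ.P ρ.lev) :=
        mul_le_mul_of_nonneg_left (b'.trans c3) (by positivity)
    _ = _ := by unfold Geo.lam; ring

lemma tail_b {i j : ℕ} {k : Z3} (h : k ∈ Orb Γ (.b j)) : k ∈ tail Γ (i + 1) ↔ i < j := by
  have r1 := R_small (Γ := Γ) (.b j) (i := j) (by simp [Row.lev])
  have pj := P_pos (Γ := Γ) j
  have a0 := abs_c (k 0)
  have a1 := abs_c (k 1)
  have g := (mem_Orb.mp h).1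
  simp only [St, Nr, X_b, W_b] at g
  change 3 * (Γ.P i : ℤ) ≤ 2 * (|k 0| + |k 1|) ↔ _
  rcases Nat.lt_or_ge i j with hi | hi
  · have := P_big (Γ := Γ) i
    have := P_mono (Γ := Γ) (i := i + 1) (j := j) hi
    omega
  · have := P_mono (Γ := Γ) hi
    omega

lemma tail_c {i j : ℕ} {k : Z3} (h : k ∈ Orb Γ (.c j)) : k ∈ tail Γ (i + 1) ↔ i ≤ j := by
  have r1 := R_small (Γ := Γ) (.c j) (i := j) (by simp [Row.lev])
  have pj := P_pos (Γ := Γ) j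
  have big := P_big (Γ := Γ) j
  have a0 := abs_c (k 0)
  have a1 := abs_c (k 1)
  have g := (mem_Orb.mp h).1
  simp only [St, Nr, X_c, W_c] at g
  change 3 * (Γ.P i : ℤ) ≤ 2 * (|k 0| + |k 1|) ↔ _
  rcases Nat.lt_or_ge j i with hi | hi
  · have := P_mono (Γ := Γ) (i := j + 1) (j := i) hi
    omega
  · have := P_mono (Γ := Γ) hi
    omega

lemma tail_y {i j m : ℕ} (h1 : 1 ≤ m) (h2 : m < Γ.n (j + 1)) {k : Z3} (h : k ∈ Orb Γ (.y j m)) :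
    k ∈ tail Γ (i + 1) ↔ i ≤ j + 1 := by
  have x2 := X_hi (Γ := Γ) (ρ := .y j m) ⟨h1, h2⟩
  have w := W_le (Γ := Γ) (.y j m)
  have pj := P_pos (Γ := Γ) j
  have big := P_big (Γ := Γ) j
  have big2 := P_big2 (Γ := Γ) j
  have e2 : Γ.P (j + 1 + 1) = Γ.P (j + 2) := rfl
  simp only [Row.lev] at x2 w
  have a0 := abs_c (k 0)
  have a1 := abs_c (k 1)
  have g := (mem_Orb.mp h).1
  simp only [St, Nr, R_y] at g
  change 3 * (Γ.P i : ℤ) ≤ 2 * (|k 0| + |k 1|) ↔ _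
  rcases Nat.lt_or_ge (j + 1) i with hi | hi
  · have := P_mono (Γ := Γ) (i := j + 2) (j := i) hi
    have x1 := X_lo (Γ := Γ) (.y j m)
    omega
  · have := P_mono (Γ := Γ) hi
    rcases Nat.lt_or_ge m 3 with h3 | h3
    · interval_cases m
      · rw [X_y1, W_y1] at g; omega
      · rw [X_y2, W_y2] at g; omega
    · have a := X_y_le (Γ := Γ) (j := j) (m := 3) (m' := m) (by omega) h3
      rw [X_y3] at a
      omega

lemma tail_ax {i : ℕ} {k : Z3} (h : k ∈ tail Γ (i + 1)) : Γ.lam i ≤ ax k := by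
  have h1 : 3 * (Γ.P i : ℤ) ≤ 2 * (|k 0| + |k 1|) := h
  have h2 : 3 * (Γ.P i : ℝ) ≤ 2 * (|(k 0 : ℝ)| + |(k 1 : ℝ)|) := by exact_mod_cast h1
  unfold Geo.lam ax
  refine mul_le_mul_of_nonneg_left (Real.le_sqrt_of_sq_le ?_) (by positivity)
  rw [Fin.sum_univ_three, ← sq_abs (k 0 : ℝ), ← sq_abs (k 1 : ℝ)]
  have hP : (0 : ℝ) ≤ Γ.P i := Nat.cast_nonneg _
  have h3 : (3 * (Γ.P i : ℝ)) ^ 2 ≤ (2 * (|(k 0 : ℝ)| + |(k 1 : ℝ)|)) ^ 2 :=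
    pow_le_pow_left₀ (by positivity) h2 2
  linarith [sq_nonneg (|(k 0 : ℝ)| - |(k 1 : ℝ)|), sq_nonneg (k 2 : ℝ), sq_nonneg (Γ.P i : ℝ)]

lemma tail_mono (i : ℕ) : tail Γ (i + 1) ⊆ tail Γ i := by
  rcases i with _ | i
  · exact subset_univ _
  · intro k h
    have h1 : 3 * (Γ.P (i + 1) : ℤ) ≤ 2 * (|k 0| + |k 1|) := h
    have := P_big (Γ := Γ) i
    change 3 * (Γ.P i : ℤ) ≤ 2 * (|k 0| + |k 1|)
    omega

lemma neg_mem_tail {i : ℕ} {k : Z3} : -k ∈ tail Γ i ↔ k ∈ tail Γ i := by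
  rcases i with _ | i
  · simp [tail]
  · simp [tail]

lemma orb_y_card (j m : ℕ) : ∃ F : Finset Z3, F.card ≤ 8 ∧ ∀ k, k ∈ Orb Γ (.y j m) ↔ k ∈ F := by
  set X := (Row.y j m).X Γ with hX
  set W := (Row.y j m).W Γ with hW
  refine ⟨{![X, W, 0], ![X, -W, 0], ![-X, W, 0], ![-X, -W, 0], ![W, X, 0], ![-W, X, 0],
    ![W, -X, 0], ![-W, -X, 0]}, ?_, fun k => ?_⟩
  · refine (Finset.card_insert_le _ _).trans (Nat.succ_le_succ ?_)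
    refine (Finset.card_insert_le _ _).trans (Nat.succ_le_succ ?_)
    exact Finset.card_le_six
  · rw [mem_Orb_y, ← W_y]
    simp only [Finset.mem_insert, Finset.mem_singleton, ext3, Matrix.cons_val, ← hX, ← hW]
    constructor
    · rintro ⟨⟨a | a, b | b⟩ | ⟨a | a, b | b⟩, c⟩ <;> simp only [a, b, c, and_self, true_or, or_true]
    · rintro (⟨a, b, c⟩ | ⟨a, b, c⟩ | ⟨a, b, c⟩ | ⟨a, b, c⟩ | ⟨a, b, c⟩ | ⟨a, b, c⟩ | ⟨a, b, c⟩ |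
        ⟨a, b, c⟩) <;> simp only [a, b, c, and_self, true_or, or_true]

lemma fib_pt {j m : ℕ} (h1 : 3 ≤ m) (h2 : m ≤ Γ.n (j + 1)) :
    pt Γ (yr Γ j m) 1 0 = pt Γ (.y j (m - 1)) 1 0 + pt Γ (.y j (m - 2)) (-1) 0 := by
  have e := X_y_add (Γ := Γ) (j := j) h1
  have w0 := wv_cases (Γ := Γ) j m
  have w1 := wv_cases (Γ := Γ) j (m - 1)
  have w2 := wv_cases (Γ := Γ) j (m - 2)
  have hX : (yr Γ j m).X Γ = (Row.y j m).X Γ := by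
    unfold yr
    split_ifs with h
    · rw [h, X_y_top]; rfl
    · rfl
  have hW : (yr Γ j m).W Γ = wv Γ j m := by
    unfold yr
    split_ifs with h
    · have := Γ.nmod (j + 1)
      rw [W_c]; omega
    · rfl
  simp only [ext3, Pi.add_apply, pt0, pt1, pt2, Pi.zero_apply, hX, hW, W_y]
  omega

lemma box_of_pt_b {j : ℕ} {h : Z3} (hh : h ∈ box (5 * Γ.M j)) (H : pt Γ (.b j) 1 h ∈ Orb Γ (.b j)) :
    h ∈ box (Γ.M j) := by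
  have r1 := M_small (Γ := Γ) (i := j) (j := j) (by omega)
  have pj := P_pos (Γ := Γ) j
  rw [box3] at hh ⊢
  simp only [mem_Orb, St, Nr, X_b, W_b, Row.R, pt0, pt1, pt2] at H
  omega

theorem fine_B {j : ℕ} {h k : Z3} (hh : h ∈ box (Γ.M (j + 1))) (hk : k ∈ Orb Γ (.b j))
    (hl : pt Γ (.b (j + 1)) 1 h - k ∈ Orb Γ (.c j)) :
    ∃ g ∈ box (Γ.M j), k = swE (pt Γ (.b j) 1 g) ∨ k = -swE (pt Γ (.b j) 1 g) := by
  have r1 := M_small (Γ := Γ) (i := j) (j := j) (by omega)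
  have r2 := M_small (Γ := Γ) (i := j) (j := j + 1) (by omega)
  have pj := P_pos (Γ := Γ) j
  have big := P_big (Γ := Γ) j
  rcases hk with hk | ⟨e, g, -, hg, hk⟩
  · exfalso
    have g1 := (mem_Str.mp hk).1
    have g2 := (mem_Orb.mp hl).1
    rw [box3] at hh
    simp only [St, Nr, X_b, W_b, X_c, W_c, Row.R, pt0, pt1, Pi.sub_apply] at g1 g2
    omega
  · refine ⟨g, hg, ?_⟩
    simp only [ext3, Pi.neg_apply, sw0, sw1, sw2, pt0, pt1, pt2, W_b] at hk ⊢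
    omega

theorem fine_C {j : ℕ} {h k : Z3} (hh : h ∈ box (Γ.M (j + 1) + Γ.M j)) (hk : k ∈ Orb Γ (.b j))
    (hl : pt Γ (.c j) 1 h - k ∈ Orb Γ (.b (j + 1))) :
    ∃ g ∈ box (Γ.M j), k = swE (pt Γ (.b j) 1 g) := by
  have r1 := M_small (Γ := Γ) (i := j) (j := j) (by omega)
  have r2 := M_small (Γ := Γ) (i := j) (j := j + 1) (by omega)
  have pj := P_pos (Γ := Γ) j
  have big := P_big (Γ := Γ) j
  have g2 := (mem_Orb.mp hl).1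
  rw [box3] at hh
  rcases hk with hk | ⟨e, g, -, hg, hk⟩
  · exfalso
    have g1 := (mem_Str.mp hk).1
    simp only [St, Nr, X_b, W_b, X_c, W_c, Row.R, pt0, pt1, Pi.sub_apply] at g1 g2
    omega
  · refine ⟨g, hg, ?_⟩
    rw [box3] at hg
    simp only [ext3, Pi.neg_apply, sw0, sw1, sw2, pt0, pt1, pt2, W_b, St, Nr, X_b, W_b, X_c, W_c,
      Row.R, Pi.sub_apply] at hk g2 hg ⊢
    omega

theorem fine_top {j : ℕ} {h k : Z3} (hh : h ∈ box (Γ.M (j + 2) + Γ.M (j + 1)))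
    (hk : k ∈ Orb Γ (.y j (Γ.n (j + 1) - 1)))
    (hl : pt Γ (.c (j + 1)) 1 h - k ∈ Orb Γ (.y j (Γ.n (j + 1) - 2))) :
    h = 0 ∧ k = pt Γ (.y j (Γ.n (j + 1) - 1)) 1 0 := by
  have r1 := M_small (Γ := Γ) (i := j) (j := j + 2) (by omega)
  have r2 := M_small (Γ := Γ) (i := j) (j := j + 1) (by omega)
  have pj := P_pos (Γ := Γ) j
  have big := P_big (Γ := Γ) j
  have n8 := Γ.n8 (j + 1)
  have nm := Γ.nmod (j + 1)
  have e := X_y_add (Γ := Γ) (j := j) (m := Γ.n (j + 1)) (by omega)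
  rw [X_y_top] at e
  have b3 : (Row.y j 3).X Γ ≤ (Row.y j (Γ.n (j + 1) - 2)).X Γ := X_y_le (by omega) (by omega)
  have b4 : (Row.y j 3).X Γ ≤ (Row.y j (Γ.n (j + 1) - 1)).X Γ := X_y_le (by omega) (by omega)
  rw [X_y3] at b3 b4
  have w1 : wv Γ j (Γ.n (j + 1) - 1) = Γ.P j := by
    have := wv_cases (Γ := Γ) j (Γ.n (j + 1) - 1)
    omega
  have w2 : wv Γ j (Γ.n (j + 1) - 2) = Γ.P j - Γ.P (j + 1) := by
    have := wv_cases (Γ := Γ) j (Γ.n (j + 1) - 2)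
    omega
  have e2 : Γ.P (j + 1 + 1) = Γ.P (j + 2) := rfl
  rw [box3] at hh
  simp only [mem_Orb_y, X_c, W_c, W_y, w1, w2, pt0, pt1, pt2, Pi.sub_apply, ext3,
    Pi.zero_apply] at hk hl ⊢
  clear n8 nm w1 w2
  obtain ⟨hk | hk, k2⟩ := hk <;> obtain ⟨hl | hl, l2⟩ := hl <;>
    obtain ⟨a | a, b | b⟩ := hk <;> obtain ⟨c | c, d | d⟩ := hl <;> omega

theorem fine_Y1 {j : ℕ} {k : Z3} (hk : k ∈ Orb Γ (.b (j + 1)))
    (hl : pt Γ (.y j 1) 1 0 - k ∈ Orb Γ (.c j)) :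
    ∃ g ∈ box (Γ.M (j + 1)), k = pt Γ (.b (j + 1)) 1 g := by
  have r1 := M_small (Γ := Γ) (i := j) (j := j) (by omega)
  have r2 := M_small (Γ := Γ) (i := j) (j := j + 1) (by omega)
  have pj := P_pos (Γ := Γ) j
  have big := P_big (Γ := Γ) j
  have g2 := (mem_Orb.mp hl).1
  rcases hk with ⟨e, g, -, hg, hk⟩ | hk
  · refine ⟨g, hg, ?_⟩
    rw [box3] at hg
    simp only [ext3, Pi.neg_apply, pt0, pt1, pt2, W_b, St, Nr, X_b, W_b, X_c, W_c, X_y1, W_y1,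
      Row.R, Pi.sub_apply, Pi.zero_apply] at hk g2 hg ⊢
    omega
  · exfalso
    have g1 := (mem_Str.mp hk).1
    simp only [St, Nr, X_b, W_b, X_c, W_c, X_y1, W_y1, Row.R, pt0, pt1, Pi.sub_apply, sw0, sw1,
      Pi.zero_apply] at g1 g2
    omega

theorem fine_Y2 {j : ℕ} {k : Z3} (hk : k ∈ Orb Γ (.b (j + 1)))
    (hl : pt Γ (.y j 2) 1 0 - k ∈ Orb Γ (.b (j + 1))) :
    ∃ g ∈ box (Γ.M (j + 1)),
      k = pt Γ (.b (j + 1)) 1 g ∨ pt Γ (.y j 2) 1 0 - k = pt Γ (.b (j + 1)) 1 g := by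
  have r2 := M_small (Γ := Γ) (i := j + 1) (j := j + 1) (by omega)
  have pj := P_pos (Γ := Γ) (j + 1)
  rcases hk with ⟨e, g, -, hg, hk⟩ | hk
  · refine ⟨g, hg, Or.inl ?_⟩
    have g2 := (mem_Orb.mp hl).1
    rw [box3] at hg
    simp only [ext3, Pi.neg_apply, pt0, pt1, pt2, W_b, St, Nr, X_b, W_b, X_y2, W_y2,
      Row.R, Pi.sub_apply, Pi.zero_apply] at hk g2 hg ⊢
    omega
  · have g1 := (mem_Str.mp hk).1
    rcases hl with ⟨e, g, -, hg, hl⟩ | hl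
    · refine ⟨g, hg, Or.inr ?_⟩
      rw [box3] at hg
      simp only [ext3, Pi.neg_apply, pt0, pt1, pt2, W_b, St, Nr, X_b, W_b, X_y2, W_y2,
        Row.R, Pi.sub_apply, Pi.zero_apply, sw0, sw1] at hl g1 hg ⊢
      omega
    · exfalso
      have g2 := (mem_Str.mp hl).1
      simp only [St, Nr, X_b, W_b, X_y2, W_y2, Row.R, pt0, pt1, Pi.sub_apply, sw0, sw1,
        Pi.zero_apply] at g1 g2
      omega

theorem fine_Y {j m : ℕ} (h1 : 3 ≤ m) (h2 : m < Γ.n (j + 1)) {k : Z3}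
    (hk : k ∈ Orb Γ (.y j (m - 1))) (hl : pt Γ (.y j m) 1 0 - k ∈ Orb Γ (.y j (m - 2))) :
    k = pt Γ (.y j (m - 1)) 1 0 := by
  have pj := P_pos (Γ := Γ) j
  have big := P_big (Γ := Γ) j
  have e := X_y_add (Γ := Γ) (j := j) h1
  simp only [mem_Orb_y, W_y, pt0, pt1, pt2, Pi.sub_apply, ext3, Pi.zero_apply] at hk hl ⊢
  obtain ⟨hk, k2⟩ := hk
  obtain ⟨hl, -⟩ := hl
  rcases Nat.lt_or_ge m 5 with h5 | h5
  · have v1 : wv Γ j 1 = _ := W_y1 j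
    have v2 : wv Γ j 2 = _ := W_y2 j
    have v3 : wv Γ j 3 = _ := W_y3 j
    have v4 : wv Γ j 4 = _ := W_y4 j
    interval_cases m
    · simp only [Nat.reduceSub, X_y1, X_y2, X_y3, v1, v2, v3] at hk hl ⊢
      rcases hk with ⟨a | a, b | b⟩ | ⟨a | a, b | b⟩ <;>
        rcases hl with ⟨c | c, d | d⟩ | ⟨c | c, d | d⟩ <;> omega
    · simp only [Nat.reduceSub, X_y2, X_y3, X_y4, v2, v3, v4] at hk hl ⊢
      rcases hk with ⟨a | a, b | b⟩ | ⟨a | a, b | b⟩ <;>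
        rcases hl with ⟨c | c, d | d⟩ | ⟨c | c, d | d⟩ <;> omega
  · have b3 : (Row.y j 3).X Γ ≤ (Row.y j (m - 2)).X Γ := X_y_le (by omega) (by omega)
    have b4 : (Row.y j 3).X Γ ≤ (Row.y j (m - 1)).X Γ := X_y_le (by omega) (by omega)
    rw [X_y3] at b3 b4
    have u1 := W_le (Γ := Γ) (.y j (m - 1))
    have u2 := W_le (Γ := Γ) (.y j (m - 2))
    simp only [Row.lev, W_y] at u1 u2
    have k0 : k 0 = (Row.y j (m - 1)).X Γ ∧ (k 1 = wv Γ j (m - 1) ∨ k 1 = -wv Γ j (m - 1)) ∧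
        (wv Γ j m - k 1 = wv Γ j (m - 2) ∨ wv Γ j m - k 1 = -wv Γ j (m - 2)) := by
      rcases hk with ⟨a | a, b⟩ | ⟨-, a | a⟩ <;> rcases hl with ⟨c | c, d⟩ | ⟨-, c | c⟩ <;> omega
    clear hk hl b3 b4 u1 u2 e
    obtain ⟨k0, k1, l1⟩ := k0
    have w0 := wv_cases (Γ := Γ) j m
    have w1 := wv_cases (Γ := Γ) j (m - 1)
    have w2 := wv_cases (Γ := Γ) j (m - 2)
    have : k 1 = wv Γ j (m - 1) := by
      rcases w0 with w0 | w0 | w0 | w0 | w0 | w0 <;> omega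
    omega

end

end Pool.Agent.Work.MP_6bf1e5_an.Dec
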