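import Pool.Agent.Work.MP_6bf1e5_an.Dec.ModesA

/-!
Arithmetic of the parameters and of the long and short coordinates of the rows.
-/

open Set
open Pool.Agent.Work.MP_6bf1e5_an.B

namespace Pool.Agent.Work.MP_6bf1e5_an.Dec

namespace RA

lemma luc_add (k : ℕ) : luc (k + 2) = luc (k + 1) + luc k := rfl

lemma luc_pos : ∀ k, 0 < luc k
  | 0 => by decide
  | 1 => by decide
  | k + 2 => by have := luc_pos (k + 1); rw [luc_add]; omega

lemma luc_par : ∀ k, (k % 3 = 0 ∧ luc k % 2 = 0) ∨ (k % 3 ≠ 0 ∧ luc k % 2 = 1)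
  | 0 => by decide
  | 1 => by decide
  | k + 2 => by
    have := luc_par (k + 1)
    have := luc_par k
    rw [luc_add]; omega

lemma luc_step : ∀ k, 4 * luc (k + 1) ≤ 3 * luc (k + 2) ∧ luc (k + 2) ≤ 3 * luc (k + 1)
  | 0 => by decide
  | k + 1 => by
    have := luc_step k
    have e : luc (k + 1 + 1) = luc (k + 2) := rfl
    rw [luc_add (k + 1)]
    omega

lemma luc_mono {a b : ℕ} (ha : 1 ≤ a) (h : a ≤ b) : luc a ≤ luc b := by
  induction h with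
  | refl => exact le_rfl
  | step h ih =>
    rename_i m
    obtain ⟨m, rfl⟩ : ∃ m', m = m' + 1 := ⟨m - 1, by simp at h; omega⟩
    have := luc_step m
    have e : luc (m + 1).succ = luc (m + 2) := rfl
    omega

lemma luc_gap' {a b : ℕ} (ha : 1 ≤ a) (h : a < b) : 4 * luc a ≤ 3 * luc b := by
  obtain ⟨a, rfl⟩ : ∃ m', a = m' + 1 := ⟨a - 1, by omega⟩
  have := luc_step a
  have := luc_mono (a := a + 2) (b := b) (by omega) (by omega)
  omega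

lemma luc_three {a : ℕ} (h : 2 ≤ a) : 3 ≤ luc a := luc_mono (a := 2) (by omega) h

lemma luc_four {a : ℕ} (h : 3 ≤ a) : 4 ≤ luc a := luc_mono (a := 3) (by omega) h

lemma luc_seven {a : ℕ} (h : 4 ≤ a) : 7 ≤ luc a := luc_mono (a := 4) (by omega) h

lemma luc_zero : luc 0 = 2 := rfl
lemma luc_one : luc 1 = 1 := rfl
lemma luc_two : luc 2 = 3 := rfl
lemma luc_thr : luc 3 = 4 := rfl

lemma luc_gap {a b : ℕ} (h : luc a < luc b) : 4 * luc a ≤ 3 * luc b := by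
  rcases Nat.eq_zero_or_pos a with rfl | ha
  · rcases Nat.lt_or_ge b 2 with hb | hb
    · interval_cases b <;> simp [luc] at h
    · have := luc_three hb
      rw [luc_zero]; omega
  · rcases Nat.lt_or_ge a b with hb | hb
    · exact luc_gap' ha hb
    · rcases Nat.eq_zero_or_pos b with rfl | hb'
      · rw [luc_zero] at h ⊢; omega
      · have := luc_mono hb' hb; omega

lemma luc_inj {a b : ℕ} (h : luc a = luc b) : a = b := by
  rcases Nat.eq_zero_or_pos a with rfl | ha <;> rcases Nat.eq_zero_or_pos b with rfl | hb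
  · rfl
  · rcases Nat.lt_or_ge b 2 with hb' | hb'
    · interval_cases b; simp [luc] at h
    · have := luc_three hb'; rw [luc_zero] at h; omega
  · rcases Nat.lt_or_ge a 2 with hb' | hb'
    · interval_cases a; simp [luc] at h
    · have := luc_three hb'; rw [luc_zero] at h; omega
  · have p := luc_pos a
    rcases Nat.lt_trichotomy a b with h1 | h1 | h1
    · have := luc_gap' ha h1; omega
    · exact h1
    · have := luc_gap' hb h1; omega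

variable {Γ : Geo}

lemma T_one (j : ℕ) : 1 ≤ Γ.T j := le_trans (by norm_num) (Γ.Tbig j)

lemma T_thou (j : ℕ) : 1000 ≤ Γ.T j := le_trans (by norm_num) (Γ.Tbig j)

lemma T_mono {i j : ℕ} (h : i ≤ j) : Γ.T i ≤ Γ.T j :=
  monotone_nat_of_le_succ Γ.Tmono h

lemma P_odd (j : ℕ) : Γ.P j % 2 = 1 := by
  induction j with
  | zero => exact Γ.odd0
  | succ j ih =>
    have h1 := luc_par (Γ.n j - 1)
    have h2 := Γ.nmod j
    have h3 : luc (Γ.n j - 1) % 2 = 1 := by omega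
    rw [Γ.Psucc, Nat.mul_mod, h3, ih]

lemma P_pos (j : ℕ) : 0 < Γ.P j := by have := P_odd (Γ := Γ) j; omega

lemma P_succ_real (j : ℕ) : (Γ.P (j + 1) : ℝ) = Γ.T j ^ 8 * Γ.P j := by
  rw [Γ.Psucc, Γ.T8]; push_cast; ring

lemma P_big (j : ℕ) : 1000 * Γ.P j ≤ Γ.P (j + 1) := by
  have h : (1000 : ℝ) ≤ luc (Γ.n j - 1) := by
    rw [← Γ.T8]
    exact (T_thou j).trans (le_self_pow₀ (T_one j) (by norm_num))
  have h' : 1000 ≤ luc (Γ.n j - 1) := by exact_mod_cast h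
  rw [Γ.Psucc]
  exact Nat.mul_le_mul_right _ h'

lemma P_big2 (j : ℕ) : 1000 * Γ.P (j + 1) ≤ Γ.P (j + 2) := P_big (j + 1)

lemma P_mono {i j : ℕ} (h : i ≤ j) : Γ.P i ≤ Γ.P j :=
  monotone_nat_of_le_succ (fun j => by have := P_big (Γ := Γ) j; omega) h

lemma M_mono {i j : ℕ} (h : i ≤ j) : Γ.M i ≤ Γ.M j := by
  refine monotone_nat_of_le_succ (fun j => ?_) h
  have h1 := Γ.Llo j
  have h2 : (1000 : ℝ) ≤ Γ.T j ^ 8 := (T_thou j).trans (le_self_pow₀ (T_one j) (by norm_num))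
  have h3 : (0 : ℝ) ≤ Γ.M j := Nat.cast_nonneg _
  have : (Γ.M j : ℝ) ≤ Γ.M (j + 1) := by nlinarith only [h1, h2]
  exact_mod_cast this

lemma M_small2 (j : ℕ) : 1000 * Γ.M (j + 2) ≤ Γ.P j := by
  have h1 := Γ.sep (j + 2)
  rw [P_succ_real, P_succ_real] at h1
  set t := Γ.T (j + 2) with ht
  have t1 : 1 ≤ t := T_one _
  have a1 : Γ.T (j + 1) ^ 8 ≤ t ^ 8 :=
    pow_le_pow_left₀ (le_trans zero_le_one (T_one _)) (T_mono (by omega)) 8
  have a2 : Γ.T j ^ 8 ≤ t ^ 8 :=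
    pow_le_pow_left₀ (le_trans zero_le_one (T_one _)) (T_mono (by omega)) 8
  have hP : (0 : ℝ) ≤ Γ.P j := Nat.cast_nonneg _
  have hM : (0 : ℝ) ≤ Γ.M (j + 2) := Nat.cast_nonneg _
  have p8 : 0 < t ^ 8 := by positivity
  have a3 : Γ.T (j + 1) ^ 8 * (Γ.T j ^ 8 * Γ.P j) ≤ t ^ 8 * (t ^ 8 * Γ.P j) := by
    have := T_one (Γ := Γ) j
    gcongr
  have a4 : t ^ 17 ≤ t ^ 900 := pow_le_pow_right₀ t1 (by norm_num)
  have a5 : t ^ 16 * (1000 * Γ.M (j + 2)) ≤ t ^ 16 * Γ.P j := by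
    have b1 : (1000 : ℝ) ≤ t := T_thou _
    have p16 : 0 < t ^ 16 := by positivity
    calc t ^ 16 * (1000 * Γ.M (j + 2)) ≤ t ^ 16 * (t * (Γ.M (j + 2) + 1)) := by
          gcongr; linarith
      _ = (Γ.M (j + 2) + 1) * t ^ 17 := by ring
      _ ≤ (Γ.M (j + 2) + 1) * t ^ 900 := by gcongr
      _ ≤ t ^ 8 * (t ^ 8 * Γ.P j) := h1.trans a3
      _ = t ^ 16 * Γ.P j := by ring
  have a6 : (1000 * Γ.M (j + 2) : ℝ) ≤ Γ.P j := le_of_mul_le_mul_left a5 (by positivity)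
  exact_mod_cast a6

lemma M_small {i j : ℕ} (h : j ≤ i + 2) : 1000 * Γ.M j ≤ Γ.P i := by
  have := M_small2 (Γ := Γ) i
  have := M_mono (Γ := Γ) h
  omega

/-- The radius is small. -/
lemma R_small (ρ : Row) {i : ℕ} (h : ρ.lev ≤ i + 2) : 500 * (ρ.R Γ : ℤ) ≤ Γ.P i := by
  rcases ρ with j | j | ⟨j, m⟩
  · have := M_small (Γ := Γ) (i := i) (j := j) h
    simp only [Row.R]; omega
  · have := M_small (Γ := Γ) (i := i) (j := j + 1) h
    have := M_small (Γ := Γ) (i := i) (j := j) (by simp only [Row.lev] at h; omega)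
    simp only [Row.R]; omega
  · simp only [Row.R]; omega

lemma X_b (j : ℕ) : (Row.b j).X Γ = Γ.P j := rfl
lemma X_c (j : ℕ) : (Row.c j).X Γ = Γ.P (j + 1) := rfl
lemma X_y (j m : ℕ) : (Row.y j m).X Γ = luc (m - 1) * Γ.P (j + 1) := rfl
lemma W_b (j : ℕ) : (Row.b j).W Γ = 0 := rfl
lemma W_c (j : ℕ) : (Row.c j).W Γ = Γ.P j := rfl
lemma W_y (j m : ℕ) : (Row.y j m).W Γ = wv Γ j m := rfl
lemma R_y (j m : ℕ) : (Row.y j m).R Γ = 0 := rfl

lemma wv_cases (j m : ℕ) : (m % 6 = 1 ∧ wv Γ j m = Γ.P j) ∨ (m % 6 = 2 ∧ wv Γ j m = Γ.P (j + 1)) ∨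
    (m % 6 = 3 ∧ wv Γ j m = Γ.P (j + 1) - Γ.P j) ∨ (m % 6 = 4 ∧ wv Γ j m = -Γ.P j) ∨
    (m % 6 = 5 ∧ wv Γ j m = -Γ.P (j + 1)) ∨ (m % 6 = 0 ∧ wv Γ j m = Γ.P j - Γ.P (j + 1)) := by
  unfold wv
  split_ifs <;> omega

lemma X_y1 (j : ℕ) : (Row.y j 1).X Γ = 2 * Γ.P (j + 1) := by simp [X_y, luc]
lemma X_y2 (j : ℕ) : (Row.y j 2).X Γ = Γ.P (j + 1) := by simp [X_y, luc]
lemma X_y3 (j : ℕ) : (Row.y j 3).X Γ = 3 * Γ.P (j + 1) := by simp [X_y, luc]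
lemma X_y4 (j : ℕ) : (Row.y j 4).X Γ = 4 * Γ.P (j + 1) := by simp [X_y, luc]
lemma W_y1 (j : ℕ) : (Row.y j 1).W Γ = Γ.P j := by simp [W_y, wv]
lemma W_y2 (j : ℕ) : (Row.y j 2).W Γ = Γ.P (j + 1) := by simp [W_y, wv]
lemma W_y3 (j : ℕ) : (Row.y j 3).W Γ = Γ.P (j + 1) - Γ.P j := by simp [W_y, wv]
lemma W_y4 (j : ℕ) : (Row.y j 4).W Γ = -Γ.P j := by simp [W_y, wv]

lemma X_y_le {j m m' : ℕ} (h1 : 2 ≤ m) (h : m ≤ m') : (Row.y j m).X Γ ≤ (Row.y j m').X Γ := by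
  rw [X_y, X_y]
  have := luc_mono (a := m - 1) (b := m' - 1) (by omega) (by omega)
  gcongr

lemma X_y_add {j m : ℕ} (h1 : 3 ≤ m) :
    (Row.y j m).X Γ = (Row.y j (m - 1)).X Γ + (Row.y j (m - 2)).X Γ := by
  obtain ⟨m, rfl⟩ : ∃ m', m = m' + 3 := ⟨m - 3, by omega⟩
  simp only [X_y]
  have e : luc (m + 3 - 1) = luc (m + 3 - 1 - 1) + luc (m + 3 - 2 - 1) := luc_add m
  rw [e]; push_cast; ring

lemma X_y_top (j : ℕ) : (Row.y j (Γ.n (j + 1))).X Γ = Γ.P (j + 2) := by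
  rw [X_y, Γ.Psucc (j + 1)]; push_cast; ring

lemma X_y_gap {j m m' : ℕ} (h : luc (m - 1) < luc (m' - 1)) :
    4 * (Row.y j m).X Γ ≤ 3 * (Row.y j m').X Γ := by
  rw [X_y, X_y]
  have h1 : (4 * luc (m - 1) : ℤ) ≤ 3 * luc (m' - 1) := by exact_mod_cast luc_gap h
  have h2 : (0 : ℤ) ≤ Γ.P (j + 1) := by positivity
  nlinarith only [h1]

lemma X_y_lt {j m m' : ℕ} (h1 : 2 ≤ m) (h : m < m') :
    4 * (Row.y j m).X Γ ≤ 3 * (Row.y j m').X Γ := by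
  refine X_y_gap ?_
  have := luc_gap' (a := m - 1) (b := m' - 1) (by omega) (by omega)
  have := luc_pos (m - 1)
  omega

lemma X_lo (ρ : Row) : (Γ.P ρ.lev : ℤ) ≤ ρ.X Γ := by
  rcases ρ with j | j | ⟨j, m⟩
  · exact le_rfl
  · exact le_rfl
  · rw [X_y]
    have h1 : (1 : ℤ) ≤ luc (m - 1) := by exact_mod_cast luc_pos _
    have h2 : (0 : ℤ) ≤ Γ.P (j + 1) := by positivity
    simp only [Row.lev]
    nlinarith only [h1]

lemma X_hi {ρ : Row} (ok : ρ.ok Γ) : 4 * ρ.X Γ ≤ 3 * (Γ.P (ρ.lev + 1) : ℤ) := by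
  rcases ρ with j | j | ⟨j, m⟩
  · have := P_big (Γ := Γ) j
    simp only [X_b, Row.lev]; omega
  · have := P_big (Γ := Γ) (j + 1)
    simp only [X_c, Row.lev]; omega
  · obtain ⟨h1, h2⟩ := ok
    simp only [Row.lev]
    rcases Nat.lt_or_ge m 2 with h | h
    · obtain rfl : m = 1 := by omega
      have := P_big (Γ := Γ) (j + 1)
      rw [X_y1]; omega
    · have := X_y_lt (Γ := Γ) (j := j) h h2
      rwa [X_y_top] at this

lemma W_le (ρ : Row) : -(Γ.P ρ.lev : ℤ) ≤ ρ.W Γ ∧ ρ.W Γ ≤ Γ.P ρ.lev := by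
  rcases ρ with j | j | ⟨j, m⟩
  · simp only [W_b]; omega
  · have := P_big (Γ := Γ) j
    simp only [W_c, Row.lev]; omega
  · have := P_big (Γ := Γ) j
    have := wv_cases (Γ := Γ) j m
    simp only [W_y, Row.lev]; omega

lemma lev_le {ρ ρ' : Row} (ok' : ρ'.ok Γ) (h : ρ.X Γ ≤ ρ'.X Γ) : ρ.lev ≤ ρ'.lev := by
  by_contra hc
  have := P_mono (Γ := Γ) (i := ρ'.lev + 1) (j := ρ.lev) (by omega)
  have := X_lo (Γ := Γ) ρ
  have := X_hi ok'
  have := P_pos (Γ := Γ) (ρ'.lev + 1)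
  omega

/-- Every row of positive level has the long coordinate of a chain mode. -/
lemma X_rep {ρ : Row} (ok : ρ.ok Γ) {j : ℕ} (h : ρ.lev = j + 1) :
    ∃ m, 1 ≤ m ∧ m < Γ.n (j + 1) ∧ ρ.X Γ = (Row.y j m).X Γ ∧
      (ρ = .y j m ∨ (m = 2 ∧ (ρ = .b (j + 1) ∨ ρ = .c j))) := by
  have := Γ.n8 (j + 1)
  rcases ρ with i | i | ⟨i, m⟩
  · obtain rfl : i = j + 1 := h
    exact ⟨2, by omega, by omega, by rw [X_y2, X_b], Or.inr ⟨rfl, Or.inl rfl⟩⟩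
  · obtain rfl : i = j := by simpa [Row.lev] using h
    exact ⟨2, by omega, by omega, by rw [X_y2, X_c], Or.inr ⟨rfl, Or.inr rfl⟩⟩
  · obtain rfl : i = j := by simpa [Row.lev] using h
    exact ⟨m, ok.1, ok.2, rfl, Or.inl rfl⟩

lemma lev_zero {ρ : Row} (h : ρ.lev = 0) : ρ = .b 0 := by
  rcases ρ with i | i | ⟨i, m⟩
  · obtain rfl : i = 0 := h
    rfl
  · simp [Row.lev] at h
  · simp [Row.lev] at h

lemma X_gap {ρ ρ' : Row} (ok : ρ.ok Γ) (ok' : ρ'.ok Γ) (h : ρ.X Γ < ρ'.X Γ) :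
    4 * ρ.X Γ ≤ 3 * ρ'.X Γ := by
  rcases (lev_le ok' h.le).lt_or_eq with hl | hl
  · have := P_mono (Γ := Γ) (i := ρ.lev + 1) (j := ρ'.lev) (by omega)
    have := X_lo (Γ := Γ) ρ'
    have := X_hi ok
    omega
  · rcases (by omega : ρ.lev = 0 ∨ ρ.lev = (ρ.lev - 1) + 1) with h0 | h0
    · have a := lev_zero h0
      have b := lev_zero (hl ▸ h0 : ρ'.lev = 0)
      subst a b; omega
    · obtain ⟨m, -, -, e, -⟩ := X_rep ok h0
      obtain ⟨m', -, -, e', -⟩ := X_rep ok' (hl.symm.trans h0)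
      rw [e, e'] at h ⊢
      refine X_y_gap ?_
      rw [X_y, X_y] at h
      have := lt_of_mul_lt_mul_right h (by positivity)
      exact_mod_cast this

lemma X_eq_of_near {ρ ρ' : Row} (ok : ρ.ok Γ) (ok' : ρ'.ok Γ) (h1 : 3 * ρ.X Γ < 4 * ρ'.X Γ)
    (h2 : 3 * ρ'.X Γ < 4 * ρ.X Γ) : ρ.X Γ = ρ'.X Γ := by
  rcases lt_trichotomy (ρ.X Γ) (ρ'.X Γ) with h | h | h
  · have := X_gap ok ok' h; omega
  · exact h
  · have := X_gap ok' ok h; omega

/-- Rows with the long coordinate of a given chain mode. -/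
lemma row_of_X {ρ : Row} (ok : ρ.ok Γ) {j m : ℕ} (h1 : 1 ≤ m) (h2 : m < Γ.n (j + 1))
    (h : ρ.X Γ = (Row.y j m).X Γ) : ρ = .y j m ∨ (m = 2 ∧ (ρ = .b (j + 1) ∨ ρ = .c j)) := by
  have oy : (Row.y j m).ok Γ := ⟨h1, h2⟩
  have hl : ρ.lev = j + 1 := le_antisymm (lev_le oy h.le) (lev_le ok h.ge)
  obtain ⟨m', a1, -, e, H⟩ := X_rep ok hl
  rw [e, X_y, X_y] at h
  have hp : (Γ.P (j + 1) : ℤ) ≠ 0 := by have := P_pos (Γ := Γ) (j + 1); omega
  have := mul_right_cancel₀ hp h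
  have := luc_inj (a := m' - 1) (b := m - 1) (by exact_mod_cast this)
  obtain rfl : m' = m := by omega
  exact H

lemma row_of_P {ρ : Row} (ok : ρ.ok Γ) {j : ℕ} (h : ρ.X Γ = Γ.P j) :
    ρ = .b j ∨ ∃ i, j = i + 1 ∧ (ρ = .c i ∨ ρ = .y i 2) := by
  rcases j with _ | j
  · left
    have : ρ.lev ≤ (Row.b 0).lev := lev_le (Γ := Γ) (ρ' := .b 0) trivial (by rw [h, X_b])
    exact lev_zero (by simpa [Row.lev] using this)
  · have := Γ.n8 (j + 1)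
    rcases row_of_X ok (j := j) (m := 2) (by omega) (by omega) (by rw [h, X_y2]) with
      h | ⟨-, h | h⟩
    · exact Or.inr ⟨j, rfl, Or.inr h⟩
    · exact Or.inl h
    · exact Or.inr ⟨j, rfl, Or.inl h⟩

/-- The predecessor of a long coordinate. -/
lemma X_pred {ρ : Row} (ok : ρ.ok Γ) {j m : ℕ} (h1 : 5 ≤ m) (h2 : m ≤ Γ.n (j + 1))
    (h : ρ.X Γ < (Row.y j m).X Γ) : ρ = .y j (m - 1) ∨ ρ.X Γ ≤ (Row.y j (m - 2)).X Γ := by
  have b3 : (Row.y j 3).X Γ ≤ (Row.y j (m - 2)).X Γ := X_y_le (by omega) (by omega)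
  have bt : (Row.y j m).X Γ ≤ (Row.y j (Γ.n (j + 1))).X Γ := X_y_le (by omega) h2
  rw [X_y3] at b3
  rw [X_y_top] at bt
  rcases lt_trichotomy ρ.lev (j + 1) with hl | hl | hl
  · have := X_hi ok
    have := P_mono (Γ := Γ) (i := ρ.lev + 1) (j := j + 1) (by omega)
    right; omega
  · obtain ⟨m', a1, a2, e, H⟩ := X_rep ok hl
    rcases Nat.lt_or_ge m' 3 with h3 | h3
    · right
      rw [e]
      interval_cases m'
      · rw [X_y1]; omega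
      · rw [X_y2]; omega
    · rcases H with H | ⟨H, -⟩
      · rcases lt_trichotomy m' (m - 1) with h4 | h4 | h4
        · right; rw [e]; exact X_y_le (by omega) (by omega)
        · left; rw [H, h4]
        · have := X_y_le (Γ := Γ) (j := j) (m := m) (m' := m') (by omega) (by omega)
          omega
      · omega
  · have := X_lo (Γ := Γ) ρ
    have := P_mono (Γ := Γ) (i := j + 2) (j := ρ.lev) (by omega)
    omega

lemma lab_y (j : ℕ) {m : ℕ} (h1 : 1 ≤ m) :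
    (m % 3 = 0 ∧ (Row.y j m).X Γ % 2 = 1 ∧ (Row.y j m).W Γ % 2 = 0) ∨
    (m % 3 = 1 ∧ (Row.y j m).X Γ % 2 = 0 ∧ (Row.y j m).W Γ % 2 = 1) ∨
    (m % 3 = 2 ∧ (Row.y j m).X Γ % 2 = 1 ∧ (Row.y j m).W Γ % 2 = 1) := by
  have a := luc_par (m - 1)
  have b := P_odd (Γ := Γ) j
  have c := P_odd (Γ := Γ) (j + 1)
  have d := wv_cases (Γ := Γ) j m
  have e : (Row.y j m).X Γ % 2 = luc (m - 1) % 2 := by
    have c' : (Γ.P (j + 1) : ℤ) % 2 = 1 := by omega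
    rw [X_y, Int.mul_emod, c']; omega
  rw [W_y]
  omega

lemma lab {ρ : Row} (ok : ρ.ok Γ) : ρ.X Γ % 2 = 1 ∨ ρ.W Γ % 2 = 1 := by
  rcases ρ with j | j | ⟨j, m⟩
  · have := P_odd (Γ := Γ) j
    rw [X_b]; omega
  · have := P_odd (Γ := Γ) j
    rw [W_c]; omega
  · have := lab_y (Γ := Γ) j ok.1
    omega

/-- Rows whose long coordinate is at most `4 P (j+1)`. -/
lemma small_cases {ρ : Row} (ok : ρ.ok Γ) {j : ℕ} (h : ρ.X Γ ≤ 4 * Γ.P (j + 1)) :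
    ρ = .b (j + 1) ∨ ρ = .c j ∨ ρ = .y j 1 ∨ ρ = .y j 2 ∨ ρ = .y j 3 ∨ ρ = .y j 4 ∨
      (ρ.lev ≤ j ∧ 4 * ρ.X Γ ≤ 3 * Γ.P (j + 1) ∧ -(Γ.P j : ℤ) ≤ ρ.W Γ ∧ ρ.W Γ ≤ Γ.P j) := by
  rcases lt_trichotomy ρ.lev (j + 1) with hl | hl | hl
  · have := X_hi ok
    have := P_mono (Γ := Γ) (i := ρ.lev + 1) (j := j + 1) (by omega)
    have := P_mono (Γ := Γ) (i := ρ.lev) (j := j) (by omega)
    have := W_le (Γ := Γ) ρ
    refine Or.inr <| Or.inr <| Or.inr <| Or.inr <| Or.inr <| Or.inr ?_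
    omega
  · obtain ⟨m', a1, a2, e, H⟩ := X_rep ok hl
    rcases H with H | ⟨-, H | H⟩
    · rcases Nat.lt_or_ge m' 5 with h3 | h3
      · interval_cases m' <;> simp [H]
      · have := X_y_lt (Γ := Γ) (j := j) (m := 4) (m' := m') (by omega) (by omega)
        have := P_pos (Γ := Γ) (j + 1)
        rw [X_y4] at *
        omega
    · simp [H]
    · simp [H]
  · have := X_lo (Γ := Γ) ρ
    have := P_mono (Γ := Γ) (i := j + 2) (j := ρ.lev) (by omega)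
    have := P_big2 (Γ := Γ) j
    have := P_pos (Γ := Γ) (j + 1)
    omega

end RA

end Pool.Agent.Work.MP_6bf1e5_an.Dec
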