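import Pool.Agent.Work.MP_6bf1e5_an.Dec.RowsA

/-!
Classification of the triads of carriers.
-/

open Set
open Pool.Agent.Work.MP_6bf1e5_an.B

namespace Pool.Agent.Work.MP_6bf1e5_an.Dec

namespace RA

variable {Γ : Geo}

/-- Some signed sum of `x`, `y`, `z` is at most `d` in absolute value. -/
def Tri (x y z d : ℤ) : Prop :=
  (x + y + z ≤ d ∧ -d ≤ x + y + z) ∨ (x + y - z ≤ d ∧ -d ≤ x + y - z) ∨
  (x - y + z ≤ d ∧ -d ≤ x - y + z) ∨ (x - y - z ≤ d ∧ -d ≤ x - y - z)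

lemma Tri.swap {x y z d : ℤ} (h : Tri x y z d) : Tri y x z d := by
  unfold Tri at *; omega

lemma des12 {a b c : Row} (h : Des' Γ a b c) : Des' Γ b a c := by
  unfold Des' at *; tauto

lemma des23 {a b c : Row} (h : Des' Γ a b c) : Des' Γ a c b := by
  unfold Des' at *; tauto

lemma des13 {a b c : Row} (h : Des' Γ a b c) : Des' Γ c b a := by
  unfold Des' at *; tauto

lemma des_fib {j m : ℕ} (h1 : 1 ≤ m) (h2 : m + 2 < Γ.n (j + 1)) :
    Des' Γ (.y j m) (.y j (m + 1)) (.y j (m + 2)) := by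
  have := Des.fib (Γ := Γ) j m h1 h2.le
  rw [yr, if_neg h2.ne] at this
  exact Or.inl this

lemma des_top (j : ℕ) :
    Des' Γ (.y j (Γ.n (j + 1) - 2)) (.y j (Γ.n (j + 1) - 1)) (.c (j + 1)) := by
  have h8 := Γ.n8 (j + 1)
  have := Des.fib (Γ := Γ) j (Γ.n (j + 1) - 2) (by omega) (by omega)
  rw [yr, if_pos (by omega), show Γ.n (j + 1) - 2 + 1 = Γ.n (j + 1) - 1 by omega] at this
  exact Or.inl this

lemma fib_case {a b : Row} (oa : a.ok Γ) (ob : b.ok Γ) {i m : ℕ} (h5 : 5 ≤ m)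
    (hm : m ≤ Γ.n (i + 1)) {d : ℤ} (hd : 80 * d ≤ Γ.P (i + 1)) (hba : b.X Γ ≤ a.X Γ)
    (hac : a.X Γ < (Row.y i m).X Γ) (s1 : (Row.y i m).X Γ - d ≤ a.X Γ + b.X Γ)
    (s2 : a.X Γ + b.X Γ ≤ (Row.y i m).X Γ + d) : a = .y i (m - 1) ∧ b = .y i (m - 2) := by
  have e := X_y_add (Γ := Γ) (j := i) (m := m) (by omega)
  have g := X_y_lt (Γ := Γ) (j := i) (m := m - 2) (m' := m - 1) (by omega) (by omega)
  have b3 : (Row.y i 3).X Γ ≤ (Row.y i (m - 2)).X Γ := X_y_le (by omega) (by omega)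
  have pp := P_pos (Γ := Γ) (i + 1)
  rw [X_y3] at b3
  rcases X_pred oa h5 hm hac with rfl | h
  · refine ⟨rfl, ?_⟩
    have oy : (Row.y i (m - 2)).ok Γ := ⟨by omega, by omega⟩
    have := X_eq_of_near ob oy (by omega) (by omega)
    rcases row_of_X ob oy.1 oy.2 this with h | h
    · exact h
    · omega
  · omega

theorem core_ss1 {a b c : Row} (oa : a.ok Γ) (ob : b.ok Γ) (oc : c.ok Γ) {j : ℕ}
    (hl : c.lev = j + 1) (hba : b.X Γ ≤ a.X Γ) (hac : a.X Γ ≤ c.X Γ) {d : ℤ}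
    (hd : 80 * d ≤ Γ.P j) (hx : Tri (a.X Γ) (b.X Γ) (c.X Γ) d)
    (hy : Tri (a.W Γ) (b.W Γ) (c.W Γ) d) (px : (a.X Γ + b.X Γ + c.X Γ) % 2 = 0)
    (py : (a.W Γ + b.W Γ + c.W Γ) % 2 = 0) : Des' Γ a b c := by
  have big := P_big (Γ := Γ) j
  have o0 := P_odd (Γ := Γ) j
  have o1 := P_odd (Γ := Γ) (j + 1)
  have n8 := Γ.n8 (j + 1)
  have lb := lab ob
  have xb := X_lo (Γ := Γ) b
  have wb := W_le (Γ := Γ) b
  have pb := P_pos (Γ := Γ) b.lev
  have xc := X_lo (Γ := Γ) c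
  rw [hl] at xc
  obtain ⟨m, m1, m2, e, Hc⟩ := X_rep oc hl
  unfold Tri at hx hy
  rcases hac.lt_or_eq with hac | hac
  · have gap := X_gap oa oc hac
    have s1 : c.X Γ - d ≤ a.X Γ + b.X Γ := by omega
    have s2 : a.X Γ + b.X Γ ≤ c.X Γ + d := by omega
    clear hx
    rcases Nat.lt_or_ge m 5 with h5 | h5
    · by_cases hm2 : m = 2
      · subst hm2
        rw [X_y2] at e
        rcases j with _ | i
        · exfalso
          have := X_lo (Γ := Γ) a
          have la : a.lev = 0 := by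
            by_contra hc
            have := P_mono (Γ := Γ) (i := 0 + 1) (j := a.lev) (by omega)
            omega
          obtain rfl := lev_zero la
          rw [X_b] at *
          omega
        · have top := X_y_top (Γ := Γ) i
          have n8' := Γ.n8 (i + 1)
          have nm := Γ.nmod (i + 1)
          have e2 : Γ.P (i + 1 + 1) = Γ.P (i + 2) := rfl
          obtain ⟨rfl, rfl⟩ := fib_case oa ob (i := i) (m := Γ.n (i + 1)) (by omega) le_rfl hd hba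
            (by omega) (by omega) (by omega)
          have l1 := lab_y (Γ := Γ) i (m := Γ.n (i + 1) - 1) (by omega)
          have l2 := lab_y (Γ := Γ) i (m := Γ.n (i + 1) - 2) (by omega)
          have w1 := W_le (Γ := Γ) (.y i (Γ.n (i + 1) - 1))
          simp only [Row.lev] at w1 wb
          rcases Hc with rfl | ⟨-, rfl | rfl⟩
          · rw [W_y2] at hy; omega
          · rw [W_b] at py; omega
          · exact des12 (des_top i)
      · obtain rfl : c = .y j m := by tauto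
        have ha4 : a.X Γ ≤ 4 * Γ.P (j + 1) := by
          interval_cases m
          · rw [X_y1] at hac; omega
          · exact absurd rfl hm2
          · rw [X_y3] at hac; omega
          · rw [X_y4] at hac; omega
        have f1 : Des' Γ (.y j 1) (.y j 2) (.y j 3) := des_fib (by omega) (by omega)
        have f2 : Des' Γ (.y j 2) (.y j 3) (.y j 4) := des_fib (by omega) (by omega)
        have f3 : Des' Γ (.b (j + 1)) (.c j) (.y j 1) := Or.inl (.one j)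
        clear xb wb pb lb e xc
        interval_cases m
        · rcases small_cases oa ha4 with rfl | rfl | rfl | rfl | rfl | rfl | ha <;>
            rcases small_cases ob (hba.trans ha4) with rfl | rfl | rfl | rfl | rfl | rfl | hb <;>
            simp only [X_b, X_c, X_y1, X_y2, X_y3, X_y4, W_b, W_c, W_y1, W_y2, W_y3, W_y4]
              at hba hac gap s1 s2 hy px py <;>
            first | exact f3 | exact des12 f3 | omega
        · exact absurd rfl hm2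
        · rcases small_cases oa ha4 with rfl | rfl | rfl | rfl | rfl | rfl | ha <;>
            rcases small_cases ob (hba.trans ha4) with rfl | rfl | rfl | rfl | rfl | rfl | hb <;>
            simp only [X_b, X_c, X_y1, X_y2, X_y3, X_y4, W_b, W_c, W_y1, W_y2, W_y3, W_y4]
              at hba hac gap s1 s2 hy px py <;>
            first | exact f1 | omega
        · rcases small_cases oa ha4 with rfl | rfl | rfl | rfl | rfl | rfl | ha <;>
            rcases small_cases ob (hba.trans ha4) with rfl | rfl | rfl | rfl | rfl | rfl | hb <;>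
            simp only [X_b, X_c, X_y1, X_y2, X_y3, X_y4, W_b, W_c, W_y1, W_y2, W_y3, W_y4]
              at hba hac gap s1 s2 hy px py <;>
            first | exact des12 f2 | omega
    · obtain rfl : c = .y j m := by
        rcases Hc with h | h
        · exact h
        · omega
      obtain ⟨t, rfl⟩ : ∃ t, m = t + 2 := ⟨m - 2, by omega⟩
      obtain ⟨rfl, rfl⟩ := fib_case oa ob (i := j) (m := t + 2) h5 m2.le (d := d) (by omega) hba
        hac s1 s2
      exact des12 (des_fib (by omega) m2)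
  · exfalso
    have s1 : b.X Γ ≤ d := by omega
    clear hx
    rcases row_of_X oa m1 m2 (hac.trans e) with rfl | ⟨rfl, rfl | rfl⟩ <;>
      rcases Hc with rfl | ⟨hm, rfl | rfl⟩ <;> (try subst hm) <;>
      (try simp only [W_b, W_c, W_y2] at hy py) <;> omega

theorem core_ss {a b c : Row} (oa : a.ok Γ) (ob : b.ok Γ) (oc : c.ok Γ) {j : ℕ}
    (hl : c.lev = j + 1) (hbc : b.X Γ ≤ c.X Γ) (hac : a.X Γ ≤ c.X Γ) {d : ℤ}
    (hd : 80 * d ≤ Γ.P j) (hx : Tri (a.X Γ) (b.X Γ) (c.X Γ) d)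
    (hy : Tri (a.W Γ) (b.W Γ) (c.W Γ) d) (px : (a.X Γ + b.X Γ + c.X Γ) % 2 = 0)
    (py : (a.W Γ + b.W Γ + c.W Γ) % 2 = 0) : Des' Γ a b c := by
  rcases le_total (b.X Γ) (a.X Γ) with h | h
  · exact core_ss1 oa ob oc hl h hac hd hx hy px py
  · exact des12 (core_ss1 ob oa oc hl h hbc hd hx.swap hy.swap (by omega) (by omega))

lemma big_W {ρ : Row} (ok : ρ.ok Γ) {j : ℕ} (h : ρ.X Γ < 3 * Γ.P (j + 1)) :
    ρ = .y j 2 ∨ (-(Γ.P j : ℤ) ≤ ρ.W Γ ∧ ρ.W Γ ≤ Γ.P j) := by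
  rcases small_cases ok (j := j) (by omega) with rfl | rfl | rfl | rfl | rfl | rfl | ha
  · rw [W_b]; omega
  · rw [W_c]; omega
  · rw [W_y1]; omega
  · exact Or.inl rfl
  · rw [X_y3] at h; omega
  · rw [W_y4]; omega
  · omega

lemma W_le' {ρ c : Row} (oc : c.ok Γ) {j : ℕ} (hl : c.lev = j + 1) (h : ρ.X Γ ≤ c.X Γ) :
    -(Γ.P (j + 1) : ℤ) ≤ ρ.W Γ ∧ ρ.W Γ ≤ Γ.P (j + 1) := by
  have := W_le (Γ := Γ) ρ
  have := P_mono (Γ := Γ) (i := ρ.lev) (j := j + 1) (hl ▸ lev_le oc h)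
  omega

theorem core_sw {a b c : Row} (oa : a.ok Γ) (ob : b.ok Γ) (oc : c.ok Γ) {j : ℕ}
    (hl : c.lev = j + 1) (hbc : b.X Γ ≤ c.X Γ) (hac : a.X Γ ≤ c.X Γ) {d : ℤ}
    (hd : 80 * d ≤ Γ.P j) (hx : Tri (a.X Γ) (b.W Γ) (c.X Γ) d)
    (hy : Tri (a.W Γ) (b.X Γ) (c.W Γ) d) (px : (a.X Γ + b.W Γ + c.X Γ) % 2 = 0)
    (py : (a.W Γ + b.X Γ + c.W Γ) % 2 = 0) : Des' Γ a b c := by
  have big := P_big (Γ := Γ) j
  have o0 := P_odd (Γ := Γ) j
  have o1 := P_odd (Γ := Γ) (j + 1)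
  have wa := W_le' oc hl hac
  have wc := W_le' oc hl le_rfl
  have hb3 : b.X Γ < 3 * Γ.P (j + 1) := by unfold Tri at hy; omega
  rcases big_W ob hb3 with rfl | wb
  · have e : (Row.y j 2).W Γ = (Row.y j 2).X Γ := by rw [W_y2, X_y2]
    rw [e] at hx px
    rw [← e] at hy py
    exact core_ss oa ob oc hl hbc hac hd hx hy px py
  have lb := lab ob
  have xc := X_lo (Γ := Γ) c
  have xa := X_lo (Γ := Γ) a
  have xb := X_lo (Γ := Γ) b
  rw [hl] at xc
  unfold Tri at hx hy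
  have hac' : a.X Γ = c.X Γ := by
    rcases hac.lt_or_eq with h | h
    · have := X_gap oa oc h
      omega
    · exact h
  clear hx
  obtain ⟨m, m1, m2, e, Hc⟩ := X_rep oc hl
  have n1 : (3 * b.X Γ < 4 * Γ.P j ∧ 3 * Γ.P j < 4 * b.X Γ ∧ b.W Γ % 2 = 0) → b = .b j := by
    rintro ⟨u1, u2, u3⟩
    have := X_eq_of_near (ρ' := .b j) ob trivial u1 u2
    rcases row_of_P ob this with h | ⟨i, rfl, rfl | rfl⟩
    · exact h
    · have := P_odd (Γ := Γ) i
      rw [W_c] at u3; omega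
    · rw [W_y2] at u3; omega
  have n2 : (3 * b.X Γ < 4 * Γ.P (j + 1) ∧ 3 * Γ.P (j + 1) < 4 * b.X Γ ∧ b.W Γ % 2 = 0) →
      b = .b (j + 1) := by
    rintro ⟨u1, u2, u3⟩
    have := X_eq_of_near (ρ' := .b (j + 1)) ob trivial u1 u2
    rcases row_of_P ob this with h | ⟨i, hi, rfl | rfl⟩
    · exact h
    · have := P_odd (Γ := Γ) i
      rw [W_c] at u3; omega
    · have := P_odd (Γ := Γ) (i + 1)
      rw [W_y2] at u3; omega
  have f1 : Des' Γ (.b j) (.b (j + 1)) (.c j) := Or.inl (.strain j)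
  have f2 : Des' Γ (.b (j + 1)) (.b (j + 1)) (.y j 2) := Or.inl (.two j)
  rcases row_of_X oa m1 m2 (hac'.trans e) with rfl | ⟨rfl, rfl | rfl⟩ <;>
    rcases Hc with rfl | ⟨hm, rfl | rfl⟩ <;> (try subst hm) <;>
    (try simp only [W_b, W_c, W_y2] at hy py)
  · omega
  · obtain rfl := n2 (by omega)
    exact des13 f2
  · omega
  · obtain rfl := n2 (by omega)
    exact f2
  · omega
  · obtain rfl := n1 (by omega)
    exact des12 f1
  · omega
  · obtain rfl := n1 (by omega)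
    exact des12 (des23 f1)
  · omega

theorem core_ww {a b c : Row} (oa : a.ok Γ) (ob : b.ok Γ) (oc : c.ok Γ) {j : ℕ}
    (hl : c.lev = j + 1) (hbc : b.X Γ ≤ c.X Γ) (hac : a.X Γ ≤ c.X Γ) {d : ℤ}
    (hd : 80 * d ≤ Γ.P j) (hx : Tri (a.W Γ) (b.W Γ) (c.X Γ) d)
    (hy : Tri (a.X Γ) (b.X Γ) (c.W Γ) d) (px : (a.W Γ + b.W Γ + c.X Γ) % 2 = 0)
    (py : (a.X Γ + b.X Γ + c.W Γ) % 2 = 0) : Des' Γ a b c := by
  have big := P_big (Γ := Γ) j
  have pp := P_pos (Γ := Γ) j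
  have wa := W_le' oc hl hac
  have wb := W_le' oc hl hbc
  have xc := X_lo (Γ := Γ) c
  rw [hl] at xc
  have e : (Row.y j 2).W Γ = (Row.y j 2).X Γ := by rw [W_y2, X_y2]
  have hc3 : c.X Γ < 3 * Γ.P (j + 1) := by unfold Tri at hx; omega
  rcases big_W oa (hac.trans_lt hc3) with rfl | ha
  · rw [e] at hx px
    rw [← e] at hy py
    exact core_sw oa ob oc hl hbc hac hd hx hy px py
  rcases big_W ob (hbc.trans_lt hc3) with rfl | hb
  · rw [e] at hx px
    rw [← e] at hy py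
    exact des12 (core_sw ob oa oc hl hac hbc hd hx.swap hy.swap (by omega) (by omega))
  unfold Tri at hx
  omega

/-- `a` is within `r` of `x` or of `-x`. -/
def Nr (a x r : ℤ) : Prop := (a - x ≤ r ∧ x - a ≤ r) ∨ (a + x ≤ r ∧ -x - a ≤ r)

/-- Size and parity of the first two coordinates of a mode of the row `ρ`. -/
def St (Γ : Geo) (ρ : Row) (a b : ℤ) : Prop :=
  Nr a (ρ.X Γ) (2 * ρ.R Γ) ∧ Nr b (ρ.W Γ) (2 * ρ.R Γ) ∧ (a - ρ.X Γ) % 2 = 0 ∧
    (b - ρ.W Γ) % 2 = 0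

lemma tri_of {k l r x y z s t u : ℤ} (h : k + l + r = 0) (h1 : Nr k x s) (h2 : Nr l y t)
    (h3 : Nr r z u) : Tri x y z (s + t + u) := by
  unfold Nr Tri at *; omega

theorem core {a b c : Row} (oa : a.ok Γ) (ob : b.ok Γ) (oc : c.ok Γ)
    (hbc : b.X Γ ≤ c.X Γ) (hac : a.X Γ ≤ c.X Γ) {k0 k1 l0 l1 r0 r1 : ℤ} (h0 : k0 + l0 + r0 = 0)
    (h1 : k1 + l1 + r1 = 0) (ha : St Γ a k0 k1 ∨ St Γ a k1 k0)
    (hb : St Γ b l0 l1 ∨ St Γ b l1 l0) (hc : St Γ c r0 r1) : Des' Γ a b c := by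
  have la := lev_le oc hac
  have lb := lev_le oc hbc
  rcases (by omega : c.lev = 0 ∨ c.lev = (c.lev - 1) + 1) with hl | hl
  · exfalso
    obtain rfl := lev_zero (ρ := a) (by omega)
    obtain rfl := lev_zero (ρ := b) (by omega)
    obtain rfl := lev_zero hl
    have := P_odd (Γ := Γ) 0
    simp only [St, X_b, W_b] at ha hb hc
    obtain ⟨-, -, c1, c2⟩ := hc
    rcases ha with ⟨-, -, a1, a2⟩ | ⟨-, -, a1, a2⟩ <;>
      rcases hb with ⟨-, -, b1, b2⟩ | ⟨-, -, b1, b2⟩ <;> omega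
  · set j := c.lev - 1
    have r1 := R_small (Γ := Γ) a (i := j) (by omega)
    have r2 := R_small (Γ := Γ) b (i := j) (by omega)
    have r3 := R_small (Γ := Γ) c (i := j) (by omega)
    have hd : 80 * (2 * (a.R Γ : ℤ) + 2 * b.R Γ + 2 * c.R Γ) ≤ Γ.P j := by omega
    obtain ⟨c1, c2, c3, c4⟩ := hc
    rcases ha with ⟨a1, a2, a3, a4⟩ | ⟨a1, a2, a3, a4⟩ <;>
      rcases hb with ⟨b1, b2, b3, b4⟩ | ⟨b1, b2, b3, b4⟩
    · exact core_ss oa ob oc hl hbc hac hd (tri_of h0 a1 b1 c1) (tri_of h1 a2 b2 c2)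
        (by omega) (by omega)
    · exact core_sw oa ob oc hl hbc hac hd (tri_of h0 a1 b2 c1) (tri_of h1 a2 b1 c2)
        (by omega) (by omega)
    · exact des12 (core_sw ob oa oc hl hac hbc hd (tri_of h0 a2 b1 c1).swap
        (tri_of h1 a1 b2 c2).swap (by omega) (by omega))
    · exact core_ww oa ob oc hl hbc hac hd (tri_of h0 a2 b2 c1) (tri_of h1 a1 b1 c2)
        (by omega) (by omega)

theorem core' {a b c : Row} (oa : a.ok Γ) (ob : b.ok Γ) (oc : c.ok Γ)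
    (hbc : b.X Γ ≤ c.X Γ) (hac : a.X Γ ≤ c.X Γ) {k0 k1 l0 l1 r0 r1 : ℤ} (h0 : k0 + l0 + r0 = 0)
    (h1 : k1 + l1 + r1 = 0) (ha : St Γ a k0 k1 ∨ St Γ a k1 k0)
    (hb : St Γ b l0 l1 ∨ St Γ b l1 l0) (hc : St Γ c r0 r1 ∨ St Γ c r1 r0) : Des' Γ a b c := by
  rcases hc with hc | hc
  · exact core oa ob oc hbc hac h0 h1 ha hb hc
  · exact core oa ob oc hbc hac h1 h0 ha.symm hb.symm hc

theorem core'' {a b c : Row} (oa : a.ok Γ) (ob : b.ok Γ) (oc : c.ok Γ)
    {k0 k1 l0 l1 r0 r1 : ℤ} (h0 : k0 + l0 + r0 = 0)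
    (h1 : k1 + l1 + r1 = 0) (ha : St Γ a k0 k1 ∨ St Γ a k1 k0)
    (hb : St Γ b l0 l1 ∨ St Γ b l1 l0) (hc : St Γ c r0 r1 ∨ St Γ c r1 r0) : Des' Γ a b c := by
  by_cases u : b.X Γ ≤ c.X Γ ∧ a.X Γ ≤ c.X Γ
  · exact core' oa ob oc u.1 u.2 h0 h1 ha hb hc
  by_cases v : c.X Γ ≤ b.X Γ ∧ a.X Γ ≤ b.X Γ
  · exact des23 (core' oa oc ob v.1 v.2 (by omega) (by omega) ha hc hb)
  · exact des13 (core' oc ob oa (by omega) (by omega) (by omega) (by omega) hc hb ha)

end RA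

end Pool.Agent.Work.MP_6bf1e5_an.Dec
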