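import Pool.Agent.Work.MP_6bf1e5_an.Dec.Upper

/-!
The growth of the next level.
-/

open Set Complex
open scoped InnerProductSpace ComplexConjugate
open Pool.Agent.Work.MP_6bf1e5_an.B (Z3 R3 box)

namespace Pool.Agent.Work.MP_6bf1e5_an.Dec

noncomputable section

variable {Γ : Geo} {ν a0 : ℝ} {R : Raw} {j : ℕ} {t0 a tb t1 : ℝ}

namespace RunX

/-! Numerical lemmas -/

lemma mul_pow_le {x c : ℝ} (hx : (10 : ℝ) ^ 100 ≤ x) (hc : c ≤ 10 ^ 100) {k l : ℕ} (h : k < l) :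
    c * x ^ k ≤ x ^ l := by
  have x1 : 1 ≤ x := le_trans (by norm_num) hx
  calc c * x ^ k ≤ x * x ^ k := by gcongr; exact hc.trans hx
    _ = x ^ (k + 1) := by ring
    _ ≤ x ^ l := pow_le_pow_right₀ x1 h

lemma div_pow_le {x c : ℝ} (hx : (10 : ℝ) ^ 100 ≤ x) (hc : c ≤ 10 ^ 100) {k l : ℕ} (h : k < l) :
    c / x ^ l ≤ 1 / x ^ k := by
  have x0 : 0 < x := lt_of_lt_of_le (by norm_num) hx
  rw [div_le_div_iff₀ (by positivity) (by positivity), one_mul]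
  exact mul_pow_le hx hc h

lemma div_pow_le' {x c : ℝ} (hx : (10 : ℝ) ^ 100 ≤ x) (hc : c ≤ 10 ^ 100) {l : ℕ} (h : 0 < l) :
    c / x ^ l ≤ 1 := by
  simpa using div_pow_le hx hc h

lemma num_eps {x T lam kap N m mb Nb r a α nb nc q0 s f Ec : ℝ} (hx : (10 : ℝ) ^ 100 ≤ x)
    (hT : x ≤ T) (lam0 : 0 < lam) (hkap : lam / 4 ≤ kap) (hN : x ^ 101 * m ≤ N) (m1 : 1 ≤ m)
    (hmb : T ^ 110 ≤ mb) (Nb0 : 0 < Nb) (hr : r = kap * N * a) (a0 : 0 < a)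
    (hα : a / (4 * m) ≤ α) (nb0 : 0 ≤ nb) (hnb : nb ≤ α) (nc0 : 0 ≤ nc) (hnc : nc ≤ α / 2 / mb)
    (hq : x ^ 100 * q0 ≤ r) (hs : s ≤ 4 * r) (hf : |f| ≤ 10 ^ 4 * (x ^ 8 * lam) * (x * a) ^ 2)
    (hE : Ec ≤ x * a) (hρ : x ^ 8 * lam * Nb * (α / 2) ≤ 4 * T ^ 18 * r) :
    (4 * q0 + 12 * (x ^ 100)⁻¹ * s) * nb + |f| + 10 ^ 4 * (x ^ 8 * lam) * (Ec * nb + Nb * nc ^ 2)
      ≤ r / x ^ 90 * α := by
  have x0 : 0 < x := lt_of_lt_of_le (by norm_num) hx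
  have x1 : 1 ≤ x := le_trans (by norm_num) hx
  have T0 : 0 < T := x0.trans_le hT
  have N0 : 0 < N := lt_of_lt_of_le (by positivity) hN
  have α0 : 0 < α := lt_of_lt_of_le (by positivity) hα
  have rlo : lam / 4 * N * a ≤ r := by rw [hr]; gcongr
  have r0 : 0 < r := lt_of_lt_of_le (by positivity) rlo
  have mb1 : 1 ≤ mb := le_trans (one_le_pow₀ (x1.trans hT)) hmb
  have hA : (4 * q0 + 12 * (x ^ 100)⁻¹ * s) * nb ≤ r / x ^ 90 * α / 4 := by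
    have h1 : q0 ≤ r / x ^ 100 := by rw [le_div_iff₀ (by positivity)]; linarith only [hq]
    have h2 : (x ^ 100)⁻¹ * s ≤ 4 * (r / x ^ 100) := by
      calc (x ^ 100)⁻¹ * s ≤ (x ^ 100)⁻¹ * (4 * r) := by gcongr
        _ = _ := by ring
    have h3 : 208 / x ^ 100 ≤ 1 / x ^ 90 := div_pow_le hx (by norm_num) (by norm_num)
    calc (4 * q0 + 12 * (x ^ 100)⁻¹ * s) * nb ≤ (52 * (r / x ^ 100)) * nb := by
          gcongr; linarith only [h1, h2]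
      _ ≤ (52 * (r / x ^ 100)) * α := by gcongr
      _ = 208 / x ^ 100 * (r * α / 4) := by ring
      _ ≤ 1 / x ^ 90 * (r * α / 4) := by gcongr
      _ = _ := by ring
  have hB : |f| ≤ r / x ^ 90 * α / 4 := by
    refine hf.trans ?_
    have h1 : 64 * 10 ^ 4 * x ^ 100 ≤ x ^ 101 := mul_pow_le hx (by norm_num) (by norm_num)
    have h2 : 64 * 10 ^ 4 * x ^ 100 * m ≤ N := le_trans (by gcongr) hN
    calc 10 ^ 4 * (x ^ 8 * lam) * (x * a) ^ 2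
        = (lam / 4 * (64 * 10 ^ 4 * x ^ 100 * m) * a) / x ^ 90 * (a / (4 * m)) / 4 := by
          field_simp; ring
      _ ≤ (lam / 4 * N * a) / x ^ 90 * α / 4 := by gcongr
      _ ≤ _ := by gcongr
  have hC : 10 ^ 4 * (x ^ 8 * lam) * (Ec * nb) ≤ r / x ^ 90 * α / 4 := by
    have h1 : 16 * 10 ^ 4 * x ^ 99 ≤ x ^ 101 := mul_pow_le hx (by norm_num) (by norm_num)
    have h2 : 16 * 10 ^ 4 * x ^ 99 ≤ N :=
      h1.trans (le_trans (le_mul_of_one_le_right (by positivity) m1) hN)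
    calc 10 ^ 4 * (x ^ 8 * lam) * (Ec * nb) ≤ 10 ^ 4 * (x ^ 8 * lam) * (x * a * nb) := by gcongr
      _ ≤ 10 ^ 4 * (x ^ 8 * lam) * (x * a * α) := by gcongr
      _ = (lam / 4 * (16 * 10 ^ 4 * x ^ 99) * a) / x ^ 90 * α / 4 := by field_simp; ring
      _ ≤ (lam / 4 * N * a) / x ^ 90 * α / 4 := by gcongr
      _ ≤ _ := by gcongr
  have hD : 10 ^ 4 * (x ^ 8 * lam) * (Nb * nc ^ 2) ≤ r / x ^ 90 * α / 4 := by
    have h1 : 8 * 10 ^ 4 * T ^ 108 ≤ T ^ 110 :=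
      mul_pow_le (hx.trans hT) (by norm_num) (by norm_num)
    have h2 : 8 * 10 ^ 4 * T ^ 18 * x ^ 90 ≤ mb ^ 2 := by
      calc 8 * 10 ^ 4 * T ^ 18 * x ^ 90 ≤ 8 * 10 ^ 4 * T ^ 18 * T ^ 90 := by gcongr
        _ = 8 * 10 ^ 4 * T ^ 108 := by ring
        _ ≤ mb := h1.trans hmb
        _ ≤ mb ^ 2 := le_self_pow₀ mb1 (by norm_num)
    calc 10 ^ 4 * (x ^ 8 * lam) * (Nb * nc ^ 2)
        ≤ 10 ^ 4 * (x ^ 8 * lam) * (Nb * (α / 2 / mb) ^ 2) := by gcongr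
      _ = 10 ^ 4 * (x ^ 8 * lam * Nb * (α / 2)) * (α / 2) / mb ^ 2 := by ring
      _ ≤ 10 ^ 4 * (4 * T ^ 18 * r) * (α / 2) / (8 * 10 ^ 4 * T ^ 18 * x ^ 90) := by gcongr
      _ = _ := by field_simp; ring
  linarith only [hA, hB, hC, hD]

lemma num_grow {x r s u α α' : ℝ} (hx : (10 : ℝ) ^ 100 ≤ x) (r0 : 0 < r) (α0 : 0 < α)
    (hs : r / 2 ≤ s) (hs' : s ≤ 4 * r) (u0 : 0 ≤ u) (hu : u ≤ 10 ^ 15 / x ^ 4)
    (h : |α' - √2 * s * α| ≤
      (s / 10 + 3 * (r / x ^ 90) + √1 * (4000 * r / x ^ 22 + 10 ^ 8 * r * u / x ^ 8)) * α) :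
    r / 2 * α ≤ α' ∧ α' ≤ 8 * r * α := by
  have x0 : 0 < x := lt_of_lt_of_le (by norm_num) hx
  have h1 : 300 / x ^ 90 ≤ 1 := div_pow_le' hx (by norm_num) (by norm_num)
  have h2 : 400000 / x ^ 22 ≤ 1 := div_pow_le' hx (by norm_num) (by norm_num)
  have h3 : 10 ^ 10 / x ^ 8 ≤ 1 := div_pow_le' hx (by norm_num) (by norm_num)
  have h4 : u ≤ 1 := hu.trans (div_pow_le' hx (by norm_num) (by norm_num))
  have e1 : 3 * (r / x ^ 90) ≤ r / 100 := by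
    calc 3 * (r / x ^ 90) = 300 / x ^ 90 * (r / 100) := by ring
      _ ≤ 1 * (r / 100) := by gcongr
      _ = _ := one_mul _
  have e2 : 4000 * r / x ^ 22 ≤ r / 100 := by
    calc 4000 * r / x ^ 22 = 400000 / x ^ 22 * (r / 100) := by ring
      _ ≤ 1 * (r / 100) := by gcongr
      _ = _ := one_mul _
  have e3 : 10 ^ 8 * r * u / x ^ 8 ≤ r / 100 := by
    calc 10 ^ 8 * r * u / x ^ 8 = 10 ^ 10 / x ^ 8 * u * (r / 100) := by ring
      _ ≤ 1 * 1 * (r / 100) := by gcongr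
      _ = _ := by ring
  have s1 : 7 / 5 ≤ √2 := Real.le_sqrt_of_sq_le (by norm_num)
  have s2 : √2 ≤ 3 / 2 := Real.sqrt_le_iff.mpr (by norm_num)
  have s0 : 0 < s := by linarith only [r0, hs]
  have h5 : |α' - √2 * s * α| ≤ (s / 10 + 3 * r / 100) * α := by
    refine h.trans ?_
    rw [Real.sqrt_one]
    exact mul_le_mul_of_nonneg_right (by linarith only [e1, e2, e3]) α0.le
  have a1 : 7 / 5 * s * α ≤ √2 * s * α := by gcongr
  have a2 : √2 * s * α ≤ 3 / 2 * s * α := by gcongr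
  have a3 : r / 2 * α ≤ s * α := by gcongr
  have a4 : s * α ≤ 4 * r * α := by gcongr
  have a5 : 0 < r * α := by positivity
  obtain ⟨b1, b2⟩ := abs_le.mp h5
  constructor <;> linarith only [a1, a3, a5, b1, a2, a4, b2]

lemma num_bar {x r s u μ η g g' : ℝ} (hx : (10 : ℝ) ^ 100 ≤ x) (r0 : 0 < r)
    (hs : r / 2 ≤ s) (u0 : 0 ≤ u) (μ1 : 9 / x ^ 16 ≤ μ) (μ2 : μ ≤ 49 / x ^ 16)
    (hη : η ≤ 2 * 10 ^ 20 / x ^ 4) (hg : g = 1 / 2 + 1 / 10 ^ 22 + u)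
    (h : g' ≤ -(1 / 10 ^ 7 * s * μ) * (g - 1 / 2) + 20000 * s * μ * (η + μ) * 1 ^ 2 +
      10 * 1 * (r / x ^ 90) + 2 * 1 * √1 * (4000 * r / x ^ 22 + 10 ^ 8 * r * u / x ^ 8)) :
    g' < r * u := by
  have x0 : 0 < x := lt_of_lt_of_le (by norm_num) hx
  have μ0 : 0 < μ := lt_of_lt_of_le (by positivity) μ1
  have s0 : 0 < s := by linarith only [r0, hs]
  have h1 : 10 ^ 60 / x ^ 4 ≤ 1 := div_pow_le' hx (by norm_num) (by norm_num)
  have h2 : 10 ^ 60 / x ^ 16 ≤ 1 := div_pow_le' hx (by norm_num) (by norm_num)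
  have h3 : 10 ^ 40 / x ^ 90 ≤ 1 / x ^ 16 := div_pow_le hx (by norm_num) (by norm_num)
  have h4 : 10 ^ 40 / x ^ 22 ≤ 1 / x ^ 16 := div_pow_le hx (by norm_num) (by norm_num)
  have h5 : 2 * 10 ^ 8 / x ^ 8 ≤ 1 := div_pow_le' hx (by norm_num) (by norm_num)
  have e1 : η ≤ 2 / 10 ^ 40 := by
    refine hη.trans ?_
    calc 2 * 10 ^ 20 / x ^ 4 = 10 ^ 60 / x ^ 4 * (2 / 10 ^ 40) := by ring
      _ ≤ 1 * (2 / 10 ^ 40) := by gcongr
      _ = _ := one_mul _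
  have e2 : μ ≤ 2 / 10 ^ 40 := by
    refine μ2.trans ?_
    calc 49 / x ^ 16 = 10 ^ 60 / x ^ 16 * (49 / 10 ^ 60) := by ring
      _ ≤ 1 * (49 / 10 ^ 60) := by gcongr
      _ ≤ _ := by norm_num
  obtain ⟨w, hw⟩ : ∃ w, w = r / x ^ 16 := ⟨_, rfl⟩
  have w0 : 0 < w := by rw [hw]; positivity
  have e3 : 4 * w ≤ s * μ := by
    calc 4 * w ≤ 9 / 2 * w := by linarith only [w0]
      _ = r / 2 * (9 / x ^ 16) := by rw [hw]; ring
      _ ≤ s * μ := by gcongr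
  have e4 : r / x ^ 90 ≤ w / 10 ^ 40 := by
    calc r / x ^ 90 = 10 ^ 40 / x ^ 90 * (r / 10 ^ 40) := by ring
      _ ≤ 1 / x ^ 16 * (r / 10 ^ 40) := by gcongr
      _ = _ := by rw [hw]; ring
  have e5 : 4000 * r / x ^ 22 ≤ 4000 * w / 10 ^ 40 := by
    calc 4000 * r / x ^ 22 = 10 ^ 40 / x ^ 22 * (4000 * r / 10 ^ 40) := by ring
      _ ≤ 1 / x ^ 16 * (4000 * r / 10 ^ 40) := by gcongr
      _ = _ := by rw [hw]; ring
  have e6 : 2 * (10 ^ 8 * r * u / x ^ 8) ≤ r * u := by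
    calc 2 * (10 ^ 8 * r * u / x ^ 8) = 2 * 10 ^ 8 / x ^ 8 * (r * u) := by ring
      _ ≤ 1 * (r * u) := by gcongr
      _ = _ := one_mul _
  have e7 : 20000 * s * μ * (η + μ) ≤ 20000 * s * μ * (4 / 10 ^ 40) := by gcongr; linarith only [e1, e2]
  have e8 : 0 ≤ s * μ * u := by positivity
  rw [Real.sqrt_one, hg] at h
  linarith only [h, w0, e3, e4, e5, e6, e7, e8]

/-! The bootstrap assumptions -/

/-- The assumptions of the bootstrap at time `t`. -/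
structure Box (Γ : Geo) (R : Raw) (j : ℕ) (t0 a t : ℝ) : Prop where
  mem : t ∈ Icc t0 (t0 + R.DD Γ j a)
  cone : ‖R.B j t - (a : ℂ) • phi (Γ.M j)‖ ≤ 1 / 10 ^ 10 * a
  lo : R.alf Γ j t0 / 2 ≤ R.alf Γ j t
  gb : R.nr (j + 1) t ^ 2 ≤ (1 / 2 + 3 / 10 ^ 22) * R.alf Γ j t ^ 2
  rho : R.rho Γ j a t ≤ Γ.T (j + 1) ^ 18
  small : R.nr (j + 2) t ≤ R.alf Γ j t / 2 / (Γ.M (j + 1) + 1)

variable {t : ℝ}

lemma DD_pos (N : IsNet Γ ν a0 R) (S : St Γ ν R j t0 a tb) : 0 < R.DD Γ j a := by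
  have := S.rr_pos N
  have := Γ.T_pos j
  unfold Raw.DD
  positivity

lemma hd_alf (N : IsNet Γ ν a0 R) (ht : 0 ≤ t) (ha : 0 < a)
    (hc : ‖R.B j t - (a : ℂ) • phi (Γ.M j)‖ ≤ 1 / 10 ^ 10 * a) : ∃ D, HD (R.alf Γ j) D t := by
  obtain ⟨D, hD⟩ := N.hd_B j ht
  obtain ⟨p', hp, -⟩ := N.hd_pp ht ha hc hD
  obtain ⟨_, _, -, hB⟩ := N.eqB j t ht
  obtain ⟨_, _, -, hP⟩ := N.eqP j t ht
  obtain ⟨_, _, -, hM⟩ := N.eqM j t ht
  have c : HD (fun _ : ℝ => phi (Γ.M (j + 1))) 0 t := hasDerivWithinAt_const _ _ _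
  exact ⟨_, (c.re_inner hB).fun_add ((((hp.mul_const' _).re_inner hP).fun_add
    ((hp.dag.mul_const' _).re_inner hM)).div_const √2)⟩

lemma Box.pos (S : St Γ ν R j t0 a tb) (X : Box Γ R j t0 a t) : 0 < R.alf Γ j t := by
  linarith [X.lo, S.pos]

lemma Box.nonneg (S : St Γ ν R j t0 a tb) (X : Box Γ R j t0 a t) : 0 ≤ t :=
  S.t0_nonneg.trans X.mem.1

lemma Box.nr_le (S : St Γ ν R j t0 a tb) (X : Box Γ R j t0 a t) :
    R.nr (j + 1) t ≤ R.alf Γ j t := by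
  refine (abs_le_of_sq_le_sq' ?_ (X.pos S).le).2
  linarith [X.gb, sq_nonneg (R.alf Γ j t)]

lemma rr_mul (R : Raw) (Γ : Geo) (j : ℕ) (a : ℝ) : R.rr Γ j a = R.rr Γ j 1 * a := by
  simp [Raw.rr]

lemma Box.ratio (N : IsNet Γ ν a0 R) (S : St Γ ν R j t0 a tb) (X : Box Γ R j t0 a t) :
    R.alf Γ j t ^ 2 / a ^ 2 ≤ 10 ^ 15 / Γ.T j ^ 4 := by
  have a0 := S.a_pos
  have α0 := X.pos S
  have x0 := Γ.T_pos j
  have r0 := S.rr_pos N
  have h1 := X.rho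
  have h2 := (N.rr_ratio j).1
  unfold Raw.rho at h1
  rw [div_le_iff₀ r0, rr_mul R Γ (j + 1), rr_mul R Γ j a] at h1
  rw [rr_mul] at r0
  have r1 : 0 < R.rr Γ j 1 := (mul_pos_iff_of_pos_right a0).mp r0
  have h3 : Γ.T (j + 1) ^ 18 ≤ (2 * Γ.T j) ^ 18 :=
    pow_le_pow_left₀ (Γ.T_pos _).le (Γ.Tdbl j) _
  have h4 : R.rr Γ j 1 * Γ.T j ^ 18 * (Γ.T j ^ 2 * R.alf Γ j t) ≤
      R.rr Γ j 1 * Γ.T j ^ 18 * (2 ^ 24 * a) := by
    calc _ = 64 * (Γ.T j ^ 20 / 32 * R.rr Γ j 1 * (R.alf Γ j t / 2)) := by ring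
      _ ≤ 64 * (R.rr Γ (j + 1) 1 * (R.alf Γ j t / 2)) := by gcongr
      _ ≤ 64 * (Γ.T (j + 1) ^ 18 * (R.rr Γ j 1 * a)) := by gcongr
      _ ≤ 64 * ((2 * Γ.T j) ^ 18 * (R.rr Γ j 1 * a)) := by gcongr
      _ = _ := by ring
  have h5 := le_of_mul_le_mul_left h4 (by positivity)
  have h6 : (Γ.T j ^ 2 * R.alf Γ j t) ^ 2 ≤ (2 ^ 24 * a) ^ 2 := by gcongr
  rw [div_le_div_iff₀ (by positivity) (by positivity)]
  linarith only [h6, sq_nonneg a]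

lemma Box.dA (N : IsNet Γ ν a0 R) (S : St Γ ν R j t0 a tb) (X : Box Γ R j t0 a t) :
    ∃ D, HD (R.B j) D t ∧ ‖D‖ ≤ R.rr Γ j a * a / Γ.T j ^ 14 +
      25000 * R.rr Γ j a * a * (R.alf Γ j t ^ 2 / a ^ 2) := by
  obtain ⟨D, hD, h⟩ := S.horD t ⟨X.mem.1, by linarith [X.mem.2, DD_pos N S]⟩
  refine ⟨D, hD, h.trans (add_le_add le_rfl ?_)⟩
  have a0 := S.a_pos
  have N0 := NN_pos (Γ.M j)
  have l0 := Γ.lam_pos' j
  have k0 := N.kap_pos j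
  have h1 : Γ.lam j ≤ 4 * R.kap j := by linarith only [N.kap_lo j]
  have h2 : R.nr (j + 1) t ^ 2 ≤ 5 / 8 * R.alf Γ j t ^ 2 := by
    linarith only [X.gb, sq_nonneg (R.alf Γ j t)]
  calc _ ≤ 10 ^ 4 * (4 * R.kap j) * NN (Γ.M j) * (5 / 8 * R.alf Γ j t ^ 2) := by gcongr
    _ = _ := by unfold Raw.rr; field_simp; ring

lemma Box.eps (N : IsNet Γ ν a0 R) (S : St Γ ν R j t0 a tb) (X : Box Γ R j t0 a t) :
    (4 * (ν * Γ.lam (j + 1) ^ 2) + 12 * (Γ.T j ^ 100)⁻¹ * R.ss j t) * R.nr (j + 1) t +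
      |R.f (j + 1) t| + 10 ^ 4 * Γ.lam (j + 1) * (√(R.E (j + 2) t) * R.nr (j + 1) t +
      NN (Γ.M (j + 1)) * R.nr (j + 2) t ^ 2) ≤ R.rr Γ j a / Γ.T j ^ 90 * R.alf Γ j t := by
  have ht := X.nonneg S
  have a0 := S.a_pos
  have α0 := X.pos S
  have x0 := Γ.T_pos j
  have r0 := S.rr_pos N
  have l0 := Γ.lam_pos' j
  have l1 := Γ.lam_pos' (j + 1)
  have Nb0 := NN_pos (Γ.M (j + 1))
  have hE : R.E (j + 1) t ≤ (Γ.T j * a) ^ 2 :=
    (N.Emono j t ht).trans (S.horE t ⟨X.mem.1, by linarith [X.mem.2, DD_pos N S]⟩)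
  have hm : Γ.T j ^ 202 ≤ Γ.M j + 1 :=
    (pow_le_pow_left₀ x0.le (Γ.Tmono j) _).trans (Γ.pow_le_M j (by norm_num))
  have hN : Γ.T j ^ 101 * (Γ.M j + 1) ≤ NN (Γ.M j) := by
    refine (abs_le_of_sq_le_sq' ?_ (NN_pos _).le).2
    rw [NN_sq]
    calc (Γ.T j ^ 101 * (Γ.M j + 1 : ℝ)) ^ 2 = Γ.T j ^ 202 * (Γ.M j + 1 : ℝ) ^ 2 := by ring
      _ ≤ (Γ.M j + 1) * (Γ.M j + 1 : ℝ) ^ 2 := by gcongr
      _ = _ := by ring
  have hmb : Γ.T (j + 1) ^ 110 ≤ Γ.M (j + 1) + 1 := by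
    refine (Γ.pow_le_M j (by norm_num)).trans ?_
    have : (Γ.M j : ℝ) ≤ Γ.M (j + 1) := Nat.cast_le.mpr (Γ.M_mono j)
    linarith only [this]
  have hα : a / (4 * (Γ.M j + 1)) ≤ R.alf Γ j t := by
    have := (S.alf_lo N).1
    have e : a / (4 * (Γ.M j + 1)) = a / (2 * (Γ.M j + 1)) / 2 := by field_simp; ring
    linarith only [this, e, X.lo]
  have hρ : Γ.lam (j + 1) * NN (Γ.M (j + 1)) * (R.alf Γ j t / 2) ≤
      4 * Γ.T (j + 1) ^ 18 * R.rr Γ j a := by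
    have h1 := X.rho
    unfold Raw.rho at h1
    rw [div_le_iff₀ r0] at h1
    have h2 : Γ.lam (j + 1) ≤ 4 * R.kap (j + 1) := by linarith only [N.kap_lo (j + 1)]
    calc _ ≤ 4 * R.kap (j + 1) * NN (Γ.M (j + 1)) * (R.alf Γ j t / 2) := by gcongr
      _ = 4 * R.rr Γ (j + 1) (R.alf Γ j t / 2) := by unfold Raw.rr; ring
      _ ≤ _ := by linarith only [h1]
  have hf : |R.f (j + 1) t| ≤ 10 ^ 4 * Γ.lam (j + 1) * (Γ.T j * a) ^ 2 :=
    (N.f_le j ht).trans (by gcongr)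
  have hc : √(R.E (j + 2) t) ≤ Γ.T j * a :=
    Real.sqrt_le_iff.mpr ⟨by positivity, (N.Emono (j + 1) t ht).trans hE⟩
  have := num_eps (Γ.Tbig j) (Γ.Tmono j) l0 (N.kap_lo j) hN
    (by have := (Γ.M j).cast_nonneg (α := ℝ); linarith only []) hmb Nb0 (r := R.rr Γ j a) rfl a0 hα (nr3_nonneg _ _ _) (X.nr_le S) (nr3_nonneg _ _ _) X.small
    S.K1 (N.drv ht a0 X.cone).2.2.2 (by rwa [← Γ.lam_succ']) hc (by rwa [← Γ.lam_succ'])
  rwa [← Γ.lam_succ'] at this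

lemma Box.step (hν : 0 < ν) (N : IsNet Γ ν a0 R) (S : St Γ ν R j t0 a tb) (X : Box Γ R j t0 a t) :
    (∃ α' g', HD (R.alf Γ j) α' t ∧ HD (fun t => R.nr (j + 1) t ^ 2 / R.alf Γ j t ^ 2) g' t ∧
      R.rr Γ j a / 2 * R.alf Γ j t ≤ α' ∧ α' ≤ 8 * R.rr Γ j a * R.alf Γ j t ∧
      (R.nr (j + 1) t ^ 2 / R.alf Γ j t ^ 2 = 1 / 2 + 1 / 10 ^ 22 + R.alf Γ j t ^ 2 / a ^ 2 →
        g' < R.rr Γ j a * (R.alf Γ j t ^ 2 / a ^ 2))) ∧
    ∃ D, HD (R.B (j + 1)) D t ∧ ‖D‖ ≤ 20 * R.rr Γ j a * R.alf Γ j t := by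
  have ht := X.nonneg S
  have a0 := S.a_pos
  have α0 := X.pos S
  have x0 := Γ.T_pos j
  have hx := Γ.Tbig j
  have r0 := S.rr_pos N
  obtain ⟨hp, ⟨η, η0, hη, hg⟩, s1, s2⟩ := N.drv ht a0 X.cone
  have s0 : 0 < R.ss j t := by linarith only [r0, s1]
  obtain ⟨eB, eP, eM, h1, h2, h3, dB, dP, dM⟩ := N.eqs' hν ht s0 hp (X.eps N S)
  constructor
  · obtain ⟨D, hD, bD⟩ := X.dA N S
    obtain ⟨p', dp, -, -, -, hω⟩ := N.hd_pp ht a0 X.cone hD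
    have u0 : 0 ≤ R.alf Γ j t ^ 2 / a ^ 2 := by positivity
    have hω' : ‖p' * phi (Γ.M (j + 1))‖ ≤ 4000 * R.rr Γ j a / Γ.T j ^ 22 +
        10 ^ 8 * R.rr Γ j a * (R.alf Γ j t ^ 2 / a ^ 2) / Γ.T j ^ 8 := by
      refine hω.trans ?_
      calc _ ≤ 4000 * (R.rr Γ j a * a / Γ.T j ^ 14 +
          25000 * R.rr Γ j a * a * (R.alf Γ j t ^ 2 / a ^ 2)) / a / Γ.T j ^ 8 := by gcongr
        _ = _ := by field_simp; ring
    have μ1 := Γ.mu_lo j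
    have μ2 := Γ.mu_hi j
    have μ0 : 0 ≤ mu (Γ.M j) (Γ.M (j + 1)) := le_trans (by positivity) μ1
    have μ3 : mu (Γ.M j) (Γ.M (j + 1)) ≤ 1 / 10 ^ 6 := by
      refine μ2.trans ?_
      have := div_pow_le' hx (c := 49 * 10 ^ 6) (by norm_num) (l := 16) (by norm_num)
      calc _ = 49 * 10 ^ 6 / Γ.T j ^ 16 * (1 / 10 ^ 6) := by ring
        _ ≤ 1 * (1 / 10 ^ 6) := by gcongr
        _ = _ := one_mul _
    have η1 : η ≤ 1 := hη.trans (div_pow_le' hx (by norm_num) (by norm_num))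
    obtain ⟨α', g', d1, d2, b1, b2⟩ := cone_step (G := 1) (p := R.pp j) (B := R.B (j + 1))
      (Cp := R.Cp (j + 1)) (Cm := R.Cm (j + 1)) hp hg η0 (N.suppB _ _) (N.sym _ _ ht) s0 le_rfl
      (by linarith only [μ3]) (by nlinarith only [η0, μ3, η1]) dp hω' dB dP dM α0
      (by have := X.gb; unfold Raw.nr Raw.alf at this; nlinarith only [this, sq_nonneg (R.alf Γ j t)]) h1 h2 h3
    obtain ⟨c1, c2⟩ := num_grow hx r0 α0 s1 s2 u0 (X.ratio N S) b1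
    exact ⟨α', g', d1, d2, c1, c2, fun e => num_bar hx r0 s1 u0 μ1 μ2 hη e b2⟩
  · refine ⟨_, dB, (norm_add_le _ _).trans ?_⟩
    have n1 : ‖R.Cp (j + 1) t‖ ≤ R.alf Γ j t := (le_nr3_2 _ _ _).trans (X.nr_le S)
    have n2 : ‖R.Cm (j + 1) t‖ ≤ R.alf Γ j t := (le_nr3_3 _ _ _).trans (X.nr_le S)
    have n3 : ‖dag (R.pp j t) * R.Cp (j + 1) t‖ ≤ 2 * R.alf Γ j t := by
      refine (norm_mul_le_l1 _ _).trans ?_
      rw [l1_dag]
      exact mul_le_mul hp.l1_le n1 (norm_nonneg _) (by norm_num)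
    have n4 : ‖R.pp j t * R.Cm (j + 1) t‖ ≤ 2 * R.alf Γ j t :=
      (norm_mul_le_l1 _ _).trans (mul_le_mul hp.l1_le n2 (norm_nonneg _) (by norm_num))
    have n5 : ‖proj (Γ.M (j + 1)) (dag (R.pp j t) * R.Cp (j + 1) t + R.pp j t * R.Cm (j + 1) t)‖ ≤
        4 * R.alf Γ j t := (norm_proj_le _ _).trans ((norm_add_le _ _).trans (by linarith only [n3, n4]))
    have n6 : R.rr Γ j a / Γ.T j ^ 90 ≤ R.rr Γ j a :=
      div_le_self r0.le (one_le_pow₀ (le_trans (by norm_num) hx))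
    have n7 : ‖eB‖ ≤ R.rr Γ j a * R.alf Γ j t := h1.trans (by gcongr)
    rw [norm_smul, Complex.norm_real, Real.norm_of_nonneg s0.le]
    have n8 := mul_le_mul s2 n5 (norm_nonneg _) (by positivity)
    have : 0 < R.rr Γ j a * R.alf Γ j t := by positivity
    linarith only [n7, n8, this]

section

variable (hν : 0 < ν) (N : IsNet Γ ν a0 R) (S : St Γ ν R j t0 a tb)
  (H : ∀ t ∈ Icc t0 t1, Box Γ R j t0 a t)
include hν N S H

lemma hd_u (ht : t ∈ Icc t0 t1) {α' : ℝ} (d : HD (R.alf Γ j) α' t)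
    (h : R.rr Γ j a / 2 * R.alf Γ j t ≤ α') : ∃ u', HD (fun t => R.alf Γ j t ^ 2 / a ^ 2) u' t ∧
      R.rr Γ j a * (R.alf Γ j t ^ 2 / a ^ 2) ≤ u' := by
  have α0 := (H t ht).pos S
  have a0 := S.a_pos
  refine ⟨_, (d.fun_pow 2).div_const _, ?_⟩
  rw [← mul_div_assoc]
  refine div_le_div_of_nonneg_right ?_ (by positivity)
  simp only [Nat.cast_ofNat, Nat.add_one_sub_one, pow_one]
  nlinarith only [h, α0]

lemma gb2 (ht : t ∈ Icc t0 t1) :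
    R.nr (j + 1) t ^ 2 ≤ (1 / 2 + 2 / 10 ^ 22) * R.alf Γ j t ^ 2 := by
  have α0 := (H t ht).pos S
  have := barrier (F := fun t => R.nr (j + 1) t ^ 2 / R.alf Γ j t ^ 2)
    (G := fun t => 1 / 2 + 1 / 10 ^ 22 + R.alf Γ j t ^ 2 / a ^ 2) (a := t0) (b := t1) S.t0_nonneg
    (by
      have h1 := S.gb
      have h2 := S.pos
      have : 0 ≤ R.alf Γ j t0 ^ 2 / a ^ 2 := by (clear * - h2; positivity)
      rw [← div_le_iff₀ (by (clear * - h2; positivity))] at h1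
      linarith)
    (fun s hs => by
      obtain ⟨⟨α', g', d1, d2, c1, -, c3⟩, -⟩ := (H s hs).step hν N S
      obtain ⟨u', d3, c4⟩ := hd_u hν N S H hs d1 c1
      exact ⟨g', u', d2, d3.const_add _, fun e => (c3 e).trans_le c4⟩) t ht
  have h1 := (H t ht).ratio N S
  have h2 : 10 ^ 15 / Γ.T j ^ 4 ≤ 1 / 10 ^ 22 := by
    have := div_pow_le' (Γ.Tbig j) (c := 10 ^ 37) (by norm_num) (l := 4) (by norm_num)
    calc _ = 10 ^ 37 / Γ.T j ^ 4 * (1 / 10 ^ 22) := by ring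
      _ ≤ 1 * (1 / 10 ^ 22) := by gcongr
      _ = _ := one_mul _
  rw [← div_le_iff₀ (by positivity)]
  linarith

lemma drift (ht : t ∈ Icc t0 t1) : ‖R.B j t - (a : ℂ) • phi (Γ.M j)‖ < 1 / 10 ^ 10 * a := by
  have a0 := S.a_pos
  have r0 := S.rr_pos N
  have x0 := Γ.T_pos j
  have h1 := norm_sub_le_of_deriv (f := R.B j) (G := fun t => R.rr Γ j a * a / Γ.T j ^ 14 * t +
      25000 * a * (R.alf Γ j t ^ 2 / a ^ 2)) (a := t0) (b := t1) S.t0_nonneg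
    (fun s hs => by
      obtain ⟨⟨α', g', d1, -, c1, -, -⟩, -⟩ := (H s hs).step hν N S
      obtain ⟨u', d3, c4⟩ := hd_u hν N S H hs d1 c1
      obtain ⟨D, hD, bD⟩ := (H s hs).dA N S
      refine ⟨D, _, hD, ((hasDerivWithinAt_id s _).const_mul _).fun_add (d3.const_mul _), ?_⟩
      have : 25000 * a * (R.rr Γ j a * (R.alf Γ j s ^ 2 / a ^ 2)) ≤ 25000 * a * u' := by gcongr
      linarith only [bD, this]) t ht
  have h2 : R.rr Γ j a * a / Γ.T j ^ 14 * (t - t0) ≤ a / 10 ^ 11 := by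
    have h3 : t - t0 ≤ 100 * Γ.T j ^ 9 / R.rr Γ j a := by
      have := (H t ht).mem.2
      unfold Raw.DD at this
      linarith only [this]
    have h4 := div_pow_le' (Γ.Tbig j) (c := 10 ^ 13) (by norm_num) (l := 5) (by norm_num)
    calc _ ≤ R.rr Γ j a * a / Γ.T j ^ 14 * (100 * Γ.T j ^ 9 / R.rr Γ j a) := by gcongr
      _ = 10 ^ 13 / Γ.T j ^ 5 * (a / 10 ^ 11) := by field_simp; ring
      _ ≤ 1 * (a / 10 ^ 11) := by gcongr
      _ = _ := one_mul _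
  have h5 : 25000 * a * (R.alf Γ j t ^ 2 / a ^ 2) ≤ a / 10 ^ 11 := by
    have h3 := (H t ht).ratio N S
    have h4 := div_pow_le' (Γ.Tbig j) (c := 25000 * 10 ^ 26) (by norm_num) (l := 4) (by norm_num)
    calc _ ≤ 25000 * a * (10 ^ 15 / Γ.T j ^ 4) := by gcongr
      _ = 25000 * 10 ^ 26 / Γ.T j ^ 4 * (a / 10 ^ 11) := by ring
      _ ≤ 1 * (a / 10 ^ 11) := by gcongr
      _ = _ := one_mul _
  have h6 : 0 ≤ 25000 * a * (R.alf Γ j t0 ^ 2 / a ^ 2) := by positivity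
  have h7 := norm_sub_le_norm_sub_add_norm_sub (R.B j t) (R.B j t0) ((a : ℂ) • phi (Γ.M j))
  have h8 := S.cone
  linarith

lemma expgrow (ht : t ∈ Icc t0 t1) :
    R.alf Γ j t0 * Real.exp (R.rr Γ j a / 2 * (t - t0)) ≤ R.alf Γ j t := by
  have := exp_le_of_deriv (F := R.alf Γ j) (τ := fun t => R.rr Γ j a / 2 * t) (a := t0) (b := t1)
    S.t0_nonneg (fun s hs => by
      obtain ⟨⟨α', g', d1, -, c1, -, -⟩, -⟩ := (H s hs).step hν N S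
      exact ⟨α', _, d1, (hasDerivWithinAt_id s _).const_mul _, by simpa using c1⟩) t ht
  rwa [← mul_sub] at this

lemma ne_end (h : t0 ≤ t1) : t1 ≠ t0 + R.DD Γ j a := by
  intro e
  have a0 := S.a_pos
  have r0 := S.rr_pos N
  have x0 := Γ.T_pos j
  have h1 := expgrow hν N S H ⟨h, le_rfl⟩
  have e1 : R.rr Γ j a / 2 * (t1 - t0) = 30 * Γ.T j ^ 9 + 20 * Γ.T j ^ 9 := by
    rw [e]; unfold Raw.DD; field_simp; ring
  rw [e1, Real.exp_add] at h1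
  have h2 := (S.alf_lo N).1
  have h3 := Γ.Mhi j
  have h4 : 2 ≤ Real.exp (20 * Γ.T j ^ 9) := by
    have : 1 ≤ Γ.T j ^ 9 := one_le_pow₀ (le_trans (by norm_num) (Γ.Tbig j))
    linarith only [this, Real.add_one_le_exp (20 * Γ.T j ^ 9)]
  have h5 : a ≤ R.alf Γ j t1 := by
    calc a = a / (2 * (Γ.M j + 1)) * ((Γ.M j + 1) * 2) := by field_simp
      _ ≤ R.alf Γ j t0 * (Real.exp (30 * Γ.T j ^ 9) * Real.exp (20 * Γ.T j ^ 9)) := by
        have := S.pos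
        (clear * - h2 h3 h4 this; gcongr)
      _ ≤ _ := h1
  have h6 := (H t1 ⟨h, le_rfl⟩).ratio N S
  have h7 := div_pow_le' (Γ.Tbig j) (c := 2 * 10 ^ 15) (by norm_num) (l := 4) (by norm_num)
  have h8 : 1 ≤ R.alf Γ j t1 ^ 2 / a ^ 2 := by
    rw [le_div_iff₀ (by positivity), one_mul]
    gcongr
  rw [mul_div_assoc] at h7
  linarith only [h6, h7, h8]

end

end RunX

open RunX in
theorem exists_run (hν : 0 < ν) (N : IsNet Γ ν a0 R) (S : St Γ ν R j t0 a tb) :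
    ∃ t1, Run Γ R j t0 a t1 := by
  have a0 := S.a_pos
  have D0 := DD_pos N S
  have T0 := S.t0_nonneg
  obtain ⟨c1, hc1, all1, stop1⟩ := first_hit (ι := Unit)
    (H := fun _ t => ‖R.B j t - (a : ℂ) • phi (Γ.M j)‖ - 1 / 10 ^ 10 * a) (a := t0)
    (b := t0 + R.DD Γ j a) (by linarith)
    (fun _ => (((contOn_of_HD T0 fun t ht => N.hd_B j (T0.trans ht.1)).sub
      continuousOn_const).norm).sub continuousOn_const) (fun _ => by linarith only [a0, S.cone])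
  have cone : ∀ t ∈ Icc t0 c1, ‖R.B j t - (a : ℂ) • phi (Γ.M j)‖ ≤ 1 / 10 ^ 10 * a :=
    fun t ht => by linarith [all1 t ht ()]
  have cα : ContinuousOn (R.alf Γ j) (Icc t0 c1) :=
    contOn_of_HD T0 fun t ht => hd_alf N (T0.trans ht.1) a0 (cone t ht)
  have cn : ∀ i, ContinuousOn (R.nr i) (Icc t0 c1) := fun i =>
    (N.cont_nr i).mono fun t ht => T0.trans ht.1
  have cρ : ContinuousOn (R.rho Γ j a) (Icc t0 c1) :=
    (continuousOn_const.mul (cα.div_const 2)).div_const _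
  obtain ⟨t1, ht1, all2, stop2⟩ := first_hit (ι := Fin 4)
    (H := ![fun t => R.alf Γ j t0 / 2 - R.alf Γ j t,
      fun t => R.nr (j + 1) t ^ 2 - (1 / 2 + 3 / 10 ^ 22) * R.alf Γ j t ^ 2,
      fun t => R.rho Γ j a t - Γ.T (j + 1) ^ 18,
      fun t => R.nr (j + 2) t - R.alf Γ j t / 2 / (Γ.M (j + 1) + 1)]) (a := t0) (b := c1) hc1.1
    (fun i => by
      fin_cases i
      · exact continuousOn_const.sub cα
      · exact ((cn _).pow 2).sub (continuousOn_const.mul (cα.pow 2))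
      · exact cρ.sub continuousOn_const
      · exact (cn _).sub ((cα.div_const 2).div_const _))
    (fun i => by
      fin_cases i
      · have := S.pos
        change R.alf Γ j t0 / 2 - R.alf Γ j t0 ≤ 0
        linarith
      · change R.nr (j + 1) t0 ^ 2 - (1 / 2 + 3 / 10 ^ 22) * R.alf Γ j t0 ^ 2 ≤ 0
        linarith [S.gb, sq_nonneg (R.alf Γ j t0)]
      · change R.rho Γ j a t0 - Γ.T (j + 1) ^ 18 ≤ 0
        have h1 := (S.rho_t0 N).2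
        have h2 := Γ.pow_le_M j (k := 21) (by norm_num)
        have h3 : 2 * Γ.T (j + 1) ^ 20 ≤ Γ.T (j + 1) ^ 21 :=
          mul_pow_le (Γ.Tbig _) (by norm_num) (by norm_num)
        have h4 : Γ.T j ^ 20 ≤ Γ.T (j + 1) ^ 20 := pow_le_pow_left₀ (Γ.T_pos j).le (Γ.Tmono j) _
        have h5 : 2 * Γ.T j ^ 20 / (Γ.M j + 1) ≤ 1 := by
          rw [div_le_one (by positivity)]
          linarith
        have h6 : 1 ≤ Γ.T (j + 1) ^ 18 := one_le_pow₀ (le_trans (by norm_num) (Γ.Tbig _))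
        linarith
      · change R.nr (j + 2) t0 - R.alf Γ j t0 / 2 / (Γ.M (j + 1) + 1) ≤ 0
        linarith [(pre hν N S).2.2.1 t0 ⟨T0, le_rfl⟩])
  have H : ∀ t ∈ Icc t0 t1, Box Γ R j t0 a t := fun t ht =>
    ⟨⟨ht.1, ht.2.trans (ht1.2.trans hc1.2)⟩, cone t ⟨ht.1, ht.2.trans ht1.2⟩,
      sub_nonpos.mp (all2 t ht 0), sub_nonpos.mp (all2 t ht 1), sub_nonpos.mp (all2 t ht 2),
      sub_nonpos.mp (all2 t ht 3)⟩
  have m1 : t1 ∈ Icc t0 t1 := ⟨ht1.1, le_rfl⟩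
  refine ⟨t1, ht1.1, ht1.2.trans hc1.2, fun t ht => (H t ht).cone, fun t ht => (H t ht).pos S,
    fun t ht => gb2 hν N S H ht, fun t ht => ?_, fun t ht => ((H t ht).step hν N S).2,
    fun t ht => (H t ht).rho, fun t ht => (H t ht).small, ?_⟩
  · obtain ⟨⟨α', g', d1, -, c1, c2, -⟩, -⟩ := (H t ht).step hν N S
    exact ⟨α', d1, c1, c2⟩
  · rcases stop2 with e | ⟨i, e, -⟩
    · exfalso
      rcases stop1 with e' | ⟨_, e', -⟩
      · exact ne_end hν N S H ht1.1 (e.trans e')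
      · have := drift hν N S H m1
        rw [← e] at e'
        linarith
    · fin_cases i
      · exfalso
        change R.alf Γ j t0 / 2 - R.alf Γ j t1 = 0 at e
        have h1 := expgrow hν N S H m1
        have h2 : 1 ≤ Real.exp (R.rr Γ j a / 2 * (t1 - t0)) := by
          have := S.rr_pos N
          have := sub_nonneg.mpr ht1.1
          exact Real.one_le_exp (by positivity)
        nlinarith only [e, h1, h2, S.pos]
      · exfalso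
        change R.nr (j + 1) t1 ^ 2 - (1 / 2 + 3 / 10 ^ 22) * R.alf Γ j t1 ^ 2 = 0 at e
        have h1 := gb2 hν N S H m1
        have h2 := pow_pos ((H t1 m1).pos S) 2
        linarith
      · exact Or.inl (sub_eq_zero.mp e)
      · exact Or.inr (sub_eq_zero.mp e)

end

end Pool.Agent.Work.MP_6bf1e5_an.Dec
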