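import Pool.Agent.Work.MP_6bf1e5_an.Dec.Upper

/-!
Times and numerical facts for the seed.
-/

open Set Complex
open scoped InnerProductSpace ComplexConjugate
open Pool.Agent.Work.MP_6bf1e5_an.B (Z3 R3 box)

namespace Pool.Agent.Work.MP_6bf1e5_an.Dec

noncomputable section

namespace Sd

section num

variable {T : ℝ}

lemma one_le (hT : (10 : ℝ) ^ 100 ≤ T) : 1 ≤ T := le_trans (by norm_num) hT

lemma pos (hT : (10 : ℝ) ^ 100 ≤ T) : 0 < T := lt_of_lt_of_le (by norm_num) hT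

/-- A higher power beats a large multiple of a lower one. -/
lemma pw (hT : (10 : ℝ) ^ 100 ≤ T) {a b : ℕ} (h : a < b) : 10 ^ 100 * T ^ a ≤ T ^ b := by
  have T0 := pos hT
  calc 10 ^ 100 * T ^ a ≤ T * T ^ a := by gcongr
    _ = T ^ (a + 1) := by ring
    _ ≤ T ^ b := pow_le_pow_right₀ (one_le hT) h

lemma pw' (hT : (10 : ℝ) ^ 100 ≤ T) {a b : ℕ} (h : a ≤ b) : T ^ a ≤ T ^ b :=
  pow_le_pow_right₀ (one_le hT) h

lemma pw0 (hT : (10 : ℝ) ^ 100 ≤ T) (a : ℕ) : 0 < T ^ a := pow_pos (pos hT) a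

/-- Powers of a base bounded by an exponential. -/
lemma pow_le_of_le_exp {W u : ℝ} {F : ℕ} (h0 : 0 ≤ W) (h : W ≤ Real.exp u) :
    W ^ F ≤ Real.exp (u * F) := by
  rw [mul_comm, Real.exp_nat_mul]
  exact pow_le_pow_left₀ h0 h F

lemma exp_le_pow {W u : ℝ} {F : ℕ} (h : Real.exp u ≤ W) : Real.exp (u * F) ≤ W ^ F := by
  rw [mul_comm, Real.exp_nat_mul]
  exact pow_le_pow_left₀ (Real.exp_pos _).le h F

/-- Upper bound of the chain base along the first phase. -/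
lemma WF_le (hT : (10 : ℝ) ^ 100 ≤ T) {W c ρ : ℝ} {F : ℕ} (hF : (F : ℝ) ≤ T ^ 8) (W0 : 0 ≤ W)
    (ρ0 : 0 ≤ ρ) (hρ : ρ ≤ T ^ 15) (hW : W ≤ 2 * 10 ^ 8 * (c * ρ) ^ 2) :
    W ^ F ≤ Real.exp (T ^ 9) * (c ^ 2 / T ^ 60) ^ F := by
  have T0 := pos hT
  have h1 : W ≤ Real.exp T * (c ^ 2 / T ^ 60) := by
    have a1 : ρ ^ 2 ≤ (T ^ 15) ^ 2 := by gcongr
    have a2 : 2 * 10 ^ 8 * T ^ 90 ≤ Real.exp T := by
      have := pw hT (a := 90) (b := 91) (by norm_num)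
      have := pw0 hT 90
      have := pow_le_exp hT (k := 91) (by norm_num)
      linarith
    calc W ≤ 2 * 10 ^ 8 * (c ^ 2 * ρ ^ 2) := by rw [← mul_pow]; exact hW
      _ ≤ 2 * 10 ^ 8 * (c ^ 2 * (T ^ 15) ^ 2) := by gcongr
      _ = 2 * 10 ^ 8 * T ^ 90 * (c ^ 2 / T ^ 60) := by field_simp
      _ ≤ _ := by gcongr
  calc W ^ F ≤ (Real.exp T * (c ^ 2 / T ^ 60)) ^ F := pow_le_pow_left₀ W0 h1 F
    _ = Real.exp T ^ F * (c ^ 2 / T ^ 60) ^ F := mul_pow _ _ _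
    _ ≤ _ := by
      gcongr
      rw [← Real.exp_nat_mul]
      refine Real.exp_le_exp.mpr ?_
      calc (F : ℝ) * T ≤ T ^ 8 * T := by gcongr
        _ = T ^ 9 := by ring

/-- Upper bound of the chain base at the beginning of the first phase. -/
lemma WF_init (hT : (10 : ℝ) ^ 100 ≤ T) {W c : ℝ} {F : ℕ} (hF : T ^ 8 / 4 ≤ F) (W0 : 0 ≤ W)
    (hW : W ≤ 2 * 10 ^ 8 * (c * Real.exp (-T ^ 2)) ^ 2) :
    W ^ F ≤ Real.exp (-(T ^ 10 / 4)) * (c ^ 2 / T ^ 60) ^ F := by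
  have T0 := pos hT
  have h1 : W ≤ Real.exp (-T ^ 2) * (c ^ 2 / T ^ 60) := by
    have a2 : 2 * 10 ^ 8 * T ^ 60 * Real.exp (-T ^ 2) ≤ 1 := by
      have b1 := pw hT (a := 60) (b := 61) (by norm_num)
      have b2 := pw0 hT 60
      have b3 := pow_le_exp hT (k := 61) (by norm_num)
      have b4 : Real.exp T ≤ Real.exp (T ^ 2) :=
        Real.exp_le_exp.mpr (by simpa using pw' hT (a := 1) (b := 2) (by norm_num))
      calc _ ≤ Real.exp (T ^ 2) * Real.exp (-T ^ 2) := by gcongr; linarith only [b1, b2, b3, b4]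
        _ = 1 := by rw [← Real.exp_add]; simp
    calc W ≤ _ := hW
      _ = 2 * 10 ^ 8 * T ^ 60 * Real.exp (-T ^ 2) * (Real.exp (-T ^ 2) * (c ^ 2 / T ^ 60)) := by
        field_simp
      _ ≤ 1 * (Real.exp (-T ^ 2) * (c ^ 2 / T ^ 60)) := by gcongr
      _ = _ := one_mul _
  calc W ^ F ≤ (Real.exp (-T ^ 2) * (c ^ 2 / T ^ 60)) ^ F := pow_le_pow_left₀ W0 h1 F
    _ = Real.exp (-T ^ 2) ^ F * (c ^ 2 / T ^ 60) ^ F := mul_pow _ _ _
    _ ≤ _ := by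
      gcongr
      rw [← Real.exp_nat_mul]
      refine Real.exp_le_exp.mpr ?_
      have : T ^ 8 / 4 * T ^ 2 ≤ F * T ^ 2 := by gcongr
      linarith only [this]

lemma WF_small (hT : (10 : ℝ) ^ 100 ≤ T) {W : ℝ} {F : ℕ} (hF : T ^ 8 / 4 ≤ F) (W0 : 0 ≤ W)
    (hW : W ≤ Real.exp (-T ^ 9)) : W ^ F ≤ Real.exp (-(T ^ 17 / 4)) := by
  refine (pow_le_of_le_exp W0 hW).trans (Real.exp_le_exp.mpr ?_)
  have := pw0 hT 9
  have : T ^ 8 / 4 * T ^ 9 ≤ F * T ^ 9 := by gcongr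
  linarith only [this]

lemma Q_lo (hT : (10 : ℝ) ^ 100 ≤ T) {c : ℝ} {F : ℕ} (hF : (F : ℝ) ≤ T ^ 8)
    (hc : Real.exp (-(50 * T ^ 9)) ≤ c) :
    Real.exp (-(200 * T ^ 17)) ≤ (c ^ 2 / T ^ 60) ^ F := by
  have T0 := pos hT
  have h1 : Real.exp (-(101 * T ^ 9)) ≤ c ^ 2 / T ^ 60 := by
    rw [le_div_iff₀ (pw0 hT 60)]
    calc _ ≤ Real.exp (-(101 * T ^ 9)) * Real.exp T := by
          gcongr; exact pow_le_exp hT (by norm_num)
      _ ≤ Real.exp (-(50 * T ^ 9)) ^ 2 := by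
          rw [← Real.exp_add, ← Real.exp_nat_mul]
          refine Real.exp_le_exp.mpr ?_
          have := pw' hT (a := 1) (b := 9) (by norm_num)
          push_cast
          linarith
      _ ≤ c ^ 2 := by gcongr
  refine le_trans (Real.exp_le_exp.mpr ?_) (exp_le_pow h1)
  have := pw0 hT 9
  have : (F : ℝ) * T ^ 9 ≤ T ^ 8 * T ^ 9 := by gcongr
  have := pw0 hT 17
  linarith

end num

variable {Γ : Geo} {ν a0 : ℝ} {R : Raw} {j : ℕ} {t0 a tb t1 : ℝ}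

lemma rho_mono (N : IsNet Γ ν a0 R) (S : St Γ ν R j t0 a tb) (H : Run Γ R j t0 a t1) {s u : ℝ}
    (h1 : t0 ≤ s) (h2 : s ≤ u) (h3 : u ≤ t1) : R.rho Γ j a s ≤ R.rho Γ j a u :=
  mono_of_deriv S.t0_nonneg (fun t ht => by
    obtain ⟨h0, D, hD, h4, -⟩ := H.hd_rho N S ht
    have := S.rr_pos N
    exact ⟨D, hD, le_trans (by positivity) h4⟩) h1 h2 h3

lemma rho_cont (N : IsNet Γ ν a0 R) (S : St Γ ν R j t0 a tb) (H : Run Γ R j t0 a t1) {s u : ℝ}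
    (h1 : t0 ≤ s) (h3 : u ≤ t1) : ContinuousOn (R.rho Γ j a) (Icc s u) :=
  contOn_of_HD (S.t0_nonneg.trans h1) fun t ht => by
    obtain ⟨-, D, hD, -⟩ := H.hd_rho N S (t := t) ⟨h1.trans ht.1, ht.2.trans h3⟩
    exact ⟨D, hD⟩

/-- The marked times of the first phase. -/
structure Tm (Γ : Geo) (R : Raw) (j : ℕ) (t0 a t1 u0 u1 w1 w2 σ : ℝ) : Prop where
  h0 : t0 ≤ u0
  h1 : u0 ≤ u1
  h2 : u1 ≤ w1
  h3 : w1 ≤ w2
  h4 : w2 ≤ σ
  h5 : σ ≤ t1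
  e0 : R.rho Γ j a u0 = Real.exp (-(2 * Γ.T (j + 1) ^ 2))
  e1 : R.rho Γ j a u1 = Real.exp (-Γ.T (j + 1) ^ 2)
  e2 : R.rho Γ j a w1 = 1
  e3 : R.rho Γ j a w2 = 2
  e4 : R.rho Γ j a σ = Γ.T (j + 1) ^ 15

lemma rho_start (N : IsNet Γ ν a0 R) (S : St Γ ν R j t0 a tb) :
    R.rho Γ j a t0 ≤ Real.exp (-(2 * Γ.T (j + 1) ^ 2)) := by
  have hT := Γ.Tbig (j + 1)
  refine (S.rho_t0 N).2.trans ?_
  have m0 : (0 : ℝ) < Γ.M j + 1 := by positivity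
  rw [div_le_iff₀ m0]
  have a0 := Γ.T_pos j
  have a1 : Γ.T j ^ 20 ≤ Γ.T (j + 1) ^ 20 := by gcongr; exact Γ.Tmono j
  have a2 := pw hT (a := 20) (b := 21) (by norm_num)
  have a3 := pw0 hT 20
  have a4 := pow_le_exp hT (k := 21) (by norm_num)
  calc 2 * Γ.T j ^ 20 ≤ Real.exp (Γ.T (j + 1)) := by linarith
    _ ≤ Real.exp (-(2 * Γ.T (j + 1) ^ 2)) * Real.exp (Γ.T (j + 1) ^ 9 / 1024) := by
      rw [← Real.exp_add]
      refine Real.exp_le_exp.mpr ?_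
      have b1 := pw hT (a := 2) (b := 9) (by norm_num)
      have b2 := pw' hT (a := 1) (b := 2) (by norm_num)
      have b3 := pw0 hT 2
      rw [pow_one] at b2
      linarith only [hT, b1, b2]
    _ ≤ _ := by gcongr; exact Γ.exp_le_M j

lemma exists_times (hν : 0 < ν) (N : IsNet Γ ν a0 R) (S : St Γ ν R j t0 a tb)
    (H : Run Γ R j t0 a t1) : ∃ u0 u1 w1 w2 σ, Tm Γ R j t0 a t1 u0 u1 w1 w2 σ := by
  have hT := Γ.Tbig (j + 1)
  have s0 := rho_start N S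
  have b2 := pw0 hT 2
  have c1 : Real.exp (-(2 * Γ.T (j + 1) ^ 2)) ≤ Real.exp (-Γ.T (j + 1) ^ 2) :=
    Real.exp_le_exp.mpr (by linarith)
  have c2 : Real.exp (-Γ.T (j + 1) ^ 2) ≤ 1 := Real.exp_le_one_iff.mpr (by linarith)
  have c3 : (2 : ℝ) ≤ Γ.T (j + 1) ^ 15 := by
    have := pw hT (a := 0) (b := 15) (by norm_num)
    rw [pow_zero] at this
    linarith
  have c4 : Γ.T (j + 1) ^ 15 ≤ R.rho Γ j a t1 := by
    have := pw hT (a := 15) (b := 17) (by norm_num)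
    have := pw0 hT 15
    linarith [trigger hν N S H]
  obtain ⟨σ, m4, e4⟩ := exists_level H.le (rho_cont N S H le_rfl le_rfl) (by linarith) c4
  obtain ⟨w2, m3, e3⟩ := exists_level (c := 2) m4.1 (rho_cont N S H le_rfl m4.2) (by linarith)
    (by linarith)
  have l3 := m3.2.trans m4.2
  obtain ⟨w1, m2, e2⟩ := exists_level (c := 1) m3.1 (rho_cont N S H le_rfl l3) (by linarith)
    (by linarith)
  have l2 := m2.2.trans l3
  obtain ⟨u1, m1, e1⟩ := exists_level (c := Real.exp (-Γ.T (j + 1) ^ 2)) m2.1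
    (rho_cont N S H le_rfl l2) (by linarith) (by linarith)
  have l1 := m1.2.trans l2
  obtain ⟨u0, m0, e0⟩ := exists_level (c := Real.exp (-(2 * Γ.T (j + 1) ^ 2))) m1.1
    (rho_cont N S H le_rfl l1) s0 (by linarith)
  exact ⟨u0, u1, w1, w2, σ, m0.1, m0.2, m1.2, m2.2, m3.2, m4.2, e0, e1, e2, e3, e4⟩

variable {u0 u1 w1 w2 σ : ℝ}

lemma hd_lin (k t : ℝ) : HD (fun s => k * s) k t := by
  simpa using (hasDerivWithinAt_id t (Ici (0 : ℝ))).const_mul k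

lemma Tm.mem (K : Tm Γ R j t0 a t1 u0 u1 w1 w2 σ) {t : ℝ} (ht : t ∈ Icc u0 σ) : t ∈ Icc t0 t1 :=
  ⟨K.h0.trans ht.1, ht.2.trans K.h5⟩

lemma Tm.sub (K : Tm Γ R j t0 a t1 u0 u1 w1 w2 σ) {t : ℝ} (ht : t ∈ Icc u1 σ) : t ∈ Icc u0 σ :=
  ⟨K.h1.trans ht.1, ht.2⟩

lemma Tm.time_lo (K : Tm Γ R j t0 a t1 u0 u1 w1 w2 σ) (N : IsNet Γ ν a0 R)
    (S : St Γ ν R j t0 a tb) (H : Run Γ R j t0 a t1) : 1 ≤ 16 * R.rr Γ j a * (w2 - w1) := by
  have l1 : t0 ≤ w1 := K.h0.trans (K.h1.trans K.h2)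
  have h := le_exp_of_deriv (F := R.rho Γ j a) (τ := fun s => 8 * R.rr Γ j a * s) (b := w2)
    (S.t0_nonneg.trans l1) (fun t ht => by
      obtain ⟨-, D, hD, -, h4⟩ := H.hd_rho N S (t := t) ⟨l1.trans ht.1, ht.2.trans (K.h4.trans K.h5)⟩
      exact ⟨D, _, hD, hd_lin _ _, h4⟩) w2 ⟨K.h3, le_rfl⟩
  rw [K.e2, K.e3, one_mul] at h
  by_contra hc
  push Not at hc
  have a1 : Real.exp (8 * R.rr Γ j a * w2 - 8 * R.rr Γ j a * w1) < Real.exp (1 / 2) :=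
    Real.exp_lt_exp.mpr (by linarith)
  have a2 := Real.add_one_le_exp (-(1 / 2))
  have a3 : Real.exp (1 / 2) * Real.exp (-(1 / 2)) = 1 := by rw [← Real.exp_add]; simp
  nlinarith only [h, a1, a2, a3, Real.exp_pos (1 / 2)]

lemma Tm.time_hi (K : Tm Γ R j t0 a t1 u0 u1 w1 w2 σ) (N : IsNet Γ ν a0 R)
    (S : St Γ ν R j t0 a tb) (H : Run Γ R j t0 a t1) :
    R.rr Γ j a * (σ - u1) ≤ 4 * Γ.T (j + 1) ^ 2 := by
  have hT := Γ.Tbig (j + 1)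
  have l1 : t0 ≤ u1 := K.h0.trans K.h1
  have h := exp_le_of_deriv (F := R.rho Γ j a) (τ := fun s => R.rr Γ j a / 2 * s) (b := σ)
    (S.t0_nonneg.trans l1) (fun t ht => by
      obtain ⟨-, D, hD, h4, -⟩ := H.hd_rho N S (t := t) ⟨l1.trans ht.1, ht.2.trans K.h5⟩
      exact ⟨D, _, hD, hd_lin _ _, h4⟩) σ ⟨K.h2.trans (K.h3.trans K.h4), le_rfl⟩
  rw [K.e1, K.e4, ← Real.exp_add] at h
  have a1 := Real.exp_le_exp.mp (h.trans (pow_le_exp hT (by norm_num)))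
  have b2 := pw' hT (a := 1) (b := 2) (by norm_num)
  rw [pow_one] at b2
  linarith only [a1, b2]

end Sd

end

end Pool.Agent.Work.MP_6bf1e5_an.Dec
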