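import Pool.Agent.Work.MP_6bf1e5_an.Dec.SeedA

/-!
The chain from below and the size of the seed.
-/

open Set Complex
open scoped InnerProductSpace ComplexConjugate
open Pool.Agent.Work.MP_6bf1e5_an.B (Z3 R3 box)

namespace Pool.Agent.Work.MP_6bf1e5_an.Dec

noncomputable section

namespace Sd

variable {Γ : Geo} {ν a0 : ℝ} {R : Raw} {j : ℕ} {t0 a tb t1 u0 u1 w1 w2 σ : ℝ}

lemma lb_pos (Γ : Geo) (j : ℕ) : 0 < 10 ^ 4 * Γ.lam (j + 2) := by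
  have := Γ.lam_pos' (j + 2)
  positivity

lemma diss (hν : 0 < ν) (S : St Γ ν R j t0 a tb) :
    4 * (ν * Γ.lam (j + 2) ^ 2) * (4 * Γ.T (j + 1) ^ 2) * Γ.T (j + 1) ^ 50 ≤ R.rr Γ j a := by
  refine le_trans ?_ S.K1
  have hT := Γ.Tbig j
  have T0 := Γ.T_pos (j + 1)
  have l0 := Γ.lam_pos' (j + 1)
  have a1 : Γ.T (j + 1) ^ 68 ≤ (2 * Γ.T j) ^ 68 := by gcongr; exact Γ.Tdbl j
  have a2 := pw hT (a := 68) (b := 100) (by norm_num)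
  have a3 := pw0 hT 68
  have a4 : 16 * Γ.T (j + 1) ^ 68 ≤ Γ.T j ^ 100 := by
    rw [mul_pow] at a1
    linarith
  rw [Γ.lam_succ' (j + 1)]
  calc _ = 16 * Γ.T (j + 1) ^ 68 * (ν * Γ.lam (j + 1) ^ 2) := by ring
    _ ≤ _ := by gcongr

lemma c_lo (Γ : Geo) (j : ℕ) : 10 ^ 4 * Γ.lam (j + 2) / Γ.T (j + 1) ^ 18 ≤ Γ.lam j / 20 := by
  have hT := Γ.Tbig (j + 1)
  have T0 := Γ.T_pos j
  have l0 := Γ.lam_pos' j
  rw [div_le_iff₀ (pw0 hT 18), Γ.lam_succ' (j + 1), Γ.lam_succ' j]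
  have a1 : Γ.T j ^ 8 ≤ Γ.T (j + 1) ^ 8 := by gcongr; exact Γ.Tmono j
  have a2 := pw hT (a := 16) (b := 18) (by norm_num)
  have a3 := pw0 hT 16
  have a4 := pw0 hT 8
  calc _ ≤ 10 ^ 4 * (Γ.T (j + 1) ^ 8 * (Γ.T (j + 1) ^ 8 * Γ.lam j)) := by gcongr
    _ = Γ.lam j / 20 * (2 * 10 ^ 5 * Γ.T (j + 1) ^ 16) := by ring
    _ ≤ _ := by gcongr; linarith

lemma rr_le (hν : 0 < ν) (N : IsNet Γ ν a0 R) (S : St Γ ν R j t0 a tb) :
    R.rr Γ j a ≤ Real.exp (30 * Γ.T (j + 1) ^ 9) * (ν * Γ.lam (j + 2) ^ 2) := by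
  have hT := Γ.Tbig (j + 1)
  have l0 := Γ.lam_pos' (j + 1)
  have T0 := Γ.T_pos j
  have m1 : (1 : ℝ) ≤ Γ.M j + 1 := by linarith [Nat.cast_nonneg (α := ℝ) (Γ.M j)]
  have a1 : R.rr Γ j a ≤ (Γ.M j + 1) * (ν * Γ.lam (j + 1) ^ 2) := by
    refine le_of_pow_le_pow_left₀ (n := 3) (by norm_num) (by positivity) (S.K2.trans ?_)
    rw [mul_pow ((Γ.M j : ℝ) + 1)]
    gcongr
    simpa using pow_le_pow_right₀ m1 (show 1 ≤ 3 by norm_num)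
  have a2 : Γ.lam (j + 1) ≤ Γ.lam (j + 2) := by
    rw [Γ.lam_succ' (j + 1)]
    exact le_mul_of_one_le_left l0.le (one_le_pow₀ (one_le hT))
  refine a1.trans ?_
  gcongr
  refine (Γ.Mhi j).trans ?_
  gcongr
  exact Γ.Tmono j

lemma Tm.upper (K : Tm Γ R j t0 a t1 u0 u1 w1 w2 σ) (hν : 0 < ν) (N : IsNet Γ ν a0 R)
    (S : St Γ ν R j t0 a tb) (H : Run Γ R j t0 a t1) {t : ℝ} (ht : t ∈ Icc u0 σ) :
    (∀ m, 1 ≤ m → m < Γ.n (j + 1) → |R.y (j + 1) m t| ≤ R.rr Γ j a /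
      (10 ^ 4 * Γ.lam (j + 2)) * R.WW Γ ν j a t0 t ^ Nat.fib m / 10 ^ 4) ∧
      (∀ s ∈ Icc 0 t, R.nr (j + 2) s ≤ R.ZZ Γ ν j a t0 t) ∧
      R.ZZ Γ ν j a t0 t ≤ R.rr Γ j a / (10 ^ 4 * Γ.lam (j + 2)) *
        R.WW Γ ν j a t0 t ^ Nat.fib (Γ.n (j + 1) - 1) := by
  have hT := Γ.Tbig (j + 1)
  refine Dec.upper hν N S H (K.mem ⟨ht.1.trans ht.2, le_rfl⟩) ?_ t ⟨K.h0.trans ht.1, ht.2⟩
  have := pw hT (a := 15) (b := 17) (by norm_num)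
  have := pw0 hT 15
  rw [K.e4]
  linarith

lemma Tm.W_le (K : Tm Γ R j t0 a t1 u0 u1 w1 w2 σ) (hν : 0 < ν) (N : IsNet Γ ν a0 R)
    (S : St Γ ν R j t0 a tb) (H : Run Γ R j t0 a t1) {t : ℝ} (ht : t ∈ Icc u0 σ) :
    R.WW Γ ν j a t0 t ≤ 2 * 10 ^ 8 * R.xx Γ j a t ^ 2 :=
  (H.hd_WW hν N S (K.mem ht)).2.2.2.2.1 (K.e0 ▸ rho_mono N S H K.h0 ht.1 (ht.2.trans K.h5))

lemma Tm.rho_le (K : Tm Γ R j t0 a t1 u0 u1 w1 w2 σ) (N : IsNet Γ ν a0 R)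
    (S : St Γ ν R j t0 a tb) (H : Run Γ R j t0 a t1) {t : ℝ} (ht : t ∈ Icc u0 σ) :
    R.rho Γ j a t ≤ Γ.T (j + 1) ^ 15 :=
  K.e4 ▸ rho_mono N S H (K.h0.trans ht.1) ht.2 K.h5

lemma Tm.xx_le (K : Tm Γ R j t0 a t1 u0 u1 w1 w2 σ) (N : IsNet Γ ν a0 R)
    (S : St Γ ν R j t0 a tb) (H : Run Γ R j t0 a t1) {t : ℝ} (ht : t ∈ Icc u0 σ) :
    R.xx Γ j a t ≤ Real.exp (-Γ.T (j + 1)) := by
  have hT := Γ.Tbig (j + 1)
  obtain ⟨c, c1, c2, hc⟩ := S.xx_eq N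
  have n0 := NN_pos (Γ.M (j + 1))
  have r0 := (H.hd_rho N S (K.mem ht)).1
  have r1 := K.rho_le N S H ht
  have m1 : (1 : ℝ) ≤ Γ.M (j + 1) + 1 := by linarith [Nat.cast_nonneg (α := ℝ) (Γ.M (j + 1))]
  have n1 : (Γ.M (j + 1) + 1 : ℝ) ≤ NN (Γ.M (j + 1)) := by
    refine le_of_pow_le_pow_left₀ (n := 2) (by norm_num) n0.le ?_
    rw [NN_sq]
    exact pow_le_pow_right₀ m1 (by norm_num)
  have n2 := (Γ.Mlo (j + 1)).trans n1
  have T9 := pw0 hT 9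
  rw [hc]
  calc c * R.rho Γ j a t ≤ Γ.T (j + 1) ^ 9 / NN (Γ.M (j + 1)) * Γ.T (j + 1) ^ 15 := by gcongr
    _ = Γ.T (j + 1) ^ 24 / NN (Γ.M (j + 1)) := by ring
    _ ≤ Real.exp (Γ.T (j + 1)) / Real.exp (Γ.T (j + 1) ^ 9 / 2) := by
      gcongr; exact pow_le_exp hT (by norm_num)
    _ ≤ _ := by
      rw [← Real.exp_sub]
      refine Real.exp_le_exp.mpr ?_
      have := pw hT (a := 1) (b := 9) (by norm_num)
      rw [pow_one] at this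
      linarith only [this, pos hT]

/-- The chain from below. -/
lemma Tm.lower (K : Tm Γ R j t0 a t1 u0 u1 w1 w2 σ) (hν : 0 < ν) (N : IsNet Γ ν a0 R)
    (S : St Γ ν R j t0 a tb) (H : Run Γ R j t0 a t1) {t : ℝ} (ht : t ∈ Icc u1 σ) :
    ∀ m, 1 ≤ m → m < Γ.n (j + 1) → R.rr Γ j a / (10 ^ 4 * Γ.lam (j + 2)) * Γ.T (j + 1) ^ 30 *
      (R.xx Γ j a t ^ 2 / Γ.T (j + 1) ^ 60) ^ Nat.fib m ≤ R.y (j + 1) m t := by
  have hT := Γ.Tbig (j + 1)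
  have r0 := S.rr_pos N
  have l0 := lb_pos Γ j
  have h0 : 0 ≤ u0 := S.t0_nonneg.trans K.h0
  have hW : ∀ s ∈ Icc u0 σ, ∀ k : ℕ, R.WW Γ ν j a t0 s ^ k ≤
      (Γ.T (j + 1) ^ 10 * R.xx Γ j a s ^ 2) ^ k := fun s hs k => by
    refine pow_le_pow_left₀ (H.hd_WW hν N S (K.mem hs)).1.le ((K.W_le hν N S H hs).trans ?_) k
    have := pw hT (a := 0) (b := 10) (by norm_num)
    gcongr
    rw [pow_zero] at this
    linarith
  refine chain_lower (Γ.n8 (j + 1)) hT (Γ.nT (j + 1)) (Γ.fib_hi (j + 1)) (y := R.y (j + 1))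
    (c := R.c (j + 1)) (d := R.d (j + 1)) (x := R.xx Γ j a) (t1 := u0) (t2 := σ) h0 l0 r0
    (fun m h1 h2 => (c_lo Γ j).trans (N.c_lo j m h1 h2.le)) (fun m h1 h2 => ⟨?_, ?_⟩)
    (N.y0 j) (N.yend j) (fun m s hs h1 h2 => ?_) (fun s hs => ?_) (fun s hs m h1 h2 => ?_)
    (fun s hs => ?_) t (K.sub ht) ?_
  · exact le_trans (by positivity) (N.d_lo j m h1 h2)
  · refine (N.d_hi j m h1 h2).trans (le_trans ?_ (diss hν S))
    rw [mul_assoc (4 * _)]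
    refine le_mul_of_one_le_right (by positivity) ?_
    have a1 := one_le_pow₀ (n := 2) (one_le hT)
    have a2 := one_le_pow₀ (n := 50) (one_le hT)
    nlinarith only [a1, a2]
  · obtain ⟨S', b, h3, h4, h5, h6, h7⟩ := N.eqY j m s (h0.trans hs.1) h1 h2
    refine ⟨S', b, h3, h4, fun hm => ?_, h7⟩
    obtain ⟨-, c1, c2⟩ := H.coneB N S (K.mem hs)
    have e : R.rr Γ j a / (10 ^ 4 * Γ.lam (j + 2)) * R.xx Γ j a s = R.alf Γ j s / 2 := by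
      have := Γ.lam_pos' (j + 2)
      unfold Raw.xx
      field_simp
    have n1 : R.nr (j + 1) s ^ 2 ≤ (71 / 100 * R.alf Γ j s) ^ 2 := by
      have := nr3_nonneg (R.B (j + 1) s) (R.Cp (j + 1) s) (R.Cm (j + 1) s)
      exact pow_le_pow_left₀ this (H.nr_le (K.mem hs)) 2
    rw [e]
    rcases (show m = 1 ∨ m = 2 by omega) with h | h
    · have := (abs_le.mp (h5 h)).1
      linarith only [c1, n1, this, sq_nonneg (R.alf Γ j s)]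
    · have := (abs_le.mp (h6 h)).1
      linarith only [c2, n1, this, sq_nonneg (R.alf Γ j s)]
  · obtain ⟨x0, D, hD, h4, h5⟩ := H.hd_xx N S (K.mem hs)
    have : 0 < R.rr Γ j a * R.xx Γ j a s := by positivity
    exact ⟨x0, K.xx_le N S H hs, D, hD, by linarith, by linarith⟩
  · refine ((K.upper hν N S H hs).1 m h1 h2).trans ?_
    have w0 := (H.hd_WW hν N S (K.mem hs)).1
    exact le_trans (div_le_self (by positivity) (by norm_num))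
      (mul_le_mul_of_nonneg_left (hW s hs _) (by positivity))
  · obtain ⟨-, h2, h3⟩ := K.upper hν N S H hs
    rw [N.ytop, abs_of_nonneg (a := R.nr (j + 2) s) (nr3_nonneg _ _ _)]
    exact (h2 s ⟨h0.trans hs.1, le_rfl⟩).trans
      (h3.trans (mul_le_mul_of_nonneg_left (hW s hs _) (by positivity)))
  · obtain ⟨c, c1, -, hc⟩ := S.xx_eq N
    have c0 : 0 < c := lt_of_lt_of_le (inv_pos.mpr (NN_pos _)) c1
    have := rho_mono N S H (K.h0.trans K.h1) ht.1 (ht.2.trans K.h5)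
    rw [hc, hc, K.e0, mul_left_comm, ← Real.exp_add]
    gcongr
    refine le_trans (le_of_eq ?_) this
    rw [K.e1]
    congr 1
    ring

/-- Two-sided bounds of the seed. -/
lemma Tm.f_bd (K : Tm Γ R j t0 a t1 u0 u1 w1 w2 σ) (hν : 0 < ν) (N : IsNet Γ ν a0 R)
    (S : St Γ ν R j t0 a tb) (H : Run Γ R j t0 a t1) {t : ℝ} (ht : t ∈ Icc u1 σ) :
    R.rr Γ j a * Γ.T (j + 1) ^ 42 * (R.rr Γ j a / (10 ^ 4 * Γ.lam (j + 2)) *
      (R.xx Γ j a t ^ 2 / Γ.T (j + 1) ^ 60) ^ Nat.fib (Γ.n (j + 1))) ≤ R.f (j + 2) t ∧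
    R.f (j + 2) t ≤ R.rr Γ j a * (R.rr Γ j a / (10 ^ 4 * Γ.lam (j + 2)) *
      R.WW Γ ν j a t0 t ^ Nat.fib (Γ.n (j + 1))) := by
  have hT := Γ.Tbig (j + 1)
  have T0 := pos hT
  have r0 := S.rr_pos N
  have l0 := lb_pos Γ j
  have n8 := Γ.n8 (j + 1)
  have y1 := K.lower hν N S H ht (Γ.n (j + 1) - 1) (by omega) (by omega)
  have y2 := K.lower hν N S H ht (Γ.n (j + 1) - 2) (by omega) (by omega)
  have z1 := (K.upper hν N S H (K.sub ht)).1 (Γ.n (j + 1) - 1) (by omega) (by omega)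
  have z2 := (K.upper hν N S H (K.sub ht)).1 (Γ.n (j + 1) - 2) (by omega) (by omega)
  have c1 := (c_lo Γ j).trans (N.c_lo j (Γ.n (j + 1)) (by omega) le_rfl)
  have c2 := N.c_hi j (Γ.n (j + 1)) (by omega) le_rfl
  have w0 := (H.hd_WW hν N S (K.mem (K.sub ht))).1
  have c0 : 0 ≤ R.c (j + 1) (Γ.n (j + 1)) := le_trans (by positivity) c1
  have p1 : 0 ≤ R.y (j + 1) (Γ.n (j + 1) - 1) t := le_trans (by positivity) y1
  have p2 : 0 ≤ R.y (j + 1) (Γ.n (j + 1) - 2) t := le_trans (by positivity) y2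
  rw [abs_of_nonneg p1] at z1
  rw [abs_of_nonneg p2] at z2
  replace z1 := z1.trans (div_le_self (by positivity) (by norm_num))
  replace z2 := z2.trans (div_le_self (by positivity) (by norm_num))
  rw [N.fS, Γ.fib_add (j + 1), pow_add, pow_add]
  generalize 10 ^ 4 * Γ.lam (j + 2) = lb at *
  constructor
  · refine le_trans (le_of_eq ?_) (mul_le_mul c1 (mul_le_mul y1 y2 (by positivity) p1)
      (by (clear * - hT r0 l0; positivity)) c0)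
    field_simp
  · refine (mul_le_mul c2 (mul_le_mul z1 z2 p2 (by positivity)) (by positivity) l0.le).trans
      (le_of_eq ?_)
    field_simp

end Sd

end

end Pool.Agent.Work.MP_6bf1e5_an.Dec
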