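import Pool.Agent.Work.MP_6bf1e5_an.Dec.Cone
import Pool.Agent.Work.MP_6bf1e5_an.Dec.Gap1
import Pool.Agent.Work.MP_6bf1e5_an.Dec.Gap2
import Pool.Agent.Work.MP_6bf1e5_an.Dec.Chain
import Pool.Agent.Work.MP_6bf1e5_an.Dec.Phase1

/-!
The stages of the cascade.
-/

open Set Complex
open scoped InnerProductSpace ComplexConjugate
open Pool.Agent.Work.MP_6bf1e5_an.B (Z3 R3 box)

namespace Pool.Agent.Work.MP_6bf1e5_an.Dec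

noncomputable section

namespace Raw

variable (R : Raw) (Γ : Geo)

/-- The normalised driver of level `j + 1`. -/
def pp (j : ℕ) (t : ℝ) : V := pk (R.B j t)

/-- The unstable component of level `j + 1`. -/
def alf (j : ℕ) (t : ℝ) : ℝ :=
  al (Γ.M (j + 1)) (R.pp j t) (R.B (j + 1) t) (R.Cp (j + 1) t) (R.Cm (j + 1) t)

/-- The instantaneous strain rate of level `j`. -/
def ss (j : ℕ) (t : ℝ) : ℝ := R.kap j * (ev 0 (R.B j t)).re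

/-- The strain rate of level `j` at amplitude `a`. -/
def rr (j : ℕ) (a : ℝ) : ℝ := R.kap j * NN (Γ.M j) * a

/-- The maximal duration of stage `j`. -/
def DD (j : ℕ) (a : ℝ) : ℝ := 100 * Γ.T j ^ 9 / R.rr Γ j a

/-- The ratio of the next rate to the present one. -/
def rho (j : ℕ) (a t : ℝ) : ℝ := R.rr Γ (j + 1) (R.alf Γ j t / 2) / R.rr Γ j a

/-- The dimensionless amplitude driving the chain of level `j + 1`. -/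
def xx (j : ℕ) (a t : ℝ) : ℝ := 10 ^ 4 * Γ.lam (j + 2) * (R.alf Γ j t / 2) / R.rr Γ j a

/-- The base of the upper barrier of the chain. -/
def WW (ν : ℝ) (j : ℕ) (a t0 t : ℝ) : ℝ := 10 ^ 8 * (R.xx Γ j a t ^ 2 +
  (R.rr Γ j a / (ν * Γ.lam (j + 1) ^ 2)) ^ 2 * R.xx Γ j a t0 * R.xx Γ j a t)

/-- The upper barrier of level `j + 2`. -/
def ZZ (ν : ℝ) (j : ℕ) (a t0 t : ℝ) : ℝ := R.rr Γ j a / 2 / (10 ^ 4 * Γ.lam (j + 2)) *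
  R.WW Γ ν j a t0 t ^ Nat.fib (Γ.n (j + 1)) * Real.exp (60 * R.rho Γ j a t)

end Raw

/-- The state at the beginning `t0` of stage `j`; `a` is the amplitude of level `j`. -/
structure St (Γ : Geo) (ν : ℝ) (R : Raw) (j : ℕ) (t0 a tb : ℝ) : Prop where
  t0_nonneg : 0 ≤ t0
  a_pos : 0 < a
  cone : ‖R.B j t0 - (a : ℂ) • phi (Γ.M j)‖ ≤ 1 / (2 * 10 ^ 10) * a
  K1 : Γ.T j ^ 100 * (ν * Γ.lam (j + 1) ^ 2) ≤ R.rr Γ j a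
  K2 : R.rr Γ j a ^ 3 ≤ (Γ.M j + 1) * (ν * Γ.lam (j + 1) ^ 2) ^ 3
  horE : ∀ t ∈ Icc t0 (t0 + 2 * R.DD Γ j a), R.E j t ≤ (Γ.T j * a) ^ 2
  horD : ∀ t ∈ Icc t0 (t0 + 2 * R.DD Γ j a), ∃ D, HD (R.B j) D t ∧
    ‖D‖ ≤ R.rr Γ j a * a / Γ.T j ^ 14 + 10 ^ 4 * Γ.lam j * NN (Γ.M j) * R.nr (j + 1) t ^ 2
  past : ∀ t ∈ Icc 0 t0, R.nr (j + 1) t ≤ a / (Γ.M j + 1)
  now : a / (2 * (Γ.M j + 1)) ≤ R.nr (j + 1) t0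
  pos : 0 < R.alf Γ j t0
  gb : R.nr (j + 1) t0 ^ 2 ≤ (1 / 2 + 1 / 10 ^ 22) * R.alf Γ j t0 ^ 2
  Eb : R.E (j + 1) t0 ≤ (a / Γ.T j ^ 5) ^ 2
  time : t0 + 2 * R.DD Γ j a ≤ tb

/-- The growth of level `j + 1` on the stopped interval `[t0, t1]`. -/
structure Run (Γ : Geo) (R : Raw) (j : ℕ) (t0 a t1 : ℝ) : Prop where
  le : t0 ≤ t1
  le' : t1 ≤ t0 + R.DD Γ j a
  coneA : ∀ t ∈ Icc t0 t1, ‖R.B j t - (a : ℂ) • phi (Γ.M j)‖ ≤ 1 / 10 ^ 10 * a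
  pos : ∀ t ∈ Icc t0 t1, 0 < R.alf Γ j t
  gb : ∀ t ∈ Icc t0 t1, R.nr (j + 1) t ^ 2 ≤ (1 / 2 + 2 / 10 ^ 22) * R.alf Γ j t ^ 2
  grow : ∀ t ∈ Icc t0 t1, ∃ D, HD (R.alf Γ j) D t ∧
    R.rr Γ j a / 2 * R.alf Γ j t ≤ D ∧ D ≤ 8 * R.rr Γ j a * R.alf Γ j t
  dB : ∀ t ∈ Icc t0 t1, ∃ D, HD (R.B (j + 1)) D t ∧ ‖D‖ ≤ 20 * R.rr Γ j a * R.alf Γ j t
  rhole : ∀ t ∈ Icc t0 t1, R.rho Γ j a t ≤ Γ.T (j + 1) ^ 18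
  small : ∀ t ∈ Icc t0 t1, R.nr (j + 2) t ≤ R.alf Γ j t / 2 / (Γ.M (j + 1) + 1)
  stop : R.rho Γ j a t1 = Γ.T (j + 1) ^ 18 ∨
    R.nr (j + 2) t1 = R.alf Γ j t1 / 2 / (Γ.M (j + 1) + 1)

/-- The state of level `j + 2` at the end `σ` of the first phase. -/
structure Seeded (Γ : Geo) (ν : ℝ) (R : Raw) (j : ℕ) (t0 a t1 σ : ℝ) : Prop where
  mem : σ ∈ Icc t0 t1
  level : R.rho Γ j a σ = Γ.T (j + 1) ^ 15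
  lo1 : R.rr Γ j a / (10 ^ 4 * Γ.lam (j + 2)) * R.WW Γ ν j a t0 σ ^ Nat.fib (Γ.n (j + 1)) *
    Real.exp (Γ.T (j + 1) ^ 13) ≤ R.alf Γ (j + 1) σ
  lo2 : R.rr Γ j a / (10 ^ 4 * Γ.lam (j + 2)) * Real.exp (-(200 * Γ.T (j + 1) ^ 17)) ≤
    R.alf Γ (j + 1) σ
  conc : R.nr (j + 2) σ ^ 2 ≤ 100 * Γ.T (j + 1) ^ 3 * R.alf Γ (j + 1) σ ^ 2
  Ed : R.E (j + 3) σ ≤ R.alf Γ (j + 1) σ ^ 2

end

end Pool.Agent.Work.MP_6bf1e5_an.Dec
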