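import Pool.Agent.Work.MP_6bf1e5_an.G.Defs

/-!
The helically decimated Navier-Stokes system.
-/

namespace Pool.Agent.Work.MP_6bf1e5_an.B

noncomputable section

/-- The viscous term plus the components of the transport term of positive helicity outside `S1`
and of negative helicity outside `S2` (they cancel against the left-hand side). -/
def decim (ν : ℝ) (S1 S2 : Set Z3) (v : R3 → R3) (x : R3) : R3 := fun i =>
  viscous ν v x i + (∑' k, ek k x *
    (S1ᶜ.indicator (fun k => hP 1 k (fc (transport v) k)) k +
      S2ᶜ.indicator (fun k => hP (-1) k (fc (transport v) k)) k) i).re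

end

end Pool.Agent.Work.MP_6bf1e5_an.B
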