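import Pool.Agent.Work.MP_6bf1e5_an.Dec.StDefs

/-!
Energy and helicity with derivatives.
-/

namespace Pool.Agent.Work.MP_6bf1e5_an.B

noncomputable section

/-- `∑ |2 π k|^(2 r) |v_k|²`: the energy for `r = 0`, the enstrophy for `r = 1`. -/
def enr (r : ℕ) (v : R3 → R3) : ℝ := ∑' k, ax k ^ (2 * r) * ‖fc v k‖ ^ 2

/-- `∑ |2 π k|^(2 r) Re ⟨2 π i k × v_k, v_k⟩`: the helicity for `r = 0`. -/
def hlc (r : ℕ) (v : R3 → R3) : ℝ :=
  ∑' k, ax k ^ (2 * r) * (inner ℂ (curlS k (fc v k)) (fc v k)).re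

end

end Pool.Agent.Work.MP_6bf1e5_an.B
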