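import Pool.Agent.Work.MP_6bf1e5_an.B.Lattice

/-!
Finitely supported families on the lattice with convolution product and the Euclidean norm.
-/

open Set Complex
open scoped InnerProductSpace ComplexConjugate
open Pool.Agent.Work.MP_6bf1e5_an.B (Z3 R3 box mem_box card_box sn)

namespace Pool.Agent.Work.MP_6bf1e5_an.Dec

noncomputable section

/-- Envelopes: finitely supported families; the product is convolution. -/
abbrev V := AddMonoidAlgebra ℂ Z3

/-- The Hermitian product. -/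
def ip (f g : V) : ℂ := ∑ h ∈ f.coeff.support, conj (f.coeff h) * g.coeff h

lemma ip_eq {f : V} (g : V) {s : Finset Z3} (hs : f.coeff.support ⊆ s) :
    ip f g = ∑ h ∈ s, conj (f.coeff h) * g.coeff h :=
  Finset.sum_subset hs fun h _ hn => by simp [Finsupp.notMem_support_iff.mp hn]

lemma ip_eq' (f : V) {g : V} {s : Finset Z3} (hs : g.coeff.support ⊆ s) :
    ip f g = ∑ h ∈ s, conj (f.coeff h) * g.coeff h := by
  classical
  rw [ip_eq g (Finset.subset_union_left (s₂ := s))]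
  refine (Finset.sum_subset Finset.subset_union_right fun h _ hn => ?_).symm
  simp [Finsupp.notMem_support_iff.mp fun hh => hn (hs hh)]

/-- The inner product space structure. -/
@[reducible] def core : InnerProductSpace.Core ℂ V where
  inner := ip
  conj_inner_symm f g := by
    rw [ip_eq' g (subset_refl _), ip, map_sum]
    exact Finset.sum_congr rfl fun h _ => by simp [mul_comm]
  re_inner_nonneg f := by
    simp only [ip, RCLike.re_to_complex, Complex.re_sum]
    exact Finset.sum_nonneg fun h _ => by rw [Complex.conj_mul']; norm_cast; positivity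
  add_left f g k := by
    rw [ip_eq' _ (subset_refl _), ip_eq' f (subset_refl _), ip_eq' g (subset_refl _),
      ← Finset.sum_add_distrib]
    exact Finset.sum_congr rfl fun h _ => by simp [add_mul]
  smul_left f g r := by
    rw [ip_eq' _ (subset_refl _), ip_eq' f (subset_refl _), Finset.mul_sum]
    exact Finset.sum_congr rfl fun h _ => by simp [mul_assoc]
  definite f hf := by
    have h1 : ∑ h ∈ f.coeff.support, ‖f.coeff h‖ ^ 2 = 0 := by
      have : ((∑ h ∈ f.coeff.support, ‖f.coeff h‖ ^ 2 : ℝ) : ℂ) = 0 := by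
        rw [← hf]; push_cast
        exact Finset.sum_congr rfl fun h _ => (Complex.conj_mul' _).symm
      exact_mod_cast this
    rw [Finset.sum_eq_zero_iff_of_nonneg fun _ _ => by positivity] at h1
    ext h
    by_cases hh : h ∈ f.coeff.support
    · simpa using h1 h hh
    · simpa using hh

instance instNormedAddCommGroupV : NormedAddCommGroup V := core.toNormedAddCommGroup

instance instInnerProductSpaceV : InnerProductSpace ℂ V := InnerProductSpace.ofCore core.toCore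

lemma rsmul (r : ℝ) (f : V) : r • f = (r : ℂ) • f := by ext h; simp

instance instNormedSpaceRealV : NormedSpace ℝ V where
  norm_smul_le r f := by rw [rsmul, norm_smul]; simp

lemma inner_eq {f : V} (g : V) {s : Finset Z3} (hs : f.coeff.support ⊆ s) :
    ⟪f, g⟫_ℂ = ∑ h ∈ s, conj (f.coeff h) * g.coeff h := ip_eq g hs

lemma inner_eq' (f : V) {g : V} {s : Finset Z3} (hs : g.coeff.support ⊆ s) :
    ⟪f, g⟫_ℂ = ∑ h ∈ s, conj (f.coeff h) * g.coeff h := ip_eq' f hs

lemma norm_sq_eq {f : V} {s : Finset Z3} (hs : f.coeff.support ⊆ s) :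
    ‖f‖ ^ 2 = ∑ h ∈ s, ‖f.coeff h‖ ^ 2 := by
  rw [@norm_sq_eq_re_inner ℂ, inner_eq f hs, RCLike.re_to_complex, Complex.re_sum]
  exact Finset.sum_congr rfl fun h _ => by rw [Complex.conj_mul']; norm_cast

lemma norm_coeff_le (f : V) (h : Z3) : ‖f.coeff h‖ ≤ ‖f‖ := by
  classical
  refine (pow_le_pow_iff_left₀ (norm_nonneg _) (norm_nonneg _) two_ne_zero).mp ?_
  rw [norm_sq_eq (s := insert h f.coeff.support) (Finset.subset_insert _ _)]
  exact Finset.single_le_sum (f := fun h => ‖f.coeff h‖ ^ 2) (fun _ _ => by positivity)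
    (Finset.mem_insert_self _ _)

lemma sum_sq_le (f : V) (s : Finset Z3) : ∑ h ∈ s, ‖f.coeff h‖ ^ 2 ≤ ‖f‖ ^ 2 := by
  classical
  rw [norm_sq_eq (s := s ∪ f.coeff.support) Finset.subset_union_right]
  exact Finset.sum_le_sum_of_subset_of_nonneg Finset.subset_union_left fun _ _ _ => by positivity

lemma norm_le_of_coeff {f g : V} {c : ℝ} (hc : 0 ≤ c) (H : ∀ h, ‖f.coeff h‖ ≤ c * ‖g.coeff h‖) :
    ‖f‖ ≤ c * ‖g‖ := by
  refine (pow_le_pow_iff_left₀ (norm_nonneg _) (by positivity) two_ne_zero).mp ?_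
  rw [norm_sq_eq (subset_refl _), mul_pow]
  refine le_trans ?_ (mul_le_mul_of_nonneg_left (sum_sq_le g f.coeff.support) (by positivity))
  rw [Finset.mul_sum]
  exact Finset.sum_le_sum fun h _ => by rw [← mul_pow]; gcongr; exact H h

lemma norm_le_of_card {f : V} {s : Finset Z3} (hs : f.coeff.support ⊆ s) {c : ℝ} (hc : 0 ≤ c)
    (H : ∀ h, ‖f.coeff h‖ ≤ c) : ‖f‖ ≤ √(s.card) * c := by
  refine (pow_le_pow_iff_left₀ (norm_nonneg _) (by positivity) two_ne_zero).mp ?_
  rw [norm_sq_eq hs, mul_pow, Real.sq_sqrt (by positivity)]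
  calc ∑ h ∈ s, ‖f.coeff h‖ ^ 2 ≤ ∑ h ∈ s, c ^ 2 := Finset.sum_le_sum fun h _ => by gcongr; exact H h
    _ = _ := by simp

/-- The family with values `g` on `s` and zero elsewhere. -/
def mk (s : Finset Z3) (g : Z3 → ℂ) : V := ∑ h ∈ s, AddMonoidAlgebra.single h (g h)

lemma coeff_mk (s : Finset Z3) (g : Z3 → ℂ) (h : Z3) :
    (mk s g).coeff h = if h ∈ s then g h else 0 := by
  simp [mk, Finsupp.single_apply]

lemma support_mk (s : Finset Z3) (g : Z3 → ℂ) : (mk s g).coeff.support ⊆ s := fun h hh => by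
  by_contra hn
  simp [coeff_mk, hn] at hh

lemma eq_mk {f : V} {s : Finset Z3} (hs : f.coeff.support ⊆ s) : f = mk s f.coeff := by
  ext h
  rw [coeff_mk]
  split_ifs with hh
  · rfl
  · exact Finsupp.notMem_support_iff.mp fun h' => hh (hs h')

/-- The unit mass at the origin. -/
def dl : V := AddMonoidAlgebra.single 0 1

lemma dl_eq_one : dl = 1 := rfl

lemma coeff_dl (h : Z3) : dl.coeff h = if h = 0 then 1 else 0 := by
  simp [dl, Finsupp.single_apply, eq_comm]

lemma inner_single (h : Z3) (c : ℂ) (g : V) :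
    ⟪(AddMonoidAlgebra.single h c : V), g⟫_ℂ = conj c * g.coeff h := by
  rw [inner_eq (s := {h}) g (by simpa using Finsupp.support_single_subset)]
  simp

lemma norm_single (h : Z3) (c : ℂ) : ‖(AddMonoidAlgebra.single h c : V)‖ = ‖c‖ := by
  refine (pow_left_inj₀ (norm_nonneg _) (norm_nonneg _) two_ne_zero).mp ?_
  rw [norm_sq_eq (s := {h}) (by simpa using Finsupp.support_single_subset)]
  simp

lemma norm_dl : ‖dl‖ = 1 := by simp [dl, norm_single]

lemma coeff_mul_eq {f : V} (g : V) {s : Finset Z3} (hs : f.coeff.support ⊆ s) (h : Z3) :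
    (f * g).coeff h = ∑ k ∈ s, f.coeff k * g.coeff (h - k) := by
  rw [AddMonoidAlgebra.coeff_mul_apply_left, Finsupp.sum_of_support_subset _ hs _ (by simp)]
  exact Finset.sum_congr rfl fun k _ => by rw [neg_add_eq_sub]

lemma coeff_single_mul (k : Z3) (c : ℂ) (g : V) (h : Z3) :
    (AddMonoidAlgebra.single k c * g).coeff h = c * g.coeff (h - k) := by
  rw [AddMonoidAlgebra.coeff_single_mul_apply, neg_add_eq_sub]

lemma mul_eq_sum (p f : V) :
    p * f = ∑ k ∈ p.coeff.support, p.coeff k • (AddMonoidAlgebra.single k 1 * f) := by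
  ext h
  rw [coeff_mul_eq f (subset_refl _)]
  simp [neg_add_eq_sub]

/-! Supports -/

/-- Support in the box of radius `n`. -/
def Supp (n : ℕ) (f : V) : Prop := ∀ h, h ∉ box n → f.coeff h = 0

lemma Supp.subset {n : ℕ} {f : V} (H : Supp n f) : f.coeff.support ⊆ box n := fun h hh => by
  by_contra hn
  exact Finsupp.mem_support_iff.mp hh (H h hn)

lemma supp_of_subset {n : ℕ} {f : V} (H : f.coeff.support ⊆ box n) : Supp n f := fun _ hn =>
  Finsupp.notMem_support_iff.mp fun h' => hn (H h')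

lemma mem_box' {n : ℕ} {k : Z3} : k ∈ box n ↔ ∀ i, |k i| ≤ n := by
  simp [B.box, abs_le]

lemma box_mono {m n : ℕ} (h : m ≤ n) : box m ⊆ box n := fun _ hk =>
  mem_box.mpr ((mem_box.mp hk).trans h)

lemma add_mem_box {m n : ℕ} {a b : Z3} (ha : a ∈ box m) (hb : b ∈ box n) : a + b ∈ box (m + n) := by
  rw [mem_box'] at *
  intro i
  have := abs_add_le (a i) (b i)
  have := ha i
  have := hb i
  simp only [Pi.add_apply]; push_cast; linarith

lemma neg_mem_box {n : ℕ} {a : Z3} : -a ∈ box n ↔ a ∈ box n := by simp [mem_box']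

lemma zero_mem_box (n : ℕ) : (0 : Z3) ∈ box n := by simp [mem_box']

lemma Supp.mono {m n : ℕ} {f : V} (H : Supp m f) (h : m ≤ n) : Supp n f :=
  fun k hk => H k fun h' => hk (box_mono h h')

lemma supp_zero (n : ℕ) : Supp n 0 := fun _ _ => rfl

lemma Supp.add {n : ℕ} {f g : V} (hf : Supp n f) (hg : Supp n g) : Supp n (f + g) :=
  fun k hk => by simp [hf k hk, hg k hk]

lemma Supp.sub {n : ℕ} {f g : V} (hf : Supp n f) (hg : Supp n g) : Supp n (f - g) :=
  fun k hk => by simp [hf k hk, hg k hk]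

lemma Supp.neg {n : ℕ} {f : V} (hf : Supp n f) : Supp n (-f) := fun k hk => by simp [hf k hk]

lemma Supp.smul {n : ℕ} {f : V} (hf : Supp n f) (c : ℂ) : Supp n (c • f) :=
  fun k hk => by simp [hf k hk]

lemma Supp.mul {m n : ℕ} {f g : V} (hf : Supp m f) (hg : Supp n g) : Supp (m + n) (f * g) := by
  intro h hh
  rw [coeff_mul_eq g hf.subset]
  refine Finset.sum_eq_zero fun k hk => ?_
  rw [hg (h - k) fun h' => hh (by simpa using add_mem_box hk h'), mul_zero]

lemma supp_mk (n : ℕ) (g : Z3 → ℂ) : Supp n (mk (box n) g) := supp_of_subset (support_mk _ _)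

lemma supp_single {n : ℕ} {k : Z3} (hk : k ∈ box n) (c : ℂ) :
    Supp n (AddMonoidAlgebra.single k c) := fun h hh => by
  have : k ≠ h := fun e => hh (e ▸ hk)
  simp [this]

lemma supp_dl (n : ℕ) : Supp n dl := supp_single (zero_mem_box n) 1

/-! Multipliers -/

/-- Multiplication of the coefficients by `d`. -/
def mulc (d : Z3 → ℂ) : V →ₗ[ℂ] V where
  toFun f := .ofCoeff (Finsupp.onFinset f.coeff.support (fun h => d h * f.coeff h) fun h hh =>
    Finsupp.mem_support_iff.mpr (right_ne_zero_of_mul hh))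
  map_add' f g := by ext h; simp [mul_add]
  map_smul' c f := by ext h; simp [mul_left_comm]

@[simp] lemma coeff_mulc (d : Z3 → ℂ) (f : V) (h : Z3) : (mulc d f).coeff h = d h * f.coeff h := rfl

lemma Supp.mulc {n : ℕ} {f : V} (hf : Supp n f) (d : Z3 → ℂ) : Supp n (mulc d f) :=
  fun k hk => by simp [hf k hk]

lemma norm_mulc_le {d : Z3 → ℂ} {c : ℝ} (hc : 0 ≤ c) {f : V}
    (H : ∀ h ∈ f.coeff.support, ‖d h‖ ≤ c) : ‖mulc d f‖ ≤ c * ‖f‖ :=
  norm_le_of_coeff hc fun h => by
    by_cases hh : h ∈ f.coeff.support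
    · rw [coeff_mulc, norm_mul]; gcongr; exact H h hh
    · simp [Finsupp.notMem_support_iff.mp hh]

lemma inner_mulc_left (d : Z3 → ℂ) (f g : V) :
    ⟪mulc d f, g⟫_ℂ = ⟪f, mulc (fun h => conj (d h)) g⟫_ℂ := by
  rw [inner_eq (s := f.coeff.support) g (fun h hh => Finsupp.mem_support_iff.mpr
    (right_ne_zero_of_mul (Finsupp.mem_support_iff.mp hh))), inner_eq _ (subset_refl _)]
  exact Finset.sum_congr rfl fun h _ => by simp only [coeff_mulc, map_mul]; ring

/-- Multiplication by a real family (the dissipation). -/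
def mulr (d : Z3 → ℝ) : V →ₗ[ℂ] V := mulc fun h => (d h : ℂ)

@[simp] lemma coeff_mulr (d : Z3 → ℝ) (f : V) (h : Z3) :
    (mulr d f).coeff h = (d h : ℂ) * f.coeff h := rfl

lemma re_inner_mulr_ge {d : Z3 → ℝ} {c : ℝ} (H : ∀ h, c ≤ d h) (f : V) :
    c * ‖f‖ ^ 2 ≤ (⟪f, mulr d f⟫_ℂ).re := by
  rw [inner_eq _ (subset_refl _), norm_sq_eq (subset_refl _), Complex.re_sum, Finset.mul_sum]
  refine Finset.sum_le_sum fun h _ => ?_
  rw [coeff_mulr, mul_left_comm, Complex.conj_mul', Complex.re_ofReal_mul]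
  norm_cast
  gcongr
  exact H h

lemma norm_mulr_le {d : Z3 → ℝ} {c : ℝ} (H0 : ∀ h, 0 ≤ d h) (H : ∀ h, d h ≤ c) (f : V) :
    ‖mulr d f‖ ≤ c * ‖f‖ :=
  norm_mulc_le ((H0 0).trans (H 0)) fun h _ => by simpa [abs_of_nonneg (H0 h)] using H h

/-- The projection onto the box of radius `n`. -/
def proj (n : ℕ) : V →ₗ[ℂ] V := mulc fun h => if h ∈ box n then 1 else 0

lemma coeff_proj (n : ℕ) (f : V) (h : Z3) :
    (proj n f).coeff h = if h ∈ box n then f.coeff h else 0 := by simp [proj]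

lemma supp_proj (n : ℕ) (f : V) : Supp n (proj n f) := fun h hh => by simp [coeff_proj, hh]

lemma Supp.proj_eq {n : ℕ} {f : V} (H : Supp n f) : proj n f = f := by
  ext h
  rw [coeff_proj]
  split_ifs with hh
  · rfl
  · exact (H h hh).symm

lemma norm_proj_le (n : ℕ) (f : V) : ‖proj n f‖ ≤ ‖f‖ := by
  simpa [proj] using norm_mulc_le (d := fun h => if h ∈ box n then 1 else 0) zero_le_one (f := f)
    fun h _ => by split_ifs <;> simp

lemma inner_proj_left (n : ℕ) (f g : V) : ⟪proj n f, g⟫_ℂ = ⟪f, proj n g⟫_ℂ := by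
  rw [proj, inner_mulc_left]
  congr 3
  funext h
  split_ifs <;> simp

lemma Supp.inner_proj {n : ℕ} {f : V} (H : Supp n f) (g : V) : ⟪f, proj n g⟫_ℂ = ⟪f, g⟫_ℂ := by
  rw [← inner_proj_left, H.proj_eq]

/-! Absolute values and the sum norm -/

/-- The family of absolute values. -/
def av (f : V) : V := .ofCoeff (f.coeff.mapRange (fun z => (‖z‖ : ℂ)) (by simp))

@[simp] lemma coeff_av (f : V) (h : Z3) : (av f).coeff h = (‖f.coeff h‖ : ℂ) := rfl

lemma Supp.av {n : ℕ} {f : V} (hf : Supp n f) : Supp n (av f) := fun k hk => by simp [hf k hk]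

lemma norm_av (f : V) : ‖av f‖ = ‖f‖ :=
  le_antisymm (by simpa using norm_le_of_coeff (f := av f) (g := f) zero_le_one fun h => by simp)
    (by simpa using norm_le_of_coeff (f := f) (g := av f) zero_le_one fun h => by simp)

/-- The sum of the absolute values. -/
def l1 (f : V) : ℝ := ∑ h ∈ f.coeff.support, ‖f.coeff h‖

lemma l1_eq {f : V} {s : Finset Z3} (hs : f.coeff.support ⊆ s) : l1 f = ∑ h ∈ s, ‖f.coeff h‖ :=
  Finset.sum_subset hs fun h _ hn => by simp [Finsupp.notMem_support_iff.mp hn]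

lemma l1_nonneg (f : V) : 0 ≤ l1 f := Finset.sum_nonneg fun _ _ => norm_nonneg _

lemma sum_le_l1 (f : V) (s : Finset Z3) : ∑ h ∈ s, ‖f.coeff h‖ ≤ l1 f := by
  classical
  rw [l1_eq (s := s ∪ f.coeff.support) Finset.subset_union_right]
  exact Finset.sum_le_sum_of_subset_of_nonneg Finset.subset_union_left fun _ _ _ => by positivity

lemma l1_le_of_coeff {f g : V} {c : ℝ} (hc : 0 ≤ c) (H : ∀ h, ‖f.coeff h‖ ≤ c * ‖g.coeff h‖) :
    l1 f ≤ c * l1 g := by
  refine le_trans ?_ (mul_le_mul_of_nonneg_left (sum_le_l1 g f.coeff.support) hc)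
  rw [l1, Finset.mul_sum]
  exact Finset.sum_le_sum fun h _ => H h

lemma l1_av (f : V) : l1 (av f) = l1 f :=
  le_antisymm (by simpa using l1_le_of_coeff (f := av f) (g := f) zero_le_one fun h => by simp)
    (by simpa using l1_le_of_coeff (f := f) (g := av f) zero_le_one fun h => by simp)

lemma l1_add_le (f g : V) : l1 (f + g) ≤ l1 f + l1 g := by
  refine le_trans ?_ (add_le_add (sum_le_l1 f (f + g).coeff.support) (sum_le_l1 g (f + g).coeff.support))
  rw [l1, ← Finset.sum_add_distrib]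
  exact Finset.sum_le_sum fun h _ => by simpa using norm_add_le _ _

lemma l1_smul (c : ℂ) (f : V) : l1 (c • f) = ‖c‖ * l1 f := by
  rw [l1_eq (s := f.coeff.support) (by simpa using Finsupp.support_smul), l1, Finset.mul_sum]
  exact Finset.sum_congr rfl fun h _ => by simp

lemma l1_neg (f : V) : l1 (-f) = l1 f := by simpa using l1_smul (-1) f

lemma l1_sub_le (f g : V) : l1 (f - g) ≤ l1 f + l1 g := by
  simpa [sub_eq_add_neg, l1_neg] using l1_add_le f (-g)

@[simp] lemma l1_zero : l1 0 = 0 := by simp [l1]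

lemma l1_sum_le {ι : Type*} (s : Finset ι) (F : ι → V) : l1 (∑ i ∈ s, F i) ≤ ∑ i ∈ s, l1 (F i) := by
  classical
  induction s using Finset.induction_on with
  | empty => simp
  | insert a s ha ih =>
    rw [Finset.sum_insert ha, Finset.sum_insert ha]
    exact (l1_add_le _ _).trans (by linarith)

lemma l1_single (h : Z3) (c : ℂ) : l1 (AddMonoidAlgebra.single h c) = ‖c‖ := by
  rw [l1_eq (s := {h}) (by simpa using Finsupp.support_single_subset)]
  simp

lemma l1_dl : l1 dl = 1 := by simp [dl, l1_single]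

lemma norm_le_l1 (f : V) : ‖f‖ ≤ l1 f := by
  conv_lhs => rw [eq_mk (f := f) (subset_refl _), mk]
  exact (norm_sum_le _ _).trans (le_of_eq (Finset.sum_congr rfl fun h _ => norm_single _ _))

lemma l1_le_card {f : V} {s : Finset Z3} (hs : f.coeff.support ⊆ s) : l1 f ≤ √(s.card) * ‖f‖ := by
  refine (pow_le_pow_iff_left₀ (l1_nonneg _) (by positivity) two_ne_zero).mp ?_
  rw [l1_eq hs, mul_pow, Real.sq_sqrt (by positivity), norm_sq_eq hs]
  exact sq_sum_le_card_mul_sum_sq

lemma norm_inner_le_l1 {f g : V} {c : ℝ} (H : ∀ h, ‖f.coeff h‖ ≤ c) : ‖⟪f, g⟫_ℂ‖ ≤ c * l1 g := by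
  rw [inner_eq' f (subset_refl _), l1, Finset.mul_sum]
  refine (norm_sum_le _ _).trans (Finset.sum_le_sum fun h _ => ?_)
  rw [norm_mul, Complex.norm_conj]
  gcongr
  exact H h

/-- `(n+1)^(3/2)`. -/
def NN (n : ℕ) : ℝ := √((n + 1 : ℝ) ^ 3)

lemma NN_pos (n : ℕ) : 0 < NN n := Real.sqrt_pos.mpr (by positivity)

lemma NN_sq (n : ℕ) : NN n ^ 2 = (n + 1 : ℝ) ^ 3 := Real.sq_sqrt (by positivity)

lemma one_le_NN (n : ℕ) : 1 ≤ NN n :=
  Real.one_le_sqrt.mpr (one_le_pow₀ (by linarith [(Nat.cast_nonneg n : (0 : ℝ) ≤ n)]))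

lemma sqrt_card_box_le (n : ℕ) : √((box n).card) ≤ 3 * NN n := by
  refine Real.sqrt_le_iff.mpr ⟨by have := NN_pos n; positivity, ?_⟩
  rw [mul_pow, NN_sq, card_box]
  push_cast
  have : (0 : ℝ) ≤ n := Nat.cast_nonneg n
  calc (2 * (n : ℝ) + 1) ^ 3 ≤ (2 * (n + 1)) ^ 3 := by gcongr; linarith
    _ ≤ _ := by linarith [pow_nonneg (by linarith : (0 : ℝ) ≤ n + 1) 3]

lemma Supp.l1_le {n : ℕ} {f : V} (H : Supp n f) : l1 f ≤ 3 * NN n * ‖f‖ :=
  (l1_le_card H.subset).trans (by gcongr; exact sqrt_card_box_le n)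

lemma Supp.norm_le {n : ℕ} {f : V} (H : Supp n f) {c : ℝ} (hc : 0 ≤ c)
    (hf : ∀ h, ‖f.coeff h‖ ≤ c) : ‖f‖ ≤ 3 * NN n * c :=
  (norm_le_of_card H.subset hc hf).trans (by gcongr; exact sqrt_card_box_le n)

/-! Lattice automorphisms and the adjoint -/

/-- Transport along an involution of the lattice. -/
def prm (e : Z3 ≃+ Z3) : V ≃ₐ[ℂ] V := AddMonoidAlgebra.domCongr ℂ ℂ e.symm

@[simp] lemma coeff_prm (e : Z3 ≃+ Z3) (f : V) (h : Z3) : (prm e f).coeff h = f.coeff (e h) := by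
  simp [prm]

lemma support_prm (e : Z3 ≃+ Z3) (f : V) :
    (prm e f).coeff.support = f.coeff.support.map e.symm.toEquiv.toEmbedding := by
  ext h; simp

lemma inner_prm (e : Z3 ≃+ Z3) (f g : V) : ⟪prm e f, prm e g⟫_ℂ = ⟪f, g⟫_ℂ := by
  rw [inner_eq _ (subset_refl _), inner_eq _ (subset_refl _), support_prm, Finset.sum_map]
  simp

lemma norm_prm (e : Z3 ≃+ Z3) (f : V) : ‖prm e f‖ = ‖f‖ := by
  rw [@norm_eq_sqrt_re_inner ℂ, inner_prm, ← norm_eq_sqrt_re_inner]

lemma l1_prm (e : Z3 ≃+ Z3) (f : V) : l1 (prm e f) = l1 f := by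
  rw [l1, l1, support_prm, Finset.sum_map]
  simp

/-- Exchange of the first two coordinates. -/
def swE : Z3 ≃+ Z3 where
  toFun h := ![h 1, h 0, h 2]
  invFun h := ![h 1, h 0, h 2]
  left_inv h := by ext i; fin_cases i <;> rfl
  right_inv h := by ext i; fin_cases i <;> rfl
  map_add' a b := by ext i; fin_cases i <;> rfl

/-- Change of sign of the last two coordinates. -/
def rxE : Z3 ≃+ Z3 where
  toFun h := ![h 0, -h 1, -h 2]
  invFun h := ![h 0, -h 1, -h 2]
  left_inv h := by ext i; fin_cases i <;> simp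
  right_inv h := by ext i; fin_cases i <;> simp
  map_add' a b := by ext i; fin_cases i <;> simp [add_comm]

/-- Change of sign of the last coordinate. -/
def mzE : Z3 ≃+ Z3 where
  toFun h := ![h 0, h 1, -h 2]
  invFun h := ![h 0, h 1, -h 2]
  left_inv h := by ext i; fin_cases i <;> simp
  right_inv h := by ext i; fin_cases i <;> simp
  map_add' a b := by ext i; fin_cases i <;> simp [add_comm]

lemma swE_apply (h : Z3) : swE h = ![h 1, h 0, h 2] := rfl
lemma rxE_apply (h : Z3) : rxE h = ![h 0, -h 1, -h 2] := rfl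
lemma mzE_apply (h : Z3) : mzE h = ![h 0, h 1, -h 2] := rfl

lemma swE_mem_box {n : ℕ} {h : Z3} : swE h ∈ box n ↔ h ∈ box n := by
  simp [mem_box', swE_apply, Fin.forall_fin_succ]; tauto

lemma rxE_mem_box {n : ℕ} {h : Z3} : rxE h ∈ box n ↔ h ∈ box n := by
  simp [mem_box', rxE_apply, Fin.forall_fin_succ]

lemma mzE_mem_box {n : ℕ} {h : Z3} : mzE h ∈ box n ↔ h ∈ box n := by
  simp [mem_box', mzE_apply, Fin.forall_fin_succ]

/-- The envelope with the first two coordinates exchanged. -/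
def sw (f : V) : V := prm swE f

@[simp] lemma coeff_sw (f : V) (h : Z3) : (sw f).coeff h = f.coeff (swE h) := coeff_prm _ _ _

lemma norm_sw (f : V) : ‖sw f‖ = ‖f‖ := norm_prm _ _

lemma l1_sw (f : V) : l1 (sw f) = l1 f := l1_prm _ _

lemma Supp.sw {n : ℕ} {f : V} (hf : Supp n f) : Supp n (sw f) :=
  fun k hk => by rw [coeff_sw]; exact hf _ fun h => hk (swE_mem_box.mp h)

lemma sw_sub (f g : V) : sw (f - g) = sw f - sw g := map_sub (prm swE) f g

lemma sw_smul (c : ℂ) (f : V) : sw (c • f) = c • sw f := map_smul (prm swE) c f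

/-- The adjoint family `h ↦ conj (f (-h))`. -/
def dag : V →+* V :=
  (AddMonoidAlgebra.mapRingHom Z3 (starRingEnd ℂ)).comp (prm (AddEquiv.neg Z3)).toRingEquiv.toRingHom

@[simp] lemma coeff_dag (f : V) (h : Z3) : (dag f).coeff h = conj (f.coeff (-h)) := by
  simp [dag]

@[simp] lemma dag_dag (f : V) : dag (dag f) = f := by ext h; simp

lemma dag_smul (c : ℂ) (f : V) : dag (c • f) = conj c • dag f := by ext h; simp

lemma dag_single (k : Z3) (c : ℂ) :
    dag (AddMonoidAlgebra.single k c) = AddMonoidAlgebra.single (-k) (conj c) := by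
  ext h
  simp only [coeff_dag, AddMonoidAlgebra.coeff_single, Finsupp.single_apply]
  by_cases hh : k = -h
  · simp [hh]
  · rw [if_neg hh, if_neg fun e => hh (by rw [← e, neg_neg])]; simp

lemma Supp.dag {n : ℕ} {f : V} (hf : Supp n f) : Supp n (dag f) :=
  fun k hk => by rw [coeff_dag, hf _ fun h => hk (neg_mem_box.mp h)]; simp

lemma norm_dag (f : V) : ‖dag f‖ = ‖f‖ := by
  rw [← norm_av, ← norm_prm (AddEquiv.neg Z3), ← norm_av f]
  congr 1
  ext h; simp

lemma l1_dag (f : V) : l1 (dag f) = l1 f := by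
  rw [← l1_av, ← l1_prm (AddEquiv.neg Z3), ← l1_av f]
  congr 1
  ext h; simp

lemma av_dag (f : V) : av (dag f) = dag (av f) := by ext h; simp

lemma inner_eq_coeff (f g : V) : ⟪f, g⟫_ℂ = (dag f * g).coeff 0 := by
  rw [mul_comm, coeff_mul_eq _ (subset_refl _), inner_eq' f (subset_refl _)]
  exact Finset.sum_congr rfl fun h _ => by simp [mul_comm]

lemma inner_mul_left (p f g : V) : ⟪p * f, g⟫_ℂ = ⟪f, dag p * g⟫_ℂ := by
  rw [inner_eq_coeff, inner_eq_coeff, map_mul]; ring_nf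

lemma inner_mul_right (p f g : V) : ⟪f, p * g⟫_ℂ = ⟪dag p * f, g⟫_ℂ := by
  rw [inner_mul_left, dag_dag]

lemma inner_dag (f g : V) : ⟪dag f, dag g⟫_ℂ = ⟪g, f⟫_ℂ := by
  rw [inner_eq_coeff, inner_eq_coeff, dag_dag, mul_comm]

lemma norm_dag_mul (p f : V) : ‖dag p * f‖ = ‖p * f‖ := by
  rw [@norm_eq_sqrt_re_inner ℂ, @norm_eq_sqrt_re_inner ℂ, inner_mul_left, inner_mul_left, dag_dag]
  congr 3
  ring

lemma norm_single_mul (k : Z3) (f : V) : ‖AddMonoidAlgebra.single k 1 * f‖ = ‖f‖ := by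
  rw [@norm_eq_sqrt_re_inner ℂ, inner_mul_left, dag_single, ← mul_assoc,
    AddMonoidAlgebra.single_mul_single]
  simp only [neg_add_cancel, map_one, mul_one]
  rw [← AddMonoidAlgebra.one_def, one_mul, ← norm_eq_sqrt_re_inner]

lemma norm_mul_le_l1 (p f : V) : ‖p * f‖ ≤ l1 p * ‖f‖ := by
  rw [mul_eq_sum, l1, Finset.sum_mul]
  exact (norm_sum_le _ _).trans (le_of_eq (Finset.sum_congr rfl fun k _ => by
    rw [norm_smul, norm_single_mul]))

lemma norm_mul_le_l1' (p f : V) : ‖p * f‖ ≤ ‖p‖ * l1 f := by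
  rw [mul_comm, mul_comm ‖p‖]; exact norm_mul_le_l1 f p

lemma l1_single_mul (k : Z3) (f : V) : l1 (AddMonoidAlgebra.single k 1 * f) = l1 f := by
  rw [l1_eq (s := f.coeff.support.map (Equiv.addRight k).toEmbedding) fun h hh => by
    simpa [add_comm] using hh, Finset.sum_map, l1]
  simp

lemma l1_mul_le (p f : V) : l1 (p * f) ≤ l1 p * l1 f := by
  rw [mul_eq_sum, l1.eq_1 p, Finset.sum_mul]
  exact (l1_sum_le _ _).trans (le_of_eq (Finset.sum_congr rfl fun k _ => by
    rw [l1_smul, l1_single_mul]))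

lemma norm_coeff_mul_le (f g : V) (h : Z3) : ‖(f * g).coeff h‖ ≤ ‖f‖ * ‖g‖ := by
  have : (f * g).coeff h = ⟪dag f, AddMonoidAlgebra.single (-h) 1 * g⟫_ℂ := by
    rw [inner_eq_coeff, dag_dag, mul_left_comm, coeff_single_mul]; simp
  rw [this]
  exact (norm_inner_le_norm _ _).trans (by rw [norm_dag, norm_single_mul])

lemma norm_coeff_mul_le_l1 (f : V) {g : V} {c : ℝ} (H : ∀ h, ‖g.coeff h‖ ≤ c) (h : Z3) :
    ‖(f * g).coeff h‖ ≤ l1 f * c := by
  rw [coeff_mul_eq g (subset_refl _), l1, Finset.sum_mul]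
  refine (norm_sum_le _ _).trans (Finset.sum_le_sum fun k _ => ?_)
  rw [norm_mul]
  gcongr
  exact H _

lemma norm_coeff_mul_le_av (f g : V) (h : Z3) : ‖(f * g).coeff h‖ ≤ ‖(av f * av g).coeff h‖ := by
  rw [coeff_mul_eq g (subset_refl _), coeff_mul_eq (f := av f) (av g) (s := f.coeff.support)
    (fun k hk => by simpa using hk)]
  refine (norm_sum_le _ _).trans (le_of_eq ?_)
  simp only [coeff_av]
  norm_cast
  rw [Real.norm_of_nonneg (Finset.sum_nonneg fun _ _ => by positivity)]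
  simp

/-! Exponential weights -/

/-- The pairing of a frequency with a point. -/
def pr (h : Z3) (x : R3) : ℝ := ∑ i, (h i : ℝ) * x i

lemma pr_add (a b : Z3) (x : R3) : pr (a + b) x = pr a x + pr b x := by
  simp [pr, add_mul, Finset.sum_add_distrib]

lemma pr_neg (a : Z3) (x : R3) : pr (-a) x = -pr a x := by simp [pr]

lemma pr_neg' (a : Z3) (x : R3) : pr a (-x) = -pr a x := by simp [pr]

@[simp] lemma pr_zero (x : R3) : pr 0 x = 0 := by simp [pr]

@[simp] lemma pr_zero' (a : Z3) : pr a 0 = 0 := by simp [pr]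

lemma abs_pr_le {n : ℕ} {h : Z3} (hh : h ∈ box n) (x : R3) : |pr h x| ≤ n * ∑ i, |x i| := by
  rw [pr, Finset.mul_sum]
  refine (Finset.abs_sum_le_sum_abs _ _).trans (Finset.sum_le_sum fun i _ => ?_)
  rw [abs_mul]
  gcongr
  exact_mod_cast mem_box'.mp hh i

/-- The family multiplied by the weight `exp (h · ξ)`. -/
def wt (ξ : R3) : V →ₗ[ℂ] V := mulr fun h => Real.exp (pr h ξ)

lemma coeff_wt (ξ : R3) (f : V) (h : Z3) :
    (wt ξ f).coeff h = (Real.exp (pr h ξ) : ℂ) * f.coeff h := rfl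

lemma wt_mul (ξ : R3) (f g : V) : wt ξ (f * g) = wt ξ f * wt ξ g := by
  ext h
  rw [coeff_wt, coeff_mul_eq g (subset_refl _), coeff_mul_eq (f := wt ξ f) _ (s := f.coeff.support)
    (fun k hk => Finsupp.mem_support_iff.mpr (right_ne_zero_of_mul
      (Finsupp.mem_support_iff.mp hk))), Finset.mul_sum]
  refine Finset.sum_congr rfl fun k _ => ?_
  rw [coeff_wt, coeff_wt, show pr h ξ = pr k ξ + pr (h - k) ξ by rw [← pr_add]; simp, Real.exp_add]
  push_cast; ring

lemma wt_dag (ξ : R3) (f : V) : wt ξ (dag f) = dag (wt (-ξ) f) := by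
  ext h
  simp [coeff_wt, pr_neg, pr_neg', -Complex.ofReal_exp]

lemma wt_av (ξ : R3) (f : V) : wt ξ (av f) = av (wt ξ f) := by
  ext h
  simp [coeff_wt, -Complex.ofReal_exp]

lemma wt_proj (ξ : R3) (n : ℕ) (f : V) : wt ξ (proj n f) = proj n (wt ξ f) := by
  ext h; simp [coeff_wt, coeff_proj]

lemma wt_mulr (ξ : R3) (d : Z3 → ℝ) (f : V) : wt ξ (mulr d f) = mulr d (wt ξ f) := by
  ext h; simp [coeff_wt, mul_left_comm]

lemma wt_dl (ξ : R3) : wt ξ dl = dl := by
  ext h; by_cases hh : h = 0 <;> simp [coeff_wt, coeff_dl, hh]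

lemma supp_wt {n : ℕ} {f : V} (hf : Supp n f) (ξ : R3) : Supp n (wt ξ f) := hf.mulc _

lemma Supp.norm_wt_le {n : ℕ} {f : V} (hf : Supp n f) (ξ : R3) :
    ‖wt ξ f‖ ≤ Real.exp (n * ∑ i, |ξ i|) * ‖f‖ :=
  norm_mulc_le (Real.exp_pos _).le fun h hh => by
    rw [Complex.norm_real, Real.norm_of_nonneg (Real.exp_pos _).le]
    exact Real.exp_le_exp.mpr ((le_abs_self _).trans (abs_pr_le (hf.subset hh) ξ))

lemma Supp.l1_wt_le {n : ℕ} {f : V} (hf : Supp n f) (ξ : R3) :
    l1 (wt ξ f) ≤ Real.exp (n * ∑ i, |ξ i|) * l1 f :=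
  l1_le_of_coeff (Real.exp_pos _).le fun h => by
    by_cases hh : h ∈ box n
    · rw [coeff_wt, norm_mul, Complex.norm_real, Real.norm_of_nonneg (Real.exp_pos _).le]
      gcongr
      exact (le_abs_self _).trans (abs_pr_le hh ξ)
    · simp [coeff_wt, hf h hh]

/-! Evaluation of the trigonometric polynomial -/

/-- The character `exp (i h · x)`. -/
def chi (x : R3) : Multiplicative Z3 →* ℂ where
  toFun h := Complex.exp (I * (pr h.toAdd x : ℝ))
  map_one' := by simp
  map_mul' a b := by rw [toAdd_mul, pr_add, ← Complex.exp_add]; push_cast; ring_nf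

/-- The value at `x` of the trigonometric polynomial with coefficients `f`. -/
def ev (x : R3) : V →ₐ[ℂ] ℂ := AddMonoidAlgebra.lift ℂ ℂ Z3 (chi x)

lemma ev_eq (x : R3) {f : V} {s : Finset Z3} (hs : f.coeff.support ⊆ s) :
    ev x f = ∑ h ∈ s, f.coeff h * Complex.exp (I * (pr h x : ℝ)) := by
  rw [ev, AddMonoidAlgebra.lift_apply, Finsupp.sum_of_support_subset _ hs _ (by simp)]
  rfl

lemma ev_single (x : R3) (h : Z3) (c : ℂ) :
    ev x (AddMonoidAlgebra.single h c) = c * Complex.exp (I * (pr h x : ℝ)) := by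
  rw [ev, AddMonoidAlgebra.lift_single]; rfl

lemma ev_dl (x : R3) : ev x dl = 1 := map_one _

lemma ev_zero_eq {f : V} {s : Finset Z3} (hs : f.coeff.support ⊆ s) :
    ev 0 f = ∑ h ∈ s, f.coeff h := by simp [ev_eq 0 hs]

lemma norm_ev_le (x : R3) (f : V) : ‖ev x f‖ ≤ l1 f := by
  rw [ev_eq x (subset_refl _)]
  refine (norm_sum_le _ _).trans (le_of_eq (Finset.sum_congr rfl fun h _ => ?_))
  rw [norm_mul, Complex.norm_exp_I_mul_ofReal, mul_one]

lemma ev_dag (x : R3) (f : V) : ev x (dag f) = conj (ev x f) := by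
  induction f using AddMonoidAlgebra.induction_linear with
  | zero => simp
  | add f g hf hg => simp [hf, hg]
  | single h c =>
    rw [dag_single, ev_single, ev_single, map_mul, ← Complex.exp_conj, pr_neg]; simp

lemma ev_zero_prm (e : Z3 ≃+ Z3) (f : V) : ev 0 (prm e f) = ev 0 f := by
  rw [ev_zero_eq (subset_refl _), ev_zero_eq (subset_refl _), support_prm, Finset.sum_map]
  simp

lemma norm_ev_sub_le {m : ℕ} {f : V} (hf : Supp m f) (x : R3) :
    ‖ev x f - ev 0 f‖ ≤ l1 f * (m * ∑ i, |x i|) := by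
  rw [ev_eq x hf.subset, ev_zero_eq hf.subset, ← Finset.sum_sub_distrib, l1_eq hf.subset,
    Finset.sum_mul]
  refine (norm_sum_le _ _).trans (Finset.sum_le_sum fun h hh => ?_)
  rw [← mul_sub_one, norm_mul]
  gcongr
  exact (Real.norm_exp_I_mul_ofReal_sub_one_le).trans (abs_pr_le hh x)

lemma continuous_ev (f : V) : Continuous fun x : R3 => ev x f := by
  simp only [ev_eq _ (subset_refl f.coeff.support), pr]
  fun_prop

end

end Pool.Agent.Work.MP_6bf1e5_an.Dec
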