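import Pool.Agent.Work.MP_6bf1e5_an.Dec.NormB

/-!
Upper bounds for the chain and for the level after the next.
-/

open Set Complex
open scoped InnerProductSpace ComplexConjugate
open Pool.Agent.Work.MP_6bf1e5_an.B (Z3 R3 box)

namespace Pool.Agent.Work.MP_6bf1e5_an.Dec

noncomputable section

variable {Γ : Geo} {ν a0 : ℝ} {R : Raw} {j : ℕ}

namespace UpA

lemma E_zero (N : IsNet Γ ν a0 R) (i : ℕ) : R.E (i + 2) 0 ≤ 0 := by
  induction i with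
  | zero => exact N.E2.le
  | succ i ih => exact (N.Emono (i + 2) 0 le_rfl).trans ih

lemma two_le_fib {n : ℕ} (hn : 3 ≤ n) : 2 ≤ Nat.fib n :=
  (show 2 ≤ Nat.fib 3 by decide).trans (Nat.fib_mono hn)

/-- numerical core of the barrier for the level after the next -/
lemma core {a Z w J' k L NN f sE nd F : ℝ} (ha : 0 < a) (hZ : 0 < Z) (hw : 0 ≤ w) (hL : 0 < L)
    (hN : 1 ≤ NN) (hF : 1 ≤ F) (hk0 : 0 ≤ k) (hk : 20 * k ≤ J' + a / 8)
    (hf : f ≤ 4 * (w + a) * Z / 10 ^ 8) (hs : L * Z * NN ≤ a / 10 ^ 4)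
    (hE : sE ≤ 2 * L * Z ^ 2 / a) (hnd : nd ≤ 4 * (2 * L * Z ^ 2 / a) ^ 2) :
    2 * Z * ((13 * k - a / 2) * Z + 2 * f + 3 * (L * (sE * Z + NN * nd))) <
      2 * Z * (Z * (F * w + J')) := by
  obtain ⟨x, hx⟩ : ∃ x, x = L * Z / a := ⟨_, rfl⟩
  have x0 : 0 < x := by rw [hx]; positivity
  have e1 : L * Z = x * a := by rw [hx]; field_simp
  have e2 : 2 * L * Z ^ 2 / a = 2 * x * Z := by rw [hx]; field_simp
  rw [e2] at hE hnd
  have h1 : x * NN ≤ 1 / 10 ^ 4 := by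
    rw [e1] at hs
    have : a * (x * NN) ≤ a * (1 / 10 ^ 4) := by linarith only [hs]
    exact le_of_mul_le_mul_left this ha
  have h2 : x ≤ 1 / 10 ^ 4 := by nlinarith only [hN, h1]
  have h3 : L * (sE * Z) ≤ a * Z / 100 := by
    calc L * (sE * Z) = (L * Z) * sE := by ring
      _ ≤ (L * Z) * (2 * x * Z) := by gcongr
      _ = a * Z * (2 * x * x) := by rw [e1]; ring
      _ ≤ a * Z * (1 / 100) := by gcongr; nlinarith only [x0, h2]
      _ = _ := by ring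
  have h4 : L * (NN * nd) ≤ a * Z / 100 := by
    calc L * (NN * nd) ≤ L * (NN * (4 * (2 * x * Z) ^ 2)) := by gcongr
      _ = (L * Z) * (16 * x * (x * NN) * Z) := by ring
      _ = a * Z * (16 * x * x * (x * NN)) := by rw [e1]; ring
      _ ≤ a * Z * (1 / 100) := by
          gcongr
          have : x * x ≤ 1 := by nlinarith only [x0, h2]
          nlinarith only [h1, this, mul_pos x0 x0]
      _ = _ := by ring
  refine mul_lt_mul_of_pos_left ?_ (by positivity)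
  have h5 : 13 * k * Z ≤ (J' + a / 8) * Z := by gcongr; linarith only [hk0, hk]
  have h6 : w * Z ≤ F * w * Z := by gcongr; nlinarith only [hw, hF]
  have h7 : 0 < a * Z := by positivity
  have h8 : 0 ≤ w * Z := by positivity
  linarith only [hf, h3, h4, h5, h6, h7, h8]

end UpA

/-- The energy beyond a small level is quadratically small. -/
theorem Ebound (hν : 0 < ν) (N : IsNet Γ ν a0 R) (i : ℕ) {X u : ℝ} (hX : 0 < X)
    (h : ∀ t ∈ Icc 0 u, R.nr (i + 1) t ≤ X)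
    (hs : 16 * 10 ^ 4 * Γ.lam (i + 1) * NN (Γ.M (i + 1)) * X ≤ ν * Γ.lam (i + 1) ^ 2) :
    ∀ t ∈ Icc 0 u,
      R.E (i + 2) t ≤ (2 * 10 ^ 4 * Γ.lam (i + 1) * X ^ 2 / (ν * Γ.lam (i + 1) ^ 2)) ^ 2 := by
  have hl := Γ.lam_pos' (i + 1)
  have hN := NN_pos (Γ.M (i + 1))
  obtain ⟨a, ha⟩ : ∃ a, a = ν * Γ.lam (i + 1) ^ 2 := ⟨_, rfl⟩
  have a0' : 0 < a := by rw [ha]; positivity
  rw [← ha] at hs ⊢
  obtain ⟨Y, hY⟩ : ∃ Y, Y = 2 * 10 ^ 4 * Γ.lam (i + 1) * X ^ 2 / a := ⟨_, rfl⟩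
  have Y0 : 0 < Y := by rw [hY]; positivity
  have e1 : 10 ^ 4 * Γ.lam (i + 1) * X ^ 2 = a * Y / 2 := by rw [hY]; field_simp
  rw [← hY]
  refine barrier (G := fun _ => Y ^ 2) le_rfl ((UpA.E_zero N i).trans (sq_nonneg _)) fun t ht => ?_
  obtain ⟨D, h1, h2⟩ := N.eqE (i + 1) t ht.1
  refine ⟨D, 0, h1, hasDerivWithinAt_const _ _ _, fun e => h2.trans_lt ?_⟩
  have h3 := N.nrE (i + 2) t ht.1
  have h4 := h t ht
  have h5 : 0 ≤ R.nr (i + 1) t := nr3_nonneg _ _ _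
  have h6 : ‖R.B (i + 1) t‖ ≤ X := (le_nr3_1 _ _ _).trans h4
  rw [e] at h3
  rw [e, Real.sqrt_sq Y0.le, ← ha]
  have h7 : 10 ^ 4 * Γ.lam (i + 1) * (R.nr (i + 1) t ^ 2 * Y) ≤ a * Y ^ 2 / 2 := by
    calc _ ≤ 10 ^ 4 * Γ.lam (i + 1) * (X ^ 2 * Y) := by gcongr
      _ = 10 ^ 4 * Γ.lam (i + 1) * X ^ 2 * Y := by ring
      _ = _ := by rw [e1]; ring
  have h8 : 10 ^ 4 * Γ.lam (i + 1) * (NN (Γ.M (i + 1)) * ‖R.B (i + 1) t‖ * R.nr (i + 1 + 1) t ^ 2)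
      ≤ a * Y ^ 2 / 4 := by
    calc _ ≤ 10 ^ 4 * Γ.lam (i + 1) * (NN (Γ.M (i + 1)) * X * (4 * Y ^ 2)) := by gcongr
      _ = 16 * 10 ^ 4 * Γ.lam (i + 1) * NN (Γ.M (i + 1)) * X * Y ^ 2 / 4 := by ring
      _ ≤ _ := by gcongr
  have h9 : 0 < a * Y ^ 2 := by positivity
  rw [mul_add]
  linarith only [h7, h8, h9]

theorem upperPack (hν : 0 < ν) (N : IsNet Γ ν a0 R) {q u1 u2 : ℝ} {W J : ℝ → ℝ} (h0 : 0 ≤ u1)
    (hq : 0 < q)
    (hW : ∀ t ∈ Icc u1 u2, 0 < W t ∧ W t ≤ 1 ∧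
      (10 ^ 4 * Γ.lam (j + 2)) ^ 2 * (2 * R.nr (j + 1) t ^ 2) ≤ q ^ 2 * W t / 10 ^ 6 ∧
      10 * Real.exp (J t) * W t ^ Nat.fib (Γ.n (j + 1) - 2) ≤ 1 ∧
      10 ^ 3 * NN (Γ.M (j + 2)) * q * W t ^ 2 ≤ ν * Γ.lam (j + 2) ^ 2 ∧
      ∃ W', HD W W' t ∧ 0 ≤ W' ∧ q * W t ≤ W' + ν * Γ.lam (j + 1) ^ 2 * W t)
    (hJ : ∀ t ∈ Icc u1 u2, 0 ≤ J t ∧ ∃ J', HD J J' t ∧ 0 ≤ J' ∧
      20 * R.kap (j + 1) * NN (Γ.M (j + 1)) * R.nr (j + 1) t ≤ J' + ν * Γ.lam (j + 2) ^ 2 / 8)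
    (iy : ∀ m, 1 ≤ m → m < Γ.n (j + 1) →
      |R.y (j + 1) m u1| ≤ q / (10 ^ 4 * Γ.lam (j + 2)) * W u1 ^ Nat.fib m / 10 ^ 4)
    (ic : ∀ s ∈ Icc 0 u1, R.nr (j + 2) s ≤
      q / (10 ^ 4 * Γ.lam (j + 2)) * W u1 ^ Nat.fib (Γ.n (j + 1)) * Real.exp (J u1)) :
    ∀ t ∈ Icc u1 u2, (∀ m, 1 ≤ m → m < Γ.n (j + 1) →
      |R.y (j + 1) m t| ≤ 2 * (q / (10 ^ 4 * Γ.lam (j + 2)) * W t ^ Nat.fib m / 10 ^ 4)) ∧
      ∀ s ∈ Icc 0 t, R.nr (j + 2) s ≤
        q / (10 ^ 4 * Γ.lam (j + 2)) * W t ^ Nat.fib (Γ.n (j + 1)) * Real.exp (J t) := by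
  have hlb := Γ.lam_pos' (j + 1)
  have hlc := Γ.lam_pos' (j + 2)
  have hn := Γ.n8 (j + 1)
  have hadd := Γ.fib_add (j + 1)
  have hf1 : 2 ≤ Nat.fib (Γ.n (j + 1) - 1) := UpA.two_le_fib (by omega)
  obtain ⟨lb, hlbe⟩ : ∃ lb, lb = 10 ^ 4 * Γ.lam (j + 2) := ⟨_, rfl⟩
  have lb0 : 0 < lb := by rw [hlbe]; positivity
  rw [← hlbe] at iy ic ⊢
  simp only [← hlbe] at hW
  set Z : ℝ → ℝ := fun t => q / lb * W t ^ Nat.fib (Γ.n (j + 1)) * Real.exp (J t) with hZdef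
  have Zpos : ∀ t ∈ Icc u1 u2, 0 < Z t := fun t ht => by
    have := (hW t ht).1
    simp only [hZdef]; positivity
  have Zd : ∀ t ∈ Icc u1 u2, ∀ W' J', HD W W' t → HD J J' t →
      HD Z (Z t * (Nat.fib (Γ.n (j + 1)) * (W' / W t) + J')) t := by
    intro t ht W' J' h1 h2
    have w0 := (hW t ht).1
    convert ((h1.fun_pow (Nat.fib (Γ.n (j + 1)))).const_mul (q / lb)).fun_mul h2.exp using 1
    obtain ⟨g, hg⟩ : ∃ g, Nat.fib (Γ.n (j + 1)) = g + 1 := ⟨Nat.fib (Γ.n (j + 1)) - 1, by omega⟩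
    simp only [hZdef, hg, Nat.add_sub_cancel]
    field_simp
    ring
  have Zd' : ∀ t ∈ Icc u1 u2, ∃ Z', HD Z Z' t ∧ 0 ≤ Z' := fun t ht => by
    obtain ⟨w0, -, -, -, -, W', w1, w2, -⟩ := hW t ht
    obtain ⟨-, J', j1, j2, -⟩ := hJ t ht
    have := Zpos t ht
    exact ⟨_, Zd t ht W' J' w1 j1, by positivity⟩
  have Zle : ∀ t ∈ Icc u1 u2, 10 * lb * Z t / q ≤ W t ^ Nat.fib (Γ.n (j + 1) - 1) := by
    intro t ht
    obtain ⟨w0, -, -, w3, -⟩ := hW t ht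
    calc 10 * lb * Z t / q = W t ^ Nat.fib (Γ.n (j + 1) - 1) *
          (10 * Real.exp (J t) * W t ^ Nat.fib (Γ.n (j + 1) - 2)) := by
          simp only [hZdef]; rw [hadd, pow_add]; field_simp
      _ ≤ W t ^ Nat.fib (Γ.n (j + 1) - 1) * 1 := by gcongr
      _ = _ := mul_one _
  have Zle2 : ∀ t ∈ Icc u1 u2, lb * Z t ≤ q * W t ^ 2 / 10 := by
    intro t ht
    obtain ⟨w0, w1, -⟩ := hW t ht
    have := (Zle t ht).trans (pow_le_pow_of_le_one w0.le w1 hf1)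
    rw [div_le_iff₀ hq] at this
    linarith only [this]
  have chain : ∀ t ∈ Icc u1 u2, (∀ s ∈ Icc u1 t, R.nr (j + 2) s ≤ Z s) →
      ∀ m, 1 ≤ m → m < Γ.n (j + 1) →
        |R.y (j + 1) m t| ≤ 2 * (q / lb * W t ^ Nat.fib m / 10 ^ 4) := by
    intro t ht hist m m1 m2
    have sub : ∀ s ∈ Icc u1 t, s ∈ Icc u1 u2 := fun s hs => ⟨hs.1, hs.2.trans ht.2⟩
    have := chain_upper (y := R.y (j + 1)) (c := R.c (j + 1)) (d := R.d (j + 1)) (lb := lb)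
      (q := q) (dlo := ν * Γ.lam (j + 1) ^ 2) (t1 := u1) (t2 := t) (W := W) (Z := Z)
      (Sb := fun s => 2 * R.nr (j + 1) s ^ 2) hn h0 lb0 hq (by positivity)
      (fun m h1 h2 => ⟨le_trans (by have := Γ.lam_pos' j; positivity) (N.c_lo j m h1 h2.le),
        hlbe ▸ N.c_hi j m h1 h2.le⟩) (N.d_lo j) (N.y0 j) (N.yend j)
      (fun m s hs h1 h2 => hlbe ▸ N.chain_eq j m (h0.trans hs.1) h1 h2)
      (fun s hs => by
        obtain ⟨w0, w1, w2, -, -, w3⟩ := hW s (sub s hs)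
        exact ⟨w0, w1, w2, w3⟩)
      (fun s hs => by
        obtain ⟨w0, w1, -⟩ := hW s (sub s hs)
        refine ⟨?_, (Zle2 s (sub s hs)).trans ?_, Zd' s (sub s hs)⟩
        · rw [N.ytop]; exact (abs_of_nonneg (nr3_nonneg _ _ _)).trans_le (hist s hs)
        · have : W s ^ 2 ≤ 1 := pow_le_one₀ w0.le w1
          have : q * W s ^ 2 ≤ q * 1 := by gcongr
          linarith only [this])
      (fun m h1 h2 => (iy m h1 h2).trans (by
        have hu : u1 ∈ Icc u1 u2 := ⟨le_rfl, ht.1.trans ht.2⟩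
        have := Zpos u1 hu
        have := (hW u1 hu).1
        rw [UU, le_add_iff_nonneg_right]
        split_ifs
        · positivity
        · exact le_rfl)) t ⟨ht.1, le_rfl⟩ m m1 m2
    refine this.trans ?_
    obtain ⟨w0, w1, -⟩ := hW t ht
    rw [UU, two_mul]
    refine add_le_add_right ?_ _
    split_ifs with hm
    · have e : Γ.n (j + 1) - 1 = m := by omega
      have h1 := Zle t ht
      rw [e] at h1
      have h2 : W t ^ Nat.fib (Γ.n (j + 1) - 2) ≤ 1 := pow_le_one₀ w0.le w1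
      calc _ ≤ W t ^ Nat.fib m * (q / lb * 1 / 10 ^ 4) := by gcongr
        _ = _ := by ring
    · positivity
  have past : ∀ t ∈ Icc u1 u2, (∀ s ∈ Icc u1 t, R.nr (j + 2) s ≤ Z s) →
      ∀ s ∈ Icc 0 t, R.nr (j + 2) s ≤ Z t := by
    intro t ht hist s hs
    rcases le_total s u1 with h | h
    · exact (ic s ⟨hs.1, h⟩).trans (mono_of_deriv h0 Zd' le_rfl ht.1 ht.2)
    · exact (hist s ⟨h, hs.2⟩).trans (mono_of_deriv h0 Zd' h hs.2 ht.2)
  have conv : ∀ t ∈ Icc u1 u2, R.nr (j + 2) t ^ 2 - Z t ^ 2 ≤ 0 → R.nr (j + 2) t ≤ Z t :=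
    fun t ht h => (pow_le_pow_iff_left₀ (nr3_nonneg _ _ _) (Zpos t ht).le two_ne_zero).1
      (sub_nonpos.1 h)
  have key := family_barrier (ι := Unit) (H := fun _ t => R.nr (j + 2) t ^ 2 - Z t ^ 2)
    (a := u1) (b := u2) (fun _ => contOn_of_HD h0 fun t ht => by
      obtain ⟨D, h1, -⟩ := N.nr_deriv hν (j + 1) (h0.trans ht.1)
      obtain ⟨Z', h2, -⟩ := Zd' t ht
      exact ⟨_, h1.fun_sub (h2.fun_pow 2)⟩)
    (fun _ => sub_nonpos.2 (pow_le_pow_left₀ (nr3_nonneg _ _ _) (ic u1 ⟨h0, le_rfl⟩) 2))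
    (fun t ht' hist' _ e => by
      have ht := Ico_subset_Icc_self ht'
      have t0 := h0.trans ht.1
      have hist : ∀ s ∈ Icc u1 t, R.nr (j + 2) s ≤ Z s := fun s hs =>
        conv s ⟨hs.1, hs.2.trans ht.2⟩ (hist' s hs ())
      have z0 := Zpos t ht
      have e' : R.nr (j + 2) t = Z t :=
        (pow_left_inj₀ (nr3_nonneg _ _ _) z0.le two_ne_zero).1 (sub_eq_zero.1 e)
      obtain ⟨D, h1, h2⟩ := N.nr_deriv hν (j + 1) t0
      obtain ⟨w0, w1, -, -, w2, W', w3, w4, w5⟩ := hW t ht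
      obtain ⟨j0, J', j1, j2, j3⟩ := hJ t ht
      refine ⟨_, ?_, HD.right (h1.fun_sub ((Zd t ht W' J' w3 j1).fun_pow 2)) t0⟩
      have hN1 := one_le_NN (Γ.M (j + 2))
      have hs : lb * Z t * NN (Γ.M (j + 2)) ≤ ν * Γ.lam (j + 2) ^ 2 / 10 ^ 4 := by
        calc _ ≤ q * W t ^ 2 / 10 * NN (Γ.M (j + 2)) := by gcongr; exact Zle2 t ht
          _ = 10 ^ 3 * NN (Γ.M (j + 2)) * q * W t ^ 2 / 10 ^ 4 := by ring
          _ ≤ _ := by gcongr
      have hE := Ebound hν N (j + 1) z0 (past t ht hist) (by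
        have : 0 < ν * Γ.lam (j + 2) ^ 2 := by positivity
        rw [hlbe] at hs
        show 16 * 10 ^ 4 * Γ.lam (j + 2) * NN (Γ.M (j + 2)) * Z t ≤ ν * Γ.lam (j + 2) ^ 2
        linarith only [hs, this]) t ⟨t0, le_rfl⟩
      have hE' : R.E (j + 1 + 2) t ≤ (2 * lb * Z t ^ 2 / (ν * Γ.lam (j + 2) ^ 2)) ^ 2 := by
        rw [hlbe, ← mul_assoc]; exact hE
      have hll : Γ.lam (j + 1) ≤ Γ.lam (j + 2) := by
        have : 1 ≤ Γ.T (j + 1) ^ 8 := one_le_pow₀ (le_trans (by norm_num) (Γ.Tbig _))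
        rw [Γ.lam_succ' (j + 1)]
        nlinarith only [hlb, this]
      have hq' : q ≤ W' / W t + ν * Γ.lam (j + 2) ^ 2 := by
        have : q ≤ W' / W t + ν * Γ.lam (j + 1) ^ 2 := by
          rw [div_add' _ _ _ w0.ne', le_div_iff₀ w0]; exact w5
        refine this.trans ?_
        gcongr
      have hf : |R.f (j + 2) t| ≤ 4 * (W' / W t + ν * Γ.lam (j + 2) ^ 2) * Z t / 10 ^ 8 := by
        have a1 := chain t ht hist (Γ.n (j + 1) - 1) (by omega) (by omega)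
        have a2 := chain t ht hist (Γ.n (j + 1) - 2) (by omega) (by omega)
        have a3 := N.c_hi j _ (by omega) le_rfl
        have a4 : 0 ≤ R.c (j + 1) (Γ.n (j + 1)) :=
          le_trans (by have := Γ.lam_pos' j; positivity) (N.c_lo j _ (by omega) le_rfl)
        have a5 : 1 ≤ Real.exp (J t) := Real.one_le_exp j0
        rw [← hlbe] at a3
        rw [N.fS, abs_mul, abs_mul, abs_of_nonneg a4]
        calc _ ≤ lb * (2 * (q / lb * W t ^ Nat.fib (Γ.n (j + 1) - 1) / 10 ^ 4) *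
              (2 * (q / lb * W t ^ Nat.fib (Γ.n (j + 1) - 2) / 10 ^ 4))) := by (clear * - hq lb0 w0 a1 a2 a3; gcongr)
          _ = 4 * q * (q / lb * W t ^ Nat.fib (Γ.n (j + 1)) * 1) / 10 ^ 8 := by
              rw [hadd, pow_add]; field_simp; ring
          _ ≤ _ := by simp only [hZdef]; (clear * - hν hq hlc lb0 w0 w4 hq' a5; gcongr)
      have := UpA.core (a := ν * Γ.lam (j + 2) ^ 2) (Z := Z t) (w := W' / W t) (J' := J')
        (k := R.kap (j + 1) * NN (Γ.M (j + 1)) * R.nr (j + 1) t) (L := lb)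
        (NN := NN (Γ.M (j + 2))) (f := |R.f (j + 2) t|) (sE := √(R.E (j + 1 + 2) t))
        (nd := R.nr (j + 1 + 2) t ^ 2) (F := Nat.fib (Γ.n (j + 1))) (by positivity) z0
        (by positivity) lb0 hN1 (by exact_mod_cast (by omega : 1 ≤ Nat.fib (Γ.n (j + 1))))
        (by
          have := N.kap_pos (j + 1)
          have := NN_pos (Γ.M (j + 1))
          have : 0 ≤ R.nr (j + 1) t := nr3_nonneg _ _ _
          positivity) (by linarith only [j3]) hf hs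
        (Real.sqrt_le_iff.2 ⟨by positivity, hE'⟩)
        ((N.nrE _ t t0).trans (by linarith only [hE']))
      rw [show j + 1 + 1 = j + 2 from rfl, e', ← hlbe] at h2
      rw [sub_neg]
      refine h2.trans_lt ?_
      refine lt_of_eq_of_lt (by ring) (this.trans_eq ?_)
      push_cast
      ring)
  intro t ht
  have hist : ∀ s ∈ Icc u1 t, R.nr (j + 2) s ≤ Z s := fun s hs =>
    conv s ⟨hs.1, hs.2.trans ht.2⟩ (key s ⟨hs.1, hs.2.trans ht.2⟩ ())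
  exact ⟨chain t ht hist, past t ht hist⟩

end

end Pool.Agent.Work.MP_6bf1e5_an.Dec
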