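import Pool.Agent.Work.MP_6bf1e5_an.Dec.Norm
import Pool.Agent.Work.MP_6bf1e5_an.Dec.UpperA

/-!
Upper bounds for the chain and for the level after the next.
-/

open Set Complex
open scoped InnerProductSpace ComplexConjugate
open Pool.Agent.Work.MP_6bf1e5_an.B (Z3 R3 box)

namespace Pool.Agent.Work.MP_6bf1e5_an.Dec

noncomputable section

variable {Γ : Geo} {ν a0 : ℝ} {R : Raw} {j : ℕ} {t0 a tb t1 : ℝ}

namespace UpperAux

lemma num_pre {T m k u Na : ℝ} (hT : (10 : ℝ) ^ 100 ≤ T) (hm : T ^ 33 ≤ m) (hk0 : 0 ≤ k)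
    (hk : k ^ 2 ≤ m) (hu0 : 0 ≤ u) (hNa : 0 < Na) (hN : Na ^ 2 = m ^ 3)
    (hu : u * (Na * m) ≤ 4 * 10 ^ 4 * T ^ 16 * k) :
    2 * 10 ^ 6 * u ^ 2 * m ^ 3 ≤ 1 ∧ 8 * 10 ^ 6 * u * k ≤ 1 := by
  have T1 : 1 ≤ T := le_trans (by norm_num) hT
  have m1 : 1 ≤ m := (one_le_pow₀ T1).trans hm
  have m0 : 0 < m := by linarith
  have h1 : u ^ 2 * m ^ 4 * m ≤ 16 * 10 ^ 8 * T ^ 32 * m := by
    calc u ^ 2 * m ^ 4 * m = (u * (Na * m)) ^ 2 := by rw [mul_pow, mul_pow, hN]; ring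
      _ ≤ (4 * 10 ^ 4 * T ^ 16 * k) ^ 2 := by gcongr
      _ = 16 * 10 ^ 8 * T ^ 32 * k ^ 2 := by ring
      _ ≤ _ := by gcongr
  have h2 : u ^ 2 * m ^ 4 ≤ 16 * 10 ^ 8 * T ^ 32 := le_of_mul_le_mul_right h1 m0
  have h3 : 10 ^ 30 * T ^ 32 ≤ m := by
    calc 10 ^ 30 * T ^ 32 ≤ T * T ^ 32 := by gcongr; exact le_trans (by norm_num) hT
      _ = T ^ 33 := by ring
      _ ≤ m := hm
  have h4 : 10 ^ 30 * (u ^ 2 * m ^ 3) * m ≤ 16 * 10 ^ 8 * m := by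
    calc 10 ^ 30 * (u ^ 2 * m ^ 3) * m = 10 ^ 30 * (u ^ 2 * m ^ 4) := by ring
      _ ≤ 10 ^ 30 * (16 * 10 ^ 8 * T ^ 32) := by gcongr
      _ = 16 * 10 ^ 8 * (10 ^ 30 * T ^ 32) := by ring
      _ ≤ _ := by gcongr
  have h5 : 10 ^ 30 * (u ^ 2 * m ^ 3) ≤ 16 * 10 ^ 8 := le_of_mul_le_mul_right h4 m0
  refine ⟨by linarith only [h5], ?_⟩
  have h6 : u ^ 2 * k ^ 2 ≤ u ^ 2 * m ^ 3 := by
    gcongr
    exact hk.trans (le_self_pow₀ m1 (by norm_num))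
  refine (pow_le_one_iff_of_nonneg (by positivity) two_ne_zero).mp ?_
  calc (8 * 10 ^ 6 * u * k) ^ 2 = 64 * 10 ^ 12 * (u ^ 2 * k ^ 2) := by ring
    _ ≤ 1 := by linarith

lemma one_le_T (Γ : Geo) (j : ℕ) : 1 ≤ Γ.T j := le_trans (by norm_num) (Γ.Tbig j)

lemma NN_le_sq (n : ℕ) : NN n ≤ ((n : ℝ) + 1) ^ 2 := by
  have h : (1 : ℝ) ≤ n + 1 := by linarith [(Nat.cast_nonneg n : (0 : ℝ) ≤ n)]
  refine (pow_le_pow_iff_left₀ (NN_pos n).le (by positivity) two_ne_zero).mp ?_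
  rw [NN_sq, ← pow_mul]
  exact pow_le_pow_right₀ h (by norm_num)

lemma fib_two {n : ℕ} (h : 3 ≤ n) : 2 ≤ Nat.fib n :=
  le_trans (by norm_num) (Nat.fib_mono h)

lemma E_zero (N : IsNet Γ ν a0 R) (i : ℕ) : R.E (i + 2) 0 ≤ 0 := by
  induction i with
  | zero => exact N.E2.le
  | succ i ih => exact (N.Emono (i + 2) 0 le_rfl).trans ih

lemma k_facts (hν : 0 < ν) (S : St Γ ν R j t0 a tb) :
    ∃ k, R.rr Γ j a = k * (ν * Γ.lam (j + 1) ^ 2) ∧ Γ.T j ^ 100 ≤ k ∧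
      k * Γ.T j ^ 200 ≤ Γ.M j + 1 ∧ k ^ 2 ≤ Γ.M j + 1 := by
  have hl := Γ.lam_pos' (j + 1)
  have q0 : 0 < ν * Γ.lam (j + 1) ^ 2 := by positivity
  have T1 := one_le_T Γ j
  obtain ⟨k, hk⟩ : ∃ k, R.rr Γ j a = k * (ν * Γ.lam (j + 1) ^ 2) :=
    ⟨R.rr Γ j a / (ν * Γ.lam (j + 1) ^ 2), by field_simp⟩
  have h1 : Γ.T j ^ 100 ≤ k := le_of_mul_le_mul_right (hk ▸ S.K1) q0
  have h3 : k ^ 3 ≤ Γ.M j + 1 := by
    have := S.K2
    rw [hk, mul_pow] at this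
    exact le_of_mul_le_mul_right this (by positivity)
  have k1 : 1 ≤ k := (one_le_pow₀ T1).trans h1
  refine ⟨k, hk, h1, le_trans ?_ h3, (pow_le_pow_right₀ k1 (by norm_num)).trans h3⟩
  calc k * Γ.T j ^ 200 = k * (Γ.T j ^ 100) ^ 2 := by ring
    _ ≤ k * k ^ 2 := by gcongr
    _ = k ^ 3 := by ring

lemma lamN (N : IsNet Γ ν a0 R) (j : ℕ) (ha : 0 ≤ a) :
    Γ.lam j * NN (Γ.M j) * a ≤ 4 * R.rr Γ j a := by
  have := N.kap_lo j
  have := NN_pos (Γ.M j)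
  calc Γ.lam j * NN (Γ.M j) * a ≤ (4 * R.kap j) * NN (Γ.M j) * a := by gcongr; linarith
    _ = _ := by unfold Raw.rr; ring

lemma rr_succ (N : IsNet Γ ν a0 R) (j : ℕ) (ha : 0 ≤ a) :
    R.rr Γ (j + 1) a ≤ 2 * Γ.T j ^ 20 * R.rr Γ j a := by
  have := (N.rr_ratio j).2
  calc R.rr Γ (j + 1) a = R.rr Γ (j + 1) 1 * a := by unfold Raw.rr; ring
    _ ≤ 2 * Γ.T j ^ 20 * R.rr Γ j 1 * a := by gcongr
    _ = _ := by unfold Raw.rr; ring

end UpperAux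

open UpperAux

/-- Before the stage. -/
theorem pre (hν : 0 < ν) (N : IsNet Γ ν a0 R) (S : St Γ ν R j t0 a tb) :
    (∀ m, 1 ≤ m → m < Γ.n (j + 1) → |R.y (j + 1) m t0| ≤ R.rr Γ j a / 2 /
      (10 ^ 4 * Γ.lam (j + 2)) * R.WW Γ ν j a t0 t0 ^ Nat.fib m / 10 ^ 4) ∧
    (∀ s ∈ Icc 0 t0, R.nr (j + 2) s ≤ R.ZZ Γ ν j a t0 t0) ∧
    (∀ s ∈ Icc 0 t0, R.nr (j + 2) s ≤ R.alf Γ j t0 / 2 / (Γ.M (j + 1) + 1)) ∧
    R.E (j + 2) t0 ≤ (R.alf Γ j t0 / 2 / Γ.T (j + 1) ^ 6) ^ 2 := by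
  obtain ⟨k, hk, k1, k2, k3⟩ := k_facts hν S
  have ha := S.a_pos
  have hr := S.rr_pos N
  have hα := (S.alf_lo N).1
  have hρ := (S.rho_t0 N).1
  have hA := lamN N j ha.le
  have hB := lamN N (j + 1) ha.le
  have hC := rr_succ N j ha.le
  have la := Γ.lam_pos' j
  have lb := Γ.lam_pos' (j + 1)
  have lc := Γ.lam_pos' (j + 2)
  have e1 := Γ.lam_succ' j
  have e2 := Γ.lam_succ' (j + 1)
  have Ta1 := one_le_T Γ j
  have T1 := one_le_T Γ (j + 1)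
  have hTa := Γ.Tbig j
  have hT := Γ.Tbig (j + 1)
  have Tm := Γ.Tmono j
  have Td := Γ.Tdbl j
  have Na := NN_pos (Γ.M j)
  have Nb := one_le_NN (Γ.M (j + 1))
  have Nc := NN_pos (Γ.M (j + 2))
  have n8 := Γ.n8 (j + 1)
  have m33 := Γ.pow_le_M j (k := 33) (by norm_num)
  have mL := Γ.Lhi j
  have hNb := Γ.NN_hi j
  have hNc := Γ.NN_hi (j + 1)
  have hNa := NN_le_sq (Γ.M j)
  have hNa2 := NN_sq (Γ.M j)
  have past := S.past
  have hE := Ebound hν N j (X := a / (Γ.M j + 1)) (u := t0) (by positivity) past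
  have hU := upperPack (j := j) hν N (q := ν * Γ.lam (j + 1) ^ 2) (u1 := 0) (u2 := t0)
    (W := fun _ => 2 * 10 ^ 6 * (10 ^ 4 * Γ.lam (j + 2) * a /
      ((Γ.M j + 1) * (ν * Γ.lam (j + 1) ^ 2))) ^ 2) (J := fun _ => 0) le_rfl (by positivity)
  have mb0 : (0 : ℝ) < Γ.M (j + 1) + 1 := by positivity
  unfold Raw.ZZ Raw.WW Raw.xx
  set m : ℝ := Γ.M j + 1 with hm
  set mb : ℝ := Γ.M (j + 1) + 1 with hmb
  set q0 := ν * Γ.lam (j + 1) ^ 2 with hq0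
  set L := 10 ^ 4 * Γ.lam (j + 2) with hL
  set r := R.rr Γ j a with hrr
  set α := R.alf Γ j t0 with hal
  set Ta := Γ.T j
  set T := Γ.T (j + 1)
  have q0p : 0 < q0 := by positivity
  have Lp : 0 < L := by positivity
  have k0 : 1 ≤ k := (one_le_pow₀ Ta1).trans k1
  have m1 : 1 ≤ m := (one_le_pow₀ T1).trans m33
  have α0 : 0 < α := lt_of_lt_of_le (by positivity) hα
  obtain ⟨u, hu⟩ : ∃ u, u = L * a / (m * q0) := ⟨_, rfl⟩
  rw [← hu] at hU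
  have u0 : 0 < u := by rw [hu]; positivity
  have hu1 : u * (NN (Γ.M j) * m) ≤ 4 * 10 ^ 4 * T ^ 16 * k := by
    refine le_of_mul_le_mul_right ?_ q0p
    calc u * (NN (Γ.M j) * m) * q0 = 10 ^ 4 * (T ^ 8 * Ta ^ 8) * (Γ.lam j * NN (Γ.M j) * a) := by
          rw [hu, hL, e2, e1]; field_simp
      _ ≤ 10 ^ 4 * (T ^ 8 * T ^ 8) * (4 * r) := by (clear * - ha la Na hA Ta1 T1 Tm; gcongr)
      _ = _ := by rw [hk]; ring
  obtain ⟨n1, n2⟩ := num_pre hT m33 (by linarith only [k0]) k3 u0.le Na hNa2 hu1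
  obtain ⟨W, hW⟩ : ∃ W, W = 2 * 10 ^ 6 * u ^ 2 := ⟨_, rfl⟩
  rw [← hW] at hU n1
  have W0 : 0 < W := by rw [hW]; positivity
  have m10 : 10 ≤ m := by
    refine le_trans ?_ m33
    exact le_trans (le_trans (by norm_num) hT) (le_self_pow₀ T1 (by norm_num))
  have Wm : W * m ≤ 1 := le_trans (by gcongr; exact le_self_pow₀ m1 (by norm_num)) n1
  have W10 : 10 * W ≤ 1 := by linarith only [Wm, mul_le_mul_of_nonneg_left m10 W0.le]
  have W1 : W ≤ 1 := by linarith only [W10]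
  have Tk : ∀ c : ℝ, 0 ≤ c → c ≤ 10 ^ 100 → c * Ta ^ 26 * k ≤ m := fun c c0 hc => by
    refine le_trans ?_ k2
    calc c * Ta ^ 26 * k ≤ Ta * Ta ^ 26 * k := by gcongr; exact hc.trans hTa
      _ = k * Ta ^ 27 := by ring
      _ ≤ _ := by gcongr; norm_num
  have T2026 : Ta ^ 20 ≤ Ta ^ 26 := pow_le_pow_right₀ Ta1 (by norm_num)
  have qc : ν * Γ.lam (j + 2) ^ 2 = T ^ 16 * q0 := by rw [e2, hq0]; ring
  have T16 : 1 ≤ T ^ 16 := one_le_pow₀ T1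
  have key := hU (fun t ht => ⟨W0, W1, ?_, ?_, ?_, 0, hasDerivWithinAt_const _ _ _, le_rfl, by
      simp⟩) (fun t ht => ⟨le_rfl, 0, hasDerivWithinAt_const _ _ _, le_rfl, ?_⟩)
    (fun i h1 h2 => ?_) (fun s hs => ?_) t0 ⟨S.t0_nonneg, le_rfl⟩
  · obtain ⟨ky, kc⟩ := key
    have hx : u / (4 * k) ≤ L * (α / 2) / r := by
      calc u / (4 * k) = L * (a / (2 * m) / 2) / r := by rw [hu, hk]; field_simp; ring
        _ ≤ _ := by (clear * - lc hr hα; gcongr)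
    obtain ⟨x, hxx⟩ : ∃ x, x = L * (α / 2) / r := ⟨_, rfl⟩
    rw [← hxx] at hx ⊢
    have x0 : 0 < x := lt_of_lt_of_le (by positivity) hx
    have hrq : r / q0 = k := by rw [hk]; field_simp
    rw [hrq]
    have WW : W ≤ 10 ^ 8 * (x ^ 2 + k ^ 2 * x * x) := by
      have h1 : u / 4 ≤ k * x := by
        rw [div_le_iff₀ (by positivity)] at hx
        linarith only [hx]
      have h2 : (u / 4) ^ 2 ≤ (k * x) ^ 2 := by gcongr
      linarith only [hW, h2, sq_nonneg x, sq_nonneg u]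
    have qr : 2 * q0 ≤ r / 2 := by
      have : (4 : ℝ) ≤ k := le_trans (le_trans (le_trans (by norm_num) hTa)
        (le_self_pow₀ Ta1 (by norm_num))) k1
      rw [hk]; linarith only [mul_le_mul_of_nonneg_right this q0p.le]
    refine ⟨fun i h1 h2 => (ky i h1 h2).trans ?_, fun s hs => (kc s hs).trans ?_,
      fun s hs => (kc s hs).trans ?_, ?_⟩
    · calc 2 * (q0 / L * W ^ Nat.fib i / 10 ^ 4) = 2 * q0 / L * W ^ Nat.fib i / 10 ^ 4 := by ring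
        _ ≤ _ := by (clear * - lc hr W0 WW qr; gcongr)
    · have : (0 : ℝ) ≤ 60 * R.rho Γ j a t0 := by
        have : (0 : ℝ) < 1 / m := by positivity
        linarith only [hρ, this]
      gcongr
      linarith only [q0p, qr]
    · have Wx : W ≤ x := by
        refine le_trans ?_ hx
        rw [le_div_iff₀ (by positivity), hW]
        linarith only [mul_le_mul_of_nonneg_right n2 u0.le]
      have Wb : W * mb ≤ 1 := by
        refine le_trans ?_ n1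
        have : Ta ^ 8 / 2 ≤ m := by
          refine le_trans ?_ m33
          have h1 : Ta ^ 8 ≤ T ^ 8 := by gcongr
          have h2 : T ^ 8 ≤ T ^ 33 := pow_le_pow_right₀ T1 (by norm_num)
          have : 0 ≤ Ta ^ 8 := by positivity
          linarith only [h1, h2, this]
        have h3 : mb ≤ m * m := mL.trans (by (clear * - this; gcongr))
        have h4 : m * m ≤ m ^ 3 := by rw [← sq]; exact pow_le_pow_right₀ m1 (by norm_num)
        gcongr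
        exact h3.trans h4
      have hF : W ^ Nat.fib (Γ.n (j + 1)) ≤ W ^ 2 :=
        pow_le_pow_of_le_one W0.le W1 (fib_two (by omega))
      rw [Real.exp_zero, mul_one, le_div_iff₀ mb0]
      calc q0 / L * W ^ Nat.fib (Γ.n (j + 1)) * mb ≤ r / L * W ^ 2 * mb := by
            gcongr; linarith only [q0p, qr]
        _ = r / L * W * (W * mb) := by ring
        _ ≤ r / L * x * 1 := by (clear * - lc hr W0 x0 Wx Wb; gcongr)
        _ = α / 2 := by rw [hxx]; field_simp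
    · have hs : 16 * 10 ^ 4 * Γ.lam (j + 1) * NN (Γ.M (j + 1)) * (a / m) ≤ q0 := by
        rw [← mul_div_assoc, div_le_iff₀ (by positivity)]
        have := Tk (128 * 10 ^ 4) (by norm_num) (by norm_num)
        calc 16 * 10 ^ 4 * Γ.lam (j + 1) * NN (Γ.M (j + 1)) * a
            = 16 * 10 ^ 4 * (Γ.lam (j + 1) * NN (Γ.M (j + 1)) * a) := by ring
          _ ≤ 16 * 10 ^ 4 * (4 * (2 * Ta ^ 26 * r)) := by
            refine mul_le_mul_of_nonneg_left (hB.trans ?_) (by norm_num)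
            exact mul_le_mul_of_nonneg_left (hC.trans (by gcongr)) (by norm_num)
          _ = q0 * (128 * 10 ^ 4 * Ta ^ 26 * k) := by rw [hk]; ring
          _ ≤ _ := by gcongr
      refine (hE hs t0 ⟨S.t0_nonneg, le_rfl⟩).trans (pow_le_pow_left₀ (by positivity) ?_ 2)
      rw [div_le_div_iff₀ q0p (by positivity)]
      have h1 : Γ.lam (j + 1) * a ≤ 8 * Ta ^ 20 * r := by
        calc Γ.lam (j + 1) * a ≤ Γ.lam (j + 1) * NN (Γ.M (j + 1)) * a := by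
              gcongr; exact le_mul_of_one_le_right lb.le Nb
          _ ≤ 4 * (2 * Ta ^ 20 * r) := hB.trans (by gcongr)
          _ = _ := by ring
      have h2 : T ^ 6 ≤ (2 * Ta) ^ 6 := by gcongr
      have h3 := Tk (64 * 64 * 10 ^ 4) (by norm_num) (by norm_num)
      calc 2 * 10 ^ 4 * Γ.lam (j + 1) * (a / m) ^ 2 * T ^ 6
          = 2 * 10 ^ 4 * (Γ.lam (j + 1) * a) * T ^ 6 * (a / m ^ 2) := by rw [div_pow]; ring
        _ ≤ 2 * 10 ^ 4 * (8 * Ta ^ 20 * r) * (2 * Ta) ^ 6 * (a / m ^ 2) := by (clear * - ha hr Ta1 T1 h1 h2; gcongr)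
        _ = (64 * 64 * 10 ^ 4 * Ta ^ 26 * k) * (a / m ^ 2 / 4) * q0 := by rw [hk]; ring
        _ ≤ m * (a / m ^ 2 / 4) * q0 := by (clear * - hν ha lb h3; gcongr)
        _ = a / (2 * m) / 2 * q0 := by field_simp; ring
        _ ≤ _ := by gcongr
  · have h0 : 0 ≤ R.nr (j + 1) t := nr3_nonneg _ _ _
    calc L ^ 2 * (2 * R.nr (j + 1) t ^ 2) ≤ L ^ 2 * (2 * (a / m) ^ 2) := by
          gcongr; exact past t ht
      _ = _ := by rw [hW, hu]; field_simp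
  · have : W ^ Nat.fib (Γ.n (j + 1) - 2) ≤ W ^ 1 :=
      pow_le_pow_of_le_one W0.le W1 (Nat.fib_pos.mpr (by omega))
    rw [Real.exp_zero]
    linarith only [W10, this]
  · have h1 : NN (Γ.M (j + 2)) ≤ T ^ 24 / 4 * m ^ 2 := by
      calc NN (Γ.M (j + 2)) ≤ T ^ 12 / 2 * (Ta ^ 12 / 2 * NN (Γ.M j)) := hNc.trans (by gcongr)
        _ ≤ T ^ 12 / 2 * (T ^ 12 / 2 * m ^ 2) := by (clear * - Na hNa Ta1 T1 Tm; gcongr)
        _ = _ := by ring
    have h2 : 250 * T ^ 24 ≤ m := by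
      refine le_trans ?_ m33
      calc 250 * T ^ 24 ≤ T * T ^ 24 := by gcongr; exact le_trans (by norm_num) hT
        _ = T ^ 25 := by ring
        _ ≤ _ := pow_le_pow_right₀ T1 (by norm_num)
    rw [qc]
    calc 10 ^ 3 * NN (Γ.M (j + 2)) * q0 * W ^ 2 ≤ 10 ^ 3 * (T ^ 24 / 4 * m ^ 2) * q0 * W ^ 2 := by
          (clear * - hν lb W0 h1; gcongr)
      _ = (250 * T ^ 24) * (m ^ 2 * W) * W * q0 := by ring
      _ ≤ m * (m ^ 2 * W) * 1 * q0 := by (clear * - hν lb W0 W1 h2; gcongr)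
      _ = (W * m ^ 3) * q0 := by ring
      _ ≤ T ^ 16 * q0 := by gcongr; linarith only [n1, T16]
  · have h0 : 0 ≤ R.kap (j + 1) := (N.kap_pos _).le
    have h3 := Tk 320 (by norm_num) (by norm_num)
    rw [qc, zero_add]
    calc 20 * R.kap (j + 1) * NN (Γ.M (j + 1)) * R.nr (j + 1) t
        ≤ 20 * R.kap (j + 1) * NN (Γ.M (j + 1)) * (a / m) := by gcongr; exact past t ht
      _ = 20 * R.rr Γ (j + 1) a / m := by unfold Raw.rr; ring
      _ ≤ 20 * (2 * Ta ^ 26 * r) / m := by gcongr; exact hC.trans (by gcongr)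
      _ = (320 * Ta ^ 26 * k) * q0 / 8 / m := by rw [hk]; ring
      _ ≤ m * q0 / 8 / m := by (clear * - hν lb h3; gcongr)
      _ = 1 * q0 / 8 := by field_simp
      _ ≤ _ := by gcongr
  · have h := (N.yE j i 0 le_rfl h1 h2).trans (E_zero N j)
    have : R.y (j + 1) i 0 = 0 := pow_eq_zero_iff two_ne_zero |>.mp (le_antisymm h (sq_nonneg _))
    rw [this, abs_zero]
    positivity
  · have hs0 : s = 0 := le_antisymm hs.2 hs.1
    have h := N.nrE (j + 2) 0 le_rfl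
    have h' := E_zero N j
    have : R.nr (j + 2) 0 = 0 :=
      pow_eq_zero_iff two_ne_zero |>.mp (le_antisymm (by linarith only [h, h']) (sq_nonneg _))
    rw [hs0, this]
    positivity

/-- During the stage, as long as the next rate is moderate. -/
theorem upper (hν : 0 < ν) (N : IsNet Γ ν a0 R) (S : St Γ ν R j t0 a tb) (H : Run Γ R j t0 a t1)
    {u : ℝ} (hu : u ∈ Icc t0 t1) (hρ : R.rho Γ j a u ≤ Γ.T (j + 1) ^ 17 / 1000) :
    ∀ t ∈ Icc t0 u, (∀ m, 1 ≤ m → m < Γ.n (j + 1) → |R.y (j + 1) m t| ≤ R.rr Γ j a /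
      (10 ^ 4 * Γ.lam (j + 2)) * R.WW Γ ν j a t0 t ^ Nat.fib m / 10 ^ 4) ∧
      (∀ s ∈ Icc 0 t, R.nr (j + 2) s ≤ R.ZZ Γ ν j a t0 t) ∧
      R.ZZ Γ ν j a t0 t ≤ R.rr Γ j a / (10 ^ 4 * Γ.lam (j + 2)) *
        R.WW Γ ν j a t0 t ^ Nat.fib (Γ.n (j + 1) - 1) := by
  obtain ⟨k, hk, k1, k2, k3⟩ := k_facts hν S
  have hr := S.rr_pos N
  have lb := Γ.lam_pos' (j + 1)
  have lc := Γ.lam_pos' (j + 2)
  have e2 := Γ.lam_succ' (j + 1)
  have Ta1 := one_le_T Γ j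
  have T1 := one_le_T Γ (j + 1)
  have hT := Γ.Tbig (j + 1)
  have Nb := NN_pos (Γ.M (j + 1))
  have kb := N.kap_pos (j + 1)
  have sub : ∀ t ∈ Icc t0 u, t ∈ Icc t0 t1 := fun t ht => ⟨ht.1, ht.2.trans hu.2⟩
  have small : ∀ t ∈ Icc t0 u, 10 * Real.exp (60 * R.rho Γ j a t) *
      R.WW Γ ν j a t0 t ^ Nat.fib (Γ.n (j + 1) - 2) ≤ 1 := fun t ht => by
    obtain ⟨W0, W1, -⟩ := H.hd_WW hν N S (sub t ht)
    have h1 : R.rho Γ j a t ≤ Γ.T (j + 1) ^ 17 / 1000 := by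
      refine le_trans ?_ hρ
      have := H.mono N S ht.1 ht.2 hu.2
      unfold Raw.rho
      refine div_le_div_of_nonneg_right ?_ hr.le
      unfold Raw.rr
      gcongr
    have h2 := Γ.fib_lo (j + 1)
    have h3 : R.WW Γ ν j a t0 t ^ Nat.fib (Γ.n (j + 1) - 2) ≤
        Real.exp (-(Γ.T (j + 1) ^ 17 / 4)) := by
      refine (pow_le_pow_left₀ W0.le W1 _).trans ?_
      rw [← Real.exp_nat_mul, Real.exp_le_exp]
      have : Γ.T (j + 1) ^ 8 / 4 * Γ.T (j + 1) ^ 9 ≤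
          Nat.fib (Γ.n (j + 1) - 2) * Γ.T (j + 1) ^ 9 := by gcongr
      linarith only [this, show Γ.T (j + 1) ^ 8 / 4 * Γ.T (j + 1) ^ 9 = Γ.T (j + 1) ^ 17 / 4 by ring]
    have h4 : (100 : ℝ) ≤ Γ.T (j + 1) ^ 17 :=
      le_trans (le_trans (by norm_num) hT) (le_self_pow₀ T1 (by norm_num))
    have h5 := Real.add_one_le_exp (19 / 100 * Γ.T (j + 1) ^ 17)
    calc _ ≤ Real.exp (19 / 100 * Γ.T (j + 1) ^ 17) * Real.exp (60 * (Γ.T (j + 1) ^ 17 / 1000)) *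
          Real.exp (-(Γ.T (j + 1) ^ 17 / 4)) := by gcongr; linarith only [h4, h5]
      _ = 1 := by rw [← Real.exp_add, ← Real.exp_add, Real.exp_eq_one_iff]; ring
  obtain ⟨p1, p2, -⟩ := pre hν N S
  have key := upperPack (j := j) hν N (q := R.rr Γ j a / 2) (u1 := t0) (u2 := u)
    (W := R.WW Γ ν j a t0) (J := fun t => 60 * R.rho Γ j a t) S.t0_nonneg (by positivity)
    (fun t ht => ?_) (fun t ht => ?_) p1 p2
  · intro t ht
    obtain ⟨ky, kc⟩ := key t ht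
    obtain ⟨W0, -⟩ := H.hd_WW hν N S (sub t ht)
    refine ⟨fun i h1 h2 => (ky i h1 h2).trans (le_of_eq (by ring)), kc, ?_⟩
    have := small t ht
    unfold Raw.ZZ
    rw [Γ.fib_add (j + 1), pow_add]
    calc _ = R.rr Γ j a / (10 ^ 4 * Γ.lam (j + 2)) * R.WW Γ ν j a t0 t ^ Nat.fib (Γ.n (j + 1) - 1) *
          ((10 * Real.exp (60 * R.rho Γ j a t) *
            R.WW Γ ν j a t0 t ^ Nat.fib (Γ.n (j + 1) - 2)) / 20) := by ring
      _ ≤ _ := mul_le_of_le_one_right (by positivity) (by linarith only [this])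
  · obtain ⟨W0, W1, -, W3, -, D, hD, hD'⟩ := H.hd_WW hν N S (sub t ht)
    have hW : R.WW Γ ν j a t0 t ≤ 1 :=
      W1.trans (Real.exp_le_one_iff.mpr (neg_nonpos.mpr (by positivity)))
    refine ⟨W0, hW, ?_, small t ht, ?_, D, hD, le_trans (by positivity) hD',
      hD'.trans (le_add_of_nonneg_right (by positivity))⟩
    · have h0 : 0 ≤ R.nr (j + 1) t := nr3_nonneg _ _ _
      have h1 := H.nr_le (sub t ht)
      have x0 := (H.hd_xx N S ⟨le_rfl, H.le⟩).1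
      have x1 := (H.hd_xx N S (sub t ht)).1
      have h2 : 10 ^ 8 * R.xx Γ j a t ^ 2 ≤ R.WW Γ ν j a t0 t := by
        unfold Raw.WW
        gcongr
        exact le_add_of_nonneg_right (by positivity)
      calc _ ≤ (10 ^ 4 * Γ.lam (j + 2)) ^ 2 * (2 * (71 / 100 * R.alf Γ j t) ^ 2) := by gcongr
        _ ≤ (10 ^ 4 * Γ.lam (j + 2)) ^ 2 * (25 / 4 * R.alf Γ j t ^ 2) := by
          gcongr ?_ * ?_
          linarith only [sq_nonneg (R.alf Γ j t)]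
        _ = (R.rr Γ j a / 2) ^ 2 * (10 ^ 8 * R.xx Γ j a t ^ 2) / 10 ^ 6 := by
          unfold Raw.xx; field_simp; ring
        _ ≤ _ := by gcongr
    · have k0 : 1 ≤ k := (one_le_pow₀ Ta1).trans k1
      have hm : (Γ.M j + 1 : ℝ) ≤ Γ.M (j + 1) + 1 := by
        have := Γ.M_mono j
        exact_mod_cast Nat.succ_le_succ this
      have km : k ≤ Γ.M (j + 1) + 1 := ((le_self_pow₀ k0 two_ne_zero).trans k3).trans hm
      have h1 : NN (Γ.M (j + 2)) ≤ Γ.T (j + 1) ^ 12 / 2 * (Γ.M (j + 1) + 1) ^ 2 :=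
        (Γ.NN_hi (j + 1)).trans (by gcongr; exact NN_le_sq _)
      have h2 : 250 * Γ.T (j + 1) ^ 12 ≤ Γ.T (j + 1) ^ 16 := by
        calc 250 * Γ.T (j + 1) ^ 12 ≤ Γ.T (j + 1) * Γ.T (j + 1) ^ 12 := by
              gcongr; exact le_trans (by norm_num) hT
          _ = Γ.T (j + 1) ^ 13 := by ring
          _ ≤ _ := pow_le_pow_right₀ T1 (by norm_num)
      have mb1 : (1 : ℝ) ≤ Γ.M (j + 1) + 1 := k0.trans km
      rw [hk, e2]
      generalize (Γ.M (j + 1) + 1 : ℝ) = mb at *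
      calc _ ≤ 10 ^ 3 * (Γ.T (j + 1) ^ 12 / 2 * mb ^ 2) * (mb * (ν * Γ.lam (j + 1) ^ 2) / 2) *
            (1 / mb ^ 2) ^ 2 := by (clear * - hν lb T1 W0 k0 W3 km h1 mb1; gcongr)
        _ = 250 * Γ.T (j + 1) ^ 12 * (ν * Γ.lam (j + 1) ^ 2) / mb := by field_simp; ring
        _ ≤ Γ.T (j + 1) ^ 16 * (ν * Γ.lam (j + 1) ^ 2) / 1 := by gcongr
        _ = _ := by ring
  · obtain ⟨ρ0, D, hD, hD', -⟩ := H.hd_rho N S (sub t ht)
    have h1 := H.nr_le (sub t ht)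
    have h2 : 0 < R.rr Γ j a / 2 * R.rho Γ j a t := by positivity
    refine ⟨by positivity, 60 * D, hD.const_mul 60, by linarith only [hD', h2], ?_⟩
    calc _ ≤ 20 * R.kap (j + 1) * NN (Γ.M (j + 1)) * (71 / 100 * R.alf Γ j t) := by gcongr
      _ = 568 / 10 * (R.rr Γ j a / 2 * R.rho Γ j a t) := by
        unfold Raw.rho
        field_simp
        unfold Raw.rr
        ring
      _ ≤ 60 * D := by linarith only [hD', h2]
      _ ≤ _ := le_add_of_nonneg_right (by positivity)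

theorem trigger (hν : 0 < ν) (N : IsNet Γ ν a0 R) (S : St Γ ν R j t0 a tb)
    (H : Run Γ R j t0 a t1) : Γ.T (j + 1) ^ 17 / 1000 ≤ R.rho Γ j a t1 := by
  by_contra hc
  have hc' := not_le.mp hc
  have T1 := one_le_T Γ (j + 1)
  have h1 : t1 ∈ Icc t0 t1 := ⟨H.le, le_rfl⟩
  rcases H.stop with h | h
  · have h2 : Γ.T (j + 1) ^ 17 ≤ Γ.T (j + 1) ^ 18 := pow_le_pow_right₀ T1 (by norm_num)
    have h3 : 0 < Γ.T (j + 1) ^ 17 := by positivity
    linarith only [hc, h, h2, h3]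
  · obtain ⟨-, k1, k2⟩ := upper hν N S H h1 hc'.le t1 h1
    obtain ⟨W0, W1, W2, W3, -⟩ := H.hd_WW hν N S h1
    have hW : R.WW Γ ν j a t0 t1 ≤ 1 :=
      W1.trans (Real.exp_le_one_iff.mpr (neg_nonpos.mpr (by positivity)))
    have hr := S.rr_pos N
    have lc := Γ.lam_pos' (j + 2)
    have n8 := Γ.n8 (j + 1)
    have hα := H.pos t1 h1
    have x0 := (H.hd_xx N S h1).1
    have hF : R.WW Γ ν j a t0 t1 ^ Nat.fib (Γ.n (j + 1) - 1) ≤ R.WW Γ ν j a t0 t1 ^ 2 :=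
      pow_le_pow_of_le_one W0.le hW (fib_two (by omega))
    have k3 := (k1 t1 ⟨S.t0_nonneg.trans H.le, le_rfl⟩).trans k2
    have mb : (100 : ℝ) ≤ Γ.M (j + 1) := by exact_mod_cast Γ.M_big (j + 1)
    have k4 : R.alf Γ j t1 / 2 / (Γ.M (j + 1) + 1) ≤
        R.alf Γ j t1 / 2 / (Γ.M (j + 1) + 1) ^ 2 := by
      calc _ = R.nr (j + 2) t1 := h.symm
        _ ≤ R.rr Γ j a / (10 ^ 4 * Γ.lam (j + 2)) * R.WW Γ ν j a t0 t1 ^ 2 :=
          k3.trans (by gcongr)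
        _ = R.rr Γ j a / (10 ^ 4 * Γ.lam (j + 2)) * (R.WW Γ ν j a t0 t1 * R.WW Γ ν j a t0 t1) := by
          ring
        _ ≤ R.rr Γ j a / (10 ^ 4 * Γ.lam (j + 2)) *
          (R.xx Γ j a t1 * (1 / (Γ.M (j + 1) + 1) ^ 2)) := by gcongr
        _ = _ := by unfold Raw.xx; field_simp
    rw [div_le_div_iff_of_pos_left (by positivity) (by positivity) (by positivity)] at k4
    nlinarith only [mb, k4]

end

end Pool.Agent.Work.MP_6bf1e5_an.Dec
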